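import Pool.Agent.H408R2.CM.Stubs

set_option autoImplicit false

/-! # B1: bound of a relevant dyadic box (helper406) -/

open Complex MeasureTheory Filter Topology

namespace Pool.Agent.H408R2.CM

open Pool.Agent.H304R4.CM

theorem B1_cp {r : ℝ} (hr : 0 < r) (z : ℂ) :
    (r : ℂ) ^ z = Complex.exp ((Real.log r : ℂ) * z) := by
  rw [Complex.cpow_def_of_ne_zero (by exact_mod_cast hr.ne'), Complex.ofReal_log hr.le]

theorem B1_eta_ne (η : ℝ) : ((η : ℂ) + I) ≠ 0 := by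
  intro h
  have := congrArg Complex.im h
  simp at this

theorem B1_conj_ee (y : ℝ) : (starRingEnd ℂ) (ee y) = Complex.exp (-((2 * Real.pi * y : ℝ) * I)) := by
  unfold ee
  rw [← Complex.exp_conj, map_mul, Complex.conj_ofReal, Complex.conj_I]
  congr 1
  ring

/-- the kernel at `x` -/
theorem B1_Ph (k : ℕ) (δ : ℝ) (w : ℂ) {x : ℝ} (hx : 0 < x) :
    Ph k δ w x = (cG k δ w * (4 * Real.pi) *
      ((Real.tan (2 * δ) : ℂ) + I) ^ ((k : ℂ) + 1 / 2 + w)) *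
      ((((Real.pi * x ^ 2 : ℝ) : ℂ)) ^ ((k : ℂ) + 1 / 2 + w) *
        ((Real.exp (-(Real.pi * Real.tan (2 * δ) * x ^ 2)) : ℝ) : ℂ)) *
      (starRingEnd ℂ) (ee (x ^ 2 / 2)) := by
  obtain ⟨η, hη⟩ : ∃ η : ℝ, η = Real.tan (2 * δ) := ⟨_, rfl⟩
  obtain ⟨κ, hκ⟩ : ∃ κ : ℂ, κ = (k : ℂ) + 1 / 2 + w := ⟨_, rfl⟩
  have hr : 0 < Real.pi * x ^ 2 := by positivity
  unfold Ph
  rw [← hη, ← hκ]
  have e1 : bas η * (x : ℂ) ^ 2 = ((Real.pi * x ^ 2 : ℝ) : ℂ) * ((η : ℂ) + I) := by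
    unfold bas
    push_cast
    ring
  rw [e1]
  have e2 : (((Real.pi * x ^ 2 : ℝ) : ℂ) * ((η : ℂ) + I)) ^ κ =
      ((Real.pi * x ^ 2 : ℝ) : ℂ) ^ κ * ((η : ℂ) + I) ^ κ := by
    rw [Complex.cpow_def_of_ne_zero (mul_ne_zero (by exact_mod_cast hr.ne') (B1_eta_ne η)),
      Complex.log_ofReal_mul hr (B1_eta_ne η), B1_cp hr,
      Complex.cpow_def_of_ne_zero (B1_eta_ne η), ← Complex.exp_add]
    congr 1
    ring
  have e3 : Complex.exp (-(((Real.pi * x ^ 2 : ℝ) : ℂ) * ((η : ℂ) + I))) =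
      ((Real.exp (-(Real.pi * η * x ^ 2)) : ℝ) : ℂ) * (starRingEnd ℂ) (ee (x ^ 2 / 2)) := by
    rw [B1_conj_ee, Complex.ofReal_exp, ← Complex.exp_add]
    congr 1
    push_cast
    ring
  rw [e2, e3]
  ring

theorem B1_arg {δ : ℝ} (h0 : 0 < δ) (h1 : 2 * δ < 1) :
    Complex.arg ((Real.tan (2 * δ) : ℂ) + I) = Real.pi / 2 - 2 * δ := by
  have hpi := Real.pi_gt_three
  have hc : 0 < Real.cos (2 * δ) := Real.cos_pos_of_mem_Ioo ⟨by linarith, by linarith⟩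
  have e1 : ((Real.tan (2 * δ) : ℝ) : ℂ) + I = ((1 / Real.cos (2 * δ) : ℝ) : ℂ) *
      (Complex.cos ((Real.pi / 2 - 2 * δ : ℝ) : ℂ) + Complex.sin ((Real.pi / 2 - 2 * δ : ℝ) : ℂ) * I) := by
    rw [← Complex.ofReal_cos, ← Complex.ofReal_sin, Real.cos_pi_div_two_sub,
      Real.sin_pi_div_two_sub, Real.tan_eq_sin_div_cos]
    have hc' : (Real.cos (2 * δ) : ℂ) ≠ 0 := by exact_mod_cast hc.ne'
    push_cast at hc' ⊢
    field_simp
  rw [e1, Complex.arg_mul_cos_add_sin_mul_I (by positivity) ⟨by linarith, by linarith⟩]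

theorem B1_tan {x : ℝ} (h0 : 0 < x) (h1 : x ≤ 1) : x ≤ Real.tan x ∧ Real.tan x ≤ 2 * x := by
  have hpi := Real.pi_gt_three
  refine ⟨Real.le_tan h0.le (by linarith), ?_⟩
  have hc : 1 / 2 ≤ Real.cos x := by
    have := Real.one_sub_sq_div_two_le_cos (x := x)
    nlinarith
  rw [Real.tan_eq_sin_div_cos, div_le_iff₀ (by linarith)]
  have := Real.sin_le h0.le
  nlinarith

/-- the constant -/
theorem B1_c0 (k : ℕ) (δ : ℝ) (w : ℂ) (h0 : 0 < δ) (h1 : 2 * δ ≤ 1 / 4) (hw0 : 0 ≤ w.re)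
    (hw1 : w.re ≤ 1 / 2) (hv : 2 * δ * |w.im| ≤ 1) (hk : 16 * δ ^ 2 * (k + 1) ≤ 1) :
    ‖cG k δ w * (4 * Real.pi) * ((Real.tan (2 * δ) : ℂ) + I) ^ ((k : ℂ) + 1 / 2 + w)‖ ≤
      100 * (δ ^ (k + 1) * 2 ^ k / k.factorial) := by
  obtain ⟨ht1, ht2⟩ := B1_tan (x := 2 * δ) (by linarith) (by linarith)
  have hpi := Real.pi_gt_three
  have hpi4 := Real.pi_lt_d2
  have harg := B1_arg h0 (by linarith)
  obtain ⟨η, hη⟩ : ∃ η : ℝ, η = Real.tan (2 * δ) := ⟨_, rfl⟩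
  rw [← hη] at ht1 ht2 harg ⊢
  have hκre : ((k : ℂ) + 1 / 2 + w).re = k + 1 / 2 + w.re := by simp
  have hκim : ((k : ℂ) + 1 / 2 + w).im = w.im := by simp
  -- the norm of `η + i`
  have hn : ‖(η : ℂ) + I‖ ≤ Real.exp (η ^ 2 / 2) := by
    have e1 : ‖(η : ℂ) + I‖ ^ 2 = 1 + η ^ 2 := by
      rw [← Complex.normSq_eq_norm_sq, Complex.normSq_apply]
      simp
      ring
    have e2 : 1 + η ^ 2 ≤ Real.exp (η ^ 2 / 2) ^ 2 := by
      rw [← Real.exp_nat_mul]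
      have := Real.add_one_le_exp (η ^ 2)
      have e3 : ((2 : ℕ) : ℝ) * (η ^ 2 / 2) = η ^ 2 := by push_cast; ring
      rw [e3]
      linarith
    rw [← e1] at e2
    exact (sq_le_sq₀ (norm_nonneg _) (Real.exp_pos _).le).1 e2
  have hpow : ‖(η : ℂ) + I‖ ^ ((k : ℝ) + 1 / 2 + w.re) ≤ 2 := by
    calc ‖(η : ℂ) + I‖ ^ ((k : ℝ) + 1 / 2 + w.re)
        ≤ Real.exp (η ^ 2 / 2) ^ ((k : ℝ) + 1 / 2 + w.re) :=
          Real.rpow_le_rpow (norm_nonneg _) hn (by positivity)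
      _ = Real.exp (η ^ 2 / 2 * ((k : ℝ) + 1 / 2 + w.re)) := by rw [← Real.exp_mul]
      _ ≤ Real.exp (1 / 2) := by
          apply Real.exp_le_exp.2
          have e1 : η ^ 2 ≤ 16 * δ ^ 2 := by nlinarith
          have e2 : (k : ℝ) + 1 / 2 + w.re ≤ k + 1 := by linarith
          have e3 : η ^ 2 * ((k : ℝ) + 1 / 2 + w.re) ≤ 16 * δ ^ 2 * (k + 1) :=
            mul_le_mul e1 e2 (by positivity) (by positivity)
          linarith
      _ ≤ 2 := by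
          have := Real.exp_one_lt_d9
          have e1 : Real.exp (1 / 2) ^ 2 = Real.exp 1 := by
            rw [← Real.exp_nat_mul]
            norm_num
          nlinarith [Real.exp_pos (1 / 2 : ℝ)]
  have h5 : ‖((η : ℂ) + I) ^ ((k : ℂ) + 1 / 2 + w)‖ ≤
      2 * Real.exp (-((Real.pi / 2 - 2 * δ) * w.im)) := by
    rw [Complex.norm_cpow_of_ne_zero (B1_eta_ne η), harg, hκre, hκim, Real.exp_neg,
      div_eq_mul_inv]
    exact mul_le_mul_of_nonneg_right hpow (by positivity)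
  have h6 : ‖cG k δ w‖ ≤ (δ ^ (k + 1) * 2 ^ k / k.factorial) * Real.exp (Real.pi / 2 * w.im) := by
    unfold cG
    rw [norm_mul, norm_mul, Complex.norm_real, Complex.norm_exp,
      Complex.norm_cpow_eq_rpow_re_of_pos Real.pi_pos]
    have e1 : (-((k : ℂ) + 1 / 4 + w) * (Real.pi / 2) * I).re = Real.pi / 2 * w.im := by
      simp [Complex.mul_re, Complex.mul_im]
      ring
    rw [e1]
    refine mul_le_mul_of_nonneg_right ?_ (Real.exp_pos _).le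
    have e2 : Real.pi ^ (-w).re ≤ 1 := by
      apply Real.rpow_le_one_of_one_le_of_nonpos (by linarith)
      simpa using hw0
    have e3 : ‖δ ^ (k + 1) * 2 ^ k / ((k.factorial : ℝ) * √(2 * Real.pi))‖ ≤
        δ ^ (k + 1) * 2 ^ k / k.factorial := by
      rw [Real.norm_of_nonneg (by positivity)]
      apply div_le_div_of_nonneg_left (by positivity) (by positivity)
      have e4 : 1 ≤ √(2 * Real.pi) := by
        rw [Real.one_le_sqrt]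
        linarith
      have e5 : (0 : ℝ) < k.factorial := by positivity
      nlinarith
    calc _ ≤ (δ ^ (k + 1) * 2 ^ k / k.factorial) * 1 :=
          mul_le_mul e3 e2 (by positivity) (by positivity)
      _ = _ := mul_one _
  rw [norm_mul, norm_mul]
  have h7 : ‖(4 * (Real.pi : ℂ))‖ = 4 * Real.pi := by
    rw [norm_mul, Complex.norm_real, Real.norm_of_nonneg Real.pi_pos.le]
    norm_num
  rw [h7]
  have h8 : Real.exp (Real.pi / 2 * w.im) * Real.exp (-((Real.pi / 2 - 2 * δ) * w.im)) ≤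
      Real.exp 1 := by
    rw [← Real.exp_add]
    apply Real.exp_le_exp.2
    have : 2 * δ * w.im ≤ 2 * δ * |w.im| :=
      mul_le_mul_of_nonneg_left (le_abs_self _) (by linarith)
    nlinarith
  have hP : 0 ≤ δ ^ (k + 1) * 2 ^ k / (k.factorial : ℝ) := by positivity
  calc ‖cG k δ w‖ * (4 * Real.pi) * ‖((η : ℂ) + I) ^ ((k : ℂ) + 1 / 2 + w)‖
      ≤ ((δ ^ (k + 1) * 2 ^ k / k.factorial) * Real.exp (Real.pi / 2 * w.im)) * (4 * Real.pi) *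
        (2 * Real.exp (-((Real.pi / 2 - 2 * δ) * w.im))) := by
        refine mul_le_mul (mul_le_mul_of_nonneg_right h6 (by positivity)) h5 (norm_nonneg _)
          (by positivity)
    _ = (δ ^ (k + 1) * 2 ^ k / k.factorial) * (8 * Real.pi *
        (Real.exp (Real.pi / 2 * w.im) * Real.exp (-((Real.pi / 2 - 2 * δ) * w.im)))) := by ring
    _ ≤ (δ ^ (k + 1) * 2 ^ k / k.factorial) * 100 := by
        refine mul_le_mul_of_nonneg_left ?_ hP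
        have h9 := Real.exp_one_lt_d9
        have h10 : 8 * Real.pi * (Real.exp (Real.pi / 2 * w.im) *
            Real.exp (-((Real.pi / 2 - 2 * δ) * w.im))) ≤ 8 * Real.pi * Real.exp 1 :=
          mul_le_mul_of_nonneg_left h8 (by positivity)
        nlinarith
    _ = _ := mul_comm _ _

/-- the Gamma factor -/
theorem B1_Gamma (k : ℕ) (hk : 1 ≤ k) (ε : ℝ) (h0 : 0 ≤ ε) (h1 : ε ≤ 1 / 2) :
    Real.Gamma ((k : ℝ) + 1 / 2 + ε) ≤ k.factorial := by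
  obtain ⟨m, rfl⟩ : ∃ m, k = m + 1 := ⟨k - 1, by omega⟩
  have hc := Real.convexOn_Gamma
  have hm : (0 : ℝ) < (m : ℝ) + 1 := by positivity
  have hm2 : (0 : ℝ) < (m : ℝ) + 1 + 1 := by positivity
  have h2 := hc.2 (Set.mem_Ioi.2 hm) (Set.mem_Ioi.2 hm2)
    (show 0 ≤ 1 - (1 / 2 + ε) by linarith) (show 0 ≤ 1 / 2 + ε by linarith) (by ring)
  simp only [smul_eq_mul] at h2
  have e1 : (1 - (1 / 2 + ε)) * ((m : ℝ) + 1) + (1 / 2 + ε) * ((m : ℝ) + 1 + 1) =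
      ((m + 1 : ℕ) : ℝ) + 1 / 2 + ε := by push_cast; ring
  have e2 : Real.Gamma ((m : ℝ) + 1 + 1) = (m + 1).factorial := by
    have := Real.Gamma_nat_eq_factorial (m + 1)
    push_cast at this
    exact this
  rw [e1, e2, Real.Gamma_nat_eq_factorial] at h2
  have e3 : (m.factorial : ℝ) ≤ (m + 1).factorial := by
    exact_mod_cast Nat.factorial_le (Nat.le_succ m)
  have e4 : (1 - (1 / 2 + ε)) * (m.factorial : ℝ) ≤ (1 - (1 / 2 + ε)) * (m + 1).factorial :=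
    mul_le_mul_of_nonneg_left e3 (by linarith)
  calc _ ≤ _ := h2
    _ ≤ (1 - (1 / 2 + ε)) * ((m + 1).factorial : ℝ) + (1 / 2 + ε) * (m + 1).factorial := by
        linarith
    _ = (m + 1).factorial := by ring

/-- separation of the variables -/
theorem B1_term {b c h B C H : ℝ} (hb : 0 < b) (hc : 0 < c) (hh : 0 < h) (hB : 0 < B)
    (hC : 0 < C) (hH : 0 < H) (w : ℂ) (u : ℝ) :
    ((b ^ (-(1 / 2) : ℝ) : ℝ) : ℂ) * ((c * h : ℝ) : ℂ) ^ (-(1 / 2 + w)) *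
      ((Real.pi * (b * c / h) ^ 2 : ℝ) : ℂ) ^ ((u : ℂ) * I) =
    ((Real.pi : ℂ) ^ ((u : ℂ) * I) * (B : ℂ) ^ (-(1 / 2 - 2 * (u : ℂ) * I)) *
      (C : ℂ) ^ (-(1 / 2 + w - 2 * (u : ℂ) * I)) * (H : ℂ) ^ (-(1 / 2 + w + 2 * (u : ℂ) * I))) *
    (((b / B : ℝ) : ℂ) ^ (-(1 / 2 - 2 * (u : ℂ) * I)) *
      ((c / C : ℝ) : ℂ) ^ (-(1 / 2 + w - 2 * (u : ℂ) * I)) *
      ((h / H : ℝ) : ℂ) ^ (-(1 / 2 + w + 2 * (u : ℂ) * I))) := by
  have hch : 0 < c * h := by positivity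
  have hx : 0 < Real.pi * (b * c / h) ^ 2 := by positivity
  rw [B1_cp hch, B1_cp hx, B1_cp Real.pi_pos, B1_cp hB, B1_cp hC, B1_cp hH,
    B1_cp (div_pos hb hB), B1_cp (div_pos hc hC), B1_cp (div_pos hh hH),
    Real.rpow_def_of_pos hb, Complex.ofReal_exp]
  simp only [← Complex.exp_add]
  congr 1
  rw [Real.log_mul hc.ne' hh.ne', Real.log_mul Real.pi_pos.ne' (by positivity), Real.log_pow,
    Real.log_div (by positivity) hh.ne', Real.log_mul hb.ne' hc.ne', Real.log_div hb.ne' hB.ne',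
    Real.log_div hc.ne' hC.ne', Real.log_div hh.ne' hH.ne']
  push_cast
  ring

/-- the weight -/
noncomputable def B1_W (s : ℂ) (r : ℝ) : ℂ := (starRingEnd ℂ) ((ww r : ℂ) * (r : ℂ) ^ (-s))

/-- the box sum with separated variables -/
noncomputable def B1_bx (w : ℂ) (B C H u : ℝ) : ℂ :=
  ∑ h ∈ Finset.Icc 1 ⌊2 * H⌋₊, ∑ b ∈ Finset.Icc 1 ⌊2 * B⌋₊, ∑ c ∈ Finset.Icc 1 ⌊2 * C⌋₊,
    ((ww ((b : ℝ) / B) * ww ((c : ℝ) / C) * ww ((h : ℝ) / H) * (b : ℝ) ^ (-(1 / 2) : ℝ) : ℝ) : ℂ) *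
      ((c * h : ℝ) : ℂ) ^ (-(1 / 2 + w)) *
      (((Real.pi * ((b : ℝ) * c / h) ^ 2 : ℝ) : ℂ) ^ ((u : ℂ) * I) *
        (starRingEnd ℂ) (ee (((b : ℝ) * c / h) ^ 2 / 2)))

theorem B1_bx_eq (w : ℂ) {B C H : ℝ} (hB : 0 < B) (hC : 0 < C) (hH : 0 < H) (u : ℝ) :
    B1_bx w B C H u =
    ((Real.pi : ℂ) ^ ((u : ℂ) * I) * (B : ℂ) ^ (-(1 / 2 - 2 * (u : ℂ) * I)) *
      (C : ℂ) ^ (-(1 / 2 + w - 2 * (u : ℂ) * I)) * (H : ℂ) ^ (-(1 / 2 + w + 2 * (u : ℂ) * I))) *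
    (starRingEnd ℂ) (S3 (B1_W (1 / 2 - 2 * (u : ℂ) * I)) (B1_W (1 / 2 + w - 2 * (u : ℂ) * I))
      (B1_W (1 / 2 + w + 2 * (u : ℂ) * I)) B C H) := by
  unfold B1_bx S3
  simp only [map_sum, Finset.mul_sum]
  refine Finset.sum_congr rfl fun h hh => Finset.sum_congr rfl fun b hb =>
    Finset.sum_congr rfl fun c hc => ?_
  have hh0 : (0 : ℝ) < h := by
    have := (Finset.mem_Icc.1 hh).1
    exact_mod_cast this
  have hb0 : (0 : ℝ) < b := by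
    have := (Finset.mem_Icc.1 hb).1
    exact_mod_cast this
  have hc0 : (0 : ℝ) < c := by
    have := (Finset.mem_Icc.1 hc).1
    exact_mod_cast this
  have key := B1_term hb0 hc0 hh0 hB hC hH w u
  unfold B1_W
  simp only [map_mul, Complex.conj_conj]
  rw [Complex.ofReal_mul, Complex.ofReal_mul, Complex.ofReal_mul]
  calc _ = ((ww ((b : ℝ) / B) : ℂ) * (ww ((c : ℝ) / C) : ℂ) * (ww ((h : ℝ) / H) : ℂ)) *
        ((((b : ℝ) ^ (-(1 / 2) : ℝ) : ℝ) : ℂ) * ((c * h : ℝ) : ℂ) ^ (-(1 / 2 + w)) *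
          ((Real.pi * ((b : ℝ) * c / h) ^ 2 : ℝ) : ℂ) ^ ((u : ℂ) * I)) *
        (starRingEnd ℂ) (ee (((b : ℝ) * c / h) ^ 2 / 2)) := by ring
    _ = _ := by rw [key]; ring

/-- the bound of the box sum with separated variables -/
theorem B1_bx_norm (hb : BoxBound) (h2 : S_W2) : ∃ K : ℝ, 0 < K ∧ ∀ (w : ℂ) (u L B C H : ℝ),
    0 ≤ w.re → w.re ≤ 1 / 2 → |w.im| ≤ L → 1 ≤ B → 1 ≤ C → 1 ≤ H → H ≤ 8 * C →
    H ≤ (B * C / H) ^ (1 + 1 / 10000 : ℝ) →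
    ‖B1_bx w B C H u‖ ≤ K * (1 + L + |u|) ^ 12 * (B * C / H) ^ (1 - 1 / 10000 : ℝ) := by
  obtain ⟨K, hK1, hK⟩ := hb
  obtain ⟨C2, hC2, hW⟩ := h2
  refine ⟨K * C2 ^ 3 * 4096, by positivity, ?_⟩
  intro w u L B C H hw0 hw1 hL hB hC hH hHC hHM
  have hL0 : 0 ≤ L := (abs_nonneg _).trans hL
  have hu0 := abs_nonneg u
  have hB0 : 0 < B := by linarith
  have hC0 : 0 < C := by linarith
  have hH0 : 0 < H := by linarith
  have hwn : ‖w‖ ≤ 1 / 2 + L := by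
    refine (Complex.norm_le_abs_re_add_abs_im w).trans ?_
    rw [abs_of_nonneg hw0]
    linarith
  have hun : ‖2 * (u : ℂ) * I‖ = 2 * |u| := by
    rw [norm_mul, norm_mul, Complex.norm_I, Complex.norm_real, Real.norm_eq_abs]
    norm_num
  have hhalf : ‖(1 / 2 : ℂ)‖ = 1 / 2 := by norm_num
  have n1 : 1 + ‖(1 / 2 - 2 * (u : ℂ) * I : ℂ)‖ ≤ 2 * (1 + L + |u|) := by
    have := norm_sub_le (1 / 2 : ℂ) (2 * (u : ℂ) * I)
    rw [hun, hhalf] at this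
    linarith
  have n2 : 1 + ‖(1 / 2 + w - 2 * (u : ℂ) * I : ℂ)‖ ≤ 2 * (1 + L + |u|) := by
    have := norm_sub_le (1 / 2 + w : ℂ) (2 * (u : ℂ) * I)
    have h3 := norm_add_le (1 / 2 : ℂ) w
    rw [hhalf] at h3
    rw [hun] at this
    linarith
  have n3 : 1 + ‖(1 / 2 + w + 2 * (u : ℂ) * I : ℂ)‖ ≤ 2 * (1 + L + |u|) := by
    have := norm_add_le (1 / 2 + w : ℂ) (2 * (u : ℂ) * I)
    have h3 := norm_add_le (1 / 2 : ℂ) w
    rw [hhalf] at h3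
    rw [hun] at this
    linarith
  have r1 : (1 / 2 - 2 * (u : ℂ) * I : ℂ).re = 1 / 2 := by simp
  have r2 : (1 / 2 + w - 2 * (u : ℂ) * I : ℂ).re = 1 / 2 + w.re := by simp
  have r3 : (1 / 2 + w + 2 * (u : ℂ) * I : ℂ).re = 1 / 2 + w.re := by simp
  have W1 := (hW (1 / 2 - 2 * (u : ℂ) * I) (by rw [r1, abs_of_nonneg] <;> norm_num)).2
  have W2 := (hW (1 / 2 + w - 2 * (u : ℂ) * I) (by
    rw [r2, abs_of_nonneg (by linarith)]; linarith)).2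
  have W3 := (hW (1 / 2 + w + 2 * (u : ℂ) * I) (by
    rw [r3, abs_of_nonneg (by linarith)]; linarith)).2
  have hS := hK _ _ _ _ _ _ W1 W2 W3 B C H hB hC hH hHC hHM
  rw [B1_bx_eq w hB0 hC0 hH0 u, norm_mul, RCLike.norm_conj, norm_mul, norm_mul, norm_mul,
    Complex.norm_cpow_eq_rpow_re_of_pos Real.pi_pos, Complex.norm_cpow_eq_rpow_re_of_pos hB0,
    Complex.norm_cpow_eq_rpow_re_of_pos hC0, Complex.norm_cpow_eq_rpow_re_of_pos hH0,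
    Complex.neg_re, Complex.neg_re, Complex.neg_re, r1, r2, r3]
  have p1 : ((u : ℂ) * I).re = 0 := by simp
  rw [p1, Real.rpow_zero, one_mul]
  obtain ⟨Y, hY⟩ : ∃ Y : ℝ, Y = 1 + L + |u| := ⟨_, rfl⟩
  rw [← hY] at n1 n2 n3 ⊢
  have hY1 : 1 ≤ Y := by rw [hY]; linarith
  obtain ⟨M, hM⟩ : ∃ M : ℝ, M = B * C / H := ⟨_, rfl⟩
  rw [← hM] at hS ⊢
  have hM0 : 0 < M := by rw [hM]; positivity
  -- the triple sum
  have q : ∀ s : ℂ, 1 + ‖s‖ ≤ 2 * Y → C2 * (1 + ‖s‖) ^ 4 ≤ 16 * C2 * Y ^ 4 := by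
    intro s hs
    have h3 : (1 + ‖s‖) ^ 4 ≤ (2 * Y) ^ 4 := pow_le_pow_left₀ (by positivity) hs 4
    calc C2 * (1 + ‖s‖) ^ 4 ≤ C2 * (2 * Y) ^ 4 := mul_le_mul_of_nonneg_left h3 (by linarith)
      _ = 16 * C2 * Y ^ 4 := by ring
  have hS2 : ‖S3 (B1_W (1 / 2 - 2 * (u : ℂ) * I)) (B1_W (1 / 2 + w - 2 * (u : ℂ) * I))
      (B1_W (1 / 2 + w + 2 * (u : ℂ) * I)) B C H‖ ≤
      K * (16 * C2 * Y ^ 4) * (16 * C2 * Y ^ 4) * (16 * C2 * Y ^ 4) *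
        M ^ (3 / 2 - 1 / 10000 : ℝ) * H := by
    refine hS.trans ?_
    refine mul_le_mul_of_nonneg_right ?_ hH0.le
    refine mul_le_mul_of_nonneg_right ?_ (by positivity)
    have k1 : K * (C2 * (1 + ‖(1 / 2 - 2 * (u : ℂ) * I : ℂ)‖) ^ 4) ≤ K * (16 * C2 * Y ^ 4) :=
      mul_le_mul_of_nonneg_left (q _ n1) (by linarith)
    have k2 := mul_le_mul k1 (q _ n2) (by positivity) (by positivity)
    exact mul_le_mul k2 (q _ n3) (by positivity) (by positivity)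
  -- the powers
  have hpw : B ^ (-(1 / 2) : ℝ) * C ^ (-(1 / 2 + w.re)) * H ^ (-(1 / 2 + w.re)) * H ≤
      M ^ (-(1 / 2) : ℝ) := by
    have c1 : C ^ (-(1 / 2 + w.re)) ≤ C ^ (-(1 / 2) : ℝ) :=
      Real.rpow_le_rpow_of_exponent_le hC (by linarith)
    have c2 : H ^ (-(1 / 2 + w.re)) ≤ H ^ (-(1 / 2) : ℝ) :=
      Real.rpow_le_rpow_of_exponent_le hH (by linarith)
    have c3 : M ^ (-(1 / 2) : ℝ) = B ^ (-(1 / 2) : ℝ) * C ^ (-(1 / 2) : ℝ) * H ^ (-(1 / 2) : ℝ) *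
        H := by
      rw [hM, Real.div_rpow (by positivity) hH0.le, Real.mul_rpow hB0.le hC0.le]
      have c4 : H ^ (-(1 / 2) : ℝ) * H ^ (-(1 / 2) : ℝ) * H = 1 := by
        rw [← Real.rpow_add hH0]
        norm_num
        rw [Real.rpow_neg_one, inv_mul_cancel₀ hH0.ne']
      have c5 : H ^ (-(1 / 2) : ℝ) ≠ 0 := (Real.rpow_pos_of_pos hH0 _).ne'
      rw [div_eq_iff c5]
      linear_combination (-(B ^ (-(1 / 2) : ℝ) * C ^ (-(1 / 2) : ℝ))) * c4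
    rw [c3]
    refine mul_le_mul_of_nonneg_right ?_ hH0.le
    refine mul_le_mul (mul_le_mul_of_nonneg_left c1 (by positivity)) c2 (by positivity)
      (by positivity)
  have hfin : M ^ (-(1 / 2) : ℝ) * M ^ (3 / 2 - 1 / 10000 : ℝ) = M ^ (1 - 1 / 10000 : ℝ) := by
    rw [← Real.rpow_add hM0]
    norm_num
  calc B ^ (-(1 / 2) : ℝ) * C ^ (-(1 / 2 + w.re)) * H ^ (-(1 / 2 + w.re)) *
        ‖S3 (B1_W (1 / 2 - 2 * (u : ℂ) * I)) (B1_W (1 / 2 + w - 2 * (u : ℂ) * I))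
          (B1_W (1 / 2 + w + 2 * (u : ℂ) * I)) B C H‖
      ≤ B ^ (-(1 / 2) : ℝ) * C ^ (-(1 / 2 + w.re)) * H ^ (-(1 / 2 + w.re)) *
        (K * (16 * C2 * Y ^ 4) * (16 * C2 * Y ^ 4) * (16 * C2 * Y ^ 4) *
          M ^ (3 / 2 - 1 / 10000 : ℝ) * H) := mul_le_mul_of_nonneg_left hS2 (by positivity)
    _ = (B ^ (-(1 / 2) : ℝ) * C ^ (-(1 / 2 + w.re)) * H ^ (-(1 / 2 + w.re)) * H) *
        (K * C2 ^ 3 * 4096 * Y ^ 12 * M ^ (3 / 2 - 1 / 10000 : ℝ)) := by ring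
    _ ≤ M ^ (-(1 / 2) : ℝ) * (K * C2 ^ 3 * 4096 * Y ^ 12 * M ^ (3 / 2 - 1 / 10000 : ℝ)) :=
        mul_le_mul_of_nonneg_right hpw (by positivity)
    _ = K * C2 ^ 3 * 4096 * Y ^ 12 * (M ^ (-(1 / 2) : ℝ) * M ^ (3 / 2 - 1 / 10000 : ℝ)) := by
        ring
    _ = _ := by rw [hfin]

/-- one term -/
theorem B1_one (hME : S_ME) {η : ℝ} (hη : 0 < η) {κ : ℂ} (hκ : 0 < κ.re) {x : ℝ} (hx : 0 < x)
    (a E : ℂ) :
    Integrable (fun τ : ℝ => Complex.Gamma ((κ.re : ℂ) + τ * I) *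
      (η : ℂ) ^ (-((κ.re : ℂ) + τ * I)) *
      (a * (((Real.pi * x ^ 2 : ℝ) : ℂ) ^ (((κ.im - τ : ℝ) : ℂ) * I) * E))) ∧
    ∫ τ : ℝ, Complex.Gamma ((κ.re : ℂ) + τ * I) * (η : ℂ) ^ (-((κ.re : ℂ) + τ * I)) *
      (a * (((Real.pi * x ^ 2 : ℝ) : ℂ) ^ (((κ.im - τ : ℝ) : ℂ) * I) * E)) =
      (2 * Real.pi) * (a * (((Real.pi * x ^ 2 : ℝ) : ℂ) ^ κ *
        ((Real.exp (-(Real.pi * η * x ^ 2)) : ℝ) : ℂ)) * E) := by
  obtain ⟨h1, h2⟩ := hME η κ x hη hκ hx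
  have e : ∀ τ : ℝ, κ - ((κ.re : ℂ) + τ * I) = ((κ.im - τ : ℝ) : ℂ) * I := by
    intro τ
    apply Complex.ext <;> simp
  simp only [e] at h1 h2
  have hpi : (Real.pi : ℂ) ≠ 0 := by exact_mod_cast Real.pi_pos.ne'
  have e2 : (fun τ : ℝ => Complex.Gamma ((κ.re : ℂ) + τ * I) * (η : ℂ) ^ (-((κ.re : ℂ) + τ * I)) *
      (a * (((Real.pi * x ^ 2 : ℝ) : ℂ) ^ (((κ.im - τ : ℝ) : ℂ) * I) * E))) =
      fun τ : ℝ => (a * E) * (Complex.Gamma ((κ.re : ℂ) + τ * I) *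
        (η : ℂ) ^ (-((κ.re : ℂ) + τ * I)) *
        ((Real.pi * x ^ 2 : ℝ) : ℂ) ^ (((κ.im - τ : ℝ) : ℂ) * I)) := by
    funext τ
    ring
  rw [e2]
  refine ⟨h1.const_mul _, ?_⟩
  rw [integral_const_mul, h2]
  generalize (∫ τ : ℝ, Complex.Gamma ((κ.re : ℂ) + τ * I) * (η : ℂ) ^ (-((κ.re : ℂ) + τ * I)) *
    ((Real.pi * x ^ 2 : ℝ) : ℂ) ^ (((κ.im - τ : ℝ) : ℂ) * I)) = J
  field_simp

/-- the box sum as an integral -/
theorem B1_Xb (hME : S_ME) (k : ℕ) (δ : ℝ) (w : ℂ) (hη : 0 < Real.tan (2 * δ)) (hw : 0 ≤ w.re)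
    (B C H : ℝ) :
    Xb k δ w B C H = (cG k δ w * (4 * Real.pi) *
      ((Real.tan (2 * δ) : ℂ) + I) ^ ((k : ℂ) + 1 / 2 + w)) * (1 / (2 * Real.pi)) *
      ∫ τ : ℝ, Complex.Gamma ((((k : ℝ) + 1 / 2 + w.re : ℝ) : ℂ) + τ * I) *
        (Real.tan (2 * δ) : ℂ) ^ (-((((k : ℝ) + 1 / 2 + w.re : ℝ) : ℂ) + τ * I)) *
        B1_bx w B C H (w.im - τ) := by
  obtain ⟨η, hηd⟩ : ∃ η : ℝ, η = Real.tan (2 * δ) := ⟨_, rfl⟩
  obtain ⟨κ, hκd⟩ : ∃ κ : ℂ, κ = (k : ℂ) + 1 / 2 + w := ⟨_, rfl⟩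
  have hκre : κ.re = (k : ℝ) + 1 / 2 + w.re := by rw [hκd]; simp
  have hκim : κ.im = w.im := by rw [hκd]; simp
  have hκ : 0 < κ.re := by rw [hκre]; positivity
  have hpi : (Real.pi : ℂ) ≠ 0 := by exact_mod_cast Real.pi_pos.ne'
  rw [← hκre, ← hκim, ← hκd, ← hηd]
  rw [← hηd] at hη
  obtain ⟨c0, hc0⟩ : ∃ c0 : ℂ, c0 = cG k δ w * (4 * Real.pi) * ((η : ℂ) + I) ^ κ := ⟨_, rfl⟩
  rw [← hc0]
  -- the points
  have hx : ∀ h ∈ Finset.Icc 1 ⌊2 * H⌋₊, ∀ b ∈ Finset.Icc 1 ⌊2 * B⌋₊,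
      ∀ c ∈ Finset.Icc 1 ⌊2 * C⌋₊, (0 : ℝ) < (b : ℝ) * c / h := by
    intro h hh b hb c hc
    have hh0 : (0 : ℝ) < h := by
      have := (Finset.mem_Icc.1 hh).1
      exact_mod_cast this
    have hb0 : (0 : ℝ) < b := by
      have := (Finset.mem_Icc.1 hb).1
      exact_mod_cast this
    have hc0 : (0 : ℝ) < c := by
      have := (Finset.mem_Icc.1 hc).1
      exact_mod_cast this
    positivity
  unfold B1_bx
  simp only [Finset.mul_sum]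
  rw [integral_finsetSum]
  swap
  · intro h hh
    refine integrable_finsetSum _ fun b hb => integrable_finsetSum _ fun c hc => ?_
    exact (B1_one hME hη hκ (hx h hh b hb c hc) _ _).1
  unfold Xb
  rw [Finset.mul_sum]
  refine Finset.sum_congr rfl fun h hh => ?_
  rw [integral_finsetSum]
  swap
  · intro b hb
    refine integrable_finsetSum _ fun c hc => ?_
    exact (B1_one hME hη hκ (hx h hh b hb c hc) _ _).1
  rw [Finset.mul_sum]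
  refine Finset.sum_congr rfl fun b hb => ?_
  rw [integral_finsetSum]
  swap
  · intro c hc
    exact (B1_one hME hη hκ (hx h hh b hb c hc) _ _).1
  rw [Finset.mul_sum]
  refine Finset.sum_congr rfl fun c hc => ?_
  rw [(B1_one hME hη hκ (hx h hh b hb c hc) _ _).2, B1_Ph k δ w (hx h hh b hb c hc), ← hηd,
    ← hκd, ← hc0]
  field_simp

/-- the bound of a box sum, without asymptotics -/
theorem B1_bound (hb : BoxBound) (hGI : S_GI) (h2 : S_W2) (hME : S_ME) :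
    ∃ K : ℝ, 0 < K ∧ ∀ (k : ℕ) (δ : ℝ) (w : ℂ) (L B C H : ℝ), 1 ≤ k → 0 < δ → 2 * δ ≤ 1 / 4 →
      0 ≤ w.re → w.re ≤ 1 / 2 → |w.im| ≤ L → 2 * δ * L ≤ 1 → 16 * δ ^ 2 * (k + 1) ≤ 1 →
      1 ≤ B → 1 ≤ C → 1 ≤ H → H ≤ 8 * C → H ≤ (B * C / H) ^ (1 + 1 / 10000 : ℝ) →
      ‖Xb k δ w B C H‖ ≤ K * (1 + L) ^ 12 * ((k : ℝ) + 1) ^ 13 * δ ^ (1 / 2 - w.re) *
        (B * C / H) ^ (1 - 1 / 10000 : ℝ) := by
  obtain ⟨K, hK0, hK⟩ := B1_bx_norm hb h2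
  obtain ⟨CG, hCG0, hCG⟩ := hGI
  refine ⟨100 * K * 4096 * CG, by positivity, ?_⟩
  intro k δ w L B C H hk hδ hδ1 hw0 hw1 hL hδL hδk hB hC hH hHC hHM
  have hL0 : 0 ≤ L := (abs_nonneg _).trans hL
  have hpi := Real.pi_gt_three
  obtain ⟨ht1, ht2⟩ := B1_tan (x := 2 * δ) (by linarith) (by linarith)
  have hη : 0 < Real.tan (2 * δ) := by linarith
  have hc0 := B1_c0 k δ w hδ hδ1 hw0 hw1
    ((mul_le_mul_of_nonneg_left hL (by linarith)).trans hδL) hδk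
  rw [B1_Xb hME k δ w hη hw0 B C H, norm_mul, norm_mul]
  obtain ⟨c0, hc0d⟩ : ∃ c0 : ℝ, c0 = ‖cG k δ w * (4 * Real.pi) *
      ((Real.tan (2 * δ) : ℂ) + I) ^ ((k : ℂ) + 1 / 2 + w)‖ := ⟨_, rfl⟩
  rw [← hc0d] at hc0 ⊢
  obtain ⟨η, hηd⟩ : ∃ η : ℝ, η = Real.tan (2 * δ) := ⟨_, rfl⟩
  rw [← hηd] at hη ht1 ht2 ⊢
  obtain ⟨σ, hσd⟩ : ∃ σ : ℝ, σ = (k : ℝ) + 1 / 2 + w.re := ⟨_, rfl⟩
  rw [← hσd]
  have hk1 : (1 : ℝ) ≤ k := by exact_mod_cast hk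
  have hσ1 : 1 ≤ σ := by rw [hσd]; linarith
  have hσk : σ ≤ (k : ℝ) + 1 := by rw [hσd]; linarith
  obtain ⟨hGint, hGle⟩ := hCG σ hσ1
  obtain ⟨M, hM⟩ : ∃ M : ℝ, M = (B * C / H) ^ (1 - 1 / 10000 : ℝ) := ⟨_, rfl⟩
  have hM0 : 0 ≤ M := by rw [hM]; positivity
  rw [← hM]
  -- the integral
  have hint : ‖∫ τ : ℝ, Complex.Gamma ((σ : ℂ) + τ * I) * (η : ℂ) ^ (-((σ : ℂ) + τ * I)) *
      B1_bx w B C H (w.im - τ)‖ ≤ η ^ (-σ) * (K * 4096 * (1 + L) ^ 12 * M) *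
        (CG * σ ^ 13 * Real.Gamma σ) := by
    have hle : ∀ τ : ℝ, ‖Complex.Gamma ((σ : ℂ) + τ * I) * (η : ℂ) ^ (-((σ : ℂ) + τ * I)) *
        B1_bx w B C H (w.im - τ)‖ ≤ η ^ (-σ) * (K * 4096 * (1 + L) ^ 12 * M) *
          (‖Complex.Gamma ((σ : ℂ) + τ * I)‖ * (1 + |τ|) ^ 12) := by
      intro τ
      rw [norm_mul, norm_mul, Complex.norm_cpow_eq_rpow_re_of_pos hη]
      have e1 : (-((σ : ℂ) + τ * I)).re = -σ := by simp
      rw [e1]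
      have e2 := hK w (w.im - τ) L B C H hw0 hw1 hL hB hC hH hHC hHM
      rw [← hM] at e2
      have e3 : 1 + L + |w.im - τ| ≤ 2 * (1 + L) * (1 + |τ|) := by
        have e4 := abs_sub w.im τ
        have e5 := mul_nonneg hL0 (abs_nonneg τ)
        nlinarith [abs_nonneg τ]
      have e4 : (1 + L + |w.im - τ|) ^ 12 ≤ (2 * (1 + L) * (1 + |τ|)) ^ 12 :=
        pow_le_pow_left₀ (by positivity) e3 12
      have e5 : ‖B1_bx w B C H (w.im - τ)‖ ≤ K * (2 * (1 + L) * (1 + |τ|)) ^ 12 * M :=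
        e2.trans (mul_le_mul_of_nonneg_right (mul_le_mul_of_nonneg_left e4 hK0.le) hM0)
      calc ‖Complex.Gamma ((σ : ℂ) + τ * I)‖ * η ^ (-σ) * ‖B1_bx w B C H (w.im - τ)‖
          ≤ ‖Complex.Gamma ((σ : ℂ) + τ * I)‖ * η ^ (-σ) *
            (K * (2 * (1 + L) * (1 + |τ|)) ^ 12 * M) :=
            mul_le_mul_of_nonneg_left e5 (by positivity)
        _ = _ := by ring
    refine (norm_integral_le_of_norm_le (hGint.const_mul _) (Filter.Eventually.of_forall hle)).trans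
      ?_
    rw [integral_const_mul]
    exact mul_le_mul_of_nonneg_left hGle (by positivity)
  have hGam : Real.Gamma σ ≤ k.factorial := by
    rw [hσd]
    exact B1_Gamma k hk w.re hw0 hw1
  have hGpos : 0 < Real.Gamma σ := Real.Gamma_pos_of_pos (by linarith)
  have hσ13 : σ ^ 13 ≤ ((k : ℝ) + 1) ^ 13 := pow_le_pow_left₀ (by linarith) hσk 13
  -- the powers of `δ`
  have hpow : δ ^ (k + 1) * 2 ^ k * η ^ (-σ) ≤ δ ^ (1 / 2 - w.re) := by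
    have e1 : η ^ (-σ) ≤ (2 * δ) ^ (-σ) :=
      Real.rpow_le_rpow_of_nonpos (by linarith) ht1 (by linarith)
    have e2 : (2 * δ) ^ (k : ℝ) = (2 * δ) ^ k := Real.rpow_natCast _ _
    have e3 : (2 * δ) ^ k * (2 * δ) ^ (-σ) = (2 * δ) ^ (-(1 / 2 + w.re)) := by
      rw [← e2, ← Real.rpow_add (by linarith), hσd]
      congr 1
      ring
    have e4 : (2 * δ) ^ (-(1 / 2 + w.re)) ≤ δ ^ (-(1 / 2 + w.re)) :=
      Real.rpow_le_rpow_of_nonpos hδ (by linarith) (by linarith)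
    have e5 : δ * δ ^ (-(1 / 2 + w.re)) = δ ^ (1 / 2 - w.re) := by
      nth_rw 1 [← Real.rpow_one δ]
      rw [← Real.rpow_add hδ]
      congr 1
      ring
    calc δ ^ (k + 1) * 2 ^ k * η ^ (-σ) ≤ δ ^ (k + 1) * 2 ^ k * (2 * δ) ^ (-σ) :=
          mul_le_mul_of_nonneg_left e1 (by positivity)
      _ = δ * ((2 * δ) ^ k * (2 * δ) ^ (-σ)) := by rw [mul_pow]; ring
      _ ≤ δ * δ ^ (-(1 / 2 + w.re)) := by
          rw [e3]
          exact mul_le_mul_of_nonneg_left e4 hδ.le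
      _ = _ := e5
  have hpin : ‖(1 / (2 * (Real.pi : ℂ)))‖ ≤ 1 := by
    rw [norm_div, norm_mul, Complex.norm_real, Real.norm_of_nonneg Real.pi_pos.le, norm_one,
      Complex.norm_ofNat, div_le_one (by positivity)]
    linarith
  have hfac : (0 : ℝ) < k.factorial := by positivity
  calc c0 * ‖(1 / (2 * (Real.pi : ℂ)))‖ * ‖∫ τ : ℝ, Complex.Gamma ((σ : ℂ) + τ * I) *
        (η : ℂ) ^ (-((σ : ℂ) + τ * I)) * B1_bx w B C H (w.im - τ)‖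
      ≤ (100 * (δ ^ (k + 1) * 2 ^ k / k.factorial)) * 1 *
        (η ^ (-σ) * (K * 4096 * (1 + L) ^ 12 * M) * (CG * ((k : ℝ) + 1) ^ 13 * k.factorial)) := by
        refine mul_le_mul (mul_le_mul hc0 hpin (norm_nonneg _) (by positivity)) (hint.trans ?_)
          (norm_nonneg _) (by positivity)
        refine mul_le_mul_of_nonneg_left ?_ (by positivity)
        refine mul_le_mul (mul_le_mul_of_nonneg_left hσ13 hCG0.le) hGam hGpos.le (by positivity)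
    _ = (100 * K * 4096 * CG) * (1 + L) ^ 12 * ((k : ℝ) + 1) ^ 13 *
        (δ ^ (k + 1) * 2 ^ k * η ^ (-σ)) * M := by
        field_simp
    _ ≤ _ := by
        refine mul_le_mul_of_nonneg_right ?_ hM0
        exact mul_le_mul_of_nonneg_left hpow (by positivity)

theorem B1_log {T ε : ℝ} (hT : 1 ≤ T) (hε : 0 < ε) : 1 + Real.log T ≤ (1 + 1 / ε) * T ^ ε := by
  have h1 := Real.log_le_rpow_div (show 0 ≤ T by linarith) hε
  have h2 : 1 ≤ T ^ ε := Real.one_le_rpow hT hε.le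
  have h3 : (1 + 1 / ε) * T ^ ε = T ^ ε + T ^ ε / ε := by ring
  rw [h3]
  linarith

/-- the conditions for large `T` -/
theorem B1_params {T δ L : ℝ} {k : ℕ} {t0 : ℝ} (hT : 1 ≤ T) (hL : L = Real.log T)
    (hT8 : 5000 ≤ T ^ (1 / 8 : ℝ)) (hk1 : 1 ≤ k) (hk : (k : ℝ) ≤ 2 * T ^ (1 / 1000000 : ℝ))
    (ht0 : T ≤ t0) (hδ : δ = k / t0) :
    0 < δ ∧ δ ≤ 2 * T ^ (1 / 1000000 - 1 : ℝ) ∧ 2 * δ ≤ 1 / 4 ∧ 2 * δ * L ≤ 1 ∧
      16 * δ ^ 2 * (k + 1) ≤ 1 := by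
  have hT0 : 0 < T := by linarith
  have hk1' : (1 : ℝ) ≤ k := by exact_mod_cast hk1
  have ht00 : 0 < t0 := by linarith
  have hL0 : 0 ≤ L := by rw [hL]; exact Real.log_nonneg hT
  have h1 : δ ≤ 2 * T ^ (1 / 1000000 - 1 : ℝ) := by
    rw [hδ, Real.rpow_sub hT0, Real.rpow_one]
    calc (k : ℝ) / t0 ≤ k / T := div_le_div_of_nonneg_left (by positivity) hT0 ht0
      _ ≤ (2 * T ^ (1 / 1000000 : ℝ)) / T := div_le_div_of_nonneg_right hk hT0.le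
      _ = _ := by ring
  have hδ0 : 0 < δ := by rw [hδ]; positivity
  -- `T ^ a ≤ 1 / 5000` for `a ≤ -1/8`
  have hsm : ∀ a : ℝ, a ≤ -(1 / 8) → T ^ a ≤ 1 / 5000 := by
    intro a ha
    calc T ^ a ≤ T ^ (-(1 / 8) : ℝ) := Real.rpow_le_rpow_of_exponent_le hT ha
      _ = (T ^ (1 / 8 : ℝ))⁻¹ := by rw [Real.rpow_neg hT0.le]
      _ ≤ 1 / 5000 := by
          rw [inv_eq_one_div]
          exact div_le_div_of_nonneg_left (by norm_num) (by norm_num) hT8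
  have h2 : δ ≤ 2 / 5000 := by
    have := hsm (1 / 1000000 - 1) (by norm_num)
    linarith
  refine ⟨hδ0, h1, by linarith, ?_, ?_⟩
  · have h3 := B1_log hT (show (0 : ℝ) < 1 / 4 by norm_num)
    rw [← hL] at h3
    have h4 : L ≤ 5 * T ^ (1 / 4 : ℝ) := by
      have : (1 + 1 / (1 / 4) : ℝ) = 5 := by norm_num
      rw [this] at h3
      linarith
    calc 2 * δ * L ≤ 2 * (2 * T ^ (1 / 1000000 - 1 : ℝ)) * (5 * T ^ (1 / 4 : ℝ)) :=
          mul_le_mul (by linarith) h4 hL0 (by positivity)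
      _ = 20 * T ^ (1 / 1000000 - 1 + 1 / 4 : ℝ) := by rw [Real.rpow_add hT0]; ring
      _ ≤ 1 := by
          have := hsm (1 / 1000000 - 1 + 1 / 4) (by norm_num)
          linarith
  · have h3 : (k : ℝ) + 1 ≤ 4 * T ^ (1 / 1000000 : ℝ) := by linarith
    have h4 : δ ^ 2 ≤ δ * (2 / 5000) := by
      rw [sq]
      exact mul_le_mul_of_nonneg_left h2 hδ0.le
    calc 16 * δ ^ 2 * (k + 1) ≤ 16 * (δ * (2 / 5000)) * (4 * T ^ (1 / 1000000 : ℝ)) :=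
          mul_le_mul (by linarith) h3 (by positivity) (by positivity)
      _ ≤ 16 * ((2 * T ^ (1 / 1000000 - 1 : ℝ)) * (2 / 5000)) * (4 * T ^ (1 / 1000000 : ℝ)) := by
          refine mul_le_mul_of_nonneg_right ?_ (by positivity)
          linarith
      _ = (256 / 5000) * T ^ (1 / 1000000 - 1 + 1 / 1000000 : ℝ) := by
          rw [Real.rpow_add hT0]; ring
      _ ≤ 1 := by
          have := hsm (1 / 1000000 - 1 + 1 / 1000000) (by norm_num)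
          linarith

/-- the condition of `BoxBound` -/
theorem B1_cond {T C H M : ℝ} (hT : 1 ≤ T) (hTb : 10000 ≤ T ^ (9 / 200000 : ℝ)) (hH : 1 ≤ H)
    (hHC : H ≤ C) (hCH : C * H ≤ T ^ (1 + 1 / 100000 : ℝ)) (hM : T ^ (1 / 2 : ℝ) / 100 ≤ M) :
    H ≤ M ^ (1 + 1 / 10000 : ℝ) := by
  have hT0 : 0 < T := by linarith
  have h1 : H ≤ T ^ ((1 + 1 / 100000) / 2 : ℝ) := by
    have e1 : H ^ 2 ≤ (T ^ ((1 + 1 / 100000) / 2 : ℝ)) ^ 2 := by
      rw [← Real.rpow_natCast (T ^ ((1 + 1 / 100000) / 2 : ℝ)), ← Real.rpow_mul hT0.le]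
      have e2 : ((1 + 1 / 100000) / 2 : ℝ) * ((2 : ℕ) : ℝ) = 1 + 1 / 100000 := by norm_num
      rw [e2]
      nlinarith
    exact (sq_le_sq₀ (by linarith) (by positivity)).1 e1
  have h2 : (T ^ (1 / 2 : ℝ) / 100) ^ (1 + 1 / 10000 : ℝ) ≤ M ^ (1 + 1 / 10000 : ℝ) :=
    Real.rpow_le_rpow (by positivity) hM (by norm_num)
  refine le_trans ?_ h2
  rw [Real.div_rpow (by positivity) (by norm_num), ← Real.rpow_mul hT0.le,
    le_div_iff₀ (by positivity)]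
  have h3 : (100 : ℝ) ^ (1 + 1 / 10000 : ℝ) ≤ 10000 := by
    have e1 : (100 : ℝ) ^ (1 + 1 / 10000 : ℝ) ≤ 100 ^ (2 : ℝ) :=
      Real.rpow_le_rpow_of_exponent_le (by norm_num) (by norm_num)
    have e2 : (100 : ℝ) ^ (2 : ℝ) = 10000 := by norm_num
    linarith
  calc H * 100 ^ (1 + 1 / 10000 : ℝ)
      ≤ T ^ ((1 + 1 / 100000) / 2 : ℝ) * T ^ (9 / 200000 : ℝ) :=
        mul_le_mul h1 (h3.trans hTb) (by positivity) (by positivity)
    _ = T ^ (1 / 2 * (1 + 1 / 10000) : ℝ) := by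
        rw [← Real.rpow_add hT0]
        congr 1
        norm_num

/-- the final estimate -/
theorem B1_final {T K δ M : ℝ} {k : ℕ} (hT : 1 ≤ T) (hK : 0 < K)
    (hTc : K * 4 ^ 13 * 200 * (1 + 2400000) ^ 12 ≤ T ^ (1 / 200000 : ℝ))
    (hk1 : 1 ≤ k) (hk : (k : ℝ) ≤ 2 * T ^ (1 / 1000000 : ℝ)) (hδ0 : 0 < δ)
    (hδ : δ ≤ 2 * T ^ (1 / 1000000 - 1 : ℝ)) (hM0 : 0 ≤ M) (hM : M ≤ 100 * T ^ (1 / 2 : ℝ)) :
    K * (1 + Real.log T) ^ 12 * ((k : ℝ) + 1) ^ 13 * δ ^ (1 / 2 - 1 / 1000000 : ℝ) *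
      M ^ (1 - 1 / 10000 : ℝ) ≤ T ^ (-(1 / 40000) : ℝ) := by
  have hT0 : 0 < T := by linarith
  have hk1' : (1 : ℝ) ≤ k := by exact_mod_cast hk1
  have hlog0 := Real.log_nonneg hT
  -- logarithm
  have h1 : (1 + Real.log T) ^ 12 ≤ (1 + 2400000) ^ 12 * T ^ (1 / 200000 : ℝ) := by
    have e1 := B1_log hT (show (0 : ℝ) < 1 / 2400000 by norm_num)
    have e2 : (1 + 1 / (1 / 2400000) : ℝ) = 1 + 2400000 := by norm_num
    rw [e2] at e1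
    have e3 := pow_le_pow_left₀ (by linarith) e1 12
    rw [mul_pow, ← Real.rpow_natCast (T ^ (1 / 2400000 : ℝ)), ← Real.rpow_mul hT0.le] at e3
    have e4 : (1 / 2400000 : ℝ) * ((12 : ℕ) : ℝ) = 1 / 200000 := by norm_num
    rw [e4] at e3
    exact e3
  have h2 : ((k : ℝ) + 1) ^ 13 ≤ 4 ^ 13 * T ^ (13 / 1000000 : ℝ) := by
    have e1 : (k : ℝ) + 1 ≤ 4 * T ^ (1 / 1000000 : ℝ) := by linarith
    have e3 := pow_le_pow_left₀ (by linarith) e1 13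
    rw [mul_pow, ← Real.rpow_natCast (T ^ (1 / 1000000 : ℝ)), ← Real.rpow_mul hT0.le] at e3
    have e4 : (1 / 1000000 : ℝ) * ((13 : ℕ) : ℝ) = 13 / 1000000 := by norm_num
    rw [e4] at e3
    exact e3
  have h3 : δ ^ (1 / 2 - 1 / 1000000 : ℝ) ≤
      2 * T ^ ((1 / 1000000 - 1) * (1 / 2 - 1 / 1000000) : ℝ) := by
    have e1 : δ ^ (1 / 2 - 1 / 1000000 : ℝ) ≤
        (2 * T ^ (1 / 1000000 - 1 : ℝ)) ^ (1 / 2 - 1 / 1000000 : ℝ) :=
      Real.rpow_le_rpow hδ0.le hδ (by norm_num)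
    rw [Real.mul_rpow (by norm_num) (by positivity), ← Real.rpow_mul hT0.le] at e1
    refine e1.trans (mul_le_mul_of_nonneg_right ?_ (by positivity))
    have e2 : (2 : ℝ) ^ (1 / 2 - 1 / 1000000 : ℝ) ≤ 2 ^ (1 : ℝ) :=
      Real.rpow_le_rpow_of_exponent_le (by norm_num) (by norm_num)
    rwa [Real.rpow_one] at e2
  have h4 : M ^ (1 - 1 / 10000 : ℝ) ≤ 100 * T ^ (1 / 2 * (1 - 1 / 10000) : ℝ) := by
    have e1 : M ^ (1 - 1 / 10000 : ℝ) ≤ (100 * T ^ (1 / 2 : ℝ)) ^ (1 - 1 / 10000 : ℝ) :=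
      Real.rpow_le_rpow hM0 hM (by norm_num)
    rw [Real.mul_rpow (by norm_num) (by positivity), ← Real.rpow_mul hT0.le] at e1
    refine e1.trans (mul_le_mul_of_nonneg_right ?_ (by positivity))
    have e2 : (100 : ℝ) ^ (1 - 1 / 10000 : ℝ) ≤ 100 ^ (1 : ℝ) :=
      Real.rpow_le_rpow_of_exponent_le (by norm_num) (by norm_num)
    rwa [Real.rpow_one] at e2
  calc K * (1 + Real.log T) ^ 12 * ((k : ℝ) + 1) ^ 13 * δ ^ (1 / 2 - 1 / 1000000 : ℝ) *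
        M ^ (1 - 1 / 10000 : ℝ)
      ≤ K * ((1 + 2400000) ^ 12 * T ^ (1 / 200000 : ℝ)) * (4 ^ 13 * T ^ (13 / 1000000 : ℝ)) *
        (2 * T ^ ((1 / 1000000 - 1) * (1 / 2 - 1 / 1000000) : ℝ)) *
        (100 * T ^ (1 / 2 * (1 - 1 / 10000) : ℝ)) := by
        refine mul_le_mul (mul_le_mul (mul_le_mul (mul_le_mul_of_nonneg_left h1 hK.le) h2
          (by positivity) (by positivity)) h3 (by positivity) (by positivity)) h4
          (by positivity) (by positivity)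
    _ = (K * 4 ^ 13 * 200 * (1 + 2400000) ^ 12) * (T ^ (1 / 200000 : ℝ) *
        T ^ (13 / 1000000 : ℝ) * T ^ ((1 / 1000000 - 1) * (1 / 2 - 1 / 1000000) : ℝ) *
        T ^ (1 / 2 * (1 - 1 / 10000) : ℝ)) := by ring
    _ ≤ T ^ (1 / 200000 : ℝ) * (T ^ (1 / 200000 : ℝ) *
        T ^ (13 / 1000000 : ℝ) * T ^ ((1 / 1000000 - 1) * (1 / 2 - 1 / 1000000) : ℝ) *
        T ^ (1 / 2 * (1 - 1 / 10000) : ℝ)) := mul_le_mul_of_nonneg_right hTc (by positivity)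
    _ = T ^ (1 / 200000 + (1 / 200000 + 13 / 1000000 +
        (1 / 1000000 - 1) * (1 / 2 - 1 / 1000000) + 1 / 2 * (1 - 1 / 10000)) : ℝ) := by
        rw [← Real.rpow_add hT0, ← Real.rpow_add hT0, ← Real.rpow_add hT0, ← Real.rpow_add hT0]
    _ ≤ T ^ (-(1 / 40000) : ℝ) := Real.rpow_le_rpow_of_exponent_le hT (by norm_num)

/-- B1: bound of a relevant dyadic box -/
theorem B1 (hb : BoxBound) (hGI : S_GI) (_h1 : S_W1) (h2 : S_W2) (hME : S_ME) : S_B1 := by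
  obtain ⟨K, hK0, hK⟩ := B1_bound hb hGI h2 hME
  have ev1 := (tendsto_rpow_atTop (show (0 : ℝ) < 1 / 8 by norm_num)).eventually_ge_atTop 5000
  have ev2 := (tendsto_rpow_atTop (show (0 : ℝ) < 9 / 200000 by norm_num)).eventually_ge_atTop
    10000
  have ev3 := (tendsto_rpow_atTop (show (0 : ℝ) < 1 / 200000 by norm_num)).eventually_ge_atTop
    (K * 4 ^ 13 * 200 * (1 + 2400000) ^ 12)
  obtain ⟨T0, hT0⟩ := Filter.eventually_atTop.1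
    (((ev1.and ev2).and ev3).and (Filter.eventually_ge_atTop (1 : ℝ)))
  refine ⟨T0, fun T hT k hk1 hk t0 ht0 ht0' w hw hwim B C H hB hC hH hHC hCH hM1 hM2 => ?_⟩
  obtain ⟨⟨⟨e1, e2⟩, e3⟩, hT1⟩ := hT0 T hT
  obtain ⟨p1, p2, p3, p4, p5⟩ := B1_params (δ := k / t0) (L := Real.log T) hT1 rfl e1 hk1 hk ht0
    rfl
  have hcond : H ≤ (B * C / H) ^ (1 + 1 / 10000 : ℝ) := B1_cond hT1 e2 hH hHC hCH hM1
  have hmain := hK k (k / t0) w (Real.log T) B C H hk1 p1 p3 (by rw [hw]; norm_num)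
    (by rw [hw]; norm_num) hwim p4 p5 hB hC hH (by linarith) hcond
  rw [hw] at hmain
  exact hmain.trans (B1_final hT1 hK0 e3 hk1 hk p1 p2 (by positivity) hM2)

end Pool.Agent.H408R2.CM
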