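import Pool.Agent.H408R2.CM.Stubs

set_option autoImplicit false

/-! TEAM CM, task BS: sum over all `b`. -/

open Complex MeasureTheory Filter Topology

namespace Pool.Agent.H408R2.CM

open Pool.Agent.H304R4.CM

noncomputable section

/-- the constant of the tail -/
def BS_K : ℝ := ∑' b : ℕ, 256 * ((b : ℝ) + 1) ^ (-4 : ℝ)

lemma BS_summable : Summable (fun b : ℕ => 256 * ((b : ℝ) + 1) ^ (-4 : ℝ)) := by
  apply Summable.mul_left
  have h1 : Summable (fun n : ℕ => (n : ℝ) ^ (-4 : ℝ)) := Real.summable_nat_rpow.2 (by norm_num)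
  have h2 := (summable_nat_add_iff 1).2 h1
  refine h2.congr fun b => ?_
  push_cast
  rfl

lemma BS_K_nonneg : 0 ≤ BS_K := by
  unfold BS_K
  exact tsum_nonneg fun b => by positivity

/-- decomposition of the complete sum over `b` -/
lemma BS_dec (hW : S_W1) (P : ℝ → ℂ) (E X : ℝ) (hE : 0 ≤ E)
    (hP : ∀ x, 0 < x → X ≤ x → ‖P x‖ ≤ E * (1 + x) ^ (-4 : ℝ)) (L : ℕ) (y : ℝ) (hy : 1 / 4 ≤ y)
    (hL : X ≤ 2 ^ L / 4) :
    ‖(∑' b : ℕ, ((((b : ℝ) + 1) ^ (-(1 / 2) : ℝ) : ℝ) : ℂ) * P (((b : ℝ) + 1) * y)) -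
      ∑ l ∈ Finset.range (L + 1), ∑ b ∈ Finset.Icc 1 ⌊2 * (2 : ℝ) ^ l⌋₊,
        ((ww ((b : ℝ) / 2 ^ l) * (b : ℝ) ^ (-(1 / 2) : ℝ) : ℝ) : ℂ) * P ((b : ℝ) * y)‖ ≤
      ((L : ℝ) + 2) * E * BS_K := by
  obtain ⟨_, hsupp, h01, hone⟩ := hW
  set s : ℕ → ℝ := fun b => ∑ l ∈ Finset.range (L + 1), ww ((b : ℝ) / 2 ^ l) with hs
  set f : ℕ → ℂ := fun b => ((((b : ℝ) + 1) ^ (-(1 / 2) : ℝ) : ℝ) : ℂ) * P (((b : ℝ) + 1) * y)
    with hf
  have hs0 : ∀ b, 0 ≤ s b := fun b => Finset.sum_nonneg fun l _ => (h01 _).1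
  have hs1 : ∀ b, s b ≤ L + 1 := by
    intro b
    calc s b ≤ ∑ l ∈ Finset.range (L + 1), (1 : ℝ) := Finset.sum_le_sum fun l _ => (h01 _).2
      _ = L + 1 := by simp
  -- the second part
  have hg2 : ∀ b : ℕ, ‖((1 - s (b + 1) : ℝ) : ℂ) * f b‖ ≤
      ((L : ℝ) + 2) * E * (256 * ((b : ℝ) + 1) ^ (-4 : ℝ)) := by
    intro b
    have hb1 : (1 : ℝ) ≤ (b : ℝ) + 1 := by
      have : (0 : ℝ) ≤ (b : ℝ) := Nat.cast_nonneg b
      linarith
    have hb0 : (0 : ℝ) < (b : ℝ) + 1 := by linarith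
    by_cases hb : ((b : ℝ) + 1) ≤ 2 ^ L
    · have : s (b + 1) = 1 := by
        rw [hs]
        have := hone L ((b : ℝ) + 1) hb1 hb
        simpa using this
      rw [this]
      simp only [sub_self, Complex.ofReal_zero, zero_mul, norm_zero]
      positivity
    · push Not at hb
      have hx : X ≤ ((b : ℝ) + 1) * y := by
        have : (2 : ℝ) ^ L / 4 ≤ ((b : ℝ) + 1) * y := by nlinarith
        linarith
      have hx0 : 0 < ((b : ℝ) + 1) * y := by positivity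
      have h1 := hP _ hx0 hx
      have h2 : (1 + ((b : ℝ) + 1) * y) ^ (-4 : ℝ) ≤ 256 * ((b : ℝ) + 1) ^ (-4 : ℝ) := by
        have h3 : ((b : ℝ) + 1) / 4 ≤ 1 + ((b : ℝ) + 1) * y := by nlinarith
        have h4 : (1 + ((b : ℝ) + 1) * y) ^ (-4 : ℝ) ≤ (((b : ℝ) + 1) / 4) ^ (-4 : ℝ) :=
          Real.rpow_le_rpow_of_nonpos (by positivity) h3 (by norm_num)
        have h5 : (((b : ℝ) + 1) / 4) ^ (-4 : ℝ) = 256 * ((b : ℝ) + 1) ^ (-4 : ℝ) := by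
          rw [Real.div_rpow (by positivity) (by norm_num)]
          have : (4 : ℝ) ^ (-4 : ℝ) = 1 / 256 := by
            rw [Real.rpow_neg (by norm_num), show (4 : ℝ) = ((4 : ℕ) : ℝ) by norm_num,
              Real.rpow_natCast]
            norm_num
          rw [this]
          ring
        linarith
      have h6 : ‖((1 - s (b + 1) : ℝ) : ℂ)‖ ≤ (L : ℝ) + 2 := by
        rw [Complex.norm_real, Real.norm_eq_abs, abs_le]
        have a1 := hs0 (b + 1)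
        have a2 := hs1 (b + 1)
        have a3 : (0 : ℝ) ≤ L := Nat.cast_nonneg L
        constructor <;> linarith
      have h7 : ‖f b‖ ≤ E * (256 * ((b : ℝ) + 1) ^ (-4 : ℝ)) := by
        rw [hf]
        simp only
        rw [norm_mul, Complex.norm_real, Real.norm_eq_abs, abs_of_pos (by positivity)]
        have h8 : ((b : ℝ) + 1) ^ (-(1 / 2) : ℝ) ≤ 1 :=
          Real.rpow_le_one_of_one_le_of_nonpos hb1 (by norm_num)
        calc ((b : ℝ) + 1) ^ (-(1 / 2) : ℝ) * ‖P (((b : ℝ) + 1) * y)‖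
            ≤ 1 * (E * (1 + ((b : ℝ) + 1) * y) ^ (-4 : ℝ)) := by
              apply mul_le_mul h8 h1 (norm_nonneg _) (by norm_num)
          _ ≤ E * (256 * ((b : ℝ) + 1) ^ (-4 : ℝ)) := by
              rw [one_mul]
              exact mul_le_mul_of_nonneg_left h2 hE
      calc ‖((1 - s (b + 1) : ℝ) : ℂ) * f b‖
          = ‖((1 - s (b + 1) : ℝ) : ℂ)‖ * ‖f b‖ := norm_mul _ _
        _ ≤ ((L : ℝ) + 2) * (E * (256 * ((b : ℝ) + 1) ^ (-4 : ℝ))) :=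
            mul_le_mul h6 h7 (norm_nonneg _) (by positivity)
        _ = _ := by ring
  have hsum2 : HasSum (fun b : ℕ => ((L : ℝ) + 2) * E * (256 * ((b : ℝ) + 1) ^ (-4 : ℝ)))
      (((L : ℝ) + 2) * E * BS_K) := BS_summable.hasSum.mul_left _
  have hS2 : Summable (fun b : ℕ => ((1 - s (b + 1) : ℝ) : ℂ) * f b) :=
    Summable.of_norm_bounded hsum2.summable hg2
  have hN2 : ‖∑' b : ℕ, ((1 - s (b + 1) : ℝ) : ℂ) * f b‖ ≤ ((L : ℝ) + 2) * E * BS_K :=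
    tsum_of_norm_bounded hsum2 hg2
  -- the first part
  have hz : ∀ (l : ℕ) (b : ℕ), 2 * (2 : ℝ) ^ l < b → ww ((b : ℝ) / 2 ^ l) = 0 := by
    intro l b hb
    by_contra h
    have h2 := (hsupp _ h).2
    rw [div_le_iff₀ (by positivity)] at h2
    linarith
  have hg1z : ∀ b ∉ Finset.range (2 ^ (L + 1)), ((s (b + 1) : ℝ) : ℂ) * f b = 0 := by
    intro b hb
    rw [Finset.mem_range, not_lt] at hb
    have : s (b + 1) = 0 := by
      rw [hs]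
      refine Finset.sum_eq_zero fun l hl => hz l (b + 1) ?_
      rw [Finset.mem_range] at hl
      have h1 : (2 : ℝ) ^ (L + 1) ≤ b := by exact_mod_cast hb
      have h2 : (2 : ℝ) ^ l ≤ 2 ^ L := pow_le_pow_right₀ (by norm_num) (by omega)
      rw [pow_succ] at h1
      push_cast
      linarith
    rw [this]
    simp
  have hS1 : Summable (fun b : ℕ => ((s (b + 1) : ℝ) : ℂ) * f b) :=
    summable_of_ne_finset_zero hg1z
  have hT1 : ∑' b : ℕ, ((s (b + 1) : ℝ) : ℂ) * f b =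
      ∑ l ∈ Finset.range (L + 1), ∑ b ∈ Finset.Icc 1 ⌊2 * (2 : ℝ) ^ l⌋₊,
        ((ww ((b : ℝ) / 2 ^ l) * (b : ℝ) ^ (-(1 / 2) : ℝ) : ℝ) : ℂ) * P ((b : ℝ) * y) := by
    rw [tsum_eq_sum hg1z]
    have e1 : ∀ b ∈ Finset.range (2 ^ (L + 1)), ((s (b + 1) : ℝ) : ℂ) * f b =
        ∑ l ∈ Finset.range (L + 1), ((ww (((b + 1 : ℕ) : ℝ) / 2 ^ l) *
          ((b + 1 : ℕ) : ℝ) ^ (-(1 / 2) : ℝ) : ℝ) : ℂ) * P (((b + 1 : ℕ) : ℝ) * y) := by
      intro b _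
      rw [hs, hf]
      simp only
      rw [Complex.ofReal_sum, Finset.sum_mul]
      refine Finset.sum_congr rfl fun l _ => ?_
      push_cast
      ring
    rw [Finset.sum_congr rfl e1, Finset.sum_comm]
    refine Finset.sum_congr rfl fun l hl => ?_
    rw [Finset.mem_range] at hl
    set G : ℕ → ℂ := fun b => ((ww ((b : ℝ) / 2 ^ l) * (b : ℝ) ^ (-(1 / 2) : ℝ) : ℝ) : ℂ) *
      P ((b : ℝ) * y) with hG
    have e2 : ∑ b ∈ Finset.range (2 ^ (L + 1)), G (b + 1) =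
        ∑ b ∈ Finset.Icc 1 (2 ^ (L + 1)), G b := by
      rw [Finset.range_eq_Ico, Finset.sum_Ico_add' G 0 (2 ^ (L + 1)) 1]
      rfl
    have e3 : ⌊2 * (2 : ℝ) ^ l⌋₊ = 2 ^ (l + 1) := by
      have : 2 * (2 : ℝ) ^ l = ((2 ^ (l + 1) : ℕ) : ℝ) := by push_cast; ring
      rw [this, Nat.floor_natCast]
    change ∑ b ∈ Finset.range (2 ^ (L + 1)), G (b + 1) = _
    rw [e2, e3]
    symm
    apply Finset.sum_subset
    · intro b hb
      rw [Finset.mem_Icc] at hb ⊢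
      exact ⟨hb.1, hb.2.trans (Nat.pow_le_pow_right (by norm_num) (by omega))⟩
    · intro b hb hb'
      rw [Finset.mem_Icc] at hb
      rw [Finset.mem_Icc] at hb'
      push Not at hb'
      have h1 := hb' hb.1
      have h2 : 2 * (2 : ℝ) ^ l < b := by
        have : ((2 ^ (l + 1) : ℕ) : ℝ) < b := by exact_mod_cast h1
        push_cast at this
        rw [pow_succ] at this
        linarith
      change ((ww ((b : ℝ) / 2 ^ l) * (b : ℝ) ^ (-(1 / 2) : ℝ) : ℝ) : ℂ) * P ((b : ℝ) * y) = 0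
      rw [hz l b h2]
      simp
  have hT : ∑' b : ℕ, f b = (∑' b : ℕ, ((s (b + 1) : ℝ) : ℂ) * f b) +
      ∑' b : ℕ, ((1 - s (b + 1) : ℝ) : ℂ) * f b := by
    rw [← hS1.tsum_add hS2]
    refine tsum_congr fun b => ?_
    push_cast
    ring
  rw [hT, hT1, add_sub_cancel_left]
  exact hN2

/-- the weights of `c, h` -/
def BS_w (w : ℂ) (C H : ℝ) (h c : ℕ) : ℂ :=
  ((ww ((c : ℝ) / C) * ww ((h : ℝ) / H) : ℝ) : ℂ) * ((c * h : ℝ) : ℂ) ^ (-(1 / 2 + w))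

lemma BS_norm_cpow (w : ℂ) (hw : 0 ≤ w.re) (c h : ℕ) (hc : 1 ≤ c) (hh : 1 ≤ h) :
    ‖((c * h : ℝ) : ℂ) ^ (-(1 / 2 + w))‖ ≤ 1 := by
  have h1 : (1 : ℝ) ≤ c := by exact_mod_cast hc
  have h2 : (1 : ℝ) ≤ h := by exact_mod_cast hh
  have h3 : (1 : ℝ) ≤ (c : ℝ) * h := by nlinarith
  rw [Complex.norm_cpow_eq_rpow_re_of_pos (by linarith)]
  apply Real.rpow_le_one_of_one_le_of_nonpos h3
  simp
  linarith

lemma BS_norm_w (hW : S_W1) (w : ℂ) (hw : 0 ≤ w.re) (C H : ℝ) (c h : ℕ) (hc : 1 ≤ c)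
    (hh : 1 ≤ h) : ‖BS_w w C H h c‖ ≤ 1 := by
  obtain ⟨_, hsupp, h01, hone⟩ := hW
  unfold BS_w
  rw [norm_mul, Complex.norm_real, Real.norm_eq_abs]
  have h1 : |ww ((c : ℝ) / C) * ww ((h : ℝ) / H)| ≤ 1 := by
    rw [abs_mul, abs_of_nonneg (h01 _).1, abs_of_nonneg (h01 _).1]
    exact mul_le_one₀ (h01 _).2 (h01 _).1 (h01 _).2
  exact mul_le_one₀ h1 (norm_nonneg _) (BS_norm_cpow w hw c h hc hh)

/-- the sum of the boxes -/
lemma BS_sumXb (k : ℕ) (δ : ℝ) (w : ℂ) (C H : ℝ) (L : ℕ) :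
    ∑ l ∈ Finset.range (L + 1), Xb k δ w (2 ^ l) C H =
      ∑ h ∈ Finset.Icc 1 ⌊2 * H⌋₊, ∑ c ∈ Finset.Icc 1 ⌊2 * C⌋₊, BS_w w C H h c *
        ∑ l ∈ Finset.range (L + 1), ∑ b ∈ Finset.Icc 1 ⌊2 * (2 : ℝ) ^ l⌋₊,
          ((ww ((b : ℝ) / 2 ^ l) * (b : ℝ) ^ (-(1 / 2) : ℝ) : ℝ) : ℂ) *
            Ph k δ w ((b : ℝ) * ((c : ℝ) / h)) := by
  unfold Xb
  rw [Finset.sum_comm]
  refine Finset.sum_congr rfl fun h _ => ?_
  have e1 : ∀ l ∈ Finset.range (L + 1), (∑ b ∈ Finset.Icc 1 ⌊2 * (2 : ℝ) ^ l⌋₊,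
      ∑ c ∈ Finset.Icc 1 ⌊2 * C⌋₊,
      ((ww ((b : ℝ) / 2 ^ l) * ww ((c : ℝ) / C) * ww ((h : ℝ) / H) *
        (b : ℝ) ^ (-(1 / 2) : ℝ) : ℝ) : ℂ) *
      ((c * h : ℝ) : ℂ) ^ (-(1 / 2 + w)) * Ph k δ w ((b : ℝ) * c / h)) =
      ∑ c ∈ Finset.Icc 1 ⌊2 * C⌋₊, ∑ b ∈ Finset.Icc 1 ⌊2 * (2 : ℝ) ^ l⌋₊,
      ((ww ((b : ℝ) / 2 ^ l) * ww ((c : ℝ) / C) * ww ((h : ℝ) / H) *
        (b : ℝ) ^ (-(1 / 2) : ℝ) : ℝ) : ℂ) *
      ((c * h : ℝ) : ℂ) ^ (-(1 / 2 + w)) * Ph k δ w ((b : ℝ) * c / h) := by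
    intro l _
    rw [Finset.sum_comm]
  rw [Finset.sum_congr rfl e1, Finset.sum_comm]
  refine Finset.sum_congr rfl fun c _ => ?_
  rw [Finset.mul_sum]
  refine Finset.sum_congr rfl fun l _ => ?_
  rw [Finset.mul_sum]
  refine Finset.sum_congr rfl fun b _ => ?_
  unfold BS_w
  rw [mul_div_assoc]
  push_cast
  ring

lemma BS_card (x : ℝ) (hx : 0 ≤ x) : ((Finset.Icc 1 ⌊x⌋₊).card : ℝ) ≤ x := by
  rw [Nat.card_Icc]
  simp only [Nat.add_sub_cancel]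
  exact Nat.floor_le hx

/-- error of the decomposition -/
lemma BS_err (hW : S_W1) (k : ℕ) (δ : ℝ) (w : ℂ) (hw : 0 ≤ w.re) (C H E X : ℝ) (hC : 1 ≤ C)
    (hH : 1 ≤ H) (hHC : H ≤ C) (hE : 0 ≤ E)
    (hP : ∀ x, 0 < x → X ≤ x → ‖Ph k δ w x‖ ≤ E * (1 + x) ^ (-4 : ℝ)) (L : ℕ)
    (hL : X ≤ 2 ^ L / 4) :
    ‖Yc k δ w C H - ∑ l ∈ Finset.range (L + 1), Xb k δ w (2 ^ l) C H‖ ≤
      2 * H * (2 * C * (((L : ℝ) + 2) * E * BS_K)) := by
  have hY : Yc k δ w C H = ∑ h ∈ Finset.Icc 1 ⌊2 * H⌋₊, ∑ c ∈ Finset.Icc 1 ⌊2 * C⌋₊,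
      BS_w w C H h c * Bs k δ w ((c : ℝ) / h) := rfl
  have hKE : 0 ≤ ((L : ℝ) + 2) * E * BS_K := by
    have := BS_K_nonneg
    positivity
  rw [hY, BS_sumXb, ← Finset.sum_sub_distrib]
  have h1 : ∀ h ∈ Finset.Icc 1 ⌊2 * H⌋₊, ‖(∑ c ∈ Finset.Icc 1 ⌊2 * C⌋₊,
      BS_w w C H h c * Bs k δ w ((c : ℝ) / h)) - ∑ c ∈ Finset.Icc 1 ⌊2 * C⌋₊, BS_w w C H h c *
        ∑ l ∈ Finset.range (L + 1), ∑ b ∈ Finset.Icc 1 ⌊2 * (2 : ℝ) ^ l⌋₊,
          ((ww ((b : ℝ) / 2 ^ l) * (b : ℝ) ^ (-(1 / 2) : ℝ) : ℝ) : ℂ) *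
            Ph k δ w ((b : ℝ) * ((c : ℝ) / h))‖ ≤ 2 * C * (((L : ℝ) + 2) * E * BS_K) := by
    intro h hh
    rw [Finset.mem_Icc] at hh
    rw [← Finset.sum_sub_distrib]
    have h2 : ∀ c ∈ Finset.Icc 1 ⌊2 * C⌋₊, ‖BS_w w C H h c * Bs k δ w ((c : ℝ) / h) -
        BS_w w C H h c *
        ∑ l ∈ Finset.range (L + 1), ∑ b ∈ Finset.Icc 1 ⌊2 * (2 : ℝ) ^ l⌋₊,
          ((ww ((b : ℝ) / 2 ^ l) * (b : ℝ) ^ (-(1 / 2) : ℝ) : ℝ) : ℂ) *
            Ph k δ w ((b : ℝ) * ((c : ℝ) / h))‖ ≤ ((L : ℝ) + 2) * E * BS_K := by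
      intro c hc
      rw [Finset.mem_Icc] at hc
      rw [← mul_sub, norm_mul]
      by_cases h0 : ww ((c : ℝ) / C) * ww ((h : ℝ) / H) = 0
      · have : BS_w w C H h c = 0 := by
          unfold BS_w
          rw [h0]
          simp
        rw [this, norm_zero, zero_mul]
        exact hKE
      · have hc0 : ww ((c : ℝ) / C) ≠ 0 := fun h => h0 (by rw [h, zero_mul])
        have hh0 : ww ((h : ℝ) / H) ≠ 0 := fun h => h0 (by rw [h, mul_zero])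
        have s1 := (hW.2.1 _ hc0).1
        have s2 := (hW.2.1 _ hh0).2
        rw [le_div_iff₀ (by linarith)] at s1
        rw [div_le_iff₀ (by linarith)] at s2
        have hh1 : (1 : ℝ) ≤ h := by exact_mod_cast hh.1
        have hy : 1 / 4 ≤ (c : ℝ) / h := by
          rw [le_div_iff₀ (by linarith)]
          nlinarith
        have h3 := BS_dec hW (Ph k δ w) E X hE hP L ((c : ℝ) / h) hy hL
        calc ‖BS_w w C H h c‖ * _ ≤ 1 * (((L : ℝ) + 2) * E * BS_K) :=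
              mul_le_mul (BS_norm_w hW w hw C H c h hc.1 hh.1) h3 (norm_nonneg _) (by norm_num)
          _ = _ := one_mul _
    calc _ ≤ ∑ c ∈ Finset.Icc 1 ⌊2 * C⌋₊, ((L : ℝ) + 2) * E * BS_K := norm_sum_le_of_le _ h2
      _ = ((Finset.Icc 1 ⌊2 * C⌋₊).card : ℝ) * (((L : ℝ) + 2) * E * BS_K) := by
          rw [Finset.sum_const, nsmul_eq_mul]
      _ ≤ 2 * C * (((L : ℝ) + 2) * E * BS_K) :=
          mul_le_mul_of_nonneg_right (BS_card _ (by linarith)) hKE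
  calc _ ≤ ∑ h ∈ Finset.Icc 1 ⌊2 * H⌋₊, 2 * C * (((L : ℝ) + 2) * E * BS_K) :=
        norm_sum_le_of_le _ h1
    _ = ((Finset.Icc 1 ⌊2 * H⌋₊).card : ℝ) * (2 * C * (((L : ℝ) + 2) * E * BS_K)) := by
        rw [Finset.sum_const, nsmul_eq_mul]
    _ ≤ _ := mul_le_mul_of_nonneg_right (BS_card _ (by linarith)) (by positivity)

/-- crude bound for a box where the transform is small -/
lemma BS_box (hW : S_W1) (k : ℕ) (δ : ℝ) (w : ℂ) (hw : 0 ≤ w.re) (B C H E : ℝ) (hB : 1 ≤ B)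
    (hC : 1 ≤ C) (hH : 1 ≤ H) (hE : 0 ≤ E)
    (hP : ∀ x, 0 < x → B * C / H / 8 ≤ x → x ≤ 8 * (B * C / H) → ‖Ph k δ w x‖ ≤ E) :
    ‖Xb k δ w B C H‖ ≤ 2 * H * (2 * B * (2 * C * E)) := by
  unfold Xb
  have h1 : ∀ h ∈ Finset.Icc 1 ⌊2 * H⌋₊, ∀ b ∈ Finset.Icc 1 ⌊2 * B⌋₊,
      ∀ c ∈ Finset.Icc 1 ⌊2 * C⌋₊,
      ‖((ww ((b : ℝ) / B) * ww ((c : ℝ) / C) * ww ((h : ℝ) / H) * (b : ℝ) ^ (-(1 / 2) : ℝ) : ℝ) : ℂ) *
      ((c * h : ℝ) : ℂ) ^ (-(1 / 2 + w)) * Ph k δ w ((b : ℝ) * c / h)‖ ≤ E := by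
    intro h hh b hb c hc
    rw [Finset.mem_Icc] at hh hb hc
    have hh1 : (1 : ℝ) ≤ h := by exact_mod_cast hh.1
    have hb1 : (1 : ℝ) ≤ b := by exact_mod_cast hb.1
    have hc1 : (1 : ℝ) ≤ c := by exact_mod_cast hc.1
    by_cases h0 : ww ((b : ℝ) / B) * ww ((c : ℝ) / C) * ww ((h : ℝ) / H) = 0
    · rw [h0]
      simp [hE]
    · have hh0 : ww ((h : ℝ) / H) ≠ 0 := fun h => h0 (by rw [h, mul_zero])
      have hb0 : ww ((b : ℝ) / B) ≠ 0 := fun h => h0 (by rw [h, zero_mul, zero_mul])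
      have hc0 : ww ((c : ℝ) / C) ≠ 0 := fun h => h0 (by rw [h, mul_zero, zero_mul])
      obtain ⟨s1, s2⟩ := hW.2.1 _ hh0
      obtain ⟨t1, t2⟩ := hW.2.1 _ hb0
      obtain ⟨u1, u2⟩ := hW.2.1 _ hc0
      rw [le_div_iff₀ (by linarith)] at s1 t1 u1
      rw [div_le_iff₀ (by linarith)] at s2 t2 u2
      have hx0 : 0 < (b : ℝ) * c / h := by positivity
      have hx1 : B * C / H / 8 ≤ (b : ℝ) * c / h := by
        rw [div_div, div_le_div_iff₀ (by positivity) (by positivity)]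
        have e1 : B * C ≤ 4 * ((b : ℝ) * c) := by nlinarith
        have e2 : (h : ℝ) ≤ 2 * H := s2
        calc B * C * (h : ℝ) ≤ 4 * ((b : ℝ) * c) * (2 * H) :=
              mul_le_mul e1 e2 (by positivity) (by positivity)
          _ = (b : ℝ) * c * (H * 8) := by ring
      have hx2 : (b : ℝ) * c / h ≤ 8 * (B * C / H) := by
        rw [← mul_div_assoc, div_le_div_iff₀ (by positivity) (by positivity)]
        have e1 : (b : ℝ) * c ≤ 4 * (B * C) := by nlinarith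
        have e2 : H ≤ 2 * (h : ℝ) := by linarith
        calc (b : ℝ) * c * H ≤ 4 * (B * C) * (2 * (h : ℝ)) :=
              mul_le_mul e1 e2 (by positivity) (by positivity)
          _ = 8 * (B * C) * h := by ring
      have hPx := hP _ hx0 hx1 hx2
      rw [norm_mul, norm_mul, Complex.norm_real, Real.norm_eq_abs]
      have a1 : |ww ((b : ℝ) / B) * ww ((c : ℝ) / C) * ww ((h : ℝ) / H) *
          (b : ℝ) ^ (-(1 / 2) : ℝ)| ≤ 1 := by
        have h01 := hW.2.2.1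
        rw [abs_mul, abs_mul, abs_mul, abs_of_nonneg (h01 _).1, abs_of_nonneg (h01 _).1,
          abs_of_nonneg (h01 _).1, abs_of_nonneg (Real.rpow_nonneg (by linarith) _)]
        have h8 : (b : ℝ) ^ (-(1 / 2) : ℝ) ≤ 1 :=
          Real.rpow_le_one_of_one_le_of_nonpos hb1 (by norm_num)
        exact mul_le_one₀ (mul_le_one₀ (mul_le_one₀ (h01 _).2 (h01 _).1 (h01 _).2)
          (h01 _).1 (h01 _).2) (Real.rpow_nonneg (by linarith) _) h8
      have a2 := BS_norm_cpow w hw c h hc.1 hh.1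
      calc _ ≤ 1 * 1 * E := by
            apply mul_le_mul (mul_le_mul a1 a2 (norm_nonneg _) (by norm_num)) hPx (norm_nonneg _)
              (by norm_num)
        _ = E := by ring
  calc _ ≤ ∑ h ∈ Finset.Icc 1 ⌊2 * H⌋₊, ∑ b ∈ Finset.Icc 1 ⌊2 * B⌋₊,
        ∑ c ∈ Finset.Icc 1 ⌊2 * C⌋₊, E :=
        norm_sum_le_of_le _ fun h hh => norm_sum_le_of_le _ fun b hb => norm_sum_le_of_le _
          fun c hc => h1 h hh b hb c hc
    _ = ((Finset.Icc 1 ⌊2 * H⌋₊).card : ℝ) * (((Finset.Icc 1 ⌊2 * B⌋₊).card : ℝ) *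
        (((Finset.Icc 1 ⌊2 * C⌋₊).card : ℝ) * E)) := by
        simp only [Finset.sum_const, nsmul_eq_mul]
    _ ≤ _ := by
        apply mul_le_mul (BS_card _ (by linarith)) _ (by positivity) (by linarith)
        apply mul_le_mul (BS_card _ (by linarith)) _ (by positivity) (by linarith)
        exact mul_le_mul_of_nonneg_right (BS_card _ (by linarith)) hE

theorem BS (h1 : S_B1) (h2 : S_OFF) (hW : S_W1) : S_BS := by
  obtain ⟨T1, hB1⟩ := h1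
  obtain ⟨T2, hOFF⟩ := h2
  -- eventual inequalities
  have ev1 : ∀ᶠ T : ℝ in atTop, 2 * T ^ (1 / 1000000 : ℝ) ≤ T ^ (1 / 100 : ℝ) := by
    have h := tendsto_rpow_atTop (show (0 : ℝ) < 1 / 100 - 1 / 1000000 by norm_num)
    filter_upwards [h.eventually_ge_atTop 2, eventually_gt_atTop 0] with T hT hT0
    have e : T ^ (1 / 100 : ℝ) = T ^ (1 / 100 - 1 / 1000000 : ℝ) * T ^ (1 / 1000000 : ℝ) := by
      rw [← Real.rpow_add hT0]
      norm_num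
    rw [e]
    exact mul_le_mul_of_nonneg_right hT (by positivity)
  have ev3 : ∀ᶠ T : ℝ in atTop, 3 + 2 * Real.log T ≤ T ^ (1 / 360000 : ℝ) := by
    have h := isLittleO_log_rpow_atTop (show (0 : ℝ) < 1 / 360000 by norm_num)
    have h' := h.def (show (0 : ℝ) < 1 / 4 by norm_num)
    have h4 := tendsto_rpow_atTop (show (0 : ℝ) < 1 / 360000 by norm_num)
    filter_upwards [h', h4.eventually_ge_atTop 6, eventually_ge_atTop 1] with T hT hT6 hT1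
    rw [Real.norm_of_nonneg (Real.log_nonneg hT1),
      Real.norm_of_nonneg (Real.rpow_nonneg (by linarith) _)] at hT
    linarith
  have evall : ∀ᶠ T : ℝ in atTop, (2 * T ^ (1 / 1000000 : ℝ) ≤ T ^ (1 / 100 : ℝ) ∧
      3 + 2 * Real.log T ≤ T ^ (1 / 360000 : ℝ)) ∧ (max T1 T2 ≤ T ∧ (256 ≤ T ∧ BS_K ≤ T)) :=
    (ev1.and ev3).and ((eventually_ge_atTop _).and ((eventually_ge_atTop _).and
      (eventually_ge_atTop _)))
  obtain ⟨T0, hT0⟩ := Filter.eventually_atTop.1 evall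
  refine ⟨T0, ?_⟩
  intro T hT k hk1 hk2 t0 ht1 ht2 w hw1 hw2 C H hC hH hHC hCH
  obtain ⟨⟨e1, e3⟩, e4, e5, e6⟩ := hT0 T hT
  have hTpos : 0 < T := by linarith
  have hT1' : 1 ≤ T := by linarith
  have hkk : (k : ℝ) ≤ T ^ (1 / 100 : ℝ) := hk2.trans e1
  have hk0 : 1 ≤ k := by
    have h1 : (1 : ℝ) ≤ T ^ (1 / 1000000 : ℝ) := Real.one_le_rpow hT1' (by norm_num)
    have h2 : (1 : ℝ) ≤ k := h1.trans hk1
    exact_mod_cast h2
  have hw0 : 0 ≤ w.re := by rw [hw1]; norm_num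
  have hw1' : w.re ≤ 1 := by rw [hw1]; norm_num
  have hoff := hOFF T ((le_max_right _ _).trans e4) k hk1 hkk t0 ht1 ht2 w hw0 hw1' hw2
  have hb1 := hB1 T ((le_max_left _ _).trans e4) k hk0 hk2 t0 ht1 ht2 w hw1 hw2
  -- choose `L`
  obtain ⟨n, hn1, hn2⟩ := exists_nat_pow_near hT1' (show (1 : ℝ) < 2 by norm_num)
  set L := n + 1 with hLdef
  have hsq : T ^ (1 / 2 : ℝ) * T ^ (1 / 2 : ℝ) = T := by
    rw [← Real.rpow_add hTpos]
    norm_num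
  have hsq16 : 16 ≤ T ^ (1 / 2 : ℝ) := by
    have h1 : (0 : ℝ) ≤ T ^ (1 / 2 : ℝ) := by positivity
    nlinarith
  have hX : 4 * T ^ (1 / 2 : ℝ) ≤ 2 ^ L / 4 := by
    have : 16 * T ^ (1 / 2 : ℝ) ≤ T := by nlinarith
    linarith
  have hCH2 : C * H ≤ T ^ 2 := by
    refine hCH.trans ?_
    have : T ^ (1 + 1 / 100000 : ℝ) ≤ T ^ (2 : ℝ) :=
      Real.rpow_le_rpow_of_exponent_le hT1' (by norm_num)
    rwa [show (2 : ℝ) = ((2 : ℕ) : ℝ) by norm_num, Real.rpow_natCast] at this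
  set E : ℝ := T ^ (-20 : ℝ) with hE
  have hE0 : 0 < E := by positivity
  have hET : E * T ^ 20 = 1 := by
    have : T ^ (20 : ℕ) = T ^ (20 : ℝ) := by
      rw [← Real.rpow_natCast]; norm_num
    rw [hE, this, ← Real.rpow_add hTpos]
    norm_num
  have hLlog : (L : ℝ) + 2 ≤ T ^ (1 / 360000 : ℝ) := by
    have h1 : (n : ℝ) * Real.log 2 ≤ Real.log T := by
      rw [← Real.log_pow]
      exact Real.log_le_log (by positivity) hn1
    have h2 : (1 : ℝ) / 2 ≤ Real.log 2 := by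
      have := Real.log_two_gt_d9
      linarith
    have h3 : (0 : ℝ) ≤ n := Nat.cast_nonneg n
    have h4 : (n : ℝ) ≤ 2 * Real.log T := by nlinarith
    have h5 : (L : ℝ) = n + 1 := by rw [hLdef]; push_cast; ring
    rw [h5]
    linarith
  have hLT : (L : ℝ) + 2 ≤ T := by
    have : T ^ (1 / 360000 : ℝ) ≤ T ^ (1 : ℝ) :=
      Real.rpow_le_rpow_of_exponent_le hT1' (by norm_num)
    rw [Real.rpow_one] at this
    linarith
  set G : ℝ := T ^ (-(1 / 40000) : ℝ) with hG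
  have hsmall : E * T ^ 6 ≤ G := by
    have h1 : E * T ^ 6 = T ^ (-14 : ℝ) := by
      have : T ^ (6 : ℕ) = T ^ (6 : ℝ) := by
        rw [← Real.rpow_natCast]; norm_num
      rw [hE, this, ← Real.rpow_add hTpos]
      norm_num
    rw [h1, hG]
    exact Real.rpow_le_rpow_of_exponent_le hT1' (by norm_num)
  -- error
  have herr := BS_err hW k (k / t0) w hw0 C H E (4 * T ^ (1 / 2 : ℝ)) hC hH hHC hE0.le
    (fun x hx hx4 => hoff x hx (Or.inr hx4)) L hX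
  have herr2 : 2 * H * (2 * C * (((L : ℝ) + 2) * E * BS_K)) ≤ G := by
    refine le_trans ?_ hsmall
    have hK := BS_K_nonneg
    calc 2 * H * (2 * C * (((L : ℝ) + 2) * E * BS_K))
        = 4 * (C * H) * (((L : ℝ) + 2) * BS_K) * E := by ring
      _ ≤ T * T ^ 2 * (T * T) * E := by
        apply mul_le_mul_of_nonneg_right _ hE0.le
        apply mul_le_mul _ _ (by positivity) (by positivity)
        · apply mul_le_mul (by linarith) hCH2 (by positivity) hTpos.le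
        · exact mul_le_mul hLT e6 hK hTpos.le
      _ ≤ E * T ^ 6 := by
        have h6 : T ^ 5 ≤ T ^ 6 := pow_le_pow_right₀ hT1' (by norm_num)
        calc T * T ^ 2 * (T * T) * E = E * T ^ 5 := by ring
          _ ≤ E * T ^ 6 := mul_le_mul_of_nonneg_left h6 hE0.le
  -- boxes
  have hbox : ∀ l ∈ Finset.range (L + 1), ‖Xb k (k / t0) w (2 ^ l) C H‖ ≤ G := by
    intro l hl
    rw [Finset.mem_range] at hl
    have hB1' : (1 : ℝ) ≤ 2 ^ l := one_le_pow₀ (by norm_num)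
    have hB2 : (2 : ℝ) ^ l ≤ 2 * T := by
      have : (2 : ℝ) ^ l ≤ 2 ^ (n + 1) := pow_le_pow_right₀ (by norm_num) (by omega)
      rw [pow_succ] at this
      linarith
    have hcrude : (∀ x, 0 < x → (2 : ℝ) ^ l * C / H / 8 ≤ x → x ≤ 8 * ((2 : ℝ) ^ l * C / H) →
        ‖Ph k (k / t0) w x‖ ≤ E) → ‖Xb k (k / t0) w (2 ^ l) C H‖ ≤ G := by
      intro hP
      refine (BS_box hW k (k / t0) w hw0 (2 ^ l) C H E hB1' hC hH hE0.le hP).trans
        (le_trans ?_ hsmall)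
      calc 2 * H * (2 * (2 : ℝ) ^ l * (2 * C * E)) = 8 * (C * H) * (2 : ℝ) ^ l * E := by ring
        _ ≤ (T * T ^ 2) * (2 * T) * E := by
          apply mul_le_mul_of_nonneg_right _ hE0.le
          apply mul_le_mul _ hB2 (by positivity) (by positivity)
          exact mul_le_mul (by linarith) hCH2 (by positivity) hTpos.le
        _ ≤ E * T ^ 6 := by
          have h6 : 2 * T ^ 4 ≤ T ^ 6 := by
            have : T ^ 6 = T ^ 2 * T ^ 4 := by ring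
            rw [this]
            apply mul_le_mul_of_nonneg_right _ (by positivity)
            nlinarith
          calc T * T ^ 2 * (2 * T) * E = E * (2 * T ^ 4) := by ring
            _ ≤ E * T ^ 6 := mul_le_mul_of_nonneg_left h6 hE0.le
    have hone : ∀ x : ℝ, 0 < x → (x ≤ T ^ (1 / 2 : ℝ) / 10 ∨ 4 * T ^ (1 / 2 : ℝ) ≤ x) →
        ‖Ph k (k / t0) w x‖ ≤ E := by
      intro x hx hx'
      refine (hoff x hx hx').trans ?_
      have : (1 + x) ^ (-4 : ℝ) ≤ 1 :=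
        Real.rpow_le_one_of_one_le_of_nonpos (by linarith) (by norm_num)
      calc T ^ (-20 : ℝ) * (1 + x) ^ (-4 : ℝ) ≤ T ^ (-20 : ℝ) * 1 :=
            mul_le_mul_of_nonneg_left this (by positivity)
        _ = E := by rw [mul_one]
    by_cases ha : T ^ (1 / 2 : ℝ) / 100 ≤ (2 : ℝ) ^ l * C / H
    · by_cases hb : (2 : ℝ) ^ l * C / H ≤ 100 * T ^ (1 / 2 : ℝ)
      · exact hb1 (2 ^ l) C H hB1' hC hH hHC hCH ha hb
      · push Not at hb
        exact hcrude fun x hx h1 h2 => hone x hx (Or.inr (by linarith))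
    · push Not at ha
      exact hcrude fun x hx h1 h2 => hone x hx (Or.inl (by linarith))
  -- conclusion
  have hfin : ‖Yc k (k / t0) w C H‖ ≤ ((L : ℝ) + 2) * G := by
    have h3 : ‖∑ l ∈ Finset.range (L + 1), Xb k (k / t0) w (2 ^ l) C H‖ ≤ ((L : ℝ) + 1) * G := by
      calc _ ≤ ∑ l ∈ Finset.range (L + 1), G := norm_sum_le_of_le _ hbox
        _ = ((L : ℝ) + 1) * G := by simp
    have h4 := norm_sub_norm_le (Yc k (k / t0) w C H)
      (∑ l ∈ Finset.range (L + 1), Xb k (k / t0) w (2 ^ l) C H)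
    linarith [herr, herr2]
  refine hfin.trans ?_
  have h5 : T ^ (-(1 / 45000) : ℝ) = T ^ (1 / 360000 : ℝ) * G := by
    rw [hG, ← Real.rpow_add hTpos]
    norm_num
  rw [h5]
  exact mul_le_mul_of_nonneg_right hLlog (by positivity)

end

end Pool.Agent.H408R2.CM
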