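import Pool.Agent.H408R2.CM.Stubs

set_option autoImplicit false

open Complex MeasureTheory Filter Topology

namespace Pool.Agent.H408R2.CM

open Pool.Agent.H304R4.CM

theorem CX_osc (x t : ℝ) : ‖osc x t‖ = 1 := by
  unfold osc
  exact Complex.norm_exp_ofReal_mul_I _

theorem CX_term (s C1 x t : ℝ) (hs : 0 < s) (hC1 : 0 < C1)
    (hV : ∀ x : ℝ, 0 < x → ‖VV 1 x‖ ≤ C1 * x ^ (-s)) (hx : 0 < x) (ht : 0 < t) :
    ‖VV 1 (2 * Real.pi * x / t)‖ ≤ C1 * t ^ s * x ^ (-s) := by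
  have hpi := Real.pi_gt_three
  have hxt : 0 < x / t := div_pos hx ht
  have h0 : 0 < 2 * Real.pi * x / t := by positivity
  refine (hV _ h0).trans ?_
  have h1 : (2 * Real.pi * x / t) ^ (-s) ≤ (x / t) ^ (-s) := by
    refine Real.rpow_le_rpow_of_nonpos hxt ?_ (by linarith)
    rw [mul_div_assoc]
    nlinarith
  have h2 : (x / t) ^ (-s) = t ^ s * x ^ (-s) := by
    rw [Real.div_rpow hx.le ht.le, Real.rpow_neg ht.le, div_inv_eq_mul, mul_comm]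
  rw [h2] at h1
  calc C1 * (2 * Real.pi * x / t) ^ (-s) ≤ C1 * (t ^ s * x ^ (-s)) :=
        mul_le_mul_of_nonneg_left h1 hC1.le
    _ = C1 * t ^ s * x ^ (-s) := by ring

theorem CX_D2 (ε C1 t : ℝ) (hε : 0 < ε) (hC1 : 0 < C1)
    (hV : ∀ x : ℝ, 0 < x → ‖VV 1 x‖ ≤ C1 * x ^ (-(1 / 2 + 2 * ε))) (ht : 1 ≤ t) :
    ‖D2 t t‖ ≤ C1 * t ^ (1 / 2 + 2 * ε) * (∑' n : ℕ, (n : ℝ) ^ (-(1 + 2 * ε))) ^ 2 := by
  have ht0 : 0 < t := by linarith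
  have hsum : Summable (fun n : ℕ => (n : ℝ) ^ (-(1 + 2 * ε))) :=
    Real.summable_nat_rpow.mpr (by linarith)
  have hterm : ∀ c h : ℕ, 1 ≤ c → 1 ≤ h →
      ‖(((c * h : ℝ) ^ (-(1 / 2) : ℝ) : ℝ) : ℂ) * osc ((c : ℝ) / h) t *
        VV 1 (2 * Real.pi * (c * h) / t)‖ ≤
      C1 * t ^ (1 / 2 + 2 * ε) * ((c : ℝ) ^ (-(1 + 2 * ε)) * (h : ℝ) ^ (-(1 + 2 * ε))) := by
    intro c h hc hh
    have hc' : (0 : ℝ) < c := by exact_mod_cast hc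
    have hh' : (0 : ℝ) < h := by exact_mod_cast hh
    have hx : (0 : ℝ) < (c : ℝ) * h := mul_pos hc' hh'
    rw [norm_mul, norm_mul, CX_osc, mul_one, Complex.norm_real, Real.norm_eq_abs,
      abs_of_pos (Real.rpow_pos_of_pos hx _)]
    have h1 := CX_term (1 / 2 + 2 * ε) C1 ((c : ℝ) * h) t (by linarith) hC1 hV hx ht0
    have h2 : ((c : ℝ) * h) ^ (-(1 / 2) : ℝ) * ((c : ℝ) * h) ^ (-(1 / 2 + 2 * ε)) =
        (c : ℝ) ^ (-(1 + 2 * ε)) * (h : ℝ) ^ (-(1 + 2 * ε)) := by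
      rw [← Real.rpow_add hx, ← Real.mul_rpow hc'.le hh'.le]
      congr 1
      ring
    calc ((c : ℝ) * h) ^ (-(1 / 2) : ℝ) * ‖VV 1 (2 * Real.pi * (c * h) / t)‖
        ≤ ((c : ℝ) * h) ^ (-(1 / 2) : ℝ) *
          (C1 * t ^ (1 / 2 + 2 * ε) * ((c : ℝ) * h) ^ (-(1 / 2 + 2 * ε))) :=
          mul_le_mul_of_nonneg_left h1 (Real.rpow_pos_of_pos hx _).le
      _ = C1 * t ^ (1 / 2 + 2 * ε) *
          (((c : ℝ) * h) ^ (-(1 / 2) : ℝ) * ((c : ℝ) * h) ^ (-(1 / 2 + 2 * ε))) := by ring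
      _ = _ := by rw [h2]
  have hS : ∑ c ∈ Finset.Icc 1 ⌊t ^ 2⌋₊, (c : ℝ) ^ (-(1 + 2 * ε)) ≤
      ∑' n : ℕ, (n : ℝ) ^ (-(1 + 2 * ε)) :=
    hsum.sum_le_tsum _ (fun n _ => Real.rpow_nonneg (Nat.cast_nonneg n) _)
  have hS0 : 0 ≤ ∑ c ∈ Finset.Icc 1 ⌊t ^ 2⌋₊, (c : ℝ) ^ (-(1 + 2 * ε)) :=
    Finset.sum_nonneg (fun n _ => Real.rpow_nonneg (Nat.cast_nonneg n) _)
  unfold D2
  calc ‖∑ c ∈ Finset.Icc 1 ⌊t ^ 2⌋₊, ∑ h ∈ Finset.Icc 1 ⌊t ^ 2⌋₊,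
          (((c * h : ℝ) ^ (-(1 / 2) : ℝ) : ℝ) : ℂ) * osc ((c : ℝ) / h) t *
          VV 1 (2 * Real.pi * (c * h) / t)‖
      ≤ ∑ c ∈ Finset.Icc 1 ⌊t ^ 2⌋₊, ∑ h ∈ Finset.Icc 1 ⌊t ^ 2⌋₊,
          C1 * t ^ (1 / 2 + 2 * ε) * ((c : ℝ) ^ (-(1 + 2 * ε)) * (h : ℝ) ^ (-(1 + 2 * ε))) := by
        refine (norm_sum_le _ _).trans (Finset.sum_le_sum fun c hc => ?_)
        refine (norm_sum_le _ _).trans (Finset.sum_le_sum fun h hh => ?_)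
        exact hterm c h (Finset.mem_Icc.1 hc).1 (Finset.mem_Icc.1 hh).1
    _ = C1 * t ^ (1 / 2 + 2 * ε) * (∑ c ∈ Finset.Icc 1 ⌊t ^ 2⌋₊, (c : ℝ) ^ (-(1 + 2 * ε))) ^ 2 := by
        rw [pow_two (∑ c ∈ Finset.Icc 1 ⌊t ^ 2⌋₊, (c : ℝ) ^ (-(1 + 2 * ε))), Finset.sum_mul_sum]
        simp only [Finset.mul_sum]
    _ ≤ _ := by
        refine mul_le_mul_of_nonneg_left (pow_le_pow_left₀ hS0 hS 2) ?_
        positivity

theorem CX (h1 : S_AFE) (h2 : S_V) (h3 : S_GZ) : S_CX := by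
  intro ε hε
  obtain ⟨T0, hT0⟩ := h1 (1 / 10) (by norm_num)
  obtain ⟨C1, hC1, hV⟩ := h2.2.2.1 (1 / 2 + 2 * ε) (by linarith)
  obtain ⟨C2, hC2, hG⟩ := h3
  obtain ⟨S, hS⟩ : ∃ S : ℝ, S = ∑' n : ℕ, (n : ℝ) ^ (-(1 + 2 * ε)) := ⟨_, rfl⟩
  have hK : 0 < 2 * (C1 * S ^ 2) + 1 := by positivity
  refine ⟨√(2 * (C1 * S ^ 2) + 1) + C2 * (1 + |T0|) ^ 2, by positivity, fun t ht => ?_⟩
  have ht0 : 0 < t := by linarith
  have hp : 1 ≤ t ^ (1 / 4 + ε) := Real.one_le_rpow ht (by linarith)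
  have hp0 : 0 ≤ t ^ (1 / 4 + ε) := by linarith
  rcases le_total T0 t with h | h
  · have hA := hT0 t h t (by linarith) (by linarith)
    have hD := CX_D2 ε C1 t hε hC1 hV ht
    rw [← hS] at hD
    have h4 : t ^ (-(2 / 5) + 1 / 10 : ℝ) ≤ 1 := Real.rpow_le_one_of_one_le_of_nonpos ht (by norm_num)
    have h5 : ‖zc t‖ ^ 2 ≤ 2 * ‖D2 t t‖ + 1 := by
      have h6 : ‖((‖zc t‖ ^ 2 : ℝ) : ℂ)‖ = ‖zc t‖ ^ 2 := by
        rw [Complex.norm_real, Real.norm_eq_abs, abs_of_nonneg (by positivity)]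
      have h7 : ‖((‖zc t‖ ^ 2 : ℝ) : ℂ)‖ ≤ ‖((‖zc t‖ ^ 2 : ℝ) : ℂ) - 2 * D2 t t‖ + ‖2 * D2 t t‖ := by
        have := norm_add_le (((‖zc t‖ ^ 2 : ℝ) : ℂ) - 2 * D2 t t) (2 * D2 t t)
        rwa [sub_add_cancel] at this
      have h8 : ‖2 * D2 t t‖ = 2 * ‖D2 t t‖ := by
        rw [norm_mul]
        norm_num
      rw [h6, h8] at h7
      linarith
    have h9 : t ^ (1 / 2 + 2 * ε) = (t ^ (1 / 4 + ε)) ^ 2 := by
      rw [← Real.rpow_natCast, ← Real.rpow_mul ht0.le]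
      congr 1
      push_cast
      ring
    rw [h9] at hD
    have h10 : ‖zc t‖ ^ 2 ≤ (2 * (C1 * S ^ 2) + 1) * (t ^ (1 / 4 + ε)) ^ 2 := by
      have h11 : 1 ≤ (t ^ (1 / 4 + ε)) ^ 2 := one_le_pow₀ hp
      nlinarith
    have h12 : ‖zc t‖ ≤ √(2 * (C1 * S ^ 2) + 1) * t ^ (1 / 4 + ε) := by
      have h13 := Real.le_sqrt_of_sq_le h10
      rwa [Real.sqrt_mul hK.le, Real.sqrt_sq hp0] at h13
    calc ‖zc t‖ ≤ √(2 * (C1 * S ^ 2) + 1) * t ^ (1 / 4 + ε) := h12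
      _ ≤ (√(2 * (C1 * S ^ 2) + 1) + C2 * (1 + |T0|) ^ 2) * t ^ (1 / 4 + ε) := by
        refine mul_le_mul_of_nonneg_right ?_ hp0
        have : 0 ≤ C2 * (1 + |T0|) ^ 2 := by positivity
        linarith
  · have hg := hG t
    rw [abs_of_pos ht0] at hg
    have h4 : (1 + t) ^ 2 ≤ (1 + |T0|) ^ 2 := by
      refine pow_le_pow_left₀ (by linarith) ?_ 2
      have := le_abs_self T0
      linarith
    calc ‖zc t‖ ≤ C2 * (1 + t) ^ 2 := hg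
      _ ≤ C2 * (1 + |T0|) ^ 2 := mul_le_mul_of_nonneg_left h4 hC2.le
      _ ≤ √(2 * (C1 * S ^ 2) + 1) + C2 * (1 + |T0|) ^ 2 := by
        have := Real.sqrt_nonneg (2 * (C1 * S ^ 2) + 1)
        linarith
      _ ≤ (√(2 * (C1 * S ^ 2) + 1) + C2 * (1 + |T0|) ^ 2) * t ^ (1 / 4 + ε) := by
        refine le_mul_of_one_le_right ?_ hp
        positivity

end Pool.Agent.H408R2.CM
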