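import Pool.Agent.H408R2.CM.Stubs

set_option autoImplicit false

/-! # TEAM CM, part 1, task DS: the main term as a double series. -/

open Complex MeasureTheory Filter Topology

namespace Pool.Agent.H408R2.CM

open Pool.Agent.H304R4.CM

noncomputable section

theorem DS_cpow (x : ℝ) (hx : 0 < x) (s : ℂ) :
    (x : ℂ) ^ s = Complex.exp ((Real.log x : ℂ) * s) := by
  rw [Complex.cpow_def_of_ne_zero (by exact_mod_cast hx.ne'), Complex.ofReal_log hx.le]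

theorem DS_term (a b : ℝ) (ha : 0 < a) (hb : 0 < b) (t : ℝ) (ht : 0 < t) (w : ℂ) :
    ((t / (2 * Real.pi) : ℝ) : ℂ) ^ w *
      (1 / (a : ℂ) ^ (1 / 2 + t * I + w) * (1 / (b : ℂ) ^ (1 / 2 - t * I + w))) =
    (((a * b) ^ (-(1 / 2) : ℝ) : ℝ) : ℂ) * osc (a / b) t *
      ((2 * Real.pi * (a * b) / t : ℝ) : ℂ) ^ (-w) := by
  have hpi : 0 < 2 * Real.pi := by positivity
  have hab : 0 < a * b := mul_pos ha hb
  have he : ∀ x : ℂ, 1 / Complex.exp x = Complex.exp (-x) := fun x => by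
    rw [Complex.exp_neg, one_div]
  rw [DS_cpow _ (div_pos ht hpi), DS_cpow a ha, DS_cpow b hb,
    DS_cpow _ (div_pos (mul_pos hpi hab) ht), Real.rpow_def_of_pos hab, osc,
    Real.log_div ht.ne' hpi.ne', Real.log_div (mul_pos hpi hab).ne' ht.ne',
    Real.log_mul hpi.ne' hab.ne', Real.log_mul ha.ne' hb.ne', Real.log_div ha.ne' hb.ne',
    he, he, Complex.ofReal_exp,
    ← Complex.exp_add, ← Complex.exp_add, ← Complex.exp_add, ← Complex.exp_add]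
  congr 1
  push_cast
  ring

theorem DS_zeta (s : ℂ) (hs : s.re = 11 / 10) :
    riemannZeta s = ∑' n : ℕ, 1 / (((n : ℝ) + 1 : ℝ) : ℂ) ^ s ∧
    Summable (fun n : ℕ => ‖1 / (((n : ℝ) + 1 : ℝ) : ℂ) ^ s‖) ∧
    ∀ n : ℕ, ‖1 / (((n : ℝ) + 1 : ℝ) : ℂ) ^ s‖ = 1 / ((n : ℝ) + 1) ^ (11 / 10 : ℝ) := by
  have h3 : ∀ n : ℕ, ‖1 / (((n : ℝ) + 1 : ℝ) : ℂ) ^ s‖ = 1 / ((n : ℝ) + 1) ^ (11 / 10 : ℝ) := by
    intro n
    have hn : (0 : ℝ) < (n : ℝ) + 1 := by positivity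
    rw [norm_div, norm_one, Complex.norm_cpow_eq_rpow_re_of_pos hn, hs]
  have hsum : Summable (fun n : ℕ => 1 / ((n : ℝ) + 1) ^ (11 / 10 : ℝ)) := by
    have h := (summable_nat_add_iff 1).mpr
      (Real.summable_one_div_nat_rpow.mpr (by norm_num : (1 : ℝ) < 11 / 10))
    refine h.congr (fun n => ?_)
    push_cast
    rfl
  refine ⟨?_, ?_, h3⟩
  · rw [zeta_eq_tsum_one_div_nat_add_one_cpow (by rw [hs]; norm_num)]
    refine tsum_congr (fun n => ?_)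
    push_cast
    rfl
  · refine hsum.congr (fun n => (h3 n).symm)

theorem DS_re1 (t v : ℝ) :
    (1 / 2 + (t : ℂ) * I + (((3 / 5 : ℝ) : ℂ) + (v : ℂ) * I)).re = 11 / 10 := by
  simp
  norm_num

theorem DS_re2 (t v : ℝ) :
    (1 / 2 - (t : ℂ) * I + (((3 / 5 : ℝ) : ℂ) + (v : ℂ) * I)).re = 11 / 10 := by
  simp
  norm_num

theorem DS_bound : ∃ C : ℝ, 0 < C ∧ ∀ s : ℂ, s.re = 11 / 10 → ‖riemannZeta s‖ ≤ C := by
  refine ⟨(∑' n : ℕ, 1 / ((n : ℝ) + 1) ^ (11 / 10 : ℝ)) + 1, ?_, ?_⟩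
  · have : 0 ≤ ∑' n : ℕ, 1 / ((n : ℝ) + 1) ^ (11 / 10 : ℝ) := tsum_nonneg (fun n => by positivity)
    linarith
  · intro s hs
    obtain ⟨h1, h2, h3⟩ := DS_zeta s hs
    rw [h1]
    refine (norm_tsum_le_tsum_norm h2).trans ?_
    rw [tsum_congr h3]
    linarith

theorem DS_cont (s : ℝ → ℂ) (hs : Continuous s) (h1 : ∀ v, (s v).re = 11 / 10) :
    Continuous (fun v : ℝ => riemannZeta (s v)) := by
  rw [continuous_iff_continuousAt]
  intro v
  have hne : s v ≠ 1 := by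
    intro h
    have := h1 v
    rw [h] at this
    norm_num at this
  exact ContinuousAt.comp (f := s) (g := riemannZeta)
    (differentiableAt_riemannZeta hne).continuousAt hs.continuousAt

theorem DS (hV : S_V) : S_DS := by
  obtain ⟨-, -, -, hV4, hV5, -, -⟩ := hV
  refine ⟨?_, ?_, ?_⟩
  · obtain ⟨C, hC, hb⟩ := DS_bound
    refine ⟨C * C, by positivity, fun t v => ?_⟩
    rw [norm_mul]
    exact mul_le_mul (hb _ (DS_re1 t v)) (hb _ (DS_re2 t v)) (norm_nonneg _) hC.le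
  · intro t
    refine (DS_cont _ (by fun_prop) (fun v => DS_re1 t v)).mul
      (DS_cont _ (by fun_prop) (fun v => DS_re2 t v))
  · intro t ht
    set F : ℕ × ℕ → ℝ → ℂ := fun p v =>
      ((((((p.1 : ℝ) + 1) * ((p.2 : ℝ) + 1)) ^ (-(1 / 2) : ℝ) : ℝ) : ℂ) *
        osc (((p.1 : ℝ) + 1) / ((p.2 : ℝ) + 1)) t) *
        (((2 * Real.pi * (((p.1 : ℝ) + 1) * ((p.2 : ℝ) + 1)) / t : ℝ) : ℂ) ^
          (-(((3 / 5 : ℝ) : ℂ) + v * I)) * ew (3 / 5) v) with hF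
    have hpos : ∀ p : ℕ × ℕ, 0 < 2 * Real.pi * (((p.1 : ℝ) + 1) * ((p.2 : ℝ) + 1)) / t := by
      intro p
      have := Real.pi_pos
      positivity
    have hint : ∀ p : ℕ × ℕ, Integrable (F p) := by
      intro p
      exact (hV5 (3 / 5) _ (by norm_num) (hpos p)).const_mul _
    -- the pointwise identity
    have hpt : ∀ (p : ℕ × ℕ) (v : ℝ), F p v =
        (((t / (2 * Real.pi) : ℝ) : ℂ) ^ (((3 / 5 : ℝ) : ℂ) + v * I) *
          (1 / (((p.1 : ℝ) + 1 : ℝ) : ℂ) ^ (1 / 2 + t * I + (((3 / 5 : ℝ) : ℂ) + v * I)) *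
          (1 / (((p.2 : ℝ) + 1 : ℝ) : ℂ) ^ (1 / 2 - t * I + (((3 / 5 : ℝ) : ℂ) + v * I))))) *
          ew (3 / 5) v := by
      intro p v
      rw [DS_term _ _ (by positivity) (by positivity) t ht, hF]
      ring
    have hnorm : ∀ (p : ℕ × ℕ) (v : ℝ), ‖F p v‖ =
        (t / (2 * Real.pi)) ^ (3 / 5 : ℝ) * ((1 / ((p.1 : ℝ) + 1) ^ (11 / 10 : ℝ)) *
          (1 / ((p.2 : ℝ) + 1) ^ (11 / 10 : ℝ))) * ‖ew (3 / 5) v‖ := by
      intro p v
      have hpi := Real.pi_pos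
      rw [hpt, norm_mul, norm_mul, norm_mul, (DS_zeta _ (DS_re1 t v)).2.2 p.1,
        (DS_zeta _ (DS_re2 t v)).2.2 p.2, Complex.norm_cpow_eq_rpow_re_of_pos (by positivity)]
      congr 3
      simp
    have hzs : Summable (fun n : ℕ => 1 / ((n : ℝ) + 1) ^ (11 / 10 : ℝ)) := by
      have h := (summable_nat_add_iff 1).mpr
        (Real.summable_one_div_nat_rpow.mpr (by norm_num : (1 : ℝ) < 11 / 10))
      refine h.congr (fun n => ?_)
      push_cast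
      rfl
    have hsum : Summable (fun p : ℕ × ℕ => ∫ v : ℝ, ‖F p v‖) := by
      have h1 : ∀ p : ℕ × ℕ, ∫ v : ℝ, ‖F p v‖ =
          ((1 / ((p.1 : ℝ) + 1) ^ (11 / 10 : ℝ)) *
          (1 / ((p.2 : ℝ) + 1) ^ (11 / 10 : ℝ))) *
          ((t / (2 * Real.pi)) ^ (3 / 5 : ℝ) * ∫ v : ℝ, ‖ew (3 / 5) v‖) := by
        intro p
        simp_rw [hnorm p]
        rw [integral_const_mul]
        ring
      refine Summable.congr ?_ (fun p => (h1 p).symm)
      refine Summable.mul_right _ ?_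
      exact hzs.mul_of_nonneg hzs (fun n => by positivity) (fun n => by positivity)
    have key := hasSum_integral_of_summable_integral_norm hint hsum
    -- the left side
    have hL : ∀ v : ℝ, ∑' p : ℕ × ℕ, F p v =
        ((t / (2 * Real.pi) : ℝ) : ℂ) ^ (((3 / 5 : ℝ) : ℂ) + v * I) *
        (riemannZeta (1 / 2 + t * I + (((3 / 5 : ℝ) : ℂ) + v * I)) *
          riemannZeta (1 / 2 - t * I + (((3 / 5 : ℝ) : ℂ) + v * I))) * ew (3 / 5) v := by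
      intro v
      obtain ⟨a1, a2, -⟩ := DS_zeta _ (DS_re1 t v)
      obtain ⟨b1, b2, -⟩ := DS_zeta _ (DS_re2 t v)
      rw [a1, b1, tsum_mul_tsum_of_summable_norm a2 b2, tsum_congr (fun p => hpt p v),
        tsum_mul_right, tsum_mul_left]
    have hR : ∀ p : ℕ × ℕ, ∫ v : ℝ, F p v = (2 * Real.pi) *
        (((((((p.1 : ℝ) + 1) * ((p.2 : ℝ) + 1)) ^ (-(1 / 2) : ℝ) : ℝ) : ℂ) *
        osc (((p.1 : ℝ) + 1) / ((p.2 : ℝ) + 1)) t *
        VV (3 / 5) (2 * Real.pi * (((p.1 : ℝ) + 1) * ((p.2 : ℝ) + 1)) / t))) := by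
      intro p
      have hpi : (Real.pi : ℂ) ≠ 0 := by exact_mod_cast Real.pi_ne_zero
      rw [hF]
      simp only []
      rw [integral_const_mul, VV]
      generalize (∫ v : ℝ, ((2 * Real.pi * (((p.1 : ℝ) + 1) * ((p.2 : ℝ) + 1)) / t : ℝ) : ℂ) ^
          (-(((3 / 5 : ℝ) : ℂ) + v * I)) * ew (3 / 5) v) = J
      generalize ((((((p.1 : ℝ) + 1) * ((p.2 : ℝ) + 1)) ^ (-(1 / 2) : ℝ) : ℝ) : ℂ)) = A
      generalize osc (((p.1 : ℝ) + 1) / ((p.2 : ℝ) + 1)) t = B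
      field_simp
    have h2 := key.tsum_eq
    rw [tsum_congr hR, tsum_mul_left] at h2
    simp_rw [hL] at h2
    have hpi : (Real.pi : ℂ) ≠ 0 := by exact_mod_cast Real.pi_ne_zero
    rw [← h2, TT, ← mul_assoc]
    congr 1
    field_simp

end

end Pool.Agent.H408R2.CM
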