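import Pool.Agent.H408R2.CM.Stubs

set_option autoImplicit false

/-! Task EX (helper541): the exact formula for `|ζ(1/2+it)|²`. -/

open Complex MeasureTheory Filter Topology

namespace Pool.Agent.H408R2.CM

open Pool.Agent.H304R4.CM

noncomputable section

/-- `∫_{-R}^{R} dy / (3/5 + i y) = 2 arctan (5 R / 3)` -/
theorem EX_arctan (R : ℝ) :
    ∫ y in (-R)..R, (1 : ℂ) / (((3 / 5 : ℝ) : ℂ) + y * I) = ((2 * Real.arctan (5 / 3 * R) : ℝ) : ℂ) := by
  have hne : ∀ y : ℝ, ((3 / 5 : ℝ) : ℂ) + y * I ≠ 0 := by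
    intro y h
    have := congrArg Complex.re h
    simp at this
  have hcont : Continuous (fun y : ℝ => (1 : ℂ) / (((3 / 5 : ℝ) : ℂ) + y * I)) := by
    refine continuous_const.div ?_ hne
    fun_prop
  have hint : ∀ a b : ℝ, IntervalIntegrable (fun y : ℝ => (1 : ℂ) / (((3 / 5 : ℝ) : ℂ) + y * I))
      volume a b := fun a b => hcont.intervalIntegrable a b
  have hcont2 : Continuous (fun y : ℝ => (1 : ℂ) / (((3 / 5 : ℝ) : ℂ) + (-y : ℝ) * I)) :=
    hcont.comp continuous_neg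
  -- symmetrise
  have h1 : ∫ y in (-R)..R, (1 : ℂ) / (((3 / 5 : ℝ) : ℂ) + (-y : ℝ) * I) =
      ∫ y in (-R)..R, (1 : ℂ) / (((3 / 5 : ℝ) : ℂ) + y * I) := by
    have := intervalIntegral.integral_comp_neg (a := -R) (b := R)
      (fun y : ℝ => (1 : ℂ) / (((3 / 5 : ℝ) : ℂ) + y * I))
    rw [neg_neg] at this
    exact this
  have h2 : ∀ y : ℝ, (1 : ℂ) / (((3 / 5 : ℝ) : ℂ) + y * I) +
      (1 : ℂ) / (((3 / 5 : ℝ) : ℂ) + (-y : ℝ) * I) =
      ((2 * ((5 / 3) / (1 + (5 / 3 * y) ^ 2)) : ℝ) : ℂ) := by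
    intro y
    have ha := hne y
    have hb := hne (-y)
    have hc' : (1 + (5 / 3 * (y : ℂ)) ^ 2 : ℂ) ≠ 0 := by
      intro h
      have h' : ((1 + (5 / 3 * y) ^ 2 : ℝ) : ℂ) = 0 := by
        push_cast
        exact h
      have h'' : (1 + (5 / 3 * y) ^ 2 : ℝ) = 0 := Complex.ofReal_eq_zero.1 h'
      have : (0 : ℝ) < 1 + (5 / 3 * y) ^ 2 := by positivity
      linarith
    push_cast at ha hb ⊢
    have hAB : (3 / 5 + (y : ℂ) * I) * (3 / 5 + -(y : ℂ) * I) =
        9 / 25 * (1 + (5 / 3 * (y : ℂ)) ^ 2) := by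
      have hI : I * I = -1 := Complex.I_mul_I
      linear_combination (-(y : ℂ) ^ 2) * hI
    calc 1 / (3 / 5 + (y : ℂ) * I) + 1 / (3 / 5 + -(y : ℂ) * I) =
          (6 / 5) / ((3 / 5 + (y : ℂ) * I) * (3 / 5 + -(y : ℂ) * I)) := by
          rw [div_add_div _ _ ha hb]
          congr 1
          ring
      _ = (6 / 5) / (9 / 25 * (1 + (5 / 3 * (y : ℂ)) ^ 2)) := by rw [hAB]
      _ = 2 * (5 / 3 / (1 + (5 / 3 * (y : ℂ)) ^ 2)) := by
          rw [← div_div]
          ring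
  have h3 : ∫ y in (-R)..R, ((2 * ((5 / 3) / (1 + (5 / 3 * y) ^ 2)) : ℝ) : ℂ) =
      ((4 * Real.arctan (5 / 3 * R) : ℝ) : ℂ) := by
    rw [intervalIntegral.integral_ofReal]
    congr 1
    have hd : ∀ y ∈ Set.uIcc (-R) R, HasDerivAt (fun y => 2 * Real.arctan (5 / 3 * y))
        (2 * ((5 / 3) / (1 + (5 / 3 * y) ^ 2))) y := by
      intro y _
      have h4 : HasDerivAt (fun y : ℝ => 5 / 3 * y) (5 / 3) y := by
        simpa using (hasDerivAt_id y).const_mul (5 / 3 : ℝ)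
      exact ((h4.arctan).const_mul 2).congr_deriv (by ring)
    have hci : Continuous (fun y : ℝ => 2 * ((5 / 3) / (1 + (5 / 3 * y) ^ 2))) := by
      refine continuous_const.mul (continuous_const.div (by fun_prop) ?_)
      intro y
      positivity
    rw [intervalIntegral.integral_eq_sub_of_hasDerivAt hd (hci.intervalIntegrable _ _)]
    rw [show 5 / 3 * -R = -(5 / 3 * R) by ring, Real.arctan_neg]
    ring
  have h4 : (2 : ℂ) * ∫ y in (-R)..R, (1 : ℂ) / (((3 / 5 : ℝ) : ℂ) + y * I) =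
      ((4 * Real.arctan (5 / 3 * R) : ℝ) : ℂ) := by
    rw [← h3, two_mul]
    nth_rewrite 2 [← h1]
    rw [← intervalIntegral.integral_add (hint _ _) (hcont2.intervalIntegrable _ _)]
    apply intervalIntegral.integral_congr
    intro y _
    exact h2 y
  have h5 : ((2 : ℂ)) ≠ 0 := two_ne_zero
  apply mul_left_cancel₀ h5
  rw [h4]
  push_cast
  ring

/-- contour shift for an even entire function with Gaussian decay -/
theorem EX_shift (G : ℂ → ℂ) (hG : Differentiable ℂ G) (hev : ∀ w, G (-w) = G w) (K : ℝ)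
    (hK : ∀ x v : ℝ, 0 ≤ x → x ≤ 3 / 5 → ‖G ((x : ℂ) + v * I)‖ ≤ K * Real.exp (-(v ^ 2 / 2))) :
    ∫ v : ℝ, G (((3 / 5 : ℝ) : ℂ) + v * I) / (((3 / 5 : ℝ) : ℂ) + v * I) = Real.pi * G 0 := by
  have hK0 : 0 ≤ K := by
    have := (norm_nonneg _).trans (hK 0 0 le_rfl (by norm_num))
    simpa using this
  have hne : ∀ y : ℝ, ((3 / 5 : ℝ) : ℂ) + y * I ≠ 0 := by
    intro y h
    have := congrArg Complex.re h
    simp at this
  have hcontG : Continuous G := hG.continuous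
  -- integrability
  have hcont : Continuous (fun v : ℝ => G (((3 / 5 : ℝ) : ℂ) + v * I) /
      (((3 / 5 : ℝ) : ℂ) + v * I)) := by
    refine (hcontG.comp (by fun_prop)).div (by fun_prop) hne
  have hint : Integrable (fun v : ℝ => G (((3 / 5 : ℝ) : ℂ) + v * I) /
      (((3 / 5 : ℝ) : ℂ) + v * I)) := by
    have h1 : Integrable (fun v : ℝ => (5 / 3 * K) * Real.exp (-(1 / 2) * v ^ 2)) :=
      (integrable_exp_neg_mul_sq (by norm_num)).const_mul _
    refine h1.mono' hcont.aestronglyMeasurable (Eventually.of_forall fun v => ?_)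
    rw [norm_div]
    have h2 := hK (3 / 5) v (by norm_num) le_rfl
    have h3 : 3 / 5 ≤ ‖((3 / 5 : ℝ) : ℂ) + v * I‖ := by
      have := Complex.abs_re_le_norm (((3 / 5 : ℝ) : ℂ) + v * I)
      simp at this
      rw [abs_of_pos (by norm_num)] at this
      simpa using this
    have h4 : (0 : ℝ) < ‖((3 / 5 : ℝ) : ℂ) + v * I‖ := by linarith
    rw [div_le_iff₀ h4]
    have h5 : -(v ^ 2 / 2) = -(1 / 2) * v ^ 2 := by ring
    rw [h5] at h2
    have h6 : 0 ≤ K * Real.exp (-(1 / 2) * v ^ 2) := mul_nonneg hK0 (Real.exp_pos _).le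
    calc _ ≤ K * Real.exp (-(1 / 2) * v ^ 2) := h2
      _ = (5 / 3 * K) * Real.exp (-(1 / 2) * v ^ 2) * (3 / 5) := by ring
      _ ≤ _ := mul_le_mul_of_nonneg_left h3 (by positivity)
  -- the entire function
  set H : ℂ → ℂ := dslope G 0 with hH
  have hHd : Differentiable ℂ H := by
    rw [← differentiableOn_univ]
    exact (Complex.differentiableOn_dslope univ_mem).2 hG.differentiableOn
  have hHne : ∀ w : ℂ, w ≠ 0 → H w = (G w - G 0) / w := by
    intro w hw
    rw [hH, dslope_of_ne _ hw, slope_def_field, sub_zero]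
  have hHodd : ∀ w : ℂ, H (-w) = -H w := by
    intro w
    by_cases hw : w = 0
    · subst hw
      have h1 : deriv G 0 = -deriv G 0 := by
        have h2 : deriv (fun w => G (-w)) 0 = -deriv G (-0) := deriv_comp_neg G 0
        rw [neg_zero] at h2
        have h3 : (fun w => G (-w)) = G := funext hev
        rw [h3] at h2
        exact h2
      rw [neg_zero, hH, dslope_same]
      exact h1
    · rw [hHne w hw, hHne (-w) (neg_ne_zero.2 hw), hev, div_neg]
  have hHbound : ∀ (x v : ℝ), 0 ≤ x → x ≤ 3 / 5 → v ≠ 0 →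
      ‖H ((x : ℂ) + v * I)‖ ≤ 2 * K / |v| := by
    intro x v hx0 hx1 hv
    have h1 : |v| ≤ ‖(x : ℂ) + v * I‖ := by
      have := Complex.abs_im_le_norm ((x : ℂ) + v * I)
      simpa using this
    have h2 : (0 : ℝ) < |v| := abs_pos.2 hv
    have h3 : (x : ℂ) + v * I ≠ 0 := by
      intro h
      rw [h, norm_zero] at h1
      linarith
    rw [hHne _ h3, norm_div]
    have h4 : ‖G ((x : ℂ) + v * I)‖ ≤ K := by
      refine (hK x v hx0 hx1).trans ?_
      have : Real.exp (-(v ^ 2 / 2)) ≤ 1 := Real.exp_le_one_iff.2 (by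
        have := sq_nonneg v
        linarith)
      nlinarith
    have h5 : ‖G 0‖ ≤ K := by
      have := hK 0 0 le_rfl (by norm_num)
      simpa using this
    have h6 : ‖G ((x : ℂ) + v * I) - G 0‖ ≤ 2 * K := (norm_sub_le _ _).trans (by linarith)
    exact div_le_div₀ (by positivity) h6 h2 h1
  -- the rectangle
  have hrect : ∀ R : ℝ, 0 < R →
      ‖∫ y in (-R)..R, H (((3 / 5 : ℝ) : ℂ) + y * I)‖ ≤ 4 * K / R := by
    intro R hR
    have h1 := Complex.integral_boundary_rect_eq_zero_of_differentiableOn H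
      (((0 : ℝ) : ℂ) + (-R : ℝ) * I) (((3 / 5 : ℝ) : ℂ) + (R : ℝ) * I) hHd.differentiableOn
    have e1 : (((0 : ℝ) : ℂ) + (-R : ℝ) * I).re = 0 := by simp
    have e2 : (((0 : ℝ) : ℂ) + (-R : ℝ) * I).im = -R := by simp
    have e3 : (((3 / 5 : ℝ) : ℂ) + (R : ℝ) * I).re = 3 / 5 := by simp
    have e4 : (((3 / 5 : ℝ) : ℂ) + (R : ℝ) * I).im = R := by simp
    rw [e1, e2, e3, e4] at h1
    have h2 : ∫ y in (-R)..R, H (((0 : ℝ) : ℂ) + y * I) = 0 := by
      have h3 := intervalIntegral.integral_comp_neg (a := -R) (b := R)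
        (fun y : ℝ => H (((0 : ℝ) : ℂ) + y * I))
      rw [neg_neg] at h3
      have h4 : ∀ y : ℝ, H (((0 : ℝ) : ℂ) + ((-y : ℝ) : ℂ) * I) = -H (((0 : ℝ) : ℂ) + y * I) := by
        intro y
        rw [← hHodd]
        congr 1
        push_cast
        ring
      simp only [h4] at h3
      rw [intervalIntegral.integral_neg] at h3
      exact CharZero.eq_neg_self_iff.1 h3.symm
    rw [h2, smul_zero, sub_zero] at h1
    have h5 : ∀ s : ℝ, s ≠ 0 → ‖∫ x in (0 : ℝ)..(3 / 5), H ((x : ℂ) + (s : ℝ) * I)‖ ≤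
        2 * K / |s| := by
      intro s hs
      have h6 := intervalIntegral.norm_integral_le_of_norm_le_const (a := (0 : ℝ)) (b := 3 / 5)
        (C := 2 * K / |s|) (f := fun x : ℝ => H ((x : ℂ) + (s : ℝ) * I)) (by
          intro x hx
          rw [Set.uIoc_of_le (by norm_num)] at hx
          exact hHbound x s hx.1.le hx.2 hs)
      refine h6.trans ?_
      rw [sub_zero, abs_of_pos (by norm_num : (0 : ℝ) < 3 / 5)]
      have : 0 ≤ 2 * K / |s| := by positivity
      linarith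
    have h6 := h5 R hR.ne'
    have h7 := h5 (-R) (neg_ne_zero.2 hR.ne')
    rw [abs_neg, abs_of_pos hR] at h7
    rw [abs_of_pos hR] at h6
    have h8 : I • ∫ y in (-R)..R, H (((3 / 5 : ℝ) : ℂ) + y * I) =
        (∫ x in (0 : ℝ)..(3 / 5), H ((x : ℂ) + (R : ℝ) * I)) -
          ∫ x in (0 : ℝ)..(3 / 5), H ((x : ℂ) + ((-R : ℝ) : ℂ) * I) := by
      linear_combination h1
    have h9 : ‖∫ y in (-R)..R, H (((3 / 5 : ℝ) : ℂ) + y * I)‖ =
        ‖I • ∫ y in (-R)..R, H (((3 / 5 : ℝ) : ℂ) + y * I)‖ := by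
      rw [norm_smul, Complex.norm_I, one_mul]
    rw [h9, h8]
    refine (norm_sub_le _ _).trans ?_
    have : 4 * K / R = 2 * K / R + 2 * K / R := by ring
    rw [this]
    exact add_le_add h6 h7
  -- limits
  have hlim1 : Tendsto (fun R : ℝ => ∫ y in (-R)..R, H (((3 / 5 : ℝ) : ℂ) + y * I)) atTop
      (𝓝 0) := by
    rw [tendsto_zero_iff_norm_tendsto_zero]
    have h1 : Tendsto (fun R : ℝ => 4 * K / R) atTop (𝓝 0) :=
      tendsto_const_nhds.div_atTop tendsto_id
    refine squeeze_zero' (Eventually.of_forall fun _ => norm_nonneg _) ?_ h1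
    filter_upwards [eventually_gt_atTop 0] with R hR
    exact hrect R hR
  have hlim2 : Tendsto (fun R : ℝ => G 0 * ((2 * Real.arctan (5 / 3 * R) : ℝ) : ℂ)) atTop
      (𝓝 (G 0 * (Real.pi : ℂ))) := by
    apply Tendsto.const_mul
    have h1 : Tendsto (fun R : ℝ => 2 * Real.arctan (5 / 3 * R)) atTop (𝓝 Real.pi) := by
      have h2 : Tendsto (fun R : ℝ => 5 / 3 * R) atTop atTop :=
        tendsto_id.const_mul_atTop (by norm_num)
      have h3 := (Real.tendsto_arctan_atTop.mono_right nhdsWithin_le_nhds).comp h2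
      have h4 := h3.const_mul 2
      rw [show 2 * (Real.pi / 2) = Real.pi by ring] at h4
      exact h4
    exact (Complex.continuous_ofReal.tendsto _).comp h1
  have hlim3 : Tendsto (fun R : ℝ => ∫ y in (-R)..R, G (((3 / 5 : ℝ) : ℂ) + y * I) /
      (((3 / 5 : ℝ) : ℂ) + y * I)) atTop
      (𝓝 (∫ v : ℝ, G (((3 / 5 : ℝ) : ℂ) + v * I) / (((3 / 5 : ℝ) : ℂ) + v * I))) :=
    intervalIntegral_tendsto_integral hint tendsto_neg_atTop_atBot tendsto_id
  have heq : ∀ R : ℝ, ∫ y in (-R)..R, G (((3 / 5 : ℝ) : ℂ) + y * I) /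
      (((3 / 5 : ℝ) : ℂ) + y * I) = (∫ y in (-R)..R, H (((3 / 5 : ℝ) : ℂ) + y * I)) +
        G 0 * ((2 * Real.arctan (5 / 3 * R) : ℝ) : ℂ) := by
    intro R
    rw [← EX_arctan, ← intervalIntegral.integral_const_mul, ← intervalIntegral.integral_add]
    · apply intervalIntegral.integral_congr
      intro y _
      simp only
      rw [hHne _ (hne y)]
      have := hne y
      field_simp
      ring
    · exact (hHd.continuous.comp (by fun_prop)).intervalIntegrable _ _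
    · refine Continuous.intervalIntegrable ?_ _ _
      exact continuous_const.mul (continuous_const.div (by fun_prop) hne)
  have hlim4 := hlim1.add hlim2
  rw [zero_add] at hlim4
  have hlim5 := hlim4.congr (fun R => (heq R).symm)
  have := tendsto_nhds_unique hlim3 hlim5
  rw [this, mul_comm]

/-- polynomial times Gaussian -/
theorem EX_gauss (B v : ℝ) (hB : 0 ≤ B) :
    (B + |v|) ^ 10 * Real.exp (1 - v ^ 2) ≤
      ((Nat.factorial 10 : ℕ) : ℝ) * Real.exp (B + 3 / 2) * Real.exp (-(v ^ 2 / 2)) := by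
  have h0 : 0 ≤ B + |v| := add_nonneg hB (abs_nonneg v)
  have h1 := Real.pow_div_factorial_le_exp (B + |v|) h0 10
  have hf : (0 : ℝ) < ((Nat.factorial 10 : ℕ) : ℝ) := by exact_mod_cast Nat.factorial_pos 10
  rw [div_le_iff₀ hf] at h1
  have h2 : |v| ≤ 1 / 2 + v ^ 2 / 2 := by
    have := sq_nonneg (|v| - 1)
    have h3 : |v| ^ 2 = v ^ 2 := sq_abs v
    nlinarith
  calc (B + |v|) ^ 10 * Real.exp (1 - v ^ 2)
      ≤ (Real.exp (B + |v|) * ((Nat.factorial 10 : ℕ) : ℝ)) * Real.exp (1 - v ^ 2) :=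
        mul_le_mul_of_nonneg_right h1 (Real.exp_pos _).le
    _ = ((Nat.factorial 10 : ℕ) : ℝ) * Real.exp (B + |v| + (1 - v ^ 2)) := by
        rw [Real.exp_add (B + |v|)]
        ring
    _ ≤ ((Nat.factorial 10 : ℕ) : ℝ) * Real.exp (B + 3 / 2 + -(v ^ 2 / 2)) := by
        apply mul_le_mul_of_nonneg_left _ hf.le
        apply Real.exp_le_exp.2
        linarith
    _ = _ := by
        rw [Real.exp_add (B + 3 / 2)]
        ring

theorem EX (hXI : S_XI) : S_EX := by
  obtain ⟨hd, hsym, hval, C, hC, hbd⟩ := hXI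
  intro t
  obtain ⟨a, ha⟩ : ∃ a : ℂ, a = 1 / 2 + t * I := ⟨_, rfl⟩
  obtain ⟨b, hb⟩ : ∃ b : ℂ, b = 1 / 2 - t * I := ⟨_, rfl⟩
  have hare : a.re = 1 / 2 := by rw [ha]; simp
  have hbre : b.re = 1 / 2 := by rw [hb]; simp
  have hab : 1 - a = b := by rw [ha, hb]; ring
  have hba : 1 - b = a := by rw [ha, hb]; ring
  have hmul : a * b = 1 / 4 + (t : ℂ) ^ 2 := by
    rw [ha, hb]
    have hI : I * I = -1 := Complex.I_mul_I
    linear_combination (-(t : ℂ) ^ 2) * hI
  have hconj : b = (starRingEnd ℂ) a := by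
    rw [ha, hb]
    simp [Complex.ext_iff]
  have hzb : riemannZeta b = (starRingEnd ℂ) (riemannZeta a) := by
    rw [hconj, riemannZeta_conj]
  have hz : ((‖zc t‖ ^ 2 : ℝ) : ℂ) = riemannZeta a * riemannZeta b := by
    have : zc t = riemannZeta a := by rw [ha]; rfl
    rw [this, hzb, Complex.mul_conj']
    push_cast
    ring
  have hne1 : ∀ s : ℂ, s.re ≠ 1 → s ≠ 1 := by
    rintro s h rfl
    simp at h
  -- the even entire function
  set G : ℂ → ℂ := fun w => xiF (a + w) * xiF (b + w) * Complex.exp (w ^ 2) with hGdef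
  have hG : Differentiable ℂ G := by
    refine ((hd.comp (by fun_prop)).mul (hd.comp (by fun_prop))).mul ?_
    fun_prop
  have hev : ∀ w, G (-w) = G w := by
    intro w
    simp only [hGdef]
    have e1 : xiF (a + -w) = xiF (b + w) := by
      rw [← hsym (a + -w)]
      congr 1
      rw [← hab]
      ring
    have e2 : xiF (b + -w) = xiF (a + w) := by
      rw [← hsym (b + -w)]
      congr 1
      rw [← hba]
      ring
    rw [e1, e2, neg_sq]
    ring
  have hK : ∀ x v : ℝ, 0 ≤ x → x ≤ 3 / 5 → ‖G ((x : ℂ) + v * I)‖ ≤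
      (C * C * (((Nat.factorial 10 : ℕ) : ℝ) * Real.exp (2 + ‖a‖ + ‖b‖ + 3 / 2))) *
        Real.exp (-(v ^ 2 / 2)) := by
    intro x v hx0 hx1
    have hw : ‖(x : ℂ) + v * I‖ ≤ 1 + |v| := by
      refine (norm_add_le _ _).trans ?_
      rw [norm_mul, Complex.norm_I, mul_one, Complex.norm_real, Complex.norm_real,
        Real.norm_eq_abs, Real.norm_eq_abs, abs_of_nonneg hx0]
      linarith
    have hwre : ((x : ℂ) + v * I).re = x := by simp
    have h0 : 0 ≤ 2 + ‖a‖ + ‖b‖ := by positivity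
    have key : ∀ c : ℂ, c.re = 1 / 2 → ‖c‖ ≤ ‖a‖ + ‖b‖ →
        ‖xiF (c + ((x : ℂ) + v * I))‖ ≤ C * (2 + ‖a‖ + ‖b‖ + |v|) ^ 5 := by
      intro c hc hcn
      refine (hbd _ (by
        rw [Complex.add_re, hwre, hc]
        rw [abs_le]
        constructor <;> linarith)).trans ?_
      apply mul_le_mul_of_nonneg_left _ hC.le
      apply pow_le_pow_left₀ (by positivity)
      have := norm_add_le c ((x : ℂ) + v * I)
      linarith
    have h1 := key a hare (by linarith [norm_nonneg b])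
    have h2 := key b hbre (by linarith [norm_nonneg a])
    have h3 : ‖Complex.exp (((x : ℂ) + v * I) ^ 2)‖ ≤ Real.exp (1 - v ^ 2) := by
      rw [Complex.norm_exp]
      apply Real.exp_le_exp.2
      have : (((x : ℂ) + v * I) ^ 2).re = x ^ 2 - v ^ 2 := by
        rw [sq, Complex.mul_re]
        simp
        ring
      rw [this]
      nlinarith
    simp only [hGdef]
    rw [norm_mul, norm_mul]
    calc ‖xiF (a + ((x : ℂ) + v * I))‖ * ‖xiF (b + ((x : ℂ) + v * I))‖ *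
          ‖Complex.exp (((x : ℂ) + v * I) ^ 2)‖
        ≤ (C * (2 + ‖a‖ + ‖b‖ + |v|) ^ 5) * (C * (2 + ‖a‖ + ‖b‖ + |v|) ^ 5) *
          Real.exp (1 - v ^ 2) := by
          apply mul_le_mul _ h3 (norm_nonneg _) (by positivity)
          exact mul_le_mul h1 h2 (norm_nonneg _) (by positivity)
      _ = C * C * ((2 + ‖a‖ + ‖b‖ + |v|) ^ 10 * Real.exp (1 - v ^ 2)) := by ring
      _ ≤ C * C * (((Nat.factorial 10 : ℕ) : ℝ) * Real.exp (2 + ‖a‖ + ‖b‖ + 3 / 2) *
          Real.exp (-(v ^ 2 / 2))) :=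
          mul_le_mul_of_nonneg_left (EX_gauss _ v h0) (by positivity)
      _ = _ := by ring
  have hmain := EX_shift G hG hev _ hK
  have hGa : Gammaℝ a ≠ 0 := Gammaℝ_ne_zero_of_re_pos (by rw [hare]; norm_num)
  have hGb : Gammaℝ b ≠ 0 := Gammaℝ_ne_zero_of_re_pos (by rw [hbre]; norm_num)
  have hP : (1 / 4 + (t : ℂ) ^ 2) ≠ 0 := by
    have h1 : (0 : ℝ) < 1 / 4 + t ^ 2 := by positivity
    have h2 : ((1 / 4 + t ^ 2 : ℝ) : ℂ) ≠ 0 := Complex.ofReal_ne_zero.2 h1.ne'
    push_cast at h2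
    exact h2
  have hG0 : G 0 = (1 / 4 + (t : ℂ) ^ 2) ^ 2 * (Gammaℝ a * Gammaℝ b) *
      (riemannZeta a * riemannZeta b) := by
    simp only [hGdef]
    rw [add_zero, add_zero, hval a (by rw [hare]; norm_num) (hne1 a (by rw [hare]; norm_num)),
      hval b (by rw [hbre]; norm_num) (hne1 b (by rw [hbre]; norm_num)), hab, hba]
    simp only [ne_eq, OfNat.ofNat_ne_zero, not_false_eq_true, zero_pow, Complex.exp_zero, mul_one]
    rw [← hmul]
    ring
  have hint : ∀ v : ℝ, Qt t (((3 / 5 : ℝ) : ℂ) + v * I) *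
    (riemannZeta (1 / 2 + t * I + (((3 / 5 : ℝ) : ℂ) + v * I)) *
      riemannZeta (1 / 2 - t * I + (((3 / 5 : ℝ) : ℂ) + v * I))) * ew (3 / 5) v =
      (G (((3 / 5 : ℝ) : ℂ) + v * I) / (((3 / 5 : ℝ) : ℂ) + v * I)) *
        ((1 / 4 + (t : ℂ) ^ 2) ^ 2 * (Gammaℝ a * Gammaℝ b))⁻¹ := by
    intro v
    unfold Qt ew
    rw [← ha, ← hb]
    obtain ⟨w, hw⟩ : ∃ w : ℂ, w = ((3 / 5 : ℝ) : ℂ) + v * I := ⟨_, rfl⟩
    rw [← hw]
    have hwre : w.re = 3 / 5 := by rw [hw]; simp
    simp only [hGdef]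
    rw [hval (a + w) (by rw [Complex.add_re, hare, hwre]; norm_num)
        (hne1 _ (by rw [Complex.add_re, hare, hwre]; norm_num)),
      hval (b + w) (by rw [Complex.add_re, hbre, hwre]; norm_num)
        (hne1 _ (by rw [Complex.add_re, hbre, hwre]; norm_num))]
    have e1 : 1 - (a + w) = b - w := by rw [← hab]; ring
    have e2 : 1 - (b + w) = a - w := by rw [← hba]; ring
    rw [e1, e2]
    rw [mul_inv, mul_inv, div_eq_mul_inv, div_eq_mul_inv, div_eq_mul_inv, div_eq_mul_inv, mul_inv]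
    ring
  rw [hz]
  simp only [hint]
  rw [integral_mul_const, hmain, hG0]
  have hpi : (Real.pi : ℂ) ≠ 0 := Complex.ofReal_ne_zero.2 Real.pi_ne_zero
  have hD : (1 / 4 + (t : ℂ) ^ 2) ^ 2 * (Gammaℝ a * Gammaℝ b) ≠ 0 :=
    mul_ne_zero (pow_ne_zero 2 hP) (mul_ne_zero hGa hGb)
  generalize (1 / 4 + (t : ℂ) ^ 2) ^ 2 * (Gammaℝ a * Gammaℝ b) = D at hD ⊢
  field_simp

end

end Pool.Agent.H408R2.CM
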