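import Pool.Agent.H408R2.CM.Stubs
import Pool.Agent.H401R2.Stir

set_option autoImplicit false

open Complex MeasureTheory Filter Topology

namespace Pool.Agent.H408R2.CM

open Pool.Agent.H304R4.CM Pool.Agent.H401R2

theorem GB_arg {z : ℂ} (hx : 0 < z.re) (hy : 0 < z.im) :
    0 ≤ z.im * (Real.pi / 2 - arg z) ∧ z.im * (Real.pi / 2 - arg z) ≤ z.re := by
  have hz : z ≠ 0 := fun h => by rw [h] at hx; simp at hx
  have hn : 0 < ‖z‖ := norm_pos_iff.2 hz
  have h1 : |arg z| ≤ Real.pi / 2 := abs_arg_le_pi_div_two_iff.2 hx.le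
  have h2 : 0 ≤ arg z := arg_nonneg_iff.2 hy.le
  have hsin : Real.sin (arg z) = z.im / ‖z‖ := sin_arg z
  have hcos : Real.cos (arg z) = z.re / ‖z‖ := cos_arg hz
  have h3 : 0 < arg z := by
    rcases h2.eq_or_lt with h | h
    · rw [← h, Real.sin_zero] at hsin
      have : 0 < z.im / ‖z‖ := div_pos hy hn
      linarith
    · exact h
  have h4 : 0 ≤ Real.pi / 2 - arg z := by
    have := (abs_le.1 h1).2
    linarith
  refine ⟨mul_nonneg hy.le h4, ?_⟩
  have h5 : Real.pi / 2 - arg z ≤ Real.tan (Real.pi / 2 - arg z) :=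
    Real.le_tan h4 (by linarith)
  rw [Real.tan_eq_sin_div_cos, Real.sin_pi_div_two_sub, Real.cos_pi_div_two_sub, hsin, hcos,
    div_div_div_cancel_right₀ hn.ne'] at h5
  calc z.im * (Real.pi / 2 - arg z) ≤ z.im * (z.re / z.im) := mul_le_mul_of_nonneg_left h5 hy.le
    _ = z.re := by field_simp

theorem GB_re {z : ℂ} : ((z - 1 / 2) * log z - z).re =
    (z.re - 1 / 2) * Real.log ‖z‖ - z.im * arg z - z.re := by
  have h1 : (z - 1 / 2).re = z.re - 1 / 2 := by simp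
  have h2 : (z - 1 / 2).im = z.im := by simp
  rw [sub_re, mul_re, log_re, log_im, h1, h2]

theorem GB_key {z : ℂ} (hx : 0 < z.re) (hy : 1 ≤ z.im) :
    ‖Complex.Gamma z‖ ≤ 4 * ‖z‖ ^ (z.re - 1 / 2) * Real.exp (-(Real.pi * z.im / 2)) ∧
    (z.re ≤ 1 → ‖z‖ ^ (z.re - 1 / 2) * Real.exp (-(Real.pi * z.im / 2)) ≤
      4 * ‖Complex.Gamma z‖) := by
  have hz : z ≠ 0 := fun h => by rw [h] at hx; simp at hx
  have hn : 0 < ‖z‖ := norm_pos_iff.2 hz
  have hpi := Real.pi_pos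
  have hpi3 := Real.pi_gt_three
  have hpi4 := Real.pi_lt_d2
  have hs2 : (2 : ℝ) ≤ √(2 * Real.pi) := by
    apply Real.le_sqrt_of_sq_le; nlinarith
  have hs3 : √(2 * Real.pi) ≤ 8 / 3 := by
    rw [Real.sqrt_le_left (by norm_num)]; nlinarith
  have hs0 : 0 < √(2 * Real.pi) := by positivity
  -- Stirling
  have hst := stirling hx hy
  have hst2 : Real.pi / (8 * z.im) ≤ 1 / 2 := by
    rw [div_le_iff₀ (by positivity)]; nlinarith
  have hq : ‖sA z / ((√(2 * Real.pi) : ℝ) : ℂ)‖ = ‖sA z‖ / √(2 * Real.pi) := by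
    rw [norm_div, Complex.norm_real, Real.norm_of_nonneg hs0.le]
  have hup : ‖sA z‖ ≤ 3 / 2 * √(2 * Real.pi) := by
    have h1 : ‖sA z / ((√(2 * Real.pi) : ℝ) : ℂ)‖ ≤ 3 / 2 := by
      have h2 : ‖sA z / ((√(2 * Real.pi) : ℝ) : ℂ)‖ ≤
          ‖sA z / ((√(2 * Real.pi) : ℝ) : ℂ) - 1‖ + ‖(1 : ℂ)‖ := by
        have := norm_add_le (sA z / ((√(2 * Real.pi) : ℝ) : ℂ) - 1) 1
        rwa [sub_add_cancel] at this
      rw [norm_one] at h2
      linarith
    rw [hq, div_le_iff₀ hs0] at h1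
    exact h1
  have hlo : 1 / 2 * √(2 * Real.pi) ≤ ‖sA z‖ := by
    have h1 : 1 / 2 ≤ ‖sA z / ((√(2 * Real.pi) : ℝ) : ℂ)‖ := by
      have h2 : ‖(1 : ℂ)‖ ≤ ‖sA z / ((√(2 * Real.pi) : ℝ) : ℂ)‖ +
          ‖sA z / ((√(2 * Real.pi) : ℝ) : ℂ) - 1‖ := by
        have := norm_sub_le (sA z / ((√(2 * Real.pi) : ℝ) : ℂ))
          (sA z / ((√(2 * Real.pi) : ℝ) : ℂ) - 1)
        rwa [sub_sub_cancel] at this
      rw [norm_one] at h2
      linarith
    rw [hq, le_div_iff₀ hs0] at h1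
    exact h1
  have hG : ‖Complex.Gamma z‖ = ‖sA z‖ * Real.exp (((z - 1 / 2) * log z - z).re) := by
    unfold sA
    rw [norm_mul, norm_exp, mul_assoc, ← Real.exp_add, neg_re, neg_add_cancel, Real.exp_zero,
      mul_one]
  obtain ⟨ha, hb⟩ := GB_arg hx (by linarith)
  have hE : ‖z‖ ^ (z.re - 1 / 2) * Real.exp (-(Real.pi * z.im / 2)) =
      Real.exp ((z.re - 1 / 2) * Real.log ‖z‖ - Real.pi * z.im / 2) := by
    rw [Real.rpow_def_of_pos hn, ← Real.exp_add]
    congr 1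
    ring
  rw [GB_re] at hG
  constructor
  · have h1 : Real.exp ((z.re - 1 / 2) * Real.log ‖z‖ - z.im * arg z - z.re) ≤
        ‖z‖ ^ (z.re - 1 / 2) * Real.exp (-(Real.pi * z.im / 2)) := by
      rw [hE]
      apply Real.exp_le_exp.2
      nlinarith
    rw [hG, mul_assoc]
    apply mul_le_mul _ h1 (Real.exp_pos _).le (by norm_num)
    linarith
  · intro hx1
    have h1 : ‖z‖ ^ (z.re - 1 / 2) * Real.exp (-(Real.pi * z.im / 2)) ≤
        Real.exp 1 * Real.exp ((z.re - 1 / 2) * Real.log ‖z‖ - z.im * arg z - z.re) := by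
      rw [hE, ← Real.exp_add]
      apply Real.exp_le_exp.2
      nlinarith
    have he : Real.exp 1 ≤ 4 := by
      have := Real.exp_one_lt_d9
      linarith
    rw [hG]
    refine h1.trans ?_
    have h2 : Real.exp 1 ≤ 4 * ‖sA z‖ := by linarith
    calc Real.exp 1 * Real.exp ((z.re - 1 / 2) * Real.log ‖z‖ - z.im * arg z - z.re)
        ≤ (4 * ‖sA z‖) * Real.exp ((z.re - 1 / 2) * Real.log ‖z‖ - z.im * arg z - z.re) :=
          mul_le_mul_of_nonneg_right h2 (Real.exp_pos _).le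
      _ = _ := by ring

theorem GB : S_GB := by
  refine ⟨4, by norm_num, ?_, ?_⟩
  · intro z hx hy
    rcases le_or_gt 0 z.im with h | h
    · rw [abs_of_nonneg h] at hy ⊢
      exact (GB_key hx hy).1
    · rw [abs_of_neg h] at hy ⊢
      have h1 := (GB_key (z := (starRingEnd ℂ) z) (by rw [conj_re]; exact hx)
        (by rw [conj_im]; exact hy)).1
      rw [Complex.Gamma_conj, RCLike.norm_conj, RCLike.norm_conj, conj_re, conj_im] at h1
      exact h1
  · intro z hx hx1 hy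
    rcases le_or_gt 0 z.im with h | h
    · rw [abs_of_nonneg h] at hy ⊢
      exact (GB_key hx hy).2 hx1
    · rw [abs_of_neg h] at hy ⊢
      have h1 := (GB_key (z := (starRingEnd ℂ) z) (by rw [conj_re]; exact hx)
        (by rw [conj_im]; exact hy)).2 (by rw [conj_re]; exact hx1)
      rw [Complex.Gamma_conj, RCLike.norm_conj, RCLike.norm_conj, conj_re, conj_im] at h1
      exact h1

end Pool.Agent.H408R2.CM
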