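import Pool.Agent.H408R2.CM.Stubs

set_option autoImplicit false

/-! # GI: integrals of the Gamma function on vertical lines -/

open Complex MeasureTheory Filter Topology

namespace Pool.Agent.H408R2.CM

open Pool.Agent.H304R4.CM

theorem GI_norm {σ : ℝ} (hσ : 0 < σ) (τ : ℝ) :
    ‖Complex.Gamma ((σ : ℂ) + τ * I)‖ ≤ Real.Gamma σ := by
  have hs : 0 < ((σ : ℂ) + τ * I).re := by simpa using hσ
  rw [Complex.Gamma_eq_integral hs, Real.Gamma_eq_integral hσ]
  unfold Complex.GammaIntegral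
  refine (norm_integral_le_integral_norm _).trans (le_of_eq ?_)
  refine setIntegral_congr_fun measurableSet_Ioi fun x hx => ?_
  have hx0 : 0 < x := hx
  show ‖((Real.exp (-x) : ℝ) : ℂ) * (x : ℂ) ^ ((σ : ℂ) + τ * I - 1)‖ = Real.exp (-x) * x ^ (σ - 1)
  rw [norm_mul, Complex.norm_real, Real.norm_of_nonneg (Real.exp_pos _).le,
    Complex.norm_cpow_eq_rpow_re_of_pos hx0]
  simp

theorem GI_cprod (s : ℂ) (hs : 0 < s.re) (n : ℕ) :
    Complex.Gamma (s + n) = Complex.Gamma s * ∏ j ∈ Finset.range n, (s + j) := by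
  induction n with
  | zero => simp
  | succ n ih =>
    have h0 : s + n ≠ 0 := by
      intro h
      have := congrArg Complex.re h
      simp at this
      have : (0:ℝ) ≤ n := Nat.cast_nonneg n
      linarith
    rw [Finset.prod_range_succ, ← mul_assoc, ← ih]
    push_cast
    rw [← add_assoc, Complex.Gamma_add_one _ h0]
    ring

theorem GI_rprod (s : ℝ) (hs : 0 < s) (n : ℕ) :
    Real.Gamma (s + n) = Real.Gamma s * ∏ j ∈ Finset.range n, (s + j) := by
  induction n with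
  | zero => simp
  | succ n ih =>
    have h0 : s + n ≠ 0 := by positivity
    rw [Finset.prod_range_succ, ← mul_assoc, ← ih]
    push_cast
    rw [← add_assoc, Real.Gamma_add_one h0]
    ring

theorem GI_bound {σ : ℝ} (hσ : 1 ≤ σ) (τ : ℝ) :
    ‖Complex.Gamma ((σ : ℂ) + τ * I)‖ * (1 + (τ / (14 * σ)) ^ 2) ^ 7 ≤ Real.Gamma σ := by
  have hσ0 : 0 < σ := by linarith
  set s : ℂ := (σ : ℂ) + τ * I with hs
  have hsre : s.re = σ := by simp [hs]
  have hsim : s.im = τ := by simp [hs]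
  set q : ℝ := Real.sqrt (1 + (τ / (14 * σ)) ^ 2) with hq
  have hq2 : q ^ 2 = 1 + (τ / (14 * σ)) ^ 2 := Real.sq_sqrt (by positivity)
  have hq0 : 0 < q := Real.sqrt_pos.2 (by positivity)
  have h1 := GI_cprod s (by rw [hsre]; exact hσ0) 14
  have h2 := GI_rprod σ hσ0 14
  have h3 : ‖Complex.Gamma (s + (14 : ℕ))‖ ≤ Real.Gamma (σ + (14 : ℕ)) := by
    have h4 := GI_norm (σ := σ + (14 : ℕ)) (by positivity) τ
    have e : (((σ + (14 : ℕ) : ℝ) : ℂ) + τ * I) = s + (14 : ℕ) := by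
      rw [hs]; push_cast; ring
    rw [e] at h4
    exact h4
  rw [h1, h2, norm_mul, norm_prod] at h3
  have h5 : ∏ j ∈ Finset.range 14, ((σ + j) * q) ≤ ∏ j ∈ Finset.range 14, ‖s + (j : ℂ)‖ := by
    refine Finset.prod_le_prod (fun j _ => by positivity) fun j hj => ?_
    have hj' : (j : ℝ) ≤ 13 := by
      rw [Finset.mem_range] at hj
      exact_mod_cast Nat.lt_succ_iff.1 hj
    have h6 : ‖s + (j : ℂ)‖ ^ 2 = (σ + j) ^ 2 + τ ^ 2 := by
      rw [← Complex.normSq_eq_norm_sq, Complex.normSq_apply]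
      simp [hsre, hsim]
      ring
    have h7 : ((σ + j) * q) ^ 2 ≤ ‖s + (j : ℂ)‖ ^ 2 := by
      rw [h6, mul_pow, hq2]
      have h8 : (σ + j) ≤ 14 * σ := by linarith
      have h9 : (σ + j) ^ 2 * (τ / (14 * σ)) ^ 2 ≤ τ ^ 2 := by
        rw [div_pow, mul_div_assoc', div_le_iff₀ (by positivity)]
        have h10 : (σ + j) ^ 2 ≤ (14 * σ) ^ 2 := pow_le_pow_left₀ (by positivity) h8 2
        nlinarith [sq_nonneg τ]
      nlinarith
    exact le_of_sq_le_sq h7 (norm_nonneg _)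
  rw [Finset.prod_mul_distrib, Finset.prod_const, Finset.card_range] at h5
  have hP : 0 < ∏ j ∈ Finset.range 14, (σ + (j : ℝ)) :=
    Finset.prod_pos fun j _ => by positivity
  have h11 : q ^ 14 = (1 + (τ / (14 * σ)) ^ 2) ^ 7 := by
    rw [← hq2]; ring
  rw [← h11]
  have h12 : ‖Complex.Gamma s‖ * q ^ 14 * (∏ j ∈ Finset.range 14, (σ + (j : ℝ))) ≤
      Real.Gamma σ * ∏ j ∈ Finset.range 14, (σ + (j : ℝ)) := by
    refine le_trans ?_ h3
    have := mul_le_mul_of_nonneg_left h5 (norm_nonneg (Complex.Gamma s))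
    linarith
  exact le_of_mul_le_mul_right h12 hP

theorem GI_pt {σ : ℝ} (hσ : 1 ≤ σ) (τ : ℝ) :
    ‖Complex.Gamma ((σ : ℂ) + τ * I)‖ * (1 + |τ|) ^ 12 ≤
      64 * (14 * σ) ^ 12 * Real.Gamma σ * (1 + (τ / (14 * σ)) ^ 2)⁻¹ := by
  have h1 := GI_bound hσ τ
  set u : ℝ := τ / (14 * σ) with hu
  have ha : 1 ≤ 14 * σ := by linarith
  have ha0 : 0 < 14 * σ := by linarith
  have hτ : |τ| = 14 * σ * |u| := by
    rw [hu, abs_div, abs_of_pos ha0]
    field_simp
  have hu2 : |u| ^ 2 = u ^ 2 := sq_abs u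
  have h2 : (1 + |τ|) ^ 12 ≤ (14 * σ) ^ 12 * (64 * (1 + u ^ 2) ^ 6) := by
    have h3 : 1 + |τ| ≤ 14 * σ * (1 + |u|) := by
      rw [hτ]
      nlinarith [abs_nonneg u]
    have h4 : (1 + |u|) ^ 2 ≤ 2 * (1 + u ^ 2) := by
      rw [← hu2]
      nlinarith [sq_nonneg (1 - |u|)]
    calc (1 + |τ|) ^ 12 ≤ (14 * σ * (1 + |u|)) ^ 12 := pow_le_pow_left₀ (by positivity) h3 12
      _ = (14 * σ) ^ 12 * ((1 + |u|) ^ 2) ^ 6 := by ring
      _ ≤ (14 * σ) ^ 12 * (2 * (1 + u ^ 2)) ^ 6 := by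
          apply mul_le_mul_of_nonneg_left _ (by positivity)
          exact pow_le_pow_left₀ (by positivity) h4 6
      _ = (14 * σ) ^ 12 * (64 * (1 + u ^ 2) ^ 6) := by ring
  have h5 : 0 < 1 + u ^ 2 := by positivity
  have h6 : ‖Complex.Gamma ((σ : ℂ) + τ * I)‖ * (1 + |τ|) ^ 12 * (1 + u ^ 2) ≤
      64 * (14 * σ) ^ 12 * Real.Gamma σ := by
    calc ‖Complex.Gamma ((σ : ℂ) + τ * I)‖ * (1 + |τ|) ^ 12 * (1 + u ^ 2)
        ≤ ‖Complex.Gamma ((σ : ℂ) + τ * I)‖ * ((14 * σ) ^ 12 * (64 * (1 + u ^ 2) ^ 6)) *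
            (1 + u ^ 2) := by
          apply mul_le_mul_of_nonneg_right _ h5.le
          exact mul_le_mul_of_nonneg_left h2 (norm_nonneg _)
      _ = 64 * (14 * σ) ^ 12 * (‖Complex.Gamma ((σ : ℂ) + τ * I)‖ * (1 + u ^ 2) ^ 7) := by ring
      _ ≤ 64 * (14 * σ) ^ 12 * Real.Gamma σ :=
          mul_le_mul_of_nonneg_left h1 (by positivity)
  rw [← div_eq_mul_inv, le_div_iff₀ h5]
  exact h6

theorem GI : S_GI := by
  refine ⟨64 * 14 ^ 13 * Real.pi, by positivity, fun σ hσ => ?_⟩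
  have hσ0 : 0 < σ := by linarith
  have ha0 : (14 * σ) ≠ 0 := by positivity
  have hdom : Integrable (fun τ : ℝ => 64 * (14 * σ) ^ 12 * Real.Gamma σ *
      (1 + (τ / (14 * σ)) ^ 2)⁻¹) :=
    (integrable_inv_one_add_sq.comp_div ha0).const_mul _
  have hcont : Continuous (fun τ : ℝ => ‖Complex.Gamma ((σ : ℂ) + τ * I)‖ * (1 + |τ|) ^ 12) := by
    have h1 : Continuous (fun τ : ℝ => Complex.Gamma ((σ : ℂ) + τ * I)) := by
      rw [continuous_iff_continuousAt]
      intro y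
      have h1 : ContinuousAt Complex.Gamma ((σ : ℂ) + y * I) := by
        apply (Complex.differentiableAt_Gamma _ _).continuousAt
        intro m hm
        have := congrArg Complex.re hm
        simp at this
        have : (0:ℝ) ≤ m := Nat.cast_nonneg m
        linarith
      exact ContinuousAt.comp (f := fun y : ℝ => (σ : ℂ) + y * I) h1 (by fun_prop)
    fun_prop
  have hint : Integrable (fun τ : ℝ => ‖Complex.Gamma ((σ : ℂ) + τ * I)‖ * (1 + |τ|) ^ 12) := by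
    refine hdom.mono' hcont.aestronglyMeasurable (Filter.Eventually.of_forall fun τ => ?_)
    rw [Real.norm_of_nonneg (by positivity)]
    exact GI_pt hσ τ
  refine ⟨hint, ?_⟩
  refine (integral_mono hint hdom fun τ => GI_pt hσ τ).trans (le_of_eq ?_)
  rw [integral_const_mul]
  have h2 := Measure.integral_comp_div (fun x : ℝ => (1 + x ^ 2)⁻¹) (14 * σ)
  rw [h2, integral_univ_inv_one_add_sq, smul_eq_mul, abs_of_pos (by positivity)]
  ring

end Pool.Agent.H408R2.CM
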