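import Pool.Agent.H408R2.CM.Stubs
import Pool.Agent.H401R2.Stir

/-! # GR: ratios of Gamma functions -/

set_option autoImplicit false

open Complex MeasureTheory Filter Topology

namespace Pool.Agent.H408R2.CM

open Pool.Agent.H304R4.CM

theorem GR_log {z x : ℂ} (hz : 0 < z.re) (hx : ‖x‖ ≤ 1 / 16) :
    log (z * (1 + x)) = log z + log (1 + x) := by
  have h1 : 0 < (1 + x).re := by
    have := abs_re_le_norm x
    have h2 := neg_abs_le x.re
    simp only [add_re, one_re]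
    linarith
  have hz0 : z ≠ 0 := by
    intro h
    rw [h] at hz
    simp at hz
  have hx0 : 1 + x ≠ 0 := by
    intro h
    rw [h] at h1
    simp at h1
  rw [Complex.log_mul_eq_add_log_iff hz0 hx0]
  have a1 := (Complex.abs_arg_lt_pi_div_two_iff (z := z)).2 (Or.inl hz)
  have a2 := (Complex.abs_arg_lt_pi_div_two_iff (z := 1 + x)).2 (Or.inl h1)
  rw [abs_lt] at a1 a2
  constructor <;> linarith [a1.1, a1.2, a2.1, a2.2]

theorem GR_gamma {z : ℂ} : Complex.Gamma z = Pool.Agent.H401R2.sA z *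
    Complex.exp ((z - 1 / 2) * log z - z) := by
  unfold Pool.Agent.H401R2.sA
  rw [mul_assoc, ← Complex.exp_add]
  simp

theorem GR : S_GR := by
  refine ⟨18, by norm_num, ?_⟩
  intro z w hz hzi hzw h16
  have hw0 : 0 ≤ ‖w‖ := norm_nonneg w
  obtain ⟨s, hs⟩ : ∃ s, s = 1 + ‖w‖ := ⟨_, rfl⟩
  obtain ⟨v, hv⟩ : ∃ v, v = z.im := ⟨_, rfl⟩
  rw [← hs, ← hv] at h16
  rw [← hs, ← hv]
  have hs1 : 1 ≤ s := by rw [hs]; linarith
  have hws : ‖w‖ ≤ s := by rw [hs]; linarith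
  have hss : s ≤ s ^ 2 := by nlinarith
  have hv16 : 16 ≤ v := by nlinarith
  have hv0 : 0 < v := by linarith
  have hvz : v ≤ ‖z‖ := by
    rw [hv]
    exact (le_abs_self _).trans (abs_im_le_norm z)
  have hz0 : z ≠ 0 := by
    intro h
    rw [h] at hz
    simp at hz
  have hnz : 0 < ‖z‖ := norm_pos_iff.2 hz0
  obtain ⟨x, hx⟩ : ∃ x, x = w / z := ⟨_, rfl⟩
  have hxw : z * x = w := by rw [hx]; field_simp
  have hxn : ‖x‖ = ‖w‖ / ‖z‖ := by rw [hx, norm_div]
  have hx16 : ‖x‖ ≤ 1 / 16 := by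
    rw [hxn, div_le_iff₀ hnz]
    nlinarith
  have hzw' : z + w = z * (1 + x) := by rw [mul_add, mul_one, hxw]
  have hlog : log (z + w) = log z + log (1 + x) := by rw [hzw']; exact GR_log hz hx16
  have him : v / 2 ≤ (z + w).im := by
    have h1 := abs_im_le_norm w
    have h2 := neg_abs_le w.im
    rw [add_im, ← hv]
    nlinarith
  -- Stirling
  have hst1 := Pool.Agent.H401R2.stirling hz (by rw [← hv]; linarith)
  have hst2 := Pool.Agent.H401R2.stirling hzw (by linarith)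
  have hpi : Real.pi < 4 := by
    have := Real.pi_lt_d2
    linarith
  rw [← hv] at hst1
  have hs2 : ((√(2 * Real.pi) : ℝ) : ℂ) ≠ 0 := by
    have : √(2 * Real.pi) ≠ 0 := by positivity
    exact_mod_cast this
  obtain ⟨a, ha⟩ : ∃ a, a = Pool.Agent.H401R2.sA z / ((√(2 * Real.pi) : ℝ) : ℂ) := ⟨_, rfl⟩
  obtain ⟨b, hb⟩ : ∃ b, b = Pool.Agent.H401R2.sA (z + w) / ((√(2 * Real.pi) : ℝ) : ℂ) :=
    ⟨_, rfl⟩
  rw [← ha] at hst1
  rw [← hb] at hst2
  have ha1 : ‖a - 1‖ ≤ 1 / (2 * v) := by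
    refine hst1.trans ?_
    rw [div_le_div_iff₀ (by positivity) (by positivity)]
    nlinarith
  have hb1 : ‖b - 1‖ ≤ 1 / v := by
    refine hst2.trans ?_
    rw [div_le_div_iff₀ (by linarith) (by positivity)]
    nlinarith
  have ha2 : 1 / 2 ≤ ‖a‖ := by
    have h1 : 1 / (2 * v) ≤ 1 / 2 := by
      rw [div_le_div_iff₀ (by positivity) (by norm_num)]
      linarith
    have h2 : (1 : ℝ) ≤ ‖a‖ + ‖a - 1‖ := by
      have := norm_sub_le a (a - 1)
      simpa using this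
    linarith
  have ha0 : a ≠ 0 := by
    intro h
    rw [h, norm_zero] at ha2
    norm_num at ha2
  -- the exponent
  obtain ⟨E, hE⟩ : ∃ E, E = (z + w - 1 / 2) * log (1 + x) - w := ⟨_, rfl⟩
  have hL : ‖log (1 + x) - x‖ ≤ ‖x‖ ^ 2 := by
    have h1 := norm_log_one_add_sub_self_le (z := x) (by linarith)
    refine h1.trans ?_
    have h2 : (1 - ‖x‖)⁻¹ / 2 ≤ 1 := by
      rw [div_le_one (by norm_num)]
      rw [inv_le_comm₀ (by linarith) (by norm_num)]
      linarith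
    calc ‖x‖ ^ 2 * (1 - ‖x‖)⁻¹ / 2 = ‖x‖ ^ 2 * ((1 - ‖x‖)⁻¹ / 2) := by ring
      _ ≤ ‖x‖ ^ 2 * 1 := by gcongr
      _ = _ := mul_one _
  have hEs : ‖E‖ ≤ 3 * (s ^ 2 / v) := by
    have e1 : E = (w - 1 / 2) * x + (z + w - 1 / 2) * (log (1 + x) - x) := by
      rw [hE, ← hxw]
      ring
    have h1 : ‖w - 1 / 2‖ ≤ s := by
      refine (norm_sub_le _ _).trans ?_
      rw [hs]
      norm_num
      linarith
    have h2 : ‖z + w - 1 / 2‖ ≤ 2 * ‖z‖ := by
      have h3 : ‖z + w - 1 / 2‖ ≤ ‖z‖ + ‖w - 1 / 2‖ := by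
        rw [add_sub_assoc]
        exact norm_add_le _ _
      nlinarith
    have h3 : ‖x‖ ≤ s / v := by
      rw [hxn]
      gcongr
    have h4 : ‖z‖ * ‖x‖ ^ 2 ≤ s ^ 2 / v := by
      have h5 : ‖z‖ * ‖x‖ ^ 2 = ‖w‖ * ‖x‖ := by
        rw [← hxw, norm_mul]
        ring
      rw [h5]
      calc ‖w‖ * ‖x‖ ≤ s * (s / v) := by gcongr
        _ = s ^ 2 / v := by ring
    rw [e1]
    calc ‖(w - 1 / 2) * x + (z + w - 1 / 2) * (log (1 + x) - x)‖
        ≤ ‖w - 1 / 2‖ * ‖x‖ + ‖z + w - 1 / 2‖ * ‖log (1 + x) - x‖ := by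
          refine (norm_add_le _ _).trans ?_
          rw [norm_mul, norm_mul]
      _ ≤ s * (s / v) + 2 * ‖z‖ * ‖x‖ ^ 2 := by gcongr
      _ = s ^ 2 / v + 2 * (‖z‖ * ‖x‖ ^ 2) := by ring
      _ ≤ s ^ 2 / v + 2 * (s ^ 2 / v) := by gcongr
      _ = _ := by ring
  have hsv : s ^ 2 / v ≤ 1 / 16 := by
    rw [div_le_iff₀ hv0]
    linarith
  have hE1 : ‖E‖ ≤ 1 := by linarith
  have hexp : ‖Complex.exp E - 1‖ ≤ 6 * (s ^ 2 / v) := by
    have := Complex.norm_exp_sub_one_le hE1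
    linarith
  have hexp2 : ‖Complex.exp E‖ ≤ 2 := by
    have h1 : ‖Complex.exp E‖ ≤ ‖Complex.exp E - 1‖ + 1 := by
      have := norm_add_le (Complex.exp E - 1) 1
      simpa using this
    linarith
  -- the ratio
  have hratio : Complex.Gamma (z + w) / (Complex.Gamma z * z ^ w) = b * Complex.exp E / a := by
    have hG : Complex.Gamma z ≠ 0 := Complex.Gamma_ne_zero_of_re_pos hz
    have hzw0 : z ^ w ≠ 0 := by
      rw [Complex.cpow_def_of_ne_zero hz0]
      exact Complex.exp_ne_zero _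
    rw [div_eq_div_iff (mul_ne_zero hG hzw0) ha0, GR_gamma (z := z + w), GR_gamma (z := z), ha, hb,
      Complex.cpow_def_of_ne_zero hz0, hlog]
    have e1 : (z + w - 1 / 2) * (log z + log (1 + x)) - (z + w) =
        E + (((z - 1 / 2) * log z - z) + log z * w) := by
      rw [hE]
      ring
    rw [e1, Complex.exp_add, Complex.exp_add]
    ring
  rw [hratio]
  have h1 : b * Complex.exp E / a - 1 =
      ((b - 1) * Complex.exp E + (Complex.exp E - 1) + (1 - a)) / a := by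
    field_simp
    ring
  have h1v : 1 / v ≤ s ^ 2 / v := by
    gcongr
    nlinarith
  have h2v : 1 / (2 * v) ≤ s ^ 2 / v := by
    refine le_trans ?_ h1v
    rw [div_le_div_iff₀ (by positivity) hv0]
    linarith
  have h2 : ‖(b - 1) * Complex.exp E + (Complex.exp E - 1) + (1 - a)‖ ≤ 9 * (s ^ 2 / v) := by
    calc ‖(b - 1) * Complex.exp E + (Complex.exp E - 1) + (1 - a)‖
        ≤ ‖b - 1‖ * ‖Complex.exp E‖ + ‖Complex.exp E - 1‖ + ‖a - 1‖ := by
          refine (norm_add_le _ _).trans ?_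
          rw [norm_sub_rev 1 a]
          gcongr
          refine (norm_add_le _ _).trans ?_
          rw [norm_mul]
      _ ≤ 1 / v * 2 + 6 * (s ^ 2 / v) + 1 / (2 * v) := by gcongr
      _ ≤ 9 * (s ^ 2 / v) := by linarith
  rw [h1, norm_div, div_le_iff₀ (by linarith)]
  refine h2.trans ?_
  have h3 : 0 ≤ s ^ 2 / v := by positivity
  calc 9 * (s ^ 2 / v) = 18 * s ^ 2 / v * (1 / 2) := by ring
    _ ≤ 18 * s ^ 2 / v * ‖a‖ := by gcongr

end Pool.Agent.H408R2.CM
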