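import Pool.Agent.H408R2.CM.Stubs

set_option autoImplicit false

/-! Task GT (helper218): integrability and tails of the kernel `Gw`. -/

open Complex MeasureTheory Filter Topology

namespace Pool.Agent.H408R2.CM

open Pool.Agent.H304R4.CM

noncomputable section

theorem GT_norm_Gamma_le {s : ℂ} (hs : 0 < s.re) : ‖Complex.Gamma s‖ ≤ Real.Gamma s.re := by
  rw [Complex.Gamma_eq_integral hs, Real.Gamma_eq_integral hs]
  unfold Complex.GammaIntegral
  refine (norm_integral_le_integral_norm _).trans (le_of_eq ?_)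
  refine setIntegral_congr_fun measurableSet_Ioi fun x hx => ?_
  have hx0 : (0:ℝ) < x := hx
  rw [norm_mul, Complex.norm_real, Real.norm_eq_abs, abs_of_pos (Real.exp_pos _),
    Complex.norm_cpow_eq_rpow_re_of_pos hx0]
  simp

theorem GT_bas_ne (η : ℝ) : bas η ≠ 0 := by
  intro h
  have := congrArg Complex.im h
  unfold bas at this
  simp at this

theorem GT_arg {δ : ℝ} (h0 : 0 < δ) (h1 : δ < 1 / 2) :
    bas (Real.tan (2 * δ)) ≠ 0 ∧ (bas (Real.tan (2 * δ))).arg = Real.pi / 2 - 2 * δ := by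
  have hpi := Real.pi_gt_three
  have hc : 0 < Real.cos (2 * δ) := Real.cos_pos_of_mem_Ioo ⟨by linarith, by linarith⟩
  have e : bas (Real.tan (2 * δ)) = ((Real.pi / Real.cos (2 * δ) : ℝ) : ℂ) *
      ((Real.cos (Real.pi / 2 - 2 * δ) : ℝ) + (Real.sin (Real.pi / 2 - 2 * δ) : ℝ) * I) := by
    unfold bas
    rw [Real.cos_pi_div_two_sub, Real.sin_pi_div_two_sub, Real.tan_eq_sin_div_cos]
    have hc' : ((Real.cos (2 * δ) : ℝ) : ℂ) ≠ 0 := by exact_mod_cast hc.ne'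
    push_cast at hc' ⊢
    field_simp
  constructor
  · exact GT_bas_ne _
  · have := Complex.arg_mul_cos_add_sin_mul_I (r := Real.pi / Real.cos (2 * δ))
      (div_pos Real.pi_pos hc) (θ := Real.pi / 2 - 2 * δ) ⟨by linarith, by linarith⟩
    rw [e, Complex.ofReal_cos, Complex.ofReal_sin]
    exact this

/-- the modulus of the kernel -/
theorem GT_norm {k : ℕ} {δ : ℝ} {w : ℂ} (h0 : 0 < δ) (h1 : δ < 1 / 2) (t : ℝ) :
    ‖Gw k δ w t‖ = δ ^ (k + 1) * 2 ^ k / ((k.factorial : ℝ) * √(2 * Real.pi)) *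
      Real.pi ^ (-w.re) * Real.exp (Real.pi / 2 * w.im) *
      ‖Complex.Gamma ((k : ℂ) + 1 / 2 + w + (t / 2) * I)‖ *
      Real.exp (t / 2 * (Real.pi / 2 - 2 * δ)) := by
  obtain ⟨hb, ha⟩ := GT_arg h0 h1
  unfold Gw cG
  rw [norm_mul, norm_mul, norm_mul, norm_mul, Complex.norm_real,
    Complex.norm_cpow_eq_rpow_re_of_pos Real.pi_pos, Complex.norm_exp,
    Complex.norm_cpow_of_ne_zero hb, ha]
  have e1 : ‖δ ^ (k + 1) * 2 ^ k / ((k.factorial : ℝ) * √(2 * Real.pi))‖ =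
      δ ^ (k + 1) * 2 ^ k / ((k.factorial : ℝ) * √(2 * Real.pi)) := by
    rw [Real.norm_of_nonneg (by positivity)]
  have e2 : (-((k : ℂ) + 1 / 4 + w) * (Real.pi / 2) * I).re = Real.pi / 2 * w.im := by
    simp
    ring
  have e3 : (-((t / 2 : ℝ) : ℂ) * I).re = 0 := by simp
  have e4 : (-((t / 2 : ℝ) : ℂ) * I).im = -(t / 2) := by simp
  have e5 : (1 : ℝ) / Real.exp ((Real.pi / 2 - 2 * δ) * -(t / 2)) =
      Real.exp (t / 2 * (Real.pi / 2 - 2 * δ)) := by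
    rw [one_div, ← Real.exp_neg]
    congr 1
    ring
  rw [e1, e2, e3, e4, Real.rpow_zero, neg_re, e5]

theorem GT_Gamma_real {σ : ℝ} {k : ℕ} (h1 : (k : ℝ) + 1 / 2 ≤ σ) (h2 : σ ≤ (k : ℝ) + 3 / 2)
    (hk : 1 ≤ k) : Real.Gamma σ ≤ ((k : ℝ) + 2) ^ (k + 2) := by
  have hk' : (1 : ℝ) ≤ k := by exact_mod_cast hk
  have hσ : 1 ≤ σ := by linarith
  have h3 : Real.Gamma (σ + 1) = σ * Real.Gamma σ := Real.Gamma_add_one (by linarith)
  have h4 : 0 < Real.Gamma σ := Real.Gamma_pos_of_pos (by linarith)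
  have h5 : Real.Gamma (σ + 1) ≤ Real.Gamma ((k + 2 : ℕ) + 1) := by
    refine Real.Gamma_strictMonoOn_Ici.monotoneOn ?_ ?_ ?_
    · simp only [Set.mem_Ici]; linarith
    · simp only [Set.mem_Ici]; push_cast; linarith
    · push_cast; linarith
  rw [Real.Gamma_nat_eq_factorial] at h5
  have h6 : ((k + 2).factorial : ℝ) ≤ ((k : ℝ) + 2) ^ (k + 2) := by
    have := Nat.factorial_le_pow (k + 2)
    exact_mod_cast this
  nlinarith

/-- uniform bound of the Gamma function -/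
theorem GT_gamma (hGB : S_GB) : ∃ C : ℝ, 1 ≤ C ∧ ∀ (k : ℕ) (w : ℂ) (t : ℝ), 1 ≤ k → 0 ≤ w.re →
    w.re ≤ 1 → ‖Complex.Gamma ((k : ℂ) + 1 / 2 + w + (t / 2) * I)‖ ≤
      C * ((k : ℝ) + 3 + |t / 2 + w.im|) ^ (k + 2) *
        Real.exp (-(Real.pi * |t / 2 + w.im| / 2)) := by
  obtain ⟨C, hC, h1, _⟩ := hGB
  refine ⟨max C (Real.exp (Real.pi / 2)), ?_, ?_⟩
  · refine le_trans ?_ (le_max_right _ _)
    exact Real.one_le_exp (by positivity)
  · intro k w t hk hw0 hw1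
    have hk' : (1 : ℝ) ≤ k := by exact_mod_cast hk
    set z : ℂ := (k : ℂ) + 1 / 2 + w + (t / 2) * I with hz
    have hre : z.re = k + 1 / 2 + w.re := by simp [hz]
    have him : z.im = t / 2 + w.im := by
      simp [hz]
      ring
    have hre0 : 0 < z.re := by rw [hre]; linarith
    set y := t / 2 + w.im with hy
    have hy0 : 0 ≤ |y| := abs_nonneg y
    by_cases hc : 1 ≤ |y|
    · have h2 := h1 z hre0 (by rw [him]; exact hc)
      rw [him] at h2
      have h3 : ‖z‖ ≤ k + 3 + |y| := by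
        refine (Complex.norm_le_abs_re_add_abs_im z).trans ?_
        rw [him, abs_of_pos hre0, hre]
        linarith
      have h4 : ‖z‖ ^ (z.re - 1 / 2) ≤ ((k : ℝ) + 3 + |y|) ^ (k + 2) := by
        calc ‖z‖ ^ (z.re - 1 / 2) ≤ ((k : ℝ) + 3 + |y|) ^ (z.re - 1 / 2) :=
              Real.rpow_le_rpow (norm_nonneg _) h3 (by rw [hre]; linarith)
          _ ≤ ((k : ℝ) + 3 + |y|) ^ ((k + 2 : ℕ) : ℝ) := by
              refine Real.rpow_le_rpow_of_exponent_le (by linarith) ?_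
              rw [hre]; push_cast; linarith
          _ = _ := Real.rpow_natCast _ _
      refine h2.trans ?_
      have h5 : C ≤ max C (Real.exp (Real.pi / 2)) := le_max_left _ _
      gcongr
    · push Not at hc
      have h2 := GT_norm_Gamma_le hre0
      have h3 : Real.Gamma z.re ≤ ((k : ℝ) + 2) ^ (k + 2) :=
        GT_Gamma_real (by rw [hre]; linarith) (by rw [hre]; linarith) hk
      have h4 : ((k : ℝ) + 2) ^ (k + 2) ≤ ((k : ℝ) + 3 + |y|) ^ (k + 2) :=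
        pow_le_pow_left₀ (by positivity) (by linarith) _
      have h5 : 1 ≤ max C (Real.exp (Real.pi / 2)) * Real.exp (-(Real.pi * |y| / 2)) := by
        calc (1 : ℝ) = Real.exp (Real.pi / 2) * Real.exp (-(Real.pi / 2)) := by
              rw [← Real.exp_add, add_neg_cancel, Real.exp_zero]
          _ ≤ max C (Real.exp (Real.pi / 2)) * Real.exp (-(Real.pi * |y| / 2)) := by
              refine mul_le_mul (le_max_right _ _) (Real.exp_le_exp.2 ?_) (Real.exp_pos _).le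
                (le_trans (Real.exp_pos _).le (le_max_right _ _))
              have := Real.pi_pos
              nlinarith
      have h6 : 0 ≤ ((k : ℝ) + 3 + |y|) ^ (k + 2) := by positivity
      calc ‖Complex.Gamma z‖ ≤ ((k : ℝ) + 3 + |y|) ^ (k + 2) * 1 := by linarith
        _ ≤ ((k : ℝ) + 3 + |y|) ^ (k + 2) *
            (max C (Real.exp (Real.pi / 2)) * Real.exp (-(Real.pi * |y| / 2))) :=
            mul_le_mul_of_nonneg_left h5 h6
        _ = _ := by ring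

/-- global bound of the kernel -/
theorem GT_bound0 {C : ℝ} (hC : 1 ≤ C) (hG : ∀ (k : ℕ) (w : ℂ) (t : ℝ), 1 ≤ k → 0 ≤ w.re →
    w.re ≤ 1 → ‖Complex.Gamma ((k : ℂ) + 1 / 2 + w + (t / 2) * I)‖ ≤
      C * ((k : ℝ) + 3 + |t / 2 + w.im|) ^ (k + 2) *
        Real.exp (-(Real.pi * |t / 2 + w.im| / 2)))
    {k : ℕ} {δ : ℝ} {w : ℂ} (hk : 1 ≤ k) (h0 : 0 < δ) (h1 : δ < 1 / 2) (hw0 : 0 ≤ w.re)
    (hw1 : w.re ≤ 1) (t : ℝ) :
    ‖Gw k δ w t‖ ≤ C * (δ ^ (k + 1) * 2 ^ k / (k.factorial : ℝ)) *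
      ((k : ℝ) + 3 + |w.im| + |t| / 2) ^ (k + 2) *
      Real.exp (Real.pi / 2 * w.im - Real.pi * |t / 2 + w.im| / 2 + t / 2 * (Real.pi / 2 - 2 * δ)) := by
  rw [GT_norm h0 h1]
  have h2 := hG k w t hk hw0 hw1
  have hpi := Real.pi_gt_three
  have h3 : δ ^ (k + 1) * 2 ^ k / ((k.factorial : ℝ) * √(2 * Real.pi)) ≤
      δ ^ (k + 1) * 2 ^ k / (k.factorial : ℝ) := by
    have hf : (0 : ℝ) < k.factorial := by exact_mod_cast k.factorial_pos
    refine div_le_div_of_nonneg_left (by positivity) hf ?_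
    have : 1 ≤ √(2 * Real.pi) := by
      rw [Real.one_le_sqrt]; linarith
    nlinarith
  have h4 : Real.pi ^ (-w.re) ≤ 1 := Real.rpow_le_one_of_one_le_of_nonpos (by linarith) (by linarith)
  have h5 : ((k : ℝ) + 3 + |t / 2 + w.im|) ^ (k + 2) ≤
      ((k : ℝ) + 3 + |w.im| + |t| / 2) ^ (k + 2) := by
    refine pow_le_pow_left₀ (by positivity) ?_ _
    have := abs_add_le (t / 2) w.im
    rw [abs_div, abs_two] at this
    linarith
  have h6 : ‖Complex.Gamma ((k : ℂ) + 1 / 2 + w + (t / 2) * I)‖ ≤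
      C * ((k : ℝ) + 3 + |w.im| + |t| / 2) ^ (k + 2) *
        Real.exp (-(Real.pi * |t / 2 + w.im| / 2)) := by
    refine h2.trans ?_
    gcongr
  set D := δ ^ (k + 1) * 2 ^ k / (k.factorial : ℝ) with hD
  have hD0 : 0 ≤ D := by positivity
  calc δ ^ (k + 1) * 2 ^ k / ((k.factorial : ℝ) * √(2 * Real.pi)) *
      Real.pi ^ (-w.re) * Real.exp (Real.pi / 2 * w.im) *
      ‖Complex.Gamma ((k : ℂ) + 1 / 2 + w + (t / 2) * I)‖ *
      Real.exp (t / 2 * (Real.pi / 2 - 2 * δ))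
      ≤ D * 1 * Real.exp (Real.pi / 2 * w.im) *
        (C * ((k : ℝ) + 3 + |w.im| + |t| / 2) ^ (k + 2) *
        Real.exp (-(Real.pi * |t / 2 + w.im| / 2))) *
        Real.exp (t / 2 * (Real.pi / 2 - 2 * δ)) := by gcongr
    _ = _ := by
      have e : Real.exp (Real.pi / 2 * w.im - Real.pi * |t / 2 + w.im| / 2 +
          t / 2 * (Real.pi / 2 - 2 * δ)) = Real.exp (Real.pi / 2 * w.im) *
          Real.exp (-(Real.pi * |t / 2 + w.im| / 2)) *
          Real.exp (t / 2 * (Real.pi / 2 - 2 * δ)) := by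
        rw [← Real.exp_add, ← Real.exp_add]
        congr 1
      rw [e]
      ring

/-- exponent for `t ≥ 0` -/
theorem GT_exp_pos {δ v t : ℝ} :
    Real.pi / 2 * v - Real.pi * |t / 2 + v| / 2 + t / 2 * (Real.pi / 2 - 2 * δ) ≤ -(δ * t) := by
  have h1 := le_abs_self (t / 2 + v)
  have h2 := Real.pi_pos
  nlinarith

/-- exponent for `t ≤ 0` -/
theorem GT_exp_neg {δ v t : ℝ} (h1 : δ < 1 / 2) (ht : t ≤ 0) :
    Real.pi / 2 * v - Real.pi * |t / 2 + v| / 2 + t / 2 * (Real.pi / 2 - 2 * δ) ≤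
      4 * |v| - |t| := by
  have h3 := neg_abs_le (t / 2 + v)
  have h2 := Real.pi_gt_three
  have h4 := Real.pi_lt_four
  have h5 := le_abs_self v
  have h6 := abs_nonneg v
  rw [abs_of_nonpos ht]
  have e1 : Real.pi / 2 * v - Real.pi * |t / 2 + v| / 2 + t / 2 * (Real.pi / 2 - 2 * δ) ≤
      Real.pi / 2 * v + Real.pi * (t / 2 + v) / 2 + t / 2 * (Real.pi / 2 - 2 * δ) := by
    nlinarith
  have e2 : Real.pi / 2 * v + Real.pi * (t / 2 + v) / 2 + t / 2 * (Real.pi / 2 - 2 * δ) =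
      Real.pi * v + t * (Real.pi / 2 - δ) := by ring
  have e3 : Real.pi * v ≤ 4 * |v| := by nlinarith
  have e4 : t * (Real.pi / 2 - δ) ≤ t := by nlinarith
  linarith

/-- bound for all `t` with fixed parameters -/
theorem GT_fixed (hGB : S_GB) (k : ℕ) (δ : ℝ) (w : ℂ) (hk : 1 ≤ k) (h0 : 0 < δ) (h1 : δ < 1 / 2)
    (hw0 : 0 ≤ w.re) (hw1 : w.re ≤ 1) : ∃ M : ℝ, ∀ t : ℝ,
    ‖Gw k δ w t‖ * (1 + |t|) ^ 5 ≤ M := by
  obtain ⟨C, hC, hG⟩ := GT_gamma hGB
  set B : ℝ := (k : ℝ) + 3 + |w.im| with hB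
  have hB1 : 1 ≤ B := by
    have : (0 : ℝ) ≤ k := Nat.cast_nonneg k
    have := abs_nonneg w.im
    linarith
  set D : ℝ := C * (δ ^ (k + 1) * 2 ^ k / (k.factorial : ℝ)) with hD
  have hD0 : 0 ≤ D := by positivity
  refine ⟨D * Real.exp (4 * |w.im|) * (((k + 7).factorial : ℝ) / δ ^ (k + 7)) * Real.exp (δ * B), ?_⟩
  intro t
  have h2 := GT_bound0 hC hG hk h0 h1 hw0 hw1 t
  have h3 : Real.exp (Real.pi / 2 * w.im - Real.pi * |t / 2 + w.im| / 2 +
      t / 2 * (Real.pi / 2 - 2 * δ)) ≤ Real.exp (4 * |w.im|) * Real.exp (-(δ * |t|)) := by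
    rw [← Real.exp_add]
    refine Real.exp_le_exp.2 ?_
    rcases le_total 0 t with ht | ht
    · have := GT_exp_pos (δ := δ) (v := w.im) (t := t)
      rw [abs_of_nonneg ht]
      have := abs_nonneg w.im
      linarith
    · have h5 := GT_exp_neg (v := w.im) h1 ht
      have h6 := abs_nonneg t
      nlinarith
  have ht0 := abs_nonneg t
  have h4 : (B + |t| / 2) ^ (k + 2) ≤ (B + |t|) ^ (k + 2) :=
    pow_le_pow_left₀ (by positivity) (by linarith) _
  have h5 : (1 + |t|) ^ 5 ≤ (B + |t|) ^ 5 := pow_le_pow_left₀ (by positivity) (by linarith) _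
  have h6 : (B + |t|) ^ (k + 7) ≤ ((k + 7).factorial : ℝ) / δ ^ (k + 7) *
      Real.exp (δ * B + δ * |t|) := by
    have h7 := Real.pow_div_factorial_le_exp (δ * (B + |t|)) (by positivity) (k + 7)
    rw [mul_pow, div_le_iff₀ (by positivity)] at h7
    rw [← mul_add, div_mul_eq_mul_div, le_div_iff₀ (by positivity)]
    linarith
  calc ‖Gw k δ w t‖ * (1 + |t|) ^ 5
      ≤ (D * (B + |t|) ^ (k + 2) * (Real.exp (4 * |w.im|) * Real.exp (-(δ * |t|)))) *
        (B + |t|) ^ 5 := by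
        refine mul_le_mul (h2.trans ?_) h5 (by positivity) (by positivity)
        gcongr
    _ = D * Real.exp (4 * |w.im|) * Real.exp (-(δ * |t|)) * (B + |t|) ^ (k + 7) := by
        rw [show k + 7 = (k + 2) + 5 by ring, pow_add]; ring
    _ ≤ D * Real.exp (4 * |w.im|) * Real.exp (-(δ * |t|)) * (((k + 7).factorial : ℝ) / δ ^ (k + 7) *
      Real.exp (δ * B + δ * |t|)) := by gcongr
    _ = _ := by
        rw [Real.exp_add, Real.exp_neg]
        field_simp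

theorem GT_cont (k : ℕ) (δ : ℝ) (w : ℂ) (hw0 : 0 ≤ w.re) : Continuous (Gw k δ w) := by
  unfold Gw
  refine (continuous_const.mul ?_).mul ?_
  · rw [continuous_iff_continuousAt]
    intro t
    have h1 : ContinuousAt Complex.Gamma ((k : ℂ) + 1 / 2 + w + (t / 2) * I) := by
      refine (Complex.differentiableAt_Gamma _ fun m h => ?_).continuousAt
      have := congrArg Complex.re h
      simp at this
      have h3 : (0 : ℝ) ≤ k := Nat.cast_nonneg k
      have h4 : (0 : ℝ) ≤ m := Nat.cast_nonneg m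
      linarith
    have h2 : ContinuousAt (fun t : ℝ => (k : ℂ) + 1 / 2 + w + ((t : ℂ) / 2) * I) t := by fun_prop
    exact ContinuousAt.comp (f := fun t : ℝ => (k : ℂ) + 1 / 2 + w + ((t : ℂ) / 2) * I) h1 h2
  · exact Continuous.const_cpow (by fun_prop) (Or.inl (GT_bas_ne _))

theorem GT_J : Integrable (fun t : ℝ => (1 + |t|) ^ (-(2 : ℝ))) := by
  have := integrable_one_add_norm (E := ℝ) (μ := volume) (r := 2) (by simp)
  simpa only [Real.norm_eq_abs] using this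

theorem GT_le_J {k : ℕ} {δ : ℝ} {w : ℂ} {M t : ℝ} (h : ‖Gw k δ w t‖ * (1 + |t|) ^ 5 ≤ M) :
    ‖Gw k δ w t‖ * (1 + |t|) ^ 3 ≤ M * (1 + |t|) ^ (-(2 : ℝ)) := by
  have h1 : 0 < 1 + |t| := by positivity
  have e : (1 + |t|) ^ (-(2 : ℝ)) = ((1 + |t|) ^ 2)⁻¹ := by
    rw [Real.rpow_neg h1.le]
    norm_num
  rw [e, ← div_eq_mul_inv, le_div_iff₀ (by positivity)]
  calc ‖Gw k δ w t‖ * (1 + |t|) ^ 3 * (1 + |t|) ^ 2 = ‖Gw k δ w t‖ * (1 + |t|) ^ 5 := by ring
    _ ≤ M := h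

theorem GT_int (hGB : S_GB) (k : ℕ) (δ : ℝ) (w : ℂ) (hk : 1 ≤ k) (h0 : 0 < δ) (h1 : δ < 1 / 2)
    (hw0 : 0 ≤ w.re) (hw1 : w.re ≤ 1) :
    Integrable (fun t : ℝ => ‖Gw k δ w t‖ * (1 + |t|) ^ 3) := by
  obtain ⟨M, hM⟩ := GT_fixed hGB k δ w hk h0 h1 hw0 hw1
  have hc := GT_cont k δ w hw0
  refine (GT_J.const_mul M).mono' ?_ ?_
  · refine Continuous.aestronglyMeasurable ?_
    fun_prop
  · refine Eventually.of_forall fun t => ?_
    rw [Real.norm_of_nonneg (by positivity)]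
    exact GT_le_J (hM t)

theorem GT_tail (hGB : S_GB) {k : ℕ} {δ : ℝ} {w : ℂ} (hk : 1 ≤ k) (h0 : 0 < δ) (h1 : δ < 1 / 2)
    (hw0 : 0 ≤ w.re) (hw1 : w.re ≤ 1) {S : Set ℝ} (hS : MeasurableSet S) {M : ℝ} (hM0 : 0 ≤ M)
    (hM : ∀ t ∈ S, ‖Gw k δ w t‖ * (1 + |t|) ^ 5 ≤ M) :
    ∫ t in S, ‖Gw k δ w t‖ * (1 + |t|) ^ 3 ≤ M * ∫ t : ℝ, (1 + |t|) ^ (-(2 : ℝ)) := by
  have hi := GT_int hGB k δ w hk h0 h1 hw0 hw1
  calc ∫ t in S, ‖Gw k δ w t‖ * (1 + |t|) ^ 3
      ≤ ∫ t in S, M * (1 + |t|) ^ (-(2 : ℝ)) :=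
        setIntegral_mono_on hi.integrableOn (GT_J.const_mul M).integrableOn hS
          fun t ht => GT_le_J (hM t ht)
    _ ≤ ∫ t : ℝ, M * (1 + |t|) ^ (-(2 : ℝ)) :=
        setIntegral_le_integral (GT_J.const_mul M)
          (Eventually.of_forall fun t => by positivity)
    _ = _ := integral_const_mul _ _

theorem GT_r {r : ℝ} (h0 : 0 ≤ r) (h : r ≤ 3 / 5 ∨ 2 ≤ r) :
    r * Real.exp (1 - r) ≤ Real.exp (-(1 + r) / 20) := by
  rcases h0.eq_or_lt with h0 | h0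
  · rw [← h0, zero_mul]; exact (Real.exp_pos _).le
  · have e : r * Real.exp (1 - r) = Real.exp (Real.log r + (1 - r)) := by
      rw [Real.exp_add, Real.exp_log h0]
    rw [e]
    refine Real.exp_le_exp.2 ?_
    rcases h with h | h
    · have h1 : Real.log (r / (3 / 5)) ≤ r / (3 / 5) - 1 := Real.log_le_sub_one_of_pos (by positivity)
      rw [Real.log_div h0.ne' (by norm_num)] at h1
      have h2 := Real.le_log_one_add_of_nonneg (x := 2 / 3) (by norm_num)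
      have h3 : Real.log (1 + 2 / 3) = - Real.log (3 / 5) := by
        rw [← Real.log_inv]; norm_num
      rw [h3] at h2
      norm_num at h2
      linarith
    · have h1 : Real.log (r / 2) ≤ r / 2 - 1 := Real.log_le_sub_one_of_pos (by positivity)
      rw [Real.log_div h0.ne' (by norm_num)] at h1
      have h2 := Real.log_two_lt_d9
      linarith

theorem GT_peak {k : ℕ} {r : ℝ} (h0 : 0 ≤ r) (h : r ≤ 3 / 5 ∨ 2 ≤ r) :
    ((k : ℝ) * r) ^ k / (k.factorial : ℝ) * Real.exp (-(k * r)) ≤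
      Real.exp (-((k : ℝ) + k * r) / 20) := by
  have hk : (0 : ℝ) ≤ k := Nat.cast_nonneg k
  have h1 := Real.pow_div_factorial_le_exp (k : ℝ) hk k
  have h2 := pow_le_pow_left₀ (mul_nonneg h0 (Real.exp_pos _).le) (GT_r h0 h) k
  have e1 : (r * Real.exp (1 - r)) ^ k = r ^ k * Real.exp k * Real.exp (-(k * r)) := by
    rw [mul_pow, ← Real.exp_nat_mul, mul_assoc, ← Real.exp_add]
    congr 2
    ring
  have e2 : Real.exp (-(1 + r) / 20) ^ k = Real.exp (-((k : ℝ) + k * r) / 20) := by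
    rw [← Real.exp_nat_mul]
    congr 1
    ring
  rw [e1, e2] at h2
  refine le_trans ?_ h2
  rw [mul_pow]
  calc (k : ℝ) ^ k * r ^ k / (k.factorial : ℝ) * Real.exp (-(k * r))
      = r ^ k * ((k : ℝ) ^ k / (k.factorial : ℝ)) * Real.exp (-(k * r)) := by ring
    _ ≤ r ^ k * Real.exp k * Real.exp (-(k * r)) := by gcongr

theorem GT_alg {δ f : ℝ} (hδ : δ ≠ 0) (hf : f ≠ 0) (C Y E1 E2 : ℝ) (k : ℕ) :
    C * (δ ^ (k + 1) * 2 ^ k / f) * (Y / 2) ^ (k + 2) * (E1 * E2) * Y ^ 5 =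
      C / 4 * (δ⁻¹) ^ 6 * E2 * (δ * Y) ^ 7 * ((δ * Y) ^ k / f * E1) := by
  have h1 : (Y / 2) ^ (k + 2) = Y ^ k * Y ^ 2 / (2 ^ k * 4) := by
    rw [div_pow, pow_add, pow_add]; norm_num
  rw [h1, mul_pow, mul_pow, inv_pow]
  have h2 : (2 : ℝ) ^ k ≠ 0 := by positivity
  field_simp
  ring

theorem GT_pt_pos {C : ℝ} (hC : 1 ≤ C) (hG : ∀ (k : ℕ) (w : ℂ) (t : ℝ), 1 ≤ k → 0 ≤ w.re →
    w.re ≤ 1 → ‖Complex.Gamma ((k : ℂ) + 1 / 2 + w + (t / 2) * I)‖ ≤
      C * ((k : ℝ) + 3 + |t / 2 + w.im|) ^ (k + 2) *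
        Real.exp (-(Real.pi * |t / 2 + w.im| / 2)))
    {k : ℕ} {t0 : ℝ} {w : ℂ} (hk : 1 ≤ k) (ht0 : 0 < t0) (h1 : k / t0 < 1 / 2) (hw0 : 0 ≤ w.re)
    (hw1 : w.re ≤ 1) {b : ℝ} (hb : b = 2 * ((k : ℝ) + 3 + |w.im|)) (hb1 : k / t0 * b ≤ 1)
    {t : ℝ} (ht : 0 ≤ t) (hr : (b + t) / t0 ≤ 3 / 5 ∨ 2 ≤ (b + t) / t0) :
    ‖Gw k (k / t0) w t‖ * (1 + |t|) ^ 5 ≤ C * (5040 * 20 ^ 7) * t0 ^ 6 * Real.exp (-(k : ℝ) / 20) := by
  have hk' : (1 : ℝ) ≤ k := by exact_mod_cast hk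
  set δ : ℝ := k / t0 with hδ
  have hδ0 : 0 < δ := by positivity
  have hb0 : 1 ≤ b := by
    have := abs_nonneg w.im
    rw [hb]; linarith
  have hf : (0 : ℝ) < k.factorial := by exact_mod_cast k.factorial_pos
  set X : ℝ := δ * (b + t) with hX
  have hX0 : 0 ≤ X := by positivity
  have hXr : X = k * ((b + t) / t0) := by rw [hX, hδ]; ring
  have h2 := GT_bound0 hC hG hk hδ0 h1 hw0 hw1 t
  have h3 := Real.exp_le_exp.2 (GT_exp_pos (δ := δ) (v := w.im) (t := t))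
  have hpk := GT_peak (k := k) (r := (b + t) / t0) (by positivity) hr
  rw [← hXr] at hpk
  have h7 := Real.pow_div_factorial_le_exp (X / 20) (by positivity) 7
  have hfac : ((Nat.factorial 7 : ℕ) : ℝ) = 5040 := by norm_num [Nat.factorial]
  rw [hfac] at h7
  have h8 : X ^ 7 ≤ 5040 * 20 ^ 7 * Real.exp (X / 20) := by
    rw [div_le_iff₀ (by norm_num), div_pow, div_le_iff₀ (by norm_num)] at h7
    linarith
  have h5 : (1 + |t|) ^ 5 ≤ (b + t) ^ 5 := by
    rw [abs_of_nonneg ht]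
    exact pow_le_pow_left₀ (by positivity) (by linarith) _
  have e1 : (k : ℝ) + 3 + |w.im| + |t| / 2 = (b + t) / 2 := by
    rw [hb, abs_of_nonneg ht]; ring
  rw [e1] at h2
  have e2 : Real.exp (-(δ * t)) = Real.exp (-X) * Real.exp (δ * b) := by
    rw [← Real.exp_add]; congr 1; rw [hX]; ring
  have e3 : Real.exp (δ * b) ≤ 4 := by
    calc Real.exp (δ * b) ≤ Real.exp 1 := Real.exp_le_exp.2 hb1
      _ ≤ 4 := by linarith [Real.exp_one_lt_d9]
  have e4 : δ⁻¹ ≤ t0 := by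
    rw [hδ, inv_div, div_le_iff₀ (by positivity)]
    nlinarith
  have e5 : (δ⁻¹) ^ 6 ≤ t0 ^ 6 := pow_le_pow_left₀ (by positivity) e4 _
  calc ‖Gw k δ w t‖ * (1 + |t|) ^ 5
      ≤ (C * (δ ^ (k + 1) * 2 ^ k / (k.factorial : ℝ)) * ((b + t) / 2) ^ (k + 2) *
        Real.exp (-(δ * t))) * (b + t) ^ 5 := by
        refine mul_le_mul (h2.trans ?_) h5 (by positivity) (by positivity)
        gcongr
    _ = C / 4 * (δ⁻¹) ^ 6 * Real.exp (δ * b) * X ^ 7 *
          (X ^ k / (k.factorial : ℝ) * Real.exp (-X)) := by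
        rw [e2]
        exact GT_alg hδ0.ne' hf.ne' C (b + t) _ _ k
    _ ≤ C / 4 * t0 ^ 6 * 4 * (5040 * 20 ^ 7 * Real.exp (X / 20)) *
          Real.exp (-((k : ℝ) + X) / 20) := by
        gcongr
    _ = _ := by
        have e6 : Real.exp (-((k : ℝ) + X) / 20) = Real.exp (-(k : ℝ) / 20) * (Real.exp (X / 20))⁻¹ := by
          rw [← Real.exp_neg, ← Real.exp_add]; congr 1; ring
        have e7 : Real.exp (X / 20) ≠ 0 := (Real.exp_pos _).ne'
        rw [e6]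
        field_simp

theorem GT_fact (k : ℕ) : ((k + 7).factorial : ℝ) ≤ (k.factorial : ℝ) * ((k : ℝ) + 7) ^ 7 := by
  have h : (k + 7).factorial ≤ k.factorial * (k + 7) ^ 7 := by
    have h1 : (k + 7).factorial = k.factorial * ((k + 1) * (k + 2) * (k + 3) * (k + 4) * (k + 5) *
        (k + 6) * (k + 7)) := by
      simp only [Nat.factorial_succ]
      ring
    rw [h1]
    refine Nat.mul_le_mul_left _ ?_
    calc (k + 1) * (k + 2) * (k + 3) * (k + 4) * (k + 5) * (k + 6) * (k + 7)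
        ≤ (k + 7) * (k + 7) * (k + 7) * (k + 7) * (k + 7) * (k + 7) * (k + 7) := by
          gcongr <;> omega
      _ = (k + 7) ^ 7 := by ring
  exact_mod_cast h

theorem GT_pt_neg {C : ℝ} (hC : 1 ≤ C) (hG : ∀ (k : ℕ) (w : ℂ) (t : ℝ), 1 ≤ k → 0 ≤ w.re →
    w.re ≤ 1 → ‖Complex.Gamma ((k : ℂ) + 1 / 2 + w + (t / 2) * I)‖ ≤
      C * ((k : ℝ) + 3 + |t / 2 + w.im|) ^ (k + 2) *
        Real.exp (-(Real.pi * |t / 2 + w.im| / 2)))
    {k : ℕ} {δ : ℝ} {w : ℂ} (hk : 1 ≤ k) (h0 : 0 < δ) (h1 : δ ≤ 1 / 10) (hw0 : 0 ≤ w.re)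
    (hw1 : w.re ≤ 1) {t : ℝ} (ht : t ≤ 0) :
    ‖Gw k δ w t‖ * (1 + |t|) ^ 5 ≤ C * ((k : ℝ) + 7) ^ 7 * Real.exp (3 + 5 * |w.im|) *
      Real.exp (-(k : ℝ) / 20) := by
  set B : ℝ := (k : ℝ) + 3 + |w.im| with hB
  have hB1 : 1 ≤ B := by
    have : (0 : ℝ) ≤ k := Nat.cast_nonneg k
    have := abs_nonneg w.im
    linarith
  have hf : (0 : ℝ) < k.factorial := by exact_mod_cast k.factorial_pos
  have ht0 := abs_nonneg t
  have h2 := GT_bound0 hC hG hk h0 (by linarith) hw0 hw1 t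
  have h3 := Real.exp_le_exp.2 (GT_exp_neg (δ := δ) (v := w.im) (t := t) (by linarith) ht)
  have h5 : (1 + |t|) ^ 5 ≤ (B + |t|) ^ 5 := pow_le_pow_left₀ (by positivity) (by linarith) _
  have h4 : (B + |t| / 2) ^ (k + 2) ≤ (B + |t|) ^ (k + 2) :=
    pow_le_pow_left₀ (by positivity) (by linarith) _
  have h6 : (B + |t|) ^ (k + 7) ≤ (k.factorial : ℝ) * ((k : ℝ) + 7) ^ 7 * Real.exp (B + |t|) := by
    have h7 := Real.pow_div_factorial_le_exp (B + |t|) (by positivity) (k + 7)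
    have h8 : (0 : ℝ) < (k + 7).factorial := by exact_mod_cast (k + 7).factorial_pos
    rw [div_le_iff₀ h8] at h7
    calc (B + |t|) ^ (k + 7) ≤ Real.exp (B + |t|) * ((k + 7).factorial : ℝ) := h7
      _ ≤ Real.exp (B + |t|) * ((k.factorial : ℝ) * ((k : ℝ) + 7) ^ 7) := by
          have := GT_fact k
          gcongr
      _ = _ := by ring
  have h9 : (2 * δ * Real.exp 1) ^ k ≤ Real.exp (-(k : ℝ) / 20) := by
    have e : Real.exp (-(k : ℝ) / 20) = Real.exp (-(1 / 20)) ^ k := by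
      rw [← Real.exp_nat_mul]; congr 1; ring
    rw [e]
    refine pow_le_pow_left₀ (by positivity) ?_ _
    have h10 := Real.exp_one_lt_d9
    have h11 := Real.add_one_le_exp (-(1 / 20 : ℝ))
    nlinarith
  calc ‖Gw k δ w t‖ * (1 + |t|) ^ 5
      ≤ (C * (δ ^ (k + 1) * 2 ^ k / (k.factorial : ℝ)) * (B + |t|) ^ (k + 2) *
        Real.exp (4 * |w.im| - |t|)) * (B + |t|) ^ 5 := by
        refine mul_le_mul (h2.trans ?_) h5 (by positivity) (by positivity)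
        gcongr
    _ = C * (δ ^ (k + 1) * 2 ^ k / (k.factorial : ℝ)) * Real.exp (4 * |w.im| - |t|) *
          (B + |t|) ^ (k + 7) := by
        rw [show k + 7 = (k + 2) + 5 by ring, pow_add]; ring
    _ ≤ C * (δ ^ (k + 1) * 2 ^ k / (k.factorial : ℝ)) * Real.exp (4 * |w.im| - |t|) *
          ((k.factorial : ℝ) * ((k : ℝ) + 7) ^ 7 * Real.exp (B + |t|)) := by gcongr
    _ = C * δ * ((k : ℝ) + 7) ^ 7 * Real.exp (3 + 5 * |w.im|) * (2 * δ * Real.exp 1) ^ k := by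
        have e : Real.exp (4 * |w.im| - |t|) * Real.exp (B + |t|) =
            Real.exp (3 + 5 * |w.im|) * Real.exp 1 ^ k := by
          rw [← Real.exp_nat_mul, ← Real.exp_add, ← Real.exp_add]
          congr 1
          rw [hB]; ring
        rw [mul_pow, mul_pow]
        calc C * (δ ^ (k + 1) * 2 ^ k / (k.factorial : ℝ)) * Real.exp (4 * |w.im| - |t|) *
          ((k.factorial : ℝ) * ((k : ℝ) + 7) ^ 7 * Real.exp (B + |t|))
            = C * (δ ^ (k + 1) * 2 ^ k / (k.factorial : ℝ)) * (k.factorial : ℝ) *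
              ((k : ℝ) + 7) ^ 7 * (Real.exp (4 * |w.im| - |t|) * Real.exp (B + |t|)) := by ring
          _ = _ := by
            rw [e]
            field_simp
            try ring
    _ ≤ C * 1 * ((k : ℝ) + 7) ^ 7 * Real.exp (3 + 5 * |w.im|) * Real.exp (-(k : ℝ) / 20) := by
        have : δ ≤ 1 := by linarith
        gcongr
    _ = _ := by rw [mul_one]

theorem GT_ev (A : ℝ) : ∀ᶠ T : ℝ in atTop,
    A * T ^ 13 * Real.exp (-(T ^ (1 / 1000000 : ℝ)) / 20) ≤ T ^ (-10 : ℝ) := by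
  have h1 : Tendsto (fun T : ℝ => T ^ (1 / 1000000 : ℝ)) atTop atTop :=
    tendsto_rpow_atTop (by norm_num)
  have h2 := (tendsto_rpow_mul_exp_neg_mul_atTop_nhds_zero 23000000 (1 / 20) (by norm_num)).comp h1
  have h3 := h2.const_mul A
  rw [mul_zero] at h3
  filter_upwards [h3.eventually (ge_mem_nhds (show (0 : ℝ) < 1 by norm_num)),
    eventually_gt_atTop 0] with T hT hT0
  simp only [Function.comp] at hT
  have e1 : (T ^ (1 / 1000000 : ℝ)) ^ (23000000 : ℝ) = T ^ 23 := by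
    rw [← Real.rpow_mul hT0.le, ← Real.rpow_natCast]
    norm_num
  rw [e1] at hT
  have e2 : T ^ (-10 : ℝ) = (T ^ 10)⁻¹ := by
    rw [Real.rpow_neg hT0.le]
    norm_num
  rw [e2, ← one_div, le_div_iff₀ (by positivity)]
  calc A * T ^ 13 * Real.exp (-(T ^ (1 / 1000000 : ℝ)) / 20) * T ^ 10
      = A * (T ^ 23 * Real.exp (-(1 / 20) * T ^ (1 / 1000000 : ℝ))) := by
        rw [show -(T ^ (1 / 1000000 : ℝ)) / 20 = -(1 / 20) * T ^ (1 / 1000000 : ℝ) by ring]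
        ring
    _ ≤ 1 := hT

theorem GT (hGB : S_GB) : S_GT := by
  refine ⟨fun k δ w hk h0 h1 hw0 hw1 => ⟨GT_int hGB k δ w hk h0 h1 hw0 hw1, GT_cont k δ w hw0⟩, ?_⟩
  obtain ⟨C, hC, hG⟩ := GT_gamma hGB
  set J : ℝ := ∫ t : ℝ, (1 + |t|) ^ (-(2 : ℝ)) with hJ
  have hJ0 : 0 ≤ J := integral_nonneg fun t => by positivity
  have h1 : Tendsto (fun T : ℝ => T ^ (1 / 100 : ℝ)) atTop atTop :=
    tendsto_rpow_atTop (by norm_num)
  have hlog : ∀ᶠ T : ℝ in atTop, Real.log T ≤ T ^ (1 / 100 : ℝ) := by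
    have := (isLittleO_log_rpow_atTop (show (0 : ℝ) < 1 / 100 by norm_num)).bound
      (show (0 : ℝ) < 1 by norm_num)
    filter_upwards [this, eventually_ge_atTop 1] with T hT hT1
    rw [one_mul, Real.norm_of_nonneg (Real.rpow_nonneg (by linarith) _)] at hT
    exact (le_abs_self _).trans hT
  obtain ⟨T0, hT0⟩ := eventually_atTop.1 (((GT_ev (C * (5040 * 20 ^ 7 * 64) * J)).and hlog).and
    ((h1.eventually_ge_atTop 100).and (eventually_ge_atTop 100)))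
  refine ⟨T0, fun T hT k hk1 hk2 t0 ht01 ht02 w hw0 hw1 hwi => ?_⟩
  obtain ⟨⟨hev, hlg⟩, hu, hT100⟩ := hT0 T hT
  set u : ℝ := T ^ (1 / 100 : ℝ) with hu'
  have hTpos : 0 < T := by linarith
  have huT : u ^ 100 = T := by
    rw [hu', ← Real.rpow_natCast, ← Real.rpow_mul hTpos.le]
    norm_num
  have hu3 : u ^ 3 ≤ T := by
    rw [← huT]
    exact pow_le_pow_right₀ (by linarith) (by norm_num)
  have hk0 : (1 : ℝ) ≤ T ^ (1 / 1000000 : ℝ) := Real.one_le_rpow (by linarith) (by norm_num)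
  have hkr : (1 : ℝ) ≤ k := hk0.trans hk1
  have hk : 1 ≤ k := by exact_mod_cast hkr
  have ht0 : 0 < t0 := by linarith
  have hwa : 0 ≤ |w.im| := abs_nonneg _
  have hwu : |w.im| ≤ u := hwi.trans hlg
  have hu2 : 10000 ≤ u ^ 2 := by nlinarith
  have huT' : 10000 * u ≤ T := by nlinarith
  have hδ1 : (k : ℝ) / t0 ≤ 1 / 10000 := by
    rw [div_le_iff₀ ht0]
    linarith
  have hδ0 : 0 < (k : ℝ) / t0 := by positivity
  set b : ℝ := 2 * ((k : ℝ) + 3 + |w.im|) with hb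
  have hb5 : b ≤ 5 * u := by rw [hb]; linarith
  have hb0 : 0 ≤ b := by positivity
  have hb1 : (k : ℝ) / t0 * b ≤ 1 := by
    rw [div_mul_eq_mul_div, div_le_one ht0]
    calc (k : ℝ) * b ≤ u * (5 * u) := by gcongr
      _ ≤ T := by nlinarith
      _ ≤ t0 := ht01
  have hM0 : (0 : ℝ) ≤ C * (5040 * 20 ^ 7 * 64) * T ^ 13 * Real.exp (-(k : ℝ) / 20) := by positivity
  have hexp : Real.exp (-(k : ℝ) / 20) ≤ Real.exp (-(T ^ (1 / 1000000 : ℝ)) / 20) := by
    refine Real.exp_le_exp.2 ?_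
    linarith
  have hfin : C * (5040 * 20 ^ 7 * 64) * T ^ 13 * Real.exp (-(k : ℝ) / 20) * J ≤ T ^ (-10 : ℝ) := by
    refine le_trans ?_ hev
    calc C * (5040 * 20 ^ 7 * 64) * T ^ 13 * Real.exp (-(k : ℝ) / 20) * J
        ≤ C * (5040 * 20 ^ 7 * 64) * T ^ 13 * Real.exp (-(T ^ (1 / 1000000 : ℝ)) / 20) * J := by
          gcongr
      _ = _ := by ring
  have hpos : ∀ t : ℝ, 0 ≤ t → ((b + t) / t0 ≤ 3 / 5 ∨ 2 ≤ (b + t) / t0) →
      ‖Gw k (k / t0) w t‖ * (1 + |t|) ^ 5 ≤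
        C * (5040 * 20 ^ 7 * 64) * T ^ 13 * Real.exp (-(k : ℝ) / 20) := by
    intro t ht hr
    refine (GT_pt_pos hC hG hk ht0 (by linarith) hw0 hw1 hb hb1 ht hr).trans ?_
    have h2 : t0 ^ 6 ≤ 64 * T ^ 6 := by
      calc t0 ^ 6 ≤ (2 * T) ^ 6 := pow_le_pow_left₀ ht0.le ht02 _
        _ = 64 * T ^ 6 := by ring
    have h3 : T ^ 6 ≤ T ^ 13 := pow_le_pow_right₀ (by linarith) (by norm_num)
    calc C * (5040 * 20 ^ 7) * t0 ^ 6 * Real.exp (-(k : ℝ) / 20)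
        ≤ C * (5040 * 20 ^ 7) * (64 * T ^ 13) * Real.exp (-(k : ℝ) / 20) := by
          gcongr
          linarith
      _ = _ := by ring
  have hneg : ∀ t : ℝ, t ≤ 0 → ‖Gw k (k / t0) w t‖ * (1 + |t|) ^ 5 ≤
        C * (5040 * 20 ^ 7 * 64) * T ^ 13 * Real.exp (-(k : ℝ) / 20) := by
    intro t ht
    refine (GT_pt_neg hC hG hk hδ0 (by linarith) hw0 hw1 ht).trans ?_
    have h2 : ((k : ℝ) + 7) ^ 7 ≤ T ^ 7 := pow_le_pow_left₀ (by positivity) (by linarith) _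
    have h3 : Real.exp (3 + 5 * |w.im|) ≤ T ^ 6 := by
      have h4 : Real.exp (3 + 5 * |w.im|) ≤ Real.exp (3 + 5 * Real.log T) :=
        Real.exp_le_exp.2 (by linarith)
      refine h4.trans ?_
      rw [Real.exp_add]
      have h5 : Real.exp (5 * Real.log T) = T ^ 5 := by
        rw [show (5 : ℝ) * Real.log T = ((5 : ℕ) : ℝ) * Real.log T by norm_num,
          Real.exp_nat_mul, Real.exp_log hTpos]
      have h6 : Real.exp 3 ≤ 27 := by
        have : Real.exp 3 = Real.exp 1 ^ 3 := by rw [← Real.exp_nat_mul]; norm_num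
        rw [this]
        calc Real.exp 1 ^ 3 ≤ 3 ^ 3 :=
              pow_le_pow_left₀ (Real.exp_pos _).le (by linarith [Real.exp_one_lt_d9]) _
          _ = 27 := by norm_num
      rw [h5]
      calc Real.exp 3 * T ^ 5 ≤ T * T ^ 5 := by
            gcongr
            linarith
        _ = T ^ 6 := by ring
    calc C * ((k : ℝ) + 7) ^ 7 * Real.exp (3 + 5 * |w.im|) * Real.exp (-(k : ℝ) / 20)
        ≤ C * T ^ 7 * T ^ 6 * Real.exp (-(k : ℝ) / 20) := by gcongr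
      _ = C * 1 * T ^ 13 * Real.exp (-(k : ℝ) / 20) := by ring
      _ ≤ _ := by
          gcongr
          norm_num
  refine ⟨?_, ?_⟩
  · refine (GT_tail hGB hk hδ0 (by linarith) hw0 hw1 measurableSet_Iio hM0 fun t ht => ?_).trans hfin
    rcases le_total 0 t with h | h
    · refine hpos t h (Or.inl ?_)
      rw [div_le_iff₀ ht0]
      have : t < T / 2 := ht
      linarith
    · exact hneg t h
  · refine (GT_tail hGB hk hδ0 (by linarith) hw0 hw1 measurableSet_Ioi hM0 fun t ht => ?_).trans hfin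
    have ht' : 4 * T < t := ht
    refine hpos t (by linarith) (Or.inr ?_)
    rw [le_div_iff₀ ht0]
    linarith

end

end Pool.Agent.H408R2.CM
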