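import Pool.Agent.H408R2.CM.Stubs
import Pool.Agent.H306R2.ZetaGrowth

set_option autoImplicit false

open Complex MeasureTheory Filter Topology

namespace Pool.Agent.H408R2.CM

open Pool.Agent.H304R4.CM

theorem GZ : S_GZ := by
  refine ⟨14, by norm_num, ?_⟩
  intro t
  unfold zc
  have hre : (1 / 2 + (t : ℂ) * I).re = 1 / 2 := by simp
  have hre1 : (1 / 2 + (t : ℂ) * I - 1).re = -(1 / 2) := by simp; norm_num
  have h1 : 1 / 2 ≤ ‖(1 / 2 + (t : ℂ) * I) - 1‖ := by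
    have h := Complex.abs_re_le_norm (1 / 2 + (t : ℂ) * I - 1)
    rw [hre1, abs_neg, abs_of_pos (by norm_num : (0:ℝ) < 1 / 2)] at h
    exact h
  have h2 := Pool.Agent.H306R2.zeta_norm_le (s := 1 / 2 + (t : ℂ) * I) (by rw [hre]) h1
  have h3 : ‖(1 / 2 : ℂ) + (t : ℂ) * I‖ ≤ 1 / 2 + |t| := by
    calc ‖(1 / 2 : ℂ) + (t : ℂ) * I‖ ≤ ‖(1 / 2 : ℂ)‖ + ‖(t : ℂ) * I‖ := norm_add_le _ _
      _ = 1 / 2 + |t| := by
        rw [norm_mul, norm_I, mul_one, Complex.norm_real, Real.norm_eq_abs]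
        norm_num
  have h4 : 0 ≤ |t| := abs_nonneg t
  have h5 : 0 ≤ ‖(1 / 2 : ℂ) + (t : ℂ) * I‖ := norm_nonneg _
  refine h2.trans ?_
  nlinarith

end Pool.Agent.H408R2.CM
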