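import Pool.Agent.H408R2.CM.T_BS

set_option autoImplicit false

/-! TEAM CM, task IJ: a dyadic piece of `D2` against the window. -/

open Complex MeasureTheory Filter Topology

namespace Pool.Agent.H408R2.CM

open Pool.Agent.H304R4.CM

noncomputable section

/-- `s₀ + iv` -/
def IJ_w (v : ℝ) : ℂ := ((1 / 1000000 : ℝ) : ℂ) + v * I

lemma IJ_w_re (v : ℝ) : (IJ_w v).re = 1 / 1000000 := by
  unfold IJ_w
  simp

lemma IJ_w_im (v : ℝ) : (IJ_w v).im = v := by
  unfold IJ_w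
  simp

/-- the inner integral -/
def IJ_I (k : ℕ) (δ T : ℝ) (w : ℂ) (y : ℝ) : ℂ :=
  ∫ t in (T / 2)..(4 * T), (om k δ t : ℂ) * (hZ t : ℂ) * osc y t *
    ((t / (2 * Real.pi) : ℝ) : ℂ) ^ w

lemma IJ_inv_cpow (x : ℝ) (hx : 0 < x) (w : ℂ) : ((x⁻¹ : ℝ) : ℂ) ^ (-w) = (x : ℂ) ^ w := by
  rw [Complex.ofReal_inv, Complex.inv_cpow, Complex.cpow_neg, inv_inv]
  rw [Complex.arg_ofReal_of_nonneg hx.le]
  exact Real.pi_ne_zero.symm

lemma IJ_cpow (c h : ℕ) (t : ℝ) (ht : 0 < t) (w : ℂ) :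
    ((2 * Real.pi * (c * h) / t : ℝ) : ℂ) ^ (-w) =
      ((c * h : ℝ) : ℂ) ^ (-w) * ((t / (2 * Real.pi) : ℝ) : ℂ) ^ w := by
  have h1 : 2 * Real.pi * (c * h) / t = ((c : ℝ) * h) * (t / (2 * Real.pi))⁻¹ := by
    rw [inv_div]
    ring
  rw [h1, Complex.ofReal_mul, Complex.mul_cpow_ofReal_nonneg (by positivity) (by positivity),
    IJ_inv_cpow _ (by positivity)]

lemma IJ_meas_ew (s : ℝ) : Measurable (fun v : ℝ => ew s v) := by
  unfold ew
  fun_prop

lemma IJ_cont_om (k : ℕ) (δ : ℝ) : Continuous (om k δ) := by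
  unfold om
  fun_prop

lemma IJ_cont_osc (y : ℝ) : Continuous (osc y) := by
  unfold osc
  fun_prop

lemma IJ_norm_osc (y t : ℝ) : ‖osc y t‖ = 1 := by
  unfold osc
  rw [Complex.norm_exp_ofReal_mul_I]

/-- Fubini for one pair `(c, h)` -/
lemma IJ_one (hV : S_V) (hZc : Continuous hZ) (k : ℕ) (δ T : ℝ) (hT : 0 < T) (c h : ℕ)
    (hc : 1 ≤ c) (hh : 1 ≤ h) :
    Integrable (fun v : ℝ => ew (1 / 1000000) v * ((c * h : ℝ) : ℂ) ^ (-(IJ_w v)) *
      IJ_I k δ T (IJ_w v) ((c : ℝ) / h)) ∧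
    ∫ t in (T / 2)..(4 * T), (om k δ t : ℂ) * (hZ t : ℂ) * (osc ((c : ℝ) / h) t *
      VV 1 (2 * Real.pi * (c * h) / t)) =
      (1 / (2 * Real.pi)) * ∫ v : ℝ, ew (1 / 1000000) v * ((c * h : ℝ) : ℂ) ^ (-(IJ_w v)) *
        IJ_I k δ T (IJ_w v) ((c : ℝ) / h) := by
  obtain ⟨v1, v2, v3, v4, v5, v6, v7⟩ := hV
  have hc1 : (1 : ℝ) ≤ c := by exact_mod_cast hc
  have hh1 : (1 : ℝ) ≤ h := by exact_mod_cast hh
  have hle : T / 2 ≤ 4 * T := by linarith
  set s0 : ℝ := 1 / 1000000 with hs0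
  have hs00 : 0 < s0 := by rw [hs0]; norm_num
  set F : ℝ → ℝ → ℂ := fun t v => (om k δ t : ℂ) * (hZ t : ℂ) * osc ((c : ℝ) / h) t *
    (((2 * Real.pi * (c * h) / t : ℝ) : ℂ) ^ (-(IJ_w v)) * ew s0 v) with hF
  set μ : Measure ℝ := volume.restrict (Set.Ioc (T / 2) (4 * T)) with hμ
  have hFm : Measurable (fun z : ℝ × ℝ => F z.1 z.2) := by
    have m1 : Measurable (fun z : ℝ × ℝ => (om k δ z.1 : ℂ)) :=
      Complex.measurable_ofReal.comp ((IJ_cont_om k δ).measurable.comp measurable_fst)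
    have m2 : Measurable (fun z : ℝ × ℝ => (hZ z.1 : ℂ)) :=
      Complex.measurable_ofReal.comp (hZc.measurable.comp measurable_fst)
    have m3 : Measurable (fun z : ℝ × ℝ => osc ((c : ℝ) / h) z.1) :=
      (IJ_cont_osc _).measurable.comp measurable_fst
    have m4 : Measurable (fun z : ℝ × ℝ => ew s0 z.2) := (IJ_meas_ew s0).comp measurable_snd
    have m5 : Measurable (fun z : ℝ × ℝ => ((2 * Real.pi * (c * h) / z.1 : ℝ) : ℂ)) :=
      Complex.measurable_ofReal.comp (measurable_const.div measurable_fst)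
    have m6 : Measurable (fun z : ℝ × ℝ => -(IJ_w z.2)) := by
      unfold IJ_w
      fun_prop
    exact ((m1.mul m2).mul m3).mul ((m5.pow m6).mul m4)
  have hFn : ∀ t : ℝ, 0 < t → ∀ v, ‖F t v‖ =
      |om k δ t| * |hZ t| * (2 * Real.pi * (c * h) / t) ^ (-s0) * ‖ew s0 v‖ := by
    intro t ht v
    rw [hF]
    simp only
    rw [norm_mul, norm_mul, norm_mul, norm_mul, IJ_norm_osc, Complex.norm_real, Complex.norm_real,
      Complex.norm_cpow_eq_rpow_re_of_pos (by positivity)]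
    rw [Complex.neg_re, IJ_w_re, Real.norm_eq_abs, Real.norm_eq_abs]
    ring
  have hG : Integrable (fun t : ℝ => |om k δ t| * |hZ t| *
      (2 * Real.pi * (c * h) / t) ^ (-s0)) μ := by
    have : ContinuousOn (fun t : ℝ => |om k δ t| * |hZ t| *
        (2 * Real.pi * (c * h) / t) ^ (-s0)) (Set.Icc (T / 2) (4 * T)) := by
      apply ContinuousOn.mul
      · exact ((IJ_cont_om k δ).abs.mul hZc.abs).continuousOn
      · apply ContinuousOn.rpow_const
        · apply ContinuousOn.div continuousOn_const continuousOn_id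
          intro t ht
          have := ht.1
          simp only [id]
          linarith
        · intro t ht
          left
          have := ht.1
          have : 0 < t := by linarith
          positivity
    exact (this.integrableOn_Icc).mono_set Set.Ioc_subset_Icc_self
  have hInt : Integrable (Function.uncurry F) (μ.prod volume) := by
    have hGe := hG.mul_prod (v4 s0 hs00)
    refine hGe.mono' hFm.aestronglyMeasurable ?_
    have hae : ∀ᵐ z : ℝ × ℝ ∂(μ.prod (volume : Measure ℝ)), z.1 ∈ Set.Ioc (T / 2) (4 * T) := by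
      have h1 : ∀ᵐ t ∂μ, t ∈ Set.Ioc (T / 2) (4 * T) := by
        rw [hμ]
        exact ae_restrict_mem measurableSet_Ioc
      exact Measure.quasiMeasurePreserving_fst.ae h1
    filter_upwards [hae] with z hz
    have hz0 : 0 < z.1 := by
      have := hz.1
      linarith
    rw [Function.uncurry_def]
    exact (hFn z.1 hz0 z.2).le
  -- the inner integral over `t`
  have hin : ∀ v : ℝ, ∫ t, F t v ∂μ = ew s0 v * ((c * h : ℝ) : ℂ) ^ (-(IJ_w v)) *
      IJ_I k δ T (IJ_w v) ((c : ℝ) / h) := by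
    intro v
    unfold IJ_I
    rw [intervalIntegral.integral_of_le hle, ← MeasureTheory.integral_const_mul]
    apply MeasureTheory.setIntegral_congr_fun measurableSet_Ioc
    intro t ht
    have ht0 : 0 < t := by
      have := ht.1
      linarith
    simp only [hF]
    rw [IJ_cpow c h t ht0]
    ring
  have hI2 : Integrable (fun v : ℝ => ∫ t, F t v ∂μ) volume := by
    have := hInt.integral_prod_right
    exact this
  refine ⟨?_, ?_⟩
  · refine hI2.congr (Filter.Eventually.of_forall fun v => ?_)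
    exact hin v
  · rw [intervalIntegral.integral_of_le hle]
    have h1 : ∫ t in Set.Ioc (T / 2) (4 * T), (om k δ t : ℂ) * (hZ t : ℂ) *
        (osc ((c : ℝ) / h) t * VV 1 (2 * Real.pi * (c * h) / t)) =
        ∫ t in Set.Ioc (T / 2) (4 * T), (1 / (2 * Real.pi) : ℂ) * ∫ v : ℝ, F t v := by
      apply MeasureTheory.setIntegral_congr_fun measurableSet_Ioc
      intro t ht
      have ht0 : 0 < t := by
        have := ht.1
        linarith
      simp only [hF]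
      rw [← v1 s0 (2 * Real.pi * (c * h) / t) hs00 (by positivity)]
      rw [MeasureTheory.integral_const_mul]
      unfold VV
      have : ∀ v : ℝ, -((s0 : ℂ) + v * I) = -(IJ_w v) := fun v => rfl
      simp only [this]
      ring
    rw [h1, MeasureTheory.integral_const_mul]
    congr 1
    rw [show (∫ t in Set.Ioc (T / 2) (4 * T), ∫ v : ℝ, F t v) = ∫ t, ∫ v, F t v ∂volume ∂μ from rfl,
      MeasureTheory.integral_integral_swap hInt]
    exact integral_congr_ae (Filter.Eventually.of_forall fun v => hin v)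

/-- the inner double sum -/
def IJ_S (k : ℕ) (δ T : ℝ) (w : ℂ) (C H : ℝ) : ℂ :=
  ∑ h ∈ Finset.Icc 1 ⌊2 * H⌋₊, ∑ c ∈ Finset.Icc 1 ⌊2 * C⌋₊,
    BS_w w C H h c * IJ_I k δ T w ((c : ℝ) / h)

lemma IJ_ww_zero (hW : S_W1) (C : ℝ) (hC : 0 < C) (c : ℕ) (h : 2 * C < c) :
    ww ((c : ℝ) / C) = 0 := by
  by_contra h0
  have h2 := (hW.2.1 _ h0).2
  rw [div_le_iff₀ hC] at h2
  linarith

lemma IJ_Dij (hW : S_W1) (T : ℝ) (i j : ℕ) (hi : 2 * (2 : ℝ) ^ i ≤ T ^ 2)
    (hj : 2 * (2 : ℝ) ^ j ≤ T ^ 2) (t : ℝ) :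
    Dij T i j t = ∑ h ∈ Finset.Icc 1 ⌊2 * (2 : ℝ) ^ j⌋₊, ∑ c ∈ Finset.Icc 1 ⌊2 * (2 : ℝ) ^ i⌋₊,
      ((ww ((c : ℝ) / 2 ^ i) * ww ((h : ℝ) / 2 ^ j) : ℝ) : ℂ) *
      ((((c * h : ℝ) ^ (-(1 / 2) : ℝ) : ℝ) : ℂ) * osc ((c : ℝ) / h) t *
        VV 1 (2 * Real.pi * (c * h) / t)) := by
  unfold Dij
  rw [Finset.sum_comm]
  symm
  have hsub : ∀ l : ℕ, 2 * (2 : ℝ) ^ l ≤ T ^ 2 →
      Finset.Icc 1 ⌊2 * (2 : ℝ) ^ l⌋₊ ⊆ Finset.Icc 1 ⌊T ^ 2⌋₊ := fun l hl =>
    Finset.Icc_subset_Icc_right (Nat.floor_le_floor hl)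
  have hout : ∀ (l : ℕ) (n : ℕ), 1 ≤ n → n ∉ Finset.Icc 1 ⌊2 * (2 : ℝ) ^ l⌋₊ →
      ww ((n : ℝ) / 2 ^ l) = 0 := by
    intro l n hn hn'
    rw [Finset.mem_Icc] at hn'
    push Not at hn'
    have h1 := hn' hn
    exact IJ_ww_zero hW (2 ^ l) (by positivity) n ((Nat.floor_lt (by positivity)).1 h1)
  calc _ = ∑ h ∈ Finset.Icc 1 ⌊2 * (2 : ℝ) ^ j⌋₊, ∑ c ∈ Finset.Icc 1 ⌊T ^ 2⌋₊,
      ((ww ((c : ℝ) / 2 ^ i) * ww ((h : ℝ) / 2 ^ j) : ℝ) : ℂ) *
      ((((c * h : ℝ) ^ (-(1 / 2) : ℝ) : ℝ) : ℂ) * osc ((c : ℝ) / h) t *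
        VV 1 (2 * Real.pi * (c * h) / t)) := by
        refine Finset.sum_congr rfl fun h _ => ?_
        apply Finset.sum_subset (hsub i hi)
        intro c hc hc'
        rw [hout i c (Finset.mem_Icc.1 hc).1 hc']
        simp
    _ = _ := by
        apply Finset.sum_subset (hsub j hj)
        intro h hh hh'
        apply Finset.sum_eq_zero
        intro c _
        rw [hout j h (Finset.mem_Icc.1 hh).1 hh']
        simp

lemma IJ_w_eq (w : ℂ) (C H : ℝ) (c h : ℕ) (hc : 1 ≤ c) (hh : 1 ≤ h) :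
    BS_w w C H h c = ((ww ((c : ℝ) / C) * ww ((h : ℝ) / H) : ℝ) : ℂ) *
      (((c * h : ℝ) ^ (-(1 / 2) : ℝ) : ℝ) : ℂ) * ((c * h : ℝ) : ℂ) ^ (-w) := by
  have hc1 : (1 : ℝ) ≤ c := by exact_mod_cast hc
  have hh1 : (1 : ℝ) ≤ h := by exact_mod_cast hh
  have hne : ((c * h : ℝ) : ℂ) ≠ 0 := by
    rw [Complex.ofReal_ne_zero]
    positivity
  unfold BS_w
  rw [neg_add, Complex.cpow_add _ _ hne, Complex.ofReal_cpow (by positivity)]
  push_cast
  ring

/-- the identity -/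
lemma IJ_id (hV : S_V) (hW : S_W1) (hZc : Continuous hZ) (k : ℕ) (δ T : ℝ) (hT : 0 < T) (i j : ℕ)
    (hi : 2 * (2 : ℝ) ^ i ≤ T ^ 2) (hj : 2 * (2 : ℝ) ^ j ≤ T ^ 2) :
    ∫ t in (T / 2)..(4 * T), (om k δ t : ℂ) * (hZ t : ℂ) * Dij T i j t =
      (1 / (2 * Real.pi)) * ∫ v : ℝ, ew (1 / 1000000) v *
        IJ_S k δ T (IJ_w v) (2 ^ i) (2 ^ j) := by
  have hle : T / 2 ≤ 4 * T := by linarith
  set co : ℕ → ℕ → ℂ := fun h c => ((ww ((c : ℝ) / 2 ^ i) * ww ((h : ℝ) / 2 ^ j) : ℝ) : ℂ) *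
    (((c * h : ℝ) ^ (-(1 / 2) : ℝ) : ℝ) : ℂ) with hco
  have e1 : ∀ t : ℝ, (om k δ t : ℂ) * (hZ t : ℂ) * Dij T i j t =
      ∑ h ∈ Finset.Icc 1 ⌊2 * (2 : ℝ) ^ j⌋₊, ∑ c ∈ Finset.Icc 1 ⌊2 * (2 : ℝ) ^ i⌋₊,
        co h c * ((om k δ t : ℂ) * (hZ t : ℂ) * (osc ((c : ℝ) / h) t *
          VV 1 (2 * Real.pi * (c * h) / t))) := by
    intro t
    rw [IJ_Dij hW T i j hi hj, Finset.mul_sum]
    refine Finset.sum_congr rfl fun h _ => ?_
    rw [Finset.mul_sum]
    refine Finset.sum_congr rfl fun c _ => ?_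
    rw [hco]
    ring
  have hint : ∀ h ∈ Finset.Icc 1 ⌊2 * (2 : ℝ) ^ j⌋₊, ∀ c ∈ Finset.Icc 1 ⌊2 * (2 : ℝ) ^ i⌋₊,
      IntervalIntegrable (fun t : ℝ => co h c * ((om k δ t : ℂ) * (hZ t : ℂ) *
        (osc ((c : ℝ) / h) t * VV 1 (2 * Real.pi * (c * h) / t)))) volume (T / 2) (4 * T) := by
    intro h hh c hc
    have hc1 : (1 : ℝ) ≤ c := by exact_mod_cast (Finset.mem_Icc.1 hc).1
    have hh1 : (1 : ℝ) ≤ h := by exact_mod_cast (Finset.mem_Icc.1 hh).1
    apply ContinuousOn.intervalIntegrable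
    rw [Set.uIcc_of_le hle]
    apply ContinuousOn.mul continuousOn_const
    apply ContinuousOn.mul
    · exact ((Complex.continuous_ofReal.comp (IJ_cont_om k δ)).mul
        (Complex.continuous_ofReal.comp hZc)).continuousOn
    · apply ContinuousOn.mul (IJ_cont_osc _).continuousOn
      refine hV.2.2.2.2.2.2.comp ?_ ?_
      · apply ContinuousOn.div continuousOn_const continuousOn_id
        intro t ht
        have := ht.1
        simp only [id]
        linarith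
      · intro t ht
        have := ht.1
        have : 0 < t := by linarith
        simp only [Set.mem_Ioi]
        positivity
  have e2 : ∫ t in (T / 2)..(4 * T), (om k δ t : ℂ) * (hZ t : ℂ) * Dij T i j t =
      ∑ h ∈ Finset.Icc 1 ⌊2 * (2 : ℝ) ^ j⌋₊, ∑ c ∈ Finset.Icc 1 ⌊2 * (2 : ℝ) ^ i⌋₊,
        co h c * ((1 / (2 * Real.pi)) * ∫ v : ℝ, ew (1 / 1000000) v *
          ((c * h : ℝ) : ℂ) ^ (-(IJ_w v)) * IJ_I k δ T (IJ_w v) ((c : ℝ) / h)) := by
    simp only [e1]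
    rw [intervalIntegral.integral_finsetSum]
    · refine Finset.sum_congr rfl fun h hh => ?_
      rw [intervalIntegral.integral_finsetSum (fun c hc => hint h hh c hc)]
      refine Finset.sum_congr rfl fun c hc => ?_
      rw [intervalIntegral.integral_const_mul,
        (IJ_one hV hZc k δ T hT c h (Finset.mem_Icc.1 hc).1 (Finset.mem_Icc.1 hh).1).2]
    · intro h hh
      have h9 := IntervalIntegrable.sum _ (fun c hc => hint h hh c hc)
      rw [Finset.sum_fn] at h9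
      exact h9
  rw [e2]
  have hI3 : ∀ h ∈ Finset.Icc 1 ⌊2 * (2 : ℝ) ^ j⌋₊, ∀ c ∈ Finset.Icc 1 ⌊2 * (2 : ℝ) ^ i⌋₊,
      Integrable (fun v : ℝ => co h c * (ew (1 / 1000000) v *
        ((c * h : ℝ) : ℂ) ^ (-(IJ_w v)) * IJ_I k δ T (IJ_w v) ((c : ℝ) / h))) := fun h hh c hc =>
    (IJ_one hV hZc k δ T hT c h (Finset.mem_Icc.1 hc).1 (Finset.mem_Icc.1 hh).1).1.const_mul _
  have e3 : ∀ v : ℝ, ew (1 / 1000000) v * IJ_S k δ T (IJ_w v) (2 ^ i) (2 ^ j) =
      ∑ h ∈ Finset.Icc 1 ⌊2 * (2 : ℝ) ^ j⌋₊, ∑ c ∈ Finset.Icc 1 ⌊2 * (2 : ℝ) ^ i⌋₊,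
        co h c * (ew (1 / 1000000) v * ((c * h : ℝ) : ℂ) ^ (-(IJ_w v)) *
          IJ_I k δ T (IJ_w v) ((c : ℝ) / h)) := by
    intro v
    unfold IJ_S
    rw [Finset.mul_sum]
    refine Finset.sum_congr rfl fun h hh => ?_
    rw [Finset.mul_sum]
    refine Finset.sum_congr rfl fun c hc => ?_
    rw [IJ_w_eq _ _ _ c h (Finset.mem_Icc.1 hc).1 (Finset.mem_Icc.1 hh).1, hco]
    ring
  simp only [e3]
  rw [MeasureTheory.integral_finsetSum _ (fun h hh => integrable_finsetSum _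
    (fun c hc => hI3 h hh c hc)), Finset.mul_sum]
  refine Finset.sum_congr rfl fun h hh => ?_
  rw [MeasureTheory.integral_finsetSum _ (fun c hc => hI3 h hh c hc), Finset.mul_sum]
  refine Finset.sum_congr rfl fun c hc => ?_
  rw [MeasureTheory.integral_const_mul]
  ring

lemma IJ_norm_w (hW : S_W1) (w : ℂ) (hw : 0 ≤ w.re) (C H : ℝ) (hC : 1 ≤ C) (hH : 1 ≤ H)
    (c h : ℕ) (hc : 1 ≤ c) (hh : 1 ≤ h) :
    ‖BS_w w C H h c‖ ≤ 2 * (C * H) ^ (-(1 / 2) : ℝ) := by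
  have hc1 : (1 : ℝ) ≤ c := by exact_mod_cast hc
  have hh1 : (1 : ℝ) ≤ h := by exact_mod_cast hh
  by_cases h0 : ww ((c : ℝ) / C) * ww ((h : ℝ) / H) = 0
  · have : BS_w w C H h c = 0 := by
      unfold BS_w
      rw [h0]
      simp
    rw [this, norm_zero]
    positivity
  · have hc0 : ww ((c : ℝ) / C) ≠ 0 := fun h => h0 (by rw [h, zero_mul])
    have hh0 : ww ((h : ℝ) / H) ≠ 0 := fun h => h0 (by rw [h, mul_zero])
    have s1 := (hW.2.1 _ hc0).1
    have s2 := (hW.2.1 _ hh0).1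
    rw [le_div_iff₀ (by linarith)] at s1 s2
    have h3 : (1 : ℝ) ≤ (c : ℝ) * h := by nlinarith
    have h4 : C * H / 4 ≤ (c : ℝ) * h := by nlinarith
    unfold BS_w
    rw [norm_mul, Complex.norm_real, Real.norm_eq_abs]
    have h1 : |ww ((c : ℝ) / C) * ww ((h : ℝ) / H)| ≤ 1 := by
      have h01 := hW.2.2.1
      rw [abs_mul, abs_of_nonneg (h01 _).1, abs_of_nonneg (h01 _).1]
      exact mul_le_one₀ (h01 _).2 (h01 _).1 (h01 _).2
    have h2 : ‖((c * h : ℝ) : ℂ) ^ (-(1 / 2 + w))‖ ≤ 2 * (C * H) ^ (-(1 / 2) : ℝ) := by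
      rw [Complex.norm_cpow_eq_rpow_re_of_pos (by linarith)]
      have e1 : ((c : ℝ) * h) ^ (-(1 / 2 + w)).re ≤ ((c : ℝ) * h) ^ (-(1 / 2) : ℝ) := by
        apply Real.rpow_le_rpow_of_exponent_le h3
        simp
        linarith
      have e2 : ((c : ℝ) * h) ^ (-(1 / 2) : ℝ) ≤ (C * H / 4) ^ (-(1 / 2) : ℝ) :=
        Real.rpow_le_rpow_of_nonpos (by positivity) h4 (by norm_num)
      have e3 : (C * H / 4) ^ (-(1 / 2) : ℝ) = 2 * (C * H) ^ (-(1 / 2) : ℝ) := by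
        rw [Real.div_rpow (by positivity) (by norm_num)]
        have : (4 : ℝ) ^ (-(1 / 2) : ℝ) = 1 / 2 := by
          rw [show (4 : ℝ) = 2 ^ (2 : ℝ) by norm_num, ← Real.rpow_mul (by norm_num)]
          norm_num
        rw [this]
        ring
      rw [← e3]
      exact e1.trans e2
    calc _ ≤ 1 * (2 * (C * H) ^ (-(1 / 2) : ℝ)) :=
          mul_le_mul h1 h2 (norm_nonneg _) (by norm_num)
      _ = _ := one_mul _

/-- crude bound of the inner integral -/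
lemma IJ_I_bound (hZ0 : S_Z) (hOT : ∀ (k : ℕ) (δ : ℝ), 0 < δ → IntegrableOn (om k δ) (Set.Ioi 0) ∧
    ∫ t in Set.Ioi (0 : ℝ), om k δ t = 1) (C1 : ℝ) (hC1 : 0 < C1)
    (hCX : ∀ t : ℝ, 1 ≤ t → ‖zc t‖ ≤ C1 * t ^ (1 / 4 + 1 / 4 : ℝ)) (k : ℕ) (δ T : ℝ) (hδ : 0 < δ)
    (hT : 2 ≤ T) (w : ℂ) (hw : w.re = 1 / 1000000) (y : ℝ) :
    ‖IJ_I k δ T w y‖ ≤ 16 * C1 * T ^ 2 := by
  unfold IJ_I
  have hle : T / 2 ≤ 4 * T := by linarith
  obtain ⟨hI, h1⟩ := hOT k δ hδ
  have homn : ∀ t : ℝ, 0 < t → 0 ≤ om k δ t := by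
    intro t ht
    unfold om
    positivity
  have hb : ‖∫ t in (T / 2)..(4 * T), (om k δ t : ℂ) * (hZ t : ℂ) * osc y t *
      ((t / (2 * Real.pi) : ℝ) : ℂ) ^ w‖ ≤
      ∫ t in (T / 2)..(4 * T), om k δ t * (16 * C1 * T ^ 2) := by
    apply intervalIntegral.norm_integral_le_of_norm_le hle
    · refine Filter.Eventually.of_forall fun t ht => ?_
      have ht1 : 1 ≤ t := by
        have := ht.1
        linarith
      have ht0 : 0 < t := by linarith
      have ht4 : t ≤ 4 * T := ht.2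
      rw [norm_mul, norm_mul, norm_mul, IJ_norm_osc, Complex.norm_real, Complex.norm_real,
        Complex.norm_cpow_eq_rpow_re_of_pos (by positivity), hw, Real.norm_of_nonneg (homn t ht0),
        Real.norm_eq_abs, hZ0.2.1]
      have a1 : ‖zc t‖ ≤ C1 * (4 * T) := by
        refine (hCX t ht1).trans ?_
        apply mul_le_mul_of_nonneg_left _ hC1.le
        calc t ^ (1 / 4 + 1 / 4 : ℝ) ≤ t ^ (1 : ℝ) :=
              Real.rpow_le_rpow_of_exponent_le ht1 (by norm_num)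
          _ = t := Real.rpow_one t
          _ ≤ 4 * T := ht4
      have a2 : (t / (2 * Real.pi)) ^ (1 / 1000000 : ℝ) ≤ 4 * T := by
        have b1 : t / (2 * Real.pi) ≤ t := by
          apply div_le_self ht0.le
          have := Real.pi_gt_three
          linarith
        calc (t / (2 * Real.pi)) ^ (1 / 1000000 : ℝ) ≤ t ^ (1 / 1000000 : ℝ) :=
              Real.rpow_le_rpow (by positivity) b1 (by norm_num)
          _ ≤ t ^ (1 : ℝ) := Real.rpow_le_rpow_of_exponent_le ht1 (by norm_num)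
          _ = t := Real.rpow_one t
          _ ≤ 4 * T := ht4
      have a3 := homn t ht0
      calc om k δ t * ‖zc t‖ * 1 * (t / (2 * Real.pi)) ^ (1 / 1000000 : ℝ)
          ≤ om k δ t * (C1 * (4 * T)) * 1 * (4 * T) := by
            apply mul_le_mul _ a2 (by positivity) (by positivity)
            apply mul_le_mul_of_nonneg_right _ (by norm_num)
            exact mul_le_mul_of_nonneg_left a1 a3
        _ = om k δ t * (16 * C1 * T ^ 2) := by ring
    · exact ((IJ_cont_om k δ).mul continuous_const).intervalIntegrable _ _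
  refine hb.trans ?_
  rw [intervalIntegral.integral_mul_const, intervalIntegral.integral_of_le hle]
  have h2 : ∫ t in Set.Ioc (T / 2) (4 * T), om k δ t ≤ 1 := by
    rw [← h1]
    apply MeasureTheory.setIntegral_mono_set hI
    · rw [Filter.EventuallyLE, ae_restrict_iff' measurableSet_Ioi]
      exact Filter.Eventually.of_forall fun t ht => homn t ht
    · refine Filter.Eventually.of_forall fun t ht => ?_
      have := ht.1
      show (0 : ℝ) < t
      linarith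
  calc _ ≤ 1 * (16 * C1 * T ^ 2) := mul_le_mul_of_nonneg_right h2 (by positivity)
    _ = _ := one_mul _

theorem IJ (h1 : S_V) (h2 : S_INN) (h3 : S_BS) (h4 : S_W1) (h5 : S_CX) (hZ : S_Z) (h6 : S_OT) :
    S_IJ := by
  obtain ⟨T1, hINN⟩ := h2
  obtain ⟨T2, hBS⟩ := h3
  obtain ⟨C1, hC1, hCX⟩ := h5 (1 / 4) (by norm_num)
  set J0 : ℝ := ∫ v : ℝ, ‖ew (1 / 1000000) v‖ with hJ0
  have hJ0n : 0 ≤ J0 := integral_nonneg fun v => norm_nonneg _
  have ev1 : ∀ᶠ T : ℝ in atTop, 2 * T ^ (1 / 1000000 : ℝ) ≤ T ^ (1 / 100 : ℝ) := by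
    have h := tendsto_rpow_atTop (show (0 : ℝ) < 1 / 100 - 1 / 1000000 by norm_num)
    filter_upwards [h.eventually_ge_atTop 2, eventually_gt_atTop 0] with T hT hT0
    have e : T ^ (1 / 100 : ℝ) = T ^ (1 / 100 - 1 / 1000000 : ℝ) * T ^ (1 / 1000000 : ℝ) := by
      rw [← Real.rpow_add hT0]
      norm_num
    rw [e]
    exact mul_le_mul_of_nonneg_right hT (by positivity)
  have ev2 : ∀ᶠ T : ℝ in atTop, 8 ≤ T ^ (1 / 20 : ℝ) :=
    (tendsto_rpow_atTop (show (0 : ℝ) < 1 / 20 by norm_num)).eventually_ge_atTop _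
  have ev5 : ∀ᶠ T : ℝ in atTop, 2 * J0 + 1 ≤ T ^ (1 / 1100000 : ℝ) :=
    (tendsto_rpow_atTop (show (0 : ℝ) < 1 / 1100000 by norm_num)).eventually_ge_atTop _
  have ev6 : ∀ᶠ T : ℝ in atTop, 40 ≤ Real.log T :=
    Real.tendsto_log_atTop.eventually_ge_atTop _
  have evall : ∀ᶠ T : ℝ in atTop, ((2 * T ^ (1 / 1000000 : ℝ) ≤ T ^ (1 / 100 : ℝ) ∧
      8 ≤ T ^ (1 / 20 : ℝ)) ∧ (2 * J0 + 1 ≤ T ^ (1 / 1100000 : ℝ) ∧ 40 ≤ Real.log T)) ∧
      ((max T1 T2 ≤ T ∧ C1 ≤ T) ∧ 10000000 ≤ T) :=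
    ((ev1.and ev2).and (ev5.and ev6)).and (((eventually_ge_atTop _).and
      (eventually_ge_atTop _)).and (eventually_ge_atTop _))
  obtain ⟨T0, hT0⟩ := Filter.eventually_atTop.1 evall
  refine ⟨T0, ?_⟩
  intro T hT k hk1 hk2 t0 ht1 ht2 i j hji hij
  obtain ⟨⟨⟨e1, e2⟩, e3, e4⟩, ⟨e5, e6⟩, e7⟩ := hT0 T hT
  have hTpos : 0 < T := by linarith
  have hT1' : 1 ≤ T := by linarith
  have hkk : (k : ℝ) ≤ T ^ (1 / 100 : ℝ) := hk2.trans e1
  set C : ℝ := 2 ^ i with hCdef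
  set H : ℝ := 2 ^ j with hHdef
  have hC : 1 ≤ C := one_le_pow₀ (by norm_num)
  have hH : 1 ≤ H := one_le_pow₀ (by norm_num)
  have hHC : H ≤ C := pow_le_pow_right₀ (by norm_num) hji
  have hTT : 2 * T ^ (1 + 1 / 100000 : ℝ) ≤ T ^ 2 := by
    have b1 : T ^ (2 : ℕ) = T ^ (1 + 1 / 100000 : ℝ) * T ^ (1 - 1 / 100000 : ℝ) := by
      rw [← Real.rpow_add hTpos, ← Real.rpow_natCast]
      norm_num
    have b2 : 2 ≤ T ^ (1 - 1 / 100000 : ℝ) := by
      have : T ^ (1 / 20 : ℝ) ≤ T ^ (1 - 1 / 100000 : ℝ) :=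
        Real.rpow_le_rpow_of_exponent_le hT1' (by norm_num)
      linarith
    have b3 : 0 ≤ T ^ (1 + 1 / 100000 : ℝ) := by positivity
    rw [b1]
    nlinarith
  have hCH2 : 2 * (C * H) ≤ T ^ 2 := by linarith
  have hi : 2 * C ≤ T ^ 2 := by nlinarith
  have hj : 2 * H ≤ T ^ 2 := by nlinarith
  have hδ : 0 < (k : ℝ) / t0 := by
    have : (0 : ℝ) < k := lt_of_lt_of_le (by positivity) hk1
    have : 0 < t0 := by linarith
    positivity
  rw [IJ_id h1 h4 hZ.2.2.1 k (k / t0) T hTpos i j hi hj]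
  set A : ℝ := 2 * T ^ (-(1 / 45000) : ℝ) with hA
  set Bq : ℝ := 32 * C1 * T ^ 4 with hBq
  -- bound for `|v| ≤ log T`
  have hsmall : ∀ v : ℝ, |v| ≤ Real.log T → ‖IJ_S k (k / t0) T (IJ_w v) C H‖ ≤ A := by
    intro v hv
    have hYb := hBS T ((le_max_right _ _).trans e5) k hk1 hk2 t0 ht1 ht2 (IJ_w v) (IJ_w_re v)
      (by rw [IJ_w_im]; exact hv) C H hC hH hHC hij
    have hY : Yc k (k / t0) (IJ_w v) C H = ∑ h ∈ Finset.Icc 1 ⌊2 * H⌋₊,
      ∑ c ∈ Finset.Icc 1 ⌊2 * C⌋₊, BS_w (IJ_w v) C H h c *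
        Bs k (k / t0) (IJ_w v) ((c : ℝ) / h) := rfl
    have hdiff : ‖IJ_S k (k / t0) T (IJ_w v) C H - Yc k (k / t0) (IJ_w v) C H‖ ≤
        2 * H * (2 * C * (2 * (C * H) ^ (-(1 / 2) : ℝ) * T ^ (-(3 / 5) : ℝ))) := by
      rw [hY]
      unfold IJ_S
      rw [← Finset.sum_sub_distrib]
      have hterm : ∀ h ∈ Finset.Icc 1 ⌊2 * H⌋₊, ∀ c ∈ Finset.Icc 1 ⌊2 * C⌋₊,
          ‖BS_w (IJ_w v) C H h c * IJ_I k (k / t0) T (IJ_w v) ((c : ℝ) / h) -
            BS_w (IJ_w v) C H h c * Bs k (k / t0) (IJ_w v) ((c : ℝ) / h)‖ ≤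
          2 * (C * H) ^ (-(1 / 2) : ℝ) * T ^ (-(3 / 5) : ℝ) := by
        intro h hh c hc
        rw [Finset.mem_Icc] at hh hc
        have hc1 : (1 : ℝ) ≤ c := by exact_mod_cast hc.1
        have hh1 : (1 : ℝ) ≤ h := by exact_mod_cast hh.1
        have hc2 : (c : ℝ) ≤ 2 * C := (Nat.le_floor_iff (by positivity)).1 hc.2
        have hh2 : (h : ℝ) ≤ 2 * H := (Nat.le_floor_iff (by positivity)).1 hh.2
        rw [← mul_sub, norm_mul]
        have hr2 : T ^ (2 : ℝ) = T ^ 2 := by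
          rw [show (2 : ℝ) = ((2 : ℕ) : ℝ) by norm_num, Real.rpow_natCast]
        have hy1 : T ^ (-2 : ℝ) ≤ (c : ℝ) / h := by
          rw [Real.rpow_neg hTpos.le, hr2, inv_eq_one_div,
            div_le_div_iff₀ (by positivity) (by positivity)]
          have q1 : (h : ℝ) ≤ T ^ 2 := hh2.trans hj
          have q2 : 0 ≤ T ^ 2 := by positivity
          nlinarith only [q1, q2, hc1]
        have hy2 : (c : ℝ) / h ≤ T ^ (2 : ℝ) := by
          rw [hr2, div_le_iff₀ (by positivity)]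
          have q1 : (c : ℝ) ≤ T ^ 2 := hc2.trans hi
          have q2 : 0 ≤ T ^ 2 := by positivity
          nlinarith only [q1, q2, hh1]
        have hb := hINN T ((le_max_left _ _).trans e5) k hk1 hkk t0 ht1 ht2 (IJ_w v)
          (by rw [IJ_w_re]; norm_num) (by rw [IJ_w_re]; norm_num)
          (by rw [IJ_w_im]; exact hv) ((c : ℝ) / h) hy1 hy2
        exact mul_le_mul (IJ_norm_w h4 (IJ_w v) (by rw [IJ_w_re]; norm_num) C H hC hH c h hc.1 hh.1)
          hb (norm_nonneg _) (by positivity)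
      have hq : 0 ≤ 2 * (C * H) ^ (-(1 / 2) : ℝ) * T ^ (-(3 / 5) : ℝ) := by positivity
      calc _ ≤ ∑ h ∈ Finset.Icc 1 ⌊2 * H⌋₊, ∑ c ∈ Finset.Icc 1 ⌊2 * C⌋₊,
            2 * (C * H) ^ (-(1 / 2) : ℝ) * T ^ (-(3 / 5) : ℝ) := by
            refine norm_sum_le_of_le _ fun h hh => ?_
            rw [← Finset.sum_sub_distrib]
            exact norm_sum_le_of_le _ fun c hc => hterm h hh c hc
        _ = ((Finset.Icc 1 ⌊2 * H⌋₊).card : ℝ) * (((Finset.Icc 1 ⌊2 * C⌋₊).card : ℝ) *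
            (2 * (C * H) ^ (-(1 / 2) : ℝ) * T ^ (-(3 / 5) : ℝ))) := by
            simp only [Finset.sum_const, nsmul_eq_mul]
        _ ≤ _ := by
            apply mul_le_mul (BS_card _ (by linarith)) _ (by positivity) (by linarith)
            exact mul_le_mul_of_nonneg_right (BS_card _ (by linarith)) hq
    have hd2 : 2 * H * (2 * C * (2 * (C * H) ^ (-(1 / 2) : ℝ) * T ^ (-(3 / 5) : ℝ))) ≤
        T ^ (-(1 / 45000) : ℝ) := by
      have hCHpos : 0 < C * H := by positivity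
      have q1 : 2 * H * (2 * C * (2 * (C * H) ^ (-(1 / 2) : ℝ) * T ^ (-(3 / 5) : ℝ))) =
          8 * (C * H) ^ (1 / 2 : ℝ) * T ^ (-(3 / 5) : ℝ) := by
        have : (C * H) ^ (1 / 2 : ℝ) = (C * H) * (C * H) ^ (-(1 / 2) : ℝ) := by
          nth_rewrite 2 [← Real.rpow_one (C * H)]
          rw [← Real.rpow_add hCHpos]
          norm_num
        rw [this]
        ring
      have q2 : (C * H) ^ (1 / 2 : ℝ) ≤ T ^ (1 / 2 + 1 / 200000 : ℝ) := by
        have := Real.rpow_le_rpow hCHpos.le hij (show (0 : ℝ) ≤ 1 / 2 by norm_num)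
        rw [← Real.rpow_mul hTpos.le] at this
        norm_num at this ⊢
        exact this
      rw [q1]
      calc 8 * (C * H) ^ (1 / 2 : ℝ) * T ^ (-(3 / 5) : ℝ)
          ≤ T ^ (1 / 20 : ℝ) * T ^ (1 / 2 + 1 / 200000 : ℝ) * T ^ (-(3 / 5) : ℝ) := by
            apply mul_le_mul_of_nonneg_right _ (by positivity)
            exact mul_le_mul e2 q2 (by positivity) (by positivity)
        _ = T ^ (1 / 20 + (1 / 2 + 1 / 200000) + -(3 / 5) : ℝ) := by
            rw [← Real.rpow_add hTpos, ← Real.rpow_add hTpos]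
        _ ≤ T ^ (-(1 / 45000) : ℝ) :=
            Real.rpow_le_rpow_of_exponent_le hT1' (by norm_num)
    have h7 := norm_sub_norm_le (IJ_S k (k / t0) T (IJ_w v) C H) (Yc k (k / t0) (IJ_w v) C H)
    rw [hA]
    linarith
  -- bound for all `v`
  have hall : ∀ v : ℝ, ‖IJ_S k (k / t0) T (IJ_w v) C H‖ ≤ Bq := by
    intro v
    have hq : 0 ≤ 16 * C1 * T ^ 2 := by positivity
    unfold IJ_S
    calc _ ≤ ∑ h ∈ Finset.Icc 1 ⌊2 * H⌋₊, ∑ c ∈ Finset.Icc 1 ⌊2 * C⌋₊, 16 * C1 * T ^ 2 := by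
          refine norm_sum_le_of_le _ fun h hh => norm_sum_le_of_le _ fun c hc => ?_
          rw [Finset.mem_Icc] at hh hc
          rw [norm_mul]
          have b1 := BS_norm_w h4 (IJ_w v) (by rw [IJ_w_re]; norm_num) C H c h hc.1 hh.1
          have b2 := IJ_I_bound hZ h6.1 C1 hC1 hCX k (k / t0) T hδ (by linarith) (IJ_w v)
            (IJ_w_re v) ((c : ℝ) / h)
          calc _ ≤ 1 * (16 * C1 * T ^ 2) := mul_le_mul b1 b2 (norm_nonneg _) (by norm_num)
            _ = _ := one_mul _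
      _ = ((Finset.Icc 1 ⌊2 * H⌋₊).card : ℝ) * (((Finset.Icc 1 ⌊2 * C⌋₊).card : ℝ) *
            (16 * C1 * T ^ 2)) := by
            simp only [Finset.sum_const, nsmul_eq_mul]
      _ ≤ 2 * H * (2 * C * (16 * C1 * T ^ 2)) := by
          apply mul_le_mul (BS_card _ (by linarith)) _ (by positivity) (by linarith)
          exact mul_le_mul_of_nonneg_right (BS_card _ (by linarith)) hq
      _ = (2 * (C * H)) * (32 * C1 * T ^ 2) := by ring
      _ ≤ T ^ 2 * (32 * C1 * T ^ 2) := mul_le_mul_of_nonneg_right hCH2 (by positivity)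
      _ = Bq := by rw [hBq]; ring
  -- the integral over `v`
  set R : ℝ := 3000000 * Bq * Real.exp (-(Real.log T ^ 2 / 2)) with hR
  have hgi : Integrable (fun v : ℝ => A * ‖ew (1 / 1000000) v‖ +
      R * Real.exp (-(1 / 2) * v ^ 2)) :=
    ((h1.2.2.2.1 _ (by norm_num)).const_mul A).add
      ((integrable_exp_neg_mul_sq (by norm_num : (0 : ℝ) < 1 / 2)).const_mul R)
  have hBq0 : 0 ≤ Bq := by rw [hBq]; positivity
  have hR0 : 0 ≤ R := by rw [hR]; positivity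
  have hA0 : 0 ≤ A := by rw [hA]; positivity
  have hpt : ∀ v : ℝ, ‖ew (1 / 1000000) v * IJ_S k (k / t0) T (IJ_w v) C H‖ ≤
      A * ‖ew (1 / 1000000) v‖ + R * Real.exp (-(1 / 2) * v ^ 2) := by
    intro v
    rw [norm_mul]
    by_cases hv : |v| ≤ Real.log T
    · have b1 := hsmall v hv
      have b2 : 0 ≤ R * Real.exp (-(1 / 2) * v ^ 2) := by positivity
      have b3 : ‖ew (1 / 1000000) v‖ * ‖IJ_S k (k / t0) T (IJ_w v) C H‖ ≤
          ‖ew (1 / 1000000) v‖ * A := mul_le_mul_of_nonneg_left b1 (norm_nonneg _)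
      linarith
    · push Not at hv
      have b1 := hall v
      have b2 := h1.2.2.2.2.2.1 (1 / 1000000) v (by norm_num) (by norm_num)
      have b3 : Real.exp (-(v ^ 2)) ≤
          Real.exp (-(Real.log T ^ 2 / 2)) * Real.exp (-(1 / 2) * v ^ 2) := by
        rw [← Real.exp_add]
        apply Real.exp_le_exp.2
        have : Real.log T ^ 2 ≤ v ^ 2 := by
          rw [← sq_abs v]
          have h8 : 0 ≤ Real.log T := by linarith only [e4]
          exact pow_le_pow_left₀ h8 hv.le 2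
        linarith only [this]
      have b4 : (3 : ℝ) / (1 / 1000000) = 3000000 := by norm_num
      rw [b4] at b2
      have b5 : 0 ≤ A * ‖ew (1 / 1000000) v‖ := by positivity
      calc ‖ew (1 / 1000000) v‖ * ‖IJ_S k (k / t0) T (IJ_w v) C H‖
          ≤ (3000000 * Real.exp (-(v ^ 2))) * Bq := mul_le_mul b2 b1 (norm_nonneg _) (by positivity)
        _ ≤ (3000000 * (Real.exp (-(Real.log T ^ 2 / 2)) * Real.exp (-(1 / 2) * v ^ 2))) * Bq := by
            apply mul_le_mul_of_nonneg_right _ hBq0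
            exact mul_le_mul_of_nonneg_left b3 (by norm_num)
        _ = R * Real.exp (-(1 / 2) * v ^ 2) := by rw [hR]; ring
        _ ≤ _ := by linarith
  have hint := norm_integral_le_of_norm_le hgi (Filter.Eventually.of_forall hpt)
  have hval : ∫ v : ℝ, (A * ‖ew (1 / 1000000) v‖ + R * Real.exp (-(1 / 2) * v ^ 2)) =
      A * J0 + R * √(Real.pi / (1 / 2)) := by
    rw [integral_add ((h1.2.2.2.1 _ (by norm_num)).const_mul A)
      ((integrable_exp_neg_mul_sq (by norm_num : (0 : ℝ) < 1 / 2)).const_mul R),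
      integral_const_mul, integral_const_mul, integral_gaussian]
  rw [hval] at hint
  have hsq : √(Real.pi / (1 / 2)) ≤ 3 := by
    rw [Real.sqrt_le_left (by norm_num)]
    have := Real.pi_lt_d2
    norm_num
    linarith
  have hRT : R * 3 ≤ T ^ (-(1 / 45000) : ℝ) := by
    have c1 : Real.exp (-(Real.log T ^ 2 / 2)) ≤ T ^ (-20 : ℝ) := by
      rw [Real.rpow_def_of_pos hTpos]
      apply Real.exp_le_exp.2
      nlinarith only [e4]
    have c3 : (288000000 : ℝ) ≤ T * T := by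
      have : (10000000 : ℝ) * 10000000 ≤ T * T := mul_le_mul e7 e7 (by norm_num) hTpos.le
      linarith only [this]
    calc R * 3 = 288000000 * C1 * T ^ 4 * Real.exp (-(Real.log T ^ 2 / 2)) := by
          rw [hR, hBq]; ring
      _ ≤ (T * T) * T * T ^ 4 * T ^ (-20 : ℝ) := by
          apply mul_le_mul _ c1 (by positivity) (by positivity)
          apply mul_le_mul_of_nonneg_right _ (by positivity)
          exact mul_le_mul c3 e6 hC1.le (by positivity)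
      _ = T ^ 7 * T ^ (-20 : ℝ) := by ring
      _ = T ^ (-13 : ℝ) := by
          rw [← Real.rpow_natCast, ← Real.rpow_add hTpos]
          norm_num
      _ ≤ T ^ (-(1 / 45000) : ℝ) := Real.rpow_le_rpow_of_exponent_le hT1' (by norm_num)
  have hfin : ‖∫ v : ℝ, ew (1 / 1000000) v * IJ_S k (k / t0) T (IJ_w v) C H‖ ≤
      T ^ (-(1 / 47000) : ℝ) := by
    refine hint.trans ?_
    have d1 : R * √(Real.pi / (1 / 2)) ≤ R * 3 := mul_le_mul_of_nonneg_left hsq hR0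
    have d2 : A * J0 + T ^ (-(1 / 45000) : ℝ) = (2 * J0 + 1) * T ^ (-(1 / 45000) : ℝ) := by
      rw [hA]; ring
    calc _ ≤ A * J0 + T ^ (-(1 / 45000) : ℝ) := by linarith
      _ = (2 * J0 + 1) * T ^ (-(1 / 45000) : ℝ) := d2
      _ ≤ T ^ (1 / 1100000 : ℝ) * T ^ (-(1 / 45000) : ℝ) :=
          mul_le_mul_of_nonneg_right e3 (by positivity)
      _ = T ^ (1 / 1100000 + -(1 / 45000) : ℝ) := by rw [← Real.rpow_add hTpos]
      _ ≤ T ^ (-(1 / 47000) : ℝ) := Real.rpow_le_rpow_of_exponent_le hT1' (by norm_num)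
  rw [norm_mul]
  have hpi : ‖(1 / (2 * Real.pi) : ℂ)‖ ≤ 1 := by
    have h8 : (1 / (2 * Real.pi) : ℂ) = ((1 / (2 * Real.pi) : ℝ) : ℂ) := by push_cast; ring
    rw [h8, Complex.norm_real, Real.norm_of_nonneg (by positivity), div_le_one (by positivity)]
    linarith only [Real.pi_gt_three]
  calc _ ≤ 1 * T ^ (-(1 / 47000) : ℝ) :=
        mul_le_mul hpi hfin (norm_nonneg _) (by norm_num)
    _ = _ := one_mul _

end

end Pool.Agent.H408R2.CM
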