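import Pool.Agent.H408R2.CM.Stubs

set_option autoImplicit false

/-! # INN: the inner integral -/

open Complex MeasureTheory Filter Topology

namespace Pool.Agent.H408R2.CM

open Pool.Agent.H304R4.CM

noncomputable section

theorem INN_osc_norm (y t : ℝ) : ‖osc y t‖ = 1 := by
  unfold osc
  exact Complex.norm_exp_ofReal_mul_I _

theorem INN_osc_cont (y : ℝ) : Continuous (osc y) := by
  unfold osc
  fun_prop

theorem INN_om_cont (k : ℕ) (δ : ℝ) : Continuous (om k δ) := by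
  unfold om
  fun_prop

theorem INN_om_nonneg (k : ℕ) (δ t : ℝ) (hδ : 0 ≤ δ) (ht : 0 ≤ t) : 0 ≤ om k δ t := by
  unfold om
  positivity

theorem INN (h1 : S_KA) (h2 : S_GT) (h3 : S_OT) (h4 : S_TW) (h5 : S_RS) (h6 : S_CX) (hZ : S_Z)
    (h7 : S_GZ) : S_INN := by
  obtain ⟨T1, hKA⟩ := h1
  obtain ⟨hGT, T2, hGT2⟩ := h2
  obtain ⟨hOT, -, -⟩ := h3
  obtain ⟨T3, hRS⟩ := h5
  obtain ⟨C, hC0, hCX⟩ := h6 (1 / 100) (by norm_num)
  obtain ⟨hZe, -, hZc, hthc, hzcc⟩ := hZ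
  obtain ⟨C', hC'0, hGZ⟩ := h7
  -- large T
  have ev1 : ∀ᶠ T : ℝ in atTop, 4 * C + 2 * C' + 2 * Real.pi ≤ T ^ (3 / 100 : ℝ) :=
    (tendsto_rpow_atTop (by norm_num : (0:ℝ) < 3 / 100)).eventually_ge_atTop _
  have ev2 : ∀ᶠ T : ℝ in atTop, (4:ℝ) ≤ T ^ (1 / 100 : ℝ) :=
    (tendsto_rpow_atTop (by norm_num : (0:ℝ) < 1 / 100)).eventually_ge_atTop 4
  obtain ⟨T4, hT4⟩ := eventually_atTop.1 (ev1.and (ev2.and (eventually_ge_atTop (2:ℝ))))
  refine ⟨max (max T1 T2) (max T3 T4), ?_⟩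
  intro T hT k hk1 hk2 t0 ht1 ht2 w hw0 hw1 hwi y hy1 hy2
  have hTT1 : T1 ≤ T := (le_max_left _ _).trans ((le_max_left _ _).trans hT)
  have hTT2 : T2 ≤ T := (le_max_right _ _).trans ((le_max_left _ _).trans hT)
  have hTT3 : T3 ≤ T := (le_max_left _ _).trans ((le_max_right _ _).trans hT)
  have hTT4 : T4 ≤ T := (le_max_right _ _).trans ((le_max_right _ _).trans hT)
  obtain ⟨hbig, h4', hT2⟩ := hT4 T hTT4
  have hTpos : 0 < T := by linarith
  have hT1 : 1 ≤ T := by linarith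
  have hw1' : w.re ≤ 1 := by linarith
  have ht0 : 0 < t0 := by linarith
  have hk0 : (0:ℝ) < k := lt_of_lt_of_le (by positivity) hk1
  have hk1' : 1 ≤ k := by
    have : (0:ℝ) < k := hk0
    exact_mod_cast this
  set δ : ℝ := k / t0 with hδ
  have hδ0 : 0 < δ := by positivity
  have hδ2 : δ < 1 / 2 := by
    rw [hδ, div_lt_iff₀ ht0]
    have e : T = T ^ (1 / 100 : ℝ) * T ^ (99 / 100 : ℝ) := by
      rw [← Real.rpow_add hTpos]; norm_num
    have h8 : T ^ (1 / 100 : ℝ) ≤ T ^ (99 / 100 : ℝ) :=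
      Real.rpow_le_rpow_of_exponent_le hT1 (by norm_num)
    have h9 : 4 * T ^ (1 / 100 : ℝ) ≤ T := by
      calc 4 * T ^ (1 / 100 : ℝ) ≤ T ^ (1 / 100 : ℝ) * T ^ (99 / 100 : ℝ) := by
            apply mul_le_mul h4' h8 (by positivity) (by positivity)
        _ = T := e.symm
    have h10 : 0 < T ^ (1 / 100 : ℝ) := by positivity
    linarith
  have hypos : 0 < y := lt_of_lt_of_le (by positivity) hy1
  -- facts about the kernel
  obtain ⟨hGint, hGcont⟩ := hGT k δ w hk1' hδ0 hδ2 hw0 hw1'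
  obtain ⟨htail1, htail2⟩ := hGT2 T hTT2 k hk1 hk2 t0 ht1 ht2 w hw0 hw1' hwi
  obtain ⟨-, hTW⟩ := h4 k δ w y hk1' hδ0 hδ2 hw0 hw1' hypos
  have hres := hRS T hTT3 k hk1 hk2 t0 ht1 ht2 w hw0 hw1' hwi
  -- the integrand
  set f : ℝ → ℂ := fun t => zc t * osc y t * Gw k δ w t with hf
  have hfc : Continuous f := (hzcc.mul (INN_osc_cont y)).mul hGcont
  have hfb : ∀ t, ‖f t‖ ≤ C' * (‖Gw k δ w t‖ * (1 + |t|) ^ 3) := by
    intro t
    simp only [hf, norm_mul, INN_osc_norm, mul_one]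
    have h8 := hGZ t
    have h9 : (1:ℝ) ≤ 1 + |t| := by linarith [abs_nonneg t]
    calc ‖zc t‖ * ‖Gw k δ w t‖ ≤ (C' * (1 + |t|) ^ 2) * ‖Gw k δ w t‖ := by gcongr
      _ ≤ (C' * (1 + |t|) ^ 3) * ‖Gw k δ w t‖ := by
          gcongr
          norm_num
      _ = _ := by ring
  have hfint : Integrable f := (hGint.const_mul C').mono' hfc.aestronglyMeasurable
    (Eventually.of_forall hfb)
  have hT24 : T / 2 ≤ 4 * T := by linarith
  have hsplit : ∫ t, f t = (∫ t in Set.Iio (T / 2), f t) + (∫ t in (T / 2)..(4 * T), f t) +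
      ∫ t in Set.Ioi (4 * T), f t := by
    rw [← intervalIntegral.integral_Iic_add_Ioi hfint.integrableOn hfint.integrableOn (b := 4 * T)]
    congr 1
    rw [intervalIntegral.integral_of_le hT24, ← integral_Iic_eq_integral_Iio,
      ← setIntegral_union _ measurableSet_Ioc hfint.integrableOn hfint.integrableOn]
    · rw [Set.Iic_union_Ioc_eq_Iic hT24]
    · rw [Set.disjoint_left]
      intro a ha hb
      exact absurd hb.1 (not_lt.mpr ha)
  have hta1 : ‖∫ t in Set.Iio (T / 2), f t‖ ≤ C' * T ^ (-10 : ℝ) := by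
    refine (norm_integral_le_integral_norm _).trans ?_
    calc ∫ t in Set.Iio (T / 2), ‖f t‖
        ≤ ∫ t in Set.Iio (T / 2), C' * (‖Gw k δ w t‖ * (1 + |t|) ^ 3) := by
          apply integral_mono_of_nonneg (Eventually.of_forall fun t => norm_nonneg _)
            (hGint.const_mul C').integrableOn (Eventually.of_forall hfb)
      _ = C' * ∫ t in Set.Iio (T / 2), ‖Gw k δ w t‖ * (1 + |t|) ^ 3 := integral_const_mul _ _
      _ ≤ C' * T ^ (-10 : ℝ) := by gcongr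
  have hta2 : ‖∫ t in Set.Ioi (4 * T), f t‖ ≤ C' * T ^ (-10 : ℝ) := by
    refine (norm_integral_le_integral_norm _).trans ?_
    calc ∫ t in Set.Ioi (4 * T), ‖f t‖
        ≤ ∫ t in Set.Ioi (4 * T), C' * (‖Gw k δ w t‖ * (1 + |t|) ^ 3) := by
          apply integral_mono_of_nonneg (Eventually.of_forall fun t => norm_nonneg _)
            (hGint.const_mul C').integrableOn (Eventually.of_forall hfb)
      _ = C' * ∫ t in Set.Ioi (4 * T), ‖Gw k δ w t‖ * (1 + |t|) ^ 3 := integral_const_mul _ _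
      _ ≤ C' * T ^ (-10 : ℝ) := by gcongr
  -- the error of the kernel
  set g : ℝ → ℂ := fun t => (om k δ t : ℂ) * (hZ t : ℂ) * osc y t *
      ((t / (2 * Real.pi) : ℝ) : ℂ) ^ w with hg
  have hgc : ContinuousOn g (Set.uIcc (T / 2) (4 * T)) := by
    rw [Set.uIcc_of_le hT24]
    apply ContinuousOn.mul
    · apply Continuous.continuousOn
      have h8 := INN_om_cont k δ
      have h9 := INN_osc_cont y
      fun_prop
    · intro t ht
      apply ContinuousAt.continuousWithinAt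
      have htp : 0 < t / (2 * Real.pi) := by
        have : 0 < t := by linarith [ht.1]
        positivity
      apply ContinuousAt.cpow
      · fun_prop
      · exact continuousAt_const
      · left; rw [Complex.ofReal_re]; exact htp
  have hfi : IntervalIntegrable f volume (T / 2) (4 * T) := hfc.intervalIntegrable _ _
  have hgi : IntervalIntegrable g volume (T / 2) (4 * T) := hgc.intervalIntegrable
  have homi : IntervalIntegrable (om k δ) volume (T / 2) (4 * T) :=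
    (INN_om_cont k δ).intervalIntegrable _ _
  have hom1 : ∫ t in (T / 2)..(4 * T), om k δ t ≤ 1 := by
    rw [intervalIntegral.integral_of_le hT24]
    obtain ⟨hoi, hov⟩ := hOT k δ hδ0
    rw [← hov]
    apply setIntegral_mono_set hoi
    · refine (ae_restrict_mem measurableSet_Ioi).mono fun t ht => ?_
      exact INN_om_nonneg k δ t hδ0.le (le_of_lt ht)
    · apply LE.le.eventuallyLE
      intro t ht
      exact lt_trans (by linarith) ht.1
  have hpt : ∀ t ∈ Set.Icc (T / 2) (4 * T), ‖g t - f t‖ ≤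
      C * (4 * T) ^ (1 / 4 + 1 / 100 : ℝ) * T ^ (-(9 / 10) + w.re) * om k δ t := by
    intro t ht
    have htpos : 0 < t := by linarith [ht.1]
    have ht1' : 1 ≤ t := by linarith [ht.1]
    have e1 : g t - f t = zc t * osc y t * ((om k δ t : ℂ) * theta t *
        ((t / (2 * Real.pi) : ℝ) : ℂ) ^ w - Gw k δ w t) := by
      simp only [hg, hf]
      rw [hZe t]
      ring
    rw [e1, norm_mul, norm_mul, INN_osc_norm, mul_one]
    have h8 := hKA T hTT1 k hk1' hk2 t0 ht1 ht2 w hw0 hw1' hwi t ht.1 ht.2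
    have h9 := hCX t ht1'
    have h10 : t ^ (1 / 4 + 1 / 100 : ℝ) ≤ (4 * T) ^ (1 / 4 + 1 / 100 : ℝ) :=
      Real.rpow_le_rpow htpos.le ht.2 (by norm_num)
    calc ‖zc t‖ * ‖(om k δ t : ℂ) * theta t * ((t / (2 * Real.pi) : ℝ) : ℂ) ^ w - Gw k δ w t‖
        ≤ (C * (4 * T) ^ (1 / 4 + 1 / 100 : ℝ)) * (T ^ (-(9 / 10) + w.re) * om k δ t) := by
          apply mul_le_mul (h9.trans (by gcongr)) h8 (norm_nonneg _) (by positivity)
      _ = _ := by ring
  have hE1 : ‖(∫ t in (T / 2)..(4 * T), g t) - ∫ t in (T / 2)..(4 * T), f t‖ ≤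
      C * (4 * T) ^ (1 / 4 + 1 / 100 : ℝ) * T ^ (-(9 / 10) + w.re) := by
    rw [← intervalIntegral.integral_sub hgi hfi]
    have h8 : ‖∫ t in (T / 2)..(4 * T), (g t - f t)‖ ≤ ∫ t in (T / 2)..(4 * T),
        C * (4 * T) ^ (1 / 4 + 1 / 100 : ℝ) * T ^ (-(9 / 10) + w.re) * om k δ t := by
      apply intervalIntegral.norm_integral_le_of_norm_le hT24 _ (homi.const_mul _)
      exact Eventually.of_forall fun t ht => hpt t ⟨ht.1.le, ht.2⟩
    refine h8.trans ?_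
    rw [intervalIntegral.integral_const_mul]
    have h9 : 0 ≤ C * (4 * T) ^ (1 / 4 + 1 / 100 : ℝ) * T ^ (-(9 / 10) + w.re) := by positivity
    calc _ ≤ C * (4 * T) ^ (1 / 4 + 1 / 100 : ℝ) * T ^ (-(9 / 10) + w.re) * 1 := by gcongr
      _ = _ := mul_one _
  have hE1' : C * (4 * T) ^ (1 / 4 + 1 / 100 : ℝ) * T ^ (-(9 / 10) + w.re) ≤
      4 * C * T ^ (-(63 / 100) : ℝ) := by
    have h8 : (4 * T) ^ (1 / 4 + 1 / 100 : ℝ) ≤ 4 * T ^ (1 / 4 + 1 / 100 : ℝ) := by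
      rw [Real.mul_rpow (by norm_num) hTpos.le]
      have : (4:ℝ) ^ (1 / 4 + 1 / 100 : ℝ) ≤ 4 ^ (1:ℝ) :=
        Real.rpow_le_rpow_of_exponent_le (by norm_num) (by norm_num)
      rw [Real.rpow_one] at this
      gcongr
    have h9 : T ^ (-(9 / 10) + w.re) ≤ T ^ (-(89 / 100) : ℝ) :=
      Real.rpow_le_rpow_of_exponent_le hT1 (by linarith)
    calc C * (4 * T) ^ (1 / 4 + 1 / 100 : ℝ) * T ^ (-(9 / 10) + w.re)
        ≤ C * (4 * T ^ (1 / 4 + 1 / 100 : ℝ)) * T ^ (-(89 / 100) : ℝ) := by gcongr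
      _ = 4 * C * (T ^ (1 / 4 + 1 / 100 : ℝ) * T ^ (-(89 / 100) : ℝ)) := by ring
      _ = 4 * C * T ^ (-(63 / 100) : ℝ) := by
          rw [← Real.rpow_add hTpos]; norm_num
  -- the residue
  have hR : ‖2 * Real.pi * ((y ^ (-(1 / 2) : ℝ) : ℝ) : ℂ) * cG k δ w *
      Complex.Gamma ((k : ℂ) + 3 / 4 + w) * bas (Real.tan (2 * δ)) ^ (-(1 / 4) : ℂ)‖ ≤
      2 * Real.pi * T ^ (-9 : ℝ) := by
    have e1 : 2 * Real.pi * ((y ^ (-(1 / 2) : ℝ) : ℝ) : ℂ) * cG k δ w *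
      Complex.Gamma ((k : ℂ) + 3 / 4 + w) * bas (Real.tan (2 * δ)) ^ (-(1 / 4) : ℂ) =
      ((2 * Real.pi * y ^ (-(1 / 2) : ℝ) : ℝ) : ℂ) * (cG k δ w *
      Complex.Gamma ((k : ℂ) + 3 / 4 + w) * bas (Real.tan (2 * δ)) ^ (-(1 / 4) : ℂ)) := by
      push_cast; ring
    rw [e1, norm_mul, Complex.norm_real, Real.norm_eq_abs, abs_of_nonneg (by positivity)]
    have h8 : y ^ (-(1 / 2) : ℝ) ≤ T := by
      calc y ^ (-(1 / 2) : ℝ) ≤ (T ^ (-2 : ℝ)) ^ (-(1 / 2) : ℝ) :=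
            Real.rpow_le_rpow_of_nonpos (by positivity) hy1 (by norm_num)
        _ = T := by
            rw [← Real.rpow_mul hTpos.le]; norm_num
    calc 2 * Real.pi * y ^ (-(1 / 2) : ℝ) * ‖cG k δ w *
      Complex.Gamma ((k : ℂ) + 3 / 4 + w) * bas (Real.tan (2 * δ)) ^ (-(1 / 4) : ℂ)‖
        ≤ 2 * Real.pi * T * T ^ (-10 : ℝ) := by gcongr
      _ = 2 * Real.pi * T ^ (-9 : ℝ) := by
          rw [mul_assoc, ← Real.rpow_one_add' hTpos.le (by norm_num)]; norm_num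
  -- conclusion
  have hkey : (∫ t in (T / 2)..(4 * T), g t) - Bs k δ w y =
      ((∫ t in (T / 2)..(4 * T), g t) - ∫ t in (T / 2)..(4 * T), f t) -
      (∫ t in Set.Iio (T / 2), f t) - (∫ t in Set.Ioi (4 * T), f t) -
      2 * Real.pi * ((y ^ (-(1 / 2) : ℝ) : ℝ) : ℂ) * cG k δ w *
      Complex.Gamma ((k : ℂ) + 3 / 4 + w) * bas (Real.tan (2 * δ)) ^ (-(1 / 4) : ℂ) := by
    have h8 : (∫ t in (T / 2)..(4 * T), f t) = (Bs k δ w y -
    2 * Real.pi * ((y ^ (-(1 / 2) : ℝ) : ℝ) : ℂ) * cG k δ w *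
      Complex.Gamma ((k : ℂ) + 3 / 4 + w) * bas (Real.tan (2 * δ)) ^ (-(1 / 4) : ℂ)) -
      (∫ t in Set.Iio (T / 2), f t) - (∫ t in Set.Ioi (4 * T), f t) := by
      rw [← hTW, hsplit]; ring
    rw [h8]; ring
  rw [hkey]
  have hm10 : T ^ (-10 : ℝ) ≤ T ^ (-(63 / 100) : ℝ) :=
    Real.rpow_le_rpow_of_exponent_le hT1 (by norm_num)
  have hm9 : T ^ (-9 : ℝ) ≤ T ^ (-(63 / 100) : ℝ) :=
    Real.rpow_le_rpow_of_exponent_le hT1 (by norm_num)
  have hfin : (4 * C + 2 * C' + 2 * Real.pi) * T ^ (-(63 / 100) : ℝ) ≤ T ^ (-(3 / 5) : ℝ) := by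
    calc (4 * C + 2 * C' + 2 * Real.pi) * T ^ (-(63 / 100) : ℝ)
        ≤ T ^ (3 / 100 : ℝ) * T ^ (-(63 / 100) : ℝ) := by gcongr
      _ = T ^ (-(3 / 5) : ℝ) := by rw [← Real.rpow_add hTpos]; norm_num
  refine le_trans ?_ hfin
  refine (norm_sub_le _ _).trans ?_
  refine (add_le_add_left (norm_sub_le _ _) _).trans ?_
  refine (add_le_add_left (add_le_add_left (norm_sub_le _ _) _) _).trans ?_
  have hC'10 : C' * T ^ (-10 : ℝ) ≤ C' * T ^ (-(63 / 100) : ℝ) := by gcongr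
  have hpi : 2 * Real.pi * T ^ (-9 : ℝ) ≤ 2 * Real.pi * T ^ (-(63 / 100) : ℝ) := by gcongr
  linarith

end

end Pool.Agent.H408R2.CM
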