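import Pool.Agent.H408R2.CM.Stubs

set_option autoImplicit false

/-! Task JB (helper311). -/

open Complex MeasureTheory Filter Topology

namespace Pool.Agent.H408R2.CM

open Pool.Agent.H304R4.CM

noncomputable section

theorem JB_ev (C a b : ℝ) (h : a < b) : ∀ᶠ T : ℝ in atTop, C * T ^ a ≤ T ^ b := by
  have h1 := (tendsto_rpow_atTop (sub_pos.mpr h)).eventually_ge_atTop C
  filter_upwards [h1, eventually_gt_atTop 0] with T h2 h3
  calc C * T ^ a ≤ T ^ (b - a) * T ^ a := mul_le_mul_of_nonneg_right h2 (by positivity)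
    _ = T ^ b := by rw [← Real.rpow_add h3]; congr 1; ring

theorem JB_log : ∀ᶠ T : ℝ in atTop,
    2 * (4 * Real.log T + 3) ^ 2 * T ^ (-(1 / 47000) : ℝ) ≤ 1 / 4 * T ^ (-(1 / 50000) : ℝ) := by
  have h1 := (isLittleO_log_rpow_atTop (by norm_num : (0:ℝ) < 1 / 10000000)).bound
    (by norm_num : (0:ℝ) < 1)
  have h2 := JB_ev (4 * 98) (-(1 / 47000) + 2 * (1 / 10000000)) (-(1 / 50000)) (by norm_num)
  filter_upwards [h1, h2, eventually_ge_atTop 1] with T h3 h4 h5
  have hT : 0 < T := by linarith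
  have hlog : 0 ≤ Real.log T := Real.log_nonneg h5
  rw [Real.norm_of_nonneg hlog, Real.norm_of_nonneg (by positivity), one_mul] at h3
  set e : ℝ := T ^ (1 / 10000000 : ℝ) with he
  have he1 : 1 ≤ e := Real.one_le_rpow h5 (by norm_num)
  have h6 : (4 * Real.log T + 3) ^ 2 ≤ 49 * e ^ 2 := by
    have : 4 * Real.log T + 3 ≤ 7 * e := by linarith
    calc (4 * Real.log T + 3) ^ 2 ≤ (7 * e) ^ 2 := pow_le_pow_left₀ (by linarith) this 2
      _ = 49 * e ^ 2 := by ring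
  have h7 : e ^ 2 * T ^ (-(1 / 47000) : ℝ) = T ^ (-(1 / 47000) + 2 * (1 / 10000000) : ℝ) := by
    rw [he, ← Real.rpow_natCast, ← Real.rpow_mul hT.le, ← Real.rpow_add hT]
    congr 1
    norm_num
  have h8 : 0 < T ^ (-(1 / 47000) : ℝ) := by positivity
  calc 2 * (4 * Real.log T + 3) ^ 2 * T ^ (-(1 / 47000) : ℝ)
      ≤ 2 * (49 * e ^ 2) * T ^ (-(1 / 47000) : ℝ) := by
        apply mul_le_mul_of_nonneg_right _ h8.le
        linarith
    _ = 98 * (e ^ 2 * T ^ (-(1 / 47000) : ℝ)) := by ring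
    _ = 1 / 4 * (4 * 98 * T ^ (-(1 / 47000) + 2 * (1 / 10000000) : ℝ)) := by rw [h7]; ring
    _ ≤ 1 / 4 * T ^ (-(1 / 50000) : ℝ) := by linarith

theorem JB_om_nonneg (k : ℕ) {δ t : ℝ} (hδ : 0 < δ) (ht : 0 ≤ t) : 0 ≤ om k δ t := by
  unfold om; positivity

theorem JB_om_cont (k : ℕ) (δ : ℝ) : Continuous (om k δ) := by
  unfold om; fun_prop

theorem JB_osc_cont (x : ℝ) : Continuous (osc x) := by
  unfold osc; fun_prop

theorem JB_osc_norm (x t : ℝ) : ‖osc x t‖ = 1 := by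
  unfold osc; exact Complex.norm_exp_ofReal_mul_I _

theorem JB_osc_conj {c h : ℝ} (hc : 0 < c) (hh : 0 < h) (t : ℝ) :
    (starRingEnd ℂ) (osc (c / h) t) = osc (h / c) t := by
  unfold osc
  rw [← Complex.exp_conj]
  congr 1
  rw [map_mul, Complex.conj_I, Complex.conj_ofReal, Real.log_div hc.ne' hh.ne',
    Real.log_div hh.ne' hc.ne']
  push_cast
  ring

/-- bound of an integral against the window -/
theorem JB_mid (h4 : S_OT) {T : ℝ} (hT : 0 < T) (k : ℕ) {δ : ℝ} (hδ : 0 < δ) {f : ℝ → ℂ} {M : ℝ}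
    (hM : 0 ≤ M) (hf : ∀ t, T / 2 ≤ t → t ≤ 4 * T → ‖f t‖ ≤ M) :
    ‖∫ t in (T / 2)..(4 * T), (om k δ t : ℂ) * f t‖ ≤ M := by
  have hab : T / 2 ≤ 4 * T := by linarith
  have h1 : ‖∫ t in (T / 2)..(4 * T), (om k δ t : ℂ) * f t‖ ≤
      ∫ t in (T / 2)..(4 * T), om k δ t * M := by
    apply intervalIntegral.norm_integral_le_of_norm_le hab
    · refine ae_of_all _ fun t ht => ?_
      have ht0 : 0 ≤ t := by linarith [ht.1]
      rw [norm_mul, Complex.norm_real, Real.norm_of_nonneg (JB_om_nonneg k hδ ht0)]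
      exact mul_le_mul_of_nonneg_left (hf t ht.1.le ht.2) (JB_om_nonneg k hδ ht0)
    · exact ((JB_om_cont k δ).mul continuous_const).intervalIntegrable _ _
  refine h1.trans ?_
  rw [intervalIntegral.integral_mul_const]
  have h2 : ∫ t in (T / 2)..(4 * T), om k δ t ≤ 1 := by
    rw [intervalIntegral.integral_of_le hab, ← (h4.1 k δ hδ).2]
    apply setIntegral_mono_set (h4.1 k δ hδ).1
    · filter_upwards [ae_restrict_mem measurableSet_Ioi] with t ht
      exact JB_om_nonneg k hδ (le_of_lt ht)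
    · refine Eventually.of_forall ?_
      intro t ht
      have := ht.1
      show 0 < t
      linarith
  calc (∫ t in (T / 2)..(4 * T), om k δ t) * M ≤ 1 * M := mul_le_mul_of_nonneg_right h2 hM
    _ = M := one_mul M

/-- continuity of the pieces -/
theorem JB_Dij_cont (h2 : S_V) {T : ℝ} (hT : 0 < T) (i j : ℕ) :
    ContinuousOn (Dij T i j) (Set.uIcc (T / 2) (4 * T)) := by
  have hab : T / 2 ≤ 4 * T := by linarith
  rw [Set.uIcc_of_le hab]
  unfold Dij
  apply continuousOn_finsetSum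
  intro c hc
  apply continuousOn_finsetSum
  intro h hh
  rw [Finset.mem_Icc] at hc hh
  have hc0 : (0:ℝ) < c := by exact_mod_cast hc.1
  have hh0 : (0:ℝ) < h := by exact_mod_cast hh.1
  apply ContinuousOn.mul continuousOn_const
  apply ContinuousOn.mul
  · exact (continuous_const.mul (JB_osc_cont _)).continuousOn
  · apply (h2.2.2.2.2.2.2).comp
    · apply ContinuousOn.div continuousOn_const continuousOn_id
      intro t ht
      have := ht.1
      simp only [id]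
      linarith
    · intro t ht
      have h3 : 0 < t := by linarith [ht.1]
      show 0 < 2 * Real.pi * (c * h) / t
      positivity

/-- swapping the two indices is complex conjugation -/
theorem JB_swap (h2 : S_V) {T : ℝ} (i j : ℕ) {t : ℝ} (ht : 0 < t) :
    (starRingEnd ℂ) (Dij T i j t) = Dij T j i t := by
  unfold Dij
  rw [map_sum, Finset.sum_congr rfl (fun c _ => map_sum _ _ _), Finset.sum_comm]
  apply Finset.sum_congr rfl
  intro c hc
  apply Finset.sum_congr rfl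
  intro h hh
  rw [Finset.mem_Icc] at hc hh
  have hc0 : (0:ℝ) < c := by exact_mod_cast hc.1
  have hh0 : (0:ℝ) < h := by exact_mod_cast hh.1
  rw [map_mul, map_mul, map_mul, Complex.conj_ofReal, Complex.conj_ofReal, JB_osc_conj hh0 hc0,
    h2.2.1 1 _ one_pos (by positivity)]
  rw [show (h:ℝ) * c = c * h by ring, show ww ((h:ℝ) / 2 ^ i) * ww ((c:ℝ) / 2 ^ j) =
    ww ((c:ℝ) / 2 ^ j) * ww ((h:ℝ) / 2 ^ i) by ring]

/-- far pieces are negligible -/
theorem JB_far (h7 : S_W1) {Cv : ℝ} (hCv : 0 < Cv)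
    (hv : ∀ x : ℝ, 0 < x → ‖VV 1 x‖ ≤ Cv * x ^ (-(1000000 : ℝ))) {T : ℝ} (hT : 1 ≤ T) (i j : ℕ)
    (hij : T ^ (1 + 1 / 100000 : ℝ) < (2 : ℝ) ^ i * 2 ^ j) {t : ℝ} (ht : T / 2 ≤ t)
    (ht4 : t ≤ 4 * T) :
    ‖Dij T i j t‖ ≤ T ^ (4 : ℝ) * (Cv * ((1 / 16 : ℝ) ^ (-(1000000 : ℝ)) * T ^ (-10 : ℝ))) := by
  have hT0 : 0 < T := by linarith
  have ht0 : 0 < t := by linarith
  set M : ℝ := Cv * ((1 / 16 : ℝ) ^ (-(1000000 : ℝ)) * T ^ (-10 : ℝ)) with hM
  have hM0 : 0 ≤ M := by positivity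
  have hterm : ∀ c ∈ Finset.Icc 1 ⌊T ^ 2⌋₊, ∀ h ∈ Finset.Icc 1 ⌊T ^ 2⌋₊,
      ‖((ww ((c : ℝ) / 2 ^ i) * ww ((h : ℝ) / 2 ^ j) : ℝ) : ℂ) *
        ((((c * h : ℝ) ^ (-(1 / 2) : ℝ) : ℝ) : ℂ) * osc ((c : ℝ) / h) t *
          VV 1 (2 * Real.pi * (c * h) / t))‖ ≤ M := by
    intro c hc h hh
    rw [Finset.mem_Icc] at hc hh
    have hc1 : (1:ℝ) ≤ c := by exact_mod_cast hc.1
    have hh1 : (1:ℝ) ≤ h := by exact_mod_cast hh.1
    have hc0 : (0:ℝ) < c := by linarith
    have hh0 : (0:ℝ) < h := by linarith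
    by_cases hw : ww ((c : ℝ) / 2 ^ i) * ww ((h : ℝ) / 2 ^ j) = 0
    · rw [hw, Complex.ofReal_zero, zero_mul, norm_zero]
      exact hM0
    · have hw1 : ww ((c : ℝ) / 2 ^ i) ≠ 0 := left_ne_zero_of_mul hw
      have hw2 : ww ((h : ℝ) / 2 ^ j) ≠ 0 := right_ne_zero_of_mul hw
      have e1 := (h7.2.1 _ hw1).1
      have e2 := (h7.2.1 _ hw2).1
      have p1 : (0:ℝ) < 2 ^ i := by positivity
      have p2 : (0:ℝ) < 2 ^ j := by positivity
      rw [le_div_iff₀ p1] at e1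
      rw [le_div_iff₀ p2] at e2
      have e3 : (2:ℝ) ^ i * 2 ^ j / 4 ≤ c * h := by
        have := mul_le_mul e1 e2 (by positivity) (by positivity)
        calc (2:ℝ) ^ i * 2 ^ j / 4 = (1 / 2 * 2 ^ i) * (1 / 2 * 2 ^ j) := by ring
          _ ≤ c * h := this
      have e4 : (1 / 16 : ℝ) * T ^ (1 / 100000 : ℝ) ≤ 2 * Real.pi * (c * h) / t := by
        rw [le_div_iff₀ ht0]
        have hp : 0 < T ^ (1 / 100000 : ℝ) := by positivity
        have e5 : T ^ (1 + 1 / 100000 : ℝ) = T * T ^ (1 / 100000 : ℝ) := by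
          rw [Real.rpow_add hT0, Real.rpow_one]
        rw [e5] at hij
        have hpi := Real.pi_gt_three
        have e6 : T * T ^ (1 / 100000 : ℝ) / 4 ≤ c * h := by linarith
        calc (1 / 16 : ℝ) * T ^ (1 / 100000 : ℝ) * t ≤
              (1 / 16 : ℝ) * T ^ (1 / 100000 : ℝ) * (4 * T) :=
              mul_le_mul_of_nonneg_left ht4 (by positivity)
          _ = T * T ^ (1 / 100000 : ℝ) / 4 := by ring
          _ ≤ c * h := e6
          _ ≤ 2 * Real.pi * (c * h) := by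
            have : 0 < (c:ℝ) * h := by positivity
            nlinarith
      have e7 : ‖VV 1 (2 * Real.pi * (c * h) / t)‖ ≤ M := by
        have hx : 0 < 2 * Real.pi * (c * h) / t := by positivity
        refine (hv _ hx).trans ?_
        rw [hM]
        apply mul_le_mul_of_nonneg_left _ hCv.le
        calc (2 * Real.pi * (c * h) / t) ^ (-(1000000 : ℝ)) ≤
              ((1 / 16 : ℝ) * T ^ (1 / 100000 : ℝ)) ^ (-(1000000 : ℝ)) :=
              Real.rpow_le_rpow_of_nonpos (by positivity) e4 (by norm_num)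
          _ = (1 / 16 : ℝ) ^ (-(1000000 : ℝ)) * T ^ (-10 : ℝ) := by
            rw [Real.mul_rpow (by norm_num) (by positivity), ← Real.rpow_mul hT0.le]
            congr 2
            norm_num
      have e8 : ‖((ww ((c : ℝ) / 2 ^ i) * ww ((h : ℝ) / 2 ^ j) : ℝ) : ℂ)‖ ≤ 1 := by
        rw [Complex.norm_real, Real.norm_of_nonneg (mul_nonneg (h7.2.2.1 _).1 (h7.2.2.1 _).1)]
        calc _ ≤ (1:ℝ) * 1 := mul_le_mul (h7.2.2.1 _).2 (h7.2.2.1 _).2 (h7.2.2.1 _).1 (by norm_num)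
          _ = 1 := by norm_num
      have e9 : ‖(((c * h : ℝ) ^ (-(1 / 2) : ℝ) : ℝ) : ℂ)‖ ≤ 1 := by
        rw [Complex.norm_real, Real.norm_of_nonneg (by positivity)]
        apply Real.rpow_le_one_of_one_le_of_nonpos _ (by norm_num)
        nlinarith
      rw [norm_mul, norm_mul, norm_mul, JB_osc_norm, mul_one]
      calc _ ≤ (1:ℝ) * (1 * M) := by
            apply mul_le_mul e8 _ (by positivity) (by norm_num)
            exact mul_le_mul e9 e7 (norm_nonneg _) (by norm_num)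
        _ = M := by ring
  unfold Dij
  have hcard : ((Finset.Icc 1 ⌊T ^ 2⌋₊).card : ℝ) ≤ T ^ 2 := by
    rw [Nat.card_Icc]
    simp only [Nat.add_sub_cancel]
    exact Nat.floor_le (by positivity)
  calc _ ≤ ∑ c ∈ Finset.Icc 1 ⌊T ^ 2⌋₊, ‖∑ h ∈ Finset.Icc 1 ⌊T ^ 2⌋₊,
        ((ww ((c : ℝ) / 2 ^ i) * ww ((h : ℝ) / 2 ^ j) : ℝ) : ℂ) *
        ((((c * h : ℝ) ^ (-(1 / 2) : ℝ) : ℝ) : ℂ) * osc ((c : ℝ) / h) t *
          VV 1 (2 * Real.pi * (c * h) / t))‖ := norm_sum_le _ _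
    _ ≤ ∑ c ∈ Finset.Icc 1 ⌊T ^ 2⌋₊, ∑ h ∈ Finset.Icc 1 ⌊T ^ 2⌋₊, M := by
        apply Finset.sum_le_sum
        intro c hc
        refine (norm_sum_le _ _).trans ?_
        exact Finset.sum_le_sum (fun h hh => hterm c hc h hh)
    _ = ((Finset.Icc 1 ⌊T ^ 2⌋₊).card : ℝ) * (((Finset.Icc 1 ⌊T ^ 2⌋₊).card : ℝ) * M) := by
        rw [Finset.sum_const, Finset.sum_const, nsmul_eq_mul, nsmul_eq_mul]
    _ ≤ T ^ 2 * (T ^ 2 * M) := by
        apply mul_le_mul hcard _ (by positivity) (by positivity)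
        exact mul_le_mul_of_nonneg_right hcard hM0
    _ = T ^ (4:ℝ) * M := by
        rw [show (4:ℝ) = ((4:ℕ):ℝ) by norm_num, Real.rpow_natCast]
        ring

/-- the partition of unity -/
theorem JB_part (h7 : S_W1) {T : ℝ} (hT : 1 ≤ T) (L : ℕ) (hL : T ^ 2 ≤ 2 ^ L) (t : ℝ) :
    D2 T t = ∑ i ∈ Finset.range (L + 1), ∑ j ∈ Finset.range (L + 1), Dij T i j t := by
  have hone : ∀ c ∈ Finset.Icc 1 ⌊T ^ 2⌋₊,
      ∑ l ∈ Finset.range (L + 1), ww ((c : ℝ) / 2 ^ l) = 1 := by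
    intro c hc
    rw [Finset.mem_Icc] at hc
    apply h7.2.2.2
    · exact_mod_cast hc.1
    · have : (c:ℝ) ≤ ⌊T ^ 2⌋₊ := by exact_mod_cast hc.2
      exact (this.trans (Nat.floor_le (by positivity))).trans hL
  unfold Dij D2
  -- reorder the sums
  have e1 : ∀ i ∈ Finset.range (L + 1), ∑ j ∈ Finset.range (L + 1),
      ∑ c ∈ Finset.Icc 1 ⌊T ^ 2⌋₊, ∑ h ∈ Finset.Icc 1 ⌊T ^ 2⌋₊,
        ((ww ((c : ℝ) / 2 ^ i) * ww ((h : ℝ) / 2 ^ j) : ℝ) : ℂ) *
        ((((c * h : ℝ) ^ (-(1 / 2) : ℝ) : ℝ) : ℂ) * osc ((c : ℝ) / h) t *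
          VV 1 (2 * Real.pi * (c * h) / t)) =
      ∑ c ∈ Finset.Icc 1 ⌊T ^ 2⌋₊, ∑ h ∈ Finset.Icc 1 ⌊T ^ 2⌋₊,
        ((ww ((c : ℝ) / 2 ^ i) : ℝ) : ℂ) *
        ((((c * h : ℝ) ^ (-(1 / 2) : ℝ) : ℝ) : ℂ) * osc ((c : ℝ) / h) t *
          VV 1 (2 * Real.pi * (c * h) / t)) := by
    intro i _
    rw [Finset.sum_comm]
    apply Finset.sum_congr rfl
    intro c hc
    rw [Finset.sum_comm]
    apply Finset.sum_congr rfl
    intro h hh
    rw [← Finset.sum_mul]
    congr 1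
    have := hone h hh
    calc ∑ j ∈ Finset.range (L + 1), ((ww ((c : ℝ) / 2 ^ i) * ww ((h : ℝ) / 2 ^ j) : ℝ) : ℂ)
        = ((ww ((c : ℝ) / 2 ^ i) * ∑ j ∈ Finset.range (L + 1), ww ((h : ℝ) / 2 ^ j) : ℝ) : ℂ) := by
          rw [Finset.mul_sum]
          push_cast
          rfl
      _ = _ := by rw [this, mul_one]
  rw [Finset.sum_congr rfl e1]
  symm
  rw [Finset.sum_comm]
  apply Finset.sum_congr rfl
  intro c hc
  rw [Finset.sum_comm]
  apply Finset.sum_congr rfl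
  intro h hh
  rw [← Finset.sum_mul]
  have := hone c hc
  have e2 : ∑ i ∈ Finset.range (L + 1), ((ww ((c : ℝ) / 2 ^ i) : ℝ) : ℂ) = 1 := by
    rw [← Complex.ofReal_sum, this, Complex.ofReal_one]
  rw [e2, one_mul]

theorem JB (h1 : S_AFE) (h2 : S_V) (h3 : S_CX) (h4 : S_OT) (h5 : S_IJ) (hZ : S_Z) (h6 : S_GZ)
    (h7 : S_W1) : S_JB := by
  obtain ⟨C6, hC6, h6⟩ := h6
  obtain ⟨C3, hC3, h3⟩ := h3 (1 / 100) (by norm_num)
  obtain ⟨T1, h1⟩ := h1 (1 / 100) (by norm_num)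
  obtain ⟨Cv, hCv, hv⟩ := h2.2.2.1 1000000 (by norm_num)
  obtain ⟨T4, h4'⟩ := h4.2.2
  obtain ⟨T5, h5⟩ := h5
  -- the conditions on `T`
  have E1 := JB_ev (4 * (2 * C6 ^ 3)) (-10) (-(1 / 50000)) (by norm_num)
  have E2 := JB_ev (4 * (C3 * 4 ^ (1 / 4 + 1 / 100 : ℝ)))
    ((1 / 4 + 1 / 100) + (-(2 / 5) + 1 / 100)) (-(1 / 50000)) (by norm_num)
  have E3 := JB_log
  have E4 := JB_ev (C3 * 4 ^ (1 / 4 + 1 / 100 : ℝ) * (Cv * (1 / 16 : ℝ) ^ (-(1000000 : ℝ))))
    ((1 / 4 + 1 / 100) + 4 - 10) (-(1 / 47000)) (by norm_num)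
  have E5 := JB_ev 2 (1 / 1000000) (1 / 100) (by norm_num)
  obtain ⟨T9, h9⟩ := eventually_atTop.mp (E1.and (E2.and (E3.and (E4.and E5))))
  refine ⟨max (max T1 T4) (max (max T5 T9) 2), ?_⟩
  intro T hTT k hk hk2 t0 ht0 ht02
  have hT1 : T1 ≤ T := le_trans (le_trans (le_max_left _ _) (le_max_left _ _)) hTT
  have hT4 : T4 ≤ T := le_trans (le_trans (le_max_right _ _) (le_max_left _ _)) hTT
  have hT5 : T5 ≤ T :=
    le_trans (le_trans (le_trans (le_max_left _ _) (le_max_left _ _)) (le_max_right _ _)) hTT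
  have hT9 : T9 ≤ T :=
    le_trans (le_trans (le_trans (le_max_right _ _) (le_max_left _ _)) (le_max_right _ _)) hTT
  have hT2 : 2 ≤ T := le_trans (le_trans (le_max_right _ _) (le_max_right _ _)) hTT
  have hT0 : 0 < T := by linarith
  have hTone : 1 ≤ T := by linarith
  obtain ⟨E1, E2, E3, E4, E5⟩ := h9 T hT9
  have hk0 : (0:ℝ) < k := lt_of_lt_of_le (by positivity) hk
  have ht00 : 0 < t0 := by linarith
  set δ : ℝ := k / t0 with hδdef
  have hδ : 0 < δ := by positivity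
  have hkl : (k:ℝ) ≤ T ^ (1 / 100 : ℝ) := hk2.trans E5
  obtain ⟨tl, tr⟩ := h4' T hT4 k hk hkl t0 ht0 ht02
  rw [← hδdef] at tl tr
  obtain ⟨hZ1, hZ2, hZc, -, hzc⟩ := hZ
  -- integrability
  have hom6 := h4.2.1 k δ hδ
  have hcub : ∀ t : ℝ, |Pool.Agent.H304R4.CM.hZ t ^ 3| ≤ C6 ^ 3 * (1 + |t|) ^ 6 := by
    intro t
    rw [abs_pow, hZ2]
    calc ‖zc t‖ ^ 3 ≤ (C6 * (1 + |t|) ^ 2) ^ 3 := pow_le_pow_left₀ (norm_nonneg _) (h6 t) 3
      _ = C6 ^ 3 * (1 + |t|) ^ 6 := by ring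
  have hcont : Continuous (fun t => om k δ t * Pool.Agent.H304R4.CM.hZ t ^ 3) :=
    (JB_om_cont k δ).mul (hZc.pow 3)
  have hbd : ∀ t, 0 < t → ‖om k δ t * Pool.Agent.H304R4.CM.hZ t ^ 3‖ ≤
      C6 ^ 3 * (om k δ t * (1 + t) ^ 6) := by
    intro t ht
    have := hcub t
    rw [abs_of_pos ht] at this
    rw [norm_mul, Real.norm_of_nonneg (JB_om_nonneg k hδ ht.le), Real.norm_eq_abs]
    calc om k δ t * |Pool.Agent.H304R4.CM.hZ t ^ 3| ≤ om k δ t * (C6 ^ 3 * (1 + t) ^ 6) :=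
          mul_le_mul_of_nonneg_left this (JB_om_nonneg k hδ ht.le)
      _ = _ := by ring
  have hint : IntegrableOn (fun t => om k δ t * Pool.Agent.H304R4.CM.hZ t ^ 3) (Set.Ioi 0) := by
    refine Integrable.mono' (hom6.const_mul (C6 ^ 3)) hcont.aestronglyMeasurable ?_
    filter_upwards [ae_restrict_mem measurableSet_Ioi] with t ht
    exact hbd t ht
  -- splitting
  have hsplit : ∫ t in Set.Ioi (0:ℝ), om k δ t * Pool.Agent.H304R4.CM.hZ t ^ 3 =
      (∫ t in Set.Ioo (0:ℝ) (T / 2), om k δ t * Pool.Agent.H304R4.CM.hZ t ^ 3) +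
      ((∫ t in (T / 2)..(4 * T), om k δ t * Pool.Agent.H304R4.CM.hZ t ^ 3) +
      ∫ t in Set.Ioi (4 * T), om k δ t * Pool.Agent.H304R4.CM.hZ t ^ 3) := by
    have s1 : Set.Ioi (0:ℝ) = Set.Ioc 0 (T / 2) ∪ Set.Ioi (T / 2) :=
      (Set.Ioc_union_Ioi_eq_Ioi (by linarith)).symm
    have s2 : Set.Ioi (T / 2) = Set.Ioc (T / 2) (4 * T) ∪ Set.Ioi (4 * T) :=
      (Set.Ioc_union_Ioi_eq_Ioi (by linarith)).symm
    have i1 : IntegrableOn (fun t => om k δ t * Pool.Agent.H304R4.CM.hZ t ^ 3)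
        (Set.Ioc 0 (T / 2)) := hint.mono_set Set.Ioc_subset_Ioi_self
    have i2 : IntegrableOn (fun t => om k δ t * Pool.Agent.H304R4.CM.hZ t ^ 3)
        (Set.Ioi (T / 2)) := hint.mono_set (Set.Ioi_subset_Ioi (by linarith))
    have i3 : IntegrableOn (fun t => om k δ t * Pool.Agent.H304R4.CM.hZ t ^ 3)
        (Set.Ioc (T / 2) (4 * T)) := i2.mono_set Set.Ioc_subset_Ioi_self
    have i4 : IntegrableOn (fun t => om k δ t * Pool.Agent.H304R4.CM.hZ t ^ 3)
        (Set.Ioi (4 * T)) := hint.mono_set (Set.Ioi_subset_Ioi (by linarith))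
    rw [s1, setIntegral_union (Set.disjoint_left.mpr fun x hx hx2 => by
      have a1 := hx.2
      have a2 : T / 2 < x := hx2
      linarith) measurableSet_Ioi i1 i2]
    rw [s2, setIntegral_union (Set.disjoint_left.mpr fun x hx hx2 => by
      have a1 := hx.2
      have a2 : 4 * T < x := hx2
      linarith) measurableSet_Ioi i3 i4]
    rw [intervalIntegral.integral_of_le (by linarith : T / 2 ≤ 4 * T), integral_Ioc_eq_integral_Ioo]
  -- tails
  have tail1 : |∫ t in Set.Ioo (0:ℝ) (T / 2), om k δ t * Pool.Agent.H304R4.CM.hZ t ^ 3| ≤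
      C6 ^ 3 * T ^ (-10 : ℝ) := by
    rw [← Real.norm_eq_abs]
    refine (norm_integral_le_of_norm_le
      ((hom6.mono_set Set.Ioo_subset_Ioi_self).const_mul (C6 ^ 3)) ?_).trans ?_
    · filter_upwards [ae_restrict_mem measurableSet_Ioo] with t ht
      exact hbd t ht.1
    · rw [integral_const_mul]
      exact mul_le_mul_of_nonneg_left tl (by positivity)
  have tail2 : |∫ t in Set.Ioi (4 * T), om k δ t * Pool.Agent.H304R4.CM.hZ t ^ 3| ≤
      C6 ^ 3 * T ^ (-10 : ℝ) := by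
    rw [← Real.norm_eq_abs]
    refine (norm_integral_le_of_norm_le
      ((hom6.mono_set (Set.Ioi_subset_Ioi (by linarith : (0:ℝ) ≤ 4 * T))).const_mul (C6 ^ 3))
      ?_).trans ?_
    · filter_upwards [ae_restrict_mem measurableSet_Ioi] with t ht
      exact hbd t (by
        have : 4 * T < t := ht
        linarith)
    · rw [integral_const_mul]
      exact mul_le_mul_of_nonneg_left tr (by positivity)
  -- bound of `hZ` in the middle
  set MZ : ℝ := C3 * 4 ^ (1 / 4 + 1 / 100 : ℝ) * T ^ (1 / 4 + 1 / 100 : ℝ) with hMZ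
  have hMZ0 : 0 < MZ := by positivity
  have hzb : ∀ t, T / 2 ≤ t → t ≤ 4 * T → |Pool.Agent.H304R4.CM.hZ t| ≤ MZ := by
    intro t ht ht4
    rw [hZ2]
    refine (h3 t (by linarith)).trans ?_
    rw [hMZ, mul_assoc, ← Real.mul_rpow (by norm_num) hT0.le]
    apply mul_le_mul_of_nonneg_left _ hC3.le
    exact Real.rpow_le_rpow (by linarith) ht4 (by norm_num)
  -- the number of dyadic scales
  obtain ⟨L, hL1, hL2⟩ : ∃ L : ℕ, T ^ 2 ≤ 2 ^ L ∧ (L:ℝ) + 1 ≤ 4 * Real.log T + 3 := by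
    refine ⟨⌈Real.logb 2 (T ^ 2)⌉₊, ?_, ?_⟩
    · have a1 := Nat.le_ceil (Real.logb 2 (T ^ 2))
      have a2 : (2:ℝ) ^ Real.logb 2 (T ^ 2) = T ^ 2 :=
        Real.rpow_logb (by norm_num) (by norm_num) (by positivity)
      calc T ^ 2 = (2:ℝ) ^ Real.logb 2 (T ^ 2) := a2.symm
        _ ≤ (2:ℝ) ^ ((⌈Real.logb 2 (T ^ 2)⌉₊ : ℕ) : ℝ) :=
          Real.rpow_le_rpow_of_exponent_le (by norm_num : (1:ℝ) ≤ 2) a1
        _ = (2:ℝ) ^ ⌈Real.logb 2 (T ^ 2)⌉₊ := Real.rpow_natCast _ _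
    · have a0 : 0 ≤ Real.log T := Real.log_nonneg hTone
      have a1 : 0 ≤ Real.logb 2 (T ^ 2) :=
        Real.logb_nonneg (by norm_num) (one_le_pow₀ hTone)
      have a2 := (Nat.ceil_lt_add_one a1).le
      have a3 : Real.logb 2 (T ^ 2) ≤ 4 * Real.log T := by
        rw [← Real.log_div_log, Real.log_pow, div_le_iff₀ (Real.log_pos (by norm_num))]
        have := Real.log_two_gt_d9
        push_cast
        nlinarith
      linarith
  -- each piece
  have hDc := fun i j => JB_Dij_cont h2 hT0 i j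
  have hpiece : ∀ i j : ℕ, ‖∫ t in (T / 2)..(4 * T), (om k δ t : ℂ) *
      (Pool.Agent.H304R4.CM.hZ t : ℂ) * Dij T i j t‖ ≤ T ^ (-(1 / 47000) : ℝ) := by
    have hcl : ∀ i j : ℕ, j ≤ i → ‖∫ t in (T / 2)..(4 * T), (om k δ t : ℂ) *
      (Pool.Agent.H304R4.CM.hZ t : ℂ) * Dij T i j t‖ ≤ T ^ (-(1 / 47000) : ℝ) := by
      intro i j hij
      rcases le_or_gt ((2 : ℝ) ^ i * 2 ^ j) (T ^ (1 + 1 / 100000 : ℝ)) with hle | hgt
      · exact h5 T hT5 k hk hk2 t0 ht0 ht02 i j hij hle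
      · have hb := JB_mid h4 hT0 k hδ
          (f := fun t => (Pool.Agent.H304R4.CM.hZ t : ℂ) * Dij T i j t)
          (M := MZ * (T ^ (4 : ℝ) * (Cv * ((1 / 16 : ℝ) ^ (-(1000000 : ℝ)) * T ^ (-10 : ℝ)))))
          (by positivity) (by
            intro t ht ht4
            rw [norm_mul, Complex.norm_real, Real.norm_eq_abs]
            exact mul_le_mul (hzb t ht ht4) (JB_far h7 hCv hv hTone i j hgt ht ht4)
              (norm_nonneg _) hMZ0.le)
        simp only [← mul_assoc] at hb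
        refine (by simpa only [mul_assoc] using hb : _ ≤ _).trans ?_
        refine le_trans (le_of_eq ?_) E4
        rw [hMZ, show ((1 / 4 + 1 / 100) + 4 - 10 : ℝ) = (1 / 4 + 1 / 100) + (4 + -10) by ring,
          Real.rpow_add hT0 (1 / 4 + 1 / 100), Real.rpow_add hT0 4 (-10)]
        ring
    intro i j
    rcases le_total j i with hij | hij
    · exact hcl i j hij
    · have e1 : ∫ t in (T / 2)..(4 * T), (om k δ t : ℂ) *
          (Pool.Agent.H304R4.CM.hZ t : ℂ) * Dij T i j t =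
          (starRingEnd ℂ) (∫ t in (T / 2)..(4 * T), (om k δ t : ℂ) *
          (Pool.Agent.H304R4.CM.hZ t : ℂ) * Dij T j i t) := by
        rw [intervalIntegral.integral_of_le (by linarith : T / 2 ≤ 4 * T),
          intervalIntegral.integral_of_le (by linarith : T / 2 ≤ 4 * T), ← integral_conj]
        apply setIntegral_congr_fun measurableSet_Ioc
        intro t ht
        have ht0 : 0 < t := by linarith [ht.1]
        simp only [map_mul, Complex.conj_ofReal]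
        rw [JB_swap h2 j i ht0]
      rw [e1, RCLike.norm_conj]
      exact hcl j i hij
  -- the main term
  have hmain : ‖∫ t in (T / 2)..(4 * T), (om k δ t : ℂ) *
      (Pool.Agent.H304R4.CM.hZ t : ℂ) * D2 T t‖ ≤
      (4 * Real.log T + 3) ^ 2 * T ^ (-(1 / 47000) : ℝ) := by
    have hii : ∀ i j : ℕ, IntervalIntegrable (fun t => (om k δ t : ℂ) *
        (Pool.Agent.H304R4.CM.hZ t : ℂ) * Dij T i j t) volume (T / 2) (4 * T) := by
      intro i j
      apply ContinuousOn.intervalIntegrable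
      apply ContinuousOn.mul _ (hDc i j)
      exact ((Complex.continuous_ofReal.comp (JB_om_cont k δ)).mul
        (Complex.continuous_ofReal.comp hZc)).continuousOn
    have hii2 : ∀ i : ℕ, IntervalIntegrable (fun t => ∑ j ∈ Finset.range (L + 1),
        (om k δ t : ℂ) * (Pool.Agent.H304R4.CM.hZ t : ℂ) * Dij T i j t) volume
        (T / 2) (4 * T) := by
      intro i
      apply ContinuousOn.intervalIntegrable
      apply continuousOn_finsetSum
      intro j _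
      apply ContinuousOn.mul _ (hDc i j)
      exact ((Complex.continuous_ofReal.comp (JB_om_cont k δ)).mul
        (Complex.continuous_ofReal.comp hZc)).continuousOn
    have e1 : ∀ t, (om k δ t : ℂ) * (Pool.Agent.H304R4.CM.hZ t : ℂ) * D2 T t =
        ∑ i ∈ Finset.range (L + 1), ∑ j ∈ Finset.range (L + 1),
          (om k δ t : ℂ) * (Pool.Agent.H304R4.CM.hZ t : ℂ) * Dij T i j t := by
      intro t
      rw [JB_part h7 hTone L hL1 t, Finset.mul_sum]
      apply Finset.sum_congr rfl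
      intro i _
      rw [Finset.mul_sum]
    simp only [e1]
    rw [intervalIntegral.integral_finsetSum (fun i _ => hii2 i)]
    have e2 : ∀ i ∈ Finset.range (L + 1), (∫ t in (T / 2)..(4 * T),
        ∑ j ∈ Finset.range (L + 1),
          (om k δ t : ℂ) * (Pool.Agent.H304R4.CM.hZ t : ℂ) * Dij T i j t) =
        ∑ j ∈ Finset.range (L + 1), ∫ t in (T / 2)..(4 * T),
          (om k δ t : ℂ) * (Pool.Agent.H304R4.CM.hZ t : ℂ) * Dij T i j t := by
      intro i _
      exact intervalIntegral.integral_finsetSum (fun j _ => hii i j)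
    rw [Finset.sum_congr rfl e2]
    calc _ ≤ ∑ i ∈ Finset.range (L + 1), ∑ j ∈ Finset.range (L + 1), T ^ (-(1 / 47000) : ℝ) := by
          refine (norm_sum_le _ _).trans (Finset.sum_le_sum fun i _ => ?_)
          exact (norm_sum_le _ _).trans (Finset.sum_le_sum fun j _ => hpiece i j)
      _ = ((L:ℝ) + 1) ^ 2 * T ^ (-(1 / 47000) : ℝ) := by
          rw [Finset.sum_const, Finset.sum_const, Finset.card_range, nsmul_eq_mul, nsmul_eq_mul]
          push_cast
          ring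
      _ ≤ _ := by
          apply mul_le_mul_of_nonneg_right _ (by positivity)
          exact pow_le_pow_left₀ (by positivity) hL2 2
  -- the error term
  have herr : ‖∫ t in (T / 2)..(4 * T), (om k δ t : ℂ) *
      ((Pool.Agent.H304R4.CM.hZ t : ℂ) * (((‖zc t‖ ^ 2 : ℝ) : ℂ) - 2 * D2 T t))‖ ≤
      MZ * T ^ (-(2 / 5) + 1 / 100 : ℝ) := by
    apply JB_mid h4 hT0 k hδ (by positivity)
    intro t ht ht4
    rw [norm_mul, Complex.norm_real, Real.norm_eq_abs]
    exact mul_le_mul (hzb t ht ht4) (h1 T hT1 t ht ht4) (norm_nonneg _) hMZ0.le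
  have hD2c : ContinuousOn (D2 T) (Set.uIcc (T / 2) (4 * T)) := by
    have : D2 T = fun t => ∑ i ∈ Finset.range (L + 1), ∑ j ∈ Finset.range (L + 1),
        Dij T i j t := by
      funext t
      exact JB_part h7 hTone L hL1 t
    rw [this]
    exact continuousOn_finsetSum _ fun i _ => continuousOn_finsetSum _ fun j _ => hDc i j
  have hmid : |∫ t in (T / 2)..(4 * T), om k δ t * Pool.Agent.H304R4.CM.hZ t ^ 3| ≤
      MZ * T ^ (-(2 / 5) + 1 / 100 : ℝ) +
        2 * ((4 * Real.log T + 3) ^ 2 * T ^ (-(1 / 47000) : ℝ)) := by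
    have e1 : ((∫ t in (T / 2)..(4 * T), om k δ t * Pool.Agent.H304R4.CM.hZ t ^ 3 : ℝ) : ℂ) =
        (∫ t in (T / 2)..(4 * T), (om k δ t : ℂ) *
          ((Pool.Agent.H304R4.CM.hZ t : ℂ) * (((‖zc t‖ ^ 2 : ℝ) : ℂ) - 2 * D2 T t))) +
        2 * ∫ t in (T / 2)..(4 * T), (om k δ t : ℂ) *
          (Pool.Agent.H304R4.CM.hZ t : ℂ) * D2 T t := by
      rw [← intervalIntegral.integral_ofReal, ← intervalIntegral.integral_const_mul,
        ← intervalIntegral.integral_add]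
      · apply intervalIntegral.integral_congr
        intro t _
        simp only
        have : ‖zc t‖ ^ 2 = Pool.Agent.H304R4.CM.hZ t ^ 2 := by rw [← hZ2, sq_abs]
        rw [this]
        push_cast
        ring
      · apply ContinuousOn.intervalIntegrable
        apply ContinuousOn.mul
        · exact (Complex.continuous_ofReal.comp (JB_om_cont k δ)).continuousOn
        · apply ContinuousOn.mul
          · exact (Complex.continuous_ofReal.comp hZc).continuousOn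
          · apply ContinuousOn.sub
            · exact (Complex.continuous_ofReal.comp (hzc.norm.pow 2)).continuousOn
            · exact continuousOn_const.mul hD2c
      · apply ContinuousOn.intervalIntegrable
        apply ContinuousOn.mul continuousOn_const
        apply ContinuousOn.mul _ hD2c
        exact ((Complex.continuous_ofReal.comp (JB_om_cont k δ)).mul
          (Complex.continuous_ofReal.comp hZc)).continuousOn
    have e2 : |∫ t in (T / 2)..(4 * T), om k δ t * Pool.Agent.H304R4.CM.hZ t ^ 3| =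
        ‖((∫ t in (T / 2)..(4 * T), om k δ t * Pool.Agent.H304R4.CM.hZ t ^ 3 : ℝ) : ℂ)‖ := by
      rw [Complex.norm_real, Real.norm_eq_abs]
    rw [e2, e1]
    refine (norm_add_le _ _).trans (add_le_add herr ?_)
    rw [norm_mul]
    have : ‖(2:ℂ)‖ = 2 := by simp
    rw [this]
    exact mul_le_mul_of_nonneg_left hmain (by norm_num)
  -- conclusion
  rw [hsplit]
  have f1 : MZ * T ^ (-(2 / 5) + 1 / 100 : ℝ) ≤ 1 / 4 * T ^ (-(1 / 50000) : ℝ) := by
    have : MZ * T ^ (-(2 / 5) + 1 / 100 : ℝ) = C3 * 4 ^ (1 / 4 + 1 / 100 : ℝ) *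
        T ^ ((1 / 4 + 1 / 100) + (-(2 / 5) + 1 / 100) : ℝ) := by
      rw [hMZ, Real.rpow_add hT0 (1 / 4 + 1 / 100)]
      ring
    rw [this]
    linarith
  have f2 : 2 * ((4 * Real.log T + 3) ^ 2 * T ^ (-(1 / 47000) : ℝ)) ≤
      1 / 4 * T ^ (-(1 / 50000) : ℝ) := by linarith
  have f3 : 2 * (C6 ^ 3 * T ^ (-10 : ℝ)) ≤ 1 / 4 * T ^ (-(1 / 50000) : ℝ) := by linarith
  have hpos : 0 < T ^ (-(1 / 50000) : ℝ) := by positivity
  refine (abs_add_le _ _).trans ?_
  refine (add_le_add tail1 ((abs_add_le _ _).trans (add_le_add hmid tail2))).trans ?_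
  linarith

end

end Pool.Agent.H408R2.CM
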