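import Pool.Agent.H408R2.CM.Stubs
import Pool.Agent.H401R2.Stir

set_option autoImplicit false

/-! KA: the kernel approximates `om θ (t/2π)^w`. -/

open Complex MeasureTheory Filter Topology

namespace Pool.Agent.H408R2.CM

open Pool.Agent.H304R4.CM

noncomputable section

/-- the relative perturbation `z0 / (i t / 2) - 1` -/
def KA_q (t : ℝ) : ℂ := -(((1 / (2 * t) : ℝ) : ℂ) * I)

lemma KA_norm_q {t : ℝ} (ht : 0 < t) : ‖KA_q t‖ = 1 / (2 * t) := by
  unfold KA_q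
  rw [norm_neg, norm_mul, Complex.norm_I, mul_one, Complex.norm_real, Real.norm_eq_abs, abs_of_pos (by positivity)]

lemma KA_z0 {t : ℝ} (ht : 0 < t) : (1 / 4 + t / 2 * I : ℂ) = ((t / 2 : ℝ) : ℂ) * I * (1 + KA_q t) := by
  unfold KA_q
  have h : (t : ℂ) ≠ 0 := by exact_mod_cast ht.ne'
  push_cast
  have hI : (I : ℂ) ^ 2 = -1 := I_sq
  field_simp
  ring_nf
  rw [hI]
  ring

lemma KA_log {t : ℝ} (ht : 0 < t) : Complex.log (1 / 4 + t / 2 * I) =
    ((Real.log (t / 2) : ℝ) : ℂ) + ((Real.pi / 2 : ℝ) : ℂ) * I + Complex.log (1 + KA_q t) := by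
  have hq : 0 < (1 + KA_q t).re := by
    unfold KA_q; simp
  have hq0 : 1 + KA_q t ≠ 0 := by
    intro h; rw [h] at hq; simp at hq
  have harg := abs_lt.1 (Complex.abs_arg_lt_pi_div_two_iff.2 (Or.inl hq))
  have him : (((Real.log (t / 2) : ℝ) : ℂ) + ((Real.pi / 2 : ℝ) : ℂ) * I + Complex.log (1 + KA_q t)).im =
      Real.pi / 2 + Complex.arg (1 + KA_q t) := by
    simp [Complex.log_im]
  have hexp : Complex.exp (((Real.log (t / 2) : ℝ) : ℂ) + ((Real.pi / 2 : ℝ) : ℂ) * I + Complex.log (1 + KA_q t)) =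
      1 / 4 + t / 2 * I := by
    rw [Complex.exp_add, Complex.exp_add, Complex.exp_log hq0, ← Complex.ofReal_exp, Real.exp_log (by positivity),
      KA_z0 ht]
    congr 2
    push_cast
    rw [Complex.exp_pi_div_two_mul_I]
  rw [← hexp, Complex.log_exp]
  · rw [him]; linarith [Real.pi_pos]
  · rw [him]; linarith [Real.pi_pos]

lemma KA_lam {t : ℝ} (ht : 1 ≤ t) : ‖Complex.log (1 + KA_q t)‖ ≤ 3 / (4 * t) := by
  have ht0 : 0 < t := by linarith
  have hq : ‖KA_q t‖ ≤ 1 / 2 := by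
    rw [KA_norm_q ht0, div_le_div_iff₀ (by positivity) (by norm_num)]; linarith
  refine (Complex.norm_log_one_add_half_le_self hq).trans (le_of_eq ?_)
  rw [KA_norm_q ht0]
  field_simp
  norm_num

lemma KA_lam2 {t : ℝ} (ht : 1 ≤ t) : ‖Complex.log (1 + KA_q t) - KA_q t‖ ≤ 1 / (4 * t ^ 2) := by
  have ht0 : 0 < t := by linarith
  have hq : ‖KA_q t‖ ≤ 1 / 2 := by
    rw [KA_norm_q ht0, div_le_div_iff₀ (by positivity) (by norm_num)]; linarith
  refine (Complex.norm_log_one_add_sub_self_le (by linarith)).trans ?_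
  have h1 : (1 - ‖KA_q t‖)⁻¹ ≤ 2 := by
    rw [inv_le_comm₀ (by linarith) (by norm_num)]; linarith
  calc ‖KA_q t‖ ^ 2 * (1 - ‖KA_q t‖)⁻¹ / 2 ≤ ‖KA_q t‖ ^ 2 * 2 / 2 := by gcongr
    _ = 1 / (4 * t ^ 2) := by rw [KA_norm_q ht0]; field_simp; norm_num

/-- modulus of the Gamma function -/
lemma KA_mod {t : ℝ} (ht : 4 ≤ t) : ∃ g : ℝ, |g - 1| ≤ 10 / t ∧
    ‖Complex.Gamma (1 / 4 + t / 2 * I)‖ = √(2 * Real.pi) * Real.exp (-(1 / 4 * Real.log (t / 2))) *
      Real.exp (-(Real.pi * t / 4)) * g := by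
  have ht0 : 0 < t := by linarith
  set z : ℂ := 1 / 4 + t / 2 * I with hz
  have hre : z.re = 1 / 4 := by rw [hz]; simp
  have him : z.im = t / 2 := by rw [hz]; simp
  have hst := Pool.Agent.H401R2.stirling (z := z) (by rw [hre]; norm_num) (by rw [him]; linarith)
  set s : ℝ := √(2 * Real.pi) with hs
  have hs0 : 0 < s := by rw [hs]; positivity
  set a := Pool.Agent.H401R2.sA z / (s : ℂ) with ha
  -- the exponent
  set lam := Complex.log (1 + KA_q t) with hlam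
  set r : ℝ := (-lam / 4 + ((t / 2 : ℝ) : ℂ) * I * (lam - KA_q t)).re with hr
  have hexp : ((z - 1 / 2) * Complex.log z - z).re = -(1 / 4 * Real.log (t / 2)) - Real.pi * t / 4 + r := by
    have h1 : (z - 1 / 2) * Complex.log z - z = ((-(1 / 4 * Real.log (t / 2)) - Real.pi * t / 4 : ℝ) : ℂ) +
        (-lam / 4 + ((t / 2 : ℝ) : ℂ) * I * (lam - KA_q t)) +
        ((t / 2 * Real.log (t / 2) - Real.pi / 8 - t / 2 : ℝ) : ℂ) * I := by
      rw [hz, KA_log ht0, ← hlam]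
      have h2 : ((t / 2 : ℝ) : ℂ) * I * KA_q t = 1 / 4 := by
        unfold KA_q
        have h : (t : ℂ) ≠ 0 := by exact_mod_cast ht0.ne'
        push_cast
        have hI : (I : ℂ) ^ 2 = -1 := I_sq
        field_simp
        ring_nf
        rw [hI]
        ring
      have h3 : ((t / 2 : ℝ) : ℂ) * I * (lam - KA_q t) = ((t / 2 : ℝ) : ℂ) * I * lam - 1 / 4 := by
        rw [mul_sub, h2]
      rw [h3]
      push_cast
      have hI : (I : ℂ) ^ 2 = -1 := I_sq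
      ring_nf
      rw [hI]
      ring
    rw [h1, Complex.add_re, Complex.add_re, Complex.ofReal_re, ← hr]
    have h4 : (((t / 2 * Real.log (t / 2) - Real.pi / 8 - t / 2 : ℝ) : ℂ) * I).re = 0 := by
      rw [Complex.mul_I_re, Complex.ofReal_im, neg_zero]
    rw [h4, add_zero]
  have hrb : |r| ≤ 1 / t := by
    have h1 := KA_lam (t := t) (by linarith)
    have h2 := KA_lam2 (t := t) (by linarith)
    rw [← hlam] at h1 h2
    refine (Complex.abs_re_le_norm _).trans ((norm_add_le _ _).trans ?_)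
    rw [norm_div, norm_neg, norm_mul, norm_mul, Complex.norm_I, mul_one, Complex.norm_real, Real.norm_eq_abs,
      abs_of_pos (by positivity : 0 < t / 2)]
    have h4 : ‖(4 : ℂ)‖ = 4 := by simp
    rw [h4]
    calc ‖lam‖ / 4 + t / 2 * ‖lam - KA_q t‖ ≤ (3 / (4 * t)) / 4 + t / 2 * (1 / (4 * t ^ 2)) := by gcongr
      _ = (5 / 16) / t := by field_simp; norm_num
      _ ≤ 1 / t := by gcongr; norm_num
  refine ⟨‖a‖ * Real.exp r, ?_, ?_⟩
  · have h1 : |‖a‖ - 1| ≤ 1 / t := by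
      have h2 : |‖a‖ - 1| ≤ ‖a - 1‖ := by
        have := abs_norm_sub_norm_le a 1
        rwa [norm_one] at this
      refine h2.trans (hst.trans ?_)
      rw [him, div_le_div_iff₀ (by positivity) ht0]
      have := Real.pi_le_four
      nlinarith
    have hr1 : |r| ≤ 1 := hrb.trans (by rw [div_le_one ht0]; linarith)
    have h3 : |Real.exp r - 1| ≤ 2 / t := by
      have h5 : |Real.exp r - 1| ≤ 2 * |r| := by
        have := Real.abs_exp_sub_one_le hr1
        exact this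
      calc _ ≤ 2 * |r| := h5
        _ ≤ 2 * (1 / t) := by gcongr
        _ = 2 / t := by ring
    have h6 : Real.exp r ≤ 3 := by
      have := (abs_le.1 h3).2
      have h7 : 2 / t ≤ 1 := by rw [div_le_one ht0]; linarith
      linarith
    have h8 : ‖a‖ * Real.exp r - 1 = (‖a‖ - 1) * Real.exp r + (Real.exp r - 1) := by ring
    rw [h8]
    refine (abs_add_le _ _).trans ?_
    rw [abs_mul, abs_of_pos (Real.exp_pos r)]
    calc |‖a‖ - 1| * Real.exp r + |Real.exp r - 1| ≤ (1 / t) * 3 + 2 / t := by gcongr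
      _ = 5 / t := by ring
      _ ≤ 10 / t := by gcongr; norm_num
  · have h1 : Complex.Gamma z = Pool.Agent.H401R2.sA z * Complex.exp ((z - 1 / 2) * Complex.log z - z) := by
      unfold Pool.Agent.H401R2.sA
      rw [mul_assoc, ← Complex.exp_add]
      have : -((z - 1 / 2) * Complex.log z - z) + ((z - 1 / 2) * Complex.log z - z) = 0 := by ring
      rw [this, Complex.exp_zero, mul_one]
    have h2 : ‖Pool.Agent.H401R2.sA z‖ = s * ‖a‖ := by
      rw [ha, norm_div, Complex.norm_real, Real.norm_eq_abs, abs_of_pos hs0]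
      field_simp
    rw [h1, norm_mul, h2, Complex.norm_exp, hexp, Real.exp_add, Real.exp_sub]
    rw [Real.exp_neg (Real.pi * t / 4)]
    field_simp

lemma KA_baslog {δ : ℝ} (h0 : 0 < δ) (h1 : δ < 1 / 2) : Complex.log (bas (Real.tan (2 * δ))) =
    ((Real.log Real.pi - Real.log (Real.cos (2 * δ)) : ℝ) : ℂ) + ((Real.pi / 2 - 2 * δ : ℝ) : ℂ) * I := by
  have hc : 0 < Real.cos (2 * δ) := Real.cos_pos_of_mem_Ioo
    ⟨by linarith [Real.pi_gt_three], by linarith [Real.pi_gt_three]⟩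
  have hexp : Complex.exp (((Real.log Real.pi - Real.log (Real.cos (2 * δ)) : ℝ) : ℂ) +
      ((Real.pi / 2 - 2 * δ : ℝ) : ℂ) * I) = bas (Real.tan (2 * δ)) := by
    rw [Complex.exp_add, ← Complex.ofReal_exp, Real.exp_sub, Real.exp_log Real.pi_pos, Real.exp_log hc,
      Complex.exp_mul_I, ← Complex.ofReal_cos, ← Complex.ofReal_sin, Real.cos_pi_div_two_sub,
      Real.sin_pi_div_two_sub]
    unfold bas
    rw [Real.tan_eq_sin_div_cos]
    have : ((Real.cos (2 * δ) : ℝ) : ℂ) ≠ 0 := by exact_mod_cast hc.ne'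
    push_cast at this ⊢
    field_simp
  have him : (((Real.log Real.pi - Real.log (Real.cos (2 * δ)) : ℝ) : ℂ) +
      ((Real.pi / 2 - 2 * δ : ℝ) : ℂ) * I).im = Real.pi / 2 - 2 * δ := by
    rw [Complex.add_im, Complex.ofReal_im, Complex.mul_I_im, Complex.ofReal_re, zero_add]
  rw [← hexp, Complex.log_exp]
  · rw [him]; linarith [Real.pi_gt_three]
  · rw [him]; linarith [Real.pi_gt_three]

lemma KA_bas_ne {δ : ℝ} : bas (Real.tan (2 * δ)) ≠ 0 := by
  intro h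
  have := congrArg Complex.im h
  unfold bas at this
  rw [Complex.im_ofReal_mul, Complex.add_im, Complex.ofReal_im, Complex.I_im, zero_add, mul_one,
    Complex.zero_im] at this
  exact Real.pi_ne_zero this

lemma KA_baspow {δ : ℝ} (h0 : 0 < δ) (h1 : δ < 1 / 2) (t : ℝ) :
    bas (Real.tan (2 * δ)) ^ (-((t / 2 : ℝ) : ℂ) * I) =
      ((Real.exp (Real.pi * t / 4) * Real.exp (-(δ * t)) : ℝ) : ℂ) *
        Complex.exp (-((t / 2 * Real.log Real.pi : ℝ) : ℂ) * I) *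
        Complex.exp (((t / 2 * Real.log (Real.cos (2 * δ)) : ℝ) : ℂ) * I) := by
  rw [Complex.cpow_def_of_ne_zero (KA_bas_ne), KA_baslog h0 h1, ← Real.exp_add, Complex.ofReal_exp,
    ← Complex.exp_add, ← Complex.exp_add]
  congr 1
  have hI : (I : ℂ) ^ 2 = -1 := I_sq
  push_cast
  ring_nf
  rw [hI]
  ring

lemma KA_alpha {δ : ℝ} (h0 : 0 < δ) (h1 : δ ≤ 1 / 4) : |Real.log (Real.cos (2 * δ))| ≤ 4 * δ ^ 2 := by
  have hc : 1 - (2 * δ) ^ 2 / 2 ≤ Real.cos (2 * δ) := Real.one_sub_sq_div_two_le_cos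
  have hd : δ ^ 2 ≤ 1 / 16 := by nlinarith
  have hc0 : 0 < Real.cos (2 * δ) := by nlinarith
  have hc1 : Real.cos (2 * δ) ≤ 1 := Real.cos_le_one _
  rw [abs_of_nonpos (Real.log_nonpos hc0.le hc1)]
  have h2 := Real.one_sub_inv_le_log_of_pos hc0
  have h3 : (Real.cos (2 * δ))⁻¹ ≤ 1 + 4 * δ ^ 2 := by
    rw [inv_le_comm₀ hc0 (by positivity)]
    refine le_trans ?_ hc
    rw [inv_le_iff_one_le_mul₀ (by positivity)]
    nlinarith
  linarith

/-- products of four small perturbations of `1` -/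
lemma KA_prod4 (g : ℝ) (a b c : ℂ) (ε : ℝ) (hε : ε ≤ 1) (h0 : |g - 1| ≤ ε) (h1 : ‖a - 1‖ ≤ ε)
    (h2 : ‖b - 1‖ ≤ ε) (h3 : ‖c - 1‖ ≤ ε) : ‖1 - (g : ℂ) * a * b * c‖ ≤ 15 * ε := by
  have hε0 : 0 ≤ ε := (abs_nonneg _).trans h0
  have hg : ‖(g : ℂ) - 1‖ ≤ ε := by
    rw [← Complex.ofReal_one, ← Complex.ofReal_sub, Complex.norm_real, Real.norm_eq_abs]
    exact h0
  have n1 : ∀ x : ℂ, ‖x - 1‖ ≤ ε → ‖x‖ ≤ 2 := by
    intro x hx
    have h4 : x = (x - 1) + 1 := by ring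
    rw [h4]
    refine (norm_add_le _ _).trans ?_
    rw [norm_one]; linarith
  have e : 1 - (g : ℂ) * a * b * c = -(((g : ℂ) - 1) * a * b * c + (a - 1) * b * c + (b - 1) * c + (c - 1)) := by
    ring
  rw [e, norm_neg]
  have ha := n1 a h1
  have hb := n1 b h2
  have hc := n1 c h3
  refine (norm_add_le _ _).trans ?_
  have q1 : ‖((g : ℂ) - 1) * a * b * c + (a - 1) * b * c + (b - 1) * c‖ ≤ ε * 2 * 2 * 2 + ε * 2 * 2 + ε * 2 := by
    refine (norm_add_le _ _).trans ?_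
    refine add_le_add ((norm_add_le _ _).trans (add_le_add ?_ ?_)) ?_
    · rw [norm_mul, norm_mul, norm_mul]; gcongr
    · rw [norm_mul, norm_mul]; gcongr
    · rw [norm_mul]; gcongr
  linarith

lemma KA_alg (P tw F s a th g x1 x2 x3 x4 x5 x6 x7 x8 x9 x10 y1 y2 y3 : ℂ) (hs : s ≠ 0)
    (h : x1 * x2 * x3 * x4 * x5 * x6 * x7 * x9 = y1 * y2 * y3) :
    (P * tw / (F * s)) * x1 * x2 * (a * ((th * x3 * (s * x4 * x5 * g)) * x6)) * (x7 * x8 * x9 * x10) =
      (P * (tw * y1) * x8 / F) * th * y2 * (g * a * y3 * x10) := by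
  have h0 : P * tw / (F * s) * s = P * tw / F := by
    rw [div_mul_eq_mul_div, mul_div_mul_right _ _ hs]
  generalize P * tw / (F * s) = Q at *
  have h1 : Q * x1 * x2 * (a * ((th * x3 * (s * x4 * x5 * g)) * x6)) * (x7 * x8 * x9 * x10) =
      (Q * s) * (a * th * g * x8 * x10) * (x1 * x2 * x3 * x4 * x5 * x6 * x7 * x9) := by
    ring
  have h2 : (P * (tw * y1) * x8 / F) * th * y2 * (g * a * y3 * x10) =
      (P * tw / F) * (a * th * g * x8 * x10) * (y1 * y2 * y3) := by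
    ring
  rw [h1, h0, h, h2]

lemma KA_theta (t : ℝ) : Complex.Gamma (1 / 4 + t / 2 * I) =
    theta t * Complex.exp (((t / 2 * Real.log Real.pi : ℝ) : ℂ) * I) * (‖Complex.Gamma (1 / 4 + t / 2 * I)‖ : ℂ) := by
  unfold theta
  have h0 : Complex.Gamma (1 / 4 + t / 2 * I) ≠ 0 := by
    apply Complex.Gamma_ne_zero_of_re_pos
    simp
  have h1 : (‖Complex.Gamma (1 / 4 + t / 2 * I)‖ : ℂ) ≠ 0 := by
    exact_mod_cast norm_ne_zero_iff.2 h0
  have h2 : Complex.exp (-(t / 2 * Real.log Real.pi : ℝ) * I) *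
      Complex.exp (((t / 2 * Real.log Real.pi : ℝ) : ℂ) * I) = 1 := by
    rw [← Complex.exp_add]
    have : (-(t / 2 * Real.log Real.pi : ℝ) * I : ℂ) + ((t / 2 * Real.log Real.pi : ℝ) : ℂ) * I = 0 := by ring
    rw [this, Complex.exp_zero]
  generalize Complex.exp (-(t / 2 * Real.log Real.pi : ℝ) * I) = e1 at *
  generalize Complex.exp (((t / 2 * Real.log Real.pi : ℝ) : ℂ) * I) = e2 at *
  generalize Complex.Gamma (1 / 4 + t / 2 * I) = G at *
  calc G = (e1 * e2) * G * ((‖G‖ : ℂ) / (‖G‖ : ℂ)) := by rw [h2, div_self h1]; ring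
    _ = _ := by ring

lemma KA_norm_theta (t : ℝ) : ‖theta t‖ = 1 := by
  unfold theta
  have h0 : Complex.Gamma (1 / 4 + t / 2 * I) ≠ 0 := by
    apply Complex.Gamma_ne_zero_of_re_pos
    simp
  rw [norm_div, norm_mul, ← Complex.ofReal_neg, Complex.norm_exp_ofReal_mul_I, one_mul, Complex.norm_real,
    norm_norm, div_self (norm_ne_zero_iff.2 h0)]

/-- the exact formula -/
lemma KA_formula {k : ℕ} {δ t : ℝ} (w : ℂ) (h0 : 0 < δ) (h1 : δ < 1 / 2) (ht : 4 ≤ t)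
    (g : ℝ) (hg : ‖Complex.Gamma (1 / 4 + t / 2 * I)‖ = √(2 * Real.pi) * Real.exp (-(1 / 4 * Real.log (t / 2))) *
      Real.exp (-(Real.pi * t / 4)) * g) :
    Gw k δ w t = (om k δ t : ℂ) * theta t * ((t / (2 * Real.pi) : ℝ) : ℂ) ^ w *
      ((g : ℂ) * (Complex.Gamma ((1 / 4 + t / 2 * I) + ((k : ℂ) + 1 / 4 + w)) /
        (Complex.Gamma (1 / 4 + t / 2 * I) * (1 / 4 + t / 2 * I : ℂ) ^ ((k : ℂ) + 1 / 4 + w))) *
        Complex.exp (Complex.log (1 + KA_q t) * ((k : ℂ) + 1 / 4 + w)) *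
        Complex.exp (((t / 2 * Real.log (Real.cos (2 * δ)) : ℝ) : ℂ) * I)) := by
  have ht0 : 0 < t := by linarith
  have hz0 : (1 / 4 + t / 2 * I : ℂ) ≠ 0 := by
    intro h
    have := congrArg Complex.re h
    simp at this
  have hG0 : Complex.Gamma (1 / 4 + t / 2 * I) ≠ 0 := by
    apply Complex.Gamma_ne_zero_of_re_pos
    simp
  set W : ℂ := (k : ℂ) + 1 / 4 + w with hW
  set a := Complex.Gamma ((1 / 4 + t / 2 * I) + W) /
        (Complex.Gamma (1 / 4 + t / 2 * I) * (1 / 4 + t / 2 * I : ℂ) ^ W) with ha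
  have hp0 : (1 / 4 + t / 2 * I : ℂ) ^ W ≠ 0 := by
    rw [Complex.cpow_def_of_ne_zero hz0]; exact Complex.exp_ne_zero _
  have hGa : Complex.Gamma ((k : ℂ) + 1 / 2 + w + (t / 2) * I) =
      a * (Complex.Gamma (1 / 4 + t / 2 * I) * (1 / 4 + t / 2 * I : ℂ) ^ W) := by
    rw [ha, div_mul_cancel₀ _ (mul_ne_zero hG0 hp0)]
    congr 1
    rw [hW]; ring
  have hpow : (1 / 4 + t / 2 * I : ℂ) ^ W = Complex.exp ((((Real.log (t / 2) : ℝ) : ℂ) +
      ((Real.pi / 2 : ℝ) : ℂ) * I + Complex.log (1 + KA_q t)) * W) := by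
    rw [Complex.cpow_def_of_ne_zero hz0, KA_log ht0]
  have hGt := KA_theta t
  have hpiw : (Real.pi : ℂ) ^ (-w) = Complex.exp (((Real.log Real.pi : ℝ) : ℂ) * (-w)) := by
    rw [Complex.cpow_def_of_ne_zero (by exact_mod_cast Real.pi_ne_zero), ← Complex.ofReal_log Real.pi_pos.le]
  have htw : ((t / (2 * Real.pi) : ℝ) : ℂ) ^ w =
      Complex.exp (((Real.log (t / 2) - Real.log Real.pi : ℝ) : ℂ) * w) := by
    have hpos : 0 < t / (2 * Real.pi) := by positivity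
    rw [Complex.cpow_def_of_ne_zero (by exact_mod_cast hpos.ne'), ← Complex.ofReal_log hpos.le]
    have : t / (2 * Real.pi) = (t / 2) / Real.pi := by field_simp
    rw [this, Real.log_div (by positivity) Real.pi_ne_zero]
  have htk : (t : ℂ) ^ k = 2 ^ k * Complex.exp ((k : ℂ) * ((Real.log (t / 2) : ℝ) : ℂ)) := by
    rw [Complex.exp_nat_mul, ← Complex.ofReal_exp, Real.exp_log (by positivity), ← mul_pow]
    congr 1
    push_cast; ring
  have hGnorm : (‖Complex.Gamma (1 / 4 + t / 2 * I)‖ : ℂ) = ((√(2 * Real.pi) : ℝ) : ℂ) *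
      Complex.exp ((-(1 / 4 * Real.log (t / 2)) : ℝ) : ℂ) * Complex.exp ((-(Real.pi * t / 4) : ℝ) : ℂ) * (g : ℂ) := by
    rw [hg]
    simp only [Complex.ofReal_mul, Complex.ofReal_exp]
  rw [hGnorm] at hGt
  unfold Gw cG om
  have hb := KA_baspow h0 h1 t
  have hc1 : -(((t / 2 : ℝ) : ℂ)) * I = -((t / 2 : ℝ) : ℂ) * I := rfl
  rw [hb, hGa, hGt, hpow, hpiw, htw]
  have hs0 : ((√(2 * Real.pi) : ℝ) : ℂ) ≠ 0 := by
    have : √(2 * Real.pi) ≠ 0 := by positivity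
    exact_mod_cast this
  have halg := KA_alg ((δ ^ (k + 1) : ℝ) : ℂ) (2 ^ k) ((k.factorial : ℝ) : ℂ) ((√(2 * Real.pi) : ℝ) : ℂ) a (theta t) (g : ℂ)
    (Complex.exp (((Real.log Real.pi : ℝ) : ℂ) * (-w))) (Complex.exp (-((k : ℂ) + 1 / 4 + w) * (Real.pi / 2) * I))
    (Complex.exp (((t / 2 * Real.log Real.pi : ℝ) : ℂ) * I)) (Complex.exp ((-(1 / 4 * Real.log (t / 2)) : ℝ) : ℂ))
    (Complex.exp ((-(Real.pi * t / 4) : ℝ) : ℂ))
    (Complex.exp ((((Real.log (t / 2) : ℝ) : ℂ) +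
      ((Real.pi / 2 : ℝ) : ℂ) * I + Complex.log (1 + KA_q t)) * W))
    (Complex.exp ((Real.pi * t / 4 : ℝ) : ℂ)) (Complex.exp ((-(δ * t) : ℝ) : ℂ))
    (Complex.exp (-((t / 2 * Real.log Real.pi : ℝ) : ℂ) * I))
    (Complex.exp (((t / 2 * Real.log (Real.cos (2 * δ)) : ℝ) : ℂ) * I))
    (Complex.exp ((k : ℂ) * ((Real.log (t / 2) : ℝ) : ℂ)))
    (Complex.exp (((Real.log (t / 2) - Real.log Real.pi : ℝ) : ℂ) * w))
    (Complex.exp (Complex.log (1 + KA_q t) * W)) hs0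
    (by
      simp only [← Complex.exp_add]
      congr 1
      rw [hW]
      push_cast
      ring)
  rw [← htk] at halg
  have e1 : (((δ ^ (k + 1) * 2 ^ k / ((k.factorial : ℝ) * √(2 * Real.pi)) : ℝ)) : ℂ) =
      ((δ ^ (k + 1) : ℝ) : ℂ) * 2 ^ k / (((k.factorial : ℝ) : ℂ) * ((√(2 * Real.pi) : ℝ) : ℂ)) := by
    push_cast; rfl
  have e2 : ((δ ^ (k + 1) * t ^ k * Real.exp (-(δ * t)) / (k.factorial : ℝ) : ℝ) : ℂ) =
      ((δ ^ (k + 1) : ℝ) : ℂ) * (t : ℂ) ^ k * Complex.exp ((-(δ * t) : ℝ) : ℂ) / ((k.factorial : ℝ) : ℂ) := by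
    push_cast; rfl
  have e3 : ((Real.exp (Real.pi * t / 4) * Real.exp (-(δ * t)) : ℝ) : ℂ) =
      Complex.exp ((Real.pi * t / 4 : ℝ) : ℂ) * Complex.exp ((-(δ * t) : ℝ) : ℂ) := by
    simp only [Complex.ofReal_mul, Complex.ofReal_exp]
  rw [e1, e2, e3]
  exact halg

/-- the parameters -/
lemma KA_par (K : ℝ) : ∃ T0 : ℝ, ∀ T : ℝ, T0 ≤ T → K ≤ T ^ (1 / 100 : ℝ) ∧ Real.log T ≤ T ^ (1 / 100 : ℝ) ∧
    16 ≤ T := by
  have h1 : ∀ᶠ T : ℝ in atTop, K ≤ T ^ (1 / 100 : ℝ) :=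
    (tendsto_rpow_atTop (by norm_num : (0 : ℝ) < 1 / 100)).eventually_ge_atTop K
  have h2 : ∀ᶠ T : ℝ in atTop, Real.log T ≤ T ^ (1 / 100 : ℝ) := by
    have h3 := (isLittleO_log_rpow_atTop (by norm_num : (0 : ℝ) < 1 / 100)).bound (by norm_num : (0 : ℝ) < 1)
    filter_upwards [h3, eventually_ge_atTop (1 : ℝ)] with T hT hT1
    rw [one_mul, Real.norm_eq_abs, Real.norm_eq_abs, abs_of_nonneg (Real.log_nonneg hT1),
      abs_of_nonneg (Real.rpow_nonneg (by linarith) _)] at hT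
    exact hT
  obtain ⟨T0, hT0⟩ := eventually_atTop.1 ((h1.and h2).and (eventually_ge_atTop (16 : ℝ)))
  exact ⟨T0, fun T hT => ⟨(hT0 T hT).1.1, (hT0 T hT).1.2, (hT0 T hT).2⟩⟩

theorem KA (hGR : S_GR) : S_KA := by
  obtain ⟨C, hC, hGR⟩ := hGR
  set C1 : ℝ := 36 * C + 20 with hC1
  have hC1p : 20 ≤ C1 := by rw [hC1]; linarith
  obtain ⟨T0, hT0⟩ := KA_par (max 576 (15 * C1))
  refine ⟨T0, ?_⟩
  intro T hT k hk1 hk t0 ht01 ht02 w hw0 hw1 hwim t ht1 ht2
  obtain ⟨hX, hlog, hT16⟩ := hT0 T hT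
  set X : ℝ := T ^ (1 / 100 : ℝ) with hXdef
  have hX1 : 576 ≤ X := (le_max_left _ _).trans hX
  have hX2 : 15 * C1 ≤ X := (le_max_right _ _).trans hX
  have hTp : 0 < T := by linarith
  have hX100 : X ^ 100 = T := by
    rw [hXdef, ← Real.rpow_natCast, ← Real.rpow_mul hTp.le]; norm_num
  have hX10 : X ^ 10 = T ^ (1 / 10 : ℝ) := by
    rw [hXdef, ← Real.rpow_natCast, ← Real.rpow_mul hTp.le]; norm_num
  have hX0 : 0 < X := by linarith
  have hXone : 1 ≤ X := by linarith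
  have hX3 : X ^ 3 ≤ T := by
    rw [← hX100]; exact pow_le_pow_right₀ hXone (by norm_num)
  have ht0p : 0 < t0 := by linarith
  have htp : 0 < t := by linarith
  have ht4 : 4 ≤ t := by linarith
  -- W
  set W : ℂ := (k : ℂ) + 1 / 4 + w with hW
  have hwn : ‖w‖ ≤ 1 + Real.log T := by
    refine (Complex.norm_le_abs_re_add_abs_im w).trans ?_
    rw [abs_of_nonneg hw0]; linarith
  have hWn : 1 + ‖W‖ ≤ 3 * X := by
    have h1 : ‖W‖ ≤ k + 1 / 4 + (1 + Real.log T) := by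
      rw [hW]
      refine (norm_add_le _ _).trans (add_le_add ((norm_add_le _ _).trans ?_) hwn)
      rw [Complex.norm_natCast]
      have : ‖(1 / 4 : ℂ)‖ = 1 / 4 := by norm_num
      rw [this]
    linarith
  have hWn0 : 0 ≤ ‖W‖ := norm_nonneg _
  have hW9 : (1 + ‖W‖) ^ 2 ≤ 9 * X ^ 2 := by
    calc (1 + ‖W‖) ^ 2 ≤ (3 * X) ^ 2 := by gcongr
      _ = 9 * X ^ 2 := by ring
  -- δ
  set δ : ℝ := (k : ℝ) / t0 with hδ
  have hkp : (0 : ℝ) < k := by exact_mod_cast hk1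
  have hδ0 : 0 < δ := by rw [hδ]; positivity
  have hδT : δ ≤ X / T := by rw [hδ]; gcongr
  have hXT : X / T ≤ 1 / 4 := by
    rw [div_le_div_iff₀ hTp (by norm_num)]
    have h4 : X * 4 ≤ X ^ 3 := by
      calc X * 4 ≤ X * X := by gcongr; linarith
        _ = X ^ 2 := by ring
        _ ≤ X ^ 3 := pow_le_pow_right₀ hXone (by norm_num)
    linarith
  have hδ4 : δ ≤ 1 / 4 := hδT.trans hXT
  -- g
  obtain ⟨g, hg1, hg2⟩ := KA_mod ht4
  have hform := KA_formula (k := k) (δ := δ) (t := t) w hδ0 (by linarith) ht4 g hg2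
  rw [← hW] at hform
  -- ε
  set ε : ℝ := C1 * X ^ 2 / T with hε
  have hε0 : 0 < ε := by rw [hε]; positivity
  have h15 : 15 * ε ≤ X ^ 10 / T := by
    rw [hε, mul_div_assoc']
    gcongr
    have : X * X ^ 2 ≤ X ^ 10 := by
      calc X * X ^ 2 = X ^ 3 := by ring
        _ ≤ X ^ 10 := pow_le_pow_right₀ hXone (by norm_num)
    calc 15 * (C1 * X ^ 2) = (15 * C1) * X ^ 2 := by ring
      _ ≤ X * X ^ 2 := by gcongr
      _ ≤ X ^ 10 := this
  have hX10T : X ^ 10 / T ≤ 1 := by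
    rw [div_le_one hTp, ← hX100]
    exact pow_le_pow_right₀ hXone (by norm_num)
  have hε1 : ε ≤ 1 := by linarith
  have hTt : 1 / t ≤ 2 / T := by
    rw [div_le_div_iff₀ htp hTp]; linarith
  -- e1
  have e1 : |g - 1| ≤ ε := by
    refine hg1.trans ?_
    calc 10 / t = 10 * (1 / t) := by ring
      _ ≤ 10 * (2 / T) := by gcongr
      _ = 20 * 1 / T := by ring
      _ ≤ C1 * X ^ 2 / T := by
          gcongr
          exact one_le_pow₀ hXone
  -- e2
  have hre : (1 / 4 + t / 2 * I : ℂ).re = 1 / 4 := by simp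
  have him : (1 / 4 + t / 2 * I : ℂ).im = t / 2 := by simp
  have hWre : W.re = k + 1 / 4 + w.re := by rw [hW]; simp
  have e2 : ‖Complex.Gamma ((1 / 4 + t / 2 * I) + W) /
      (Complex.Gamma (1 / 4 + t / 2 * I) * (1 / 4 + t / 2 * I : ℂ) ^ W) - 1‖ ≤ ε := by
    refine (hGR _ W (by rw [hre]; norm_num) (by rw [hre, him]; linarith)
      (by rw [Complex.add_re, hre, hWre]; positivity) ?_).trans ?_
    · rw [him]
      calc 16 * (1 + ‖W‖) ^ 2 ≤ 16 * (9 * X ^ 2) := by gcongr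
        _ = 576 * X ^ 2 / 4 := by ring
        _ ≤ X * X ^ 2 / 4 := by gcongr
        _ = X ^ 3 / 4 := by ring
        _ ≤ T / 4 := by gcongr
        _ ≤ t / 2 := by linarith
    · rw [him]
      calc C * (1 + ‖W‖) ^ 2 / (t / 2) = 2 * C * (1 + ‖W‖) ^ 2 * (1 / t) := by field_simp
        _ ≤ 2 * C * (9 * X ^ 2) * (2 / T) := by gcongr
        _ = 36 * C * X ^ 2 / T := by ring
        _ ≤ C1 * X ^ 2 / T := by
            gcongr
            linarith
  -- e3
  have e3 : ‖Complex.exp (Complex.log (1 + KA_q t) * W) - 1‖ ≤ ε := by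
    have h1 : ‖Complex.log (1 + KA_q t) * W‖ ≤ 9 / 2 * X / T := by
      rw [norm_mul]
      calc ‖Complex.log (1 + KA_q t)‖ * ‖W‖ ≤ (3 / (4 * t)) * (3 * X) := by
            apply mul_le_mul (KA_lam (by linarith)) (by linarith) hWn0 (by positivity)
        _ = 9 / 4 * X * (1 / t) := by ring
        _ ≤ 9 / 4 * X * (2 / T) := by gcongr
        _ = _ := by ring
    have h2 : 9 / 2 * X / T ≤ ε / 2 := by
      rw [hε, div_div, div_le_div_iff₀ hTp (by positivity)]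
      have h9 : 9 * X ≤ C1 * X ^ 2 := by
        calc 9 * X ≤ C1 * X := by gcongr; linarith
          _ ≤ C1 * X ^ 2 := by
            gcongr
            exact le_self_pow₀ hXone (by norm_num)
      calc 9 / 2 * X * (T * 2) = (9 * X) * T := by ring
        _ ≤ (C1 * X ^ 2) * T := by gcongr
    refine (Complex.norm_exp_sub_one_le (h1.trans (h2.trans (by linarith)))).trans ?_
    linarith
  -- e4
  have e4 : ‖Complex.exp (((t / 2 * Real.log (Real.cos (2 * δ)) : ℝ) : ℂ) * I) - 1‖ ≤ ε := by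
    have h1 : ‖(((t / 2 * Real.log (Real.cos (2 * δ)) : ℝ) : ℂ) * I)‖ ≤ 8 * X ^ 2 / T := by
      rw [norm_mul, Complex.norm_I, mul_one, Complex.norm_real, Real.norm_eq_abs, abs_mul, abs_of_pos (by positivity)]
      calc t / 2 * |Real.log (Real.cos (2 * δ))| ≤ t / 2 * (4 * δ ^ 2) := by
            gcongr
            exact KA_alpha hδ0 hδ4
        _ ≤ (4 * T) / 2 * (4 * (X / T) ^ 2) := by gcongr
        _ = _ := by field_simp; norm_num
    have h2 : 8 * X ^ 2 / T ≤ ε / 2 := by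
      rw [hε, div_div, div_le_div_iff₀ hTp (by positivity)]
      have h16 : 16 * X ^ 2 ≤ C1 * X ^ 2 := by gcongr; linarith
      calc 8 * X ^ 2 * (T * 2) = (16 * X ^ 2) * T := by ring
        _ ≤ (C1 * X ^ 2) * T := by gcongr
    refine (Complex.norm_exp_sub_one_le (h1.trans (h2.trans (by linarith)))).trans ?_
    linarith
  have hfin := KA_prod4 g _ _ _ ε hε1 e1 e2 e3 e4
  -- conclusion
  have hom : 0 ≤ om k δ t := by unfold om; positivity
  rw [hform]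
  generalize (g : ℂ) * (Complex.Gamma ((1 / 4 + t / 2 * I) + W) /
        (Complex.Gamma (1 / 4 + t / 2 * I) * (1 / 4 + t / 2 * I : ℂ) ^ W)) *
        Complex.exp (Complex.log (1 + KA_q t) * W) *
        Complex.exp (((t / 2 * Real.log (Real.cos (2 * δ)) : ℝ) : ℂ) * I) = R at *
  have h5 : (om k δ t : ℂ) * theta t * ((t / (2 * Real.pi) : ℝ) : ℂ) ^ w -
      (om k δ t : ℂ) * theta t * ((t / (2 * Real.pi) : ℝ) : ℂ) ^ w * R =
      (om k δ t : ℂ) * theta t * ((t / (2 * Real.pi) : ℝ) : ℂ) ^ w * (1 - R) := by ring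
  have hpos : 0 < t / (2 * Real.pi) := by positivity
  rw [h5, norm_mul, norm_mul, norm_mul, KA_norm_theta, mul_one, Complex.norm_real, Real.norm_eq_abs,
    abs_of_nonneg hom, Complex.norm_cpow_eq_rpow_re_of_pos hpos]
  have h6 : (t / (2 * Real.pi)) ^ w.re ≤ T ^ w.re := by
    apply Real.rpow_le_rpow hpos.le _ hw0
    rw [div_le_iff₀ (by positivity)]
    have h3 := Real.pi_gt_three
    calc t ≤ T * (2 * 3) := by linarith
      _ ≤ T * (2 * Real.pi) := by gcongr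
  have h7 : T ^ (-(9 / 10) + w.re) = T ^ w.re * (X ^ 10 / T) := by
    rw [hX10, ← Real.rpow_sub_one hTp.ne', ← Real.rpow_add hTp]
    congr 1; ring
  rw [h7]
  calc om k δ t * (t / (2 * Real.pi)) ^ w.re * ‖1 - R‖ ≤ om k δ t * T ^ w.re * (X ^ 10 / T) := by
        apply mul_le_mul (mul_le_mul_of_nonneg_left h6 hom) (hfin.trans h15) (norm_nonneg _) (by positivity)
    _ = _ := by ring

end

end Pool.Agent.H408R2.CM
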