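import Pool.Agent.H408R2.CM.Defs

set_option autoImplicit false

/-! # TEAM CM, part 1: statements of the tasks (Props, nothing is assumed). -/

open Complex MeasureTheory Filter Topology

namespace Pool.Agent.H408R2.CM

open Pool.Agent.H304R4.CM

noncomputable section

/-! ### Gamma function -/

/-- GR: ratios of Gamma functions -/
def S_GR : Prop := ∃ C : ℝ, 0 < C ∧ ∀ z w : ℂ, 0 < z.re → z.re ≤ z.im → 0 < (z + w).re →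
  16 * (1 + ‖w‖) ^ 2 ≤ z.im →
  ‖Complex.Gamma (z + w) / (Complex.Gamma z * z ^ w) - 1‖ ≤ C * (1 + ‖w‖) ^ 2 / z.im

/-- GB: size of the Gamma function -/
def S_GB : Prop := ∃ C : ℝ, 0 < C ∧
  (∀ z : ℂ, 0 < z.re → 1 ≤ |z.im| →
    ‖Complex.Gamma z‖ ≤ C * ‖z‖ ^ (z.re - 1 / 2) * Real.exp (-(Real.pi * |z.im| / 2))) ∧
  (∀ z : ℂ, 0 < z.re → z.re ≤ 1 → 1 ≤ |z.im| →
    ‖z‖ ^ (z.re - 1 / 2) * Real.exp (-(Real.pi * |z.im| / 2)) ≤ C * ‖Complex.Gamma z‖)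

/-- GI: integrals of the Gamma function on vertical lines -/
def S_GI : Prop := ∃ C : ℝ, 0 < C ∧ ∀ σ : ℝ, 1 ≤ σ →
  Integrable (fun τ : ℝ => ‖Complex.Gamma ((σ : ℂ) + τ * I)‖ * (1 + |τ|) ^ 12) ∧
  ∫ τ : ℝ, ‖Complex.Gamma ((σ : ℂ) + τ * I)‖ * (1 + |τ|) ^ 12 ≤ C * σ ^ 13 * Real.Gamma σ

/-! ### Hardy's function -/

/-- Z: `hZ` is `θ ζ` (which is real), is continuous and has modulus `|ζ|` -/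
def S_Z : Prop := (∀ t : ℝ, (hZ t : ℂ) = theta t * zc t) ∧ (∀ t : ℝ, |hZ t| = ‖zc t‖) ∧
  Continuous hZ ∧ Continuous theta ∧ Continuous zc

/-- GZ: trivial growth bound -/
def S_GZ : Prop := ∃ C : ℝ, 0 < C ∧ ∀ t : ℝ, ‖zc t‖ ≤ C * (1 + |t|) ^ 2

/-! ### Approximate functional equation for `|ζ|²` -/

/-- XI: the entire function `xiF` -/
def S_XI : Prop := Differentiable ℂ xiF ∧ (∀ s : ℂ, xiF (1 - s) = xiF s) ∧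
  (∀ s : ℂ, 0 < s.re → s ≠ 1 → xiF s = s * (1 - s) * Gammaℝ s * riemannZeta s) ∧
  ∃ C : ℝ, 0 < C ∧ ∀ s : ℂ, |s.re - 1 / 2| ≤ 2 → ‖xiF s‖ ≤ C * (1 + ‖s‖) ^ 5

/-- EX: exact formula -/
def S_EX : Prop := ∀ t : ℝ, ((‖zc t‖ ^ 2 : ℝ) : ℂ) =
  (1 / Real.pi) * ∫ v : ℝ, Qt t (((3 / 5 : ℝ) : ℂ) + v * I) *
    (riemannZeta (1 / 2 + t * I + (((3 / 5 : ℝ) : ℂ) + v * I)) *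
      riemannZeta (1 / 2 - t * I + (((3 / 5 : ℝ) : ℂ) + v * I))) * ew (3 / 5) v

/-- Q1: the Gamma factors are `(t/2π)^w` for small `w` -/
def S_Q1 : Prop := ∀ ε : ℝ, 0 < ε → ∃ T0 : ℝ, ∀ T : ℝ, T0 ≤ T → ∀ t : ℝ, T / 2 ≤ t → t ≤ 4 * T →
  ∀ v : ℝ, |v| ≤ Real.log T →
  ‖Qt t (((3 / 5 : ℝ) : ℂ) + v * I) -
    ((t / (2 * Real.pi) : ℝ) : ℂ) ^ (((3 / 5 : ℝ) : ℂ) + v * I)‖ ≤ T ^ (-(2 / 5) + ε)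

/-- Q2: crude bound of the Gamma factors -/
def S_Q2 : Prop := (∀ t : ℝ, Continuous (fun v : ℝ => Qt t (((3 / 5 : ℝ) : ℂ) + v * I))) ∧
  ∃ (C : ℝ) (A : ℕ), 0 < C ∧ ∀ t v : ℝ, 2 ≤ t →
  ‖Qt t (((3 / 5 : ℝ) : ℂ) + v * I)‖ ≤ C * (1 + t + |v|) ^ A

/-- QI: the Gamma factors are `(t/2π)^w` in the mean -/
def S_QI : Prop := ∀ ε : ℝ, 0 < ε → ∃ T0 : ℝ, ∀ T : ℝ, T0 ≤ T → ∀ t : ℝ, T / 2 ≤ t → t ≤ 4 * T →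
  Integrable (fun v : ℝ => ‖Qt t (((3 / 5 : ℝ) : ℂ) + v * I)‖ * ‖ew (3 / 5) v‖) ∧
  Integrable (fun v : ℝ => ‖Qt t (((3 / 5 : ℝ) : ℂ) + v * I) -
    ((t / (2 * Real.pi) : ℝ) : ℂ) ^ (((3 / 5 : ℝ) : ℂ) + v * I)‖ * ‖ew (3 / 5) v‖) ∧
  ∫ v : ℝ, ‖Qt t (((3 / 5 : ℝ) : ℂ) + v * I) -
    ((t / (2 * Real.pi) : ℝ) : ℂ) ^ (((3 / 5 : ℝ) : ℂ) + v * I)‖ * ‖ew (3 / 5) v‖ ≤
      T ^ (-(2 / 5) + ε)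

/-- V: the cut-off function: independence of the line, reality, decay, integrability of `e^{w²}/w` -/
def S_V : Prop := (∀ s x : ℝ, 0 < s → 0 < x → VV s x = VV 1 x) ∧
  (∀ s x : ℝ, 0 < s → 0 < x → (starRingEnd ℂ) (VV s x) = VV s x) ∧
  (∀ s : ℝ, 0 < s → ∃ C : ℝ, 0 < C ∧ ∀ x : ℝ, 0 < x → ‖VV 1 x‖ ≤ C * x ^ (-s)) ∧
  (∀ s : ℝ, 0 < s → Integrable (fun v : ℝ => ‖ew s v‖)) ∧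
  (∀ s x : ℝ, 0 < s → 0 < x →
    Integrable (fun v : ℝ => (x : ℂ) ^ (-((s : ℂ) + v * I)) * ew s v)) ∧
  (∀ s v : ℝ, 0 < s → s ≤ 1 → ‖ew s v‖ ≤ (3 / s) * Real.exp (-(v ^ 2))) ∧
  ContinuousOn (VV 1) (Set.Ioi 0)

/-- DS: the main term as a double series -/
def S_DS : Prop := (∃ C : ℝ, 0 < C ∧ ∀ t v : ℝ,
    ‖riemannZeta (1 / 2 + t * I + (((3 / 5 : ℝ) : ℂ) + v * I)) *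
      riemannZeta (1 / 2 - t * I + (((3 / 5 : ℝ) : ℂ) + v * I))‖ ≤ C) ∧
  (∀ t : ℝ, Continuous (fun v : ℝ => riemannZeta (1 / 2 + t * I + (((3 / 5 : ℝ) : ℂ) + v * I)) *
      riemannZeta (1 / 2 - t * I + (((3 / 5 : ℝ) : ℂ) + v * I)))) ∧
  ∀ t : ℝ, 0 < t →
    (1 / Real.pi) * (∫ v : ℝ, ((t / (2 * Real.pi) : ℝ) : ℂ) ^ (((3 / 5 : ℝ) : ℂ) + v * I) *
    (riemannZeta (1 / 2 + t * I + (((3 / 5 : ℝ) : ℂ) + v * I)) *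
      riemannZeta (1 / 2 - t * I + (((3 / 5 : ℝ) : ℂ) + v * I))) * ew (3 / 5) v) = 2 * TT t

/-- TL: truncation of the double series -/
def S_TL : Prop := ∃ C : ℝ, 0 < C ∧ ∀ T t : ℝ, 2 ≤ T → T / 2 ≤ t → t ≤ 4 * T →
  ‖TT t - D2 T t‖ ≤ C * T ^ (-1 : ℝ)

/-- AFE: approximate functional equation for `|ζ(1/2+it)|²` -/
def S_AFE : Prop := ∀ ε : ℝ, 0 < ε → ∃ T0 : ℝ, ∀ T : ℝ, T0 ≤ T → ∀ t : ℝ, T / 2 ≤ t → t ≤ 4 * T →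
  ‖((‖zc t‖ ^ 2 : ℝ) : ℂ) - 2 * D2 T t‖ ≤ T ^ (-(2 / 5) + ε)

/-- CX: convexity bound -/
def S_CX : Prop := ∀ ε : ℝ, 0 < ε → ∃ C : ℝ, 0 < C ∧ ∀ t : ℝ, 1 ≤ t →
  ‖zc t‖ ≤ C * t ^ (1 / 4 + ε)

/-! ### Fourth moment -/

/-- MV: mean value theorem for rational frequencies -/
def S_MV : Prop := ∀ ε : ℝ, 0 < ε → ∃ C : ℝ, 0 < C ∧ ∀ (N T : ℝ) (S : Finset (ℕ × ℕ))
  (a : ℕ × ℕ → ℂ), 1 ≤ N → 1 ≤ T →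
  (∀ p ∈ S, 1 ≤ p.1 ∧ 1 ≤ p.2 ∧ Nat.Coprime p.1 p.2 ∧ (p.1 : ℝ) * p.2 ≤ N) →
  ∫ t in T..(2 * T), ‖∑ p ∈ S, a p * osc ((p.1 : ℝ) / p.2) t‖ ^ 2 ≤
    C * (T + N) * (T * N) ^ ε * ∑ p ∈ S, ‖a p‖ ^ 2

/-- P2: mean square of the Dirichlet polynomial -/
def S_P2 : Prop := ∀ ε : ℝ, 0 < ε → ε ≤ 1 / 2 → ∃ C : ℝ, 0 < C ∧ ∀ T : ℝ, 1 ≤ T → ∀ w : ℂ,
  0 ≤ w.re → ∫ t in T..(2 * T), ‖PP T ε w t‖ ^ 2 ≤ C * T ^ (1 + 4 * ε)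

/-- M4: the fourth moment of zeta -/
def S_M4 : Prop := ∀ ε : ℝ, 0 < ε → ∃ C : ℝ, 0 < C ∧ ∀ T : ℝ, 1 ≤ T →
  ∫ t in T..(2 * T), ‖zc t‖ ^ 4 ≤ C * T ^ (1 + ε)

/-! ### The kernel -/

/-- KA: the kernel approximates `om θ (t/2π)^w` -/
def S_KA : Prop := ∃ T0 : ℝ, ∀ T : ℝ, T0 ≤ T → ∀ k : ℕ, 1 ≤ k → (k : ℝ) ≤ T ^ (1 / 100 : ℝ) →
  ∀ t0 : ℝ, T ≤ t0 → t0 ≤ 2 * T → ∀ w : ℂ, 0 ≤ w.re → w.re ≤ 1 → |w.im| ≤ Real.log T →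
  ∀ t : ℝ, T / 2 ≤ t → t ≤ 4 * T →
  ‖(om k (k / t0) t : ℂ) * theta t * ((t / (2 * Real.pi) : ℝ) : ℂ) ^ w - Gw k (k / t0) w t‖ ≤
    T ^ (-(9 / 10) + w.re) * om k (k / t0) t

/-- OT: tails of the Gamma windows -/
def S_OT : Prop := (∀ (k : ℕ) (δ : ℝ), 0 < δ → IntegrableOn (om k δ) (Set.Ioi 0) ∧
    ∫ t in Set.Ioi (0 : ℝ), om k δ t = 1) ∧
  (∀ (k : ℕ) (δ : ℝ), 0 < δ → IntegrableOn (fun t => om k δ t * (1 + t) ^ 6) (Set.Ioi 0)) ∧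
  ∃ T0 : ℝ, ∀ T : ℝ, T0 ≤ T → ∀ k : ℕ, T ^ (1 / 1000000 : ℝ) ≤ k → (k : ℝ) ≤ T ^ (1 / 100 : ℝ) →
  ∀ t0 : ℝ, T ≤ t0 → t0 ≤ 2 * T →
  (∫ t in Set.Ioo (0 : ℝ) (T / 2), om k (k / t0) t * (1 + t) ^ 6) ≤ T ^ (-10 : ℝ) ∧
  (∫ t in Set.Ioi (4 * T), om k (k / t0) t * (1 + t) ^ 6) ≤ T ^ (-10 : ℝ)

/-- GT: integrability and tails of the kernel -/
def S_GT : Prop := (∀ (k : ℕ) (δ : ℝ) (w : ℂ), 1 ≤ k → 0 < δ → δ < 1 / 2 → 0 ≤ w.re → w.re ≤ 1 →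
    Integrable (fun t : ℝ => ‖Gw k δ w t‖ * (1 + |t|) ^ 3) ∧ Continuous (Gw k δ w)) ∧
  ∃ T0 : ℝ, ∀ T : ℝ, T0 ≤ T → ∀ k : ℕ, T ^ (1 / 1000000 : ℝ) ≤ k → (k : ℝ) ≤ T ^ (1 / 100 : ℝ) →
  ∀ t0 : ℝ, T ≤ t0 → t0 ≤ 2 * T → ∀ w : ℂ, 0 ≤ w.re → w.re ≤ 1 → |w.im| ≤ Real.log T →
  (∫ t in Set.Iio (T / 2), ‖Gw k (k / t0) w t‖ * (1 + |t|) ^ 3) ≤ T ^ (-10 : ℝ) ∧
  (∫ t in Set.Ioi (4 * T), ‖Gw k (k / t0) w t‖ * (1 + |t|) ^ 3) ≤ T ^ (-10 : ℝ)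

/-- TW: the exact transform of `ζ(1/2+it)` against the kernel -/
def S_TW : Prop := ∀ (k : ℕ) (δ : ℝ) (w : ℂ) (y : ℝ), 1 ≤ k → 0 < δ → δ < 1 / 2 → 0 ≤ w.re →
  w.re ≤ 1 → 0 < y →
  Summable (fun b : ℕ => ((b : ℝ) + 1) ^ (-(1 / 2) : ℝ) * ‖Ph k δ w (((b : ℝ) + 1) * y)‖) ∧
  ∫ t : ℝ, zc t * osc y t * Gw k δ w t = Bs k δ w y -
    2 * Real.pi * ((y ^ (-(1 / 2) : ℝ) : ℝ) : ℂ) * cG k δ w *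
      Complex.Gamma ((k : ℂ) + 3 / 4 + w) * bas (Real.tan (2 * δ)) ^ (-(1 / 4) : ℂ)

/-- RS: the residue is negligible -/
def S_RS : Prop := ∃ T0 : ℝ, ∀ T : ℝ, T0 ≤ T → ∀ k : ℕ, T ^ (1 / 1000000 : ℝ) ≤ k →
  (k : ℝ) ≤ T ^ (1 / 100 : ℝ) →
  ∀ t0 : ℝ, T ≤ t0 → t0 ≤ 2 * T → ∀ w : ℂ, 0 ≤ w.re → w.re ≤ 1 → |w.im| ≤ Real.log T →
  ‖cG k (k / t0) w * Complex.Gamma ((k : ℂ) + 3 / 4 + w) *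
    bas (Real.tan (2 * (k / t0))) ^ (-(1 / 4) : ℂ)‖ ≤ T ^ (-10 : ℝ)

/-- INN: the inner integral -/
def S_INN : Prop := ∃ T0 : ℝ, ∀ T : ℝ, T0 ≤ T → ∀ k : ℕ, T ^ (1 / 1000000 : ℝ) ≤ k →
  (k : ℝ) ≤ T ^ (1 / 100 : ℝ) →
  ∀ t0 : ℝ, T ≤ t0 → t0 ≤ 2 * T → ∀ w : ℂ, 0 ≤ w.re → w.re ≤ 1 / 100 → |w.im| ≤ Real.log T →
  ∀ y : ℝ, T ^ (-2 : ℝ) ≤ y → y ≤ T ^ (2 : ℝ) →
  ‖(∫ t in (T / 2)..(4 * T), (om k (k / t0) t : ℂ) * (hZ t : ℂ) * osc y t *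
      ((t / (2 * Real.pi) : ℝ) : ℂ) ^ w) - Bs k (k / t0) w y‖ ≤ T ^ (-(3 / 5) : ℝ)

/-! ### Boxes -/

/-- W1: the partition of unity -/
def S_W1 : Prop := ContDiff ℝ (⊤ : ℕ∞) ww ∧ (∀ x : ℝ, ww x ≠ 0 → 1 / 2 ≤ x ∧ x ≤ 2) ∧
  (∀ x : ℝ, 0 ≤ ww x ∧ ww x ≤ 1) ∧
  (∀ (L : ℕ) (x : ℝ), 1 ≤ x → x ≤ 2 ^ L → ∑ l ∈ Finset.range (L + 1), ww (x / 2 ^ l) = 1)

/-- W2: the weights `ww(r) r^(-s)` and their conjugates -/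
def S_W2 : Prop := ∃ C : ℝ, 1 ≤ C ∧ ∀ s : ℂ, |s.re| ≤ 1 →
  Wt (C * (1 + ‖s‖) ^ 4) (fun r : ℝ => (ww r : ℂ) * (r : ℂ) ^ (-s)) ∧
  Wt (C * (1 + ‖s‖) ^ 4) (fun r : ℝ => (starRingEnd ℂ) ((ww r : ℂ) * (r : ℂ) ^ (-s)))

/-- ME: Mellin separation -/
def S_ME : Prop := ∀ (η : ℝ) (κ : ℂ) (x : ℝ), 0 < η → 0 < κ.re → 0 < x →
  Integrable (fun τ : ℝ => Complex.Gamma ((κ.re : ℂ) + τ * I) * (η : ℂ) ^ (-((κ.re : ℂ) + τ * I)) *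
      ((Real.pi * x ^ 2 : ℝ) : ℂ) ^ (κ - ((κ.re : ℂ) + τ * I))) ∧
  ((Real.pi * x ^ 2 : ℝ) : ℂ) ^ κ * ((Real.exp (-(Real.pi * η * x ^ 2)) : ℝ) : ℂ) =
    (1 / (2 * Real.pi)) * ∫ τ : ℝ, Complex.Gamma ((κ.re : ℂ) + τ * I) *
      (η : ℂ) ^ (-((κ.re : ℂ) + τ * I)) *
      ((Real.pi * x ^ 2 : ℝ) : ℂ) ^ (κ - ((κ.re : ℂ) + τ * I))

/-- B1: bound of a relevant dyadic box -/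
def S_B1 : Prop := ∃ T0 : ℝ, ∀ T : ℝ, T0 ≤ T → ∀ k : ℕ, 1 ≤ k →
  (k : ℝ) ≤ 2 * T ^ (1 / 1000000 : ℝ) → ∀ t0 : ℝ, T ≤ t0 → t0 ≤ 2 * T →
  ∀ w : ℂ, w.re = 1 / 1000000 → |w.im| ≤ Real.log T →
  ∀ B C H : ℝ, 1 ≤ B → 1 ≤ C → 1 ≤ H → H ≤ C → C * H ≤ T ^ (1 + 1 / 100000 : ℝ) →
  T ^ (1 / 2 : ℝ) / 100 ≤ B * C / H → B * C / H ≤ 100 * T ^ (1 / 2 : ℝ) →
  ‖Xb k (k / t0) w B C H‖ ≤ T ^ (-(1 / 40000) : ℝ)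

/-- OFF: the transform of the kernel is negligible away from `x ≈ T^(1/2)` -/
def S_OFF : Prop := ∃ T0 : ℝ, ∀ T : ℝ, T0 ≤ T → ∀ k : ℕ, T ^ (1 / 1000000 : ℝ) ≤ k →
  (k : ℝ) ≤ T ^ (1 / 100 : ℝ) →
  ∀ t0 : ℝ, T ≤ t0 → t0 ≤ 2 * T → ∀ w : ℂ, 0 ≤ w.re → w.re ≤ 1 → |w.im| ≤ Real.log T →
  ∀ x : ℝ, 0 < x → (x ≤ T ^ (1 / 2 : ℝ) / 10 ∨ 4 * T ^ (1 / 2 : ℝ) ≤ x) →
  ‖Ph k (k / t0) w x‖ ≤ T ^ (-20 : ℝ) * (1 + x) ^ (-4 : ℝ)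

/-- BS: sum over all `b` -/
def S_BS : Prop := ∃ T0 : ℝ, ∀ T : ℝ, T0 ≤ T → ∀ k : ℕ, T ^ (1 / 1000000 : ℝ) ≤ k →
  (k : ℝ) ≤ 2 * T ^ (1 / 1000000 : ℝ) → ∀ t0 : ℝ, T ≤ t0 → t0 ≤ 2 * T →
  ∀ w : ℂ, w.re = 1 / 1000000 → |w.im| ≤ Real.log T →
  ∀ C H : ℝ, 1 ≤ C → 1 ≤ H → H ≤ C → C * H ≤ T ^ (1 + 1 / 100000 : ℝ) →
  ‖Yc k (k / t0) w C H‖ ≤ T ^ (-(1 / 45000) : ℝ)

/-! ### Assembly -/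

/-- IJ: a dyadic piece of `D2` against the window -/
def S_IJ : Prop := ∃ T0 : ℝ, ∀ T : ℝ, T0 ≤ T → ∀ k : ℕ, T ^ (1 / 1000000 : ℝ) ≤ k →
  (k : ℝ) ≤ 2 * T ^ (1 / 1000000 : ℝ) → ∀ t0 : ℝ, T ≤ t0 → t0 ≤ 2 * T →
  ∀ i j : ℕ, j ≤ i → (2 : ℝ) ^ i * 2 ^ j ≤ T ^ (1 + 1 / 100000 : ℝ) →
  ‖∫ t in (T / 2)..(4 * T), (om k (k / t0) t : ℂ) * (hZ t : ℂ) * Dij T i j t‖ ≤
    T ^ (-(1 / 47000) : ℝ)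

/-- JB: windowed cubic moments -/
def S_JB : Prop := ∃ T0 : ℝ, ∀ T : ℝ, T0 ≤ T → ∀ k : ℕ, T ^ (1 / 1000000 : ℝ) ≤ k →
  (k : ℝ) ≤ 2 * T ^ (1 / 1000000 : ℝ) → ∀ t0 : ℝ, T ≤ t0 → t0 ≤ 2 * T →
  |∫ t in Set.Ioi (0 : ℝ), om k (k / t0) t * hZ t ^ 3| ≤ T ^ (-(1 / 50000) : ℝ)

/-- OM: the superposition of Gamma windows -/
def S_OM : Prop := ∃ c : ℝ, 0 < c ∧ ∀ (k : ℕ) (T ρ t : ℝ), 1 ≤ k → 0 < T → 0 < ρ → ρ ≤ 1 / 2 →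
  0 < t → (0 ≤ Om k T t ∧ Om k T t ≤ 1) ∧
  ((t ≤ (1 - ρ) * T ∨ 2 * (1 + ρ) * T ≤ t) → Om k T t ≤ (1 / c) * Real.exp (-(c * k * ρ ^ 2))) ∧
  (4 * T ≤ t → Om k T t ≤ (1 / c) * Real.exp (-(c * k * t / T))) ∧
  ((1 + ρ) * T ≤ t → t ≤ 2 * (1 - ρ) * T → 1 - Om k T t ≤ (1 / c) * Real.exp (-(c * k * ρ ^ 2)))

/-- the theorem -/
def Target : Prop := ∃ c C : ℝ, 0 < c ∧ c < 1 ∧ ∀ T : ℝ, 1 ≤ T →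
  |∫ t in (0 : ℝ)..T, hZ t ^ 3| ≤ C * T ^ c

end

end Pool.Agent.H408R2.CM
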