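import Mathlib
import Pool.Agent.H408R2.CM.Stubs

set_option autoImplicit false

open Complex MeasureTheory Filter Topology

namespace Pool.Agent.H408R2.CM

open Pool.Agent.H304R4.CM

noncomputable section

theorem M4_norm_osc (x t : ℝ) : ‖osc x t‖ = 1 := by
  unfold osc
  exact Complex.norm_exp_ofReal_mul_I _

/-- index set -/
def M4_S (T e : ℝ) : Finset (ℕ × ℕ) :=
  ((Finset.Icc 1 ⌊T ^ 2⌋₊) ×ˢ (Finset.Icc 1 ⌊T ^ 2⌋₊)).filter
    (fun p : ℕ × ℕ => (p.1 : ℝ) * p.2 ≤ T ^ (1 + e))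

theorem M4_PP_eq (T e : ℝ) (w : ℂ) (t : ℝ) : PP T e w t =
    ∑ p ∈ M4_S T e, (((p.1 : ℝ) * p.2 : ℝ) : ℂ) ^ (-(1 / 2 + w)) * osc ((p.1 : ℝ) / p.2) t := rfl

theorem M4_mem {T e : ℝ} {p : ℕ × ℕ} (hp : p ∈ M4_S T e) : 1 ≤ (p.1 : ℝ) * p.2 := by
  unfold M4_S at hp
  rw [Finset.mem_filter, Finset.mem_product, Finset.mem_Icc, Finset.mem_Icc] at hp
  have h1 : (1 : ℝ) ≤ p.1 := by exact_mod_cast hp.1.1.1
  have h2 : (1 : ℝ) ≤ p.2 := by exact_mod_cast hp.1.2.1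
  nlinarith

theorem M4_term_norm (r : ℝ) (hr : 1 ≤ r) (w : ℂ) (hw : 0 ≤ w.re) (x t : ℝ) :
    ‖(r : ℂ) ^ (-(1 / 2 + w)) * osc x t‖ ≤ 1 := by
  rw [norm_mul, M4_norm_osc, mul_one, Complex.norm_cpow_eq_rpow_re_of_pos (by linarith)]
  apply Real.rpow_le_one_of_one_le_of_nonpos hr
  simp only [neg_re, add_re]
  have : ((1 / 2 : ℂ)).re = 1 / 2 := by norm_num
  rw [this]
  linarith

theorem M4_PP_le (T e : ℝ) (w : ℂ) (hw : 0 ≤ w.re) (t : ℝ) :
    ‖PP T e w t‖ ≤ ((M4_S T e).card : ℝ) := by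
  rw [M4_PP_eq]
  calc ‖∑ p ∈ M4_S T e, (((p.1 : ℝ) * p.2 : ℝ) : ℂ) ^ (-(1 / 2 + w)) *
        osc ((p.1 : ℝ) / p.2) t‖
      ≤ ∑ p ∈ M4_S T e, ‖(((p.1 : ℝ) * p.2 : ℝ) : ℂ) ^ (-(1 / 2 + w)) *
        osc ((p.1 : ℝ) / p.2) t‖ := norm_sum_le _ _
    _ ≤ ∑ _p ∈ M4_S T e, (1 : ℝ) :=
        Finset.sum_le_sum fun p hp => M4_term_norm _ (M4_mem hp) w hw _ _
    _ = ((M4_S T e).card : ℝ) := by simp

theorem M4_PP_cont0 {X : Type*} [TopologicalSpace X] (T e : ℝ) (f g : X → ℝ) (hf : Continuous f)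
    (hg : Continuous g) :
    Continuous (fun q : X => PP T e ((e : ℂ) + (f q : ℂ) * I) (g q)) := by
  simp only [M4_PP_eq]
  apply continuous_finsetSum
  intro p hp
  have hr := M4_mem hp
  apply Continuous.mul
  · have hne : (((p.1 : ℝ) * p.2 : ℝ) : ℂ) ≠ 0 := by
      have : ((p.1 : ℝ) * p.2 : ℝ) ≠ 0 := by linarith
      exact_mod_cast this
    apply Continuous.const_cpow _ (Or.inl hne)
    fun_prop
  · unfold osc
    fun_prop

theorem M4_PP_cont (T e : ℝ) :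
    Continuous (fun q : ℝ × ℝ => PP T e ((e : ℂ) + (q.1 : ℂ) * I) q.2) :=
  M4_PP_cont0 T e (fun q : ℝ × ℝ => q.1) (fun q => q.2) continuous_fst continuous_snd

theorem M4_ew_cont (e : ℝ) (he : 0 < e) : Continuous (fun v : ℝ => ew e v) := by
  unfold ew
  apply Continuous.div
  · fun_prop
  · fun_prop
  · intro v h
    have := congrArg Complex.re h
    simp at this
    linarith

theorem M4_term_eq (r t e v : ℝ) (hr : 1 ≤ r) (ht : 0 < t) (o u : ℂ) :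
    (((r ^ (-(1 / 2) : ℝ) : ℝ) : ℂ) * o) *
        (((2 * Real.pi * r / t : ℝ) : ℂ) ^ (-((e : ℂ) + v * I)) * u) =
      u * ((t / (2 * Real.pi) : ℝ) : ℂ) ^ ((e : ℂ) + v * I) *
        ((r : ℂ) ^ (-(1 / 2 + ((e : ℂ) + v * I))) * o) := by
  have hr0 : (0 : ℝ) < r := by linarith
  have hpi := Real.pi_pos
  have h1 : (2 * Real.pi * r / t : ℝ) = r * (t / (2 * Real.pi))⁻¹ := by
    field_simp
  set w : ℂ := (e : ℂ) + v * I with hw
  have hpos : 0 < t / (2 * Real.pi) := by positivity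
  have h2 : ((2 * Real.pi * r / t : ℝ) : ℂ) ^ (-w) =
      (r : ℂ) ^ (-w) * ((t / (2 * Real.pi) : ℝ) : ℂ) ^ w := by
    rw [h1, ofReal_mul, Complex.mul_cpow_ofReal_nonneg hr0.le (inv_nonneg.mpr hpos.le)]
    congr 1
    rw [ofReal_inv, Complex.inv_cpow, Complex.cpow_neg, inv_inv]
    rw [Complex.arg_ofReal_of_nonneg hpos.le]
    exact hpi.ne
  have h3 : ((r ^ (-(1 / 2) : ℝ) : ℝ) : ℂ) = (r : ℂ) ^ (-(1 / 2) : ℂ) := by
    rw [Complex.ofReal_cpow hr0.le]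
    norm_num
  have h4 : (r : ℂ) ^ (-(1 / 2 + w)) = (r : ℂ) ^ (-(1 / 2) : ℂ) * (r : ℂ) ^ (-w) := by
    rw [← Complex.cpow_add _ _ (by exact_mod_cast hr0.ne')]
    congr 1
    ring
  rw [h2, h3, h4]
  ring

/-- the part with small `c h` -/
theorem M4_DB (hV : S_V) (T e t : ℝ) (he : 0 < e) (ht : 0 < t) :
    ∑ p ∈ M4_S T e, (((((p.1 : ℝ) * p.2) ^ (-(1 / 2) : ℝ) : ℝ) : ℂ) * osc ((p.1 : ℝ) / p.2) t *
      VV 1 (2 * Real.pi * ((p.1 : ℝ) * p.2) / t)) =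
    (1 / (2 * Real.pi)) * ∫ v : ℝ, ew e v * ((t / (2 * Real.pi) : ℝ) : ℂ) ^ ((e : ℂ) + v * I) *
      PP T e ((e : ℂ) + v * I) t := by
  obtain ⟨h1, -, -, -, h5, -, -⟩ := hV
  have hpi := Real.pi_pos
  have key : ∀ p ∈ M4_S T e,
      (((((p.1 : ℝ) * p.2) ^ (-(1 / 2) : ℝ) : ℝ) : ℂ) * osc ((p.1 : ℝ) / p.2) t *
        VV 1 (2 * Real.pi * ((p.1 : ℝ) * p.2) / t)) =
      (1 / (2 * Real.pi)) * ∫ v : ℝ, ew e v * ((t / (2 * Real.pi) : ℝ) : ℂ) ^ ((e : ℂ) + v * I) *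
        ((((p.1 : ℝ) * p.2 : ℝ) : ℂ) ^ (-(1 / 2 + ((e : ℂ) + v * I))) *
          osc ((p.1 : ℝ) / p.2) t) := by
    intro p hp
    have hr := M4_mem hp
    rw [← h1 e _ he (by positivity)]
    unfold VV
    rw [mul_left_comm, ← integral_const_mul]
    congr 2
    funext v
    exact M4_term_eq _ t e v hr ht _ _
  rw [Finset.sum_congr rfl key, ← Finset.mul_sum, ← integral_finsetSum]
  · congr 2
    funext v
    rw [M4_PP_eq, Finset.mul_sum]
  · intro p hp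
    have hr := M4_mem hp
    have h6 := (h5 e (2 * Real.pi * ((p.1 : ℝ) * p.2) / t) he (by positivity)).const_mul
      (((((p.1 : ℝ) * p.2) ^ (-(1 / 2) : ℝ) : ℝ) : ℂ) * osc ((p.1 : ℝ) / p.2) t)
    refine h6.congr (Filter.Eventually.of_forall fun v => ?_)
    exact M4_term_eq _ t e v hr ht _ _

/-- Cauchy-Schwarz -/
theorem M4_CS (f g : ℝ → ℝ) (hf : ∀ v, 0 ≤ f v) (h0 : Integrable f)
    (h1 : Integrable fun v => f v * g v) (h2 : Integrable fun v => f v * g v ^ 2) :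
    (∫ v, f v * g v) ^ 2 ≤ (∫ v, f v) * ∫ v, f v * g v ^ 2 := by
  set m := ∫ v, f v with hm
  set a := ∫ v, f v * g v with ha
  set b := ∫ v, f v * g v ^ 2 with hb
  have hm0 : 0 ≤ m := integral_nonneg hf
  have hq : ∀ c : ℝ, 0 ≤ b - 2 * c * a + c ^ 2 * m := by
    intro c
    have h3 : ∫ v, f v * (g v - c) ^ 2 = b - 2 * c * a + c ^ 2 * m := by
      have : (fun v => f v * (g v - c) ^ 2) =
          fun v => (f v * g v ^ 2 - (2 * c) * (f v * g v)) + c ^ 2 * f v := by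
        funext v; ring
      rw [this, integral_add, integral_sub h2 (h1.const_mul _), integral_const_mul,
        integral_const_mul]
      · exact h2.sub (h1.const_mul _)
      · exact h0.const_mul _
    rw [← h3]
    exact integral_nonneg fun v => mul_nonneg (hf v) (sq_nonneg _)
  have hd := discrim_le_zero (a := m) (b := -2 * a) (c := b) (by
    intro x
    have := hq x
    nlinarith [this])
  unfold discrim at hd
  nlinarith [hd]

theorem M4_PP_cont' (T e t : ℝ) :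
    Continuous (fun v : ℝ => PP T e ((e : ℂ) + v * I) t) := by
  exact M4_PP_cont0 T e (fun v : ℝ => v) (fun _ => t) continuous_id continuous_const

/-- the terms -/
def M4_term (t : ℝ) (p : ℕ × ℕ) : ℂ :=
  ((((p.1 : ℝ) * p.2) ^ (-(1 / 2) : ℝ) : ℝ) : ℂ) * osc ((p.1 : ℝ) / p.2) t *
    VV 1 (2 * Real.pi * ((p.1 : ℝ) * p.2) / t)

theorem M4_near (h2 : S_V) (T e t : ℝ) (he : 0 < e) (hT : 1 ≤ T) (ht1 : T ≤ t) (ht2 : t ≤ 2 * T) :
    ‖∑ p ∈ M4_S T e, M4_term t p‖ ^ 2 ≤ ((∫ v : ℝ, ‖ew e v‖) * T ^ (2 * e)) *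
      ∫ v : ℝ, ‖ew e v‖ * ‖PP T e ((e : ℂ) + v * I) t‖ ^ 2 := by
  have hpi := Real.pi_pos
  have hpi3 := Real.pi_gt_three
  have hTpos : 0 < T := by linarith
  have ht0 : 0 < t := by linarith
  have hew : Integrable (fun v : ℝ => ‖ew e v‖) := h2.2.2.2.1 e he
  set m := ∫ v : ℝ, ‖ew e v‖ with hm
  have hre : ∀ v : ℝ, 0 ≤ ((e : ℂ) + v * I).re := by
    intro v
    simp
    exact he.le
  have hDB := M4_DB h2 T e t he ht0
  have hDB' : ∑ p ∈ M4_S T e, M4_term t p = (1 / (2 * Real.pi)) *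
      ∫ v : ℝ, ew e v * ((t / (2 * Real.pi) : ℝ) : ℂ) ^ ((e : ℂ) + v * I) *
        PP T e ((e : ℂ) + v * I) t := hDB
  have hPc : Continuous (fun v : ℝ => PP T e ((e : ℂ) + v * I) t) := M4_PP_cont' T e t
  have hi1 : Integrable (fun v : ℝ => ‖ew e v‖ * ‖PP T e ((e : ℂ) + v * I) t‖) := by
    refine (hew.mul_const ((M4_S T e).card : ℝ)).mono' ?_ ?_
    · exact ((M4_ew_cont e he).norm.mul hPc.norm).aestronglyMeasurable
    · refine Filter.Eventually.of_forall fun v => ?_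
      rw [Real.norm_of_nonneg (by positivity)]
      exact mul_le_mul_of_nonneg_left (M4_PP_le T e _ (hre _) _) (norm_nonneg _)
  have hi2 : Integrable (fun v : ℝ => ‖ew e v‖ * ‖PP T e ((e : ℂ) + v * I) t‖ ^ 2) := by
    refine (hew.mul_const (((M4_S T e).card : ℝ) ^ 2)).mono' ?_ ?_
    · exact ((M4_ew_cont e he).norm.mul (hPc.norm.pow 2)).aestronglyMeasurable
    · refine Filter.Eventually.of_forall fun v => ?_
      rw [Real.norm_of_nonneg (by positivity)]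
      exact mul_le_mul_of_nonneg_left
        (pow_le_pow_left₀ (norm_nonneg _) (M4_PP_le T e _ (hre _) _) 2) (norm_nonneg _)
  have hnorm : ‖∑ p ∈ M4_S T e, M4_term t p‖ ≤
      T ^ e * ∫ v : ℝ, ‖ew e v‖ * ‖PP T e ((e : ℂ) + v * I) t‖ := by
    rw [hDB', norm_mul]
    have hA : ‖(1 / (2 * Real.pi) : ℂ)‖ ≤ 1 := by
      rw [norm_div, norm_one, norm_mul]
      simp only [Complex.norm_ofNat, Complex.norm_real, Real.norm_of_nonneg hpi.le]
      rw [div_le_one (by positivity)]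
      linarith
    have hB : ‖∫ v : ℝ, ew e v * ((t / (2 * Real.pi) : ℝ) : ℂ) ^ ((e : ℂ) + v * I) *
        PP T e ((e : ℂ) + v * I) t‖ ≤
        T ^ e * ∫ v : ℝ, ‖ew e v‖ * ‖PP T e ((e : ℂ) + v * I) t‖ := by
      rw [← integral_const_mul]
      refine (norm_integral_le_integral_norm _).trans ?_
      apply integral_mono_of_nonneg
      · exact Filter.Eventually.of_forall fun v => norm_nonneg _
      · exact hi1.const_mul _
      · refine Filter.Eventually.of_forall fun v => ?_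
        show ‖ew e v * ((t / (2 * Real.pi) : ℝ) : ℂ) ^ ((e : ℂ) + v * I) *
          PP T e ((e : ℂ) + v * I) t‖ ≤ T ^ e * (‖ew e v‖ * ‖PP T e ((e : ℂ) + v * I) t‖)
        have hre' : ((e : ℂ) + v * I).re = e := by simp
        rw [norm_mul, norm_mul, Complex.norm_cpow_eq_rpow_re_of_pos (by positivity), hre']
        have hle : (t / (2 * Real.pi)) ^ e ≤ T ^ e := by
          apply Real.rpow_le_rpow (by positivity) _ he.le
          rw [div_le_iff₀ (by positivity)]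
          nlinarith [ht2]
        calc ‖ew e v‖ * (t / (2 * Real.pi)) ^ e * ‖PP T e ((e : ℂ) + v * I) t‖
            ≤ ‖ew e v‖ * T ^ e * ‖PP T e ((e : ℂ) + v * I) t‖ := by
              apply mul_le_mul_of_nonneg_right _ (norm_nonneg _)
              exact mul_le_mul_of_nonneg_left hle (norm_nonneg _)
          _ = _ := by ring
    calc _ ≤ 1 * (T ^ e * ∫ v : ℝ, ‖ew e v‖ * ‖PP T e ((e : ℂ) + v * I) t‖) :=
          mul_le_mul hA hB (norm_nonneg _) zero_le_one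
      _ = _ := one_mul _
  have hcs := M4_CS (fun v => ‖ew e v‖) (fun v => ‖PP T e ((e : ℂ) + v * I) t‖)
    (fun v => norm_nonneg _) hew hi1 hi2
  calc ‖∑ p ∈ M4_S T e, M4_term t p‖ ^ 2
      ≤ (T ^ e * ∫ v : ℝ, ‖ew e v‖ * ‖PP T e ((e : ℂ) + v * I) t‖) ^ 2 :=
        pow_le_pow_left₀ (norm_nonneg _) hnorm 2
    _ = T ^ (2 * e) * (∫ v : ℝ, ‖ew e v‖ * ‖PP T e ((e : ℂ) + v * I) t‖) ^ 2 := by
        rw [mul_pow, ← Real.rpow_natCast, ← Real.rpow_mul hTpos.le]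
        congr 2
        push_cast
        ring
    _ ≤ T ^ (2 * e) * (m * ∫ v : ℝ, ‖ew e v‖ * ‖PP T e ((e : ℂ) + v * I) t‖ ^ 2) := by
        apply mul_le_mul_of_nonneg_left _ (by positivity)
        exact hcs
    _ = _ := by ring

theorem M4_far (T e t CV : ℝ) (he : 0 < e) (hCV : 0 < CV)
    (hV : ∀ x : ℝ, 0 < x → ‖VV 1 x‖ ≤ CV * x ^ (-(5 / e))) (hT : 1 ≤ T) (ht1 : T ≤ t)
    (ht2 : t ≤ 2 * T) :
    ‖∑ p ∈ ((Finset.Icc 1 ⌊T ^ 2⌋₊) ×ˢ (Finset.Icc 1 ⌊T ^ 2⌋₊)).filter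
      (fun p : ℕ × ℕ => ¬ ((p.1 : ℝ) * p.2 ≤ T ^ (1 + e))), M4_term t p‖ ≤ CV := by
  have hpi := Real.pi_pos
  have hpi3 := Real.pi_gt_three
  have hTpos : 0 < T := by linarith
  have ht0 : 0 < t := by linarith
  have hterm_le : ∀ p ∈ ((Finset.Icc 1 ⌊T ^ 2⌋₊) ×ˢ (Finset.Icc 1 ⌊T ^ 2⌋₊)).filter
      (fun p : ℕ × ℕ => ¬ ((p.1 : ℝ) * p.2 ≤ T ^ (1 + e))), ‖M4_term t p‖ ≤ CV * T ^ (-5 : ℝ) := by
    intro p hp
    rw [Finset.mem_filter, Finset.mem_product, Finset.mem_Icc, Finset.mem_Icc] at hp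
    have hp1 : (1 : ℝ) ≤ p.1 := by exact_mod_cast hp.1.1.1
    have hp2 : (1 : ℝ) ≤ p.2 := by exact_mod_cast hp.1.2.1
    have hr : (1 : ℝ) ≤ (p.1 : ℝ) * p.2 := by nlinarith
    have hlt : T ^ (1 + e) < (p.1 : ℝ) * p.2 := not_le.mp hp.2
    unfold M4_term
    rw [norm_mul, norm_mul, M4_norm_osc, mul_one, Complex.norm_real,
      Real.norm_of_nonneg (by positivity)]
    have hA : ((p.1 : ℝ) * p.2) ^ (-(1 / 2) : ℝ) ≤ 1 :=
      Real.rpow_le_one_of_one_le_of_nonpos hr (by norm_num)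
    have hxpos : 0 < 2 * Real.pi * ((p.1 : ℝ) * p.2) / t := by positivity
    have hx : T ^ e ≤ 2 * Real.pi * ((p.1 : ℝ) * p.2) / t := by
      rw [le_div_iff₀ ht0]
      calc T ^ e * t ≤ T ^ e * (2 * T) := by
            apply mul_le_mul_of_nonneg_left ht2 (by positivity)
        _ = 2 * T ^ (1 + e) := by
            rw [Real.rpow_add hTpos, Real.rpow_one]; ring
        _ ≤ 2 * ((p.1 : ℝ) * p.2) := by linarith
        _ ≤ 2 * Real.pi * ((p.1 : ℝ) * p.2) := by nlinarith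
    have hB : ‖VV 1 (2 * Real.pi * ((p.1 : ℝ) * p.2) / t)‖ ≤ CV * T ^ (-5 : ℝ) := by
      refine (hV _ hxpos).trans ?_
      apply mul_le_mul_of_nonneg_left _ hCV.le
      calc (2 * Real.pi * ((p.1 : ℝ) * p.2) / t) ^ (-(5 / e)) ≤ (T ^ e) ^ (-(5 / e)) :=
            Real.rpow_le_rpow_of_nonpos (by positivity) hx (by
              have : 0 < 5 / e := by positivity
              linarith)
        _ = T ^ (-5 : ℝ) := by
            rw [← Real.rpow_mul hTpos.le]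
            congr 1
            field_simp
    calc ((p.1 : ℝ) * p.2) ^ (-(1 / 2) : ℝ) *
          ‖VV 1 (2 * Real.pi * ((p.1 : ℝ) * p.2) / t)‖ ≤ 1 * (CV * T ^ (-5 : ℝ)) :=
          mul_le_mul hA hB (norm_nonneg _) zero_le_one
      _ = _ := one_mul _
  refine (norm_sum_le _ _).trans ((Finset.sum_le_sum hterm_le).trans ?_)
  rw [Finset.sum_const, nsmul_eq_mul]
  have hcard : ((((Finset.Icc 1 ⌊T ^ 2⌋₊) ×ˢ (Finset.Icc 1 ⌊T ^ 2⌋₊)).filter
      (fun p : ℕ × ℕ => ¬ ((p.1 : ℝ) * p.2 ≤ T ^ (1 + e)))).card : ℝ) ≤ T ^ 4 := by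
    have hc1 := Finset.card_filter_le ((Finset.Icc 1 ⌊T ^ 2⌋₊) ×ˢ (Finset.Icc 1 ⌊T ^ 2⌋₊))
      (fun p : ℕ × ℕ => ¬ ((p.1 : ℝ) * p.2 ≤ T ^ (1 + e)))
    rw [Finset.card_product, Nat.card_Icc, Nat.add_sub_cancel] at hc1
    have hfl : (⌊T ^ 2⌋₊ : ℝ) ≤ T ^ 2 := Nat.floor_le (by positivity)
    calc _ ≤ ((⌊T ^ 2⌋₊ * ⌊T ^ 2⌋₊ : ℕ) : ℝ) := by exact_mod_cast hc1
      _ = (⌊T ^ 2⌋₊ : ℝ) * (⌊T ^ 2⌋₊ : ℝ) := by push_cast; ring
      _ ≤ T ^ 2 * T ^ 2 := mul_le_mul hfl hfl (by positivity) (by positivity)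
      _ = T ^ 4 := by ring
  calc _ ≤ T ^ 4 * (CV * T ^ (-5 : ℝ)) :=
        mul_le_mul_of_nonneg_right hcard (by positivity)
    _ = CV * (T ^ (4 : ℝ) * T ^ (-5 : ℝ)) := by
        rw [show (T ^ (4 : ℝ) : ℝ) = T ^ (4 : ℕ) by exact_mod_cast Real.rpow_natCast T 4]
        ring
    _ = CV * T ^ (-1 : ℝ) := by
        rw [← Real.rpow_add hTpos]; norm_num
    _ ≤ CV * 1 := by
        apply mul_le_mul_of_nonneg_left _ hCV.le
        exact Real.rpow_le_one_of_one_le_of_nonpos hT (by norm_num)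
    _ = CV := mul_one _

theorem M4 (h1 : S_AFE) (h2 : S_V) (h3 : S_P2) (hZ : S_Z) (h4 : S_GZ) : S_M4 := by
  intro ε hε
  obtain ⟨-, -, -, -, hzc⟩ := hZ
  have hpi := Real.pi_pos
  have hpi3 := Real.pi_gt_three
  -- the parameter
  set e : ℝ := min (ε / 10) (1 / 2) with hedef
  have he : 0 < e := lt_min (by linarith) (by norm_num)
  have he1 : e ≤ 1 / 2 := min_le_right _ _
  have he2 : 6 * e ≤ ε := by
    have : e ≤ ε / 10 := min_le_left _ _
    linarith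
  obtain ⟨T0, hT0⟩ := h1 (2 / 5) (by norm_num)
  obtain ⟨CV, hCV, hV⟩ := h2.2.2.1 (5 / e) (by positivity)
  obtain ⟨CP, hCP, hP⟩ := h3 e he he1
  obtain ⟨CZ, hCZ, hZb⟩ := h4
  have hew : Integrable (fun v : ℝ => ‖ew e v‖) := h2.2.2.2.1 e he
  set m := ∫ v : ℝ, ‖ew e v‖ with hm
  have hm0 : 0 ≤ m := integral_nonneg fun v => norm_nonneg _
  set T1 : ℝ := max T0 1 with hT1
  have hT1' : 1 ≤ T1 := le_max_right _ _
  -- constants
  set CA : ℝ := CV with hCA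
  refine ⟨CZ ^ 4 * (1 + 2 * T1) ^ 8 + (2 * (2 * CA + 1) ^ 2 + 8 * (m ^ 2 * CP)) + 1,
    by positivity, ?_⟩
  intro T hT
  have hTε : T ≤ T ^ (1 + ε) := by
    calc T = T ^ (1 : ℝ) := (Real.rpow_one T).symm
      _ ≤ T ^ (1 + ε) := Real.rpow_le_rpow_of_exponent_le hT (by linarith)
  by_cases hlarge : T1 ≤ T
  swap
  · -- small T
    push Not at hlarge
    have hb : ∀ t ∈ Set.uIoc T (2 * T), ‖‖zc t‖ ^ 4‖ ≤ CZ ^ 4 * (1 + 2 * T1) ^ 8 := by
      intro t ht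
      rw [Set.uIoc_of_le (by linarith)] at ht
      rw [Real.norm_of_nonneg (by positivity)]
      have ht0 : |t| ≤ 2 * T1 := by
        rw [abs_of_pos (by linarith [ht.1])]
        linarith [ht.2]
      calc ‖zc t‖ ^ 4 ≤ (CZ * (1 + |t|) ^ 2) ^ 4 :=
            pow_le_pow_left₀ (norm_nonneg _) (hZb t) 4
        _ = CZ ^ 4 * (1 + |t|) ^ 8 := by ring
        _ ≤ CZ ^ 4 * (1 + 2 * T1) ^ 8 := by
            apply mul_le_mul_of_nonneg_left _ (by positivity)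
            exact pow_le_pow_left₀ (by positivity) (by linarith) 8
    have h5 := intervalIntegral.norm_integral_le_of_norm_le_const hb
    have h6 : ∫ t in T..(2 * T), ‖zc t‖ ^ 4 ≤ CZ ^ 4 * (1 + 2 * T1) ^ 8 * T := by
      calc ∫ t in T..(2 * T), ‖zc t‖ ^ 4 ≤ ‖∫ t in T..(2 * T), ‖zc t‖ ^ 4‖ := le_abs_self _
        _ ≤ _ := h5
        _ = CZ ^ 4 * (1 + 2 * T1) ^ 8 * T := by
            rw [show 2 * T - T = T by ring, abs_of_pos (by linarith)]
    calc ∫ t in T..(2 * T), ‖zc t‖ ^ 4 ≤ CZ ^ 4 * (1 + 2 * T1) ^ 8 * T := h6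
      _ ≤ CZ ^ 4 * (1 + 2 * T1) ^ 8 * T ^ (1 + ε) :=
          mul_le_mul_of_nonneg_left hTε (by positivity)
      _ ≤ _ := by
          apply mul_le_mul_of_nonneg_right _ (by positivity)
          have : 0 ≤ 2 * (2 * CA + 1) ^ 2 + 8 * (m ^ 2 * CP) := by positivity
          linarith
  -- large T
  have hTT0 : T0 ≤ T := le_trans (le_max_left _ _) hlarge
  have hTpos : 0 < T := by linarith
  -- the function G
  set G : ℝ → ℝ := fun t => ∫ v : ℝ, ‖ew e v‖ * ‖PP T e ((e : ℂ) + v * I) t‖ ^ 2 with hG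
  -- integrability on the product
  have hre : ∀ v : ℝ, 0 ≤ ((e : ℂ) + v * I).re := by
    intro v
    simp
    exact he.le
  set μ : Measure ℝ := volume.restrict (Set.Ioc T (2 * T)) with hμ
  have hprod : Integrable (fun q : ℝ × ℝ => ‖ew e q.1‖ * ‖PP T e ((e : ℂ) + (q.1 : ℂ) * I) q.2‖ ^ 2)
      (volume.prod μ) := by
    have hb : Integrable (fun q : ℝ × ℝ => ‖ew e q.1‖ * ((M4_S T e).card : ℝ) ^ 2)
        (volume.prod μ) := by
      have : IsFiniteMeasure μ := by rw [hμ]; infer_instance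
      exact (hew.comp_fst μ).mul_const _
    refine hb.mono' ?_ ?_
    · apply Continuous.aestronglyMeasurable
      exact ((M4_ew_cont e he).comp continuous_fst).norm.mul ((M4_PP_cont T e).norm.pow 2)
    · refine Filter.Eventually.of_forall fun q => ?_
      rw [Real.norm_of_nonneg (by positivity)]
      apply mul_le_mul_of_nonneg_left _ (norm_nonneg _)
      exact pow_le_pow_left₀ (norm_nonneg _) (M4_PP_le T e _ (hre _) _) 2
  have hGint : Integrable G μ := hprod.integral_prod_right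
  have hGint' : IntervalIntegrable G volume T (2 * T) := by
    rw [intervalIntegrable_iff_integrableOn_Ioc_of_le (by linarith)]
    exact hGint
  have hGval : ∫ t in T..(2 * T), G t ≤ m * (CP * T ^ (1 + 4 * e)) := by
    rw [intervalIntegral.integral_of_le (by linarith)]
    have hswap : ∫ t in Set.Ioc T (2 * T), G t =
        ∫ v : ℝ, ∫ t in Set.Ioc T (2 * T), ‖ew e v‖ * ‖PP T e ((e : ℂ) + v * I) t‖ ^ 2 := by
      exact (integral_integral_swap (μ := volume) (ν := μ)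
        (f := fun v t => ‖ew e v‖ * ‖PP T e ((e : ℂ) + v * I) t‖ ^ 2) hprod).symm
    rw [hswap, hm, ← integral_mul_const]
    apply integral_mono_of_nonneg
    · exact Filter.Eventually.of_forall fun v => integral_nonneg fun t => by positivity
    · exact hew.mul_const _
    · refine Filter.Eventually.of_forall fun v => ?_
      show ∫ t in Set.Ioc T (2 * T), ‖ew e v‖ * ‖PP T e ((e : ℂ) + v * I) t‖ ^ 2 ≤
        ‖ew e v‖ * (CP * T ^ (1 + 4 * e))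
      rw [integral_const_mul]
      apply mul_le_mul_of_nonneg_left _ (norm_nonneg _)
      rw [← intervalIntegral.integral_of_le (by linarith)]
      exact hP T hT _ (hre v)
  -- pointwise bound
  have hpt : ∀ t ∈ Set.Icc T (2 * T),
      ‖zc t‖ ^ 4 ≤ 2 * (2 * CA + 1) ^ 2 + 8 * (m * T ^ (2 * e)) * G t := by
    intro t ht
    have ht0 : 0 < t := by linarith [ht.1]
    have hafe := hT0 T hTT0 t (by linarith [ht.1]) (by linarith [ht.2])
    rw [show (-(2 / 5) + 2 / 5 : ℝ) = 0 by norm_num, Real.rpow_zero] at hafe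
    -- splitting
    have hD : D2 T t = ∑ p ∈ (Finset.Icc 1 ⌊T ^ 2⌋₊) ×ˢ (Finset.Icc 1 ⌊T ^ 2⌋₊), M4_term t p := by
      unfold D2
      rw [Finset.sum_product]
      rfl
    have hsplit : D2 T t = ∑ p ∈ M4_S T e, M4_term t p +
        ∑ p ∈ ((Finset.Icc 1 ⌊T ^ 2⌋₊) ×ˢ (Finset.Icc 1 ⌊T ^ 2⌋₊)).filter
          (fun p : ℕ × ℕ => ¬ ((p.1 : ℝ) * p.2 ≤ T ^ (1 + e))), M4_term t p := by
      rw [hD]
      exact (Finset.sum_filter_add_sum_filter_not _ _ _).symm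
    -- the far part
    have hfar : ‖∑ p ∈ ((Finset.Icc 1 ⌊T ^ 2⌋₊) ×ˢ (Finset.Icc 1 ⌊T ^ 2⌋₊)).filter
          (fun p : ℕ × ℕ => ¬ ((p.1 : ℝ) * p.2 ≤ T ^ (1 + e))), M4_term t p‖ ≤ CA :=
      M4_far T e t CV he hCV hV hT ht.1 ht.2
    -- the near part
    have hnear : ‖∑ p ∈ M4_S T e, M4_term t p‖ ^ 2 ≤ (m * T ^ (2 * e)) * G t :=
      M4_near h2 T e t he hT ht.1 ht.2
    -- combination
    set X := ‖∑ p ∈ M4_S T e, M4_term t p‖ with hX
    have hX0 : 0 ≤ X := norm_nonneg _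
    have hz2 : ‖zc t‖ ^ 2 ≤ 2 * (X + CA) + 1 := by
      have hn : ‖((‖zc t‖ ^ 2 : ℝ) : ℂ)‖ = ‖zc t‖ ^ 2 := by
        rw [Complex.norm_real, Real.norm_of_nonneg (by positivity)]
      have hD2 : ‖D2 T t‖ ≤ X + CA := by
        rw [hsplit]
        exact (norm_add_le _ _).trans (add_le_add le_rfl hfar)
      calc ‖zc t‖ ^ 2 = ‖((‖zc t‖ ^ 2 : ℝ) : ℂ)‖ := hn.symm
        _ = ‖2 * D2 T t + (((‖zc t‖ ^ 2 : ℝ) : ℂ) - 2 * D2 T t)‖ := by congr 1; ring
        _ ≤ ‖2 * D2 T t‖ + ‖((‖zc t‖ ^ 2 : ℝ) : ℂ) - 2 * D2 T t‖ := norm_add_le _ _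
        _ ≤ 2 * (X + CA) + 1 := by
            rw [norm_mul, Complex.norm_ofNat]
            linarith
    have hCA0 : 0 ≤ CA := hCV.le
    calc ‖zc t‖ ^ 4 = (‖zc t‖ ^ 2) ^ 2 := by ring
      _ ≤ (2 * (X + CA) + 1) ^ 2 := pow_le_pow_left₀ (by positivity) hz2 2
      _ ≤ 2 * (2 * CA + 1) ^ 2 + 8 * X ^ 2 := by nlinarith [sq_nonneg (2 * X - (2 * CA + 1))]
      _ ≤ 2 * (2 * CA + 1) ^ 2 + 8 * ((m * T ^ (2 * e)) * G t) := by linarith
      _ = _ := by ring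
  -- integration
  have hzint : IntervalIntegrable (fun t => ‖zc t‖ ^ 4) volume T (2 * T) :=
    (hzc.norm.pow 4).intervalIntegrable _ _
  have hbint : IntervalIntegrable
      (fun t => 2 * (2 * CA + 1) ^ 2 + 8 * (m * T ^ (2 * e)) * G t) volume T (2 * T) :=
    intervalIntegrable_const.add (hGint'.const_mul _)
  have hTe : T ^ (2 * e) * T ^ (1 + 4 * e) ≤ T ^ (1 + ε) := by
    rw [← Real.rpow_add hTpos]
    exact Real.rpow_le_rpow_of_exponent_le hT (by linarith)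
  calc ∫ t in T..(2 * T), ‖zc t‖ ^ 4
      ≤ ∫ t in T..(2 * T), (2 * (2 * CA + 1) ^ 2 + 8 * (m * T ^ (2 * e)) * G t) :=
        intervalIntegral.integral_mono_on (by linarith) hzint hbint hpt
    _ = (2 * (2 * CA + 1) ^ 2) * T + 8 * (m * T ^ (2 * e)) * ∫ t in T..(2 * T), G t := by
        rw [intervalIntegral.integral_add intervalIntegrable_const (hGint'.const_mul _),
          intervalIntegral.integral_const, intervalIntegral.integral_const_mul, smul_eq_mul]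
        ring
    _ ≤ (2 * (2 * CA + 1) ^ 2) * T + 8 * (m * T ^ (2 * e)) * (m * (CP * T ^ (1 + 4 * e))) := by
        have : 0 ≤ 8 * (m * T ^ (2 * e)) := by positivity
        have := mul_le_mul_of_nonneg_left hGval this
        linarith
    _ = (2 * (2 * CA + 1) ^ 2) * T + 8 * (m ^ 2 * CP) * (T ^ (2 * e) * T ^ (1 + 4 * e)) := by ring
    _ ≤ (2 * (2 * CA + 1) ^ 2) * T ^ (1 + ε) + 8 * (m ^ 2 * CP) * T ^ (1 + ε) := by
        have h7 : 0 ≤ 2 * (2 * CA + 1) ^ 2 := by positivity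
        have h8 : 0 ≤ 8 * (m ^ 2 * CP) := by positivity
        have h9 := mul_le_mul_of_nonneg_left hTε h7
        have h10 := mul_le_mul_of_nonneg_left hTe h8
        linarith
    _ = (2 * (2 * CA + 1) ^ 2 + 8 * (m ^ 2 * CP)) * T ^ (1 + ε) := by ring
    _ ≤ _ := by
        apply mul_le_mul_of_nonneg_right _ (by positivity)
        have : 0 ≤ CZ ^ 4 * (1 + 2 * T1) ^ 8 := by positivity
        linarith

end

end Pool.Agent.H408R2.CM
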