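import Pool.Agent.H408R2.CM.Stubs
import Pool.Agent.H402R2.T4bA

set_option autoImplicit false

open Complex MeasureTheory Filter Topology

namespace Pool.Agent.H408R2.CM

open Pool.Agent.H304R4.CM

theorem ME_pt (η : ℝ) (κ : ℂ) (X : ℝ) (hη : 0 < η) (hX : 0 < X) (u G : ℂ) :
    (X : ℂ) ^ κ * ((1 / (((η * X : ℝ)) : ℂ)) ^ u * G) = G * (η : ℂ) ^ (-u) * (X : ℂ) ^ (κ - u) := by
  have hηX : 0 < η * X := mul_pos hη hX
  have e1 : (1 / (((η * X : ℝ)) : ℂ)) ^ u = ((η * X : ℝ) : ℂ) ^ (-u) := by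
    rw [one_div, Complex.inv_cpow, cpow_neg]
    rw [Complex.arg_ofReal_of_nonneg hηX.le]
    exact Real.pi_pos.ne
  have e2 : ((η * X : ℝ) : ℂ) ^ (-u) = (η : ℂ) ^ (-u) * (X : ℂ) ^ (-u) := by
    rw [ofReal_mul]
    exact Complex.mul_cpow_ofReal_nonneg hη.le hX.le _
  have hX0 : (X : ℂ) ≠ 0 := by exact_mod_cast hX.ne'
  rw [e1, e2, sub_eq_add_neg κ u, cpow_add _ _ hX0]
  ring

theorem ME : S_ME := by
  intro η κ x hη hκ hx
  have hX : 0 < Real.pi * x ^ 2 := by positivity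
  set X : ℝ := Real.pi * x ^ 2 with hXdef
  have hω : 0 < (((η * X : ℝ)) : ℂ).re := by
    rw [ofReal_re]; positivity
  have h1 := Pool.Agent.H402R2.T4b.vint hω hκ
  have h2 := Pool.Agent.H402R2.T4b.cahen hω hκ
  constructor
  · refine (h1.const_mul ((X : ℂ) ^ κ)).congr ?_
    exact Eventually.of_forall fun τ => ME_pt η κ X hη hX _ _
  · have e3 : ∫ τ : ℝ, Complex.Gamma ((κ.re : ℂ) + τ * I) * (η : ℂ) ^ (-((κ.re : ℂ) + τ * I)) *
        (X : ℂ) ^ (κ - ((κ.re : ℂ) + τ * I)) =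
        ∫ τ : ℝ, (X : ℂ) ^ κ * ((1 / (((η * X : ℝ)) : ℂ)) ^ ((κ.re : ℂ) + τ * I) *
          Complex.Gamma ((κ.re : ℂ) + τ * I)) := by
      refine integral_congr_ae (Eventually.of_forall fun τ => ?_)
      exact (ME_pt η κ X hη hX _ _).symm
    rw [e3, integral_const_mul, h2]
    have e4 : ((Real.exp (-(Real.pi * η * x ^ 2)) : ℝ) : ℂ) = Complex.exp (-((η * X : ℝ) : ℂ)) := by
      rw [ofReal_exp, hXdef]
      congr 1
      push_cast
      ring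
    rw [e4]
    have hpi : (Real.pi : ℂ) ≠ 0 := by exact_mod_cast Real.pi_ne_zero
    field_simp

end Pool.Agent.H408R2.CM
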