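import Pool.Agent.H408R2.CM.Stubs
import Pool.Agent.H768R2.SM_T2
import Pool.Agent.H768R2.SM_T2b

set_option autoImplicit false

open Complex MeasureTheory Filter Topology

namespace Pool.Agent.H408R2.CM

open Pool.Agent.H304R4.CM

noncomputable section

lemma MV_osc (x t : ℝ) : osc x t = Pool.Agent.H306R2.SM.ef (-(Real.log x)) t := by
  unfold osc Pool.Agent.H306R2.SM.ef
  congr 2
  norm_cast
  ring

lemma MV_osc_norm (x t : ℝ) : ‖osc x t‖ = 1 := by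
  unfold osc
  exact Complex.norm_exp_ofReal_mul_I _

lemma MV_osc_add (x s t : ℝ) : osc x (s + t) = osc x s * osc x t := by
  unfold osc
  rw [← Complex.exp_add]
  congr 1
  push_cast
  ring

lemma MV_osc_cont (x : ℝ) : Continuous (osc x) := by
  unfold osc
  fun_prop

lemma MV_card {N : ℝ} (hN : 1 ≤ N) (S : Finset (ℕ × ℕ))
    (hS : ∀ p ∈ S, 1 ≤ p.1 ∧ 1 ≤ p.2 ∧ Nat.Coprime p.1 p.2 ∧ (p.1 : ℝ) * p.2 ≤ N) :
    (S.card : ℝ) ≤ N ^ 2 := by
  have hN0 : 0 ≤ N := by linarith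
  have hsub : S ⊆ (Finset.Icc 1 ⌊N⌋₊) ×ˢ (Finset.Icc 1 ⌊N⌋₊) := by
    intro p hp
    obtain ⟨h1, h2, -, h4⟩ := hS p hp
    have e1 : (1 : ℝ) ≤ p.1 := by exact_mod_cast h1
    have e2 : (1 : ℝ) ≤ p.2 := by exact_mod_cast h2
    rw [Finset.mem_product, Finset.mem_Icc, Finset.mem_Icc]
    refine ⟨⟨h1, Nat.le_floor ?_⟩, h2, Nat.le_floor ?_⟩ <;> nlinarith
  have hc := Finset.card_le_card hsub
  rw [Finset.card_product, Nat.card_Icc, Nat.add_sub_cancel] at hc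
  have hfl : ((⌊N⌋₊ : ℕ) : ℝ) ≤ N := Nat.floor_le hN0
  calc (S.card : ℝ) ≤ ((⌊N⌋₊ * ⌊N⌋₊ : ℕ) : ℝ) := by exact_mod_cast hc
    _ = (⌊N⌋₊ : ℝ) * (⌊N⌋₊ : ℝ) := by push_cast; ring
    _ ≤ N * N := mul_le_mul hfl hfl (Nat.cast_nonneg _) hN0
    _ = N ^ 2 := by ring

/-- lower bound of the window on `[k/δ, k/δ + T]` -/
lemma MV_om_lower (k : ℕ) (δ T s : ℝ) (hδ : 0 < δ) (hT : δ * T ≤ 1) (h1 : k / δ ≤ s)
    (h2 : s ≤ k / δ + T) :
    ((k : ℝ) ^ k * Real.exp (-((k : ℝ) + 1)) / (k.factorial : ℝ)) * δ ≤ om k δ s := by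
  unfold om
  have hk : (0 : ℝ) ≤ (k : ℝ) / δ := by positivity
  have hs0 : 0 ≤ s := hk.trans h1
  have e1 : (k : ℝ) ^ k ≤ (δ * s) ^ k := by
    apply pow_le_pow_left₀ (Nat.cast_nonneg k)
    have := mul_le_mul_of_nonneg_left h1 hδ.le
    rwa [mul_div_cancel₀ _ hδ.ne'] at this
  have e2 : Real.exp (-((k : ℝ) + 1)) ≤ Real.exp (-(δ * s)) := by
    apply Real.exp_le_exp.mpr
    have := mul_le_mul_of_nonneg_left h2 hδ.le
    rw [mul_add, mul_div_cancel₀ _ hδ.ne'] at this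
    linarith
  have hf : (0 : ℝ) < (k.factorial : ℝ) := by exact_mod_cast Nat.factorial_pos k
  calc ((k : ℝ) ^ k * Real.exp (-((k : ℝ) + 1)) / (k.factorial : ℝ)) * δ
      ≤ ((δ * s) ^ k * Real.exp (-(δ * s)) / (k.factorial : ℝ)) * δ := by gcongr
    _ = δ ^ (k + 1) * s ^ k * Real.exp (-(δ * s)) / (k.factorial : ℝ) := by
        rw [mul_pow, pow_succ]; ring

theorem MV : S_MV := by
  intro ε hε
  obtain ⟨k, hk1, hk2⟩ : ∃ k : ℕ, 1 ≤ k ∧ 2 ≤ ε * ((k : ℝ) + 1) := by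
    obtain ⟨m, hm⟩ := exists_nat_ge (2 / ε)
    refine ⟨m + 1, by omega, ?_⟩
    have h1 : 2 ≤ ε * m := by
      rw [div_le_iff₀ hε] at hm
      linarith
    push_cast
    nlinarith
  obtain ⟨ck, hck⟩ : ∃ ck : ℝ, ck = (k : ℝ) ^ k * Real.exp (-((k : ℝ) + 1)) / (k.factorial : ℝ) :=
    ⟨_, rfl⟩
  have hkpos : (0 : ℝ) < k := by exact_mod_cast hk1
  have hck0 : 0 < ck := by
    rw [hck]
    have : (0 : ℝ) < (k.factorial : ℝ) := by exact_mod_cast Nat.factorial_pos k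
    positivity
  refine ⟨4 / ck, by positivity, ?_⟩
  intro N T S a hN hT hS
  have hN0 : 0 < N := by linarith
  have hT0 : 0 < T := by linarith
  have hTN : 1 ≤ T * N := by nlinarith
  obtain ⟨M, hM⟩ : ∃ M : ℝ, M = (T * N) ^ ε := ⟨_, rfl⟩
  have hM1 : 1 ≤ M := by rw [hM]; exact Real.one_le_rpow hTN hε.le
  have hM0 : 0 < M := by linarith
  obtain ⟨G, hG⟩ : ∃ G : ℝ, G = 1 / (2 * N) := ⟨_, rfl⟩
  have hG0 : 0 < G := by rw [hG]; positivity
  obtain ⟨δ, hδd⟩ : ∃ δ : ℝ, δ = min (G / M) (1 / T) := ⟨_, rfl⟩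
  have hδ0 : 0 < δ := by rw [hδd]; exact lt_min (by positivity) (by positivity)
  have hδT : δ * T ≤ 1 := by
    have : δ ≤ 1 / T := by rw [hδd]; exact min_le_right _ _
    calc δ * T ≤ 1 / T * T := mul_le_mul_of_nonneg_right this hT0.le
      _ = 1 := by field_simp
  have hδG : δ / G ≤ 1 / M := by
    have : δ ≤ G / M := by rw [hδd]; exact min_le_left _ _
    rw [div_le_iff₀ hG0]
    calc δ ≤ G / M := this
      _ = 1 / M * G := by ring
  -- the shift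
  obtain ⟨τ, hτ⟩ : ∃ τ : ℝ, τ = k / δ - T := ⟨_, rfl⟩
  obtain ⟨b, hb⟩ : ∃ b : ℕ × ℕ → ℂ, ∀ p, b p = a p * osc ((p.1 : ℝ) / p.2) (-τ) := ⟨_, fun _ => rfl⟩
  have hbn : ∀ p, ‖b p‖ = ‖a p‖ := by
    intro p; rw [hb, norm_mul, MV_osc_norm, mul_one]
  have hsep : ∀ p ∈ S, ∀ q ∈ S, p ≠ q →
      G ≤ |Real.log ((p.1 : ℝ) / p.2) - Real.log ((q.1 : ℝ) / q.2)| := by
    intro p hp q hq hpq
    obtain ⟨p1, p2, p3, p4⟩ := hS p hp
    obtain ⟨q1, q2, q3, q4⟩ := hS q hq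
    rw [hG]
    exact Pool.Agent.H768R2.SM_T2b.rat_sep N p.1 p.2 q.1 q.2 p1 p2 q1 q2 p3 q3
      (by simpa using hpq) p4 q4
  have hdiag := Pool.Agent.H768R2.SM_T2.norm_diag S b (fun p => Real.log ((p.1 : ℝ) / p.2)) G hG0
    hsep k δ hδ0
  have hsumsq : ∑ p ∈ S, ‖b p‖ ^ 2 = ∑ p ∈ S, ‖a p‖ ^ 2 :=
    Finset.sum_congr rfl fun p _ => by rw [hbn]
  have hA0 : 0 ≤ ∑ p ∈ S, ‖a p‖ ^ 2 := Finset.sum_nonneg fun _ _ => by positivity
  have herr : (∑ p ∈ S, ‖b p‖) ^ 2 * (δ / G) ^ (k + 1) ≤ ∑ p ∈ S, ‖a p‖ ^ 2 := by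
    have h1 : (∑ p ∈ S, ‖b p‖) ^ 2 ≤ N ^ 2 * ∑ p ∈ S, ‖a p‖ ^ 2 := by
      calc (∑ p ∈ S, ‖b p‖) ^ 2 ≤ S.card * ∑ p ∈ S, ‖b p‖ ^ 2 := sq_sum_le_card_mul_sum_sq
        _ = S.card * ∑ p ∈ S, ‖a p‖ ^ 2 := by rw [hsumsq]
        _ ≤ _ := mul_le_mul_of_nonneg_right (MV_card hN S hS) hA0
    have h2 : (δ / G) ^ (k + 1) ≤ 1 / N ^ 2 := by
      calc (δ / G) ^ (k + 1) ≤ (1 / M) ^ (k + 1) :=
            pow_le_pow_left₀ (by positivity) hδG _
        _ = 1 / M ^ (k + 1) := by rw [div_pow, one_pow]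
        _ ≤ 1 / N ^ 2 := by
            apply one_div_le_one_div_of_le (by positivity)
            have h3 : M ^ (k + 1) = (T * N) ^ (ε * ((k : ℝ) + 1)) := by
              rw [hM, ← Real.rpow_natCast, ← Real.rpow_mul (by linarith)]
              push_cast; ring_nf
            rw [h3]
            calc N ^ 2 ≤ (T * N) ^ 2 := by
                  apply pow_le_pow_left₀ hN0.le
                  nlinarith
              _ = (T * N) ^ (2 : ℝ) := by rw [← Real.rpow_natCast]; norm_num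
              _ ≤ _ := Real.rpow_le_rpow_of_exponent_le hTN hk2
    calc (∑ p ∈ S, ‖b p‖) ^ 2 * (δ / G) ^ (k + 1)
        ≤ (N ^ 2 * ∑ p ∈ S, ‖a p‖ ^ 2) * (1 / N ^ 2) :=
          mul_le_mul h1 h2 (by positivity) (by positivity)
      _ = _ := by field_simp
  obtain ⟨F, hF⟩ : ∃ F : ℝ → ℝ, ∀ s, F s = ‖∑ p ∈ S, b p * osc ((p.1 : ℝ) / p.2) s‖ ^ 2 :=
    ⟨_, fun _ => rfl⟩
  have hFc : Continuous F := by
    have : F = fun s => ‖∑ p ∈ S, b p * osc ((p.1 : ℝ) / p.2) s‖ ^ 2 := funext hF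
    rw [this]
    refine (Continuous.norm ?_).pow 2
    exact continuous_finsetSum _ fun p _ => continuous_const.mul (MV_osc_cont _)
  have hF0 : ∀ s, 0 ≤ F s := fun s => by rw [hF]; positivity
  have hFb : ∀ s, ‖F s‖ ≤ (∑ p ∈ S, ‖b p‖) ^ 2 := by
    intro s
    rw [hF, Real.norm_of_nonneg (by positivity)]
    apply pow_le_pow_left₀ (norm_nonneg _)
    refine (norm_sum_le _ _).trans (Finset.sum_le_sum fun p _ => ?_)
    rw [norm_mul, MV_osc_norm, mul_one]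
  have hom : ∀ t, om k δ t = Pool.Agent.H306R2.SM.om k δ t := fun t => rfl
  have hint : IntegrableOn (fun s => om k δ s * F s) (Set.Ioi 0) := by
    have h := (Pool.Agent.H768R2.SM_T2.om_integrable k δ hδ0)
    refine Integrable.mul_bdd (c := (∑ p ∈ S, ‖b p‖) ^ 2) h hFc.aestronglyMeasurable ?_
    exact Filter.Eventually.of_forall hFb
  have hval : ∫ s in Set.Ioi (0 : ℝ), om k δ s * F s ≤ 2 * ∑ p ∈ S, ‖a p‖ ^ 2 := by
    have h1 : ∫ s in Set.Ioi (0 : ℝ), om k δ s * F s =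
        ∫ t in Set.Ioi (0 : ℝ), Pool.Agent.H306R2.SM.om k δ t *
          ‖∑ i ∈ S, b i * Pool.Agent.H306R2.SM.ef (-(Real.log ((i.1 : ℝ) / i.2))) t‖ ^ 2 := by
      refine setIntegral_congr_fun measurableSet_Ioi fun t _ => ?_
      simp only [hF, MV_osc, hom]
    rw [h1]
    have h2 := (abs_le.mp (hdiag.trans herr)).2
    rw [hsumsq] at h2
    linarith
  -- change of variables
  have hshift : ∫ t in T..(2 * T), ‖∑ p ∈ S, a p * osc ((p.1 : ℝ) / p.2) t‖ ^ 2 =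
      ∫ s in (k / δ)..(k / δ + T), F s := by
    have h1 : ∀ t, ‖∑ p ∈ S, a p * osc ((p.1 : ℝ) / p.2) t‖ ^ 2 = F (t + τ) := by
      intro t
      rw [hF]
      congr 2
      refine Finset.sum_congr rfl fun p _ => ?_
      rw [hb, mul_assoc, ← MV_osc_add]
      congr 2
      ring
    simp only [h1]
    rw [intervalIntegral.integral_comp_add_right (fun s => F s)]
    congr 1 <;> rw [hτ] <;> ring
  have hlow : 0 < (k : ℝ) / δ := by positivity
  rw [hshift, intervalIntegral.integral_of_le (by linarith)]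
  have hsub : Set.Ioc ((k : ℝ) / δ) (k / δ + T) ⊆ Set.Ioi 0 := fun s hs => hlow.trans hs.1
  have hstep : ck * δ * ∫ s in Set.Ioc ((k : ℝ) / δ) (k / δ + T), F s ≤
      2 * ∑ p ∈ S, ‖a p‖ ^ 2 := by
    rw [← integral_const_mul]
    refine le_trans ?_ hval
    refine le_trans (setIntegral_mono_on ?_ (hint.mono_set hsub) measurableSet_Ioc ?_) ?_
    · exact ((hFc.const_smul (ck * δ)).integrableOn_Icc (a := (k : ℝ) / δ) (b := k / δ + T)).mono_set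
        Set.Ioc_subset_Icc_self
    · intro s hs
      refine mul_le_mul_of_nonneg_right ?_ (hF0 s)
      rw [hck]
      exact MV_om_lower k δ T s hδ0 hδT hs.1.le hs.2
    · refine setIntegral_mono_set hint ?_ (Filter.Eventually.of_forall hsub)
      refine (ae_restrict_iff' measurableSet_Ioi).mpr (Filter.Eventually.of_forall fun s hs => ?_)
      have hs0 : (0 : ℝ) < s := hs
      have : 0 ≤ om k δ s := by unfold om; positivity
      exact mul_nonneg this (hF0 s)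
  have hinv : 1 / δ ≤ 2 * (T + N) * M := by
    rw [hδd]
    rcases min_choice (G / M) (1 / T) with h | h
    · rw [h, hG]
      have : 1 / (1 / (2 * N) / M) = 2 * N * M := by field_simp
      rw [this]
      nlinarith [mul_pos hT0 hM0]
    · rw [h]
      have : 1 / (1 / T) = T := by field_simp
      rw [this]
      nlinarith [mul_pos hT0 hM0, mul_pos hN0 hM0]
  have hckδ : 0 < ck * δ := by positivity
  calc ∫ s in Set.Ioc ((k : ℝ) / δ) (k / δ + T), F s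
      ≤ (2 * ∑ p ∈ S, ‖a p‖ ^ 2) / (ck * δ) := by
        rw [le_div_iff₀ hckδ]; linarith
    _ = 2 / ck * (1 / δ) * ∑ p ∈ S, ‖a p‖ ^ 2 := by field_simp
    _ ≤ 2 / ck * (2 * (T + N) * M) * ∑ p ∈ S, ‖a p‖ ^ 2 := by gcongr
    _ = 4 / ck * (T + N) * (T * N) ^ ε * ∑ p ∈ S, ‖a p‖ ^ 2 := by rw [hM]; ring

end

end Pool.Agent.H408R2.CM
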