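import Pool.Agent.H408R2.CM.Stubs

set_option autoImplicit false

/-! # OM: superposition of Gamma windows -/

open Complex MeasureTheory Filter Topology

namespace Pool.Agent.H408R2.CM

open Pool.Agent.H304R4.CM

noncomputable section

/-- Poisson distribution function -/
def OM_P (k : ℕ) (u : ℝ) : ℝ :=
  Real.exp (-u) * ∑ j ∈ Finset.range k, u ^ j / (j.factorial : ℝ)

theorem OM_P_nonneg (k : ℕ) {u : ℝ} (hu : 0 ≤ u) : 0 ≤ OM_P k u := by
  unfold OM_P
  positivity

theorem OM_P_le_one (k : ℕ) {u : ℝ} (hu : 0 ≤ u) : OM_P k u ≤ 1 := by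
  unfold OM_P
  rw [Real.exp_neg, inv_mul_le_iff₀ (Real.exp_pos u), mul_one]
  exact Real.sum_le_exp_of_nonneg hu k

/-- Chernoff bound above the mean -/
theorem OM_upper (k : ℕ) {v : ℝ} (hv : 1 ≤ v) :
    OM_P k (k * v) ≤ (v * Real.exp (1 - v)) ^ k := by
  unfold OM_P
  have h1 : ∑ j ∈ Finset.range k, ((k : ℝ) * v) ^ j / (j.factorial : ℝ) ≤
      v ^ k * Real.exp k := by
    calc ∑ j ∈ Finset.range k, ((k : ℝ) * v) ^ j / (j.factorial : ℝ)
        ≤ ∑ j ∈ Finset.range k, v ^ k * ((k : ℝ) ^ j / (j.factorial : ℝ)) := by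
          apply Finset.sum_le_sum
          intro j hj
          rw [mul_pow, mul_comm ((k : ℝ) ^ j), mul_div_assoc]
          apply mul_le_mul_of_nonneg_right _ (by positivity)
          exact pow_le_pow_right₀ hv (Finset.mem_range.1 hj).le
      _ = v ^ k * ∑ j ∈ Finset.range k, (k : ℝ) ^ j / (j.factorial : ℝ) := by rw [Finset.mul_sum]
      _ ≤ v ^ k * Real.exp k :=
          mul_le_mul_of_nonneg_left (Real.sum_le_exp_of_nonneg (by positivity) k) (by positivity)
  have h2 : (v * Real.exp (1 - v)) ^ k = Real.exp (-(k * v)) * (v ^ k * Real.exp k) := by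
    rw [mul_pow, ← Real.exp_nat_mul, mul_left_comm, ← Real.exp_add]
    congr 2
    ring
  rw [h2]
  exact mul_le_mul_of_nonneg_left h1 (Real.exp_pos _).le

theorem OM_hasSum (x : ℝ) : HasSum (fun n : ℕ => x ^ n / (n.factorial : ℝ)) (Real.exp x) := by
  have h := NormedSpace.expSeries_div_hasSum_exp x
  rwa [← Real.exp_eq_exp_ℝ] at h

/-- Chernoff bound below the mean -/
theorem OM_lower (k : ℕ) {v : ℝ} (h0 : 0 ≤ v) (hv : v ≤ 1) :
    1 - OM_P k (k * v) ≤ (v * Real.exp (1 - v)) ^ k := by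
  have h1 : Real.exp (k * v) ≤ v ^ k * Real.exp k
      + ∑ j ∈ Finset.range k, ((k : ℝ) * v) ^ j / (j.factorial : ℝ) := by
    have hs : HasSum (fun j : ℕ => if j ∈ Finset.range k then
        ((k : ℝ) * v) ^ j / (j.factorial : ℝ) else 0)
        (∑ j ∈ Finset.range k, if j ∈ Finset.range k then
          ((k : ℝ) * v) ^ j / (j.factorial : ℝ) else 0) :=
      hasSum_sum_of_ne_finset_zero fun j hj => if_neg hj
    have e : (∑ j ∈ Finset.range k, if j ∈ Finset.range k then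
          ((k : ℝ) * v) ^ j / (j.factorial : ℝ) else 0)
        = ∑ j ∈ Finset.range k, ((k : ℝ) * v) ^ j / (j.factorial : ℝ) :=
      Finset.sum_congr rfl fun j hj => if_pos hj
    rw [e] at hs
    refine hasSum_le (fun j => ?_) (OM_hasSum (k * v)) (((OM_hasSum k).mul_left (v ^ k)).add hs)
    by_cases hj : j ∈ Finset.range k
    · rw [if_pos hj]
      have : 0 ≤ v ^ k * ((k : ℝ) ^ j / (j.factorial : ℝ)) := by positivity
      linarith
    · rw [if_neg hj, add_zero, mul_pow, mul_comm ((k : ℝ) ^ j), mul_div_assoc]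
      apply mul_le_mul_of_nonneg_right _ (by positivity)
      rw [Finset.mem_range, not_lt] at hj
      exact pow_le_pow_of_le_one h0 hv hj
  have h2 : (v * Real.exp (1 - v)) ^ k = Real.exp (-(k * v)) * (v ^ k * Real.exp k) := by
    rw [mul_pow, ← Real.exp_nat_mul, mul_left_comm, ← Real.exp_add]
    congr 2
    ring
  rw [h2]
  unfold OM_P
  have h3 := mul_le_mul_of_nonneg_left h1 (Real.exp_pos (-(k * v))).le
  rw [← Real.exp_add, neg_add_cancel, Real.exp_zero, mul_add] at h3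
  linarith

theorem OM_hasDeriv (k : ℕ) (u : ℝ) :
    HasDerivAt (OM_P (k + 1)) (-(Real.exp (-u) * u ^ k / (k.factorial : ℝ))) u := by
  induction k with
  | zero =>
    have h1 : OM_P 1 = fun u => Real.exp (-u) := by
      funext u
      simp [OM_P]
    rw [zero_add, h1]
    have h2 : HasDerivAt (fun x : ℝ => Real.exp (-x)) (Real.exp (-u) * (-1)) u :=
      (hasDerivAt_neg u).exp
    exact h2.congr_deriv (by simp)
  | succ k ih =>
    have h1 : OM_P (k + 1 + 1) = fun u => OM_P (k + 1) u +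
        Real.exp (-u) * (u ^ (k + 1) / ((k + 1).factorial : ℝ)) := by
      funext u
      unfold OM_P
      rw [Finset.sum_range_succ _ (k + 1), mul_add]
    rw [h1]
    have h2 : HasDerivAt (fun x : ℝ => Real.exp (-x)) (Real.exp (-u) * (-1)) u :=
      (hasDerivAt_neg u).exp
    have h3 := (hasDerivAt_pow (k + 1) u).div_const ((k + 1).factorial : ℝ)
    have h4 := ih.add (h2.mul h3)
    refine HasDerivAt.congr_deriv h4 ?_
    rw [Nat.factorial_succ]
    have hk : (k.factorial : ℝ) ≠ 0 := by positivity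
    have hk1 : ((k : ℝ) + 1) ≠ 0 := by positivity
    simp only [Nat.add_sub_cancel]
    push_cast
    field_simp
    ring

theorem OM_W {k : ℕ} (hk : 1 ≤ k) {t x : ℝ} (hx : 0 < x) :
    HasDerivAt (fun y => OM_P k (k * t / y)) (om k (k / x) t) x := by
  obtain ⟨k, rfl⟩ : ∃ k', k = k' + 1 := ⟨k - 1, by omega⟩
  have h1 : HasDerivAt (fun y : ℝ => ((k + 1 : ℕ) : ℝ) * t / y)
      (-(((k + 1 : ℕ) : ℝ) * t / x ^ 2)) x := by
    have := (hasDerivAt_inv hx.ne').const_mul (((k + 1 : ℕ) : ℝ) * t)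
    simpa only [div_eq_mul_inv, mul_neg] using this
  have h2 := (OM_hasDeriv k (((k + 1 : ℕ) : ℝ) * t / x)).comp x h1
  refine HasDerivAt.congr_deriv h2 ?_
  unfold om
  have e : -(((k + 1 : ℕ) : ℝ) / x * t) = -(((k + 1 : ℕ) : ℝ) * t / x) := by ring
  rw [e, Nat.factorial_succ]
  have hk0 : (k.factorial : ℝ) ≠ 0 := by positivity
  have hk1 : ((k : ℝ) + 1) ≠ 0 := by positivity
  have e1 : ((k + 1 : ℕ) : ℝ) * t / x = ((k + 1 : ℕ) : ℝ) / x * t := by ring
  rw [show (((k + 1 : ℕ) : ℝ) * t / x) ^ k = (((k + 1 : ℕ) : ℝ) / x) ^ k * t ^ k by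
    rw [e1, mul_pow], pow_succ (((k + 1 : ℕ) : ℝ) / x) (k + 1), pow_succ (((k + 1 : ℕ) : ℝ) / x) k]
  generalize (((k + 1 : ℕ) : ℝ) / x) ^ k = A
  push_cast
  field_simp
  ring

theorem OM_om_nonneg {k : ℕ} {δ t : ℝ} (hδ : 0 ≤ δ) (ht : 0 ≤ t) : 0 ≤ om k δ t := by
  unfold om
  positivity

theorem OM_eq {k : ℕ} (hk : 1 ≤ k) {T t : ℝ} (hT : 0 < T) :
    Om k T t = OM_P k (k * (t / T / 2)) - OM_P k (k * (t / T)) := by
  have hab : T ≤ 2 * T := by linarith
  have hcont : ContinuousOn (fun x : ℝ => om k (k / x) t) (Set.uIcc T (2 * T)) := by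
    rw [Set.uIcc_of_le hab]
    unfold om
    have h1 : ContinuousOn (fun x : ℝ => (k : ℝ) / x) (Set.Icc T (2 * T)) :=
      continuousOn_const.div continuousOn_id fun x hx => (hT.trans_le hx.1).ne'
    exact (((h1.pow _).mul continuousOn_const).mul
      ((h1.mul continuousOn_const).neg.rexp)).div_const _
  have h1 : ∫ x in T..(2 * T), om k (k / x) t = OM_P k (k * t / (2 * T)) - OM_P k (k * t / T) := by
    apply intervalIntegral.integral_eq_sub_of_hasDerivAt (f := fun y => OM_P k (k * t / y)) _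
      hcont.intervalIntegrable
    intro x hx
    rw [Set.uIcc_of_le hab] at hx
    exact OM_W hk (hT.trans_le hx.1)
  rw [Om, h1]
  congr 2
  · field_simp
  · rw [mul_div_assoc]

/-- `(u e^{1-u})^k ≤ e^{-kρ²/4}` for `u ≥ 1 + ρ` -/
theorem OM_up2 (k : ℕ) {ρ u : ℝ} (h0 : 0 < ρ) (h1 : ρ ≤ 1 / 2) (hu : 1 + ρ ≤ u) :
    OM_P k (k * u) ≤ Real.exp (-(1 / 4 * k * ρ ^ 2)) := by
  refine (OM_upper k (by linarith)).trans ?_
  have hupos : 0 < u := by linarith
  have e1 : u * Real.exp (1 - u) ≤ Real.exp (-(1 / 4 * ρ ^ 2)) := by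
    have a1 : u / (1 + ρ) ≤ Real.exp (u - (1 + ρ)) := by
      have := Real.add_one_le_exp (u / (1 + ρ) - 1)
      have h3 : u / (1 + ρ) - 1 ≤ u - (1 + ρ) := by
        have h4 : u / (1 + ρ) - 1 = (u - (1 + ρ)) / (1 + ρ) := by
          field_simp
        rw [h4]
        exact div_le_self (by linarith) (by linarith)
      have h5 := Real.exp_le_exp.2 h3
      linarith
    have a2 : 1 + ρ ≤ Real.exp (ρ - 1 / 4 * ρ ^ 2) := by
      have := Real.quadratic_le_exp_of_nonneg (x := ρ - 1 / 4 * ρ ^ 2) (by nlinarith)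
      nlinarith [mul_pos h0 h0, mul_pos (mul_pos h0 h0) h0, sq_nonneg (ρ ^ 2)]
    have a3 : u ≤ Real.exp (ρ - 1 / 4 * ρ ^ 2) * Real.exp (u - (1 + ρ)) := by
      calc u = (1 + ρ) * (u / (1 + ρ)) := by field_simp
        _ ≤ _ := mul_le_mul a2 a1 (by positivity) (Real.exp_pos _).le
    calc u * Real.exp (1 - u)
        ≤ (Real.exp (ρ - 1 / 4 * ρ ^ 2) * Real.exp (u - (1 + ρ))) * Real.exp (1 - u) :=
          mul_le_mul_of_nonneg_right a3 (Real.exp_pos _).le
      _ = Real.exp (-(1 / 4 * ρ ^ 2)) := by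
          rw [← Real.exp_add, ← Real.exp_add]
          congr 1
          ring
  have h0u : 0 ≤ u * Real.exp (1 - u) := by
    have : 0 < u := by linarith
    positivity
  refine (pow_le_pow_left₀ h0u e1 k).trans (le_of_eq ?_)
  rw [← Real.exp_nat_mul]
  congr 1
  ring

theorem OM_up3 (k : ℕ) {u : ℝ} (hu : 2 ≤ u) :
    OM_P k (k * u) ≤ Real.exp (-(1 / 25 * k * u)) := by
  refine (OM_upper k (by linarith)).trans ?_
  have e1 : u * Real.exp (1 - u) ≤ Real.exp (-(1 / 25 * u)) := by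
    have a2 : u ≤ Real.exp (24 / 25 * u - 1) := by
      have := Real.quadratic_le_exp_of_nonneg (x := 24 / 25 * u - 1) (by linarith)
      nlinarith
    calc u * Real.exp (1 - u)
        ≤ Real.exp (24 / 25 * u - 1) * Real.exp (1 - u) :=
          mul_le_mul_of_nonneg_right a2 (Real.exp_pos _).le
      _ = Real.exp (-(1 / 25 * u)) := by
          rw [← Real.exp_add]
          congr 1
          ring
  have h0u : 0 ≤ u * Real.exp (1 - u) := by
    have : 0 < u := by linarith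
    positivity
  refine (pow_le_pow_left₀ h0u e1 k).trans (le_of_eq ?_)
  rw [← Real.exp_nat_mul]
  congr 1
  ring

theorem OM_low2 (k : ℕ) {ρ u : ℝ} (h0 : 0 < ρ) (h1 : ρ ≤ 1 / 2) (hu0 : 0 < u)
    (hu : u ≤ 1 - ρ) : 1 - OM_P k (k * u) ≤ Real.exp (-(1 / 4 * k * ρ ^ 2)) := by
  refine (OM_lower k hu0.le (by linarith)).trans ?_
  have e1 : u * Real.exp (1 - u) ≤ Real.exp (-(1 / 4 * ρ ^ 2)) := by
    have a2 : u * Real.exp ((1 - u) + 1 / 4 * (1 - u) ^ 2) ≤ 1 := by
      have b1 : 0 < 1 - u := by linarith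
      have b2 : Real.exp (-((1 - u) + 1 / 4 * (1 - u) ^ 2)) ≥ u := by
        have c1 := Real.one_sub_div_pow_le_exp_neg (n := 2) (t := (1 - u) + 1 / 4 * (1 - u) ^ 2)
          (by push_cast; nlinarith)
        refine le_trans ?_ c1
        push_cast
        nlinarith [mul_pos b1 b1, mul_pos (mul_pos b1 b1) b1, mul_pos b1 hu0,
          mul_pos (mul_pos b1 b1) hu0, mul_pos (mul_pos (mul_pos b1 b1) b1) hu0]
      calc u * Real.exp ((1 - u) + 1 / 4 * (1 - u) ^ 2)
          ≤ Real.exp (-((1 - u) + 1 / 4 * (1 - u) ^ 2)) *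
              Real.exp ((1 - u) + 1 / 4 * (1 - u) ^ 2) :=
            mul_le_mul_of_nonneg_right b2 (Real.exp_pos _).le
        _ = 1 := by rw [← Real.exp_add, neg_add_cancel, Real.exp_zero]
    have a3 : u * Real.exp (1 - u) * Real.exp (1 / 4 * ρ ^ 2) ≤ 1 := by
      refine le_trans ?_ a2
      rw [mul_assoc, ← Real.exp_add]
      apply mul_le_mul_of_nonneg_left _ hu0.le
      apply Real.exp_le_exp.2
      nlinarith
    rw [Real.exp_neg, ← one_div, le_div_iff₀ (Real.exp_pos _)]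
    exact a3
  have h0u : 0 ≤ u * Real.exp (1 - u) := by positivity
  refine (pow_le_pow_left₀ h0u e1 k).trans (le_of_eq ?_)
  rw [← Real.exp_nat_mul]
  congr 1
  ring

theorem OM : S_OM := by
  refine ⟨1 / 100, by norm_num, ?_⟩
  intro k T ρ t hk hT h0 h1 ht
  have hv : 0 < t / T := div_pos ht hT
  have hk0 : (0 : ℝ) ≤ k := Nat.cast_nonneg k
  have hP1 : 0 ≤ OM_P k (k * (t / T)) := OM_P_nonneg k (by positivity)
  have hP2 : 0 ≤ OM_P k (k * (t / T / 2)) := OM_P_nonneg k (by positivity)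
  have hP3 : OM_P k (k * (t / T / 2)) ≤ 1 := OM_P_le_one k (by positivity)
  have hE := OM_eq hk (t := t) hT
  have hm : Real.exp (-(1 / 4 * k * ρ ^ 2)) ≤ Real.exp (-(1 / 100 * k * ρ ^ 2)) := by
    apply Real.exp_le_exp.2
    have : 0 ≤ (k : ℝ) * ρ ^ 2 := by positivity
    linarith
  have hpos : 0 < Real.exp (-(1 / 100 * k * ρ ^ 2)) := Real.exp_pos _
  refine ⟨⟨?_, ?_⟩, ?_, ?_, ?_⟩
  · apply intervalIntegral.integral_nonneg (by linarith)
    intro x hx
    exact OM_om_nonneg (div_nonneg hk0 (hT.le.trans hx.1)) ht.le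
  · rw [hE]
    linarith
  · rintro (h | h)
    · have hu : t / T ≤ 1 - ρ := by rwa [div_le_iff₀ hT]
      have := OM_low2 k h0 h1 hv hu
      rw [hE]
      linarith
    · have hu : 1 + ρ ≤ t / T / 2 := by
        rw [le_div_iff₀ (by norm_num), le_div_iff₀ hT]
        linarith
      have := OM_up2 k h0 h1 hu
      rw [hE]
      linarith
  · intro h
    have hu : 2 ≤ t / T / 2 := by
      rw [le_div_iff₀ (by norm_num), le_div_iff₀ hT]
      linarith
    have h3 := OM_up3 k hu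
    have hm2 : Real.exp (-(1 / 25 * k * (t / T / 2))) ≤ Real.exp (-(1 / 100 * k * t / T)) := by
      apply Real.exp_le_exp.2
      have h5 : 0 ≤ (k : ℝ) * (t / T) := by positivity
      have e1 : 1 / 25 * (k : ℝ) * (t / T / 2) = 1 / 50 * (k * (t / T)) := by ring
      have e2 : 1 / 100 * (k : ℝ) * t / T = 1 / 100 * (k * (t / T)) := by ring
      rw [e1, e2]
      linarith
    have hpos2 : 0 < Real.exp (-(1 / 100 * k * t / T)) := Real.exp_pos _
    rw [hE]
    linarith
  · intro ha hb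
    have hu1 : 1 + ρ ≤ t / T := by rwa [le_div_iff₀ hT]
    have hu2 : t / T / 2 ≤ 1 - ρ := by
      rw [div_le_iff₀ (by norm_num), div_le_iff₀ hT]
      linarith
    have h3 := OM_up2 k h0 h1 hu1
    have h4 := OM_low2 k h0 h1 (by positivity : 0 < t / T / 2) hu2
    rw [hE]
    linarith

end

end Pool.Agent.H408R2.CM
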