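import Pool.Agent.H408R2.CM.Stubs

/-! Task OT (helper180): tails of the Gamma windows. -/

set_option autoImplicit false

open MeasureTheory Filter Topology

namespace Pool.Agent.H408R2.CM

open Pool.Agent.H304R4.CM

theorem OT_integrable (k : ℕ) (δ : ℝ) (hδ : 0 < δ) :
    IntegrableOn (om k δ) (Set.Ioi 0) := by
  have h := integrableOn_rpow_mul_exp_neg_mul_rpow (p := 1) (s := (k : ℝ)) (b := δ)
    (by have : (0:ℝ) ≤ k := Nat.cast_nonneg k; linarith) one_pos hδ
  have h2 := h.const_mul (δ ^ (k + 1) / (k.factorial : ℝ))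
  refine h2.congr ?_
  refine (ae_restrict_iff' measurableSet_Ioi).mpr (Filter.Eventually.of_forall fun t ht => ?_)
  simp only [om, Real.rpow_natCast, Real.rpow_one]
  have : -δ * t = -(δ * t) := by ring
  rw [this]
  ring

theorem OT_integral (k : ℕ) (δ : ℝ) (hδ : 0 < δ) :
    ∫ t in Set.Ioi (0 : ℝ), om k δ t = 1 := by
  have h := Real.integral_rpow_mul_exp_neg_mul_Ioi (a := (k : ℝ) + 1) (r := δ)
    (by have : (0:ℝ) ≤ k := Nat.cast_nonneg k; linarith) hδ
  have h1 : ∫ t in Set.Ioi (0 : ℝ), om k δ t =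
      ∫ t in Set.Ioi (0 : ℝ), (δ ^ (k + 1) / (k.factorial : ℝ)) *
        (t ^ ((k : ℝ) + 1 - 1) * Real.exp (-(δ * t))) := by
    refine setIntegral_congr_fun measurableSet_Ioi fun t ht => ?_
    simp only [om]
    rw [show (k : ℝ) + 1 - 1 = (k : ℝ) by ring, Real.rpow_natCast]
    ring
  rw [h1, integral_const_mul, h, Real.Gamma_nat_eq_factorial]
  have hk : (k.factorial : ℝ) ≠ 0 := by positivity
  rw [show (k : ℝ) + 1 = ((k + 1 : ℕ) : ℝ) by push_cast; ring, Real.rpow_natCast]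
  have h2 : δ ^ (k + 1) * (1 / δ) ^ (k + 1) = 1 := by
    rw [← mul_pow, mul_one_div_cancel hδ.ne', one_pow]
  calc δ ^ (k + 1) / (k.factorial : ℝ) * ((1 / δ) ^ (k + 1) * (k.factorial : ℝ))
      = (δ ^ (k + 1) * (1 / δ) ^ (k + 1)) * ((k.factorial : ℝ) / (k.factorial : ℝ)) := by ring
    _ = 1 := by rw [h2, div_self hk, one_mul]

theorem OT_cont (k : ℕ) (δ : ℝ) : Continuous (om k δ) := by
  unfold om
  fun_prop

theorem OT_nonneg (k : ℕ) (δ : ℝ) (hδ : 0 ≤ δ) (t : ℝ) (ht : 0 ≤ t) : 0 ≤ om k δ t := by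
  unfold om
  positivity

/-- `(1+t)^6` is dominated by an exponential -/
theorem OT_pow6 (c t : ℝ) (hc : 0 < c) (ht : 0 ≤ t) :
    (1 + t) ^ 6 ≤ 720 * (c⁻¹) ^ 6 * Real.exp (c * (1 + t)) := by
  have h1 : 0 ≤ c * (1 + t) := by positivity
  have h2 := Real.pow_div_factorial_le_exp (c * (1 + t)) h1 6
  have h3 : ((Nat.factorial 6 : ℕ) : ℝ) = 720 := by norm_num [Nat.factorial]
  rw [h3, div_le_iff₀ (by norm_num)] at h2
  have h4 : (1 + t) ^ 6 = (c⁻¹) ^ 6 * (c * (1 + t)) ^ 6 := by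
    rw [← mul_pow, inv_mul_cancel_left₀ hc.ne']
  rw [h4]
  have h5 : 0 ≤ (c⁻¹) ^ 6 := by positivity
  calc (c⁻¹) ^ 6 * (c * (1 + t)) ^ 6 ≤ (c⁻¹) ^ 6 * (Real.exp (c * (1 + t)) * 720) :=
        mul_le_mul_of_nonneg_left h2 h5
    _ = _ := by ring

theorem OT_integrable6 (k : ℕ) (δ : ℝ) (hδ : 0 < δ) :
    IntegrableOn (fun t => om k δ t * (1 + t) ^ 6) (Set.Ioi 0) := by
  have h0 : 0 < δ / 2 := by linarith
  have h1 := (OT_integrable k (δ / 2) h0).const_mul
    (720 * ((δ / 2)⁻¹) ^ 6 * Real.exp (δ / 2) * 2 ^ (k + 1))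
  refine Integrable.mono' h1 ?_ ?_
  · exact (((OT_cont k δ).mul (by fun_prop)).aestronglyMeasurable)
  · refine (ae_restrict_iff' measurableSet_Ioi).mpr (Filter.Eventually.of_forall fun t ht => ?_)
    have ht0 : 0 < t := ht
    rw [Real.norm_of_nonneg (mul_nonneg (OT_nonneg k δ hδ.le t ht0.le) (by positivity))]
    have h2 := OT_pow6 (δ / 2) t h0 ht0.le
    have h3 : om k δ t * (720 * ((δ / 2)⁻¹) ^ 6 * Real.exp (δ / 2 * (1 + t))) =
        720 * ((δ / 2)⁻¹) ^ 6 * Real.exp (δ / 2) * 2 ^ (k + 1) * om k (δ / 2) t := by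
      have h4 : Real.exp (δ / 2 * (1 + t)) = Real.exp (δ / 2) * Real.exp (δ / 2 * t) := by
        rw [← Real.exp_add]; ring_nf
      have h5 : Real.exp (-(δ * t)) * Real.exp (δ / 2 * t) = Real.exp (-(δ / 2 * t)) := by
        rw [← Real.exp_add]; ring_nf
      have h6 : δ ^ (k + 1) = 2 ^ (k + 1) * (δ / 2) ^ (k + 1) := by
        rw [← mul_pow]; congr 1; ring
      unfold om
      rw [h4, h6, ← h5]
      ring
    calc om k δ t * (1 + t) ^ 6 ≤ om k δ t * (720 * ((δ / 2)⁻¹) ^ 6 * Real.exp (δ / 2 * (1 + t))) :=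
          mul_le_mul_of_nonneg_left h2 (OT_nonneg k δ hδ.le t ht0.le)
      _ = _ := h3

/-- the basic bound: `om k (k/t0) t ≤ (k/t0) (r e^{1-r})^k`, `r = t/t0` -/
theorem OT_bound (k : ℕ) (t0 t c : ℝ) (ht0 : 0 < t0) (ht : 0 < t)
    (h : Real.log (t / t0) + 1 - t / t0 ≤ -c) :
    om k (k / t0) t ≤ (k / t0) * Real.exp (-(k * c)) := by
  have hk : (0 : ℝ) ≤ k := Nat.cast_nonneg k
  have hf : (0 : ℝ) < k.factorial := by positivity
  have h1 : (k : ℝ) ^ k / k.factorial ≤ Real.exp k := Real.pow_div_factorial_le_exp _ hk k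
  have h2 : om k (k / t0) t = (k / t0) * ((k : ℝ) ^ k / k.factorial) *
      ((t / t0) ^ k * Real.exp (-(k * (t / t0)))) := by
    unfold om
    rw [pow_succ, div_pow, div_pow, show (k : ℝ) / t0 * t = k * (t / t0) by ring]
    ring
  have hr : 0 < t / t0 := by positivity
  have h3 : (t / t0) ^ k = Real.exp (k * Real.log (t / t0)) := by
    rw [mul_comm, Real.exp_mul, Real.exp_log hr, Real.rpow_natCast]
  have h4 : 0 ≤ (k : ℝ) / t0 := by positivity
  rw [h2, h3, ← Real.exp_add]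
  calc (k : ℝ) / t0 * ((k : ℝ) ^ k / k.factorial) * Real.exp (k * Real.log (t / t0) + -(k * (t / t0)))
      ≤ (k : ℝ) / t0 * Real.exp k * Real.exp (k * Real.log (t / t0) + -(k * (t / t0))) := by
        gcongr
    _ = (k : ℝ) / t0 * Real.exp (k * (Real.log (t / t0) + 1 - t / t0)) := by
        rw [mul_assoc, ← Real.exp_add]
        congr 2
        ring
    _ ≤ (k : ℝ) / t0 * Real.exp (-(k * c)) := by
        apply mul_le_mul_of_nonneg_left _ h4
        apply Real.exp_le_exp.2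
        nlinarith

theorem OT_log_small (r : ℝ) (hr : 0 < r) (hr2 : r ≤ 1 / 2) : Real.log r + 1 - r ≤ -(1 / 8) := by
  have h1 : Real.log r = Real.log (2 * r) - Real.log 2 := by
    rw [Real.log_mul (by norm_num) hr.ne']; ring
  have h2 : Real.log (2 * r) ≤ 2 * r - 1 := Real.log_le_sub_one_of_pos (by positivity)
  have h3 : 0.6931471803 < Real.log 2 := Real.log_two_gt_d9
  rw [h1]
  linarith

theorem OT_log_large (r : ℝ) (hr : 2 ≤ r) : Real.log r + 1 - r ≤ -(r / 8) := by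
  have h1 : Real.log r = Real.log (r / 2) + Real.log 2 := by
    rw [← Real.log_mul (by positivity) (by norm_num)]; congr 1; ring
  have h2 : Real.log (r / 2) ≤ r / 2 - 1 := Real.log_le_sub_one_of_pos (by positivity)
  have h3 : Real.log 2 < 0.6931471808 := Real.log_two_lt_d9
  rw [h1]
  linarith

/-- the eventual condition -/
theorem OT_eventually : ∃ T0 : ℝ, 10 ^ 14 ≤ T0 ∧ ∀ T : ℝ, T0 ≤ T → 160 * Real.log T ≤ T ^ (1 / 1000000 : ℝ) := by
  have h := isLittleO_log_rpow_atTop (r := (1 / 1000000 : ℝ)) (by norm_num)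
  have h2 := h.bound (show (0 : ℝ) < 1 / 160 by norm_num)
  rw [Filter.eventually_atTop] at h2
  obtain ⟨a, ha⟩ := h2
  refine ⟨max a (10 ^ 14), le_max_right _ _, fun T hT => ?_⟩
  have h3 := ha T ((le_max_left _ _).trans hT)
  have hT1 : (10 : ℝ) ^ 14 ≤ T := (le_max_right _ _).trans hT
  have hT0 : 1 ≤ T := by linarith [show (1 : ℝ) ≤ 10 ^ 14 by norm_num]
  rw [Real.norm_of_nonneg (Real.log_nonneg hT0), Real.norm_of_nonneg (by positivity)] at h3
  linarith

theorem OT_lower (k : ℕ) (t0 T : ℝ) (hT : 1 ≤ T) (h1 : T ≤ t0) (hkT : (k : ℝ) ≤ T) :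
    (∫ t in Set.Ioo (0 : ℝ) (T / 2), om k (k / t0) t * (1 + t) ^ 6) ≤
      64 * T ^ 7 * Real.exp (-(k / 8)) := by
  have ht0 : 0 < t0 := by linarith
  have hk : (0 : ℝ) ≤ k := Nat.cast_nonneg k
  have h2 : ∀ t ∈ Set.Ioo (0 : ℝ) (T / 2), ‖om k (k / t0) t * (1 + t) ^ 6‖ ≤
      (2 * T) ^ 6 * Real.exp (-(k / 8)) := by
    intro t ht
    have ht1 : 0 < t := ht.1
    have ht2 : t < T / 2 := ht.2
    have h3 : 0 ≤ om k (k / t0) t := OT_nonneg k _ (by positivity) t ht1.le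
    rw [Real.norm_of_nonneg (by positivity)]
    have hr : t / t0 ≤ 1 / 2 := by
      rw [div_le_iff₀ ht0]; linarith
    have h4 := OT_bound k t0 t (1 / 8) ht0 ht1 (OT_log_small _ (by positivity) hr)
    have h5 : (k : ℝ) / t0 ≤ 1 := by
      rw [div_le_one ht0]; linarith
    have h6 : om k (k / t0) t ≤ Real.exp (-(k / 8)) := by
      calc om k (k / t0) t ≤ (k / t0) * Real.exp (-(k * (1 / 8))) := h4
        _ ≤ 1 * Real.exp (-(k * (1 / 8))) := by gcongr
        _ = _ := by rw [one_mul]; congr 1; ring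
    have h7 : (1 + t) ^ 6 ≤ (2 * T) ^ 6 := by
      gcongr
      linarith
    calc om k (k / t0) t * (1 + t) ^ 6 ≤ Real.exp (-(k / 8)) * (2 * T) ^ 6 := by gcongr
      _ = _ := by ring
  have h8 := norm_setIntegral_le_of_norm_le_const (μ := volume) (s := Set.Ioo (0 : ℝ) (T / 2))
    (by rw [Real.volume_Ioo]; exact ENNReal.ofReal_lt_top) h2
  refine (le_abs_self _).trans ((Real.norm_eq_abs _ ▸ h8).trans ?_)
  rw [Measure.real, Real.volume_Ioo, ENNReal.toReal_ofReal (by linarith)]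
  have h9 : (2 * T) ^ 6 * Real.exp (-(k / 8)) * (T / 2 - 0) = 32 * T ^ 7 * Real.exp (-(k / 8)) := by
    ring
  rw [h9]
  have h10 : 0 < Real.exp (-((k : ℝ) / 8)) := Real.exp_pos _
  have h11 : 0 < T ^ 7 := by positivity
  nlinarith [mul_pos h11 h10]

theorem OT_upper (k : ℕ) (t0 T : ℝ) (hT : 1 ≤ T) (h1 : T ≤ t0) (h2 : t0 ≤ 2 * T) (hk1 : 1 ≤ k)
    (hkT : (k : ℝ) ≤ T) :
    (∫ t in Set.Ioi (4 * T), om k (k / t0) t * (1 + t) ^ 6) ≤
      3.5e13 * T ^ 6 * Real.exp (-(k / 8)) := by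
  have ht0 : 0 < t0 := by linarith
  have hk : (1 : ℝ) ≤ k := by exact_mod_cast hk1
  have hk0 : (0 : ℝ) < k := by linarith
  set c : ℝ := k / (16 * t0) with hc
  have hc0 : 0 < c := by positivity
  have hcinv : c⁻¹ ≤ 32 * T := by
    rw [hc, inv_div, div_le_iff₀ hk0]
    nlinarith
  have hc1 : c ≤ 1 := by
    rw [hc, div_le_one (by positivity)]
    nlinarith
  have h3 : ∀ t ∈ Set.Ioi (4 * T), om k (k / t0) t * (1 + t) ^ 6 ≤
      (720 * (32 * T) ^ 6 * Real.exp 1) * ((16 * c) * Real.exp (-(c * t))) := by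
    intro t ht
    have ht1 : 4 * T < t := ht
    have ht2 : 0 < t := by linarith
    have hr : 2 ≤ t / t0 := by
      rw [le_div_iff₀ ht0]; linarith
    have h4 := OT_bound k t0 t (t / t0 / 8) ht0 ht2 (OT_log_large _ hr)
    have h5 : (k : ℝ) * (t / t0 / 8) = 2 * (c * t) := by
      rw [hc]; field_simp; ring
    have h6 : (k : ℝ) / t0 = 16 * c := by
      rw [hc]; field_simp
    rw [h5, h6] at h4
    rw [h6]
    have h7 := OT_pow6 c t hc0 ht2.le
    have h8 : 720 * (c⁻¹) ^ 6 * Real.exp (c * (1 + t)) ≤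
        720 * (32 * T) ^ 6 * (Real.exp 1 * Real.exp (c * t)) := by
      rw [← Real.exp_add]
      gcongr
      nlinarith
    have h9 : 0 ≤ 16 * c * Real.exp (-(2 * (c * t))) := by positivity
    calc om k (16 * c) t * (1 + t) ^ 6 ≤ (16 * c * Real.exp (-(2 * (c * t)))) *
          (720 * (32 * T) ^ 6 * (Real.exp 1 * Real.exp (c * t))) := by
          refine mul_le_mul h4 (h7.trans h8) (by positivity) h9
      _ = (720 * (32 * T) ^ 6 * Real.exp 1) * ((16 * c) * (Real.exp (-(2 * (c * t))) * Real.exp (c * t))) := by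
          ring
      _ = _ := by
          rw [← Real.exp_add]
          congr 3
          ring
  have h10 : IntegrableOn (fun t : ℝ => Real.exp (-(c * t))) (Set.Ioi (4 * T)) := by
    have := integrableOn_exp_mul_Ioi (a := -c) (by linarith) (4 * T)
    refine this.congr_fun (fun t _ => ?_) measurableSet_Ioi
    show Real.exp (-c * t) = Real.exp (-(c * t))
    congr 1
    ring
  have h11 : ∫ t in Set.Ioi (4 * T), Real.exp (-(c * t)) = Real.exp (-(c * (4 * T))) / c := by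
    have := integral_exp_mul_Ioi (a := -c) (by linarith) (4 * T)
    have h12 : ∫ t in Set.Ioi (4 * T), Real.exp (-(c * t)) = ∫ t in Set.Ioi (4 * T), Real.exp (-c * t) := by
      refine setIntegral_congr_fun measurableSet_Ioi fun t _ => ?_
      show Real.exp (-(c * t)) = Real.exp (-c * t)
      congr 1
      ring
    rw [h12, this]
    rw [show -c * (4 * T) = -(c * (4 * T)) by ring, neg_div_neg_eq]
  have h13 : IntegrableOn (fun t => om k (k / t0) t * (1 + t) ^ 6) (Set.Ioi (4 * T)) :=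
    (OT_integrable6 k (k / t0) (by positivity)).mono_set (Set.Ioi_subset_Ioi (by linarith))
  have h14 : (∫ t in Set.Ioi (4 * T), om k (k / t0) t * (1 + t) ^ 6) ≤
      ∫ t in Set.Ioi (4 * T), (720 * (32 * T) ^ 6 * Real.exp 1) * ((16 * c) * Real.exp (-(c * t))) := by
    refine setIntegral_mono_on h13 ((h10.const_mul _).const_mul _) measurableSet_Ioi h3
  refine h14.trans ?_
  rw [integral_const_mul, integral_const_mul, h11]
  have h15 : 16 * c * (Real.exp (-(c * (4 * T))) / c) = 16 * Real.exp (-(c * (4 * T))) := by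
    field_simp
  rw [h15]
  have h16 : Real.exp (-(c * (4 * T))) ≤ Real.exp (-(k / 8)) := by
    apply Real.exp_le_exp.2
    rw [hc, neg_le_neg_iff, div_mul_eq_mul_div, le_div_iff₀ (by positivity)]
    nlinarith
  have h17 : Real.exp 1 < 2.7182818286 := Real.exp_one_lt_d9
  have h18 : 0 < Real.exp (-((k : ℝ) / 8)) := Real.exp_pos _
  have h19 : 0 < T ^ 6 := by positivity
  calc 720 * (32 * T) ^ 6 * Real.exp 1 * (16 * Real.exp (-(c * (4 * T))))
      ≤ 720 * (32 * T) ^ 6 * 2.7182818286 * (16 * Real.exp (-(k / 8))) := by gcongr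
    _ = (720 * 32 ^ 6 * 2.7182818286 * 16) * (T ^ 6 * Real.exp (-(k / 8))) := by ring
    _ ≤ 3.5e13 * (T ^ 6 * Real.exp (-(k / 8))) := by
        gcongr
        norm_num
    _ = _ := by ring

theorem OT : S_OT := by
  refine ⟨fun k δ hδ => ⟨OT_integrable k δ hδ, OT_integral k δ hδ⟩, fun k δ hδ => OT_integrable6 k δ hδ, ?_⟩
  obtain ⟨T0, hT0, hT⟩ := OT_eventually
  refine ⟨T0, fun T hT1 k hk1 hk2 t0 ht1 ht2 => ?_⟩
  have hT14 : (10 : ℝ) ^ 14 ≤ T := hT0.trans hT1
  have hTone : (1 : ℝ) ≤ T := by linarith [show (1 : ℝ) ≤ 10 ^ 14 by norm_num]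
  have hTpos : 0 < T := by linarith
  have hlog := hT T hT1
  have hkT : (k : ℝ) ≤ T := by
    refine hk2.trans ?_
    calc T ^ (1 / 100 : ℝ) ≤ T ^ (1 : ℝ) := Real.rpow_le_rpow_of_exponent_le hTone (by norm_num)
      _ = T := Real.rpow_one T
  have hkone : (1 : ℝ) ≤ k := by
    refine le_trans ?_ hk1
    exact Real.one_le_rpow hTone (by norm_num)
  have hkone' : 1 ≤ k := by exact_mod_cast hkone
  have hexp : Real.exp (-((k : ℝ) / 8)) ≤ (T ^ 20)⁻¹ := by
    have h1 : 20 * Real.log T ≤ k / 8 := by linarith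
    rw [Real.exp_neg]
    apply inv_anti₀ (by positivity)
    calc T ^ 20 = Real.exp (20 * Real.log T) := by
          rw [mul_comm, Real.exp_mul, Real.exp_log hTpos]
          norm_num
      _ ≤ Real.exp (k / 8) := Real.exp_le_exp.2 h1
  have hT10 : T ^ (-10 : ℝ) = (T ^ 10)⁻¹ := by
    rw [Real.rpow_neg hTpos.le]
    norm_num
  rw [hT10]
  have hfin : ∀ C : ℝ, 0 ≤ C → C ≤ T → ∀ j : ℕ, j ≤ 7 → C * T ^ j * Real.exp (-((k : ℝ) / 8)) ≤ (T ^ 10)⁻¹ := by
    intro C hC0 hC j hj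
    have h2 : T ^ j ≤ T ^ 7 := pow_le_pow_right₀ hTone hj
    calc C * T ^ j * Real.exp (-((k : ℝ) / 8)) ≤ T * T ^ 7 * (T ^ 20)⁻¹ := by gcongr
      _ = (T ^ 12)⁻¹ := by field_simp
      _ ≤ (T ^ 10)⁻¹ := by
        apply inv_anti₀ (by positivity)
        exact pow_le_pow_right₀ hTone (by norm_num)
  constructor
  · refine (OT_lower k t0 T hTone ht1 hkT).trans (hfin 64 (by norm_num) ?_ 7 le_rfl)
    linarith [show (64 : ℝ) ≤ 10 ^ 14 by norm_num]
  · refine (OT_upper k t0 T hTone ht1 ht2 hkone' hkT).trans (hfin 3.5e13 (by norm_num) ?_ 6 (by norm_num))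
    linarith [show (3.5e13 : ℝ) ≤ 10 ^ 14 by norm_num]

end Pool.Agent.H408R2.CM
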