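import Pool.Agent.H408R2.CM.Stubs

set_option autoImplicit false

/-! # P2: mean square of the Dirichlet polynomial of the fourth moment -/

open Complex MeasureTheory Filter Topology

namespace Pool.Agent.H408R2.CM

open Pool.Agent.H304R4.CM

/-- the reduced pair -/
def P2_red (x : ℕ × ℕ) : ℕ × ℕ := (x.1 / Nat.gcd x.1 x.2, x.2 / Nat.gcd x.1 x.2)

theorem P2_spec (x : ℕ × ℕ) : x.1 = Nat.gcd x.1 x.2 * (P2_red x).1 ∧
    x.2 = Nat.gcd x.1 x.2 * (P2_red x).2 :=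
  ⟨(Nat.mul_div_cancel' (Nat.gcd_dvd_left _ _)).symm,
    (Nat.mul_div_cancel' (Nat.gcd_dvd_right _ _)).symm⟩

/-- the index set of the polynomial -/
noncomputable def P2_B (T ε : ℝ) : Finset (ℕ × ℕ) :=
  ((Finset.Icc 1 ⌊T ^ 2⌋₊) ×ˢ (Finset.Icc 1 ⌊T ^ 2⌋₊)).filter
    (fun p : ℕ × ℕ => (p.1 : ℝ) * p.2 ≤ T ^ (1 + ε))

theorem P2_mem {T ε : ℝ} {x : ℕ × ℕ} (hx : x ∈ P2_B T ε) : 1 ≤ x.1 ∧ x.1 ≤ ⌊T ^ 2⌋₊ ∧
    1 ≤ x.2 ∧ x.2 ≤ ⌊T ^ 2⌋₊ ∧ (x.1 : ℝ) * x.2 ≤ T ^ (1 + ε) := by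
  unfold P2_B at hx
  rw [Finset.mem_filter, Finset.mem_product, Finset.mem_Icc, Finset.mem_Icc] at hx
  exact ⟨hx.1.1.1, hx.1.1.2, hx.1.2.1, hx.1.2.2, hx.2⟩

theorem P2_red_mem {T ε : ℝ} {x : ℕ × ℕ} (hx : x ∈ P2_B T ε) :
    1 ≤ Nat.gcd x.1 x.2 ∧ Nat.gcd x.1 x.2 ≤ ⌊T ^ 2⌋₊ ∧ 1 ≤ (P2_red x).1 ∧
    1 ≤ (P2_red x).2 ∧ (P2_red x).1 ≤ ⌊T ^ 2⌋₊ ∧ (P2_red x).2 ≤ ⌊T ^ 2⌋₊ ∧
    Nat.Coprime (P2_red x).1 (P2_red x).2 ∧ ((P2_red x).1 : ℝ) * (P2_red x).2 ≤ T ^ (1 + ε) := by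
  obtain ⟨h1, h2, h3, h4, h5⟩ := P2_mem hx
  have hg : 1 ≤ Nat.gcd x.1 x.2 := Nat.gcd_pos_of_pos_left _ h1
  obtain ⟨e1, e2⟩ := P2_spec x
  have hp : 1 ≤ (P2_red x).1 := by
    rcases Nat.eq_zero_or_pos (P2_red x).1 with h | h
    · rw [h, mul_zero] at e1
      omega
    · exact h
  have hq : 1 ≤ (P2_red x).2 := by
    rcases Nat.eq_zero_or_pos (P2_red x).2 with h | h
    · rw [h, mul_zero] at e2
      omega
    · exact h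
  have hp' : (P2_red x).1 ≤ x.1 := Nat.div_le_self _ _
  have hq' : (P2_red x).2 ≤ x.2 := Nat.div_le_self _ _
  refine ⟨hg, (Nat.gcd_le_left _ h1).trans h2, hp, hq, hp'.trans h2, hq'.trans h4,
    Nat.coprime_div_gcd_div_gcd hg, ?_⟩
  refine le_trans ?_ h5
  have hp'' : ((P2_red x).1 : ℝ) ≤ x.1 := by exact_mod_cast hp'
  have hq'' : ((P2_red x).2 : ℝ) ≤ x.2 := by exact_mod_cast hq'
  exact mul_le_mul hp'' hq'' (by positivity) (by positivity)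

theorem P2_harm {T : ℝ} (hT : 1 ≤ T) :
    ∑ g ∈ Finset.Icc 1 ⌊T ^ 2⌋₊, (1 : ℝ) / g ≤ 1 + 2 * Real.log T := by
  have h1 := harmonic_le_one_add_log ⌊T ^ 2⌋₊
  rw [harmonic_eq_sum_Icc] at h1
  push_cast at h1
  have h2 : ∑ g ∈ Finset.Icc 1 ⌊T ^ 2⌋₊, (1 : ℝ) / g =
      ∑ g ∈ Finset.Icc 1 ⌊T ^ 2⌋₊, ((g : ℝ))⁻¹ :=
    Finset.sum_congr rfl fun g _ => one_div _
  rw [h2]
  refine h1.trans ?_
  have h3 : (⌊T ^ 2⌋₊ : ℝ) ≤ T ^ 2 := Nat.floor_le (by positivity)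
  have h4 : 1 ≤ ⌊T ^ 2⌋₊ := Nat.le_floor (by push_cast; nlinarith)
  have h5 : (0 : ℝ) < ⌊T ^ 2⌋₊ := by exact_mod_cast h4
  have h6 := Real.log_le_log h5 h3
  have h7 : Real.log (T ^ 2) = 2 * Real.log T := by
    rw [Real.log_pow]
    norm_num
  rw [h7] at h6
  linarith

/-- the coefficient of a reduced pair -/
noncomputable def P2_a (T ε : ℝ) (w : ℂ) (y : ℕ × ℕ) : ℂ :=
  ∑ x ∈ (P2_B T ε).filter (fun x => P2_red x = y),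
    (((x.1 : ℝ) * x.2 : ℝ) : ℂ) ^ (-(1 / 2 + w))

theorem P2_norm {T ε : ℝ} {w : ℂ} (hw : 0 ≤ w.re) {x : ℕ × ℕ} (hx : x ∈ P2_B T ε) :
    ‖(((x.1 : ℝ) * x.2 : ℝ) : ℂ) ^ (-(1 / 2 + w))‖ ≤
      (1 : ℝ) / Nat.gcd x.1 x.2 * (1 / Real.sqrt ((P2_red x).1 * (P2_red x).2)) := by
  obtain ⟨h1, _, h3, _, _⟩ := P2_mem hx
  obtain ⟨hg, _, hp, hq, _⟩ := P2_red_mem hx
  have h1' : (1 : ℝ) ≤ x.1 := by exact_mod_cast h1
  have h3' : (1 : ℝ) ≤ x.2 := by exact_mod_cast h3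
  have hxx : (1 : ℝ) ≤ (x.1 : ℝ) * x.2 := by nlinarith
  rw [Complex.norm_cpow_eq_rpow_re_of_pos (by linarith)]
  have hre : (-(1 / 2 + w)).re = -(1 / 2 + w.re) := by
    simp
  rw [hre]
  have hle : ((x.1 : ℝ) * x.2) ^ (-(1 / 2 + w.re)) ≤ ((x.1 : ℝ) * x.2) ^ (-(1 / 2) : ℝ) :=
    Real.rpow_le_rpow_of_exponent_le hxx (by linarith)
  refine hle.trans (le_of_eq ?_)
  obtain ⟨e1, e2⟩ := P2_spec x
  have e1' : (x.1 : ℝ) = Nat.gcd x.1 x.2 * (P2_red x).1 := by exact_mod_cast e1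
  have e2' : (x.2 : ℝ) = Nat.gcd x.1 x.2 * (P2_red x).2 := by exact_mod_cast e2
  have hg' : (0 : ℝ) < Nat.gcd x.1 x.2 := by exact_mod_cast hg
  rw [Real.rpow_neg (by linarith), ← Real.sqrt_eq_rpow]
  have e3 : (x.1 : ℝ) * x.2 = (Nat.gcd x.1 x.2 : ℝ) ^ 2 * ((P2_red x).1 * (P2_red x).2) := by
    calc (x.1 : ℝ) * x.2 = (Nat.gcd x.1 x.2 * (P2_red x).1) * (Nat.gcd x.1 x.2 * (P2_red x).2) := by
          rw [← e1', ← e2']
      _ = _ := by ring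
  rw [e3, Real.sqrt_mul (by positivity), Real.sqrt_sq hg'.le, mul_inv, one_div, one_div]

theorem P2_a_norm {T ε : ℝ} (hT : 1 ≤ T) {w : ℂ} (hw : 0 ≤ w.re) (y : ℕ × ℕ) :
    ‖P2_a T ε w y‖ ≤ (1 + 2 * Real.log T) * (1 / Real.sqrt (y.1 * y.2)) := by
  classical
  unfold P2_a
  refine (norm_sum_le _ _).trans ?_
  have h1 : ∑ x ∈ (P2_B T ε).filter (fun x => P2_red x = y),
      ‖(((x.1 : ℝ) * x.2 : ℝ) : ℂ) ^ (-(1 / 2 + w))‖ ≤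
      ∑ x ∈ (P2_B T ε).filter (fun x => P2_red x = y),
        (1 : ℝ) / Nat.gcd x.1 x.2 * (1 / Real.sqrt (y.1 * y.2)) := by
    refine Finset.sum_le_sum fun x hx => ?_
    rw [Finset.mem_filter] at hx
    rw [← hx.2]
    exact P2_norm hw hx.1
  refine h1.trans ?_
  rw [← Finset.sum_mul]
  refine mul_le_mul_of_nonneg_right ?_ (by positivity)
  refine le_trans ?_ (P2_harm hT)
  have hinj : Set.InjOn (fun x : ℕ × ℕ => Nat.gcd x.1 x.2)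
      ((P2_B T ε).filter (fun x => P2_red x = y) : Set (ℕ × ℕ)) := by
    intro x hx x' hx' h
    rw [Finset.mem_coe, Finset.mem_filter] at hx hx'
    obtain ⟨e1, e2⟩ := P2_spec x
    obtain ⟨e3, e4⟩ := P2_spec x'
    simp only at h
    ext
    · rw [e1, e3, h, hx.2, hx'.2]
    · rw [e2, e4, h, hx.2, hx'.2]
  have e : ∑ x ∈ (P2_B T ε).filter (fun x => P2_red x = y), (1 : ℝ) / Nat.gcd x.1 x.2 =
      ∑ g ∈ ((P2_B T ε).filter (fun x => P2_red x = y)).image (fun x => Nat.gcd x.1 x.2),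
        (1 : ℝ) / g := by
    rw [Finset.sum_image (fun x hx x' hx' h => hinj hx hx' h)]
  rw [e]
  refine Finset.sum_le_sum_of_subset_of_nonneg ?_ (fun _ _ _ => by positivity)
  intro g hg
  obtain ⟨x, hx, rfl⟩ := Finset.mem_image.1 hg
  have := P2_red_mem (Finset.mem_filter.1 hx).1
  exact Finset.mem_Icc.2 ⟨this.1, this.2.1⟩

theorem P2_sum {T ε : ℝ} (hT : 1 ≤ T) {w : ℂ} (hw : 0 ≤ w.re) :
    ∑ y ∈ (P2_B T ε).image P2_red, ‖P2_a T ε w y‖ ^ 2 ≤ (1 + 2 * Real.log T) ^ 4 := by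
  classical
  have hL : 0 ≤ 1 + 2 * Real.log T := by
    have := Real.log_nonneg hT
    linarith
  have h1 : ∑ y ∈ (P2_B T ε).image P2_red, ‖P2_a T ε w y‖ ^ 2 ≤
      ∑ y ∈ (P2_B T ε).image P2_red, (1 + 2 * Real.log T) ^ 2 * ((1 / (y.1 : ℝ)) * (1 / (y.2 : ℝ))) := by
    refine Finset.sum_le_sum fun y _ => ?_
    have h2 := pow_le_pow_left₀ (norm_nonneg _) (P2_a_norm (ε := ε) hT hw y) 2
    refine h2.trans (le_of_eq ?_)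
    rw [mul_pow, div_pow, one_pow, Real.sq_sqrt (by positivity)]
    rw [one_div_mul_one_div]
  refine h1.trans ?_
  have h3 : ∑ y ∈ (P2_B T ε).image P2_red, (1 + 2 * Real.log T) ^ 2 * ((1 / (y.1 : ℝ)) * (1 / (y.2 : ℝ))) ≤
      ∑ y ∈ (Finset.Icc 1 ⌊T ^ 2⌋₊) ×ˢ (Finset.Icc 1 ⌊T ^ 2⌋₊),
        (1 + 2 * Real.log T) ^ 2 * ((1 / (y.1 : ℝ)) * (1 / (y.2 : ℝ))) := by
    refine Finset.sum_le_sum_of_subset_of_nonneg ?_ (fun _ _ _ => by positivity)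
    intro y hy
    obtain ⟨x, hx, rfl⟩ := Finset.mem_image.1 hy
    have := P2_red_mem hx
    exact Finset.mem_product.2 ⟨Finset.mem_Icc.2 ⟨this.2.2.1, this.2.2.2.2.1⟩,
      Finset.mem_Icc.2 ⟨this.2.2.2.1, this.2.2.2.2.2.1⟩⟩
  refine h3.trans ?_
  rw [← Finset.mul_sum, Finset.sum_product]
  simp only [← Finset.mul_sum]
  rw [← Finset.sum_mul]
  have h4 := P2_harm hT
  have h5 : 0 ≤ ∑ g ∈ Finset.Icc 1 ⌊T ^ 2⌋₊, (1 : ℝ) / g :=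
    Finset.sum_nonneg fun _ _ => by positivity
  calc (1 + 2 * Real.log T) ^ 2 * ((∑ g ∈ Finset.Icc 1 ⌊T ^ 2⌋₊, (1 : ℝ) / g) *
        ∑ g ∈ Finset.Icc 1 ⌊T ^ 2⌋₊, (1 : ℝ) / g)
      ≤ (1 + 2 * Real.log T) ^ 2 * ((1 + 2 * Real.log T) * (1 + 2 * Real.log T)) := by
        gcongr
    _ = _ := by ring

theorem P2_PP {T ε : ℝ} (w : ℂ) (t : ℝ) : PP T ε w t =
    ∑ y ∈ (P2_B T ε).image P2_red, P2_a T ε w y * osc ((y.1 : ℝ) / y.2) t := by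
  classical
  have h1 : PP T ε w t = ∑ x ∈ P2_B T ε,
      (((x.1 : ℝ) * x.2 : ℝ) : ℂ) ^ (-(1 / 2 + w)) * osc ((x.1 : ℝ) / x.2) t := rfl
  rw [h1, ← Finset.sum_fiberwise_of_maps_to (t := (P2_B T ε).image P2_red) (g := P2_red)
    (fun x hx => Finset.mem_image_of_mem _ hx)]
  refine Finset.sum_congr rfl fun y _ => ?_
  unfold P2_a
  rw [Finset.sum_mul]
  refine Finset.sum_congr rfl fun x hx => ?_
  rw [Finset.mem_filter] at hx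
  congr 2
  obtain ⟨e1, e2⟩ := P2_spec x
  have e1' : (x.1 : ℝ) = Nat.gcd x.1 x.2 * (P2_red x).1 := by exact_mod_cast e1
  have e2' : (x.2 : ℝ) = Nat.gcd x.1 x.2 * (P2_red x).2 := by exact_mod_cast e2
  have hg := (P2_red_mem hx.1).1
  have hg' : (Nat.gcd x.1 x.2 : ℝ) ≠ 0 := by
    have : (0 : ℝ) < Nat.gcd x.1 x.2 := by exact_mod_cast hg
    exact this.ne'
  rw [← hx.2]
  calc (x.1 : ℝ) / x.2 = (Nat.gcd x.1 x.2 * (P2_red x).1) / (Nat.gcd x.1 x.2 * (P2_red x).2) := by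
        rw [← e1', ← e2']
    _ = _ := mul_div_mul_left _ _ hg'

/-- P2: mean square of the Dirichlet polynomial -/
theorem P2 (hMV : S_MV) : S_P2 := by
  intro ε hε hε2
  obtain ⟨C, hC, h⟩ := hMV (ε / 4) (by positivity)
  refine ⟨C * 2 * (1 + 8 / ε) ^ 4, by positivity, fun T hT w hw => ?_⟩
  have hT0 : 0 < T := by linarith
  have hN : 1 ≤ T ^ (1 + ε) := Real.one_le_rpow hT (by positivity)
  have key := h (T ^ (1 + ε)) T ((P2_B T ε).image P2_red) (P2_a T ε w) hN hT (by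
    intro y hy
    obtain ⟨x, hx, rfl⟩ := Finset.mem_image.1 hy
    have := P2_red_mem hx
    exact ⟨this.2.2.1, this.2.2.2.1, this.2.2.2.2.2.2.1, this.2.2.2.2.2.2.2⟩)
  have e : ∀ t, ‖PP T ε w t‖ ^ 2 =
      ‖∑ p ∈ (P2_B T ε).image P2_red, P2_a T ε w p * osc ((p.1 : ℝ) / p.2) t‖ ^ 2 := by
    intro t
    rw [P2_PP]
  simp only [e]
  refine key.trans ?_
  have hsum := P2_sum (ε := ε) hT hw
  have hlog : 1 + 2 * Real.log T ≤ (1 + 8 / ε) * T ^ (ε / 4) := by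
    have h1 := Real.log_le_rpow_div hT0.le (by positivity : 0 < ε / 4)
    have h2 : 1 ≤ T ^ (ε / 4) := Real.one_le_rpow hT (by positivity)
    have h3 : T ^ (ε / 4) / (ε / 4) = 4 / ε * T ^ (ε / 4) := by field_simp
    rw [h3] at h1
    have h4 : (1 + 8 / ε) * T ^ (ε / 4) = T ^ (ε / 4) + 2 * (4 / ε * T ^ (ε / 4)) := by ring
    rw [h4]
    linarith
  have hL0 : 0 ≤ 1 + 2 * Real.log T := by
    have := Real.log_nonneg hT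
    linarith
  have hlog4 : (1 + 2 * Real.log T) ^ 4 ≤ (1 + 8 / ε) ^ 4 * T ^ ε := by
    have h1 := pow_le_pow_left₀ hL0 hlog 4
    have h2 : ((1 + 8 / ε) * T ^ (ε / 4)) ^ 4 = (1 + 8 / ε) ^ 4 * T ^ ε := by
      rw [mul_pow, ← Real.rpow_natCast (T ^ (ε / 4)), ← Real.rpow_mul hT0.le]
      norm_num
    rwa [h2] at h1
  have hA : T + T ^ (1 + ε) ≤ 2 * T ^ (1 + ε) := by
    have : T ≤ T ^ (1 + ε) := by
      calc T = T ^ (1 : ℝ) := (Real.rpow_one T).symm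
        _ ≤ T ^ (1 + ε) := Real.rpow_le_rpow_of_exponent_le hT (by linarith)
    linarith
  have hB : (T * T ^ (1 + ε)) ^ (ε / 4) ≤ T ^ ε := by
    have h1 : T * T ^ (1 + ε) = T ^ (2 + ε) := by
      have h0 := Real.rpow_add hT0 1 (1 + ε)
      rw [Real.rpow_one] at h0
      rw [← h0]
      congr 1
      ring
    rw [h1, ← Real.rpow_mul hT0.le]
    apply Real.rpow_le_rpow_of_exponent_le hT
    nlinarith
  calc C * (T + T ^ (1 + ε)) * (T * T ^ (1 + ε)) ^ (ε / 4) *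
        ∑ p ∈ (P2_B T ε).image P2_red, ‖P2_a T ε w p‖ ^ 2
      ≤ C * (2 * T ^ (1 + ε)) * T ^ ε * ((1 + 8 / ε) ^ 4 * T ^ ε) := by
        have h3 := hsum.trans hlog4
        gcongr
    _ = C * 2 * (1 + 8 / ε) ^ 4 * (T ^ (1 + ε) * T ^ ε * T ^ ε) := by ring
    _ = C * 2 * (1 + 8 / ε) ^ 4 * T ^ (1 + 3 * ε) := by
        rw [← Real.rpow_add hT0, ← Real.rpow_add hT0]
        congr 2
        ring
    _ ≤ C * 2 * (1 + 8 / ε) ^ 4 * T ^ (1 + 4 * ε) := by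
        gcongr
        norm_num

end Pool.Agent.H408R2.CM
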