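import Pool.Agent.H408R2.CM.Stubs

set_option autoImplicit false

open Complex MeasureTheory Filter Topology

namespace Pool.Agent.H408R2.CM

open Pool.Agent.H304R4.CM

theorem Q1_prod2 (x y : ℂ) (a b : ℝ) (hx : ‖x - 1‖ ≤ a) (hy : ‖y - 1‖ ≤ b) :
    ‖x * y - 1‖ ≤ a + b + a * b := by
  have e : x * y - 1 = (x - 1) + (y - 1) + (x - 1) * (y - 1) := by ring
  have ha : 0 ≤ a := (norm_nonneg _).trans hx
  rw [e]
  calc _ ≤ ‖(x - 1) + (y - 1)‖ + ‖(x - 1) * (y - 1)‖ := norm_add_le _ _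
    _ ≤ (‖x - 1‖ + ‖y - 1‖) + ‖x - 1‖ * ‖y - 1‖ := by
      rw [norm_mul]
      gcongr
      exact norm_add_le _ _
    _ ≤ _ := by gcongr

theorem Q1_prod5 (x1 x2 x3 x4 x5 : ℂ) (d : ℝ) (hd : d ≤ 1) (h1 : ‖x1 - 1‖ ≤ d)
    (h2 : ‖x2 - 1‖ ≤ d) (h3 : ‖x3 - 1‖ ≤ d) (h4 : ‖x4 - 1‖ ≤ d) (h5 : ‖x5 - 1‖ ≤ d) :
    ‖x1 * x2 * (x3 * x4) * x5 - 1‖ ≤ 31 * d := by
  have hd0 : 0 ≤ d := (norm_nonneg _).trans h1
  have hdd : d * d ≤ d := by nlinarith
  have e1 : ‖x1 * x2 - 1‖ ≤ 3 * d := (Q1_prod2 _ _ _ _ h1 h2).trans (by nlinarith)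
  have e2 : ‖x3 * x4 - 1‖ ≤ 3 * d := (Q1_prod2 _ _ _ _ h3 h4).trans (by nlinarith)
  have e3 : ‖x1 * x2 * (x3 * x4) - 1‖ ≤ 15 * d := (Q1_prod2 _ _ _ _ e1 e2).trans (by nlinarith)
  exact (Q1_prod2 _ _ _ _ e3 h5).trans (by nlinarith)

theorem Q1_log (K ε : ℝ) (hK : 0 < K) (hε : 0 < ε) :
    ∀ᶠ T : ℝ in atTop, K * (2 + Real.log T) ^ 2 ≤ T ^ ε := by
  have h1 : (fun T : ℝ => 2 + Real.log T) =o[atTop] (fun T : ℝ => T ^ (ε / 2)) := by
    refine Asymptotics.IsLittleO.add ?_ (isLittleO_log_rpow_atTop (half_pos hε))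
    rw [Asymptotics.isLittleO_const_left]
    right
    exact tendsto_norm_atTop_atTop.comp (tendsto_rpow_atTop (half_pos hε))
  have h2 := h1.def (show (0 : ℝ) < 1 / (K + 1) by positivity)
  filter_upwards [h2, eventually_ge_atTop 1] with T hT hT1
  have hT0 : 0 < T := by linarith
  rw [Real.norm_eq_abs, Real.norm_eq_abs, abs_of_pos (Real.rpow_pos_of_pos hT0 _)] at hT
  have hl : 0 ≤ Real.log T := Real.log_nonneg hT1
  rw [abs_of_nonneg (by linarith)] at hT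
  have h3 : T ^ (ε / 2) * T ^ (ε / 2) = T ^ ε := by
    rw [← Real.rpow_add hT0]; congr 1; ring
  have h4 : (2 + Real.log T) ^ 2 ≤ (1 / (K + 1) * T ^ (ε / 2)) ^ 2 := by
    apply pow_le_pow_left₀ (by linarith) hT
  have h5 : (1 / (K + 1) * T ^ (ε / 2)) ^ 2 = (1 / (K + 1)) ^ 2 * T ^ ε := by
    rw [mul_pow, sq (T ^ (ε / 2)), h3]
  rw [h5] at h4
  have h6 : K * (1 / (K + 1)) ^ 2 ≤ 1 := by
    rw [div_pow, one_pow, mul_one_div, div_le_one (by positivity)]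
    nlinarith
  calc K * (2 + Real.log T) ^ 2 ≤ K * ((1 / (K + 1)) ^ 2 * T ^ ε) :=
        mul_le_mul_of_nonneg_left h4 hK.le
    _ = (K * (1 / (K + 1)) ^ 2) * T ^ ε := by ring
    _ ≤ 1 * T ^ ε := mul_le_mul_of_nonneg_right h6 (Real.rpow_nonneg hT0.le _)
    _ = T ^ ε := one_mul _

/-- the quotient `Γ(z+s) / (Γ(z) z^s)` -/
noncomputable def Q1_G (z s : ℂ) : ℂ := Complex.Gamma (z + s) / (Complex.Gamma z * z ^ s)

theorem Q1_G_conj (z s : ℂ) (hz : z.arg ≠ Real.pi) :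
    Q1_G ((starRingEnd ℂ) z) s = (starRingEnd ℂ) (Q1_G z ((starRingEnd ℂ) s)) := by
  unfold Q1_G
  rw [map_div₀, map_mul, ← Complex.Gamma_conj, ← Complex.Gamma_conj, map_add, Complex.conj_conj]
  congr 2
  rw [Complex.cpow_conj _ _ hz, Complex.conj_conj]

theorem Q1_G_norm (z s : ℂ) (hz : z.arg ≠ Real.pi) :
    ‖Q1_G ((starRingEnd ℂ) z) s - 1‖ = ‖Q1_G z ((starRingEnd ℂ) s) - 1‖ := by
  rw [Q1_G_conj z s hz]
  have : (starRingEnd ℂ) (Q1_G z ((starRingEnd ℂ) s)) - 1 =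
      (starRingEnd ℂ) (Q1_G z ((starRingEnd ℂ) s) - 1) := by
    rw [map_sub, map_one]
  rw [this, Complex.norm_conj]

/-- the quotient of the Gamma factors -/
theorem Q1_ratio (t : ℝ) (ht : 0 < t) (w z : ℂ) (hz : z = ((1 / 4 : ℝ) : ℂ) + ((t / 2 : ℝ) : ℂ) * I) :
    Gammaℝ (1 / 2 + t * I + w) * Gammaℝ (1 / 2 - t * I + w) /
      (Gammaℝ (1 / 2 + t * I) * Gammaℝ (1 / 2 - t * I)) =
    ((t / (2 * Real.pi) : ℝ) : ℂ) ^ w *
      (Complex.exp ((Real.log (‖z‖ / (t / 2)) : ℝ) * w) * Q1_G z (w / 2) *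
        Q1_G ((starRingEnd ℂ) z) (w / 2)) := by
  have hpi : (Real.pi : ℂ) ≠ 0 := by exact_mod_cast Real.pi_ne_zero
  have hre : z.re = 1 / 4 := by rw [hz]; simp
  have him : z.im = t / 2 := by rw [hz]; simp
  have hz0 : z ≠ 0 := fun h => by rw [h] at hre; norm_num at hre
  have harg : z.arg ≠ Real.pi := by
    intro h
    rw [Complex.arg_eq_pi_iff] at h
    rw [hre] at h
    linarith [h.1]
  have hcz0 : (starRingEnd ℂ) z ≠ 0 := by
    intro h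
    exact hz0 ((map_eq_zero _).1 h)
  have hG : ∀ u : ℂ, 0 < u.re → Complex.Gamma u ≠ 0 := fun u hu => Complex.Gamma_ne_zero_of_re_pos hu
  have hGz : Complex.Gamma z ≠ 0 := hG z (by rw [hre]; norm_num)
  have hGcz : Complex.Gamma ((starRingEnd ℂ) z) ≠ 0 := hG _ (by rw [Complex.conj_re, hre]; norm_num)
  have hp1 : z ^ (w / 2) ≠ 0 := by rw [Complex.cpow_ne_zero_iff]; exact Or.inl hz0
  have hp2 : ((starRingEnd ℂ) z) ^ (w / 2) ≠ 0 := by
    rw [Complex.cpow_ne_zero_iff]; exact Or.inl hcz0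
  have e1 : (1 / 2 + (t : ℂ) * I + w) / 2 = z + w / 2 := by
    rw [hz]; push_cast; ring
  have e2 : (1 / 2 - (t : ℂ) * I + w) / 2 = (starRingEnd ℂ) z + w / 2 := by
    rw [hz, map_add, map_mul, Complex.conj_ofReal, Complex.conj_ofReal, Complex.conj_I]
    push_cast; ring
  have e3 : (1 / 2 + (t : ℂ) * I) / 2 = z := by
    rw [hz]; push_cast; ring
  have e4 : (1 / 2 - (t : ℂ) * I) / 2 = (starRingEnd ℂ) z := by
    rw [hz, map_add, map_mul, Complex.conj_ofReal, Complex.conj_ofReal, Complex.conj_I]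
    push_cast; ring
  rw [Gammaℝ_def, Gammaℝ_def, Gammaℝ_def, Gammaℝ_def, e1, e2, e3, e4]
  have f1 : (Real.pi : ℂ) ^ (-(1 / 2 + (t : ℂ) * I + w) / 2) *
      (Real.pi : ℂ) ^ (-(1 / 2 - (t : ℂ) * I + w) / 2) =
      (Real.pi : ℂ) ^ (-(1 / 2 + (t : ℂ) * I) / 2) * (Real.pi : ℂ) ^ (-(1 / 2 - (t : ℂ) * I) / 2) *
        (Real.pi : ℂ) ^ (-w) := by
    rw [← Complex.cpow_add _ _ hpi, ← Complex.cpow_add _ _ hpi, ← Complex.cpow_add _ _ hpi]
    congr 1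
    ring
  have f2 : (Real.pi : ℂ) ^ (-(1 / 2 + (t : ℂ) * I) / 2) ≠ 0 := by
    rw [Complex.cpow_ne_zero_iff]; exact Or.inl hpi
  have f3 : (Real.pi : ℂ) ^ (-(1 / 2 - (t : ℂ) * I) / 2) ≠ 0 := by
    rw [Complex.cpow_ne_zero_iff]; exact Or.inl hpi
  have f4 : Complex.Gamma (z + w / 2) = Q1_G z (w / 2) * (Complex.Gamma z * z ^ (w / 2)) := by
    unfold Q1_G; field_simp
  have f5 : Complex.Gamma ((starRingEnd ℂ) z + w / 2) = Q1_G ((starRingEnd ℂ) z) (w / 2) *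
      (Complex.Gamma ((starRingEnd ℂ) z) * ((starRingEnd ℂ) z) ^ (w / 2)) := by
    unfold Q1_G; field_simp
  -- powers
  have hn : 0 < ‖z‖ := norm_pos_iff.2 hz0
  have g1 : z ^ (w / 2) * ((starRingEnd ℂ) z) ^ (w / 2) =
      Complex.exp ((Real.log ‖z‖ : ℝ) * w) := by
    rw [Complex.cpow_def_of_ne_zero hz0, Complex.cpow_def_of_ne_zero hcz0, ← Complex.exp_add,
      Complex.log_conj z harg, ← add_mul, Complex.add_conj, Complex.log_re]
    congr 1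
    push_cast
    ring
  have g2 : (Real.pi : ℂ) ^ (-w) = Complex.exp (-(Real.log Real.pi : ℝ) * w) := by
    rw [Complex.cpow_def_of_ne_zero hpi, ← Complex.ofReal_log Real.pi_pos.le]
    congr 1
    ring
  have hq : 0 < t / (2 * Real.pi) := by positivity
  have g3 : ((t / (2 * Real.pi) : ℝ) : ℂ) ^ w =
      Complex.exp ((Real.log (t / (2 * Real.pi)) : ℝ) * w) := by
    rw [Complex.cpow_def_of_ne_zero (by exact_mod_cast hq.ne'), ← Complex.ofReal_log hq.le]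
  have g4 : Real.log ‖z‖ - Real.log Real.pi =
      Real.log (t / (2 * Real.pi)) + Real.log (‖z‖ / (t / 2)) := by
    rw [Real.log_div ht.ne' (by positivity), Real.log_mul (by norm_num) Real.pi_ne_zero,
      Real.log_div hn.ne' (by positivity), Real.log_div ht.ne' (by norm_num)]
    ring
  have g5 : (Real.pi : ℂ) ^ (-w) * (z ^ (w / 2) * ((starRingEnd ℂ) z) ^ (w / 2)) =
      ((t / (2 * Real.pi) : ℝ) : ℂ) ^ w * Complex.exp ((Real.log (‖z‖ / (t / 2)) : ℝ) * w) := by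
    rw [g1, g2, g3, ← Complex.exp_add, ← Complex.exp_add]
    congr 1
    have : ((Real.log ‖z‖ : ℝ) : ℂ) - (Real.log Real.pi : ℝ) =
        (Real.log (t / (2 * Real.pi)) : ℝ) + (Real.log (‖z‖ / (t / 2)) : ℝ) := by
      exact_mod_cast congrArg (fun x : ℝ => (x : ℂ)) g4
    linear_combination w * this
  rw [div_eq_iff (by
    refine mul_ne_zero (mul_ne_zero f2 hGz) (mul_ne_zero f3 hGcz)), f4, f5]
  linear_combination (Q1_G z (w / 2) * (Complex.Gamma z * z ^ (w / 2)) *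
    (Q1_G ((starRingEnd ℂ) z) (w / 2) *
      (Complex.Gamma ((starRingEnd ℂ) z) * ((starRingEnd ℂ) z) ^ (w / 2)))) * f1 +
    ((Real.pi : ℂ) ^ (-(1 / 2 + (t : ℂ) * I) / 2) * (Real.pi : ℂ) ^ (-(1 / 2 - (t : ℂ) * I) / 2) *
      Q1_G z (w / 2) * Q1_G ((starRingEnd ℂ) z) (w / 2) * Complex.Gamma z *
      Complex.Gamma ((starRingEnd ℂ) z)) * g5

theorem Q1 (hGR : S_GR) : S_Q1 := by
  obtain ⟨C, hC, hGR⟩ := hGR
  intro ε hε
  have h1 := Q1_log (62 * (2 * C + 1)) ε (by positivity) hε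
  have h2 := Q1_log (64 + 2 * (2 * C + 1)) 1 (by positivity) one_pos
  obtain ⟨T0, hT0⟩ := (h1.and (h2.and (eventually_ge_atTop (4 : ℝ)))).exists_forall_of_atTop
  refine ⟨T0, ?_⟩
  intro T hT t ht1 ht2 v hv
  obtain ⟨hA, hB, hT4⟩ := hT0 T hT
  rw [Real.rpow_one] at hB
  have hTp : 0 < T := by linarith
  have ht : 0 < t := by linarith
  have htge : 2 ≤ t := by linarith
  set w : ℂ := ((3 / 5 : ℝ) : ℂ) + v * I with hw
  have hwre : w.re = 3 / 5 := by rw [hw]; simp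
  set L : ℝ := 2 + Real.log T with hL
  have hlog : 0 ≤ Real.log T := Real.log_nonneg (by linarith)
  have hL2 : 2 ≤ L := by rw [hL]; linarith
  have hwn : 1 + ‖w‖ ≤ L := by
    have : ‖w‖ ≤ 3 / 5 + |v| := by
      rw [hw]
      calc ‖((3 / 5 : ℝ) : ℂ) + v * I‖ ≤ ‖((3 / 5 : ℝ) : ℂ)‖ + ‖(v : ℂ) * I‖ := norm_add_le _ _
        _ = 3 / 5 + |v| := by
          rw [norm_mul, norm_I, mul_one, Complex.norm_real, Complex.norm_real, Real.norm_eq_abs,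
            Real.norm_eq_abs, abs_of_pos (by norm_num : (0:ℝ) < 3 / 5)]
    rw [hL]; linarith
  have hwn0 : 0 ≤ ‖w‖ := norm_nonneg w
  set z : ℂ := ((1 / 4 : ℝ) : ℂ) + ((t / 2 : ℝ) : ℂ) * I with hz
  have hre : z.re = 1 / 4 := by rw [hz]; simp
  have him : z.im = t / 2 := by rw [hz]; simp
  have harg : z.arg ≠ Real.pi := by
    intro h
    rw [Complex.arg_eq_pi_iff] at h
    rw [hre] at h
    linarith [h.1]
  set d : ℝ := (2 * C + 1) * L ^ 2 / t with hd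
  have hL0 : 0 ≤ L ^ 2 := sq_nonneg L
  have hd1 : d ≤ 1 := by
    rw [hd, div_le_one ht]
    have e1 : (64 + 2 * (2 * C + 1)) * L ^ 2 = 64 * L ^ 2 + 2 * ((2 * C + 1) * L ^ 2) := by ring
    rw [e1] at hB
    linarith
  have hd0 : 0 ≤ d := by rw [hd]; positivity
  -- the Gamma quotients
  have hGam : ∀ s : ℂ, ‖s‖ = ‖w‖ / 2 → 0 ≤ s.re → ‖Q1_G z s - 1‖ ≤ d := by
    intro s hs hsre
    have h16 : 16 * (1 + ‖s‖) ^ 2 ≤ z.im := by
      rw [him, hs]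
      have h1 : (1 + ‖w‖ / 2) ^ 2 ≤ L ^ 2 := pow_le_pow_left₀ (by positivity) (by linarith) 2
      have e1 : (64 + 2 * (2 * C + 1)) * L ^ 2 = 64 * L ^ 2 + 2 * ((2 * C + 1) * L ^ 2) := by ring
      have e2 : 0 ≤ (2 * C + 1) * L ^ 2 := by positivity
      rw [e1] at hB
      linarith
    have h := hGR z s (by rw [hre]; norm_num) (by rw [hre, him]; linarith)
      (by rw [Complex.add_re, hre]; linarith) h16
    refine h.trans ?_
    rw [him, hs, hd, div_le_div_iff₀ (by positivity) ht]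
    have h1 : (1 + ‖w‖ / 2) ^ 2 ≤ L ^ 2 := pow_le_pow_left₀ (by positivity) (by linarith) 2
    have h3 : C * (1 + ‖w‖ / 2) ^ 2 ≤ C * L ^ 2 := mul_le_mul_of_nonneg_left h1 hC.le
    have e1 := mul_le_mul_of_nonneg_right h3 ht.le
    have e2 := mul_nonneg hL0 ht.le
    have e3 : (2 * C + 1) * L ^ 2 * (t / 2) = C * L ^ 2 * t + L ^ 2 * t / 2 := by ring
    rw [e3]
    linarith
  have hw2 : ‖w / 2‖ = ‖w‖ / 2 := by
    rw [norm_div]; norm_num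
  have x4 : ‖Q1_G z (w / 2) - 1‖ ≤ d := by
    apply hGam _ hw2
    have : (w / 2).re = w.re / 2 := by simp
    rw [this, hwre]; norm_num
  have x5 : ‖Q1_G ((starRingEnd ℂ) z) (w / 2) - 1‖ ≤ d := by
    rw [Q1_G_norm z _ harg]
    apply hGam _ (by rw [Complex.norm_conj, hw2])
    have : (w / 2).re = w.re / 2 := by simp
    rw [Complex.conj_re, this, hwre]; norm_num
  -- the power
  have hn1 : t / 2 ≤ ‖z‖ := by
    have := Complex.abs_im_le_norm z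
    rw [him, abs_of_pos (by positivity)] at this
    exact this
  have hn2 : ‖z‖ ≤ t / 2 + 1 / 4 := by
    rw [hz]
    calc ‖((1 / 4 : ℝ) : ℂ) + ((t / 2 : ℝ) : ℂ) * I‖ ≤ ‖((1 / 4 : ℝ) : ℂ)‖ +
          ‖((t / 2 : ℝ) : ℂ) * I‖ := norm_add_le _ _
      _ = t / 2 + 1 / 4 := by
        rw [norm_mul, norm_I, mul_one, Complex.norm_real, Complex.norm_real, Real.norm_eq_abs,
          Real.norm_eq_abs, abs_of_pos (by norm_num : (0:ℝ) < 1 / 4),
          abs_of_pos (by positivity : 0 < t / 2)]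
        ring
  have ht2' : 0 < t / 2 := by positivity
  have hl0 : 0 ≤ Real.log (‖z‖ / (t / 2)) := Real.log_nonneg (by rwa [one_le_div ht2'])
  have hl1 : Real.log (‖z‖ / (t / 2)) ≤ 1 / (2 * t) := by
    have hnz : 0 < ‖z‖ := by linarith
    have h1 := Real.log_le_sub_one_of_pos (div_pos hnz ht2')
    refine h1.trans ?_
    rw [div_sub_one (by positivity), div_le_div_iff₀ ht2' (by positivity)]
    nlinarith
  have x3 : ‖Complex.exp ((Real.log (‖z‖ / (t / 2)) : ℝ) * w) - 1‖ ≤ d := by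
    have h1 : ‖((Real.log (‖z‖ / (t / 2)) : ℝ) : ℂ) * w‖ ≤ L / (2 * t) := by
      rw [norm_mul, Complex.norm_real, Real.norm_eq_abs, abs_of_nonneg hl0]
      calc Real.log (‖z‖ / (t / 2)) * ‖w‖ ≤ 1 / (2 * t) * L :=
            mul_le_mul hl1 (by linarith) hwn0 (by positivity)
        _ = L / (2 * t) := by ring
    have h2 : L / (2 * t) ≤ 1 / 2 * d := by
      rw [hd]
      have h3 : L ≤ (2 * C + 1) * L ^ 2 := by
        have e1 : (2 * C + 1) * L ^ 2 = 2 * (C * L ^ 2) + L ^ 2 := by ring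
        have e2 : 0 ≤ C * L ^ 2 := mul_nonneg hC.le hL0
        have e3 : L ≤ L ^ 2 := by nlinarith
        linarith
      calc L / (2 * t) = 1 / 2 * (L / t) := by ring
        _ ≤ 1 / 2 * ((2 * C + 1) * L ^ 2 / t) := by gcongr
    have h3 := Complex.norm_exp_sub_one_le (x := ((Real.log (‖z‖ / (t / 2)) : ℝ) : ℂ) * w)
      (by linarith)
    linarith
  -- the polynomial
  have hsq : ∀ a : ℂ, ‖a‖ ^ 2 = 1 / 4 + t ^ 2 → ‖(1 - w ^ 2 / a ^ 2) - 1‖ ≤ d := by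
    intro a ha
    have e : (1 - w ^ 2 / a ^ 2) - 1 = -(w ^ 2 / a ^ 2) := by ring
    rw [e, norm_neg, norm_div, norm_pow, norm_pow, ha, hd, div_le_div_iff₀ (by positivity) ht]
    have h1 : ‖w‖ ^ 2 ≤ L ^ 2 := pow_le_pow_left₀ hwn0 (by linarith) 2
    have h2 : t ≤ 1 / 4 + t ^ 2 := by nlinarith
    have h3 : L ^ 2 ≤ (2 * C + 1) * L ^ 2 := by
      have e1 : (2 * C + 1) * L ^ 2 = 2 * (C * L ^ 2) + L ^ 2 := by ring
      have e2 : 0 ≤ C * L ^ 2 := mul_nonneg hC.le hL0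
      linarith
    exact mul_le_mul (h1.trans h3) h2 ht.le (by positivity)
  set a : ℂ := 1 / 2 + t * I with ha
  set b : ℂ := 1 / 2 - t * I with hb
  have hna : ‖a‖ ^ 2 = 1 / 4 + t ^ 2 := by
    rw [← Complex.normSq_eq_norm_sq, ha, Complex.normSq_apply]
    simp; ring
  have hnb : ‖b‖ ^ 2 = 1 / 4 + t ^ 2 := by
    rw [← Complex.normSq_eq_norm_sq, hb, Complex.normSq_apply]
    simp; ring
  have hab : a * b = 1 / 4 + (t : ℂ) ^ 2 := by
    rw [ha, hb]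
    ring_nf
    rw [I_sq]
    ring
  have ha0 : a ≠ 0 := by
    intro h
    rw [h, norm_zero] at hna
    nlinarith
  have hb0 : b ≠ 0 := by
    intro h
    rw [h, norm_zero] at hnb
    nlinarith
  have hpol : (a ^ 2 - w ^ 2) * (b ^ 2 - w ^ 2) / ((1 / 4 + (t : ℂ) ^ 2) ^ 2) =
      (1 - w ^ 2 / a ^ 2) * (1 - w ^ 2 / b ^ 2) := by
    rw [← hab]
    field_simp
  have hQ : Qt t w = ((t / (2 * Real.pi) : ℝ) : ℂ) ^ w *
      ((1 - w ^ 2 / a ^ 2) * (1 - w ^ 2 / b ^ 2) *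
        (Complex.exp ((Real.log (‖z‖ / (t / 2)) : ℝ) * w) * Q1_G z (w / 2)) *
        Q1_G ((starRingEnd ℂ) z) (w / 2)) := by
    unfold Qt
    rw [Q1_ratio t ht w z hz, ← ha, ← hb, hpol]
    ring
  have hfin := Q1_prod5 _ _ _ _ _ d hd1 (hsq a hna) (hsq b hnb) x3 x4 x5
  have hq : 0 < t / (2 * Real.pi) := by positivity
  rw [hQ]
  have e : ((t / (2 * Real.pi) : ℝ) : ℂ) ^ w *
      ((1 - w ^ 2 / a ^ 2) * (1 - w ^ 2 / b ^ 2) *
        (Complex.exp ((Real.log (‖z‖ / (t / 2)) : ℝ) * w) * Q1_G z (w / 2)) *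
        Q1_G ((starRingEnd ℂ) z) (w / 2)) - ((t / (2 * Real.pi) : ℝ) : ℂ) ^ w =
      ((t / (2 * Real.pi) : ℝ) : ℂ) ^ w *
      ((1 - w ^ 2 / a ^ 2) * (1 - w ^ 2 / b ^ 2) *
        (Complex.exp ((Real.log (‖z‖ / (t / 2)) : ℝ) * w) * Q1_G z (w / 2)) *
        Q1_G ((starRingEnd ℂ) z) (w / 2) - 1) := by ring
  rw [e, norm_mul, Complex.norm_cpow_eq_rpow_re_of_pos hq, hwre]
  have hpi : 1 ≤ 2 * Real.pi := by linarith [Real.pi_gt_three]
  have k1 : (t / (2 * Real.pi)) ^ (3 / 5 : ℝ) ≤ t ^ (3 / 5 : ℝ) :=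
    Real.rpow_le_rpow hq.le (div_le_self ht.le hpi) (by norm_num)
  have k2 : t ^ (3 / 5 : ℝ) / t = t ^ (-(2 / 5) : ℝ) := by
    rw [div_eq_mul_inv, ← Real.rpow_neg_one t, ← Real.rpow_add ht]
    norm_num
  have k3 : t ^ (-(2 / 5) : ℝ) ≤ 2 * T ^ (-(2 / 5) : ℝ) := by
    have h1 : t ^ (-(2 / 5) : ℝ) ≤ (T / 2) ^ (-(2 / 5) : ℝ) :=
      Real.rpow_le_rpow_of_nonpos (by positivity) ht1 (by norm_num)
    refine h1.trans ?_
    rw [Real.div_rpow hTp.le (by norm_num), div_eq_mul_inv, ← Real.rpow_neg (by norm_num), neg_neg,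
      mul_comm]
    apply mul_le_mul_of_nonneg_right _ (Real.rpow_nonneg hTp.le _)
    calc (2 : ℝ) ^ (2 / 5 : ℝ) ≤ 2 ^ (1 : ℝ) :=
          Real.rpow_le_rpow_of_exponent_le (by norm_num) (by norm_num)
      _ = 2 := Real.rpow_one 2
  calc (t / (2 * Real.pi)) ^ (3 / 5 : ℝ) * _ ≤ t ^ (3 / 5 : ℝ) * (31 * d) := by
        apply mul_le_mul k1 hfin (norm_nonneg _) (Real.rpow_nonneg ht.le _)
    _ = 31 * (2 * C + 1) * L ^ 2 * (t ^ (3 / 5 : ℝ) / t) := by rw [hd]; ring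
    _ = 31 * (2 * C + 1) * L ^ 2 * t ^ (-(2 / 5) : ℝ) := by rw [k2]
    _ ≤ 31 * (2 * C + 1) * L ^ 2 * (2 * T ^ (-(2 / 5) : ℝ)) :=
        mul_le_mul_of_nonneg_left k3 (by positivity)
    _ = (62 * (2 * C + 1) * L ^ 2) * T ^ (-(2 / 5) : ℝ) := by ring
    _ ≤ T ^ ε * T ^ (-(2 / 5) : ℝ) :=
        mul_le_mul_of_nonneg_right hA (Real.rpow_nonneg hTp.le _)
    _ = T ^ (-(2 / 5) + ε) := by rw [← Real.rpow_add hTp, add_comm]

end Pool.Agent.H408R2.CM
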