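import Pool.Agent.H408R2.CM.Stubs

set_option autoImplicit false

/-! # TEAM CM, Q2: crude bound of the Gamma factors -/

open Complex MeasureTheory Filter Topology

namespace Pool.Agent.H408R2.CM

open Pool.Agent.H304R4.CM

theorem Q2_contGamma (a b : ℂ) (h : ∀ v : ℝ, 0 < (a + v * b).re) :
    Continuous (fun v : ℝ => Complex.Gamma (a + v * b)) := by
  rw [continuous_iff_continuousAt]
  intro v
  have h1 : ContinuousAt Complex.Gamma (a + v * b) := by
    apply (Complex.differentiableAt_Gamma _ _).continuousAt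
    intro m hm
    have h2 := h v
    rw [hm] at h2
    simp only [neg_re, natCast_re] at h2
    have : (0 : ℝ) ≤ m := Nat.cast_nonneg m
    linarith
  have h3 : Continuous (fun v : ℝ => a + v * b) := by fun_prop
  exact ContinuousAt.comp (f := fun v : ℝ => a + v * b) h1 h3.continuousAt

theorem Q2_contGammaR (a : ℂ) (h : 0 < a.re) :
    Continuous (fun v : ℝ => Gammaℝ (a + v * I)) := by
  have e : (fun v : ℝ => Gammaℝ (a + v * I)) =
      fun v : ℝ => (Real.pi : ℂ) ^ (-(a + v * I) / 2) * Complex.Gamma (a / 2 + v * (I / 2)) := by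
    funext v
    rw [Complex.Gammaℝ_def]
    congr 2
    ring
  rw [e]
  refine Continuous.mul ?_ (Q2_contGamma _ _ fun v => ?_)
  · have hpi : (Real.pi : ℂ) ≠ 0 := by exact_mod_cast Real.pi_ne_zero
    exact Continuous.const_cpow (by fun_prop) (Or.inl hpi)
  · simp
    linarith

theorem Q2_cont (t : ℝ) : Continuous (fun v : ℝ => Qt t (((3 / 5 : ℝ) : ℂ) + v * I)) := by
  unfold Qt
  have h1 : Continuous (fun v : ℝ => Gammaℝ (1 / 2 + t * I + (((3 / 5 : ℝ) : ℂ) + v * I))) := by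
    have := Q2_contGammaR (1 / 2 + t * I + ((3 / 5 : ℝ) : ℂ)) (by simp; norm_num)
    simpa only [add_assoc] using this
  have h2 : Continuous (fun v : ℝ => Gammaℝ (1 / 2 - t * I + (((3 / 5 : ℝ) : ℂ) + v * I))) := by
    have := Q2_contGammaR (1 / 2 - t * I + ((3 / 5 : ℝ) : ℂ)) (by simp; norm_num)
    simpa only [add_assoc] using this
  exact Continuous.mul (by fun_prop) ((h1.mul h2).div_const _)

/-- upper bound -/
theorem Q2_up (hGB : S_GB) : ∃ C : ℝ, 0 < C ∧ ∀ x : ℝ,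
    ‖Complex.Gamma (((11 / 20 : ℝ) : ℂ) + x * (I / 2))‖ ≤
      C * (1 + |x|) * Real.exp (-(Real.pi * |x| / 4)) := by
  obtain ⟨C, hC, hup, -⟩ := hGB
  have hc : Continuous (fun x : ℝ => Complex.Gamma (((11 / 20 : ℝ) : ℂ) + x * (I / 2))) :=
    Q2_contGamma _ _ fun v => by simp
  obtain ⟨B, hB⟩ := (isCompact_Icc (a := (-2 : ℝ)) (b := 2)).exists_bound_of_continuousOn
    hc.continuousOn
  have hB0 : 0 ≤ B := (norm_nonneg _).trans (hB 0 (by constructor <;> norm_num))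
  have hE : 0 < Real.exp (Real.pi / 2) := Real.exp_pos _
  refine ⟨C + B * Real.exp (Real.pi / 2), by positivity, fun x => ?_⟩
  have hx1 : (1 : ℝ) ≤ 1 + |x| := by linarith [abs_nonneg x]
  have he := Real.exp_pos (-(Real.pi * |x| / 4))
  rcases le_or_gt 2 |x| with h | h
  · have him : (((11 / 20 : ℝ) : ℂ) + x * (I / 2)).im = x / 2 := by
      simp
      ring
    have hre : (((11 / 20 : ℝ) : ℂ) + x * (I / 2)).re = 11 / 20 := by simp
    have habs : |x / 2| = |x| / 2 := by rw [abs_div, abs_of_pos (by norm_num : (0 : ℝ) < 2)]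
    have h1 := hup (((11 / 20 : ℝ) : ℂ) + x * (I / 2)) (by rw [hre]; norm_num)
      (by rw [him, habs]; linarith)
    rw [him, hre, habs] at h1
    have hnorm : ‖((11 / 20 : ℝ) : ℂ) + x * (I / 2)‖ ≤ 1 + |x| := by
      refine (norm_add_le _ _).trans ?_
      rw [norm_mul, norm_div, Complex.norm_real, Complex.norm_real, norm_I]
      simp only [Real.norm_eq_abs]
      norm_num
      have := abs_nonneg x
      linarith
    have h2 : ‖((11 / 20 : ℝ) : ℂ) + x * (I / 2)‖ ^ ((11 / 20 : ℝ) - 1 / 2) ≤ 1 + |x| := by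
      refine (Real.rpow_le_rpow (norm_nonneg _) hnorm (by norm_num)).trans ?_
      refine (Real.rpow_le_rpow_of_exponent_le hx1 (y := (11 / 20 : ℝ) - 1 / 2) (z := 1)
        (by norm_num)).trans ?_
      rw [Real.rpow_one]
    have e : Real.pi * (|x| / 2) / 2 = Real.pi * |x| / 4 := by ring
    rw [e] at h1
    refine h1.trans ?_
    have h3 : C * ‖((11 / 20 : ℝ) : ℂ) + x * (I / 2)‖ ^ ((11 / 20 : ℝ) - 1 / 2) ≤
        (C + B * Real.exp (Real.pi / 2)) * (1 + |x|) := by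
      refine mul_le_mul ?_ h2 (by positivity) (by positivity)
      have := mul_nonneg hB0 hE.le
      linarith
    exact mul_le_mul_of_nonneg_right h3 he.le
  · have h1 := hB x (abs_le.1 h.le)
    have h2 : 1 ≤ Real.exp (Real.pi / 2) * Real.exp (-(Real.pi * |x| / 4)) := by
      rw [← Real.exp_add]
      apply Real.one_le_exp
      have := Real.pi_pos
      nlinarith
    calc ‖Complex.Gamma (((11 / 20 : ℝ) : ℂ) + x * (I / 2))‖ ≤ B := h1
      _ = B * 1 := (mul_one B).symm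
      _ ≤ B * (Real.exp (Real.pi / 2) * Real.exp (-(Real.pi * |x| / 4))) :=
        mul_le_mul_of_nonneg_left h2 hB0
      _ = B * Real.exp (Real.pi / 2) * 1 * Real.exp (-(Real.pi * |x| / 4)) := by ring
      _ ≤ (C + B * Real.exp (Real.pi / 2)) * (1 + |x|) * Real.exp (-(Real.pi * |x| / 4)) := by
        refine mul_le_mul_of_nonneg_right ?_ he.le
        exact mul_le_mul (by linarith) hx1 (by norm_num) (by positivity)

/-- lower bound -/
theorem Q2_low (hGB : S_GB) : ∃ C : ℝ, 0 < C ∧ ∀ x : ℝ, 2 ≤ |x| →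
    Real.exp (-(Real.pi * |x| / 4)) ≤
      C * (1 + |x|) * ‖Complex.Gamma (((1 / 4 : ℝ) : ℂ) + x * (I / 2))‖ := by
  obtain ⟨C, hC, -, hlo⟩ := hGB
  refine ⟨C, hC, fun x hx => ?_⟩
  have hx1 : (1 : ℝ) ≤ 1 + |x| := by linarith [abs_nonneg x]
  have him : (((1 / 4 : ℝ) : ℂ) + x * (I / 2)).im = x / 2 := by
    simp
    ring
  have hre : (((1 / 4 : ℝ) : ℂ) + x * (I / 2)).re = 1 / 4 := by simp
  have habs : |x / 2| = |x| / 2 := by rw [abs_div, abs_of_pos (by norm_num : (0 : ℝ) < 2)]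
  have h1 := hlo (((1 / 4 : ℝ) : ℂ) + x * (I / 2)) (by rw [hre]; norm_num)
    (by rw [hre]; norm_num) (by rw [him, habs]; linarith)
  rw [him, hre, habs] at h1
  have hnorm : ‖((1 / 4 : ℝ) : ℂ) + x * (I / 2)‖ ≤ 1 + |x| := by
    refine (norm_add_le _ _).trans ?_
    rw [norm_mul, norm_div, Complex.norm_real, Complex.norm_real, norm_I]
    simp only [Real.norm_eq_abs]
    norm_num
    have := abs_nonneg x
    linarith
  have hpos : 0 < ‖((1 / 4 : ℝ) : ℂ) + x * (I / 2)‖ := by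
    rw [norm_pos_iff]
    intro h
    rw [h] at hre
    norm_num at hre
  have h2 : (1 + |x|)⁻¹ ≤ ‖((1 / 4 : ℝ) : ℂ) + x * (I / 2)‖ ^ ((1 / 4 : ℝ) - 1 / 2) := by
    have e : (1 / 4 : ℝ) - 1 / 2 = -(1 / 4) := by norm_num
    rw [e, Real.rpow_neg hpos.le]
    refine inv_anti₀ (by positivity) ?_
    refine (Real.rpow_le_rpow hpos.le hnorm (by norm_num)).trans ?_
    refine (Real.rpow_le_rpow_of_exponent_le hx1 (y := (1 / 4 : ℝ)) (z := 1)
        (by norm_num)).trans ?_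
    rw [Real.rpow_one]
  have e : Real.pi * (|x| / 2) / 2 = Real.pi * |x| / 4 := by ring
  rw [e] at h1
  have he := Real.exp_pos (-(Real.pi * |x| / 4))
  calc Real.exp (-(Real.pi * |x| / 4)) =
        (1 + |x|) * ((1 + |x|)⁻¹ * Real.exp (-(Real.pi * |x| / 4))) := by
        field_simp
    _ ≤ (1 + |x|) * (‖((1 / 4 : ℝ) : ℂ) + x * (I / 2)‖ ^ ((1 / 4 : ℝ) - 1 / 2) *
          Real.exp (-(Real.pi * |x| / 4))) :=
        mul_le_mul_of_nonneg_left (mul_le_mul_of_nonneg_right h2 he.le) (by positivity)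
    _ ≤ (1 + |x|) * (C * ‖Complex.Gamma (((1 / 4 : ℝ) : ℂ) + x * (I / 2))‖) :=
        mul_le_mul_of_nonneg_left h1 (by positivity)
    _ = _ := by ring

theorem Q2_normR (σ x : ℝ) : ‖Gammaℝ ((σ : ℂ) + x * I)‖ =
    Real.pi ^ (-(σ / 2)) * ‖Complex.Gamma (((σ / 2 : ℝ) : ℂ) + x * (I / 2))‖ := by
  rw [Complex.Gammaℝ_def, norm_mul, Complex.norm_cpow_eq_rpow_re_of_pos Real.pi_pos]
  congr 2
  · simp; ring
  · congr 1
    push_cast
    ring

theorem Q2 (hGB : S_GB) : S_Q2 := by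
  refine ⟨Q2_cont, ?_⟩
  obtain ⟨C1, hC1, hup⟩ := Q2_up hGB
  obtain ⟨C2, hC2, hlo⟩ := Q2_low hGB
  refine ⟨4 * (16 * (C1 ^ 2 * C2 ^ 2)), 8, by positivity, fun t v ht => ?_⟩
  set Y : ℝ := 1 + t + |v| with hY
  have hv := abs_nonneg v
  have hY1 : 1 ≤ Y := by rw [hY]; linarith
  have ht0 : 0 ≤ t := by linarith
  have ht1 : |t| = t := abs_of_nonneg ht0
  have hp1 : |t + v| ≤ t + |v| := (abs_add_le t v).trans (by rw [ht1])
  have hp2 : |v - t| ≤ t + |v| := (abs_sub v t).trans (by rw [ht1]; linarith)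
  -- the polynomial factor
  have hw : ‖((3 / 5 : ℝ) : ℂ) + v * I‖ ≤ Y := by
    refine (norm_add_le _ _).trans ?_
    rw [norm_mul, Complex.norm_real, Complex.norm_real, norm_I, Real.norm_eq_abs,
      Real.norm_eq_abs, abs_of_pos (by norm_num : (0:ℝ) < 3 / 5), mul_one]
    linarith
  have hs1 : ‖(1 / 2 : ℂ) + t * I‖ ≤ Y := by
    refine (norm_add_le _ _).trans ?_
    rw [norm_mul, Complex.norm_real, norm_I, Real.norm_eq_abs, ht1, mul_one]
    norm_num
    linarith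
  have hs2 : ‖(1 / 2 : ℂ) - t * I‖ ≤ Y := by
    refine (norm_sub_le _ _).trans ?_
    rw [norm_mul, Complex.norm_real, norm_I, Real.norm_eq_abs, ht1, mul_one]
    norm_num
    linarith
  have hsq : ∀ a b : ℂ, ‖a‖ ≤ Y → ‖b‖ ≤ Y → ‖a ^ 2 - b ^ 2‖ ≤ 2 * Y ^ 2 := by
    intro a b ha hb
    refine (norm_sub_le _ _).trans ?_
    rw [norm_pow, norm_pow]
    have h1 := pow_le_pow_left₀ (norm_nonneg a) ha 2
    have h2 := pow_le_pow_left₀ (norm_nonneg b) hb 2
    linarith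
  have hden : 1 ≤ ‖((1 / 4 : ℂ) + (t : ℂ) ^ 2) ^ 2‖ := by
    have e : ((1 / 4 : ℂ) + (t : ℂ) ^ 2) = ((1 / 4 + t ^ 2 : ℝ) : ℂ) := by push_cast; rfl
    rw [norm_pow, e, Complex.norm_real, Real.norm_eq_abs, abs_of_nonneg (by positivity)]
    apply one_le_pow₀
    nlinarith
  have hpoly : ‖((1 / 2 + t * I) ^ 2 - (((3 / 5 : ℝ) : ℂ) + v * I) ^ 2) *
      ((1 / 2 - t * I) ^ 2 - (((3 / 5 : ℝ) : ℂ) + v * I) ^ 2) / ((1 / 4 + (t : ℂ) ^ 2) ^ 2)‖ ≤
      4 * Y ^ 4 := by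
    rw [norm_div, norm_mul]
    refine (div_le_self (by positivity) hden).trans ?_
    calc _ ≤ (2 * Y ^ 2) * (2 * Y ^ 2) :=
          mul_le_mul (hsq _ _ hs1 hw) (hsq _ _ hs2 hw) (norm_nonneg _) (by positivity)
      _ = 4 * Y ^ 4 := by ring
  -- the Gamma factors
  have hg1 : ‖Gammaℝ (1 / 2 + t * I + (((3 / 5 : ℝ) : ℂ) + v * I))‖ ≤
      C1 * Y * Real.exp (-(Real.pi * |t + v| / 4)) := by
    have e : (1 / 2 + t * I + (((3 / 5 : ℝ) : ℂ) + v * I)) =
        ((11 / 10 : ℝ) : ℂ) + ((t + v : ℝ) : ℂ) * I := by push_cast; ring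
    rw [e, Q2_normR]
    have h1 : Real.pi ^ (-((11 / 10 : ℝ) / 2)) ≤ 1 :=
      Real.rpow_le_one_of_one_le_of_nonpos (by linarith [Real.pi_gt_three]) (by norm_num)
    have h2 := hup (t + v)
    have e2 : ((11 / 10 : ℝ) / 2) = 11 / 20 := by norm_num
    rw [e2] at h1 ⊢
    calc _ ≤ 1 * ‖Complex.Gamma (((11 / 20 : ℝ) : ℂ) + ((t + v : ℝ) : ℂ) * (I / 2))‖ :=
          mul_le_mul_of_nonneg_right h1 (norm_nonneg _)
      _ ≤ C1 * (1 + |t + v|) * Real.exp (-(Real.pi * |t + v| / 4)) := by rw [one_mul]; exact h2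
      _ ≤ _ := by
        refine mul_le_mul_of_nonneg_right ?_ (Real.exp_pos _).le
        exact mul_le_mul_of_nonneg_left (by rw [hY]; linarith) hC1.le
  have hg2 : ‖Gammaℝ (1 / 2 - t * I + (((3 / 5 : ℝ) : ℂ) + v * I))‖ ≤
      C1 * Y * Real.exp (-(Real.pi * |v - t| / 4)) := by
    have e : (1 / 2 - t * I + (((3 / 5 : ℝ) : ℂ) + v * I)) =
        ((11 / 10 : ℝ) : ℂ) + ((v - t : ℝ) : ℂ) * I := by push_cast; ring
    rw [e, Q2_normR]
    have h1 : Real.pi ^ (-((11 / 10 : ℝ) / 2)) ≤ 1 :=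
      Real.rpow_le_one_of_one_le_of_nonpos (by linarith [Real.pi_gt_three]) (by norm_num)
    have h2 := hup (v - t)
    have e2 : ((11 / 10 : ℝ) / 2) = 11 / 20 := by norm_num
    rw [e2] at h1 ⊢
    calc _ ≤ 1 * ‖Complex.Gamma (((11 / 20 : ℝ) : ℂ) + ((v - t : ℝ) : ℂ) * (I / 2))‖ :=
          mul_le_mul_of_nonneg_right h1 (norm_nonneg _)
      _ ≤ C1 * (1 + |v - t|) * Real.exp (-(Real.pi * |v - t| / 4)) := by rw [one_mul]; exact h2
      _ ≤ _ := by
        refine mul_le_mul_of_nonneg_right ?_ (Real.exp_pos _).le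
        exact mul_le_mul_of_nonneg_left (by rw [hY]; linarith) hC1.le
  have hd : ∀ x : ℝ, |x| = t → Real.exp (-(Real.pi * t / 4)) ≤
      4 * (C2 * Y) * ‖Gammaℝ (((1 / 2 : ℝ) : ℂ) + x * I)‖ := by
    intro x hx
    rw [Q2_normR]
    have e2 : ((1 / 2 : ℝ) / 2) = 1 / 4 := by norm_num
    rw [e2]
    have h1 := hlo x (by rw [hx]; exact ht)
    rw [hx] at h1
    have h2 : 1 ≤ 4 * Real.pi ^ (-(1 / 4 : ℝ)) := by
      have h3 : (1 / 4 : ℝ) ≤ Real.pi ^ (-(1 / 4 : ℝ)) := by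
        rw [Real.rpow_neg Real.pi_pos.le, one_div]
        refine inv_anti₀ (by positivity) ?_
        refine (Real.rpow_le_rpow_of_exponent_le (by linarith [Real.pi_gt_three])
          (y := (4⁻¹ : ℝ)) (z := 1) (by norm_num)).trans ?_
        rw [Real.rpow_one]
        exact Real.pi_le_four
      linarith
    calc Real.exp (-(Real.pi * t / 4)) ≤
          C2 * (1 + t) * ‖Complex.Gamma (((1 / 4 : ℝ) : ℂ) + x * (I / 2))‖ := h1
      _ ≤ C2 * Y * ‖Complex.Gamma (((1 / 4 : ℝ) : ℂ) + x * (I / 2))‖ := by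
        refine mul_le_mul_of_nonneg_right ?_ (norm_nonneg _)
        exact mul_le_mul_of_nonneg_left (by rw [hY]; linarith) hC2.le
      _ = 1 * (C2 * Y * ‖Complex.Gamma (((1 / 4 : ℝ) : ℂ) + x * (I / 2))‖) := (one_mul _).symm
      _ ≤ 4 * Real.pi ^ (-(1 / 4 : ℝ)) *
          (C2 * Y * ‖Complex.Gamma (((1 / 4 : ℝ) : ℂ) + x * (I / 2))‖) :=
        mul_le_mul_of_nonneg_right h2 (by positivity)
      _ = _ := by ring
  have hd1 := hd t ht1
  have hd2 := hd (-t) (by rw [abs_neg, ht1])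
  have e1 : (((1 / 2 : ℝ) : ℂ) + (t : ℂ) * I) = 1 / 2 + t * I := by push_cast; ring
  have e2 : (((1 / 2 : ℝ) : ℂ) + ((-t : ℝ) : ℂ) * I) = 1 / 2 - t * I := by push_cast; ring
  rw [e1] at hd1
  rw [e2] at hd2
  have hE0 := Real.exp_pos (-(Real.pi * t / 4))
  have hY0 : 0 < Y := by linarith
  have hn1 : 0 < ‖Gammaℝ (1 / 2 + t * I)‖ := by
    by_contra hcon
    have : ‖Gammaℝ (1 / 2 + t * I)‖ = 0 := le_antisymm (not_lt.1 hcon) (norm_nonneg _)
    rw [this, mul_zero] at hd1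
    linarith
  have hn2 : 0 < ‖Gammaℝ (1 / 2 - t * I)‖ := by
    by_contra hcon
    have : ‖Gammaℝ (1 / 2 - t * I)‖ = 0 := le_antisymm (not_lt.1 hcon) (norm_nonneg _)
    rw [this, mul_zero] at hd2
    linarith
  have hgam : ‖Gammaℝ (1 / 2 + t * I + (((3 / 5 : ℝ) : ℂ) + v * I)) *
      Gammaℝ (1 / 2 - t * I + (((3 / 5 : ℝ) : ℂ) + v * I)) /
      (Gammaℝ (1 / 2 + t * I) * Gammaℝ (1 / 2 - t * I))‖ ≤ 16 * (C1 ^ 2 * C2 ^ 2) * Y ^ 4 := by
    rw [norm_div, norm_mul, norm_mul, div_le_iff₀ (by positivity)]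
    have hnum : ‖Gammaℝ (1 / 2 + t * I + (((3 / 5 : ℝ) : ℂ) + v * I))‖ *
        ‖Gammaℝ (1 / 2 - t * I + (((3 / 5 : ℝ) : ℂ) + v * I))‖ ≤
        (C1 * Y) ^ 2 * (Real.exp (-(Real.pi * t / 4)) * Real.exp (-(Real.pi * t / 4))) := by
      refine (mul_le_mul hg1 hg2 (norm_nonneg _) (by positivity)).trans ?_
      have h3 : Real.exp (-(Real.pi * |t + v| / 4)) * Real.exp (-(Real.pi * |v - t| / 4)) ≤
          Real.exp (-(Real.pi * t / 4)) * Real.exp (-(Real.pi * t / 4)) := by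
        rw [← Real.exp_add, ← Real.exp_add]
        apply Real.exp_le_exp.mpr
        have h4 : 2 * t ≤ |t + v| + |v - t| := by
          have h5 := le_abs_self (t + v)
          have h6 := neg_le_abs (v - t)
          linarith
        have := Real.pi_pos
        nlinarith
      calc _ = (C1 * Y) ^ 2 * (Real.exp (-(Real.pi * |t + v| / 4)) *
            Real.exp (-(Real.pi * |v - t| / 4))) := by ring
        _ ≤ _ := mul_le_mul_of_nonneg_left h3 (by positivity)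
    refine hnum.trans ?_
    have hdd : Real.exp (-(Real.pi * t / 4)) * Real.exp (-(Real.pi * t / 4)) ≤
        (4 * (C2 * Y) * ‖Gammaℝ (1 / 2 + t * I)‖) * (4 * (C2 * Y) * ‖Gammaℝ (1 / 2 - t * I)‖) :=
      mul_le_mul hd1 hd2 hE0.le (by positivity)
    calc (C1 * Y) ^ 2 * (Real.exp (-(Real.pi * t / 4)) * Real.exp (-(Real.pi * t / 4))) ≤
          (C1 * Y) ^ 2 * ((4 * (C2 * Y) * ‖Gammaℝ (1 / 2 + t * I)‖) *
            (4 * (C2 * Y) * ‖Gammaℝ (1 / 2 - t * I)‖)) :=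
          mul_le_mul_of_nonneg_left hdd (by positivity)
      _ = _ := by ring
  unfold Qt
  rw [norm_mul]
  calc _ ≤ (4 * Y ^ 4) * (16 * (C1 ^ 2 * C2 ^ 2) * Y ^ 4) :=
        mul_le_mul hpoly hgam (norm_nonneg _) (by positivity)
    _ = _ := by ring

end Pool.Agent.H408R2.CM
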