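import Pool.Agent.H408R2.CM.Stubs

set_option autoImplicit false

/-! # QI: the Gamma factors are `(t/2π)^w` in the mean -/

open Complex MeasureTheory Filter Topology

namespace Pool.Agent.H408R2.CM

open Pool.Agent.H304R4.CM

noncomputable section

theorem QI_ew_cont : Continuous (fun v : ℝ => ew (3 / 5) v) := by
  unfold ew
  apply Continuous.div
  · fun_prop
  · fun_prop
  · intro v h
    have h1 := congrArg Complex.re h
    simp at h1

/-- the point on the line -/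
def QI_w (v : ℝ) : ℂ := ((3 / 5 : ℝ) : ℂ) + v * I

theorem QI_w_re (v : ℝ) : (QI_w v).re = 3 / 5 := by
  simp [QI_w]

theorem QI_w_cont : Continuous QI_w := by
  unfold QI_w
  fun_prop

/-- the difference -/
def QI_q (t v : ℝ) : ℝ := ‖Qt t (QI_w v) - ((t / (2 * Real.pi) : ℝ) : ℂ) ^ (QI_w v)‖

theorem QI_pow_cont {x : ℝ} (hx : 0 < x) : Continuous (fun v : ℝ => (x : ℂ) ^ (QI_w v)) := by
  apply Continuous.const_cpow QI_w_cont
  left
  exact_mod_cast hx.ne'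

theorem QI_pow_le {t : ℝ} (ht : 2 ≤ t) (v : ℝ) :
    ‖((t / (2 * Real.pi) : ℝ) : ℂ) ^ (QI_w v)‖ ≤ 1 + t := by
  have hpi := Real.pi_gt_three
  have hx : 0 < t / (2 * Real.pi) := by positivity
  rw [Complex.norm_cpow_eq_rpow_re_of_pos hx, QI_w_re]
  have h1 : t / (2 * Real.pi) ≤ 1 + t := by
    rw [div_le_iff₀ (by positivity)]
    nlinarith
  calc (t / (2 * Real.pi)) ^ (3 / 5 : ℝ) ≤ (1 + t) ^ (3 / 5 : ℝ) :=
        Real.rpow_le_rpow hx.le h1 (by norm_num)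
    _ ≤ (1 + t) ^ (1 : ℝ) := Real.rpow_le_rpow_of_exponent_le (by linarith) (by norm_num)
    _ = 1 + t := Real.rpow_one _

theorem QI_poly (A : ℕ) (v : ℝ) : (1 + |v|) ^ A ≤ Real.exp ((A : ℝ) ^ 2) * Real.exp (v ^ 2 / 4) := by
  have h1 : 1 + |v| ≤ Real.exp |v| := by
    have := Real.add_one_le_exp |v|
    linarith
  have h2 : (1 + |v|) ^ A ≤ Real.exp |v| ^ A := pow_le_pow_left₀ (by positivity) h1 A
  refine h2.trans ?_
  rw [← Real.exp_nat_mul, ← Real.exp_add]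
  apply Real.exp_le_exp.2
  have h3 : v ^ 2 = |v| ^ 2 := (sq_abs v).symm
  rw [h3]
  nlinarith [sq_nonneg ((A : ℝ) - |v| / 2)]

theorem QI_q_le {C : ℝ} {A : ℕ} (hC : 0 < C)
    (hQ : ∀ t v : ℝ, 2 ≤ t → ‖Qt t (((3 / 5 : ℝ) : ℂ) + v * I)‖ ≤ C * (1 + t + |v|) ^ A)
    {t : ℝ} (ht : 2 ≤ t) (v : ℝ) :
    ‖Qt t (QI_w v)‖ ≤ (C * Real.exp ((A : ℝ) ^ 2) + 1) * (1 + t) ^ (A + 1) * Real.exp (v ^ 2 / 4) ∧
    QI_q t v ≤ (C * Real.exp ((A : ℝ) ^ 2) + 1) * (1 + t) ^ (A + 1) * Real.exp (v ^ 2 / 4) := by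
  have hE : 1 ≤ Real.exp (v ^ 2 / 4) := Real.one_le_exp (by positivity)
  have h1 : (1 + t + |v|) ^ A ≤ (1 + t) ^ A * (1 + |v|) ^ A := by
    rw [← mul_pow]
    apply pow_le_pow_left₀ (by positivity)
    have : 0 ≤ t * |v| := by positivity
    nlinarith [abs_nonneg v]
  have h2 := QI_poly A v
  have h3 : ‖Qt t (QI_w v)‖ ≤ C * ((1 + t) ^ A * (Real.exp ((A : ℝ) ^ 2) *
      Real.exp (v ^ 2 / 4))) := by
    refine (hQ t v ht).trans (mul_le_mul_of_nonneg_left ?_ hC.le)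
    exact h1.trans (mul_le_mul_of_nonneg_left h2 (by positivity))
  have h4 : (1 + t) ^ A ≤ (1 + t) ^ (A + 1) :=
    pow_le_pow_right₀ (by linarith) (Nat.le_succ A)
  have h5 : 1 + t ≤ (1 + t) ^ (A + 1) := by
    have := pow_le_pow_right₀ (show (1 : ℝ) ≤ 1 + t by linarith) (show 1 ≤ A + 1 by omega)
    rwa [pow_one] at this
  have h6 : C * ((1 + t) ^ A * (Real.exp ((A : ℝ) ^ 2) * Real.exp (v ^ 2 / 4))) ≤
      C * Real.exp ((A : ℝ) ^ 2) * (1 + t) ^ (A + 1) * Real.exp (v ^ 2 / 4) := by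
    have : C * ((1 + t) ^ A * (Real.exp ((A : ℝ) ^ 2) * Real.exp (v ^ 2 / 4))) =
        C * Real.exp ((A : ℝ) ^ 2) * (1 + t) ^ A * Real.exp (v ^ 2 / 4) := by ring
    rw [this]
    apply mul_le_mul_of_nonneg_right _ (by positivity)
    exact mul_le_mul_of_nonneg_left h4 (by positivity)
  have h7 : 1 + t ≤ (1 + t) ^ (A + 1) * Real.exp (v ^ 2 / 4) := by
    have h8 : (1 + t) ^ (A + 1) * 1 ≤ (1 + t) ^ (A + 1) * Real.exp (v ^ 2 / 4) :=
      mul_le_mul_of_nonneg_left hE (by positivity)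
    linarith
  have h0 : 0 ≤ (1 + t) ^ (A + 1) * Real.exp (v ^ 2 / 4) := by positivity
  have h9 : (C * Real.exp ((A : ℝ) ^ 2) + 1) * (1 + t) ^ (A + 1) * Real.exp (v ^ 2 / 4) =
      C * Real.exp ((A : ℝ) ^ 2) * (1 + t) ^ (A + 1) * Real.exp (v ^ 2 / 4) +
        (1 + t) ^ (A + 1) * Real.exp (v ^ 2 / 4) := by ring
  rw [h9]
  constructor
  · linarith
  · have h10 : QI_q t v ≤ ‖Qt t (QI_w v)‖ + ‖((t / (2 * Real.pi) : ℝ) : ℂ) ^ (QI_w v)‖ :=
      norm_sub_le _ _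
    have h11 := QI_pow_le ht v
    linarith

theorem QI_gauss (b : ℝ) (hb : 0 < b) : Integrable (fun v : ℝ => Real.exp (-(b * v ^ 2))) := by
  have h := integrable_exp_neg_mul_sq hb
  refine h.congr (Filter.Eventually.of_forall fun v => ?_)
  simp only [neg_mul]

/-- the integrals of `F` with a Gaussian bound -/
theorem QI_int {F : ℝ → ℝ} (hF : Continuous F) (hF0 : ∀ v, 0 ≤ F v) {K : ℝ}
    (hew : ∀ v : ℝ, ‖ew (3 / 5) v‖ ≤ 5 * Real.exp (-(v ^ 2)))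
    (hK : ∀ v, F v ≤ K * Real.exp (v ^ 2 / 4)) :
    (∀ v, F v * ‖ew (3 / 5) v‖ ≤ 5 * K * Real.exp (-(3 / 4 * v ^ 2))) ∧
    Integrable (fun v : ℝ => F v * ‖ew (3 / 5) v‖) := by
  have hle : ∀ v, F v * ‖ew (3 / 5) v‖ ≤ 5 * K * Real.exp (-(3 / 4 * v ^ 2)) := by
    intro v
    have h1 : F v * ‖ew (3 / 5) v‖ ≤ (K * Real.exp (v ^ 2 / 4)) * (5 * Real.exp (-(v ^ 2))) :=
      mul_le_mul (hK v) (hew v) (norm_nonneg _) ((hF0 v).trans (hK v))
    refine h1.trans (le_of_eq ?_)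
    have h2 : Real.exp (-(3 / 4 * v ^ 2)) = Real.exp (v ^ 2 / 4) * Real.exp (-(v ^ 2)) := by
      rw [← Real.exp_add]
      congr 1
      ring
    rw [h2]
    ring
  refine ⟨hle, ?_⟩
  refine ((QI_gauss (3 / 4) (by norm_num)).const_mul (5 * K)).mono'
    (hF.mul QI_ew_cont.norm).aestronglyMeasurable (Filter.Eventually.of_forall fun v => ?_)
  rw [Real.norm_eq_abs, abs_of_nonneg (mul_nonneg (hF0 v) (norm_nonneg _))]
  exact hle v

theorem QI (h1 : S_Q1) (h2 : S_Q2) (hV : S_V) : S_QI := by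
  intro ε hε
  obtain ⟨hc, C, A, hC, hQ⟩ := h2
  obtain ⟨_, _, _, hint, _, hew0, _⟩ := hV
  obtain ⟨T1, hT1⟩ := h1 (ε / 2) (by linarith)
  have hI : Integrable (fun v : ℝ => ‖ew (3 / 5) v‖) := hint (3 / 5) (by norm_num)
  have hew : ∀ v : ℝ, ‖ew (3 / 5) v‖ ≤ 5 * Real.exp (-(v ^ 2)) := by
    intro v
    have h3 := hew0 (3 / 5) v (by norm_num) (by norm_num)
    have h4 : (3 : ℝ) / (3 / 5) = 5 := by norm_num
    rwa [h4] at h3
  set K : ℝ := C * Real.exp ((A : ℝ) ^ 2) + 1 with hK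
  have hK0 : 0 < K := by positivity
  set I0 : ℝ := ∫ v : ℝ, ‖ew (3 / 5) v‖ with hI0
  have hI00 : 0 ≤ I0 := integral_nonneg fun v => norm_nonneg _
  set G : ℝ := ∫ v : ℝ, Real.exp (-(1 / 2 * v ^ 2)) with hG
  have hG0 : 0 ≤ G := integral_nonneg fun v => (Real.exp_pos _).le
  -- the choice of `T0`
  have ev1 : ∀ᶠ T : ℝ in atTop, 2 * I0 ≤ T ^ (ε / 2) :=
    (tendsto_rpow_atTop (by linarith : 0 < ε / 2)).eventually_ge_atTop _
  have ev2 : ∀ᶠ T : ℝ in atTop, 4 * ((A : ℝ) + 3) ≤ Real.log T :=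
    Real.tendsto_log_atTop.eventually_ge_atTop _
  obtain ⟨T0, hT0⟩ := eventually_atTop.1 ((ev1.and ev2).and
    ((eventually_ge_atTop T1).and ((eventually_ge_atTop (4 : ℝ)).and
      (eventually_ge_atTop (2 * (5 * (K * 5 ^ (A + 1)) * G))))))
  refine ⟨T0, fun T hT t ht1 ht2 => ?_⟩
  obtain ⟨⟨b1, b2⟩, b3, b4, b5⟩ := hT0 T hT
  have ht : 2 ≤ t := by linarith
  have hTpos : 0 < T := by linarith
  have hq := QI_q_le hC hQ ht
  have hF1 : Continuous (fun v : ℝ => ‖Qt t (QI_w v)‖) := (hc t).norm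
  have hF2 : Continuous (fun v : ℝ => QI_q t v) := by
    unfold QI_q
    have h3 : 0 < t / (2 * Real.pi) := by
      have := Real.pi_pos
      positivity
    exact ((hc t).sub (QI_pow_cont h3)).norm
  have r1 := QI_int hF1 (fun v => norm_nonneg _) hew (fun v => (hq v).1)
  have r2 := QI_int hF2 (fun v => norm_nonneg _) hew (fun v => (hq v).2)
  refine ⟨r1.2, r2.2, ?_⟩
  -- the integral
  have hT1' : ∀ v : ℝ, |v| ≤ Real.log T → QI_q t v ≤ T ^ (-(2 / 5) + ε / 2) :=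
    fun v hv => hT1 T b3 t ht1 ht2 v hv
  set M : ℝ := 5 * (K * (1 + t) ^ (A + 1)) * Real.exp (-((Real.log T) ^ 2 / 4)) with hM
  have hM0 : 0 ≤ M := by positivity
  have hlog0 : 0 ≤ Real.log T := Real.log_nonneg (by linarith)
  have hpt : ∀ v : ℝ, QI_q t v * ‖ew (3 / 5) v‖ ≤
      T ^ (-(2 / 5) + ε / 2) * ‖ew (3 / 5) v‖ + M * Real.exp (-(1 / 2 * v ^ 2)) := by
    intro v
    rcases le_or_gt |v| (Real.log T) with h | h
    · have h3 := mul_le_mul_of_nonneg_right (hT1' v h) (norm_nonneg (ew (3 / 5) v))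
      have h4 : 0 ≤ M * Real.exp (-(1 / 2 * v ^ 2)) := by positivity
      linarith
    · have h3 : 0 ≤ T ^ (-(2 / 5) + ε / 2) * ‖ew (3 / 5) v‖ := by positivity
      have h4 : Real.exp (-(3 / 4 * v ^ 2)) ≤
          Real.exp (-((Real.log T) ^ 2 / 4)) * Real.exp (-(1 / 2 * v ^ 2)) := by
        rw [← Real.exp_add]
        apply Real.exp_le_exp.2
        have h5 : (Real.log T) ^ 2 ≤ v ^ 2 := by
          rw [← sq_abs v]
          exact pow_le_pow_left₀ hlog0 h.le 2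
        linarith
      have h5 := r2.1 v
      have h6 : 5 * (K * (1 + t) ^ (A + 1)) * Real.exp (-(3 / 4 * v ^ 2)) ≤
          M * Real.exp (-(1 / 2 * v ^ 2)) := by
        rw [hM, mul_assoc (5 * (K * (1 + t) ^ (A + 1)))]
        exact mul_le_mul_of_nonneg_left h4 (by positivity)
      linarith
  have hi1 : Integrable (fun v : ℝ => T ^ (-(2 / 5) + ε / 2) * ‖ew (3 / 5) v‖) :=
    hI.const_mul _
  have hi2 : Integrable (fun v : ℝ => M * Real.exp (-(1 / 2 * v ^ 2))) :=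
    (QI_gauss (1 / 2) (by norm_num)).const_mul _
  have hint2 : ∫ v : ℝ, QI_q t v * ‖ew (3 / 5) v‖ ≤ T ^ (-(2 / 5) + ε / 2) * I0 + M * G := by
    refine (integral_mono r2.2 (hi1.add hi2) hpt).trans (le_of_eq ?_)
    have h3 : ∫ v : ℝ, ((fun v : ℝ => T ^ (-(2 / 5) + ε / 2) * ‖ew (3 / 5) v‖) +
        (fun v : ℝ => M * Real.exp (-(1 / 2 * v ^ 2)))) v =
        ∫ v : ℝ, (T ^ (-(2 / 5) + ε / 2) * ‖ew (3 / 5) v‖ + M * Real.exp (-(1 / 2 * v ^ 2))) := rfl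
    rw [h3, integral_add hi1 hi2, integral_const_mul, integral_const_mul]
  refine hint2.trans ?_
  -- arithmetic
  have c1 : T ^ (-(2 / 5) + ε / 2) * I0 ≤ T ^ (-(2 / 5) + ε) / 2 := by
    have h3 : T ^ (-(2 / 5) + ε) = T ^ (-(2 / 5) + ε / 2) * T ^ (ε / 2) := by
      rw [← Real.rpow_add hTpos]
      congr 1
      ring
    rw [h3]
    have h4 : 0 ≤ T ^ (-(2 / 5) + ε / 2) := by positivity
    nlinarith
  have c2 : M ≤ 5 * (K * 5 ^ (A + 1)) * T ^ (-2 : ℝ) := by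
    have h3 : (1 + t) ^ (A + 1) ≤ 5 ^ (A + 1) * T ^ (A + 1) := by
      rw [← mul_pow]
      exact pow_le_pow_left₀ (by linarith) (by linarith) _
    have h4 : Real.exp (-((Real.log T) ^ 2 / 4)) ≤ T ^ (-((A : ℝ) + 3)) := by
      rw [Real.rpow_def_of_pos hTpos]
      apply Real.exp_le_exp.2
      nlinarith
    have h5 : T ^ (A + 1) * T ^ (-((A : ℝ) + 3)) = T ^ (-2 : ℝ) := by
      rw [← Real.rpow_natCast, ← Real.rpow_add hTpos]
      congr 1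
      push_cast
      ring
    calc M ≤ 5 * (K * (5 ^ (A + 1) * T ^ (A + 1))) * T ^ (-((A : ℝ) + 3)) := by
          rw [hM]
          apply mul_le_mul _ h4 (Real.exp_pos _).le (by positivity)
          apply mul_le_mul_of_nonneg_left _ (by norm_num)
          exact mul_le_mul_of_nonneg_left h3 hK0.le
      _ = 5 * (K * 5 ^ (A + 1)) * (T ^ (A + 1) * T ^ (-((A : ℝ) + 3))) := by ring
      _ = _ := by rw [h5]
  have c3 : M * G ≤ T ^ (-(2 / 5) + ε) / 2 := by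
    have h3 : M * G ≤ 5 * (K * 5 ^ (A + 1)) * T ^ (-2 : ℝ) * G :=
      mul_le_mul_of_nonneg_right c2 hG0
    have h4 : T ^ (-2 : ℝ) = T ^ (-1 : ℝ) * T ^ (-1 : ℝ) := by
      rw [← Real.rpow_add hTpos]
      congr 1
      norm_num
    have h5 : T ^ (-1 : ℝ) ≤ T ^ (-(2 / 5) + ε) :=
      Real.rpow_le_rpow_of_exponent_le (by linarith) (by linarith)
    have h6 : 5 * (K * 5 ^ (A + 1)) * G * T ^ (-1 : ℝ) ≤ 1 / 2 := by
      rw [Real.rpow_neg_one, mul_inv_le_iff₀ hTpos]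
      linarith
    have h7 : 0 ≤ T ^ (-1 : ℝ) := by positivity
    calc M * G ≤ 5 * (K * 5 ^ (A + 1)) * T ^ (-2 : ℝ) * G := h3
      _ = (5 * (K * 5 ^ (A + 1)) * G * T ^ (-1 : ℝ)) * T ^ (-1 : ℝ) := by rw [h4]; ring
      _ ≤ (1 / 2) * T ^ (-1 : ℝ) := mul_le_mul_of_nonneg_right h6 h7
      _ ≤ T ^ (-(2 / 5) + ε) / 2 := by linarith
  linarith

end

end Pool.Agent.H408R2.CM
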