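import Pool.Agent.H408R2.CM.Stubs

set_option autoImplicit false

/-! # RS: the residue is negligible -/

open Complex MeasureTheory Filter Topology

namespace Pool.Agent.H408R2.CM

open Pool.Agent.H304R4.CM

noncomputable section

theorem RS_norm_Gamma_le (z : ℂ) (hz : 0 < z.re) : ‖Complex.Gamma z‖ ≤ Real.Gamma z.re := by
  rw [Complex.Gamma_eq_integral hz, Real.Gamma_eq_integral hz]
  unfold Complex.GammaIntegral
  refine (norm_integral_le_integral_norm _).trans (le_of_eq ?_)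
  apply setIntegral_congr_fun measurableSet_Ioi
  intro x hx
  have hx0 : (0:ℝ) < x := hx
  simp only [norm_mul]
  rw [Complex.norm_cpow_eq_rpow_re_of_pos hx0]
  have h1 : ‖((Real.exp (-x) : ℝ) : ℂ)‖ = Real.exp (-x) := by
    rw [Complex.norm_real, Real.norm_eq_abs, abs_of_pos (Real.exp_pos _)]
  rw [h1]
  simp

theorem RS_norm_cG (k : ℕ) (δ : ℝ) (hδ : 0 < δ) (w : ℂ) (h0 : 0 ≤ w.re) :
    ‖cG k δ w‖ ≤ δ ^ (k + 1) * 2 ^ k / (k.factorial : ℝ) * Real.exp (Real.pi / 2 * w.im) := by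
  unfold cG
  rw [norm_mul, norm_mul, Complex.norm_real, Complex.norm_exp]
  have hk : (0:ℝ) < k.factorial := by exact_mod_cast Nat.factorial_pos k
  have h1 : (1:ℝ) ≤ √(2 * Real.pi) := by
    rw [Real.one_le_sqrt]; nlinarith [Real.pi_gt_three]
  have e1 : ‖δ ^ (k + 1) * 2 ^ k / ((k.factorial : ℝ) * √(2 * Real.pi))‖ ≤
      δ ^ (k + 1) * 2 ^ k / (k.factorial : ℝ) := by
    rw [Real.norm_eq_abs, abs_of_nonneg (by positivity)]
    apply div_le_div_of_nonneg_left (by positivity) hk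
    nlinarith
  have e2 : ‖(Real.pi : ℂ) ^ (-w)‖ ≤ 1 := by
    rw [Complex.norm_cpow_eq_rpow_re_of_pos Real.pi_pos]
    apply Real.rpow_le_one_of_one_le_of_nonpos
    · linarith [Real.pi_gt_three]
    · simpa using h0
  have e3 : (-((k : ℂ) + 1 / 4 + w) * (Real.pi / 2) * I).re = Real.pi / 2 * w.im := by
    simp [Complex.mul_re, Complex.div_re, Complex.div_im, Complex.normSq]
    ring
  rw [e3]
  have h2 : 0 ≤ δ ^ (k + 1) * 2 ^ k / (k.factorial : ℝ) := by positivity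
  calc ‖δ ^ (k + 1) * 2 ^ k / ((k.factorial : ℝ) * √(2 * Real.pi))‖ * ‖(Real.pi : ℂ) ^ (-w)‖ *
        Real.exp (Real.pi / 2 * w.im)
      ≤ δ ^ (k + 1) * 2 ^ k / (k.factorial : ℝ) * 1 * Real.exp (Real.pi / 2 * w.im) := by
        gcongr
    _ = _ := by rw [mul_one]

theorem RS_norm_bas (η : ℝ) : ‖bas η ^ (-(1 / 4) : ℂ)‖ ≤ 1 := by
  have h1 : 1 ≤ ‖bas η‖ := by
    unfold bas
    rw [norm_mul, Complex.norm_real, Real.norm_eq_abs, abs_of_pos Real.pi_pos]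
    have h2 : 1 ≤ ‖(η : ℂ) + I‖ := by
      have := Complex.abs_im_le_norm ((η : ℂ) + I)
      simpa using this
    nlinarith [Real.pi_gt_three]
  have hne : bas η ≠ 0 := by
    intro h; rw [h, norm_zero] at h1; linarith
  rw [Complex.norm_cpow_of_ne_zero hne]
  have e1 : (-(1 / 4) : ℂ).im = 0 := by simp
  have e2 : (-(1 / 4) : ℂ).re = -(1 / 4) := by simp
  rw [e1, e2, mul_zero, Real.exp_zero, div_one]
  exact Real.rpow_le_one_of_one_le_of_nonpos h1 (by norm_num)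

theorem RS : S_RS := by
  have ev1 : ∀ᶠ T : ℝ in atTop, (20:ℝ) ≤ T ^ (1 / 1000000 : ℝ) :=
    (tendsto_rpow_atTop (by norm_num : (0:ℝ) < 1 / 1000000)).eventually_ge_atTop 20
  have ev2 : ∀ᶠ T : ℝ in atTop, (4:ℝ) ≤ T ^ (1 / 100 : ℝ) :=
    (tendsto_rpow_atTop (by norm_num : (0:ℝ) < 1 / 100)).eventually_ge_atTop 4
  obtain ⟨T0, hT0⟩ := eventually_atTop.1 (ev1.and (ev2.and (eventually_ge_atTop (1:ℝ))))
  refine ⟨T0, ?_⟩
  intro T hT k hk1 hk2 t0 ht1 ht2 w hw0 hw1 hwi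
  obtain ⟨h20, h4, hT1⟩ := hT0 T hT
  have hTpos : 0 < T := by linarith
  have hk20 : (20:ℝ) ≤ k := h20.trans hk1
  have hk20' : 20 ≤ k := by exact_mod_cast hk20
  have ht0 : 0 < t0 := by linarith
  have hkpos : (0:ℝ) < k := by linarith
  set δ : ℝ := k / t0 with hδ
  have hδ0 : 0 < δ := by positivity
  -- the bound for the Gamma function
  have hre : ((k : ℂ) + 3 / 4 + w).re = k + 3 / 4 + w.re := by simp
  have hG : ‖Complex.Gamma ((k : ℂ) + 3 / 4 + w)‖ ≤ ((k + 1).factorial : ℝ) := by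
    refine (RS_norm_Gamma_le _ (by rw [hre]; linarith)).trans ?_
    rw [hre, ← Real.Gamma_nat_eq_factorial]
    apply Real.Gamma_strictMonoOn_Ici.monotoneOn
    · show (2:ℝ) ≤ _; linarith
    · show (2:ℝ) ≤ _; push_cast; linarith
    · push_cast; linarith
  have hc := RS_norm_cG k δ hδ0 w hw0
  have hb := RS_norm_bas (Real.tan (2 * δ))
  have hexp : Real.exp (Real.pi / 2 * w.im) ≤ T ^ (2:ℝ) := by
    rw [Real.rpow_def_of_pos hTpos]
    apply Real.exp_le_exp.mpr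
    have h1 : w.im ≤ Real.log T := (le_abs_self _).trans hwi
    have h2 : 0 ≤ Real.log T := Real.log_nonneg hT1
    have h3 : Real.pi / 2 ≤ 2 := by linarith [Real.pi_le_four]
    calc Real.pi / 2 * w.im ≤ Real.pi / 2 * Real.log T := by
          apply mul_le_mul_of_nonneg_left h1 (by positivity)
      _ ≤ 2 * Real.log T := mul_le_mul_of_nonneg_right h3 h2
      _ = Real.log T * 2 := mul_comm _ _
  -- δ ≤ T^(-99/100)
  have hδ1 : δ ≤ T ^ (-(99 / 100) : ℝ) := by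
    rw [hδ, div_le_iff₀ ht0]
    calc (k:ℝ) ≤ T ^ (1 / 100 : ℝ) := hk2
      _ = T ^ (-(99 / 100) : ℝ) * T := by
          rw [← Real.rpow_add_one hTpos.ne']; norm_num
      _ ≤ T ^ (-(99 / 100) : ℝ) * t0 := by
          apply mul_le_mul_of_nonneg_left ht1 (by positivity)
  have hδ2 : 2 * δ ≤ T ^ (-(98 / 100) : ℝ) := by
    have e : T ^ (-(98 / 100) : ℝ) = T ^ (1 / 100 : ℝ) * T ^ (-(99 / 100) : ℝ) := by
      rw [← Real.rpow_add hTpos]; norm_num
    rw [e]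
    have : 0 < T ^ (-(99 / 100) : ℝ) := by positivity
    nlinarith
  have hk1' : (k:ℝ) + 1 ≤ T ^ (2 / 100 : ℝ) := by
    have e : T ^ (2 / 100 : ℝ) = T ^ (1 / 100 : ℝ) * T ^ (1 / 100 : ℝ) := by
      rw [← Real.rpow_add hTpos]; norm_num
    rw [e]; nlinarith
  have hpow : (2 * δ) ^ k ≤ T ^ (-(98 / 5) : ℝ) := by
    have h1 : 2 * δ ≤ 1 := by
      refine hδ2.trans ?_
      exact Real.rpow_le_one_of_one_le_of_nonpos hT1 (by norm_num)
    calc (2 * δ) ^ k ≤ (2 * δ) ^ 20 := pow_le_pow_of_le_one (by positivity) h1 hk20'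
      _ ≤ (T ^ (-(98 / 100) : ℝ)) ^ 20 := pow_le_pow_left₀ (by positivity) hδ2 20
      _ = T ^ (-(98 / 5) : ℝ) := by
          rw [← Real.rpow_natCast, ← Real.rpow_mul hTpos.le]; norm_num
  have hfac : ((k + 1).factorial : ℝ) = (k + 1) * (k.factorial : ℝ) := by
    rw [Nat.factorial_succ]; push_cast; ring
  have hkf : (0:ℝ) < k.factorial := by exact_mod_cast Nat.factorial_pos k
  rw [norm_mul, norm_mul]
  calc ‖cG k δ w‖ * ‖Complex.Gamma ((k : ℂ) + 3 / 4 + w)‖ *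
      ‖bas (Real.tan (2 * δ)) ^ (-(1 / 4) : ℂ)‖
      ≤ (δ ^ (k + 1) * 2 ^ k / (k.factorial : ℝ) * Real.exp (Real.pi / 2 * w.im)) *
          ((k + 1).factorial : ℝ) * 1 := by gcongr
    _ ≤ (δ ^ (k + 1) * 2 ^ k / (k.factorial : ℝ) * T ^ (2:ℝ)) *
          ((k + 1).factorial : ℝ) * 1 := by gcongr
    _ = ((k:ℝ) + 1) * δ * (2 * δ) ^ k * T ^ (2:ℝ) := by
        rw [hfac, mul_pow]
        field_simp
        try ring
    _ ≤ T ^ (2 / 100 : ℝ) * T ^ (-(99 / 100) : ℝ) * T ^ (-(98 / 5) : ℝ) * T ^ (2:ℝ) := by gcongr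
    _ = T ^ (2 / 100 + -(99 / 100) + -(98 / 5) + 2 : ℝ) := by
        rw [Real.rpow_add hTpos, Real.rpow_add hTpos, Real.rpow_add hTpos]
    _ ≤ T ^ (-10 : ℝ) := Real.rpow_le_rpow_of_exponent_le hT1 (by norm_num)

end

end Pool.Agent.H408R2.CM
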