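import Pool.Agent.H408R2.CM.Stubs

set_option autoImplicit false

/-! # TL: truncation of the double series -/

open Complex MeasureTheory Filter Topology

namespace Pool.Agent.H408R2.CM

open Pool.Agent.H304R4.CM

noncomputable section

/-- the terms of the double series -/
def TL_F (t : ℝ) (p : ℕ × ℕ) : ℂ :=
  ((((((p.1 : ℝ) + 1) * ((p.2 : ℝ) + 1)) ^ (-(1 / 2) : ℝ) : ℝ) : ℂ) *
    osc (((p.1 : ℝ) + 1) / ((p.2 : ℝ) + 1)) t *
    VV 1 (2 * Real.pi * (((p.1 : ℝ) + 1) * ((p.2 : ℝ) + 1)) / t))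

theorem TL_osc (x t : ℝ) : ‖osc x t‖ = 1 := by
  unfold osc
  exact Complex.norm_exp_ofReal_mul_I _

theorem TL_shift {M : Type*} [AddCommMonoid M] (f : ℕ → M) (N : ℕ) :
    ∑ c ∈ Finset.Icc 1 N, f c = ∑ a ∈ Finset.range N, f (a + 1) := by
  induction N with
  | zero => simp
  | succ n ih => rw [Finset.sum_Icc_succ_top (by omega), ih, Finset.sum_range_succ]

theorem TL_D2 (T t : ℝ) : D2 T t =
    ∑ p ∈ Finset.range ⌊T ^ 2⌋₊ ×ˢ Finset.range ⌊T ^ 2⌋₊, TL_F t p := by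
  unfold D2
  rw [TL_shift, Finset.sum_product]
  refine Finset.sum_congr rfl fun a _ => ?_
  rw [TL_shift]
  refine Finset.sum_congr rfl fun b _ => ?_
  unfold TL_F
  push_cast
  rfl

theorem TL_sq : Summable fun m : ℕ => ((((m : ℝ) + 1) ^ 2)⁻¹) := by
  have h1 : Summable fun n : ℕ => (((n : ℝ)) ^ 2)⁻¹ := Real.summable_nat_pow_inv.2 (by norm_num)
  have h2 := (summable_nat_add_iff 1).2 h1
  refine h2.congr fun m => ?_
  push_cast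
  rfl

/-- bound of the terms -/
theorem TL_bound (C : ℝ) (hC : 0 < C) (hV : ∀ x : ℝ, 0 < x → ‖VV 1 x‖ ≤ C * x ^ (-4 : ℝ)) (t : ℝ)
    (ht : 0 < t) (p : ℕ × ℕ) : ‖TL_F t p‖ ≤ C * t ^ 4 *
      (((((p.1 : ℝ) + 1) * ((p.2 : ℝ) + 1)) ^ (-(5 / 2) : ℝ)) *
        ((((p.1 : ℝ) + 1) ^ 2)⁻¹ * (((p.2 : ℝ) + 1) ^ 2)⁻¹)) := by
  set P : ℝ := ((p.1 : ℝ) + 1) * ((p.2 : ℝ) + 1) with hP
  have hP0 : 0 < P := by positivity
  have hx : 0 < 2 * Real.pi * P / t := by positivity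
  unfold TL_F
  rw [norm_mul, norm_mul, TL_osc, mul_one, Complex.norm_real,
    Real.norm_of_nonneg (by positivity), ← hP]
  have h1 := hV _ hx
  have h2 : (2 * Real.pi * P / t) ^ (-4 : ℝ) ≤ t ^ 4 * P ^ (-4 : ℝ) := by
    have e1 : 2 * Real.pi * P / t = (2 * Real.pi) * (P * t⁻¹) := by
      field_simp
    rw [e1, Real.mul_rpow (by positivity) (by positivity), Real.mul_rpow hP0.le (by positivity)]
    have e2 : (t⁻¹) ^ (-4 : ℝ) = t ^ 4 := by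
      rw [Real.inv_rpow ht.le, ← Real.rpow_neg ht.le, neg_neg]
      exact_mod_cast Real.rpow_natCast t 4
    have e3 : (2 * Real.pi) ^ (-4 : ℝ) ≤ 1 := by
      apply Real.rpow_le_one_of_one_le_of_nonpos
      · have := Real.pi_gt_three
        linarith
      · norm_num
    rw [e2]
    have : 0 ≤ P ^ (-4 : ℝ) * t ^ 4 := by positivity
    nlinarith
  have h3 : P ^ (-(1 / 2) : ℝ) * P ^ (-4 : ℝ) = P ^ (-(5 / 2) : ℝ) *
      ((((p.1 : ℝ) + 1) ^ 2)⁻¹ * (((p.2 : ℝ) + 1) ^ 2)⁻¹) := by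
    have e1 : (((p.1 : ℝ) + 1) ^ 2)⁻¹ * (((p.2 : ℝ) + 1) ^ 2)⁻¹ = P ^ (-2 : ℝ) := by
      rw [← mul_inv, ← mul_pow, ← hP, Real.rpow_neg hP0.le]
      congr 1
      exact_mod_cast (Real.rpow_natCast P 2).symm
    rw [e1, ← Real.rpow_add hP0, ← Real.rpow_add hP0]
    norm_num
  calc P ^ (-(1 / 2) : ℝ) * ‖VV 1 (2 * Real.pi * P / t)‖ ≤
      P ^ (-(1 / 2) : ℝ) * (C * (t ^ 4 * P ^ (-4 : ℝ))) := by
        gcongr
        exact h1.trans (by gcongr)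
    _ = C * t ^ 4 * (P ^ (-(1 / 2) : ℝ) * P ^ (-4 : ℝ)) := by ring
    _ = _ := by rw [h3]

theorem TL (hV : S_V) : S_TL := by
  obtain ⟨v1, -, v3, -⟩ := hV
  obtain ⟨C, hC, hVC⟩ := v3 4 (by norm_num)
  set B : ℝ := ∑' m : ℕ, ((((m : ℝ) + 1) ^ 2)⁻¹) with hB
  have hg : HasSum (fun p : ℕ × ℕ => (((p.1 : ℝ) + 1) ^ 2)⁻¹ * (((p.2 : ℝ) + 1) ^ 2)⁻¹)
      (B * B) := by
    have h1 := TL_sq.hasSum
    have h2 : Summable (fun p : ℕ × ℕ => (((p.1 : ℝ) + 1) ^ 2)⁻¹ * (((p.2 : ℝ) + 1) ^ 2)⁻¹) :=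
      TL_sq.mul_of_nonneg TL_sq (fun m => by positivity) (fun m => by positivity)
    exact h1.mul h1 h2
  have hB0 : 0 ≤ B := tsum_nonneg fun m => by positivity
  refine ⟨256 * C * (B * B) + 1, by positivity, ?_⟩
  intro T t hT ht1 ht2
  have hT0 : 0 < T := by linarith
  have ht : 0 < t := by linarith
  have hTT : TT t = ∑' p, TL_F t p := by
    unfold TT TL_F
    refine tsum_congr fun p => ?_
    rw [v1 (3 / 5) _ (by norm_num) (by positivity)]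
  have hb := TL_bound C hC hVC t ht
  have hsum : Summable (TL_F t) := by
    refine Summable.of_norm_bounded (g := fun p : ℕ × ℕ => C * t ^ 4 *
      ((((p.1 : ℝ) + 1) ^ 2)⁻¹ * (((p.2 : ℝ) + 1) ^ 2)⁻¹)) (hg.summable.mul_left _) fun p => ?_
    refine (hb p).trans ?_
    have e1 : (((p.1 : ℝ) + 1) * ((p.2 : ℝ) + 1)) ^ (-(5 / 2) : ℝ) ≤ 1 := by
      apply Real.rpow_le_one_of_one_le_of_nonpos
      · have h1 : (0 : ℝ) ≤ p.1 := Nat.cast_nonneg _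
        have h2 : (0 : ℝ) ≤ p.2 := Nat.cast_nonneg _
        nlinarith [mul_nonneg h1 h2]
      · norm_num
    have e2 : 0 ≤ (((p.1 : ℝ) + 1) ^ 2)⁻¹ * (((p.2 : ℝ) + 1) ^ 2)⁻¹ := by positivity
    have e3 : (((p.1 : ℝ) + 1) * ((p.2 : ℝ) + 1)) ^ (-(5 / 2) : ℝ) *
        ((((p.1 : ℝ) + 1) ^ 2)⁻¹ * (((p.2 : ℝ) + 1) ^ 2)⁻¹) ≤
        (((p.1 : ℝ) + 1) ^ 2)⁻¹ * (((p.2 : ℝ) + 1) ^ 2)⁻¹ := mul_le_of_le_one_left e2 e1
    gcongr
  set R := Finset.range ⌊T ^ 2⌋₊ ×ˢ Finset.range ⌊T ^ 2⌋₊ with hR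
  have h1 : HasSum (fun p => if p ∈ R then TL_F t p else 0) (D2 T t) := by
    rw [TL_D2, ← hR]
    have h2 : HasSum (fun p => if p ∈ R then TL_F t p else 0)
        (∑ p ∈ R, (if p ∈ R then TL_F t p else 0)) :=
      hasSum_sum_of_ne_finset_zero (fun p hp => if_neg hp)
    have h3 : ∑ p ∈ R, (if p ∈ R then TL_F t p else 0) = ∑ p ∈ R, TL_F t p :=
      Finset.sum_congr rfl fun p hp => if_pos hp
    rw [h3] at h2
    exact h2
  have h2 : HasSum (fun p => TL_F t p - if p ∈ R then TL_F t p else 0) (TT t - D2 T t) := by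
    rw [hTT]
    exact hsum.hasSum.sub h1
  have h3 := hg.mul_left (256 * C * T ^ (-1 : ℝ))
  have h4 : ‖TT t - D2 T t‖ ≤ 256 * C * T ^ (-1 : ℝ) * (B * B) := by
    refine HasSum.norm_le_of_bounded h2 h3 fun p => ?_
    by_cases hp : p ∈ R
    · rw [if_pos hp, sub_self, norm_zero]
      positivity
    · rw [if_neg hp, sub_zero]
      refine (hb p).trans ?_
      have e1 : T ^ 2 ≤ ((p.1 : ℝ) + 1) * ((p.2 : ℝ) + 1) := by
        have e2 : (T ^ 2 : ℝ) < (⌊T ^ 2⌋₊ : ℝ) + 1 := Nat.lt_floor_add_one _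
        have h1 : (0 : ℝ) ≤ p.1 := Nat.cast_nonneg _
        have h2 : (0 : ℝ) ≤ p.2 := Nat.cast_nonneg _
        rw [hR, Finset.mem_product, Finset.mem_range, Finset.mem_range, not_and_or, not_lt,
          not_lt] at hp
        rcases hp with hp | hp
        · have : ((⌊T ^ 2⌋₊ : ℕ) : ℝ) ≤ p.1 := by exact_mod_cast hp
          nlinarith [mul_nonneg h1 h2]
        · have : ((⌊T ^ 2⌋₊ : ℕ) : ℝ) ≤ p.2 := by exact_mod_cast hp
          nlinarith [mul_nonneg h1 h2]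
      have e2 : (((p.1 : ℝ) + 1) * ((p.2 : ℝ) + 1)) ^ (-(5 / 2) : ℝ) ≤ T ^ (-5 : ℝ) := by
        calc (((p.1 : ℝ) + 1) * ((p.2 : ℝ) + 1)) ^ (-(5 / 2) : ℝ) ≤ (T ^ 2) ^ (-(5 / 2) : ℝ) :=
              Real.rpow_le_rpow_of_nonpos (by positivity) e1 (by norm_num)
          _ = T ^ (-5 : ℝ) := by
              rw [← Real.rpow_natCast T 2, ← Real.rpow_mul hT0.le]
              norm_num
      have e3 : t ^ 4 ≤ 256 * T ^ 4 := by
        calc t ^ 4 ≤ (4 * T) ^ 4 := by gcongr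
          _ = 256 * T ^ 4 := by ring
      have e4 : T ^ 4 * T ^ (-5 : ℝ) = T ^ (-1 : ℝ) := by
        rw [← Real.rpow_natCast T 4, ← Real.rpow_add hT0]
        norm_num
      have e5 : 0 ≤ (((p.1 : ℝ) + 1) ^ 2)⁻¹ * (((p.2 : ℝ) + 1) ^ 2)⁻¹ := by positivity
      calc C * t ^ 4 * (((((p.1 : ℝ) + 1) * ((p.2 : ℝ) + 1)) ^ (-(5 / 2) : ℝ)) *
          ((((p.1 : ℝ) + 1) ^ 2)⁻¹ * (((p.2 : ℝ) + 1) ^ 2)⁻¹)) ≤
          C * (256 * T ^ 4) * (T ^ (-5 : ℝ) *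
          ((((p.1 : ℝ) + 1) ^ 2)⁻¹ * (((p.2 : ℝ) + 1) ^ 2)⁻¹)) := by gcongr
        _ = 256 * C * (T ^ 4 * T ^ (-5 : ℝ)) *
          ((((p.1 : ℝ) + 1) ^ 2)⁻¹ * (((p.2 : ℝ) + 1) ^ 2)⁻¹) := by ring
        _ = _ := by rw [e4]
  refine h4.trans ?_
  have h5 : 0 ≤ T ^ (-1 : ℝ) := by positivity
  nlinarith

end

end Pool.Agent.H408R2.CM
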