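import Pool.Agent.H408R2.CM.Stubs
import Pool.Agent.H402R2.T4bA
import Pool.Agent.H306R2.ZetaGrowth
import Pool.Agent.H448R2.GC.S0

set_option autoImplicit false

/-! TW: the exact transform of `ζ(1/2+it)` against the kernel (helper267) -/

open Complex MeasureTheory Filter Topology

namespace Pool.Agent.H408R2.CM

open Pool.Agent.H304R4.CM

noncomputable section

/-- the kernel as an analytic function of `s` -/
def TW_g (k : ℕ) (δ : ℝ) (w : ℂ) (y : ℝ) (s : ℂ) : ℂ :=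
  Complex.exp (-((s - 1 / 2) * (Real.log y : ℂ))) *
    (cG k δ w * Complex.Gamma ((k : ℂ) + 1 / 2 + w + (s - 1 / 2) / 2) *
      bas (Real.tan (2 * δ)) ^ (-((s - 1 / 2) / 2)))

lemma TW_tan {δ : ℝ} (h0 : 0 < δ) (h1 : δ < 1 / 2) : 0 < Real.tan (2 * δ) :=
  Real.tan_pos_of_pos_of_lt_pi_div_two (by linarith) (by linarith [Real.pi_gt_three])

lemma TW_bas_re (η : ℝ) : (bas η).re = Real.pi * η := by
  unfold bas; simp

lemma TW_bas_im (η : ℝ) : (bas η).im = Real.pi := by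
  unfold bas; simp

lemma TW_bas_ne (η : ℝ) : bas η ≠ 0 := by
  intro h
  have := congrArg Complex.im h
  rw [TW_bas_im] at this
  simp [Real.pi_ne_zero] at this

lemma TW_bas_norm (η : ℝ) : 1 ≤ ‖bas η‖ := by
  have h := Complex.abs_im_le_norm (bas η)
  rw [TW_bas_im, abs_of_pos Real.pi_pos] at h
  linarith [Real.pi_gt_three]

lemma TW_bas_arg {η : ℝ} (h : 0 < η) : |arg (bas η)| < Real.pi / 2 :=
  Complex.abs_arg_lt_pi_div_two_iff.2 (Or.inl (by rw [TW_bas_re]; exact mul_pos Real.pi_pos h))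

lemma TW_g_bound (k : ℕ) (δ : ℝ) (w : ℂ) (y : ℝ) (h0 : 0 < δ) (h1 : δ < 1 / 2)
    (hw : 0 ≤ w.re) : ∃ B ε : ℝ, 0 ≤ B ∧ 0 < ε ∧ ∀ s : ℂ, 1 / 2 ≤ s.re → s.re ≤ 2 →
      ‖TW_g k δ w y s‖ ≤ B * Real.exp (-(ε * |s.im|)) := by
  have hpi := Real.pi_gt_three
  obtain ⟨β, hβ⟩ : ∃ β, β = bas (Real.tan (2 * δ)) := ⟨_, rfl⟩
  have hβne : β ≠ 0 := hβ ▸ TW_bas_ne _
  have hβ1 : 1 ≤ ‖β‖ := hβ ▸ TW_bas_norm _
  have hβa : |arg β| < Real.pi / 2 := hβ ▸ TW_bas_arg (TW_tan h0 h1)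
  obtain ⟨φ, hφ⟩ : ∃ φ, φ = |arg β| := ⟨_, rfl⟩
  have hφ0 : 0 ≤ φ := hφ ▸ abs_nonneg _
  rw [← hφ] at hβa
  obtain ⟨θ, hθ⟩ : ∃ θ, θ = (φ + Real.pi / 2) / 2 := ⟨_, rfl⟩
  have hθ0 : 0 ≤ θ := by rw [hθ]; positivity
  have hθ1 : θ < Real.pi / 2 := by rw [hθ]; linarith
  have hcos : 0 < Real.cos θ := Real.cos_pos_of_mem_Ioo ⟨by linarith, hθ1⟩
  have hcos1 : Real.cos θ ≤ 1 := Real.cos_le_one θ
  obtain ⟨a, ha⟩ : ∃ a : ℝ, a = k + 1 / 2 + w.re := ⟨_, rfl⟩
  have hk : (0:ℝ) ≤ k := Nat.cast_nonneg k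
  have ha0 : 1 / 2 ≤ a := by rw [ha]; linarith
  obtain ⟨G, hG⟩ : ∃ G : ℝ, ∀ x ∈ Set.Icc a (a + 3 / 4), |Real.Gamma x| ≤ G := by
    have hc : ContinuousOn (fun x : ℝ => Real.Gamma x) (Set.Icc a (a + 3 / 4)) := by
      intro x hx
      have hx0 : 0 < x := by linarith [hx.1]
      have : ContinuousAt Real.Gamma x := by
        apply (Real.differentiableAt_Gamma _).continuousAt
        intro m hm
        have : (0:ℝ) ≤ m := Nat.cast_nonneg m
        linarith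
      exact this.continuousWithinAt
    obtain ⟨C, hC⟩ := isCompact_Icc.exists_bound_of_continuousOn hc
    exact ⟨C, fun x hx => by simpa using hC x hx⟩
  have hG0 : 0 ≤ G := (abs_nonneg _).trans (hG a ⟨le_rfl, by linarith⟩)
  refine ⟨Real.exp (3 / 2 * |Real.log y|) * (‖cG k δ w‖ * (Real.exp (θ * |w.im|) * G /
    Real.cos θ ^ (a + 3 / 4))), (θ - φ) / 2, by positivity, by rw [hθ]; linarith, ?_⟩
  intro s hs1 hs2
  obtain ⟨σ, hσ⟩ : ∃ σ : ℝ, σ = a + (s.re - 1 / 2) / 2 := ⟨_, rfl⟩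
  obtain ⟨v, hv⟩ : ∃ v : ℝ, v = w.im + s.im / 2 := ⟨_, rfl⟩
  have hσ1 : a ≤ σ := by rw [hσ]; linarith
  have hσ2 : σ ≤ a + 3 / 4 := by rw [hσ]; linarith
  have hσ0 : 0 < σ := by linarith
  have hGam := Pool.Agent.Helper242.KK.norm_Gamma_le_of_angle (σ := σ) (v := v) (θ := θ) hσ0 hθ0 hθ1
  have e0 : ((σ : ℂ) + v * I) = (k : ℂ) + 1 / 2 + w + (s - 1 / 2) / 2 := by
    apply Complex.ext
    · rw [hσ, ha]
      simp
    · rw [hv]
      simp
  rw [e0] at hGam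
  unfold TW_g
  rw [← hβ, norm_mul, norm_mul, norm_mul]
  -- factor 1
  have f1 : ‖Complex.exp (-((s - 1 / 2) * (Real.log y : ℂ)))‖ ≤ Real.exp (3 / 2 * |Real.log y|) := by
    rw [Complex.norm_exp]
    apply Real.exp_le_exp.2
    have e : (-((s - 1 / 2) * (Real.log y : ℂ))).re = -((s.re - 1 / 2) * Real.log y) := by
      rw [Complex.neg_re, Complex.re_mul_ofReal]
      simp
    rw [e]
    calc -((s.re - 1 / 2) * Real.log y) ≤ |(s.re - 1 / 2) * Real.log y| := neg_le_abs _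
      _ = |s.re - 1 / 2| * |Real.log y| := abs_mul _ _
      _ ≤ 3 / 2 * |Real.log y| := by
          apply mul_le_mul_of_nonneg_right _ (abs_nonneg _)
          rw [abs_of_nonneg (by linarith)]
          linarith
  -- factor 2
  have f2 : ‖Complex.Gamma ((k : ℂ) + 1 / 2 + w + (s - 1 / 2) / 2)‖ ≤
      (Real.exp (θ * |w.im|) * G / Real.cos θ ^ (a + 3 / 4)) * Real.exp (-(θ * |s.im| / 2)) := by
    refine hGam.trans ?_
    have g1 : Real.exp (-θ * |v|) ≤ Real.exp (θ * |w.im|) * Real.exp (-(θ * |s.im| / 2)) := by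
      rw [← Real.exp_add]
      apply Real.exp_le_exp.2
      have : |s.im / 2| ≤ |v| + |w.im| := by
        have h := abs_sub v w.im
        rw [hv] at h ⊢
        rw [add_sub_cancel_left] at h
        exact h
      rw [abs_div, abs_two] at this
      nlinarith
    have g2 : Real.Gamma σ ≤ G := (le_abs_self _).trans (hG σ ⟨hσ1, hσ2⟩)
    have g3 : Real.cos θ ^ (a + 3 / 4) ≤ Real.cos θ ^ σ :=
      Real.rpow_le_rpow_of_exponent_ge hcos hcos1 hσ2
    have g4 : 0 ≤ Real.Gamma σ := (Real.Gamma_pos_of_pos hσ0).le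
    calc Real.exp (-θ * |v|) * Real.Gamma σ / Real.cos θ ^ σ ≤
        (Real.exp (θ * |w.im|) * Real.exp (-(θ * |s.im| / 2))) * G / Real.cos θ ^ (a + 3 / 4) := by
          gcongr
      _ = _ := by ring
  -- factor 3
  have f3 : ‖β ^ (-((s - 1 / 2) / 2))‖ ≤ Real.exp (φ * |s.im| / 2) := by
    rw [norm_cpow_of_ne_zero hβne, div_eq_mul_inv, ← Real.exp_neg]
    have e1 : (-((s - 1 / 2) / 2)).re = -((s.re - 1 / 2) / 2) := by simp
    have e2 : (-((s - 1 / 2) / 2)).im = -(s.im / 2) := by simp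
    rw [e1, e2]
    have g1 : ‖β‖ ^ (-((s.re - 1 / 2) / 2)) ≤ 1 :=
      Real.rpow_le_one_of_one_le_of_nonpos hβ1 (by linarith)
    have g2 : Real.exp (-(arg β * -(s.im / 2))) ≤ Real.exp (φ * |s.im| / 2) := by
      apply Real.exp_le_exp.2
      have := le_abs_self (arg β * s.im)
      rw [abs_mul, ← hφ] at this
      linarith
    calc ‖β‖ ^ (-((s.re - 1 / 2) / 2)) * Real.exp (-(arg β * -(s.im / 2))) ≤
        1 * Real.exp (φ * |s.im| / 2) := by gcongr
      _ = _ := one_mul _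
  calc ‖Complex.exp (-((s - 1 / 2) * (Real.log y : ℂ)))‖ * (‖cG k δ w‖ *
      ‖Complex.Gamma ((k : ℂ) + 1 / 2 + w + (s - 1 / 2) / 2)‖ * ‖β ^ (-((s - 1 / 2) / 2))‖) ≤
      Real.exp (3 / 2 * |Real.log y|) * (‖cG k δ w‖ *
        ((Real.exp (θ * |w.im|) * G / Real.cos θ ^ (a + 3 / 4)) * Real.exp (-(θ * |s.im| / 2))) *
          Real.exp (φ * |s.im| / 2)) := by gcongr
    _ = Real.exp (3 / 2 * |Real.log y|) * (‖cG k δ w‖ * (Real.exp (θ * |w.im|) * G /
    Real.cos θ ^ (a + 3 / 4))) * (Real.exp (-(θ * |s.im| / 2)) * Real.exp (φ * |s.im| / 2)) := by ring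
    _ = _ := by
        rw [← Real.exp_add]
        congr 2
        ring

lemma TW_g_diff (k : ℕ) (δ : ℝ) (w : ℂ) (y : ℝ) (hw : 0 ≤ w.re) (s : ℂ) (hs : 0 < s.re) :
    DifferentiableAt ℂ (TW_g k δ w y) s := by
  unfold TW_g
  have hG : DifferentiableAt ℂ (fun s : ℂ => Complex.Gamma ((k : ℂ) + 1 / 2 + w + (s - 1 / 2) / 2)) s := by
    have h1 : DifferentiableAt ℂ Complex.Gamma ((k : ℂ) + 1 / 2 + w + (s - 1 / 2) / 2) := by
      apply Complex.differentiableAt_Gamma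
      intro m hm
      have := congrArg Complex.re hm
      simp at this
      have h1 : (0:ℝ) ≤ m := Nat.cast_nonneg m
      have h2 : (0:ℝ) ≤ k := Nat.cast_nonneg k
      linarith
    exact h1.comp s (by fun_prop)
  have hB : DifferentiableAt ℂ (fun s : ℂ => bas (Real.tan (2 * δ)) ^ (-((s - 1 / 2) / 2))) s := by
    apply DifferentiableAt.const_cpow (by fun_prop)
    left
    exact TW_bas_ne _
  exact DifferentiableAt.mul (by fun_prop) ((hG.const_mul _).mul hB)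

/-- the integrand -/
def TW_F (k : ℕ) (δ : ℝ) (w : ℂ) (y : ℝ) (s : ℂ) : ℂ :=
  Pool.Agent.H306R2.Zt s * TW_g k δ w y s / (s - 1)

lemma TW_F_bound (k : ℕ) (δ : ℝ) (w : ℂ) (y : ℝ) (h0 : 0 < δ) (h1 : δ < 1 / 2)
    (hw : 0 ≤ w.re) : ∃ C : ℝ, 0 ≤ C ∧ ∀ s : ℂ, 1 / 2 ≤ s.re → s.re ≤ 2 → 1 / 2 ≤ ‖s - 1‖ →
      ‖TW_F k δ w y s‖ ≤ C * (1 + s.im ^ 2)⁻¹ := by
  obtain ⟨B, ε, hB, hε, hb⟩ := TW_g_bound k δ w y h0 h1 hw
  refine ⟨6 * B * (24 / ε ^ 4 * Real.exp (3 * ε)), by positivity, fun s hs1 hs2 hs3 => ?_⟩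
  have hg := hb s hs1 hs2
  have hZ := Pool.Agent.H306R2.Zt_norm_le hs1
  obtain ⟨t, ht⟩ : ∃ t, t = |s.im| := ⟨_, rfl⟩
  have ht0 : 0 ≤ t := ht ▸ abs_nonneg _
  have hs : ‖s‖ ≤ 2 + t := by
    have := Complex.norm_le_abs_re_add_abs_im s
    rw [abs_of_nonneg (by linarith : 0 ≤ s.re)] at this
    rw [ht]
    linarith
  have hZ' : ‖Pool.Agent.H306R2.Zt s‖ ≤ 3 * (t + 3) ^ 2 := by
    refine hZ.trans ?_
    have : ‖s‖ + 1 ≤ t + 3 := by linarith
    gcongr
  rw [← ht] at hg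
  have hpow : (t + 3) ^ 4 ≤ 24 / ε ^ 4 * (Real.exp (3 * ε) * Real.exp (ε * t)) := by
    have h := Real.pow_div_factorial_le_exp (ε * (t + 3)) (by positivity) 4
    rw [← Real.exp_add, show 3 * ε + ε * t = ε * (t + 3) by ring]
    have e : ((4 : ℕ).factorial : ℝ) = 24 := by norm_num [Nat.factorial]
    rw [e, mul_pow, div_le_iff₀ (by norm_num)] at h
    rw [div_mul_eq_mul_div, le_div_iff₀ (by positivity)]
    linarith
  have hsq : s.im ^ 2 = t ^ 2 := by rw [ht, sq_abs]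
  rw [hsq, ← div_eq_mul_inv, le_div_iff₀ (by positivity)]
  unfold TW_F
  rw [norm_div, norm_mul, div_mul_eq_mul_div, div_le_iff₀ (by linarith)]
  have hle : (1 + t ^ 2) ≤ (t + 3) ^ 2 := by nlinarith
  calc ‖Pool.Agent.H306R2.Zt s‖ * ‖TW_g k δ w y s‖ * (1 + t ^ 2)
      ≤ (3 * (t + 3) ^ 2) * (B * Real.exp (-(ε * t))) * (t + 3) ^ 2 := by gcongr
    _ = 3 * B * ((t + 3) ^ 4 * Real.exp (-(ε * t))) := by ring
    _ ≤ 3 * B * ((24 / ε ^ 4 * (Real.exp (3 * ε) * Real.exp (ε * t))) * Real.exp (-(ε * t))) := by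
        gcongr
    _ = 3 * B * (24 / ε ^ 4 * Real.exp (3 * ε)) * (Real.exp (ε * t) * Real.exp (-(ε * t))) := by
        ring
    _ = 3 * B * (24 / ε ^ 4 * Real.exp (3 * ε)) := by
        rw [← Real.exp_add, add_neg_cancel, Real.exp_zero, mul_one]
    _ = 6 * B * (24 / ε ^ 4 * Real.exp (3 * ε)) * (1 / 2) := by ring
    _ ≤ 6 * B * (24 / ε ^ 4 * Real.exp (3 * ε)) * ‖s - 1‖ := by gcongr

lemma TW_F_cont (k : ℕ) (δ : ℝ) (w : ℂ) (y : ℝ) (hw : 0 ≤ w.re) (x : ℝ) (hx : 0 < x)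
    (hx1 : x ≠ 1) : Continuous (fun t : ℝ => TW_F k δ w y ((x : ℂ) + t * I)) := by
  rw [continuous_iff_continuousAt]
  intro t
  have hre : ((x : ℂ) + t * I).re = x := by simp
  have h1 : ContinuousAt (TW_F k δ w y) ((x : ℂ) + t * I) := by
    have hd : DifferentiableAt ℂ (TW_F k δ w y) ((x : ℂ) + t * I) := by
      unfold TW_F
      refine DifferentiableAt.div ?_ (by fun_prop) ?_
      · exact (Pool.Agent.H306R2.Zt_differentiableAt (by rw [hre]; exact hx)).mul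
          (TW_g_diff k δ w y hw _ (by rw [hre]; exact hx))
      · intro h
        have := congrArg Complex.re h
        simp at this
        exact hx1 (by linarith)
    exact hd.continuousAt
  exact ContinuousAt.comp (f := fun y : ℝ => (x : ℂ) + y * I) h1 (by fun_prop)

lemma TW_shift (k : ℕ) (δ : ℝ) (w : ℂ) (y : ℝ) (h0 : 0 < δ) (h1 : δ < 1 / 2)
    (hw : 0 ≤ w.re) :
    (∫ t : ℝ, TW_F k δ w y (((2 : ℝ) : ℂ) + t * I)) -
      (∫ t : ℝ, TW_F k δ w y (((1 / 2 : ℝ) : ℂ) + t * I)) = 2 * Real.pi * TW_g k δ w y 1 := by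
  obtain ⟨C, hC, hb⟩ := TW_F_bound k δ w y h0 h1 hw
  have hline : ∀ x : ℝ, 1 / 2 ≤ x → x ≤ 2 → 1 / 2 ≤ |x - 1| →
      Integrable (fun t : ℝ => TW_F k δ w y ((x : ℂ) + t * I)) := by
    intro x hx1 hx2 hx3
    have hne : x ≠ 1 := by
      rintro rfl
      norm_num at hx3
    refine Integrable.mono' (integrable_inv_one_add_sq.const_mul C)
      (TW_F_cont k δ w y hw x (by linarith) hne).aestronglyMeasurable
      (Eventually.of_forall fun t => ?_)
    have hre : ((x : ℂ) + t * I).re = x := by simp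
    have him : ((x : ℂ) + t * I).im = t := by simp
    have := hb ((x : ℂ) + t * I) (by rw [hre]; exact hx1) (by rw [hre]; exact hx2) (by
      have := Complex.abs_re_le_norm ((x : ℂ) + t * I - 1)
      rw [Complex.sub_re, hre, Complex.one_re] at this
      exact hx3.trans this)
    rwa [him] at this
  refine Pool.Agent.H448R2.GC.S0.core (TW_F k δ w y) (1 / 2) 2 (by norm_num) (TW_g k δ w y 1) C 1
    ?_ (hline (1 / 2) le_rfl (by norm_num) (by norm_num [abs_of_neg]))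
    (hline 2 (by norm_num) le_rfl (by norm_num)) ?_
  · intro z hz1 hz2 hz3
    have h3 : 0 < z.im ^ 2 := by
      rw [← sq_abs]
      positivity
    have hn : 1 / 2 ≤ ‖z - 1‖ := by
      have := Complex.abs_im_le_norm (z - 1)
      rw [Complex.sub_im, Complex.one_im, sub_zero] at this
      linarith
    refine (hb z hz1 hz2 hn).trans ?_
    rw [← div_eq_mul_inv]
    exact div_le_div_of_nonneg_left hC h3 (by linarith)
  · intro Y hY hY0
    have hU : IsOpen {z : ℂ | 0 < z.re} := isOpen_lt continuous_const Complex.continuous_re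
    have hres := SG.rect_res (fun z => z - 1)
      (fun z => Pool.Agent.H306R2.Zt z * TW_g k δ w y z) (1 / 2) 2 (-Y) Y (by norm_num)
      (by linarith) {1} ?_ ?_ ?_ ?_ ?_
    · have hd : deriv (fun z : ℂ => z - 1) 1 = 1 := by simp
      rw [Finset.sum_singleton, hd, div_one, Pool.Agent.H306R2.Zt_one, one_mul] at hres
      exact hres
    · intro z hz
      rw [Finset.mem_singleton] at hz
      subst hz
      refine ⟨⟨?_, ?_⟩, ⟨?_, ?_⟩⟩
      · norm_num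
      · norm_num
      · show -Y < (1 : ℂ).im
        rw [Complex.one_im]; linarith
      · show (1 : ℂ).im < Y
        rw [Complex.one_im]; linarith
    · intro s _
      exact (by fun_prop : Differentiable ℂ fun z : ℂ => z - 1).analyticAt s
    · intro s hs
      have hs0 : 0 < s.re := by
        have : (1:ℝ) / 2 ≤ s.re := hs.1.1
        linarith
      refine (Pool.Agent.H306R2.Zt_analyticOn s hs0).mul ?_
      have hD : DifferentiableOn ℂ (TW_g k δ w y) {z : ℂ | 0 < z.re} := fun z hz =>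
        (TW_g_diff k δ w y hw z hz).differentiableWithinAt
      exact hD.analyticOnNhd hU s hs0
    · intro s _
      rw [sub_eq_zero, Finset.mem_singleton]
    · intro z _
      simp

/-- one term -/
lemma TW_term (k : ℕ) (δ : ℝ) (w : ℂ) (y : ℝ) (h0 : 0 < δ) (h1 : δ < 1 / 2)
    (hw : 0 ≤ w.re) (hy : 0 < y) (b : ℕ) :
    ∫ t : ℝ, 1 / ((b : ℂ) + 1) ^ ((2 : ℂ) + t * I) * TW_g k δ w y ((2 : ℂ) + t * I) =
      ((((b : ℝ) + 1) ^ (-(1 / 2) : ℝ) : ℝ) : ℂ) * Ph k δ w (((b : ℝ) + 1) * y) := by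
  obtain ⟨β, hβ⟩ : ∃ β, β = bas (Real.tan (2 * δ)) := ⟨_, rfl⟩
  have hβne : β ≠ 0 := hβ ▸ TW_bas_ne _
  have hβre : 0 < β.re := by rw [hβ, TW_bas_re]; exact mul_pos Real.pi_pos (TW_tan h0 h1)
  obtain ⟨κ, hκ⟩ : ∃ κ : ℂ, κ = (k : ℂ) + 1 / 2 + w := ⟨_, rfl⟩
  have hκre : κ.re = k + 1 / 2 + w.re := by rw [hκ]; simp
  have hκ0 : 0 < κ.re := by
    rw [hκre]
    have : (0:ℝ) ≤ k := Nat.cast_nonneg k
    linarith
  have hb0 : (0:ℝ) < (b : ℝ) + 1 := by positivity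
  obtain ⟨x, hx⟩ : ∃ x : ℝ, x = ((b : ℝ) + 1) * y := ⟨_, rfl⟩
  have hx0 : 0 < x := by rw [hx]; positivity
  obtain ⟨Z, hZ⟩ : ∃ Z : ℂ, Z = β * (x : ℂ) ^ 2 := ⟨_, rfl⟩
  have hZ' : Z = ((x ^ 2 : ℝ) : ℂ) * β := by rw [hZ]; push_cast; ring
  have hZre : 0 < Z.re := by
    rw [hZ', Complex.re_ofReal_mul]
    positivity
  have hZne : Z ≠ 0 := by
    intro h
    rw [h] at hZre
    simp at hZre
  have hlogZ : Complex.log Z = 2 * (Real.log x : ℂ) + Complex.log β := by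
    rw [hZ', Complex.log_ofReal_mul (by positivity) hβne, Real.log_pow]
    push_cast
    ring
  have hlogx : Real.log x = Real.log ((b : ℝ) + 1) + Real.log y := by
    rw [hx, Real.log_mul hb0.ne' hy.ne']
  -- pointwise identity
  have hpt : ∀ t : ℝ, 1 / ((b : ℂ) + 1) ^ ((2 : ℂ) + t * I) * TW_g k δ w y ((2 : ℂ) + t * I) =
      ((((((b : ℝ) + 1) ^ (-(1 / 2) : ℝ) : ℝ) : ℂ)) * cG k δ w * Z ^ κ) *
        ((1 / Z) ^ (((κ.re + 3 / 4 : ℝ) : ℂ) + ((κ.im + t / 2 : ℝ) : ℂ) * I) *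
          Complex.Gamma (((κ.re + 3 / 4 : ℝ) : ℂ) + ((κ.im + t / 2 : ℝ) : ℂ) * I)) := by
    intro t
    have e1 : ((κ.re + 3 / 4 : ℝ) : ℂ) + ((κ.im + t / 2 : ℝ) : ℂ) * I =
        κ + (((2 : ℂ) + t * I) - 1 / 2) / 2 := by
      conv_rhs => rw [← Complex.re_add_im κ]
      push_cast
      ring
    rw [e1]
    unfold TW_g
    rw [← hβ, ← hκ]
    obtain ⟨u, hu⟩ : ∃ u : ℂ, u = (((2 : ℂ) + t * I) - 1 / 2) / 2 := ⟨_, rfl⟩
    have hu2 : (2 : ℂ) + t * I = 2 * u + 1 / 2 := by rw [hu]; ring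
    have hu3 : ((2 : ℂ) + t * I) - 1 / 2 = 2 * u := by rw [hu]; ring
    have hu4 : 2 * u / 2 = u := by ring
    rw [hu3, hu4, hu2]
    have hinv : (1 / Z) ^ (κ + u) = Z ^ (-(κ + u)) := by
      have harg : Z.arg ≠ Real.pi := by
        have h : |Z.arg| < Real.pi / 2 := Complex.abs_arg_lt_pi_div_two_iff.2 (Or.inl hZre)
        intro h2
        rw [h2, abs_of_pos Real.pi_pos] at h
        linarith [Real.pi_pos]
      rw [one_div, Complex.inv_cpow _ _ harg, Complex.cpow_neg]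
    rw [hinv]
    have hbC : ((b : ℂ) + 1) ≠ 0 := by exact_mod_cast hb0.ne'
    have hlb : Complex.log ((b : ℂ) + 1) = (Real.log ((b : ℝ) + 1) : ℂ) := by
      rw [Complex.ofReal_log hb0.le]
      push_cast
      rfl
    have hrp : ((((b : ℝ) + 1) ^ (-(1 / 2) : ℝ) : ℝ) : ℂ) =
        Complex.exp (-(1 / 2) * (Real.log ((b : ℝ) + 1) : ℂ)) := by
      rw [Real.rpow_def_of_pos hb0, Complex.ofReal_exp]
      congr 1
      push_cast
      ring
    rw [hrp, one_div, ← Complex.cpow_neg, Complex.cpow_def_of_ne_zero hbC,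
      Complex.cpow_def_of_ne_zero hβne, Complex.cpow_def_of_ne_zero hZne,
      Complex.cpow_def_of_ne_zero hZne, hlb, hlogZ, hlogx]
    push_cast
    obtain ⟨A, hA⟩ : ∃ A : ℂ, A = (Real.log ((b : ℝ) + 1) : ℂ) := ⟨_, rfl⟩
    obtain ⟨D, hD⟩ : ∃ D : ℂ, D = (Real.log y : ℂ) := ⟨_, rfl⟩
    obtain ⟨L, hL⟩ : ∃ L : ℂ, L = Complex.log β := ⟨_, rfl⟩
    rw [← hA, ← hD, ← hL]
    have hexp : Complex.exp (A * -(2 * u + 1 / 2)) * (Complex.exp (-(2 * u * D)) *
        Complex.exp (L * -u)) = Complex.exp (-(1 / 2) * A) *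
          (Complex.exp ((2 * (A + D) + L) * κ) * Complex.exp ((2 * (A + D) + L) * -(κ + u))) := by
      rw [← Complex.exp_add, ← Complex.exp_add, ← Complex.exp_add, ← Complex.exp_add]
      congr 1
      ring
    linear_combination (cG k δ w * Complex.Gamma (κ + u)) * hexp
  simp_rw [hpt]
  rw [integral_const_mul]
  have hint : ∫ t : ℝ, (1 / Z) ^ (((κ.re + 3 / 4 : ℝ) : ℂ) + ((κ.im + t / 2 : ℝ) : ℂ) * I) *
          Complex.Gamma (((κ.re + 3 / 4 : ℝ) : ℂ) + ((κ.im + t / 2 : ℝ) : ℂ) * I) =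
      4 * Real.pi * Complex.exp (-Z) := by
    have hc := Pool.Agent.H402R2.T4b.cahen hZre (c := κ.re + 3 / 4) (by linarith)
    obtain ⟨f, hf⟩ : ∃ f : ℝ → ℂ, f = fun v : ℝ => (1 / Z) ^ (((κ.re + 3 / 4 : ℝ) : ℂ) + (v : ℂ) * I) *
          Complex.Gamma (((κ.re + 3 / 4 : ℝ) : ℂ) + (v : ℂ) * I) := ⟨_, rfl⟩
    have hc' : ∫ v : ℝ, f v = 2 * Real.pi * Complex.exp (-Z) := by rw [hf]; exact hc
    have h2 : ∫ t : ℝ, f (κ.im + t / 2) = 4 * Real.pi * Complex.exp (-Z) := by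
      have h3 := Measure.integral_comp_div (fun v => f (κ.im + v)) 2
      have h4 : ∫ v : ℝ, f (κ.im + v) = ∫ v, f v := integral_add_left_eq_self f κ.im
      rw [h3, h4, hc', abs_two, Complex.real_smul]
      push_cast
      ring
    rw [← h2, hf]
  rw [hint]
  unfold Ph
  rw [← hβ, ← hx, ← hZ, ← hκ]
  ring

theorem TW (_h : S_GZ) : S_TW := by
  intro k δ w y hk h0 h1 hw0 hw1 hy
  obtain ⟨B, ε, hB, hε, hb⟩ := TW_g_bound k δ w y h0 h1 hw0
  -- integrability on the line `Re s = 2`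
  have hgc : Continuous (fun t : ℝ => TW_g k δ w y ((2 : ℂ) + t * I)) := by
    rw [continuous_iff_continuousAt]
    intro t
    have h1 : ContinuousAt (TW_g k δ w y) ((2 : ℂ) + t * I) :=
      (TW_g_diff k δ w y hw0 _ (by simp)).continuousAt
    exact ContinuousAt.comp (f := fun y : ℝ => (2 : ℂ) + y * I) h1 (by fun_prop)
  have hgi : Integrable (fun t : ℝ => TW_g k δ w y ((2 : ℂ) + t * I)) := by
    refine Integrable.mono' ((Pool.Agent.H402R2.T4b.int_exp_abs hε).const_mul B)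
      hgc.aestronglyMeasurable (Eventually.of_forall fun t => ?_)
    have := hb ((2 : ℂ) + t * I) (by simp; norm_num) (by simp)
    simpa using this
  set F : ℕ → ℝ → ℂ := fun b t =>
    1 / ((b : ℂ) + 1) ^ ((2 : ℂ) + t * I) * TW_g k δ w y ((2 : ℂ) + t * I) with hF
  have hn : ∀ (b : ℕ) (t : ℝ), ‖1 / ((b : ℂ) + 1) ^ ((2 : ℂ) + t * I)‖ = (((b : ℝ) + 1) ^ 2)⁻¹ := by
    intro b t
    have e : ((b : ℂ) + 1) = (((b : ℝ) + 1 : ℝ) : ℂ) := by push_cast; rfl
    rw [norm_div, norm_one, e, Complex.norm_cpow_eq_rpow_re_of_pos (by positivity), one_div]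
    congr 1
    have e2 : ((2 : ℂ) + t * I).re = 2 := by simp
    rw [e2]
    norm_cast
  have hmeas : ∀ b : ℕ, Continuous fun t : ℝ => 1 / ((b : ℂ) + 1) ^ ((2 : ℂ) + t * I) := by
    intro b
    have hbC : ((b : ℂ) + 1) ≠ 0 := by exact_mod_cast (by positivity : ((b : ℝ) + 1) ≠ 0)
    refine Continuous.div continuous_const ?_ ?_
    · apply Continuous.const_cpow (by fun_prop)
      left
      exact hbC
    · intro t
      rw [Complex.cpow_def_of_ne_zero hbC]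
      exact Complex.exp_ne_zero _
  have hFint : ∀ b, Integrable (F b) := by
    intro b
    refine hgi.bdd_mul (c := (((b : ℝ) + 1) ^ 2)⁻¹) (hmeas b).aestronglyMeasurable ?_
    exact Eventually.of_forall fun t => (hn b t).le
  have hnorm : ∀ b, ∫ t, ‖F b t‖ = (((b : ℝ) + 1) ^ 2)⁻¹ * ∫ t : ℝ, ‖TW_g k δ w y ((2 : ℂ) + t * I)‖ := by
    intro b
    rw [← integral_const_mul]
    apply integral_congr_ae
    refine Eventually.of_forall fun t => ?_
    simp only [hF]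
    rw [norm_mul, hn]
  have hs2 : Summable (fun b : ℕ => (((b : ℝ) + 1) ^ 2)⁻¹) := by
    have h := (summable_nat_add_iff 1).2 (Real.summable_nat_pow_inv (p := 2).2 (by norm_num))
    refine h.congr fun b => ?_
    push_cast
    rfl
  have hsum : Summable fun b => ∫ t, ‖F b t‖ := by
    simp_rw [hnorm]
    exact hs2.mul_right _
  have hmain := hasSum_integral_of_summable_integral_norm hFint hsum
  have hterm : ∀ b, ∫ t, F b t =
      ((((b : ℝ) + 1) ^ (-(1 / 2) : ℝ) : ℝ) : ℂ) * Ph k δ w (((b : ℝ) + 1) * y) := fun b =>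
    TW_term k δ w y h0 h1 hw0 hy b
  refine ⟨?_, ?_⟩
  · refine Summable.of_nonneg_of_le (fun b => by positivity) (fun b => ?_) hsum
    have h3 : ‖∫ t, F b t‖ ≤ ∫ t, ‖F b t‖ := norm_integral_le_integral_norm _
    rw [hterm, norm_mul, Complex.norm_real, Real.norm_of_nonneg (by positivity)] at h3
    exact h3
  · have hsh := TW_shift k δ w y h0 h1 hw0
    have hz : ∀ s : ℂ, 0 < s.re → s ≠ 1 → TW_F k δ w y s = riemannZeta s * TW_g k δ w y s := by
      intro s hs hs1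
      unfold TW_F
      rw [← Pool.Agent.H306R2.zeta_eq_pos hs hs1]
      have : s - 1 ≠ 0 := sub_ne_zero.2 hs1
      field_simp
    have hline2 : ∫ t : ℝ, TW_F k δ w y (((2 : ℝ) : ℂ) + t * I) = Bs k δ w y := by
      unfold Bs
      rw [← tsum_congr hterm, hmain.tsum_eq]
      apply integral_congr_ae
      refine Eventually.of_forall fun t => ?_
      have e2 : (((2 : ℝ) : ℂ) + t * I) = (2 : ℂ) + t * I := by push_cast; rfl
      have hne : (2 : ℂ) + t * I ≠ 1 := by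
        intro h
        have := congrArg Complex.re h
        simp at this
      show TW_F k δ w y (((2 : ℝ) : ℂ) + t * I) = ∑' b, F b t
      rw [e2, hz _ (by simp) hne, zeta_eq_tsum_one_div_nat_add_one_cpow (by simp), ← tsum_mul_right]
    have hline1 : ∫ t : ℝ, TW_F k δ w y (((1 / 2 : ℝ) : ℂ) + t * I) =
        ∫ t : ℝ, zc t * osc y t * Gw k δ w t := by
      apply integral_congr_ae
      refine Eventually.of_forall fun t => ?_
      have e2 : (((1 / 2 : ℝ) : ℂ) + t * I) = 1 / 2 + t * I := by push_cast; rfl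
      have hne : (1 / 2 : ℂ) + t * I ≠ 1 := by
        intro h
        have := congrArg Complex.re h
        simp at this
      show TW_F k δ w y (((1 / 2 : ℝ) : ℂ) + t * I) = zc t * osc y t * Gw k δ w t
      rw [e2, hz _ (by simp) hne]
      unfold zc TW_g osc Gw
      have e3 : (1 / 2 : ℂ) + t * I - 1 / 2 = t * I := by ring
      have e4 : (t : ℂ) * I / 2 = (t / 2) * I := by ring
      have e5 : -(((t / 2 : ℝ) : ℂ)) * I = -((t / 2) * I) := by push_cast; ring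
      have e6 : (((-(t * Real.log y) : ℝ) : ℂ) * I) = -((t : ℂ) * I * (Real.log y : ℂ)) := by
        push_cast; ring
      rw [e3, e4, e5, e6]
      ring
    have hg1 : TW_g k δ w y 1 = ((y ^ (-(1 / 2) : ℝ) : ℝ) : ℂ) * cG k δ w *
      Complex.Gamma ((k : ℂ) + 3 / 4 + w) * bas (Real.tan (2 * δ)) ^ (-(1 / 4) : ℂ) := by
      unfold TW_g
      have e1 : Complex.exp (-((1 - 1 / 2) * (Real.log y : ℂ))) = ((y ^ (-(1 / 2) : ℝ) : ℝ) : ℂ) := by
        rw [Real.rpow_def_of_pos hy, Complex.ofReal_exp]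
        congr 1
        push_cast
        ring
      have e2 : (k : ℂ) + 1 / 2 + w + (1 - 1 / 2) / 2 = (k : ℂ) + 3 / 4 + w := by ring
      have e3 : (-((1 - 1 / 2) / 2) : ℂ) = -(1 / 4) := by norm_num
      rw [e1, e2, e3]
      ring
    rw [hline2, hline1, hg1] at hsh
    linear_combination (-1 : ℂ) * hsh

end

end Pool.Agent.H408R2.CM
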