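import Pool.Agent.H408R2.CM.Stubs

set_option autoImplicit false

/-! # Task V: the cut-off function -/

open Complex MeasureTheory Filter Topology

namespace Pool.Agent.H408R2.CM

open Pool.Agent.H304R4.CM

noncomputable section

/-- shift of the line of integration -/
theorem V_shift (F : ℂ → ℂ) (x₀ x₁ : ℝ) (hx0 : 0 < x₀) (hx : x₀ ≤ x₁) (C : ℝ)
    (hF : DifferentiableOn ℂ F {z | 0 < z.re})
    (hb : ∀ z : ℂ, x₀ ≤ z.re → z.re ≤ x₁ → 1 ≤ |z.im| → ‖F z‖ ≤ C / z.im ^ 2)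
    (h0 : Integrable (fun y : ℝ => F ((x₀ : ℂ) + (y : ℂ) * I)))
    (h1 : Integrable (fun y : ℝ => F ((x₁ : ℂ) + (y : ℂ) * I))) :
    (∫ y : ℝ, F ((x₁ : ℂ) + (y : ℂ) * I)) = (∫ y : ℝ, F ((x₀ : ℂ) + (y : ℂ) * I)) := by
  have t1 : Tendsto (fun Y : ℝ => ∫ y in (-Y)..Y, F ((x₁ : ℂ) + (y : ℂ) * I)) atTop
      (𝓝 (∫ y : ℝ, F ((x₁ : ℂ) + (y : ℂ) * I))) :=
    intervalIntegral_tendsto_integral h1 tendsto_neg_atTop_atBot tendsto_id
  have t0 : Tendsto (fun Y : ℝ => ∫ y in (-Y)..Y, F ((x₀ : ℂ) + (y : ℂ) * I)) atTop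
      (𝓝 (∫ y : ℝ, F ((x₀ : ℂ) + (y : ℂ) * I))) :=
    intervalIntegral_tendsto_integral h0 tendsto_neg_atTop_atBot tendsto_id
  have hhor : ∀ s : ℝ, (s = 1 ∨ s = -1) →
      Tendsto (fun Y : ℝ => ∫ x in x₀..x₁, F (⟨x, s * Y⟩ : ℂ)) atTop (𝓝 0) := by
    intro s hs
    have hlim : Tendsto (fun Y : ℝ => C / Y ^ 2 * |x₁ - x₀|) atTop (𝓝 0) := by
      have h2 : Tendsto (fun Y : ℝ => Y ^ 2) atTop atTop := tendsto_pow_atTop (by norm_num)
      have h3 := (tendsto_const_nhds (x := C)).div_atTop h2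
      simpa using h3.mul_const |x₁ - x₀|
    rw [tendsto_zero_iff_norm_tendsto_zero]
    refine squeeze_zero' (Eventually.of_forall fun _ => norm_nonneg _) ?_ hlim
    filter_upwards [eventually_ge_atTop 1] with Y hY
    apply intervalIntegral.norm_integral_le_of_norm_le_const
    intro x hxx
    rw [Set.uIoc_of_le hx] at hxx
    have habs : |s * Y| = Y := by
      rcases hs with rfl | rfl
      · rw [one_mul, abs_of_pos (by linarith)]
      · rw [neg_one_mul, abs_neg, abs_of_pos (by linarith)]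
    have := hb ⟨x, s * Y⟩ hxx.1.le hxx.2 (by simp only; rw [habs]; exact hY)
    refine this.trans (le_of_eq ?_)
    simp only
    rw [← sq_abs, habs]
  have tt : Tendsto (fun Y : ℝ => (∫ x in x₀..x₁, F (⟨x, -1 * Y⟩ : ℂ)) -
      (∫ x in x₀..x₁, F (⟨x, 1 * Y⟩ : ℂ)) + I * (∫ y in (-Y)..Y, F ((x₁ : ℂ) + (y : ℂ) * I)) -
      I * ∫ y in (-Y)..Y, F ((x₀ : ℂ) + (y : ℂ) * I)) atTop
      (𝓝 (0 - 0 + I * (∫ y : ℝ, F ((x₁ : ℂ) + (y : ℂ) * I)) -
        I * ∫ y : ℝ, F ((x₀ : ℂ) + (y : ℂ) * I))) :=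
    (((hhor (-1) (Or.inr rfl)).sub (hhor 1 (Or.inl rfl))).add (t1.const_mul I)).sub
      (t0.const_mul I)
  have tc : Tendsto (fun Y : ℝ => (∫ x in x₀..x₁, F (⟨x, -1 * Y⟩ : ℂ)) -
      (∫ x in x₀..x₁, F (⟨x, 1 * Y⟩ : ℂ)) + I * (∫ y in (-Y)..Y, F ((x₁ : ℂ) + (y : ℂ) * I)) -
      I * ∫ y in (-Y)..Y, F ((x₀ : ℂ) + (y : ℂ) * I)) atTop (𝓝 0) := by
    refine tendsto_const_nhds.congr' ?_
    filter_upwards [eventually_ge_atTop 1] with Y hY
    have hr := integral_boundary_rect_eq_zero_of_differentiableOn F ⟨x₀, -Y⟩ ⟨x₁, Y⟩ (by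
      apply hF.mono
      intro z hz
      rw [Complex.mem_reProdIm] at hz
      have h5 := hz.1
      simp only at h5
      rw [Set.uIcc_of_le hx] at h5
      exact lt_of_lt_of_le hx0 h5.1)
    simp only [smul_eq_mul] at hr
    rw [← hr]
    simp only [Complex.mk_eq_add_mul_I, neg_one_mul, one_mul]
  have h2 := tendsto_nhds_unique tt tc
  have h3 : I * ((∫ y : ℝ, F ((x₁ : ℂ) + (y : ℂ) * I)) -
      (∫ y : ℝ, F ((x₀ : ℂ) + (y : ℂ) * I))) = I * 0 := by
    linear_combination h2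
  exact sub_eq_zero.1 (mul_left_cancel₀ I_ne_zero h3)

theorem V_norm_exp (w : ℂ) : ‖Complex.exp (w ^ 2)‖ = Real.exp (w.re ^ 2 - w.im ^ 2) := by
  rw [Complex.norm_exp]
  congr 1
  rw [pow_two, Complex.mul_re]
  ring

theorem V_norm_ew {s : ℝ} (hs : 0 < s) (v : ℝ) :
    ‖ew s v‖ ≤ Real.exp (s ^ 2) / s * Real.exp (-(v ^ 2)) := by
  unfold ew
  have h1 : s ≤ ‖(s : ℂ) + v * I‖ := by
    have := Complex.re_le_norm ((s : ℂ) + v * I)
    simpa using this
  rw [norm_div, V_norm_exp]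
  have h2 : ((s : ℂ) + v * I).re = s := by simp
  have h3 : ((s : ℂ) + v * I).im = v := by simp
  rw [h2, h3, sub_eq_add_neg, Real.exp_add, div_mul_eq_mul_div]
  exact div_le_div_of_nonneg_left (by positivity) hs h1

theorem V_ne {s : ℝ} (hs : 0 < s) (v : ℝ) : (s : ℂ) + v * I ≠ 0 := by
  intro h
  have := congrArg Complex.re h
  simp at this
  linarith

theorem V_cont_ew {s : ℝ} (hs : 0 < s) : Continuous (ew s) := by
  unfold ew
  apply Continuous.div
  · fun_prop
  · fun_prop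
  · exact V_ne hs

theorem V_gauss : Integrable (fun v : ℝ => Real.exp (-(v ^ 2))) := by
  have h := integrable_exp_neg_mul_sq (b := 1) one_pos
  simpa using h

theorem V_int_ew {s : ℝ} (hs : 0 < s) : Integrable (ew s) := by
  refine Integrable.mono' (V_gauss.const_mul (Real.exp (s ^ 2) / s))
    (V_cont_ew hs).aestronglyMeasurable (Eventually.of_forall fun v => ?_)
  exact V_norm_ew hs v

theorem V_norm_cpow {x : ℝ} (hx : 0 < x) (w : ℂ) : ‖(x : ℂ) ^ (-w)‖ = x ^ (-w.re) := by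
  rw [Complex.norm_cpow_eq_rpow_re_of_pos hx, Complex.neg_re]

theorem V_norm_cpow' {x : ℝ} (hx : 0 < x) (s v : ℝ) :
    ‖(x : ℂ) ^ (-((s : ℂ) + v * I))‖ = x ^ (-s) := by
  rw [V_norm_cpow hx]
  simp

theorem V_cont_cpow {x : ℝ} (hx : 0 < x) (s : ℝ) :
    Continuous (fun v : ℝ => (x : ℂ) ^ (-((s : ℂ) + v * I))) := by
  have hx' : (x : ℂ) ≠ 0 := by exact_mod_cast hx.ne'
  apply Continuous.const_cpow
  · fun_prop
  · exact Or.inl hx'

theorem V_int {s x : ℝ} (hs : 0 < s) (hx : 0 < x) :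
    Integrable (fun v : ℝ => (x : ℂ) ^ (-((s : ℂ) + v * I)) * ew s v) := by
  refine Integrable.mono' ((V_int_ew hs).norm.const_mul (x ^ (-s)))
    ((V_cont_cpow hx s).mul (V_cont_ew hs)).aestronglyMeasurable (Eventually.of_forall fun v => ?_)
  rw [norm_mul, V_norm_cpow' hx]

theorem V_diff {x : ℝ} (hx : 0 < x) :
    DifferentiableOn ℂ (fun w : ℂ => (x : ℂ) ^ (-w) * (Complex.exp (w ^ 2) / w)) {z | 0 < z.re} := by
  have hx' : (x : ℂ) ≠ 0 := by exact_mod_cast hx.ne'
  intro w hw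
  have hw0 : w ≠ 0 := by
    intro h
    rw [h] at hw
    simp at hw
  apply DifferentiableAt.differentiableWithinAt
  apply DifferentiableAt.mul
  · exact DifferentiableAt.const_cpow differentiableAt_id.neg (Or.inl hx')
  · exact DifferentiableAt.div (by fun_prop) differentiableAt_id hw0

theorem V_indep_le {s s' x : ℝ} (hs : 0 < s) (hss : s ≤ s') (hx : 0 < x) : VV s' x = VV s x := by
  unfold VV ew
  congr 1
  have hs' : 0 < s' := lt_of_lt_of_le hs hss
  refine V_shift (fun w : ℂ => (x : ℂ) ^ (-w) * (Complex.exp (w ^ 2) / w)) s s' hs hss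
    ((x ^ (-s) + x ^ (-s')) * (Real.exp (s' ^ 2) / s)) (V_diff hx) ?_ ?_ ?_
  · intro z h1 h2 h3
    have hz : 0 < z.re := lt_of_lt_of_le hs h1
    have hzi : 0 < z.im ^ 2 := by
      have : z.im ≠ 0 := by
        intro h
        rw [h, abs_zero] at h3
        linarith
      positivity
    rw [norm_mul, norm_div, V_norm_exp, V_norm_cpow hx]
    have e1 : x ^ (-z.re) ≤ x ^ (-s) + x ^ (-s') := by
      have p1 : 0 < x ^ (-s) := Real.rpow_pos_of_pos hx _
      have p2 : 0 < x ^ (-s') := Real.rpow_pos_of_pos hx _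
      rcases le_total 1 x with h | h
      · have := Real.rpow_le_rpow_of_exponent_le h (show -z.re ≤ -s by linarith)
        linarith
      · have := Real.rpow_le_rpow_of_exponent_ge hx h (show -s' ≤ -z.re by linarith)
        linarith
    have e2 : Real.exp (z.re ^ 2 - z.im ^ 2) / ‖z‖ ≤ (Real.exp (s' ^ 2) / s) / z.im ^ 2 := by
      have h4 : s ≤ ‖z‖ := h1.trans (Complex.re_le_norm z)
      have h5 : Real.exp (z.re ^ 2 - z.im ^ 2) ≤ Real.exp (s' ^ 2) / z.im ^ 2 := by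
        rw [sub_eq_add_neg, Real.exp_add, div_eq_mul_inv]
        apply mul_le_mul
        · apply Real.exp_le_exp.2
          nlinarith
        · rw [Real.exp_neg]
          apply inv_anti₀ hzi
          have := Real.add_one_le_exp (z.im ^ 2)
          linarith
        · exact (Real.exp_pos _).le
        · exact (Real.exp_pos _).le
      calc Real.exp (z.re ^ 2 - z.im ^ 2) / ‖z‖ ≤ (Real.exp (s' ^ 2) / z.im ^ 2) / s := by
            apply div_le_div₀ (by positivity) h5 hs h4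
        _ = (Real.exp (s' ^ 2) / s) / z.im ^ 2 := by ring
    calc x ^ (-z.re) * (Real.exp (z.re ^ 2 - z.im ^ 2) / ‖z‖) ≤
        (x ^ (-s) + x ^ (-s')) * ((Real.exp (s' ^ 2) / s) / z.im ^ 2) := by
          apply mul_le_mul e1 e2 (by positivity)
          have p1 : 0 < x ^ (-s) := Real.rpow_pos_of_pos hx _
          have p2 : 0 < x ^ (-s') := Real.rpow_pos_of_pos hx _
          linarith
      _ = (x ^ (-s) + x ^ (-s')) * (Real.exp (s' ^ 2) / s) / z.im ^ 2 := by ring
  · exact V_int hs hx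
  · exact V_int hs' hx

theorem V_indep {s x : ℝ} (hs : 0 < s) (hx : 0 < x) : VV s x = VV 1 x := by
  rcases le_total s 1 with h | h
  · exact (V_indep_le hs h hx).symm
  · exact V_indep_le one_pos h hx

theorem V_conj {s x : ℝ} (hx : 0 < x) : (starRingEnd ℂ) (VV s x) = VV s x := by
  unfold VV
  rw [map_mul]
  have h1 : (starRingEnd ℂ) (1 / (2 * (Real.pi : ℂ))) = 1 / (2 * (Real.pi : ℂ)) := by
    rw [map_div₀, map_one, map_mul, Complex.conj_ofReal, map_ofNat]
  rw [h1, ← integral_conj,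
    ← integral_neg_eq_self (fun v : ℝ => (x : ℂ) ^ (-((s : ℂ) + v * I)) * ew s v)]
  congr 1
  congr 1
  funext v
  have hx' : (x : ℂ) ≠ 0 := by exact_mod_cast hx.ne'
  have h2 : (starRingEnd ℂ) ((x : ℂ) ^ (-((s : ℂ) + v * I))) =
      (x : ℂ) ^ (-((s : ℂ) + ((-v : ℝ) : ℂ) * I)) := by
    rw [Complex.cpow_def_of_ne_zero hx', Complex.cpow_def_of_ne_zero hx', ← Complex.exp_conj,
      ← Complex.ofReal_log hx.le, map_mul, Complex.conj_ofReal, map_neg, map_add, map_mul,
      Complex.conj_ofReal, Complex.conj_ofReal, Complex.conj_I]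
    congr 1
    push_cast
    ring
  have h3 : (starRingEnd ℂ) (ew s v) = ew s (-v) := by
    unfold ew
    rw [map_div₀, ← Complex.exp_conj, map_pow, map_add, map_mul,
      Complex.conj_ofReal, Complex.conj_ofReal, Complex.conj_I]
    push_cast
    congr 2
    · ring
    · ring
  rw [map_mul, h2, h3]

theorem V_cont : ContinuousOn (VV 1) (Set.Ioi 0) := by
  intro x0 hx0
  have hx0' : 0 < x0 := hx0
  apply ContinuousAt.continuousWithinAt
  unfold VV
  apply ContinuousAt.mul continuousAt_const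
  apply continuousAt_of_dominated (bound := fun v => (x0 / 2) ^ (-(1 : ℝ)) * ‖ew 1 v‖)
  · filter_upwards [lt_mem_nhds hx0'] with x hx
    exact (V_int one_pos hx).aestronglyMeasurable
  · filter_upwards [lt_mem_nhds (show x0 / 2 < x0 by linarith)] with x hx
    have hxp : 0 < x := by linarith
    refine Eventually.of_forall fun v => ?_
    rw [norm_mul, V_norm_cpow' hxp]
    apply mul_le_mul_of_nonneg_right _ (norm_nonneg _)
    exact Real.rpow_le_rpow_of_nonpos (by linarith) hx.le (by norm_num)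
  · exact (V_int_ew one_pos).norm.const_mul _
  · refine Eventually.of_forall fun v => ?_
    apply ContinuousAt.mul _ continuousAt_const
    have h1 : ContinuousAt (fun z : ℂ => z ^ (-(((1 : ℝ) : ℂ) + v * I))) (x0 : ℂ) :=
      continuousAt_cpow_const (Complex.ofReal_mem_slitPlane.2 hx0')
    exact ContinuousAt.comp (f := fun x : ℝ => (x : ℂ)) h1 Complex.continuous_ofReal.continuousAt

theorem V : S_V := by
  refine ⟨fun s x hs hx => V_indep hs hx, fun s x _ hx => V_conj hx, ?_,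
    fun s hs => (V_int_ew hs).norm, fun s x hs hx => V_int hs hx, ?_, V_cont⟩
  · intro s hs
    refine ⟨1 / (2 * Real.pi) * (∫ v : ℝ, ‖ew s v‖) + 1, ?_, ?_⟩
    · have : 0 ≤ ∫ v : ℝ, ‖ew s v‖ := integral_nonneg fun v => norm_nonneg _
      positivity
    · intro x hx
      have hxs : 0 < x ^ (-s) := Real.rpow_pos_of_pos hx _
      rw [← V_indep hs hx]
      unfold VV
      rw [norm_mul]
      have h1 : ‖(1 / (2 * (Real.pi : ℂ)))‖ = 1 / (2 * Real.pi) := by
        rw [norm_div, norm_one, norm_mul, Complex.norm_real, Real.norm_of_nonneg Real.pi_pos.le]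
        norm_num
      have h2 : ‖∫ v : ℝ, (x : ℂ) ^ (-((s : ℂ) + v * I)) * ew s v‖ ≤
          x ^ (-s) * ∫ v : ℝ, ‖ew s v‖ := by
        refine (norm_integral_le_integral_norm _).trans (le_of_eq ?_)
        rw [← integral_const_mul]
        congr 1
        funext v
        rw [norm_mul, V_norm_cpow' hx]
      rw [h1]
      calc 1 / (2 * Real.pi) * ‖∫ v : ℝ, (x : ℂ) ^ (-((s : ℂ) + v * I)) * ew s v‖ ≤
          1 / (2 * Real.pi) * (x ^ (-s) * ∫ v : ℝ, ‖ew s v‖) :=
            mul_le_mul_of_nonneg_left h2 (by positivity)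
        _ ≤ (1 / (2 * Real.pi) * (∫ v : ℝ, ‖ew s v‖) + 1) * x ^ (-s) := by
            linarith
  · intro s v hs hs1
    refine (V_norm_ew hs v).trans ?_
    apply mul_le_mul_of_nonneg_right _ (Real.exp_pos _).le
    apply div_le_div_of_nonneg_right _ hs.le
    have h1 : Real.exp (s ^ 2) ≤ Real.exp 1 := Real.exp_le_exp.2 (by nlinarith)
    have h2 := Real.exp_one_lt_d9
    linarith

end

end Pool.Agent.H408R2.CM
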