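import Pool.Agent.H408R2.CM.Stubs

/-! # TEAM CM, task W1: the partition of unity. -/

open Complex MeasureTheory Filter Topology

namespace Pool.Agent.H408R2.CM

open Pool.Agent.H304R4.CM

theorem W1 : S_W1 := by
  refine ⟨?_, ?_, ?_, ?_⟩
  · unfold ww
    exact (Real.smoothTransition.contDiff.comp (contDiff_const.sub contDiff_id)).sub
      (Real.smoothTransition.contDiff.comp (contDiff_const.sub (contDiff_const.mul contDiff_id)))
  · intro x hx
    by_contra hcon
    apply hx
    unfold ww
    rw [not_and_or, not_le, not_le] at hcon
    rcases hcon with h | h
    · rw [Real.smoothTransition.one_of_one_le (by linarith),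
        Real.smoothTransition.one_of_one_le (by linarith), sub_self]
    · rw [Real.smoothTransition.zero_of_nonpos (by linarith),
        Real.smoothTransition.zero_of_nonpos (by linarith), sub_self]
  · intro x
    unfold ww
    rcases le_or_gt 0 x with h | h
    · have h1 : Real.smoothTransition (2 - 2 * x) ≤ Real.smoothTransition (2 - x) :=
        Real.smoothTransition.monotone (by linarith)
      have h2 := Real.smoothTransition.le_one (2 - x)
      have h3 := Real.smoothTransition.nonneg (2 - 2 * x)
      constructor <;> linarith
    · rw [Real.smoothTransition.one_of_one_le (by linarith),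
        Real.smoothTransition.one_of_one_le (by linarith), sub_self]
      exact ⟨le_rfl, zero_le_one⟩
  · intro L x hx hxL
    have key : ∀ L : ℕ, ∑ l ∈ Finset.range (L + 1), ww (x / 2 ^ l) =
        Real.smoothTransition (2 - x / 2 ^ L) - Real.smoothTransition (2 - 2 * x) := by
      intro L
      induction L with
      | zero =>
        rw [Finset.sum_range_one]
        unfold ww
        rw [pow_zero, div_one]
      | succ L ih =>
        rw [Finset.sum_range_succ, ih]
        unfold ww
        have h1 : 2 * (x / 2 ^ (L + 1)) = x / 2 ^ L := by
          rw [pow_succ]; field_simp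
        rw [h1]
        ring
    rw [key]
    have h2 : x / 2 ^ L ≤ 1 := by
      rw [div_le_one (by positivity)]; exact hxL
    rw [Real.smoothTransition.one_of_one_le (by linarith),
      Real.smoothTransition.zero_of_nonpos (by linarith), sub_zero]

end Pool.Agent.H408R2.CM
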