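import Pool.Agent.H408R2.CM.Stubs

/-! # TEAM CM, task W2: the weights `ww(r) r^(-s)` and their conjugates. -/

open Complex MeasureTheory Filter Topology

namespace Pool.Agent.H408R2.CM

open Pool.Agent.H304R4.CM

noncomputable section

/-- smooth functions supported in `[1/2, 2]` -/
structure W2_cls (φ : ℝ → ℂ) : Prop where
  smooth : ContDiff ℝ (⊤ : ℕ∞) φ
  supp : ∀ x : ℝ, φ x ≠ 0 → 1 / 2 ≤ x ∧ x ≤ 2

/-- the power `r^(-s)` -/
def W2_E (s : ℂ) (r : ℝ) : ℂ := Complex.exp (-(s * (Real.log r : ℂ)))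

theorem W2_zero {φ : ℝ → ℂ} (h : W2_cls φ) {r : ℝ} (hr : r < 1 / 2) : φ =ᶠ[𝓝 r] fun _ => 0 := by
  filter_upwards [Iio_mem_nhds hr] with x hx
  by_contra hne
  exact absurd (h.supp x hne).1 (not_le.2 hx)

theorem W2_zero' {φ : ℝ → ℂ} (h : W2_cls φ) {r : ℝ} (hr : 2 < r) : φ =ᶠ[𝓝 r] fun _ => 0 := by
  filter_upwards [Ioi_mem_nhds hr] with x hx
  by_contra hne
  exact absurd (h.supp x hne).2 (not_le.2 hx)

theorem W2_bdd {φ : ℝ → ℂ} (h : W2_cls φ) : ∃ K : ℝ, 0 ≤ K ∧ ∀ x, ‖φ x‖ ≤ K := by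
  obtain ⟨K, hK⟩ := (isCompact_Icc (a := (1 / 2 : ℝ)) (b := 2)).exists_bound_of_continuousOn
    h.smooth.continuous.continuousOn
  refine ⟨max K 0, le_max_right _ _, fun x => ?_⟩
  by_cases hx : φ x = 0
  · rw [hx, norm_zero]; exact le_max_right _ _
  · exact (hK x (h.supp x hx)).trans (le_max_left _ _)

theorem W2_deriv {φ : ℝ → ℂ} (h : W2_cls φ) : W2_cls (deriv φ) := by
  refine ⟨?_, ?_⟩
  · exact (contDiff_succ_iff_deriv.1 (h.smooth.of_le (by simp) :
      ContDiff ℝ (((⊤ : ℕ∞) : WithTop ℕ∞) + 1) φ)).2.2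
  · intro x hx
    by_contra hcon
    apply hx
    rw [not_and_or, not_le, not_le] at hcon
    rcases hcon with h1 | h1
    · rw [(W2_zero h h1).deriv_eq]; simp
    · rw [(W2_zero' h h1).deriv_eq]; simp

theorem W2_div {φ : ℝ → ℂ} (h : W2_cls φ) : W2_cls (fun r => φ r * (r : ℂ)⁻¹) := by
  refine ⟨?_, ?_⟩
  · rw [contDiff_iff_contDiffAt]
    intro r
    rcases lt_or_ge r (1 / 2) with hr | hr
    · have h1 : (fun r : ℝ => φ r * (r : ℂ)⁻¹) =ᶠ[𝓝 r] fun _ => 0 := by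
        filter_upwards [W2_zero h hr] with x hx
        rw [hx, zero_mul]
      exact contDiffAt_const.congr_of_eventuallyEq h1
    · have hr0 : (r : ℂ) ≠ 0 := by
        have : r ≠ 0 := by linarith
        exact_mod_cast this
      exact h.smooth.contDiffAt.mul ((Complex.ofRealCLM.contDiff.contDiffAt).inv hr0)
  · intro x hx
    exact h.supp x (left_ne_zero_of_mul hx)

theorem W2_E_smooth (s : ℂ) {r : ℝ} (hr : 0 < r) : ContDiffAt ℝ (⊤ : ℕ∞) (W2_E s) r := by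
  unfold W2_E
  refine ContDiffAt.cexp (ContDiffAt.neg (contDiffAt_const.mul ?_))
  exact (Complex.ofRealCLM.contDiff.contDiffAt (x := Real.log r)).comp r
    (Real.contDiffAt_log.2 hr.ne')

theorem W2_E_deriv (s : ℂ) {r : ℝ} (hr : 0 < r) :
    HasDerivAt (W2_E s) (W2_E s r * (-(s * (r : ℂ)⁻¹))) r := by
  unfold W2_E
  have h1 : HasDerivAt (fun x : ℝ => ((Real.log x : ℝ) : ℂ)) (((r⁻¹ : ℝ)) : ℂ) r :=
    (Real.hasDerivAt_log hr.ne').ofReal_comp
  have h2 : HasDerivAt (fun x : ℝ => -(s * ((Real.log x : ℝ) : ℂ))) (-(s * ((r⁻¹ : ℝ) : ℂ))) r :=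
    (h1.const_mul s).fun_neg
  have h3 := h2.cexp
  rw [Complex.ofReal_inv] at h3
  exact h3

theorem W2_E_norm {s : ℂ} (hs : |s.re| ≤ 1) {r : ℝ} (h1 : 1 / 2 ≤ r) (h2 : r ≤ 2) :
    ‖W2_E s r‖ ≤ 2 := by
  unfold W2_E
  rw [Complex.norm_exp]
  have h3 : (-(s * (Real.log r : ℂ))).re = -(s.re * Real.log r) := by simp
  rw [h3]
  have hl2 : 0 < Real.log 2 := Real.log_pos one_lt_two
  have h4 : |Real.log r| ≤ Real.log 2 := by
    rw [abs_le]
    constructor
    · have := Real.log_le_log (by norm_num) h1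
      rwa [one_div, Real.log_inv] at this
    · exact Real.log_le_log (by linarith) h2
  have h5 : -(s.re * Real.log r) ≤ Real.log 2 := by
    calc -(s.re * Real.log r) ≤ |s.re * Real.log r| := neg_le_abs _
      _ = |s.re| * |Real.log r| := abs_mul _ _
      _ ≤ 1 * Real.log 2 := mul_le_mul hs h4 (abs_nonneg _) zero_le_one
      _ = Real.log 2 := one_mul _
  calc Real.exp (-(s.re * Real.log r)) ≤ Real.exp (Real.log 2) := Real.exp_le_exp.2 h5
    _ = 2 := Real.exp_log two_pos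

theorem W2_smooth {φ : ℝ → ℂ} (h : W2_cls φ) (s : ℂ) :
    ContDiff ℝ (⊤ : ℕ∞) (fun r => φ r * W2_E s r) := by
  rw [contDiff_iff_contDiffAt]
  intro r
  rcases lt_or_ge r (1 / 2) with hr | hr
  · have h1 : (fun r : ℝ => φ r * W2_E s r) =ᶠ[𝓝 r] fun _ => 0 := by
      filter_upwards [W2_zero h hr] with x hx
      rw [hx, zero_mul]
    exact contDiffAt_const.congr_of_eventuallyEq h1
  · exact h.smooth.contDiffAt.mul (W2_E_smooth s (by linarith))

theorem W2_der {φ : ℝ → ℂ} (h : W2_cls φ) (s : ℂ) :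
    deriv (fun r => φ r * W2_E s r) =
      fun r => (deriv φ r) * W2_E s r + (-s) * ((φ r * (r : ℂ)⁻¹) * W2_E s r) := by
  funext r
  rcases lt_or_ge r (1 / 2) with hr | hr
  · have h1 : (fun r : ℝ => φ r * W2_E s r) =ᶠ[𝓝 r] fun _ => 0 := by
      filter_upwards [W2_zero h hr] with x hx
      rw [hx, zero_mul]
    rw [h1.deriv_eq, (W2_zero h hr).deriv_eq, (W2_zero h hr).eq_of_nhds]
    simp
  · have h2 : HasDerivAt φ (deriv φ r) r :=
      ((h.smooth.differentiable (by simp)) r).hasDerivAt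
    rw [(h2.fun_mul (W2_E_deriv s (by linarith))).deriv]
    ring

theorem W2_main (m : ℕ) : ∀ φ : ℝ → ℂ, W2_cls φ → ∃ K : ℝ, 0 ≤ K ∧ ∀ s : ℂ, |s.re| ≤ 1 →
    ∀ x : ℝ, ‖iteratedDeriv m (fun r => φ r * W2_E s r) x‖ ≤ K * (1 + ‖s‖) ^ m := by
  induction m with
  | zero =>
    intro φ h
    obtain ⟨K, hK, hb⟩ := W2_bdd h
    refine ⟨2 * K, by positivity, fun s hs x => ?_⟩
    rw [iteratedDeriv_zero, norm_mul, pow_zero, mul_one]
    by_cases hx : φ x = 0
    · rw [hx, norm_zero, zero_mul]; positivity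
    · have h1 := W2_E_norm hs (h.supp x hx).1 (h.supp x hx).2
      calc ‖φ x‖ * ‖W2_E s x‖ ≤ K * 2 := mul_le_mul (hb x) h1 (norm_nonneg _) hK
        _ = 2 * K := by ring
  | succ m ih =>
    intro φ h
    obtain ⟨K1, hK1, hb1⟩ := ih _ (W2_deriv h)
    obtain ⟨K2, hK2, hb2⟩ := ih _ (W2_div h)
    refine ⟨K1 + K2, by positivity, fun s hs x => ?_⟩
    rw [iteratedDeriv_succ', W2_der h s]
    have hc1 : ContDiffAt ℝ m (fun r => (deriv φ r) * W2_E s r) x :=
      ((W2_smooth (W2_deriv h) s).of_le (by exact_mod_cast le_top)).contDiffAt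
    have hc2 : ContDiffAt ℝ m (fun r : ℝ => (φ r * (r : ℂ)⁻¹) * W2_E s r) x :=
      ((W2_smooth (W2_div h) s).of_le (by exact_mod_cast le_top)).contDiffAt
    have hc3 : ContDiffAt ℝ m (fun r : ℝ => (-s) * ((φ r * (r : ℂ)⁻¹) * W2_E s r)) x :=
      contDiffAt_const.mul hc2
    have e1 : iteratedDeriv m (fun r => (deriv φ r) * W2_E s r +
        (-s) * ((φ r * (r : ℂ)⁻¹) * W2_E s r)) x =
        iteratedDeriv m (fun r => (deriv φ r) * W2_E s r) x +
          (-s) * iteratedDeriv m (fun r : ℝ => (φ r * (r : ℂ)⁻¹) * W2_E s r) x := by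
      rw [← iteratedDeriv_const_mul_field]
      exact iteratedDeriv_fun_add hc1 hc3
    rw [e1]
    have hs1 : ‖s‖ ≤ 1 + ‖s‖ := by linarith
    have hs0 : 0 ≤ ‖s‖ := norm_nonneg s
    calc ‖iteratedDeriv m (fun r => (deriv φ r) * W2_E s r) x +
          (-s) * iteratedDeriv m (fun r : ℝ => (φ r * (r : ℂ)⁻¹) * W2_E s r) x‖
        ≤ ‖iteratedDeriv m (fun r => (deriv φ r) * W2_E s r) x‖ +
          ‖(-s) * iteratedDeriv m (fun r : ℝ => (φ r * (r : ℂ)⁻¹) * W2_E s r) x‖ := norm_add_le _ _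
      _ ≤ K1 * (1 + ‖s‖) ^ m + ‖s‖ * (K2 * (1 + ‖s‖) ^ m) := by
          rw [norm_mul, norm_neg]
          exact add_le_add (hb1 s hs x) (mul_le_mul_of_nonneg_left (hb2 s hs x) hs0)
      _ ≤ K1 * (1 + ‖s‖) ^ m * (1 + ‖s‖) + (1 + ‖s‖) * (K2 * (1 + ‖s‖) ^ m) := by
          refine add_le_add ?_ (mul_le_mul_of_nonneg_right hs1 (by positivity))
          exact le_mul_of_one_le_right (by positivity) (by linarith)
      _ = (K1 + K2) * (1 + ‖s‖) ^ (m + 1) := by ring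

theorem W2 (h : S_W1) : S_W2 := by
  obtain ⟨h1, h2, _, _⟩ := h
  have hcls : W2_cls (fun r : ℝ => (ww r : ℂ)) := by
    refine ⟨Complex.ofRealCLM.contDiff.comp h1, fun x hx => h2 x ?_⟩
    intro h0
    apply hx
    simp [h0]
  have heq : ∀ s : ℂ, (fun r : ℝ => (ww r : ℂ) * (r : ℂ) ^ (-s)) =
      fun r : ℝ => (ww r : ℂ) * W2_E s r := by
    intro s
    funext r
    by_cases hr : ww r = 0
    · rw [hr]; simp
    · have hr1 := (h2 r hr).1
      have hr0 : (0 : ℝ) < r := by linarith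
      have hr2 : (r : ℂ) ≠ 0 := by exact_mod_cast hr0.ne'
      unfold W2_E
      rw [Complex.cpow_def_of_ne_zero hr2, Complex.ofReal_log hr0.le]
      congr 2
      ring
  choose K hK hb using fun m : ℕ => W2_main m _ hcls
  set C : ℝ := 1 + ∑ m ∈ Finset.range 5, K m with hC
  have hC1 : 1 ≤ C := by
    have : 0 ≤ ∑ m ∈ Finset.range 5, K m := Finset.sum_nonneg fun m _ => hK m
    linarith
  have hKC : ∀ m : ℕ, m ≤ 4 → K m ≤ C := by
    intro m hm
    have : K m ≤ ∑ m ∈ Finset.range 5, K m :=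
      Finset.single_le_sum (f := K) (fun m _ => hK m) (Finset.mem_range.2 (by omega))
    linarith
  have hbd : ∀ s : ℂ, |s.re| ≤ 1 → ∀ m : ℕ, m ≤ 4 → ∀ x : ℝ,
      ‖iteratedDeriv m (fun r : ℝ => (ww r : ℂ) * W2_E s r) x‖ ≤ C * (1 + ‖s‖) ^ 4 := by
    intro s hs m hm x
    refine (hb m s hs x).trans ?_
    have hs0 : 0 ≤ ‖s‖ := norm_nonneg s
    refine mul_le_mul (hKC m hm) (pow_le_pow_right₀ (by linarith) hm) (by positivity)
      (by linarith)
  refine ⟨C, hC1, fun s hs => ⟨?_, ?_⟩⟩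
  · rw [heq]
    refine ⟨W2_smooth hcls s, ?_, hbd s hs⟩
    intro x hx
    exact hcls.supp x (left_ne_zero_of_mul hx)
  · have hc : (fun r : ℝ => (starRingEnd ℂ) ((ww r : ℂ) * (r : ℂ) ^ (-s))) =
        Complex.conjLIE ∘ (fun r : ℝ => (ww r : ℂ) * W2_E s r) := by
      rw [← heq]
      rfl
    rw [hc]
    refine ⟨Complex.conjLIE.contDiff.comp (W2_smooth hcls s), ?_, ?_⟩
    · intro x hx
      refine hcls.supp x ?_
      intro h0
      apply hx
      simp only [Function.comp_apply]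
      have h0' : (ww x : ℂ) = 0 := h0
      rw [h0', zero_mul, map_zero]
    · intro m hm x
      rw [← norm_iteratedFDeriv_eq_norm_iteratedDeriv,
        LinearIsometryEquiv.norm_iteratedFDeriv_comp_left,
        norm_iteratedFDeriv_eq_norm_iteratedDeriv]
      exact hbd s hs m hm x

end

end Pool.Agent.H408R2.CM
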