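import Pool.Agent.H408R2.CM.Stubs

set_option autoImplicit false

/-! # WIN: the windows are summed up; the cubic moment on `[0, T]`. -/

open Complex MeasureTheory Filter Topology Set

namespace Pool.Agent.H408R2.CM

open Pool.Agent.H304R4.CM

theorem WIN_ev (C p q : ℝ) (h : p < q) : ∀ᶠ T : ℝ in atTop, C * T ^ p ≤ T ^ q := by
  have h1 : Tendsto (fun T : ℝ => T ^ (q - p)) atTop atTop := tendsto_rpow_atTop (by linarith)
  filter_upwards [h1.eventually_ge_atTop C, eventually_gt_atTop 0] with T hT hT0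
  have h2 : T ^ q = T ^ (q - p) * T ^ p := by
    rw [← Real.rpow_add hT0]; congr 1; ring
  rw [h2]
  exact mul_le_mul_of_nonneg_right hT (Real.rpow_nonneg hT0.le _)

theorem WIN_exp (B c a : ℝ) (hc : 0 < c) (ha : 0 < a) :
    ∀ᶠ T : ℝ in atTop, B * (T ^ (8 : ℝ) * Real.exp (-(c * T ^ a))) ≤ 1 := by
  have h1 := (tendsto_rpow_mul_exp_neg_mul_atTop_nhds_zero (8 / a) c hc).comp
    (tendsto_rpow_atTop ha)
  have h2 := h1.const_mul B
  rw [mul_zero] at h2
  filter_upwards [h2.eventually (gt_mem_nhds one_pos), eventually_gt_atTop 0] with T hT hT0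
  have h3 : (T ^ a) ^ (8 / a) = T ^ (8 : ℝ) := by
    rw [← Real.rpow_mul hT0.le]
    congr 1
    field_simp
  simp only [Function.comp] at hT
  rw [h3] at hT
  have h4 : -c * T ^ a = -(c * T ^ a) := by ring
  rw [h4] at hT
  exact hT.le

theorem WIN_young {x μ : ℝ} (hx : 0 ≤ x) (hμ : 0 < μ) : x ^ 3 ≤ μ * x ^ 4 + (μ⁻¹) ^ 3 := by
  rcases le_total (μ⁻¹) x with h | h
  · have h1 : 1 ≤ μ * x := by
      have := mul_le_mul_of_nonneg_left h hμ.le
      rwa [mul_inv_cancel₀ hμ.ne'] at this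
    have h2 : x ^ 3 ≤ μ * x ^ 4 := by
      have h3 : 0 ≤ x ^ 3 := by positivity
      nlinarith [mul_le_mul_of_nonneg_right h1 h3]
    have h3 : 0 ≤ (μ⁻¹) ^ 3 := by positivity
    linarith
  · have h1 : x ^ 3 ≤ (μ⁻¹) ^ 3 := pow_le_pow_left₀ hx h 3
    have h2 : 0 ≤ μ * x ^ 4 := by positivity
    linarith

/-- continuity of the windows in both variables -/
theorem WIN_omc (k : ℕ) (T : ℝ) (hT : 0 < T) :
    Continuous (fun p : ℝ × ℝ => om k (k / max p.1 T) p.2) := by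
  unfold om
  have h1 : Continuous (fun p : ℝ × ℝ => (k : ℝ) / max p.1 T) := by
    apply Continuous.div continuous_const (continuous_fst.max continuous_const)
    intro p
    exact (lt_of_lt_of_le hT (le_max_right _ _)).ne'
  fun_prop

theorem WIN_Om_eq (k : ℕ) (T : ℝ) (hT : 0 < T) (t : ℝ) :
    Om k T t = ∫ x in T..(2 * T), om k (k / max x T) t := by
  unfold Om
  apply intervalIntegral.integral_congr
  intro x hx
  rw [uIcc_of_le (by linarith)] at hx
  simp only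
  rw [max_eq_left hx.1]

theorem WIN_Om_cont (k : ℕ) (T : ℝ) (hT : 0 < T) : Continuous (Om k T) := by
  have h1 : Om k T = fun t => ∫ x in T..(2 * T), om k (k / max x T) t :=
    funext (WIN_Om_eq k T hT)
  rw [h1]
  apply intervalIntegral.continuous_parametric_intervalIntegral_of_continuous'
  exact (WIN_omc k T hT).comp continuous_swap

theorem WIN_fub (k : ℕ) (T : ℝ) (hT : 0 < T) (F : ℝ → ℝ) (hF : Continuous F) :
    ∫ x in T..(2 * T), (∫ t in (0 : ℝ)..(4 * T), om k (k / x) t * F t) =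
      ∫ t in (0 : ℝ)..(4 * T), Om k T t * F t := by
  have h1 : ∫ x in T..(2 * T), (∫ t in (0 : ℝ)..(4 * T), om k (k / x) t * F t) =
      ∫ x in T..(2 * T), (∫ t in (0 : ℝ)..(4 * T), om k (k / max x T) t * F t) := by
    apply intervalIntegral.integral_congr
    intro x hx
    rw [uIcc_of_le (by linarith)] at hx
    simp only
    rw [max_eq_left hx.1]
  have hc : Continuous (Function.uncurry fun x t : ℝ => om k (k / max x T) t * F t) :=
    (WIN_omc k T hT).mul (hF.comp continuous_snd)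
  rw [h1, intervalIntegral_intervalIntegral_swap]
  · apply intervalIntegral.integral_congr
    intro t _
    simp only
    rw [intervalIntegral.integral_mul_const, ← WIN_Om_eq k T hT]
  · have h2 : IntegrableOn (Function.uncurry fun x t : ℝ => om k (k / max x T) t * F t)
        (uIcc T (2 * T) ×ˢ uIcc 0 (4 * T)) :=
      hc.continuousOn.integrableOn_compact (isCompact_uIcc.prod isCompact_uIcc)
    exact h2.mono_set (prod_mono uIoc_subset_uIcc uIoc_subset_uIcc)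

/-- comparison of a sharp and a smooth window -/
theorem WIN_diff (T ρ E0 B : ℝ) (hT : 0 < T) (hρ : 0 < ρ) (hρ' : ρ ≤ 1 / 4) (W F : ℝ → ℝ)
    (hW : Continuous W) (hF : Continuous F) (hE0 : 0 ≤ E0)
    (h01 : ∀ t, 0 < t → 0 ≤ W t ∧ W t ≤ 1)
    (hlow : ∀ t, 0 < t → (t ≤ (1 - ρ) * T ∨ 2 * (1 + ρ) * T ≤ t) → W t ≤ E0)
    (hmid : ∀ t, 0 < t → (1 + ρ) * T ≤ t → t ≤ 2 * (1 - ρ) * T → 1 - W t ≤ E0)
    (hB : ∀ t, 0 ≤ t → t ≤ 4 * T → |F t| ≤ B) :
    |(∫ t in T..(2 * T), F t) - ∫ t in (0 : ℝ)..(4 * T), W t * F t| ≤ 4 * T * (E0 * B) +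
      2 * (∫ t in ((1 - ρ) * T)..((1 + ρ) * T), |F t|) +
      2 * (∫ t in (2 * (1 - ρ) * T)..(2 * (1 + ρ) * T), |F t|) := by
  have hB0 : 0 ≤ B := (abs_nonneg _).trans (hB 0 le_rfl (by linarith))
  set p1 := (1 - ρ) * T with hp1
  set p2 := (1 + ρ) * T with hp2
  set p3 := 2 * (1 - ρ) * T with hp3
  set p4 := 2 * (1 + ρ) * T with hp4
  have hρT : 0 < ρ * T := mul_pos hρ hT
  have hρT' : ρ * T ≤ T / 4 := by nlinarith
  have e1 : p1 = T - ρ * T := by rw [hp1]; ring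
  have e2 : p2 = T + ρ * T := by rw [hp2]; ring
  have e3 : p3 = 2 * T - 2 * (ρ * T) := by rw [hp3]; ring
  have e4 : p4 = 2 * T + 2 * (ρ * T) := by rw [hp4]; ring
  have hWF : Continuous fun t => W t * F t := hW.mul hF
  have hi : ∀ (g : ℝ → ℝ), Continuous g → ∀ a b, IntervalIntegrable g volume a b :=
    fun g hg a b => hg.intervalIntegrable a b
  have hFa : Continuous fun t => |F t| := hF.abs
  -- splitting
  have s1 : ∫ t in T..(2 * T), F t = (∫ t in T..p2, F t) + (∫ t in p2..p3, F t) +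
      ∫ t in p3..(2 * T), F t := by
    rw [intervalIntegral.integral_add_adjacent_intervals (hi F hF _ _) (hi F hF _ _),
      intervalIntegral.integral_add_adjacent_intervals (hi F hF _ _) (hi F hF _ _)]
  have s2 : ∫ t in (0 : ℝ)..(4 * T), W t * F t = (∫ t in (0 : ℝ)..p1, W t * F t) +
      (∫ t in p1..p2, W t * F t) + (∫ t in p2..p3, W t * F t) + (∫ t in p3..p4, W t * F t) +
      ∫ t in p4..(4 * T), W t * F t := by
    rw [intervalIntegral.integral_add_adjacent_intervals (hi _ hWF _ _) (hi _ hWF _ _),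
      intervalIntegral.integral_add_adjacent_intervals (hi _ hWF _ _) (hi _ hWF _ _),
      intervalIntegral.integral_add_adjacent_intervals (hi _ hWF _ _) (hi _ hWF _ _),
      intervalIntegral.integral_add_adjacent_intervals (hi _ hWF _ _) (hi _ hWF _ _)]
  have s3 : (∫ t in p2..p3, F t) - ∫ t in p2..p3, W t * F t = ∫ t in p2..p3, (1 - W t) * F t := by
    rw [← intervalIntegral.integral_sub (hi F hF _ _) (hi _ hWF _ _)]
    apply intervalIntegral.integral_congr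
    intro t _
    simp only
    ring
  -- bounds of the pieces
  have b1 : |∫ t in (0 : ℝ)..p1, W t * F t| ≤ E0 * B * p1 := by
    have := intervalIntegral.norm_integral_le_of_norm_le_const (a := 0) (b := p1)
      (f := fun t => W t * F t) (C := E0 * B) (by
        intro t ht
        rw [uIoc_of_le (by linarith)] at ht
        rw [Real.norm_eq_abs, abs_mul, abs_of_nonneg (h01 t ht.1).1]
        exact mul_le_mul (hlow t ht.1 (Or.inl ht.2)) (hB t ht.1.le (by linarith [ht.2]))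
          (abs_nonneg _) hE0)
    rwa [sub_zero, abs_of_pos (by linarith : 0 < p1), Real.norm_eq_abs] at this
  have b5 : |∫ t in p4..(4 * T), W t * F t| ≤ E0 * B * (4 * T - p4) := by
    have := intervalIntegral.norm_integral_le_of_norm_le_const (a := p4) (b := 4 * T)
      (f := fun t => W t * F t) (C := E0 * B) (by
        intro t ht
        rw [uIoc_of_le (by linarith)] at ht
        have ht0 : 0 < t := by linarith [ht.1]
        rw [Real.norm_eq_abs, abs_mul, abs_of_nonneg (h01 t ht0).1]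
        exact mul_le_mul (hlow t ht0 (Or.inr ht.1.le)) (hB t ht0.le ht.2)
          (abs_nonneg _) hE0)
    rwa [abs_of_nonneg (by linarith : 0 ≤ 4 * T - p4), Real.norm_eq_abs] at this
  have b3 : |∫ t in p2..p3, (1 - W t) * F t| ≤ E0 * B * (p3 - p2) := by
    have := intervalIntegral.norm_integral_le_of_norm_le_const (a := p2) (b := p3)
      (f := fun t => (1 - W t) * F t) (C := E0 * B) (by
        intro t ht
        rw [uIoc_of_le (by linarith)] at ht
        have ht0 : 0 < t := by linarith [ht.1]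
        rw [Real.norm_eq_abs, abs_mul, abs_of_nonneg (by linarith [(h01 t ht0).2])]
        exact mul_le_mul (hmid t ht0 ht.1.le ht.2) (hB t ht0.le (by linarith [ht.2]))
          (abs_nonneg _) hE0)
    rwa [abs_of_nonneg (by linarith : 0 ≤ p3 - p2), Real.norm_eq_abs] at this
  have bz : ∀ a b : ℝ, 0 < a → a ≤ b → |∫ t in a..b, W t * F t| ≤ ∫ t in a..b, |F t| := by
    intro a b ha hab
    have h1 := intervalIntegral.abs_integral_le_integral_abs (f := fun t => W t * F t)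
      (μ := volume) hab
    refine h1.trans (intervalIntegral.integral_mono_on hab (hi _ hWF.abs _ _) (hi _ hFa _ _) ?_)
    intro t ht
    have ht0 : 0 < t := by linarith [ht.1]
    rw [abs_mul, abs_of_nonneg (h01 t ht0).1]
    have := (h01 t ht0).2
    nlinarith [abs_nonneg (F t)]
  have bf : ∀ a b : ℝ, a ≤ b → |∫ t in a..b, F t| ≤ ∫ t in a..b, |F t| := by
    intro a b hab
    exact intervalIntegral.abs_integral_le_integral_abs hab
  have bn : ∀ a b : ℝ, a ≤ b → 0 ≤ ∫ t in a..b, |F t| := by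
    intro a b hab
    exact intervalIntegral.integral_nonneg hab (fun t _ => abs_nonneg _)
  have c1 : ∫ t in p1..p2, |F t| = (∫ t in p1..T, |F t|) + ∫ t in T..p2, |F t| :=
    (intervalIntegral.integral_add_adjacent_intervals (hi _ hFa _ _) (hi _ hFa _ _)).symm
  have c2 : ∫ t in p3..p4, |F t| = (∫ t in p3..(2 * T), |F t|) + ∫ t in (2 * T)..p4, |F t| :=
    (intervalIntegral.integral_add_adjacent_intervals (hi _ hFa _ _) (hi _ hFa _ _)).symm
  have d1 := bz p1 p2 (by linarith) (by linarith)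
  have d2 := bz p3 p4 (by linarith) (by linarith)
  have d3 := bf T p2 (by linarith)
  have d4 := bf p3 (2 * T) (by linarith)
  have n1 := bn p1 T (by linarith)
  have n2 := bn (2 * T) p4 (by linarith)
  have key : (∫ t in T..(2 * T), F t) - ∫ t in (0 : ℝ)..(4 * T), W t * F t =
      -(∫ t in (0 : ℝ)..p1, W t * F t) + ((∫ t in T..p2, F t) - ∫ t in p1..p2, W t * F t) +
      (∫ t in p2..p3, (1 - W t) * F t) + ((∫ t in p3..(2 * T), F t) - ∫ t in p3..p4, W t * F t) -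
      ∫ t in p4..(4 * T), W t * F t := by
    rw [s1, s2, ← s3]; ring
  have hEB : 0 ≤ E0 * B := mul_nonneg hE0 hB0
  have hlen : E0 * B * p1 + E0 * B * (p3 - p2) + E0 * B * (4 * T - p4) ≤ 4 * T * (E0 * B) := by
    nlinarith
  rw [key]
  rw [abs_le] at b1 b3 b5 d1 d2 d3 d4 ⊢
  constructor <;> linarith [b1.1, b1.2, b3.1, b3.2, b5.1, b5.2, d1.1, d1.2, d2.1, d2.2, d3.1,
    d3.2, d4.1, d4.2]

/-- the sum over dyadic blocks -/
theorem WIN_dyadic (F : ℝ → ℝ) (hF : Continuous F) (c0 T1 : ℝ) (hc0 : 1 / 2 ≤ c0) (hT1 : 1 ≤ T1)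
    (hblk : ∀ T, T1 ≤ T → |∫ t in T..(2 * T), F t| ≤ T ^ c0) :
    ∃ C : ℝ, ∀ T : ℝ, 1 ≤ T → |∫ t in (0 : ℝ)..T, F t| ≤ C * T ^ c0 := by
  set M := ∫ t in (0 : ℝ)..(2 * T1), |F t| with hM
  have hFa : Continuous fun t => |F t| := hF.abs
  have hM0 : 0 ≤ M := intervalIntegral.integral_nonneg (by linarith) (fun t _ => abs_nonneg _)
  have h2c : (7 / 5 : ℝ) ≤ 2 ^ c0 := by
    have h1 : (2 : ℝ) ^ (1 / 2 : ℝ) ≤ 2 ^ c0 :=
      Real.rpow_le_rpow_of_exponent_le (by norm_num) hc0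
    have h2 : (7 / 5 : ℝ) ≤ 2 ^ (1 / 2 : ℝ) := by
      rw [← Real.sqrt_eq_rpow]
      apply Real.le_sqrt_of_sq_le
      norm_num
    linarith
  have key : ∀ n : ℕ, ∀ T : ℝ, 0 ≤ T → T ≤ 2 ^ n * (2 * T1) →
      |∫ t in (0 : ℝ)..T, F t| ≤ M + 3 * T ^ c0 := by
    intro n
    induction n with
    | zero =>
      intro T hT0 hT
      rw [pow_zero, one_mul] at hT
      have h1 : |∫ t in (0 : ℝ)..T, F t| ≤ ∫ t in (0 : ℝ)..T, |F t| :=
        intervalIntegral.abs_integral_le_integral_abs hT0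
      have h2 : ∫ t in (0 : ℝ)..T, |F t| ≤ M := by
        rw [hM, ← intervalIntegral.integral_add_adjacent_intervals (hFa.intervalIntegrable 0 T)
          (hFa.intervalIntegrable T (2 * T1))]
        have := intervalIntegral.integral_nonneg (f := fun t => |F t|) (μ := volume) hT
          (fun t _ => abs_nonneg _)
        linarith
      have h3 : 0 ≤ T ^ c0 := Real.rpow_nonneg hT0 _
      linarith
    | succ n ih =>
      intro T hT0 hT
      by_cases hsm : T ≤ 2 * T1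
      · have h1 : |∫ t in (0 : ℝ)..T, F t| ≤ ∫ t in (0 : ℝ)..T, |F t| :=
          intervalIntegral.abs_integral_le_integral_abs hT0
        have h2 : ∫ t in (0 : ℝ)..T, |F t| ≤ M := by
          rw [hM, ← intervalIntegral.integral_add_adjacent_intervals (hFa.intervalIntegrable 0 T)
            (hFa.intervalIntegrable T (2 * T1))]
          have := intervalIntegral.integral_nonneg (f := fun t => |F t|) (μ := volume) hsm
            (fun t _ => abs_nonneg _)
          linarith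
        have h3 : 0 ≤ T ^ c0 := Real.rpow_nonneg hT0 _
        linarith
      · push Not at hsm
        have h1 := ih (T / 2) (by linarith) (by rw [pow_succ] at hT; linarith)
        have h2 := hblk (T / 2) (by linarith)
        have h3 : 2 * (T / 2) = T := by ring
        rw [h3] at h2
        have h4 : ∫ t in (0 : ℝ)..T, F t = (∫ t in (0 : ℝ)..(T / 2), F t) +
            ∫ t in (T / 2)..T, F t :=
          (intervalIntegral.integral_add_adjacent_intervals (hF.intervalIntegrable _ _)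
            (hF.intervalIntegrable _ _)).symm
        have h5 : T ^ c0 = 2 ^ c0 * (T / 2) ^ c0 := by
          rw [← Real.mul_rpow (by norm_num) (by linarith)]
          congr 1; ring
        have h6 : 0 ≤ (T / 2) ^ c0 := Real.rpow_nonneg (by linarith) _
        rw [h4]
        have h7 := abs_add_le (∫ t in (0 : ℝ)..(T / 2), F t) (∫ t in (T / 2)..T, F t)
        rw [h5]
        nlinarith
  refine ⟨M + 3, fun T hT => ?_⟩
  obtain ⟨n, hn⟩ := pow_unbounded_of_one_lt T (by norm_num : (1 : ℝ) < 2)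
  have h1 := key n T (by linarith) (by
    have h2 : (2 : ℝ) ^ n ≤ 2 ^ n * (2 * T1) := by
      have h3 : (0 : ℝ) < 2 ^ n := by positivity
      nlinarith
    linarith)
  have h2 : 1 ≤ T ^ c0 := Real.one_le_rpow hT (by linarith)
  nlinarith

/-- the fourth moment over `[T/2, 4T]` -/
theorem WIN_M4 (h2 : S_M4) (hZ : S_Z) (ε : ℝ) (hε : 0 < ε) (hε' : ε ≤ 1) :
    ∃ C : ℝ, 0 < C ∧ ∀ T : ℝ, 2 ≤ T →
      ∫ t in (T / 2)..(4 * T), ‖zc t‖ ^ 4 ≤ C * T ^ (1 + ε) := by
  obtain ⟨C, hC, h⟩ := h2 ε hε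
  refine ⟨6 * C, by positivity, fun T hT => ?_⟩
  have hz : Continuous fun t => ‖zc t‖ ^ 4 := hZ.2.2.2.2.norm.pow 4
  have a1 := h (T / 2) (by linarith)
  have a2 := h T (by linarith)
  have a3 := h (2 * T) (by linarith)
  have e1 : 2 * (T / 2) = T := by ring
  have e2 : 2 * (2 * T) = 4 * T := by ring
  rw [e1] at a1
  rw [e2] at a3
  have hs : ∫ t in (T / 2)..(4 * T), ‖zc t‖ ^ 4 = (∫ t in (T / 2)..T, ‖zc t‖ ^ 4) +
      (∫ t in T..(2 * T), ‖zc t‖ ^ 4) + ∫ t in (2 * T)..(4 * T), ‖zc t‖ ^ 4 := by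
    rw [intervalIntegral.integral_add_adjacent_intervals (hz.intervalIntegrable _ _)
      (hz.intervalIntegrable _ _),
      intervalIntegral.integral_add_adjacent_intervals (hz.intervalIntegrable _ _)
      (hz.intervalIntegrable _ _)]
  have b1 : (T / 2) ^ (1 + ε) ≤ T ^ (1 + ε) :=
    Real.rpow_le_rpow (by linarith) (by linarith) (by linarith)
  have b3 : (2 * T) ^ (1 + ε) ≤ 4 * T ^ (1 + ε) := by
    rw [Real.mul_rpow (by norm_num) (by linarith)]
    have : (2 : ℝ) ^ (1 + ε) ≤ 2 ^ (2 : ℝ) :=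
      Real.rpow_le_rpow_of_exponent_le (by norm_num) (by linarith)
    have h4 : (2 : ℝ) ^ (2 : ℝ) = 4 := by norm_num
    rw [h4] at this
    exact mul_le_mul_of_nonneg_right this (Real.rpow_nonneg (by linarith) _)
  have c1 := mul_le_mul_of_nonneg_left b1 hC.le
  have c3 := mul_le_mul_of_nonneg_left b3 hC.le
  rw [hs]
  linarith

/-- third moment over a subinterval -/
theorem WIN_third (hZ : S_Z) (T a b μ : ℝ) (hab : a ≤ b) (ha : T / 2 ≤ a) (hb : b ≤ 4 * T)
    (hμ : 0 < μ) :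
    ∫ t in a..b, ‖zc t‖ ^ 3 ≤ μ * (∫ t in (T / 2)..(4 * T), ‖zc t‖ ^ 4) +
      (μ⁻¹) ^ 3 * (b - a) := by
  have hz4 : Continuous fun t => ‖zc t‖ ^ 4 := hZ.2.2.2.2.norm.pow 4
  have hz3 : Continuous fun t => ‖zc t‖ ^ 3 := hZ.2.2.2.2.norm.pow 3
  have h1 : ∫ t in a..b, ‖zc t‖ ^ 3 ≤ ∫ t in a..b, (μ * ‖zc t‖ ^ 4 + (μ⁻¹) ^ 3) := by
    apply intervalIntegral.integral_mono_on hab (hz3.intervalIntegrable _ _)
      (((continuous_const.mul hz4).add continuous_const).intervalIntegrable _ _)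
    intro t _
    exact WIN_young (norm_nonneg _) hμ
  have h0 : Continuous fun t => μ * ‖zc t‖ ^ 4 := continuous_const.mul hz4
  rw [intervalIntegral.integral_add (h0.intervalIntegrable _ _)
    (continuous_const.intervalIntegrable _ _), intervalIntegral.integral_const_mul,
    intervalIntegral.integral_const, smul_eq_mul] at h1
  have h2 : ∫ t in a..b, ‖zc t‖ ^ 4 ≤ ∫ t in (T / 2)..(4 * T), ‖zc t‖ ^ 4 := by
    apply intervalIntegral.integral_mono_interval ha hab hb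
    · exact Filter.Eventually.of_forall (fun t => by positivity)
    · exact hz4.intervalIntegrable _ _
  have h3 := mul_le_mul_of_nonneg_left h2 hμ.le
  linarith

theorem WIN_om_nonneg (k : ℕ) (δ t : ℝ) (hδ : 0 < δ) (ht : 0 ≤ t) : 0 ≤ om k δ t := by
  unfold om
  positivity

/-- the window applied to the cube over `(0, 4T]` -/
theorem WIN_J (F : ℝ → ℝ) (hF : Continuous F) (A : ℝ) (hA : 0 < A)
    (hFb : ∀ t, |F t| ≤ A * (1 + |t|) ^ 6) (k : ℕ) (T x j τ : ℝ) (hT : 0 < T) (hx : 0 < x)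
    (hk : 1 ≤ k)
    (hint : IntegrableOn (fun t => om k (k / x) t * (1 + t) ^ 6) (Set.Ioi 0))
    (htail : (∫ t in Set.Ioi (4 * T), om k (k / x) t * (1 + t) ^ 6) ≤ τ)
    (hJ : |∫ t in Set.Ioi (0 : ℝ), om k (k / x) t * F t| ≤ j) :
    |∫ t in (0 : ℝ)..(4 * T), om k (k / x) t * F t| ≤ j + A * τ := by
  have hδ : 0 < (k : ℝ) / x := by
    have : (0 : ℝ) < k := by exact_mod_cast hk
    positivity
  have hc : Continuous fun t => om k (k / x) t * F t := by
    refine Continuous.mul ?_ hF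
    unfold om
    fun_prop
  have hbd : ∀ t ∈ Set.Ioi (0 : ℝ), ‖om k (k / x) t * F t‖ ≤
      A * (om k (k / x) t * (1 + t) ^ 6) := by
    intro t ht
    have h0 := WIN_om_nonneg k (k / x) t hδ (le_of_lt ht)
    have h1 := hFb t
    rw [abs_of_pos (show (0 : ℝ) < t from ht)] at h1
    rw [Real.norm_eq_abs, abs_mul, abs_of_nonneg h0]
    calc om k (k / x) t * |F t| ≤ om k (k / x) t * (A * (1 + t) ^ 6) :=
          mul_le_mul_of_nonneg_left h1 h0
      _ = A * (om k (k / x) t * (1 + t) ^ 6) := by ring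
  have hI : IntegrableOn (fun t => om k (k / x) t * F t) (Set.Ioi 0) := by
    apply Integrable.mono' (hint.const_mul A) hc.aestronglyMeasurable
    exact (ae_restrict_iff' measurableSet_Ioi).mpr (Filter.Eventually.of_forall hbd)
  have h1 := intervalIntegral.integral_Ioi_sub_Ioi hI (by linarith : (0 : ℝ) ≤ 4 * T)
  have hsub : Set.Ioi (4 * T) ⊆ Set.Ioi (0 : ℝ) := Set.Ioi_subset_Ioi (by linarith)
  have h2 : |∫ t in Set.Ioi (4 * T), om k (k / x) t * F t| ≤ A * τ := by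
    calc |∫ t in Set.Ioi (4 * T), om k (k / x) t * F t|
        ≤ ∫ t in Set.Ioi (4 * T), A * (om k (k / x) t * (1 + t) ^ 6) := by
          rw [← Real.norm_eq_abs]
          apply norm_integral_le_of_norm_le ((hint.mono_set hsub).const_mul A)
          exact (ae_restrict_iff' measurableSet_Ioi).mpr
            (Filter.Eventually.of_forall (fun t ht => hbd t (hsub ht)))
      _ = A * ∫ t in Set.Ioi (4 * T), om k (k / x) t * (1 + t) ^ 6 := integral_const_mul _ _
      _ ≤ A * τ := mul_le_mul_of_nonneg_left htail hA.le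
  rw [← h1]
  exact (abs_sub _ _).trans (add_le_add hJ h2)

/-- the cubic moment over a dyadic block -/
theorem WIN_block (h1 : S_JB) (h2 : S_M4) (h3 : S_OM) (h4 : S_OT) (hz : S_Z) (h5 : S_GZ) :
    ∀ᶠ T : ℝ in atTop, |∫ t in T..(2 * T), hZ t ^ 3| ≤ T ^ (1 - 1 / 64000000 : ℝ) := by
  obtain ⟨TJ, hJ⟩ := h1
  obtain ⟨CM, hCM, hM4⟩ := WIN_M4 h2 hz (1 / 32000000) (by norm_num) (by norm_num)
  obtain ⟨c, hc, hOM⟩ := h3
  obtain ⟨hOT1, hOT2, TO, hOT3⟩ := h4
  obtain ⟨CZ, hCZ, hGZ⟩ := h5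
  have hF : Continuous fun t => hZ t ^ 3 := hz.2.2.1.pow 3
  have hFabs : ∀ t, |hZ t ^ 3| = ‖zc t‖ ^ 3 := by
    intro t
    rw [abs_pow, hz.2.1 t]
  have hFb : ∀ t, |hZ t ^ 3| ≤ CZ ^ 3 * (1 + |t|) ^ 6 := by
    intro t
    rw [hFabs]
    have := pow_le_pow_left₀ (norm_nonneg _) (hGZ t) 3
    calc ‖zc t‖ ^ 3 ≤ (CZ * (1 + |t|) ^ 2) ^ 3 := this
      _ = CZ ^ 3 * (1 + |t|) ^ 6 := by ring
  have hA : 0 < CZ ^ 3 := by positivity
  filter_upwards [eventually_ge_atTop TJ, eventually_ge_atTop TO, eventually_ge_atTop 2,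
    WIN_ev 2 (1 / 1000000) (1 / 100) (by norm_num),
    WIN_ev 4 0 (1 / 4000000) (by norm_num),
    WIN_ev 6 (1 - 1 / 50000) (1 - 1 / 64000000) (by norm_num),
    WIN_ev (6 * CZ ^ 3) (-9) (1 - 1 / 64000000) (by norm_num),
    WIN_exp (4 * 5 ^ 6 * CZ ^ 3 / c) c (1 / 2000000) hc (by norm_num),
    WIN_ev (6 * (4 * CM + 12)) (1 - 1 / 32000000) (1 - 1 / 64000000) (by norm_num),
    WIN_ev 6 0 (1 - 1 / 64000000) (by norm_num)]
    with T hTJ hTO hT2 e1 e2 e3 e4 e5 e6 e7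
  have hT0 : 0 < T := by linarith
  -- the order of the window
  set k : ℕ := ⌈T ^ (1 / 1000000 : ℝ)⌉₊ with hk
  have hTa1 : 1 ≤ T ^ (1 / 1000000 : ℝ) := Real.one_le_rpow (by linarith) (by norm_num)
  have hk1 : T ^ (1 / 1000000 : ℝ) ≤ k := Nat.le_ceil _
  have hk2 : (k : ℝ) ≤ 2 * T ^ (1 / 1000000 : ℝ) := by
    have := Nat.ceil_lt_add_one (by linarith : 0 ≤ T ^ (1 / 1000000 : ℝ))
    rw [← hk] at this
    linarith
  have hk3 : (k : ℝ) ≤ T ^ (1 / 100 : ℝ) := hk2.trans e1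
  have hk0 : 1 ≤ k := by
    have : (1 : ℝ) ≤ k := hTa1.trans hk1
    exact_mod_cast this
  -- the zone
  set ρ : ℝ := T ^ (-(1 / 4000000) : ℝ) with hρ
  have hρ0 : 0 < ρ := Real.rpow_pos_of_pos hT0 _
  have hρ4 : ρ ≤ 1 / 4 := by
    rw [Real.rpow_zero, mul_one] at e2
    rw [hρ, Real.rpow_neg hT0.le, ← one_div]
    exact one_div_le_one_div_of_le (by norm_num) e2
  set μ : ℝ := T ^ (-(1 / 16000000) : ℝ) with hμ
  have hμ0 : 0 < μ := Real.rpow_pos_of_pos hT0 _
  have hkρ : T ^ (1 / 2000000 : ℝ) ≤ k * ρ ^ 2 := by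
    have h1 : ρ ^ 2 = T ^ (-(1 / 2000000) : ℝ) := by
      rw [hρ, ← Real.rpow_natCast, ← Real.rpow_mul hT0.le]
      congr 1
      norm_num
    have h2 : T ^ (1 / 2000000 : ℝ) = T ^ (1 / 1000000 : ℝ) * T ^ (-(1 / 2000000) : ℝ) := by
      rw [← Real.rpow_add hT0]
      congr 1
      norm_num
    rw [h1, h2]
    exact mul_le_mul_of_nonneg_right hk1 (Real.rpow_nonneg hT0.le _)
  set E0 : ℝ := (1 / c) * Real.exp (-(c * T ^ (1 / 2000000 : ℝ))) with hE0
  have hE0' : 0 ≤ E0 := by positivity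
  have hEk : (1 / c) * Real.exp (-(c * k * ρ ^ 2)) ≤ E0 := by
    rw [hE0]
    apply mul_le_mul_of_nonneg_left _ (by positivity)
    apply Real.exp_le_exp.mpr
    have := mul_le_mul_of_nonneg_left hkρ hc.le
    have h2 : c * k * ρ ^ 2 = c * (k * ρ ^ 2) := by ring
    rw [h2]
    linarith
  -- the windowed integral
  have hWF : |∫ t in (0 : ℝ)..(4 * T), Om k T t * hZ t ^ 3| ≤
      (T ^ (-(1 / 50000) : ℝ) + CZ ^ 3 * T ^ (-10 : ℝ)) * T := by
    rw [← WIN_fub k T hT0 (fun t => hZ t ^ 3) hF]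
    have h6 := intervalIntegral.norm_integral_le_of_norm_le_const (a := T) (b := 2 * T)
      (f := fun x => ∫ t in (0 : ℝ)..(4 * T), om k (k / x) t * hZ t ^ 3)
      (C := T ^ (-(1 / 50000) : ℝ) + CZ ^ 3 * T ^ (-10 : ℝ)) (by
        intro x hx
        rw [uIoc_of_le (by linarith)] at hx
        rw [Real.norm_eq_abs]
        have hx0 : 0 < x := by linarith [hx.1]
        have hδ : 0 < (k : ℝ) / x := by
          have : (0 : ℝ) < k := by exact_mod_cast hk0
          positivity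
        exact WIN_J (fun t => hZ t ^ 3) hF (CZ ^ 3) hA hFb k T x _ _ hT0 hx0 hk0
          (hOT2 k (k / x) hδ) (hOT3 T hTO k hk1 hk3 x hx.1.le hx.2).2
          (hJ T hTJ k hk1 hk2 x hx.1.le hx.2))
    have h7 : |2 * T - T| = T := by
      rw [abs_of_pos (by linarith)]; ring
    rw [h7, Real.norm_eq_abs] at h6
    exact h6
  -- comparison
  have hB : ∀ t, 0 ≤ t → t ≤ 4 * T → |hZ t ^ 3| ≤ CZ ^ 3 * (5 * T) ^ 6 := by
    intro t ht0 ht
    refine (hFb t).trans (mul_le_mul_of_nonneg_left ?_ hA.le)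
    rw [abs_of_nonneg ht0]
    exact pow_le_pow_left₀ (by linarith) (by linarith) 6
  have hdiff := WIN_diff T ρ E0 (CZ ^ 3 * (5 * T) ^ 6) hT0 hρ0 hρ4 (Om k T)
    (fun t => hZ t ^ 3) (WIN_Om_cont k T hT0) hF hE0'
    (fun t ht => (hOM k T ρ t hk0 hT0 hρ0 (by linarith) ht).1)
    (fun t ht h => ((hOM k T ρ t hk0 hT0 hρ0 (by linarith) ht).2.1 h).trans hEk)
    (fun t ht h h' => ((hOM k T ρ t hk0 hT0 hρ0 (by linarith) ht).2.2.2 h h').trans hEk)
    hB
  -- the zones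
  have hM := hM4 T hT2
  have hz1 := WIN_third hz T ((1 - ρ) * T) ((1 + ρ) * T) μ (by nlinarith) (by nlinarith)
    (by nlinarith) hμ0
  have hz2 := WIN_third hz T (2 * (1 - ρ) * T) (2 * (1 + ρ) * T) μ (by nlinarith) (by nlinarith)
    (by nlinarith) hμ0
  have hc1 : ∫ t in ((1 - ρ) * T)..((1 + ρ) * T), |hZ t ^ 3| =
      ∫ t in ((1 - ρ) * T)..((1 + ρ) * T), ‖zc t‖ ^ 3 :=
    intervalIntegral.integral_congr (fun t _ => hFabs t)
  have hc2 : ∫ t in (2 * (1 - ρ) * T)..(2 * (1 + ρ) * T), |hZ t ^ 3| =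
      ∫ t in (2 * (1 - ρ) * T)..(2 * (1 + ρ) * T), ‖zc t‖ ^ 3 :=
    intervalIntegral.integral_congr (fun t _ => hFabs t)
  have hμM : μ * (∫ t in (T / 2)..(4 * T), ‖zc t‖ ^ 4) ≤ CM * T ^ (1 - 1 / 32000000 : ℝ) := by
    have h6 : μ * (CM * T ^ (1 + 1 / 32000000 : ℝ)) = CM * T ^ (1 - 1 / 32000000 : ℝ) := by
      rw [hμ]
      have : T ^ (1 - 1 / 32000000 : ℝ) = T ^ (-(1 / 16000000) : ℝ) * T ^ (1 + 1 / 32000000 : ℝ) := by
        rw [← Real.rpow_add hT0]
        congr 1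
        norm_num
      rw [this]; ring
    rw [← h6]
    exact mul_le_mul_of_nonneg_left hM hμ0.le
  have hμρ : (μ⁻¹) ^ 3 * (ρ * T) ≤ T ^ (1 - 1 / 32000000 : ℝ) := by
    have h6 : (μ⁻¹) ^ 3 = T ^ (3 / 16000000 : ℝ) := by
      rw [hμ, ← Real.rpow_neg hT0.le, ← Real.rpow_natCast, ← Real.rpow_mul hT0.le]
      congr 1
      norm_num
    have h7 : ρ * T = T ^ (1 - 1 / 4000000 : ℝ) := by
      rw [hρ]
      nth_rewrite 2 [← Real.rpow_one T]
      rw [← Real.rpow_add hT0]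
      congr 1
      norm_num
    rw [h6, h7, ← Real.rpow_add hT0]
    apply Real.rpow_le_rpow_of_exponent_le (by linarith)
    norm_num
  -- the sizes
  have f1 : (T ^ (-(1 / 50000) : ℝ) + CZ ^ 3 * T ^ (-10 : ℝ)) * T =
      T ^ (1 - 1 / 50000 : ℝ) + CZ ^ 3 * T ^ (-9 : ℝ) := by
    have h6 : T ^ (1 - 1 / 50000 : ℝ) = T ^ (-(1 / 50000) : ℝ) * T := by
      nth_rewrite 3 [← Real.rpow_one T]
      rw [← Real.rpow_add hT0]
      congr 1
      norm_num
    have h7 : T ^ (-9 : ℝ) = T ^ (-10 : ℝ) * T := by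
      nth_rewrite 3 [← Real.rpow_one T]
      rw [← Real.rpow_add hT0]
      congr 1
      norm_num
    rw [h6, h7]; ring
  have f2 : 4 * T * (E0 * (CZ ^ 3 * (5 * T) ^ 6)) ≤ 1 := by
    have h6 : T ^ (8 : ℝ) = T ^ 8 := by
      rw [← Real.rpow_natCast]; norm_num
    rw [h6] at e5
    have h7 : 4 * T * (E0 * (CZ ^ 3 * (5 * T) ^ 6)) =
        4 * 5 ^ 6 * CZ ^ 3 / c * (T ^ 7 * Real.exp (-(c * T ^ (1 / 2000000 : ℝ)))) := by
      rw [hE0]; ring
    rw [h7]
    refine le_trans (mul_le_mul_of_nonneg_left ?_ (by positivity)) e5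
    apply mul_le_mul_of_nonneg_right _ (Real.exp_pos _).le
    exact pow_le_pow_right₀ (by linarith) (by norm_num)
  rw [hc1, hc2] at hdiff
  rw [f1] at hWF
  rw [Real.rpow_zero, mul_one] at e7
  have g1 : (1 + ρ) * T - (1 - ρ) * T = 2 * (ρ * T) := by ring
  have g2 : 2 * (1 + ρ) * T - 2 * (1 - ρ) * T = 4 * (ρ * T) := by ring
  rw [g1] at hz1
  rw [g2] at hz2
  have hfin : |∫ t in T..(2 * T), hZ t ^ 3| ≤
      |∫ t in (0 : ℝ)..(4 * T), Om k T t * hZ t ^ 3| +
      |(∫ t in T..(2 * T), hZ t ^ 3) - ∫ t in (0 : ℝ)..(4 * T), Om k T t * hZ t ^ 3| := by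
    have := abs_add_le (∫ t in (0 : ℝ)..(4 * T), Om k T t * hZ t ^ 3)
      ((∫ t in T..(2 * T), hZ t ^ 3) - ∫ t in (0 : ℝ)..(4 * T), Om k T t * hZ t ^ 3)
    rwa [add_sub_cancel] at this
  have g3 : (μ⁻¹) ^ 3 * (2 * (ρ * T)) = 2 * ((μ⁻¹) ^ 3 * (ρ * T)) := by ring
  have g4 : (μ⁻¹) ^ 3 * (4 * (ρ * T)) = 4 * ((μ⁻¹) ^ 3 * (ρ * T)) := by ring
  rw [g3] at hz1
  rw [g4] at hz2
  generalize (μ⁻¹) ^ 3 * (ρ * T) = X at hz1 hz2 hμρ
  generalize μ * (∫ t in (T / 2)..(4 * T), ‖zc t‖ ^ 4) = Y at hz1 hz2 hμM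
  linarith [hfin, hWF, hdiff, hz1, hz2, hμM, hμρ, f2, e3, e4, e6, e7]

theorem WIN_main (h1 : S_JB) (h2 : S_M4) (h3 : S_OM) (h4 : S_OT) (hz : S_Z) (h5 : S_GZ) :
    Target := by
  have hb := WIN_block h1 h2 h3 h4 hz h5
  obtain ⟨T1, hT1⟩ := eventually_atTop.mp hb
  have hF : Continuous fun t => hZ t ^ 3 := hz.2.2.1.pow 3
  obtain ⟨C, hC⟩ := WIN_dyadic (fun t => hZ t ^ 3) hF (1 - 1 / 64000000) (max T1 1)
    (by norm_num) (le_max_right _ _) (fun T hT => hT1 T ((le_max_left _ _).trans hT))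
  exact ⟨1 - 1 / 64000000, C, by norm_num, by norm_num, hC⟩

theorem WIN (h1 : S_JB) (h2 : S_M4) (h3 : S_OM) (h4 : S_OT) (hZ : S_Z) (h5 : S_GZ) : Target :=
  WIN_main h1 h2 h3 h4 hZ h5

end Pool.Agent.H408R2.CM
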