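import Pool.Agent.H408R2.CM.Stubs
import Pool.Agent.H306R2.ZetaGrowth

set_option autoImplicit false

/-! # Task XI: the entire function `xiF` -/

open Complex MeasureTheory Filter Topology

namespace Pool.Agent.H408R2.CM

open Pool.Agent.H304R4.CM

theorem XI_norm_Gamma_le {z : ℂ} (hz : 0 < z.re) : ‖Complex.Gamma z‖ ≤ Real.Gamma z.re := by
  rw [Complex.Gamma_eq_integral hz, Real.Gamma_eq_integral hz, Complex.GammaIntegral]
  refine (norm_integral_le_integral_norm _).trans (le_of_eq ?_)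
  refine setIntegral_congr_fun measurableSet_Ioi fun x hx => ?_
  have hx0 : (0 : ℝ) < x := hx
  rw [norm_mul, Complex.norm_cpow_eq_rpow_re_of_pos hx0, Complex.norm_real,
    Real.norm_of_nonneg (Real.exp_pos _).le]
  simp

theorem XI_Gamma_bdd : ∃ C : ℝ, 0 < C ∧ ∀ x ∈ Set.Icc (1 / 4 : ℝ) (5 / 4), Real.Gamma x ≤ C := by
  have hc : ContinuousOn Real.Gamma (Set.Icc (1 / 4 : ℝ) (5 / 4)) := by
    intro x hx
    refine (Real.differentiableAt_Gamma ?_).continuousAt.continuousWithinAt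
    intro m hm
    have h1 := hx.1
    have h2 : (0 : ℝ) ≤ m := Nat.cast_nonneg m
    rw [hm] at h1
    linarith
  obtain ⟨M, hM⟩ := isCompact_Icc.exists_bound_of_continuousOn hc
  refine ⟨max M 1, by positivity, fun x hx => ?_⟩
  exact (Real.le_norm_self _).trans ((hM x hx).trans (le_max_left _ _))

theorem XI_formula {s : ℂ} (hs : 0 < s.re) (hs1 : s ≠ 1) :
    xiF s = s * (1 - s) * Gammaℝ s * riemannZeta s := by
  have hs0 : s ≠ 0 := by
    rintro rfl
    simp at hs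
  have h1s : 1 - s ≠ 0 := sub_ne_zero.2 (Ne.symm hs1)
  have hG : Gammaℝ s ≠ 0 := Gammaℝ_ne_zero_of_re_pos hs
  rw [riemannZeta_def_of_ne_zero hs0, completedRiemannZeta_eq, xiF]
  field_simp
  ring

theorem XI_Gammaℝ_one : Gammaℝ (1 : ℂ) = 1 := by
  exact Gammaℝ_one

theorem XI_formula' {s : ℂ} (hs : 0 < s.re) :
    xiF s = - (s * Gammaℝ s * Pool.Agent.H306R2.Zt s) := by
  by_cases hs1 : s = 1
  · subst hs1
    rw [XI_Gammaℝ_one, Pool.Agent.H306R2.Zt_one, xiF]
    ring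
  · rw [XI_formula hs hs1, ← Pool.Agent.H306R2.zeta_eq_pos hs hs1]
    ring

theorem XI_symm (s : ℂ) : xiF (1 - s) = xiF s := by
  unfold xiF
  rw [completedRiemannZeta₀_one_sub]
  ring

theorem XI_growth1 : ∃ C : ℝ, 0 < C ∧ ∀ s : ℂ, 1 / 2 ≤ s.re → s.re ≤ 5 / 2 →
    ‖xiF s‖ ≤ C * (1 + ‖s‖) ^ 3 := by
  obtain ⟨C, hC, hCb⟩ := XI_Gamma_bdd
  refine ⟨3 * C, by positivity, fun s h1 h2 => ?_⟩
  have hs0 : 0 < s.re := by linarith
  rw [XI_formula' hs0, norm_neg, norm_mul, norm_mul]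
  have hG : ‖Gammaℝ s‖ ≤ C := by
    rw [Gammaℝ_def, norm_mul]
    have e1 : ‖(Real.pi : ℂ) ^ (-s / 2)‖ ≤ 1 := by
      rw [Complex.norm_cpow_eq_rpow_re_of_pos Real.pi_pos]
      refine Real.rpow_le_one_of_one_le_of_nonpos (by linarith [Real.pi_gt_three]) ?_
      have : (-s / 2).re = -(s.re) / 2 := by simp
      rw [this]; linarith
    have e2 : (s / 2).re = s.re / 2 := by simp
    have e3 : ‖Complex.Gamma (s / 2)‖ ≤ C := by
      refine (XI_norm_Gamma_le (by rw [e2]; linarith)).trans ?_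
      rw [e2]
      exact hCb _ ⟨by linarith, by linarith⟩
    calc _ ≤ 1 * C := mul_le_mul e1 e3 (norm_nonneg _) zero_le_one
      _ = C := one_mul _
  have hZ := Pool.Agent.H306R2.Zt_norm_le h1
  have hn := norm_nonneg s
  calc ‖s‖ * ‖Gammaℝ s‖ * ‖Pool.Agent.H306R2.Zt s‖
      ≤ (1 + ‖s‖) * C * (3 * (‖s‖ + 1) ^ 2) := by
        refine mul_le_mul (mul_le_mul (by linarith) hG (norm_nonneg _) (by positivity)) hZ
          (norm_nonneg _) (by positivity)
    _ = 3 * C * (1 + ‖s‖) ^ 3 := by ring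

theorem XI : S_XI := by
  refine ⟨?_, XI_symm, fun s hs hs1 => XI_formula hs hs1, ?_⟩
  · unfold xiF
    have := differentiable_completedZeta₀
    fun_prop
  · obtain ⟨C, hC, hb⟩ := XI_growth1
    refine ⟨C * 8, by positivity, fun s hs => ?_⟩
    rw [abs_le] at hs
    have hn := norm_nonneg s
    have hp : (1 + ‖s‖) ^ 3 ≤ (1 + ‖s‖) ^ 5 := pow_le_pow_right₀ (by linarith) (by norm_num)
    by_cases h : 1 / 2 ≤ s.re
    · refine (hb s h (by linarith [hs.2])).trans ?_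
      calc C * (1 + ‖s‖) ^ 3 ≤ C * (1 + ‖s‖) ^ 5 := mul_le_mul_of_nonneg_left hp hC.le
        _ ≤ C * 8 * (1 + ‖s‖) ^ 5 := by
          have : 0 ≤ C * (1 + ‖s‖) ^ 5 := by positivity
          linarith
    · have h1 : (1 - s).re = 1 - s.re := by simp
      have h2 := hb (1 - s) (by rw [h1]; linarith) (by rw [h1]; linarith [hs.1])
      rw [XI_symm] at h2
      have h3 : ‖1 - s‖ ≤ 1 + ‖s‖ := by
        have := norm_sub_le (1 : ℂ) s
        simpa using this
      refine h2.trans ?_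
      calc C * (1 + ‖1 - s‖) ^ 3 ≤ C * (2 * (1 + ‖s‖)) ^ 3 := by
            refine mul_le_mul_of_nonneg_left ?_ hC.le
            exact pow_le_pow_left₀ (by positivity) (by linarith) 3
        _ = C * 8 * (1 + ‖s‖) ^ 3 := by ring
        _ ≤ C * 8 * (1 + ‖s‖) ^ 5 := mul_le_mul_of_nonneg_left hp (by positivity)

end Pool.Agent.H408R2.CM
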