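import Pool.Agent.H408R2.CM.Stubs

set_option autoImplicit false

open Complex MeasureTheory Filter Topology

namespace Pool.Agent.H408R2.CM

open Pool.Agent.H304R4.CM

theorem Z_GammaR_conj (s : ℂ) : Gammaℝ ((starRingEnd ℂ) s) = (starRingEnd ℂ) (Gammaℝ s) := by
  have harg : ((Real.pi : ℝ) : ℂ).arg ≠ Real.pi := by
    rw [Complex.arg_ofReal_of_nonneg Real.pi_pos.le]
    exact Real.pi_ne_zero.symm
  have h2 : (starRingEnd ℂ) s / 2 = (starRingEnd ℂ) (s / 2) := by
    rw [map_div₀, Complex.conj_ofNat]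
  have h3 : -(starRingEnd ℂ) s / 2 = (starRingEnd ℂ) (-s / 2) := by
    rw [map_div₀, map_neg, Complex.conj_ofNat]
  rw [Gammaℝ_def, Gammaℝ_def, map_mul, h2, h3, Complex.Gamma_conj]
  congr 1
  have h4 := Complex.cpow_conj ((Real.pi : ℝ) : ℂ) (-s / 2) harg
  rw [conj_ofReal] at h4
  exact h4

theorem Z_re (t : ℝ) : (1 / 2 + (t : ℂ) * I).re = 1 / 2 := by simp

theorem Z_ne_zero (t : ℝ) : (1 / 2 + (t : ℂ) * I) ≠ 0 := by
  intro h
  have := congrArg Complex.re h
  rw [Z_re, zero_re] at this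
  norm_num at this

theorem Z_ne_one (t : ℝ) : (1 / 2 + (t : ℂ) * I) ≠ 1 := by
  intro h
  have := congrArg Complex.re h
  rw [Z_re, one_re] at this
  norm_num at this

theorem Z_conj (t : ℝ) : (starRingEnd ℂ) (1 / 2 + (t : ℂ) * I) = 1 - (1 / 2 + (t : ℂ) * I) := by
  apply Complex.ext
  · rw [conj_re, sub_re, Z_re, one_re]; norm_num
  · rw [conj_im, sub_im, one_im]; simp

/-- `Λ(1/2+it)` is real -/
theorem Z_real (t : ℝ) : (Gammaℝ (1 / 2 + t * I) * riemannZeta (1 / 2 + t * I)).im = 0 := by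
  have hG : ∀ s : ℂ, 0 < s.re → s ≠ 0 → Gammaℝ s * riemannZeta s = completedRiemannZeta s := by
    intro s hs h0
    rw [riemannZeta_def_of_ne_zero h0, mul_div_cancel₀]
    exact Gammaℝ_ne_zero_of_re_pos hs
  have h1 : (starRingEnd ℂ) (Gammaℝ (1 / 2 + t * I) * riemannZeta (1 / 2 + t * I)) =
      Gammaℝ (1 / 2 + t * I) * riemannZeta (1 / 2 + t * I) := by
    rw [map_mul, ← Z_GammaR_conj, ← riemannZeta_conj, hG _ (by rw [Z_re]; norm_num) (Z_ne_zero t),
      hG _ (by rw [conj_re, Z_re]; norm_num) (by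
        rw [Ne, map_eq_zero]; exact Z_ne_zero t), Z_conj, completedRiemannZeta_one_sub]
  exact Complex.conj_eq_iff_im.1 h1

theorem Z_half (t : ℝ) : (1 / 2 + (t : ℂ) * I) / 2 = 1 / 4 + (t : ℂ) / 2 * I := by ring

theorem Z_Gamma_ne (t : ℝ) : Complex.Gamma (1 / 4 + (t : ℂ) / 2 * I) ≠ 0 := by
  apply Complex.Gamma_ne_zero_of_re_pos
  have : (1 / 4 + (t : ℂ) / 2 * I).re = 1 / 4 := by simp
  rw [this]
  norm_num

theorem Z_GammaR (t : ℝ) : Gammaℝ (1 / 2 + t * I) =
    ((Real.exp (-(1 / 4 * Real.log Real.pi)) : ℝ) : ℂ) *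
      (Complex.exp (-(t / 2 * Real.log Real.pi : ℝ) * I) *
        Complex.Gamma (1 / 4 + t / 2 * I)) := by
  have hpi : ((Real.pi : ℝ) : ℂ) ≠ 0 := by exact_mod_cast Real.pi_ne_zero
  rw [Gammaℝ_def, Z_half, Complex.cpow_def_of_ne_zero hpi, ← Complex.ofReal_log Real.pi_pos.le,
    Complex.ofReal_exp, ← mul_assoc, ← Complex.exp_add]
  congr 2
  push_cast
  ring

theorem Z_main (t : ℝ) : theta t * zc t =
    (((Real.exp (-(1 / 4 * Real.log Real.pi)) * ‖Complex.Gamma (1 / 4 + t / 2 * I)‖)⁻¹ : ℝ) : ℂ) *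
      (Gammaℝ (1 / 2 + t * I) * riemannZeta (1 / 2 + t * I)) := by
  have h1 : ((Real.exp (-(1 / 4 * Real.log Real.pi)) : ℝ) : ℂ) ≠ 0 := by
    exact_mod_cast (Real.exp_pos _).ne'
  have h2 : ((‖Complex.Gamma (1 / 4 + (t : ℂ) / 2 * I)‖ : ℝ) : ℂ) ≠ 0 := by
    exact_mod_cast norm_ne_zero_iff.2 (Z_Gamma_ne t)
  rw [Z_GammaR]
  unfold theta zc
  generalize Complex.Gamma (1 / 4 + (t : ℂ) / 2 * I) = G at *
  generalize Complex.exp (-(t / 2 * Real.log Real.pi : ℝ) * I) = E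
  generalize riemannZeta (1 / 2 + (t : ℂ) * I) = R
  generalize Real.exp (-(1 / 4 * Real.log Real.pi)) = c at *
  rw [Complex.ofReal_inv, Complex.ofReal_mul, mul_inv, div_mul_eq_mul_div, div_eq_iff h2]
  calc E * G * R = (((c : ℂ))⁻¹ * (c : ℂ)) * ((((‖G‖ : ℝ) : ℂ))⁻¹ * ((‖G‖ : ℝ) : ℂ)) *
        (E * G * R) := by
        rw [inv_mul_cancel₀ h1, inv_mul_cancel₀ h2]; ring
    _ = _ := by ring

theorem Z_theta_norm (t : ℝ) : ‖theta t‖ = 1 := by
  unfold theta
  have h0 := norm_ne_zero_iff.2 (Z_Gamma_ne t)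
  have h3 : Complex.exp (-(t / 2 * Real.log Real.pi : ℝ) * I) =
      Complex.exp (((-(t / 2 * Real.log Real.pi) : ℝ) : ℂ) * I) := by
    rw [Complex.ofReal_neg]
  rw [norm_div, norm_mul, h3, Complex.norm_exp_ofReal_mul_I, one_mul, Complex.norm_real,
    Real.norm_of_nonneg (norm_nonneg _), div_self h0]

theorem Z : S_Z := by
  have h1 : ∀ t : ℝ, (hZ t : ℂ) = theta t * zc t := by
    intro t
    have him : (theta t * zc t).im = 0 := by
      rw [Z_main, Complex.im_ofReal_mul, Z_real, mul_zero]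
    apply Complex.ext
    · rw [Complex.ofReal_re]; rfl
    · rw [Complex.ofReal_im, him]
  have hG : Continuous (fun t : ℝ => Complex.Gamma (1 / 4 + (t : ℂ) / 2 * I)) := by
    rw [continuous_iff_continuousAt]
    intro t
    have hd : DifferentiableAt ℂ Complex.Gamma (1 / 4 + (t : ℂ) / 2 * I) := by
      apply Complex.differentiableAt_Gamma
      intro m h
      have h2 := congrArg Complex.re h
      have hre : (1 / 4 + (t : ℂ) / 2 * I).re = 1 / 4 := by simp
      rw [hre, Complex.neg_re, Complex.natCast_re] at h2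
      have h3 : (0 : ℝ) ≤ m := Nat.cast_nonneg m
      linarith
    exact ContinuousAt.comp (f := fun t : ℝ => (1 / 4 + (t : ℂ) / 2 * I)) (g := Complex.Gamma)
      hd.continuousAt (by fun_prop)
  have hth : Continuous theta := by
    unfold theta
    apply Continuous.div
    · exact Continuous.mul (by fun_prop) hG
    · exact Complex.continuous_ofReal.comp hG.norm
    · intro t
      exact_mod_cast norm_ne_zero_iff.2 (Z_Gamma_ne t)
  have hzc : Continuous zc := by
    unfold zc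
    rw [continuous_iff_continuousAt]
    intro t
    exact ContinuousAt.comp (f := fun t : ℝ => (1 / 2 + (t : ℂ) * I)) (g := riemannZeta)
      (differentiableAt_riemannZeta (Z_ne_one t)).continuousAt (by fun_prop)
  refine ⟨h1, ?_, ?_, hth, hzc⟩
  · intro t
    have h2 : |hZ t| = ‖(hZ t : ℂ)‖ := by rw [Complex.norm_real, Real.norm_eq_abs]
    rw [h2, h1, norm_mul, Z_theta_norm, one_mul]
  · exact Complex.continuous_re.comp (hth.mul hzc)

end Pool.Agent.H408R2.CM
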