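import Pool.Agent.H408R2.CM.Final
import Pool.Agent.H408R2.CM.T_GR
import Pool.Agent.H408R2.CM.T_GB
import Pool.Agent.H408R2.CM.T_GI
import Pool.Agent.H408R2.CM.T_Z
import Pool.Agent.H408R2.CM.T_GZ
import Pool.Agent.H408R2.CM.T_XI
import Pool.Agent.H408R2.CM.T_EX
import Pool.Agent.H408R2.CM.T_Q1
import Pool.Agent.H408R2.CM.T_Q2
import Pool.Agent.H408R2.CM.T_V
import Pool.Agent.H408R2.CM.T_QI
import Pool.Agent.H408R2.CM.T_DS
import Pool.Agent.H408R2.CM.T_TL
import Pool.Agent.H408R2.CM.T_AFE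
import Pool.Agent.H408R2.CM.T_CX
import Pool.Agent.H408R2.CM.T_MV
import Pool.Agent.H408R2.CM.T_P2
import Pool.Agent.H408R2.CM.T_M4
import Pool.Agent.H408R2.CM.T_KA
import Pool.Agent.H408R2.CM.T_OT
import Pool.Agent.H408R2.CM.T_GT
import Pool.Agent.H408R2.CM.T_TW
import Pool.Agent.H408R2.CM.T_RS
import Pool.Agent.H408R2.CM.T_INN
import Pool.Agent.H408R2.CM.T_W1
import Pool.Agent.H408R2.CM.T_W2
import Pool.Agent.H408R2.CM.T_ME
import Pool.Agent.H408R2.CM.T_B1
import Pool.Agent.H408R2.CM.T_OFF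
import Pool.Agent.H408R2.CM.T_BS
import Pool.Agent.H408R2.CM.T_IJ
import Pool.Agent.H408R2.CM.T_JB
import Pool.Agent.H408R2.CM.T_OM
import Pool.Agent.H408R2.CM.T_WIN

set_option autoImplicit false

/-! # TEAM CM, part 1: `BoxBound → Target`. -/

namespace Pool.Agent.H408R2.CM

open Pool.Agent.H304R4.CM

/-- The analytic reduction: the box bound for the exponential sum implies
`∫_0^T Z(t)^3 dt = O(T^c)` with some `c < 1`. -/
theorem part_one_done (hbox : BoxBound) : Target :=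
  part_one GR GB GI Z GZ XI EX Q1 Q2 V QI DS TL AFE CX MV P2 M4 KA OT GT TW RS
    INN W1 W2 ME B1 OFF BS IJ JB OM WIN hbox

end Pool.Agent.H408R2.CM
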