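import Pool.Agent.H304R4.CM.Defs

set_option autoImplicit false

/-! # TEAM CM, part 1: the analytic reduction of the cubic moment of Hardy's function.

All statements are Props (nothing is assumed).  `T^x` are real powers.
Constants: `k ≈ T^(1/10^6)` is the order of the Gamma windows, `Re w = 1/10^6` is the line of the
cut-off function, `C H ≤ T^(1 + 1/10^5)` are the relevant dyadic boxes. -/

open Complex MeasureTheory Filter Topology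

namespace Pool.Agent.H408R2.CM

open Pool.Agent.H304R4.CM

noncomputable section

/-! ### Basic objects -/

/-- `ζ(1/2 + it)` -/
def zc (t : ℝ) : ℂ := riemannZeta (1 / 2 + t * I)

/-- Gamma weight (same formula as `Pool.Agent.H306R2.SM.om`): a probability density on `(0,∞)`,
for `δ = k / t₀` it is a bump around `t₀` of relative width `k^(-1/2)`. -/
def om (k : ℕ) (δ t : ℝ) : ℝ := δ ^ (k + 1) * t ^ k * Real.exp (-(δ * t)) / (k.factorial : ℝ)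

/-- `x^(-it)` -/
def osc (x t : ℝ) : ℂ := Complex.exp (((-(t * Real.log x) : ℝ) : ℂ) * I)

/-- `e^{w²}/w` at `w = s + iv` -/
def ew (s v : ℝ) : ℂ := Complex.exp (((s : ℂ) + v * I) ^ 2) / ((s : ℂ) + v * I)

/-- the cut-off function of the approximate functional equation, computed on the line `Re w = s`:
`V(x) = (1/2πi) ∫_{Re w = s} x^{-w} e^{w²} dw/w` (independent of `s > 0`, see `S_V`) -/
def VV (s x : ℝ) : ℂ :=
  (1 / (2 * Real.pi)) * ∫ v : ℝ, (x : ℂ) ^ (-((s : ℂ) + v * I)) * ew s v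

/-- the Gamma factors (with a polynomial which kills the poles) in the exact formula for `|ζ|²` -/
def Qt (t : ℝ) (w : ℂ) : ℂ :=
  (((1 / 2 + t * I) ^ 2 - w ^ 2) * ((1 / 2 - t * I) ^ 2 - w ^ 2) / ((1 / 4 + (t : ℂ) ^ 2) ^ 2)) *
    (Gammaℝ (1 / 2 + t * I + w) * Gammaℝ (1 / 2 - t * I + w) /
      (Gammaℝ (1 / 2 + t * I) * Gammaℝ (1 / 2 - t * I)))

/-- the Dirichlet polynomial of the approximate functional equation of `|ζ(1/2+it)|²` -/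
def D2 (T t : ℝ) : ℂ :=
  ∑ c ∈ Finset.Icc 1 ⌊T ^ 2⌋₊, ∑ h ∈ Finset.Icc 1 ⌊T ^ 2⌋₊,
    (((c * h : ℝ) ^ (-(1 / 2) : ℝ) : ℝ) : ℂ) * osc ((c : ℝ) / h) t *
      VV 1 (2 * Real.pi * (c * h) / t)

/-! ### The analytic kernel which replaces `om(t) θ(t) (t/2π)^w` -/

/-- normalising constant -/
def cG (k : ℕ) (δ : ℝ) (w : ℂ) : ℂ :=
  ((δ ^ (k + 1) * 2 ^ k / ((k.factorial : ℝ) * √(2 * Real.pi)) : ℝ) : ℂ) *
    (Real.pi : ℂ) ^ (-w) * Complex.exp (-((k : ℂ) + 1 / 4 + w) * (Real.pi / 2) * I)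

/-- `π (η + i)` -/
def bas (η : ℝ) : ℂ := (Real.pi : ℂ) * ((η : ℂ) + I)

/-- the kernel; `η = tan (2δ)` -/
def Gw (k : ℕ) (δ : ℝ) (w : ℂ) (t : ℝ) : ℂ :=
  cG k δ w * Complex.Gamma ((k : ℂ) + 1 / 2 + w + (t / 2) * I) *
    bas (Real.tan (2 * δ)) ^ (-((t / 2 : ℝ) : ℂ) * I)

/-- its transform at `x` -/
def Ph (k : ℕ) (δ : ℝ) (w : ℂ) (x : ℝ) : ℂ :=
  cG k δ w * (4 * Real.pi) * (bas (Real.tan (2 * δ)) * (x : ℂ) ^ 2) ^ ((k : ℂ) + 1 / 2 + w) *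
    Complex.exp (-(bas (Real.tan (2 * δ)) * (x : ℂ) ^ 2))

/-! ### The dyadic partition of unity and the box sums -/

/-- smooth, `0 ≤ ww ≤ 1`, support in `[1/2, 2]`, `∑_{l ≤ L} ww (x / 2^l) = 1` for `1 ≤ x ≤ 2^L` -/
def ww (x : ℝ) : ℝ := Real.smoothTransition (2 - x) - Real.smoothTransition (2 - 2 * x)

/-- the sum over a dyadic box -/
def Xb (k : ℕ) (δ : ℝ) (w : ℂ) (B C H : ℝ) : ℂ :=
  ∑ h ∈ Finset.Icc 1 ⌊2 * H⌋₊, ∑ b ∈ Finset.Icc 1 ⌊2 * B⌋₊, ∑ c ∈ Finset.Icc 1 ⌊2 * C⌋₊,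
    ((ww ((b : ℝ) / B) * ww ((c : ℝ) / C) * ww ((h : ℝ) / H) * (b : ℝ) ^ (-(1 / 2) : ℝ) : ℝ) : ℂ) *
      ((c * h : ℝ) : ℂ) ^ (-(1 / 2 + w)) * Ph k δ w ((b : ℝ) * c / h)

/-- the complete sum over `b` -/
def Bs (k : ℕ) (δ : ℝ) (w : ℂ) (y : ℝ) : ℂ :=
  ∑' b : ℕ, ((((b : ℝ) + 1) ^ (-(1 / 2) : ℝ) : ℝ) : ℂ) * Ph k δ w (((b : ℝ) + 1) * y)

/-- the sum over a dyadic box in `c, h` and all `b` -/
def Yc (k : ℕ) (δ : ℝ) (w : ℂ) (C H : ℝ) : ℂ :=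
  ∑ h ∈ Finset.Icc 1 ⌊2 * H⌋₊, ∑ c ∈ Finset.Icc 1 ⌊2 * C⌋₊,
    ((ww ((c : ℝ) / C) * ww ((h : ℝ) / H) : ℝ) : ℂ) * ((c * h : ℝ) : ℂ) ^ (-(1 / 2 + w)) *
      Bs k δ w ((c : ℝ) / h)

/-- a dyadic piece of `D2` -/
def Dij (T : ℝ) (i j : ℕ) (t : ℝ) : ℂ :=
  ∑ c ∈ Finset.Icc 1 ⌊T ^ 2⌋₊, ∑ h ∈ Finset.Icc 1 ⌊T ^ 2⌋₊,
    ((ww ((c : ℝ) / 2 ^ i) * ww ((h : ℝ) / 2 ^ j) : ℝ) : ℂ) *
    ((((c * h : ℝ) ^ (-(1 / 2) : ℝ) : ℝ) : ℂ) * osc ((c : ℝ) / h) t *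
      VV 1 (2 * Real.pi * (c * h) / t))

/-! ### Auxiliary objects for the approximate functional equation, the fourth moment, the windows -/

/-- `ξ`-function `s (1 - s) Λ(s)`, entire -/
def xiF (s : ℂ) : ℂ := s * (1 - s) * completedRiemannZeta₀ s - 1

/-- the complete double series of the approximate functional equation -/
def TT (t : ℝ) : ℂ :=
  ∑' p : ℕ × ℕ, ((((((p.1 : ℝ) + 1) * ((p.2 : ℝ) + 1)) ^ (-(1 / 2) : ℝ) : ℝ) : ℂ) *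
    osc (((p.1 : ℝ) + 1) / ((p.2 : ℝ) + 1)) t *
    VV (3 / 5) (2 * Real.pi * (((p.1 : ℝ) + 1) * ((p.2 : ℝ) + 1)) / t))

/-- Dirichlet polynomial for the fourth moment -/
def PP (T ε : ℝ) (w : ℂ) (t : ℝ) : ℂ :=
  ∑ p ∈ ((Finset.Icc 1 ⌊T ^ 2⌋₊) ×ˢ (Finset.Icc 1 ⌊T ^ 2⌋₊)).filter
      (fun p : ℕ × ℕ => (p.1 : ℝ) * p.2 ≤ T ^ (1 + ε)),
    (((p.1 : ℝ) * p.2 : ℝ) : ℂ) ^ (-(1 / 2 + w)) * osc ((p.1 : ℝ) / p.2) t

/-- superposition of Gamma windows, close to the indicator function of `[T, 2T]` -/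
def Om (k : ℕ) (T t : ℝ) : ℝ := ∫ x in T..(2 * T), om k (k / x) t

end

end Pool.Agent.H408R2.CM
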