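import Pool.Agent.H408R2.CM.Stubs

set_option autoImplicit false

/-! # TEAM CM, part 1: assembly (types check). -/

namespace Pool.Agent.H408R2.CM

open Pool.Agent.H304R4.CM

theorem part_one
    (GR : S_GR) (GB : S_GB) (GI : S_GI) (Z : S_Z) (GZ : S_GZ)
    (XI : S_XI) (EX : S_XI → S_EX)
    (Q1 : S_GR → S_Q1) (Q2 : S_GB → S_Q2) (V : S_V) (QI : S_Q1 → S_Q2 → S_V → S_QI)
    (DS : S_V → S_DS) (TL : S_V → S_TL)
    (AFE : S_EX → S_QI → S_V → S_DS → S_TL → S_AFE)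
    (CX : S_AFE → S_V → S_GZ → S_CX)
    (MV : S_MV) (P2 : S_MV → S_P2) (M4 : S_AFE → S_V → S_P2 → S_Z → S_GZ → S_M4)
    (KA : S_GR → S_KA) (OT : S_OT) (GT : S_GB → S_GT) (TW : S_GZ → S_TW) (RS : S_RS)
    (INN : S_KA → S_GT → S_OT → S_TW → S_RS → S_CX → S_Z → S_GZ → S_INN)
    (W1 : S_W1) (W2 : S_W1 → S_W2) (ME : S_ME)
    (B1 : BoxBound → S_GI → S_W1 → S_W2 → S_ME → S_B1)
    (OFF : S_OFF) (BS : S_B1 → S_OFF → S_W1 → S_BS)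
    (IJ : S_V → S_INN → S_BS → S_W1 → S_CX → S_Z → S_OT → S_IJ)
    (JB : S_AFE → S_V → S_CX → S_OT → S_IJ → S_Z → S_GZ → S_W1 → S_JB)
    (OM : S_OM) (WIN : S_JB → S_M4 → S_OM → S_OT → S_Z → S_GZ → Target)
    (hbox : BoxBound) : Target := by
  have hQI := QI (Q1 GR) (Q2 GB) V
  have hAFE := AFE (EX XI) hQI V (DS V) (TL V)
  have hCX := CX hAFE V GZ
  have hM4 := M4 hAFE V (P2 MV) Z GZ
  have hINN := INN (KA GR) (GT GB) OT (TW GZ) RS hCX Z GZ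
  have hBS := BS (B1 hbox GI W1 (W2 W1) ME) OFF W1
  have hIJ := IJ V hINN hBS W1 hCX Z OT
  exact WIN (JB hAFE V hCX OT hIJ Z GZ W1) hM4 OM OT Z GZ

end Pool.Agent.H408R2.CM
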