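import Pool.Agent.H408R2.CM.PartOne

set_option autoImplicit false

/-! # TEAM CM: from the box bound to the statement of the hand-in. -/

open Complex MeasureTheory Filter Topology

namespace Pool.Agent.H408R2.CM.HandIn

open Pool.Agent.H304R4.CM

/-- `e^{iθ(t)} = π^{-it/2} Γ(1/4 + it/2) / |Γ(1/4 + it/2)|` -/
noncomputable def eTheta (t : ℝ) : ℂ :=
  (Real.pi : ℂ) ^ (-(t / 2) * I) * Complex.Gamma (1 / 4 + t / 2 * I) /
    (‖Complex.Gamma (1 / 4 + t / 2 * I)‖ : ℂ)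

/-- Hardy's function -/
noncomputable def hardyZ (t : ℝ) : ℝ := (eTheta t * riemannZeta (1 / 2 + t * I)).re

lemma eTheta_eq (t : ℝ) : eTheta t = theta t := by
  unfold eTheta theta
  have hpi : (Real.pi : ℂ) ≠ 0 := by exact_mod_cast Real.pi_ne_zero
  rw [Complex.cpow_def_of_ne_zero hpi]
  congr 3
  rw [← Complex.ofReal_log Real.pi_pos.le]
  push_cast
  ring

lemma hardyZ_eq (t : ℝ) : hardyZ t = hZ t := by
  unfold hardyZ hZ
  rw [eTheta_eq]

/-- the statement of the hand-in, from the box bound -/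
theorem handin (hbox : BoxBound) :
    (∀ t : ℝ, ((hardyZ t : ℝ) : ℂ) = eTheta t * riemannZeta (1 / 2 + t * I)) ∧
    ∃ c : ℝ, 0 < c ∧ c < 1 ∧
      (fun T : ℝ => ∫ t in (0 : ℝ)..T, hardyZ t ^ 3) =O[atTop] (fun T : ℝ => T ^ c) := by
  constructor
  · intro t
    rw [hardyZ_eq, eTheta_eq]
    exact Z.1 t
  · obtain ⟨c, C, hc0, hc1, h⟩ := part_one_done hbox
    refine ⟨c, hc0, hc1, ?_⟩
    refine Asymptotics.IsBigO.of_bound C ?_
    filter_upwards [Filter.eventually_ge_atTop (1 : ℝ)] with T hT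
    have h1 := h T hT
    have h2 : (∫ t in (0 : ℝ)..T, hardyZ t ^ 3) = ∫ t in (0 : ℝ)..T, hZ t ^ 3 := by
      congr 1
      funext t
      rw [hardyZ_eq]
    rw [h2, Real.norm_eq_abs, Real.norm_eq_abs,
      abs_of_nonneg (Real.rpow_nonneg (by linarith : (0 : ℝ) ≤ T) c)]
    exact h1

end Pool.Agent.H408R2.CM.HandIn
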