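import Pool.Agent.H408R2.CM.Stubs

set_option autoImplicit false

open Complex MeasureTheory Filter Topology

namespace Pool.Agent.H408R2.CM

open Pool.Agent.H304R4.CM

theorem AFE_meas_G : Measurable Gammaℝ := by
  have h : Measurable (fun s : ℂ => (Gammaℝ s)⁻¹) := differentiable_Gammaℝ_inv.continuous.measurable
  have h2 : Measurable (fun s : ℂ => ((Gammaℝ s)⁻¹)⁻¹) := h.inv
  simp only [inv_inv] at h2
  exact h2

theorem AFE_meas_Q (t : ℝ) : Measurable (fun v : ℝ => Qt t (((3 / 5 : ℝ) : ℂ) + v * I)) := by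
  unfold Qt
  have hw : Measurable (fun v : ℝ => ((3 / 5 : ℝ) : ℂ) + v * I) := by fun_prop
  have h1 : Measurable (fun v : ℝ => Gammaℝ (1 / 2 + t * I + (((3 / 5 : ℝ) : ℂ) + v * I))) :=
    AFE_meas_G.comp (by fun_prop)
  have h2 : Measurable (fun v : ℝ => Gammaℝ (1 / 2 - t * I + (((3 / 5 : ℝ) : ℂ) + v * I))) :=
    AFE_meas_G.comp (by fun_prop)
  fun_prop

theorem AFE_meas_ew (s : ℝ) : Measurable (fun v : ℝ => ew s v) := by
  unfold ew
  fun_prop

theorem AFE_cpow (t v : ℝ) (ht : 0 < t) : ((t / (2 * Real.pi) : ℝ) : ℂ) ^ (((3 / 5 : ℝ) : ℂ) + v * I) =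
    ((2 * Real.pi / t : ℝ) : ℂ) ^ (-(((3 / 5 : ℝ) : ℂ) + v * I)) := by
  have h1 : ((t / (2 * Real.pi) : ℝ) : ℂ) = ((2 * Real.pi / t : ℝ) : ℂ)⁻¹ := by
    rw [← Complex.ofReal_inv, inv_div]
  rw [h1, Complex.inv_cpow, Complex.cpow_neg]
  rw [Complex.arg_ofReal_of_nonneg (by positivity)]
  exact Real.pi_ne_zero.symm

theorem AFE (h1 : S_EX) (h2 : S_QI) (h3 : S_V) (h4 : S_DS) (h5 : S_TL) : S_AFE := by
  intro ε hε
  obtain ⟨T0, hT0⟩ := h2 (ε / 2) (by positivity)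
  obtain ⟨⟨C, hC, hCz⟩, hzc, hDS⟩ := h4
  obtain ⟨C', hC', hTL⟩ := h5
  have hlim : Tendsto (fun T : ℝ => T ^ (ε / 2)) atTop atTop := tendsto_rpow_atTop (by positivity)
  obtain ⟨T1, hT1⟩ := Filter.eventually_atTop.1 (hlim.eventually_ge_atTop (C / Real.pi + 2 * C'))
  refine ⟨max (max T0 T1) 2, fun T hT t ht1 ht2 => ?_⟩
  have hTT0 : T0 ≤ T := (le_max_left _ _).trans ((le_max_left _ _).trans hT)
  have hTT1 : T1 ≤ T := (le_max_right _ _).trans ((le_max_left _ _).trans hT)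
  have hT2 : 2 ≤ T := (le_max_right _ _).trans hT
  have ht : 0 < t := by linarith
  obtain ⟨q1, q2, q3⟩ := hT0 T hTT0 t ht1 ht2
  set Q : ℝ → ℂ := fun v => Qt t (((3 / 5 : ℝ) : ℂ) + v * I) with hQ
  set A : ℝ → ℂ := fun v => ((t / (2 * Real.pi) : ℝ) : ℂ) ^ (((3 / 5 : ℝ) : ℂ) + v * I) with hA
  set Z : ℝ → ℂ := fun v => riemannZeta (1 / 2 + t * I + (((3 / 5 : ℝ) : ℂ) + v * I)) *
      riemannZeta (1 / 2 - t * I + (((3 / 5 : ℝ) : ℂ) + v * I)) with hZ'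
  set E : ℝ → ℂ := fun v => ew (3 / 5) v with hE
  have hZb : ∀ v, ‖Z v‖ ≤ C := fun v => hCz t v
  have hZcont : Continuous Z := hzc t
  have hAE : Integrable (fun v => A v * E v) := by
    have h := h3.2.2.2.2.1 (3 / 5) (2 * Real.pi / t) (by norm_num) (by positivity)
    refine h.congr (ae_of_all _ fun v => ?_)
    show _ = A v * E v
    rw [hA]
    simp only
    rw [AFE_cpow t v ht]
  have hI1 : Integrable (fun v => A v * Z v * E v) := by
    have h := hAE.bdd_mul (c := C) hZcont.aestronglyMeasurable (ae_of_all _ hZb)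
    refine h.congr (ae_of_all _ fun v => ?_)
    show Z v * (A v * E v) = A v * Z v * E v
    ring
  have hQm : Measurable Q := AFE_meas_Q t
  have hEm : Measurable E := AFE_meas_ew _
  have hAm : Measurable A := by
    have h6 : A = fun v : ℝ => ((t / (2 * Real.pi) : ℝ) : ℂ) ^ (((3 / 5 : ℝ) : ℂ) + v * I) := rfl
    rw [h6]
    fun_prop
  have hI2 : Integrable (fun v => (Q v - A v) * Z v * E v) := by
    refine (q2.const_mul C).mono' ?_ (ae_of_all _ fun v => ?_)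
    · exact (((hQm.sub hAm).mul hZcont.measurable).mul hEm).aestronglyMeasurable
    · rw [norm_mul, norm_mul]
      have h := hZb v
      show ‖Q v - A v‖ * ‖Z v‖ * ‖E v‖ ≤ C * (‖Q v - A v‖ * ‖E v‖)
      calc ‖Q v - A v‖ * ‖Z v‖ * ‖E v‖ = ‖Z v‖ * (‖Q v - A v‖ * ‖E v‖) := by ring
        _ ≤ _ := mul_le_mul_of_nonneg_right h (by positivity)
  have hsum : ∫ v, Q v * Z v * E v = (∫ v, A v * Z v * E v) + ∫ v, (Q v - A v) * Z v * E v := by
    rw [← integral_add hI1 hI2]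
    refine integral_congr_ae (ae_of_all _ fun v => ?_)
    show Q v * Z v * E v = A v * Z v * E v + (Q v - A v) * Z v * E v
    ring
  have hex := h1 t
  have hds := hDS t ht
  have hbd : ‖∫ v, (Q v - A v) * Z v * E v‖ ≤ C * T ^ (-(2 / 5) + ε / 2) := by
    calc ‖∫ v, (Q v - A v) * Z v * E v‖ ≤ ∫ v, C * (‖Q v - A v‖ * ‖E v‖) := by
          refine norm_integral_le_of_norm_le (q2.const_mul C) (ae_of_all _ fun v => ?_)
          rw [norm_mul, norm_mul]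
          have h := hZb v
          show ‖Q v - A v‖ * ‖Z v‖ * ‖E v‖ ≤ C * (‖Q v - A v‖ * ‖E v‖)
          calc ‖Q v - A v‖ * ‖Z v‖ * ‖E v‖ = ‖Z v‖ * (‖Q v - A v‖ * ‖E v‖) := by ring
            _ ≤ _ := mul_le_mul_of_nonneg_right h (by positivity)
      _ = C * ∫ v, ‖Q v - A v‖ * ‖E v‖ := integral_const_mul _ _
      _ ≤ C * T ^ (-(2 / 5) + ε / 2) := mul_le_mul_of_nonneg_left q3 hC.le
  have hmain : ((‖zc t‖ ^ 2 : ℝ) : ℂ) - 2 * D2 T t =
      (1 / Real.pi) * (∫ v, (Q v - A v) * Z v * E v) + 2 * (TT t - D2 T t) := by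
    have h6 : ((‖zc t‖ ^ 2 : ℝ) : ℂ) = (1 / Real.pi) * ∫ v, Q v * Z v * E v := hex
    have h7 : (1 / Real.pi) * (∫ v, A v * Z v * E v) = 2 * TT t := hds
    rw [h6, hsum, mul_add, h7]
    ring
  rw [hmain]
  have hπ : ‖(1 / Real.pi : ℂ)‖ = 1 / Real.pi := by
    rw [norm_div, norm_one, Complex.norm_real, Real.norm_of_nonneg Real.pi_pos.le]
  have htl := hTL T t hT2 ht1 ht2
  have hTpos : 0 < T := by linarith
  have hmono : T ^ (-1 : ℝ) ≤ T ^ (-(2 / 5) + ε / 2) :=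
    Real.rpow_le_rpow_of_exponent_le (by linarith) (by linarith)
  have hK := hT1 T hTT1
  calc ‖(1 / Real.pi : ℂ) * (∫ v, (Q v - A v) * Z v * E v) + 2 * (TT t - D2 T t)‖
      ≤ ‖(1 / Real.pi : ℂ) * (∫ v, (Q v - A v) * Z v * E v)‖ + ‖2 * (TT t - D2 T t)‖ :=
        norm_add_le _ _
    _ ≤ 1 / Real.pi * (C * T ^ (-(2 / 5) + ε / 2)) + 2 * (C' * T ^ (-(2 / 5) + ε / 2)) := by
        rw [norm_mul, norm_mul, hπ]
        have h8 : ‖(2 : ℂ)‖ = 2 := by simp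
        rw [h8]
        have h9 : ‖TT t - D2 T t‖ ≤ C' * T ^ (-(2 / 5) + ε / 2) :=
          htl.trans (mul_le_mul_of_nonneg_left hmono hC'.le)
        have h10 : (0 : ℝ) ≤ 1 / Real.pi := by positivity
        have h11 := mul_le_mul_of_nonneg_left hbd h10
        linarith
    _ = (C / Real.pi + 2 * C') * T ^ (-(2 / 5) + ε / 2) := by ring
    _ ≤ T ^ (ε / 2) * T ^ (-(2 / 5) + ε / 2) :=
        mul_le_mul_of_nonneg_right hK (by positivity)
    _ = T ^ (-(2 / 5) + ε) := by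
        rw [← Real.rpow_add hTpos]
        congr 1
        ring

end Pool.Agent.H408R2.CM
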