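import Pool.Agent.H408R2.CM.Stubs

set_option autoImplicit false

/-! Team CM, task OFF: the transform of the kernel is negligible away from `x ≈ T^(1/2)`. -/

open Complex MeasureTheory Filter Topology

namespace Pool.Agent.H408R2.CM

open Pool.Agent.H304R4.CM

theorem OFF_norm_cG (k : ℕ) (δ : ℝ) (hδ : 0 < δ) (w : ℂ) :
    ‖cG k δ w‖ = δ ^ (k + 1) * 2 ^ k / ((k.factorial : ℝ) * √(2 * Real.pi)) *
      Real.pi ^ (-w.re) * Real.exp (Real.pi / 2 * w.im) := by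
  unfold cG
  rw [norm_mul, norm_mul, Complex.norm_real, Real.norm_eq_abs, abs_of_nonneg (by positivity),
    Complex.norm_cpow_eq_rpow_re_of_pos Real.pi_pos, Complex.norm_exp]
  congr 2
  simp
  ring

/-- the polar form of the basis -/
theorem OFF_bas (δ x : ℝ) (hc : 0 < Real.cos (2 * δ)) :
    bas (Real.tan (2 * δ)) * (x : ℂ) ^ 2 =
      ((Real.pi * x ^ 2 / Real.cos (2 * δ) : ℝ) : ℂ) *
        (Complex.cos ((Real.pi / 2 - 2 * δ : ℝ) : ℂ) +
          Complex.sin ((Real.pi / 2 - 2 * δ : ℝ) : ℂ) * I) := by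
  unfold bas
  rw [← Complex.ofReal_cos, ← Complex.ofReal_sin, Real.cos_pi_div_two_sub, Real.sin_pi_div_two_sub,
    Real.tan_eq_sin_div_cos]
  have h : ((Real.cos (2 * δ) : ℝ) : ℂ) ≠ 0 := by exact_mod_cast hc.ne'
  push_cast at h ⊢
  field_simp

theorem OFF_norm_cpow (k : ℕ) (δ x : ℝ) (hδ : 0 < δ) (hδ2 : 2 * δ < 1) (hx : 0 < x) (w : ℂ) :
    ‖(bas (Real.tan (2 * δ)) * (x : ℂ) ^ 2) ^ ((k : ℂ) + 1 / 2 + w)‖ =
      (Real.pi * x ^ 2 / Real.cos (2 * δ)) ^ ((k : ℝ) + 1 / 2 + w.re) /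
        Real.exp ((Real.pi / 2 - 2 * δ) * w.im) := by
  have hpi := Real.pi_gt_three
  have hc : 0 < Real.cos (2 * δ) :=
    Real.cos_pos_of_mem_Ioo ⟨by linarith, by linarith⟩
  have hr : 0 < Real.pi * x ^ 2 / Real.cos (2 * δ) := by positivity
  rw [OFF_bas δ x hc]
  set z : ℂ := ((Real.pi * x ^ 2 / Real.cos (2 * δ) : ℝ) : ℂ) *
        (Complex.cos ((Real.pi / 2 - 2 * δ : ℝ) : ℂ) +
          Complex.sin ((Real.pi / 2 - 2 * δ : ℝ) : ℂ) * I) with hz
  have harg : arg z = Real.pi / 2 - 2 * δ :=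
    Complex.arg_mul_cos_add_sin_mul_I hr ⟨by linarith, by linarith⟩
  have hnorm : ‖z‖ = Real.pi * x ^ 2 / Real.cos (2 * δ) := by
    rw [hz, norm_mul, Complex.norm_real, Real.norm_eq_abs, abs_of_pos hr,
      Complex.norm_cos_add_sin_mul_I, mul_one]
  have hz0 : z ≠ 0 := by
    rw [← norm_pos_iff, hnorm]; exact hr
  rw [Complex.norm_cpow_of_ne_zero hz0, harg, hnorm]
  simp

theorem OFF_norm_exp (δ x : ℝ) :
    ‖Complex.exp (-(bas (Real.tan (2 * δ)) * (x : ℂ) ^ 2))‖ =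
      Real.exp (-(Real.pi * Real.tan (2 * δ) * x ^ 2)) := by
  rw [Complex.norm_exp]
  congr 1
  unfold bas
  have : (Real.pi : ℂ) * ((Real.tan (2 * δ) : ℝ) + I) * (x : ℂ) ^ 2 =
      ((Real.pi * Real.tan (2 * δ) * x ^ 2 : ℝ) : ℂ) + ((Real.pi * x ^ 2 : ℝ) : ℂ) * I := by
    push_cast; ring
  rw [this, Complex.neg_re, Complex.add_re, Complex.ofReal_re, Complex.re_ofReal_mul, Complex.I_re]
  ring

/-- the scalar inequality for `r` -/
theorem OFF_r (r : ℝ) (hr : 0 ≤ r) (h : r ≤ 7 / 100 ∨ 40 ≤ r) :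
    r ≤ Real.exp (3 * r / 4 - 2) := by
  rcases h with h | h
  · have h1 : Real.exp (-2) ≤ Real.exp (3 * r / 4 - 2) := Real.exp_le_exp.2 (by linarith)
    have h2 : (7 : ℝ) / 100 ≤ Real.exp (-2) := by
      have h3 : Real.exp (-2) = (Real.exp 1 * Real.exp 1)⁻¹ := by
        rw [← Real.exp_add, ← Real.exp_neg]; norm_num
      rw [h3, le_inv_comm₀ (by norm_num) (by positivity)]
      have := Real.exp_one_lt_d9
      have := Real.exp_pos 1
      nlinarith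
    linarith
  · have h1 : 1 + (3 * r / 4 - 2) + (3 * r / 4 - 2) ^ 2 / 2 ≤ Real.exp (3 * r / 4 - 2) :=
      Real.quadratic_le_exp_of_nonneg (by linarith)
    nlinarith

/-- Chernoff bound -/
theorem OFF_chern (k : ℕ) (r : ℝ) (hr : 0 ≤ r) (h : r ≤ 7 / 100 ∨ 40 ≤ r) :
    ((k : ℝ) * r) ^ k / (k.factorial : ℝ) * Real.exp (-((k : ℝ) * r)) ≤
      Real.exp (-(k : ℝ)) * Real.exp (-((k : ℝ) * r / 4)) := by
  have h1 : (k : ℝ) ^ k / (k.factorial : ℝ) ≤ Real.exp k :=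
    Real.pow_div_factorial_le_exp (k : ℝ) (Nat.cast_nonneg k) k
  have h2 : ((k : ℝ) * r) ^ k / (k.factorial : ℝ) = r ^ k * ((k : ℝ) ^ k / (k.factorial : ℝ)) := by
    rw [mul_pow]; ring
  rw [h2]
  have h3 : r ^ k ≤ Real.exp ((k : ℝ) * (3 * r / 4 - 2)) := by
    rw [Real.exp_nat_mul]
    exact pow_le_pow_left₀ hr (OFF_r r hr h) k
  calc r ^ k * ((k : ℝ) ^ k / (k.factorial : ℝ)) * Real.exp (-((k : ℝ) * r))
      ≤ Real.exp ((k : ℝ) * (3 * r / 4 - 2)) * Real.exp k * Real.exp (-((k : ℝ) * r)) := by gcongr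
    _ = Real.exp (-(k : ℝ)) * Real.exp (-((k : ℝ) * r / 4)) := by
        rw [← Real.exp_add, ← Real.exp_add, ← Real.exp_add]
        congr 1; ring

/-- the polynomial factor -/
theorem OFF_poly (k : ℕ) (hk : 4 ≤ k) (r : ℝ) (hr : 0 ≤ r) :
    (1 + r) ^ 4 * Real.exp (-((k : ℝ) * r / 4)) ≤ 72 := by
  have h1 : (1 + r) ^ 4 / (Nat.factorial 4 : ℝ) ≤ Real.exp (1 + r) :=
    Real.pow_div_factorial_le_exp (1 + r) (by linarith) 4
  have h2 : (1 + r) ^ 4 ≤ 24 * Real.exp (1 + r) := by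
    have : ((Nat.factorial 4 : ℕ) : ℝ) = 24 := by norm_num [Nat.factorial]
    rw [this, div_le_iff₀ (by norm_num)] at h1
    linarith
  have hk' : (4 : ℝ) ≤ k := by exact_mod_cast hk
  have h3 : Real.exp (-((k : ℝ) * r / 4)) ≤ Real.exp (-r) := by
    apply Real.exp_le_exp.2
    nlinarith
  calc (1 + r) ^ 4 * Real.exp (-((k : ℝ) * r / 4)) ≤ (24 * Real.exp (1 + r)) * Real.exp (-r) := by
        gcongr
    _ = 24 * Real.exp 1 := by rw [mul_assoc, ← Real.exp_add]; congr 2; ring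
    _ ≤ 72 := by have := Real.exp_one_lt_d9; linarith

/-- the main estimate -/
theorem OFF_exp_half : Real.exp (1 / 2) ≤ 2 := by
  have b1 : Real.exp (1 / 2) ^ 2 = Real.exp 1 := by
    rw [← Real.exp_nat_mul]; norm_num
  have b2 := Real.exp_one_lt_d9
  have b3 := Real.exp_pos (1 / 2 : ℝ)
  nlinarith

theorem OFF_main (T t0 : ℝ) (k : ℕ) (w : ℂ) (x : ℝ) (hT : 240000 ≤ T) (hk : 25 * Real.log T ≤ k)
    (hk4 : 4 ≤ k) (hkT : (k : ℝ) ^ 2 ≤ T / 100) (ht0 : T ≤ t0) (ht1 : t0 ≤ 2 * T)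
    (hw0 : 0 ≤ w.re) (hw1 : w.re ≤ 1) (hw2 : |w.im| ≤ Real.log T) (hx : 0 < x)
    (hxx : x ≤ T ^ (1 / 2 : ℝ) / 10 ∨ 4 * T ^ (1 / 2 : ℝ) ≤ x) :
    ‖Ph k (k / t0) w x‖ * (1 + x) ^ 4 ≤ T ^ (-20 : ℝ) := by
  have hT0 : 0 < T := by linarith
  have ht00 : 0 < t0 := by linarith
  have hk1 : (4 : ℝ) ≤ k := by exact_mod_cast hk4
  have hk0 : (0 : ℝ) < k := by linarith
  have hpi3 := Real.pi_gt_three
  have hpi4 := Real.pi_le_four
  have hpi315 := Real.pi_lt_d2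
  set δ : ℝ := k / t0 with hδd
  have hδ : 0 < δ := by positivity
  have hκ : (k : ℝ) * δ ≤ 1 / 100 := by
    rw [hδd, mul_div_assoc', div_le_iff₀ ht00]
    have h0 : (k : ℝ) * k = (k : ℝ) ^ 2 := by ring
    rw [h0]
    linarith
  have hδs : δ ≤ 1 / 400 := by
    have h0 : 4 * δ ≤ k * δ := mul_le_mul_of_nonneg_right hk1 hδ.le
    linarith
  have hlog : 0 ≤ Real.log T := Real.log_nonneg (by linarith)
  set r : ℝ := 2 * Real.pi * x ^ 2 / t0 with hr
  have hr0 : 0 ≤ r := by positivity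
  -- size of r
  have hsq : (T ^ (1 / 2 : ℝ)) ^ 2 = T := by
    rw [← Real.rpow_natCast, ← Real.rpow_mul hT0.le]; norm_num
  have hsq0 : 0 < T ^ (1 / 2 : ℝ) := Real.rpow_pos_of_pos hT0 _
  have hrr : r ≤ 7 / 100 ∨ 40 ≤ r := by
    rcases hxx with h | h
    · left
      have h1 : x ^ 2 ≤ T / 100 := by
        have : x ^ 2 ≤ (T ^ (1 / 2 : ℝ) / 10) ^ 2 := pow_le_pow_left₀ hx.le h 2
        rw [div_pow, hsq] at this
        linarith
      rw [hr, div_le_iff₀ ht00]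
      have h2 : 2 * Real.pi * x ^ 2 ≤ 2 * 3.15 * (T / 100) := by
        gcongr
      norm_num at h2
      linarith
    · right
      have h1 : 16 * T ≤ x ^ 2 := by
        have : (4 * T ^ (1 / 2 : ℝ)) ^ 2 ≤ x ^ 2 := pow_le_pow_left₀ (by positivity) h 2
        rw [mul_pow, hsq] at this
        linarith
      rw [hr, le_div_iff₀ ht00]
      have h2 : 2 * 3 * (16 * T) ≤ 2 * Real.pi * x ^ 2 := by
        gcongr
      linarith
  have hxr : x ^ 2 ≤ r * T := by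
    have h1 : r * t0 = 2 * Real.pi * x ^ 2 := by rw [hr]; field_simp
    have h2 : r * t0 ≤ r * (2 * T) := mul_le_mul_of_nonneg_left ht1 hr0
    have h3 : 1 * x ^ 2 ≤ Real.pi * x ^ 2 := by
      gcongr
      linarith
    linarith
  -- cos
  have hcos : 1 - 2 * δ ^ 2 ≤ Real.cos (2 * δ) := by
    have := Real.one_sub_sq_div_two_le_cos (x := 2 * δ)
    linarith
  have hδ2s : δ ^ 2 ≤ 1 / 160000 := by
    calc δ ^ 2 ≤ (1 / 400) ^ 2 := by gcongr
      _ = 1 / 160000 := by norm_num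
  have hcpos : 0 < Real.cos (2 * δ) := by linarith
  have hcinv : 1 / Real.cos (2 * δ) ≤ Real.exp (4 * δ ^ 2) := by
    have h1 : 1 / Real.cos (2 * δ) ≤ 1 / (1 - 2 * δ ^ 2) :=
      one_div_le_one_div_of_le (by linarith) hcos
    have h2 : 1 / (1 - 2 * δ ^ 2) ≤ 4 * δ ^ 2 + 1 := by
      rw [div_le_iff₀ (by linarith)]
      have h5 : 0 ≤ δ ^ 2 * (2 - 8 * δ ^ 2) := mul_nonneg (sq_nonneg δ) (by linarith)
      have h6 : (4 * δ ^ 2 + 1) * (1 - 2 * δ ^ 2) = 1 + δ ^ 2 * (2 - 8 * δ ^ 2) := by ring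
      rw [h6]
      linarith
    exact h1.trans (h2.trans (Real.add_one_le_exp _))
  -- the three factors
  set p : ℝ := 1 / 2 + w.re with hp
  have hp0 : 0 ≤ p := by rw [hp]; linarith
  have hp2 : p ≤ 3 / 2 := by rw [hp]; linarith
  have hN : ‖Ph k δ w x‖ ≤ 52 * (δ * (Real.pi * x ^ 2) ^ p *
      (((k : ℝ) * r) ^ k / (k.factorial : ℝ) * Real.exp (-((k : ℝ) * r)))) := by
    unfold Ph
    rw [norm_mul, norm_mul, norm_mul, OFF_norm_cG k δ hδ, OFF_norm_cpow k δ x hδ (by linarith) hx w,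
      OFF_norm_exp]
    have n1 : ‖(4 : ℂ) * (Real.pi : ℂ)‖ = 4 * Real.pi := by
      rw [norm_mul, Complex.norm_real, Real.norm_eq_abs, abs_of_pos Real.pi_pos]; simp
    have e1 : (Real.pi * x ^ 2 / Real.cos (2 * δ)) ^ ((k : ℝ) + 1 / 2 + w.re) ≤
        2 * ((Real.pi * x ^ 2) ^ k * (Real.pi * x ^ 2) ^ p) := by
      rw [div_eq_mul_one_div, Real.mul_rpow (by positivity) (by positivity)]
      have a1 : (Real.pi * x ^ 2) ^ ((k : ℝ) + 1 / 2 + w.re) =
          (Real.pi * x ^ 2) ^ k * (Real.pi * x ^ 2) ^ p := by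
        rw [← Real.rpow_natCast (Real.pi * x ^ 2) k, ← Real.rpow_add (by positivity)]
        congr 1
        rw [hp]; ring
      have a2 : (1 / Real.cos (2 * δ)) ^ ((k : ℝ) + 1 / 2 + w.re) ≤ 2 := by
        calc (1 / Real.cos (2 * δ)) ^ ((k : ℝ) + 1 / 2 + w.re)
            ≤ (Real.exp (4 * δ ^ 2)) ^ ((k : ℝ) + 1 / 2 + w.re) :=
              Real.rpow_le_rpow (by positivity) hcinv (by linarith)
          _ = Real.exp (4 * δ ^ 2 * ((k : ℝ) + 1 / 2 + w.re)) := by rw [← Real.exp_mul]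
          _ ≤ Real.exp (1 / 2) := by
              apply Real.exp_le_exp.2
              have b1 : (k : ℝ) + 1 / 2 + w.re ≤ 2 * k := by linarith
              have b2 : 4 * δ ^ 2 * ((k : ℝ) + 1 / 2 + w.re) ≤ 4 * δ ^ 2 * (2 * k) :=
                mul_le_mul_of_nonneg_left b1 (by positivity)
              have b3 : 4 * δ ^ 2 * (2 * k) = 8 * δ * (k * δ) := by ring
              have b4 : δ * (k * δ) ≤ δ * (1 / 100) := mul_le_mul_of_nonneg_left hκ hδ.le
              linarith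
          _ ≤ 2 := OFF_exp_half
      rw [a1]
      calc (Real.pi * x ^ 2) ^ k * (Real.pi * x ^ 2) ^ p *
            (1 / Real.cos (2 * δ)) ^ ((k : ℝ) + 1 / 2 + w.re)
          ≤ (Real.pi * x ^ 2) ^ k * (Real.pi * x ^ 2) ^ p * 2 := by gcongr
        _ = _ := by ring
    have e2 : Real.exp (Real.pi / 2 * w.im) / Real.exp ((Real.pi / 2 - 2 * δ) * w.im) ≤ 2 := by
      rw [← Real.exp_sub]
      have a1 : Real.pi / 2 * w.im - (Real.pi / 2 - 2 * δ) * w.im = 2 * δ * w.im := by ring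
      rw [a1]
      have a2 : 2 * δ * w.im ≤ 1 / 2 := by
        have b1 : w.im ≤ k / 25 := by
          have := le_abs_self w.im
          linarith
        have b2 : 2 * δ * w.im ≤ 2 * δ * (k / 25) := mul_le_mul_of_nonneg_left b1 (by positivity)
        linarith
      exact (Real.exp_le_exp.2 a2).trans OFF_exp_half
    have e3 : Real.exp (-(Real.pi * Real.tan (2 * δ) * x ^ 2)) ≤ Real.exp (-((k : ℝ) * r)) := by
      apply Real.exp_le_exp.2
      have a1 : 2 * δ ≤ Real.tan (2 * δ) := Real.le_tan (by linarith) (by linarith)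
      have a2 : (k : ℝ) * r = Real.pi * (2 * δ) * x ^ 2 := by rw [hr, hδd]; field_simp
      rw [a2]
      have : Real.pi * (2 * δ) * x ^ 2 ≤ Real.pi * Real.tan (2 * δ) * x ^ 2 := by gcongr
      linarith
    have e4 : Real.pi ^ (-w.re) ≤ 1 :=
      Real.rpow_le_one_of_one_le_of_nonpos (by linarith) (by linarith)
    have e5 : δ ^ (k + 1) * 2 ^ k / ((k.factorial : ℝ) * √(2 * Real.pi)) ≤
        δ * ((2 * δ) ^ k / (k.factorial : ℝ)) := by
      have a1 : 1 ≤ √(2 * Real.pi) := by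
        rw [Real.one_le_sqrt]; linarith
      have a2 : δ ^ (k + 1) * 2 ^ k = δ * (2 * δ) ^ k := by rw [mul_pow]; ring
      rw [a2, mul_div_assoc]
      apply mul_le_mul_of_nonneg_left _ hδ.le
      apply div_le_div_of_nonneg_left (by positivity) (by positivity)
      have : (0 : ℝ) < k.factorial := by exact_mod_cast Nat.factorial_pos k
      exact le_mul_of_one_le_right this.le a1
    have e6 : (2 * δ) ^ k * (Real.pi * x ^ 2) ^ k = ((k : ℝ) * r) ^ k := by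
      rw [← mul_pow]
      congr 1
      rw [hr, hδd]; field_simp
    rw [n1]
    calc δ ^ (k + 1) * 2 ^ k / ((k.factorial : ℝ) * √(2 * Real.pi)) * Real.pi ^ (-w.re) *
          Real.exp (Real.pi / 2 * w.im) * (4 * Real.pi) *
          ((Real.pi * x ^ 2 / Real.cos (2 * δ)) ^ ((k : ℝ) + 1 / 2 + w.re) /
            Real.exp ((Real.pi / 2 - 2 * δ) * w.im)) *
          Real.exp (-(Real.pi * Real.tan (2 * δ) * x ^ 2))
        = δ ^ (k + 1) * 2 ^ k / ((k.factorial : ℝ) * √(2 * Real.pi)) * Real.pi ^ (-w.re) *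
          (Real.exp (Real.pi / 2 * w.im) / Real.exp ((Real.pi / 2 - 2 * δ) * w.im)) *
          (4 * Real.pi) *
          (Real.pi * x ^ 2 / Real.cos (2 * δ)) ^ ((k : ℝ) + 1 / 2 + w.re) *
          Real.exp (-(Real.pi * Real.tan (2 * δ) * x ^ 2)) := by ring
      _ ≤ δ * ((2 * δ) ^ k / (k.factorial : ℝ)) * 1 * 2 * 13 *
          (2 * ((Real.pi * x ^ 2) ^ k * (Real.pi * x ^ 2) ^ p)) * Real.exp (-((k : ℝ) * r)) := by
          have : 4 * Real.pi ≤ 13 := by linarith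
          gcongr
      _ = 52 * (δ * (Real.pi * x ^ 2) ^ p *
          (((2 * δ) ^ k * (Real.pi * x ^ 2) ^ k) / (k.factorial : ℝ) *
            Real.exp (-((k : ℝ) * r)))) := by ring
      _ = _ := by rw [e6]
  have hch := OFF_chern k r hr0 hrr
  have hpoly := OFF_poly k hk4 r hr0
  -- polynomial factors
  have hx2 : 1 + x ^ 2 ≤ T * (1 + r) := by linarith
  have q1 : (Real.pi * x ^ 2) ^ p ≤ (4 * (T * (1 + r))) ^ 2 := by
    have a1 : Real.pi * x ^ 2 ≤ 4 * (T * (1 + r)) := by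
      have a0 : Real.pi * x ^ 2 ≤ 4 * x ^ 2 := by gcongr
      linarith
    have a2 : (1 : ℝ) ≤ 4 * (T * (1 + r)) := by linarith [sq_nonneg x]
    calc (Real.pi * x ^ 2) ^ p ≤ (4 * (T * (1 + r))) ^ p :=
          Real.rpow_le_rpow (by positivity) a1 hp0
      _ ≤ (4 * (T * (1 + r))) ^ (2 : ℝ) := Real.rpow_le_rpow_of_exponent_le a2 (by linarith)
      _ = _ := by norm_cast
  have q2 : (1 + x) ^ 4 ≤ 4 * (T * (1 + r)) ^ 2 := by
    have a1 : (1 + x) ^ 2 ≤ 2 * (1 + x ^ 2) := by nlinarith [sq_nonneg (1 - x)]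
    have a2 : (1 + x) ^ 2 ≤ 2 * (T * (1 + r)) := by linarith
    calc (1 + x) ^ 4 = ((1 + x) ^ 2) ^ 2 := by ring
      _ ≤ (2 * (T * (1 + r))) ^ 2 := pow_le_pow_left₀ (by positivity) a2 2
      _ = _ := by ring
  have hfin : ‖Ph k δ w x‖ * (1 + x) ^ 4 ≤ 240000 * T ^ 4 * Real.exp (-(k : ℝ)) := by
    calc ‖Ph k δ w x‖ * (1 + x) ^ 4
        ≤ (52 * (1 * (4 * (T * (1 + r))) ^ 2 *
            (Real.exp (-(k : ℝ)) * Real.exp (-((k : ℝ) * r / 4))))) * (4 * (T * (1 + r)) ^ 2) := by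
          refine mul_le_mul ?_ q2 (by positivity) (by positivity)
          refine hN.trans ?_
          gcongr
          linarith
      _ = 3328 * T ^ 4 * Real.exp (-(k : ℝ)) *
            ((1 + r) ^ 4 * Real.exp (-((k : ℝ) * r / 4))) := by ring
      _ ≤ 3328 * T ^ 4 * Real.exp (-(k : ℝ)) * 72 := by gcongr
      _ = 239616 * (T ^ 4 * Real.exp (-(k : ℝ))) := by ring
      _ ≤ 240000 * (T ^ 4 * Real.exp (-(k : ℝ))) := by
          have : 0 ≤ T ^ 4 * Real.exp (-(k : ℝ)) := by positivity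
          linarith
      _ = _ := by ring
  refine hfin.trans ?_
  have h25 : Real.exp (-(k : ℝ)) ≤ T ^ (-25 : ℝ) := by
    rw [Real.rpow_def_of_pos hT0]
    apply Real.exp_le_exp.2
    linarith
  calc 240000 * T ^ 4 * Real.exp (-(k : ℝ)) ≤ T * T ^ 4 * T ^ (-25 : ℝ) := by gcongr
    _ = T ^ (5 : ℝ) * T ^ (-25 : ℝ) := by
        congr 1
        have : T ^ (5 : ℝ) = T ^ (5 : ℕ) := by norm_cast
        rw [this]; ring
    _ = T ^ (-20 : ℝ) := by rw [← Real.rpow_add hT0]; norm_num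

theorem OFF : S_OFF := by
  have ev1 : ∀ᶠ T : ℝ in atTop, 25 * Real.log T ≤ T ^ (1 / 1000000 : ℝ) := by
    have h := (isLittleO_log_rpow_atTop (r := 1 / 1000000) (by norm_num)).bound
      (show (0 : ℝ) < 1 / 25 by norm_num)
    filter_upwards [h, eventually_ge_atTop 1] with T h1 h2
    rw [Real.norm_eq_abs, Real.norm_eq_abs, abs_of_nonneg (Real.log_nonneg h2),
      abs_of_nonneg (by positivity)] at h1
    linarith
  obtain ⟨T1, hT1⟩ := eventually_atTop.1 ev1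
  refine ⟨max T1 240000, ?_⟩
  intro T hT k hk1 hk2 t0 ht0 ht1 w hw0 hw1 hw2 x hx hxx
  have hTa : T1 ≤ T := (le_max_left _ _).trans hT
  have hTb : 240000 ≤ T := (le_max_right _ _).trans hT
  have hT0 : 0 < T := by linarith
  have hk : 25 * Real.log T ≤ k := (hT1 T hTa).trans hk1
  have hlogT : 1 ≤ Real.log T := by
    rw [Real.le_log_iff_exp_le hT0]
    have := Real.exp_one_lt_d9
    linarith
  have hk4 : 4 ≤ k := by
    have : (4 : ℝ) ≤ k := by linarith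
    exact_mod_cast this
  have hkT : (k : ℝ) ^ 2 ≤ T / 100 := by
    have h1 : (k : ℝ) ^ 2 ≤ (T ^ (1 / 100 : ℝ)) ^ 2 := pow_le_pow_left₀ (by positivity) hk2 2
    have h2 : (T ^ (1 / 100 : ℝ)) ^ 2 ≤ T ^ (1 / 2 : ℝ) := by
      rw [← Real.rpow_natCast, ← Real.rpow_mul hT0.le]
      apply Real.rpow_le_rpow_of_exponent_le (by linarith)
      norm_num
    have h3 : (T ^ (1 / 2 : ℝ)) ^ 2 = T := by
      rw [← Real.rpow_natCast, ← Real.rpow_mul hT0.le]; norm_num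
    have h4 : (100 : ℝ) ≤ T ^ (1 / 2 : ℝ) := by
      by_contra h
      push Not at h
      have h5 : 0 < T ^ (1 / 2 : ℝ) := Real.rpow_pos_of_pos hT0 _
      nlinarith
    nlinarith
  have h := OFF_main T t0 k w x hTb hk hk4 hkT ht0 ht1 hw0 hw1 hw2 hx hxx
  have h1x : (1 + x) ^ (-4 : ℝ) = ((1 + x) ^ 4)⁻¹ := by
    rw [Real.rpow_neg (by linarith)]
    norm_cast
  rw [h1x, ← div_eq_mul_inv, le_div_iff₀ (by positivity)]
  exact h

end Pool.Agent.H408R2.CM
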